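import Pool.Agent.TH899.UG.Stm
import Pool.Agent.W25.UB.AsmB

/-! Assembly for general linear forms: pointwise facts. -/

set_option autoImplicit false

namespace Pool.Agent.TH899.UG

open Finset Filter Topology
open Pool.Agent.H410R2 hiding GP GP_prof GP_cut_some GP_cut_none GP_lip gg_pos gg_le_one gg_anti ee_bound ee_nonneg gg_lip LB_gg LB_ee Sums exists_sums yx wx wxi Br sum_GP_none sum_GP_some sum_GP_some_ee sum_GP_some_one sum_GPr_none sum_GPr_some S1_final QI_final S2_final w_abs_le wmax gg ee I1 I2 IE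
open Pool.Agent.H361R2.GM
open Pool.Agent.H362R2.CM
open Pool.Agent.W25.UN
open Pool.Agent.W25.UB

/-- the forms are large on the range of `n` -/
def PosF {k : ℕ} (α h : Fin k → ℤ) (Mo N : ℕ) : Prop :=
  ∀ (i : Fin k) (n : ℕ), (N : ℝ) / 16 ≤ n → (n : ℝ) ≤ N / 2 → (N : ℝ) / 32 ≤ (Fm α h Mo i n : ℝ)

section
variable {k : ℕ}

/-- a prime value of a form has no small prime factor -/
theorem no_smallF {α h : Fin k → ℤ} {Mo N n : ℕ}
    (hn1 : (N : ℝ) / 16 ≤ n) (hn2 : (n : ℝ) ≤ N / 2) (hh : PosF α h Mo N) (hN : 0 < N) {i : Fin k}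
    (hp : (Fm α h Mo i n).toNat.Prime) {p : ℕ} (hp1 : p.Prime) (hp2 : (p : ℝ) ≤ N / 64) :
    ¬ (p : ℤ) ∣ Lf α h Mo (some i) n := by
  intro hd
  rw [Lf_eq] at hd
  have h1 := hh i n hn1 hn2
  have hNR : (0 : ℝ) < N := by exact_mod_cast hN
  have h2 : (0 : ℤ) ≤ Fm α h Mo i n := by
    have : (0 : ℝ) ≤ (Fm α h Mo i n : ℝ) := by linarith
    exact_mod_cast this
  have h3 : ((Fm α h Mo i n).toNat : ℤ) = Fm α h Mo i n := Int.toNat_of_nonneg h2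
  rw [← h3] at hd
  have h4 : p ∣ (Fm α h Mo i n).toNat := by exact_mod_cast hd
  have h5 := (Nat.prime_dvd_prime_iff_eq hp1 hp).1 h4
  have h6 : (p : ℝ) = (Fm α h Mo i n : ℝ) := by
    rw [h5]
    have : (((Fm α h Mo i n).toNat : ℤ) : ℝ) = ((Fm α h Mo i n : ℤ) : ℝ) := by rw [h3]
    rw [← this, Int.cast_natCast]
  linarith

variable {Q : SPar} {α h : Fin k → ℤ} {ε₀ ε₁ ρ ρ₁ ε M C1 : ℝ}
    {Mo A E₁ D B N v D₁ z : ℕ} {Tr : ℤ → ℝ} {t : ℝ} {th dl b : ℕ → ℝ}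


theorem pt_leF (hNWE : St_NWE) (H : DatF Q α h Mo ε₀ ε₁ ρ ρ₁ ε M C1 A E₁ D B N v D₁ z Tr t th dl b)
    (hD : 2 ≤ D) (i : Fin k) (n : ℕ) (hn : n ∈ Ns α h D (DB (2 * N) B) Mo v N)
    (hn1 : (N : ℝ) / 16 ≤ n) (hn2 : (n : ℝ) ≤ N / 2) (hh : PosF α h Mo N)
    (hbig : ((2 * N : ℕ) : ℝ) ^ ε₁ ≤ N / 64)
    (hp : (Fm α h Mo i n).toNat.Prime) :
    (wZ Q (uB α) (wB h Mo) (PBF α h Mo N B ρ₁) (ρ * Real.log N) n) ^ 2 ≤
      2 * muF Q α h Mo ρ ρ₁ D B N v Tr i n := by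
  have hN0 : 0 < N := by have := H.N8; omega
  have hPB : ∀ p ∈ PBF α h Mo N B ρ₁, p.Prime ∧ (p : ℝ) ≤ N / 64 := by
    intro p hp'
    have h1 := H.gd p (Finset.mem_union_left _ hp')
    exact ⟨h1.1.1, h1.2.2.trans hbig⟩
  obtain ⟨e1, e2⟩ := hNWE k (uB α) (wB h Mo) (PBF α h Mo N B ρ₁) (fun p hp' => (hPB p hp').1.two_le)
  have hl := H.l1
  have hρ := H.ρ0
  have h1 := e1 (some i) (ρ * Real.log N) (yP Q k (PBF α h Mo N B ρ₁) (ρ * Real.log N)) n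
    (by positivity) (by
      intro p hp'
      have := no_smallF hn1 hn2 hh hN0 hp (hPB p hp').1 (hPB p hp').2
      exact this)
  have h2 := e2 Q (ρ * Real.log N) n
  rw [h2, ← h1]
  unfold muF
  have hNs := hn
  unfold Ns at hNs
  rw [Finset.mem_filter] at hNs
  obtain ⟨-, hnv, hnO⟩ := hNs
  have hdv : (((WW D / 2 : ℕ) : ℤ) ∣ (n : ℤ) - v) := by
    have h3 : WW D / 2 ∣ WW D := Nat.div_dvd_of_dvd (two_dvd_WW hD)
    have h4 : ((WW D : ℕ) : ℤ) ∣ (n : ℤ) - v :=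
      (Nat.modEq_iff_dvd.1 hnv.symm)
    exact (Int.natCast_dvd_natCast.2 h3).trans h4
  have hTr : 1 ≤ Tr n := by
    apply H.Tr1
    intro p hpp hDp hpD j hd
    have hq : p ∈ QQ D (DB (2 * N) B) := by
      unfold QQ
      rw [Finset.mem_filter, Finset.mem_Icc]
      exact ⟨⟨by omega, hpD⟩, hpp⟩
    apply hnO p hq
    unfold Om
    rw [Finset.mem_filter, Finset.mem_range]
    refine ⟨Nat.mod_lt _ hpp.pos, j, ?_⟩
    unfold LZ
    rw [← Int.natCast_dvd]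
    have h3 : (p : ℤ) ∣ uB α j * ((n : ℤ) - ((n % p : ℕ) : ℤ)) := by
      apply Dvd.dvd.mul_left
      have h9 : (n : ℤ) - ((n % p : ℕ) : ℤ) = p * ((n / p : ℕ) : ℤ) := by
        have h8 : (((n % p + p * (n / p) : ℕ)) : ℤ) = (n : ℤ) := by rw [Nat.mod_add_div]
        rw [Nat.cast_add, Nat.cast_mul] at h8
        linarith
      rw [h9]
      exact dvd_mul_right _ _
    have h4 := dvd_sub hd h3
    have : uB α j * (n : ℤ) + wB h Mo j - uB α j * ((n : ℤ) - ((n % p : ℕ) : ℤ)) =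
        uB α j * ((n % p : ℕ) : ℤ) + wB h Mo j := by ring
    rw [this] at h4
    exact h4
  rw [if_pos hdv]
  have hWt := Wt_ge hN0 hn2
  set X := FZ (uB α) (wB h Mo) (PBF α h Mo N B ρ₁)
        (cw (prP (PBF α h Mo N B ρ₁)) (zA Q k (PBF α h Mo N B ρ₁) (ρ * Real.log N) i)) n ^ 2 with hX
  have hX0 : 0 ≤ X := sq_nonneg _
  have hXe : FZ (uB α) (wB h Mo) (PBF α h Mo N B ρ₁) (cw (prP (PBF α h Mo N B ρ₁)) (ymod (some i)
      (prP (PBF α h Mo N B ρ₁)) (uj (some i) (prP (PBF α h Mo N B ρ₁)) (ρ * Real.log N))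
      (yP Q k (PBF α h Mo N B ρ₁) (ρ * Real.log N)))) n ^ 2 = X := by
    rw [hX]
    rfl
  rw [hXe]
  have h5 : 1 * X ≤ Tr n * X := mul_le_mul_of_nonneg_right hTr hX0
  have h6 : 0 ≤ Tr n * X := mul_nonneg (H.Tr0 n) hX0
  have h7 := mul_le_mul_of_nonneg_right hWt h6
  have e : 2 * (Pool.Agent.H442R2.KF.Wt (2 * N) ↑n * (1 * Tr ↑n * X)) =
      2 * (Pool.Agent.H442R2.KF.Wt (2 * N) ↑n * (Tr ↑n * X)) := by ring
  rw [e]
  linarith

theorem sj_nonnegF (H : DatF Q α h Mo ε₀ ε₁ ρ ρ₁ ε M C1 A E₁ D B N v D₁ z Tr t th dl b) (j : Fin k)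
    (n : ℤ) : 0 ≤ sjF α h Mo ε₁ B N z b j n := by
  unfold sjF
  apply mul_nonneg _ (H.bn _)
  unfold Pool.Agent.W23.PL.xx
  split_ifs <;> norm_num

theorem sj_oneF (H : DatF Q α h Mo ε₀ ε₁ ρ ρ₁ ε M C1 A E₁ D B N v D₁ z Tr t th dl b) (j : Fin k)
    (n : ℕ) (hn1 : (N : ℝ) / 16 ≤ n) (hn2 : (n : ℝ) ≤ N / 2) (hh : PosF α h Mo N)
    (hbig : ((2 * N : ℕ) : ℝ) ^ ε₁ ≤ N / 64)
    (hz64 : 64 * z ≤ N)
    (hp : (Fm α h Mo j n).toNat.Prime) : 1 ≤ sjF α h Mo ε₁ B N z b j n := by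
  have hN0 : 0 < N := by have := H.N8; omega
  unfold sjF
  have h1 : Pool.Agent.W23.PL.xx (PtF α h Mo N B ε₁) (Lf α h Mo (some j) n) = 1 := by
    unfold Pool.Agent.W23.PL.xx
    rw [if_pos]
    intro p hp'
    have h1 := H.gd p (Finset.mem_union_right _ hp')
    exact no_smallF hn1 hn2 hh hN0 hp h1.1.1 (h1.2.2.trans hbig)
  have h2 : ds b (z ^ 2) (Lf α h Mo (some j) n) = 1 := by
    apply H.bo
    intro p hp'
    unfold PbF at hp'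
    rw [Finset.mem_filter, Finset.mem_Icc] at hp'
    apply no_smallF hn1 hn2 hh hN0 hp hp'.2.1
    have h4 : 64 * (p : ℝ) ≤ N := by
      have h5 : 64 * p ≤ N := by omega
      exact_mod_cast h5
    linarith
  rw [h1, h2]
  norm_num

end


/-- comparison of the sizes -/
theorem MM_leF {k : ℕ} (α h : Fin k → ℤ) (Mo D N B : ℕ) (ρ κ : ℝ) (hκ : 0 < κ) (hD : 2 ≤ D)
    (hW : 1 ≤ WW D / 2) (hV : 0 < Pool.Agent.W25.UN.VV α h Mo D (DB (2 * N) B))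
    (hb : 0 < bb N B ρ) :
    MMF α h Mo D N B ρ ≤ 512 * ∑ r ∈ range (Rn κ),
      ZZ k (Pool.Agent.W25.UN.VV α h Mo D (DB (2 * N) B)) (κ * (ctr κ r * N)) (WW D)
        (BD (DB (2 * N) B)) (ρ * Real.log N) := by
  have hWW : ((WW D : ℕ) : ℝ) = 2 * ((WW D / 2 : ℕ) : ℝ) := by
    have h1 : 2 * (WW D / 2) = WW D := Nat.mul_div_cancel' (two_dvd_WW hD)
    have h2 : ((2 * (WW D / 2) : ℕ) : ℝ) = ((WW D : ℕ) : ℝ) := by rw [h1]
    rw [← h2]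
    push_cast
    ring
  have hW' : (0 : ℝ) < ((WW D / 2 : ℕ) : ℝ) := by exact_mod_cast (by omega : 0 < WW D / 2)
  set w : ℝ := ((WW D / 2 : ℕ) : ℝ) with hw
  set V : ℝ := Pool.Agent.W25.UN.VV α h Mo D (DB (2 * N) B) with hVd
  have e1 : ∑ r ∈ range (Rn κ), ZZ k V (κ * (ctr κ r * N)) (WW D)
        (BD (DB (2 * N) B)) (ρ * Real.log N) =
      (V * N / (2 * w) * (bb N B ρ / 48 * bb N B ρ ^ k)) * ∑ r ∈ range (Rn κ), κ * ctr κ r := by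
    rw [Finset.mul_sum]
    refine Finset.sum_congr rfl fun r _ => ?_
    unfold ZZ
    rw [hWW]
    have : BD (DB (2 * N) B) * (ρ * Real.log N) = bb N B ρ := rfl
    have h2 : BD (DB (2 * N) B) * (ρ * Real.log N / 48) = bb N B ρ / 48 := by
      rw [← this]; ring
    rw [this, h2]
    ring
  rw [e1]
  have h1 := ctr_sum hκ
  have hX : 0 ≤ V * N / (2 * w) * (bb N B ρ / 48 * bb N B ρ ^ k) := by positivity
  have h2 := mul_le_mul_of_nonneg_left h1 hX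
  unfold MMF
  rw [← hVd, ← hw]
  have e2 : ((2 * N : ℕ) : ℝ) * (V / w * (bb N B ρ / 48 * bb N B ρ ^ k)) =
      4 * (V * N / (2 * w) * (bb N B ρ / 48 * bb N B ρ ^ k)) := by
    push_cast
    field_simp
    ring
  rw [e2]
  linarith


end Pool.Agent.TH899.UG
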