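import Mathlib
import Pool.Agent.W25.UN.Conv2
import Pool.Agent.W25.UN.Est4

/-! Geometry of the tents without the size condition on the offset of the forms. -/

set_option autoImplicit false

namespace Pool.Agent.TH899.UG

open Finset Filter Topology
open Pool.Agent.H410R2 hiding GP GP_prof GP_cut_some GP_cut_none GP_lip gg_pos gg_le_one gg_anti ee_bound ee_nonneg gg_lip LB_gg LB_ee Sums exists_sums yx wx wxi Br sum_GP_none sum_GP_some sum_GP_some_ee sum_GP_some_one sum_GPr_none sum_GPr_some S1_final QI_final S2_final w_abs_le wmax gg ee I1 I2 IE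
open Pool.Agent.H361R2.GM
open Pool.Agent.H362R2.CM
open Pool.Agent.W25.UN

variable {k : ℕ}

structure GeoF (α h : Fin k → ℤ) (D D' N v : ℕ) (P : Finset ℕ) (n0 Δ : ℝ) (X : ℕ)
    (x0 : Fin k → ℝ) (Xi : Fin k → ℕ) (vi : Fin k → ℕ) : Prop where
  g0 : 0 < Δ
  g1 : Δ < n0
  nX : n0 + Δ ≤ X
  hx0 : ∀ i, (aI α i : ℝ) * x0 i = N + α i * n0 + h i
  hXi : ∀ i, x0 i + Δ ≤ Xi i
  big1 : ∀ i, (D' : ℝ) + aI α i + 1 < aI α i * (x0 i - Δ)
  big2 : ∀ i, ∀ p ∈ P, (p : ℝ) < aI α i * (x0 i - Δ)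
  vi1 : ∀ i, ∀ y : ℤ, y ≡ (vi i : ℤ) [ZMOD (WW D)] ↔
    sI α i * y + tI α h N i ≡ (v : ℤ) [ZMOD (WW D)]

variable {α h : Fin k → ℤ} {D D' N v : ℕ} {P : Finset ℕ} {n0 Δ : ℝ} {X : ℕ}
    {x0 : Fin k → ℝ} {Xi : Fin k → ℕ} {vi : Fin k → ℕ}

theorem corr_realF (H : Hyp α h D D' N v P) (G : GeoF α h D D' N v P n0 Δ X x0 Xi vi) (i : Fin k)
    (n y : ℕ) (hny : (n : ℤ) = sI α i * y + tI α h N i) :
    |((aI α i * y + bI α h N i : ℕ) : ℝ) / aI α i - x0 i| = |(n : ℝ) - n0| := by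
  have ha : (0 : ℝ) < aI α i := by exact_mod_cast aI_pos α H.hα i
  have h1 := Fm_corr α h H.hα N i n y hny
  have h2 : ((aI α i * y + bI α h N i : ℕ) : ℝ) = N + α i * n + h i := by
    have h3 : (((aI α i * y + bI α h N i : ℕ) : ℤ) : ℝ) = ((Fm α h N i n : ℤ) : ℝ) := by
      rw [h1]
    rw [Int.cast_natCast] at h3
    rw [h3]
    unfold Fm
    push_cast
    ring
  have h3 : ((aI α i * y + bI α h N i : ℕ) : ℝ) / aI α i - x0 i =
      (α i : ℝ) / aI α i * (n - n0) := by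
    have h4 := G.hx0 i
    rw [h2]
    field_simp
    linarith
  rw [h3, abs_mul]
  have h5 : |(α i : ℝ) / aI α i| = 1 := by
    rw [abs_div, abs_of_pos ha]
    have h6 : |(α i : ℝ)| = aI α i := by
      have := aI_abs α i
      rw [← Int.cast_abs, ← this, Int.cast_natCast]
    rw [h6]
    exact div_self ha.ne'
  rw [h5, one_mul]

theorem corr_ltF (H : Hyp α h D D' N v P) (G : GeoF α h D D' N v P n0 Δ X x0 Xi vi) (i : Fin k)
    (n y : ℕ) (hny : (n : ℤ) = sI α i * y + tI α h N i) :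
    lt (x0 i) Δ (((aI α i * y + bI α h N i : ℕ) : ℝ) / aI α i) = lt n0 Δ n := by
  unfold lt
  rw [corr_realF H G i n y hny]

theorem vi_natF (G : GeoF α h D D' N v P n0 Δ X x0 Xi vi) (i : Fin k) (n y : ℕ)
    (hny : (n : ℤ) = sI α i * y + tI α h N i) :
    y ≡ vi i [MOD (WW D)] ↔ n ≡ v [MOD (WW D)] := by
  have h1 := G.vi1 i (y : ℤ)
  rw [← hny] at h1
  rw [← Int.natCast_modEq_iff, ← Int.natCast_modEq_iff]
  exact h1

theorem corr_realZF (H : Hyp α h D D' N v P) (G : GeoF α h D D' N v P n0 Δ X x0 Xi vi) (i : Fin k)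
    (n : ℤ) (y : ℕ) (hny : n = sI α i * y + tI α h N i) :
    |((aI α i * y + bI α h N i : ℕ) : ℝ) / aI α i - x0 i| = |(n : ℝ) - n0| := by
  have ha : (0 : ℝ) < aI α i := by exact_mod_cast aI_pos α H.hα i
  have h1 := Fm_corrZ (α := α) (h := h) (N := N) H.hα i n y hny
  have h2 : ((aI α i * y + bI α h N i : ℕ) : ℝ) = N + α i * n + h i := by
    have h3 : (((aI α i * y + bI α h N i : ℕ) : ℤ) : ℝ) = ((Fm α h N i n : ℤ) : ℝ) := by
      rw [h1]
    rw [Int.cast_natCast] at h3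
    rw [h3]
    unfold Fm
    push_cast
    ring
  have h3 : ((aI α i * y + bI α h N i : ℕ) : ℝ) / aI α i - x0 i =
      (α i : ℝ) / aI α i * (n - n0) := by
    have h4 := G.hx0 i
    rw [h2]
    field_simp
    linarith
  rw [h3, abs_mul]
  have h5 : |(α i : ℝ) / aI α i| = 1 := by
    rw [abs_div, abs_of_pos ha]
    have h6 : |(α i : ℝ)| = aI α i := by
      have := aI_abs α i
      rw [← Int.cast_abs, ← this, Int.cast_natCast]
    rw [h6]
    exact div_self ha.ne'
  rw [h5, one_mul]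

/-- the lower conversion -/
theorem conv_lowF (hRC : RootsCount) (hWE : WEq) (H : Hyp α h D D' N v P)
    (G : GeoF α h D D' N v P n0 Δ X x0 Xi vi) (Q : SPar) (L hi W2 : ℝ) (i j : Fin k)
    (hij : i ≠ j) (hhi : Real.log (aI α i * (x0 i + Δ)) ≤ hi) (hW2 : 0 ≤ W2)
    (hw : ∀ n : ℕ, |(n : ℝ) - n0| < Δ →
      (wIZ (uB α) (wB h N) P i (yP Q k P L) n) ^ 2 ≤ W2) (hx1 : 1 ≤ x0 i + Δ) :
    ∑ y ∈ Ys α h i D D' N (vi i) (Xi i),
      (lt (x0 i) Δ (((aI α i * y + bI α h N i : ℕ) : ℝ) / aI α i) *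
        ArithmeticFunction.vonMangoldt (aI α i * y + bI α h N i)) *
          (wIZ (uO α i) (wO α h N i) P i (yP Q k P L) y) ^ 2 ≤
    hi * ∑ n ∈ Ns α h D D' N v X, (if (Fm α h N i n).toNat.Prime then
      lt n0 Δ n * (wZ Q (uB α) (wB h N) P L n) ^ 2 else 0) +
      W2 * (2 * √(aI α i * (x0 i + Δ)) * Real.log (aI α i * (x0 i + Δ))) := by
  classical
  have ha1 := aI_pos α H.hα i
  have ha : (0 : ℝ) < aI α i := by exact_mod_cast ha1
  have hs := sI_sq α H.hα i
  obtain ⟨hb1, hb2, hb3⟩ := bI_spec α h H.hα N i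
  set F : ℕ → ℕ := fun y => aI α i * y + bI α h N i with hF
  set B := (Ys α h i D D' N (vi i) (Xi i)).filter
    (fun y => lt (x0 i) Δ (((F y : ℕ) : ℝ) / aI α i) ≠ 0) with hB
  set φ : ℕ → ℕ := fun y => (sI α i * (y : ℤ) + tI α h N i).toNat with hφ
  set g : ℕ → ℝ := fun n => lt n0 Δ n * (wZ Q (uB α) (wB h N) P L n) ^ 2 with hg
  have hg0 : ∀ n, 0 ≤ g n := fun n => mul_nonneg (lt_nonneg _ _ _) (sq_nonneg _)
  have hcor : ∀ y ∈ B, ((φ y : ℕ) : ℤ) = sI α i * y + tI α h N i ∧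
      |((φ y : ℕ) : ℝ) - n0| < Δ ∧ 1 ≤ φ y := by
    intro y hy
    rw [hB, Finset.mem_filter] at hy
    have hd := lt_pos_iff G.g0 hy.2
    have h1 := corr_realZF H G i (sI α i * y + tI α h N i) y rfl
    have h2 : |(((sI α i * y + tI α h N i : ℤ)) : ℝ) - n0| < Δ := by rw [← h1]; exact hd
    have h3 : (0 : ℝ) < (((sI α i * y + tI α h N i : ℤ)) : ℝ) := by
      have := (abs_lt.1 h2).1
      have := G.g1
      linarith
    have h4 : 0 < sI α i * (y : ℤ) + tI α h N i := by exact_mod_cast h3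
    have h5 : ((φ y : ℕ) : ℤ) = sI α i * y + tI α h N i := by
      simp only [hφ]
      exact Int.toNat_of_nonneg h4.le
    refine ⟨h5, ?_, ?_⟩
    · have h6 : ((φ y : ℕ) : ℝ) = (((sI α i * y + tI α h N i : ℤ)) : ℝ) := by
        rw [← h5]; simp
      rw [h6]
      exact h2
    · have : (1 : ℤ) ≤ (φ y : ℕ) := by rw [h5]; linarith
      exact_mod_cast this
  have hinj : Set.InjOn φ (B.filter (fun y => (F y).Prime) : Finset ℕ) := by
    intro y hy y' hy' hyy
    have h1 := (hcor y (Finset.mem_filter.1 hy).1).1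
    have h2 := (hcor y' (Finset.mem_filter.1 hy').1).1
    rw [hyy, h2] at h1
    have h3 : sI α i * (y : ℤ) = sI α i * y' := by linarith
    have h4 : sI α i * (sI α i * (y : ℤ)) = sI α i * (sI α i * y') := by rw [h3]
    rw [← mul_assoc, ← mul_assoc, hs, one_mul, one_mul] at h4
    exact_mod_cast h4
  have hlog1 : 0 ≤ Real.log (aI α i * (x0 i + Δ)) := by
    apply Real.log_nonneg
    have : (1 : ℝ) ≤ aI α i := by exact_mod_cast ha1
    nlinarith
  have hterm : ∀ y ∈ B.filter (fun y => (F y).Prime),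
      φ y ∈ Ns α h D D' N v X ∧ (Fm α h N i (φ y)).toNat.Prime ∧
      (lt (x0 i) Δ (((F y : ℕ) : ℝ) / aI α i) * ArithmeticFunction.vonMangoldt (F y)) *
        (wIZ (uO α i) (wO α h N i) P i (yP Q k P L) y) ^ 2 ≤ hi * g (φ y) := by
    intro y hy
    rw [Finset.mem_filter] at hy
    obtain ⟨hyB, hpF⟩ := hy
    obtain ⟨hc1, hc2, hc3⟩ := hcor y hyB
    rw [hB, Finset.mem_filter] at hyB
    obtain ⟨hyY, hlt⟩ := hyB
    have hd := lt_pos_iff G.g0 hlt
    obtain ⟨hbig, hbig'⟩ := form_big H i y hd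
    unfold Ys at hyY
    rw [Finset.mem_filter, Finset.mem_Icc] at hyY
    have hFc := Fm_corr α h H.hα N i (φ y) y hc1
    have hFn : (Fm α h N i (φ y)).toNat = F y := by
      rw [hFc]
      exact Int.toNat_natCast _
    have hD' : (0 : ℝ) ≤ D' := Nat.cast_nonneg _
    have hFP : ∀ p ∈ P, ¬ p ∣ F y := by
      intro p hp hd'
      have h1 := (Nat.prime_dvd_prime_iff_eq (H.hP p hp).1 hpF).1 hd'
      have h2 := G.big2 i p hp
      have h3 : ((p : ℕ) : ℝ) = ((F y : ℕ) : ℝ) := by rw [← h1]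
      simp only [hF] at h3
      linarith
    have hFQ : ∀ p ∈ QQ D D', ¬ p ∣ F y := by
      intro p hp hd'
      have h1 := (Nat.prime_dvd_prime_iff_eq (QQ_prime hp).1 hpF).1 hd'
      have h2 := (QQ_prime hp).2.2
      have h3 : ((p : ℕ) : ℝ) = ((F y : ℕ) : ℝ) := by rw [← h1]
      have h4 : (p : ℝ) ≤ D' := by exact_mod_cast h2
      have h5 := G.big1 i
      simp only [hF] at h3
      linarith
    have hXn : φ y ≤ X := by
      have h1 := (abs_lt.1 hc2).2
      have h2 := G.nX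
      have h3 : ((φ y : ℕ) : ℝ) ≤ X := by linarith
      exact_mod_cast h3
    refine ⟨?_, by rw [hFn]; exact hpF, ?_⟩
    · unfold Ns
      rw [Finset.mem_filter, Finset.mem_Icc]
      exact ⟨⟨hc3, hXn⟩, (vi_natF G i (φ y) y hc1).1 hyY.2.1,
        (sieve_corr hRC H i (φ y) y hc1 hFQ).1 hyY.2.2⟩
    · have hl := LZ_corr α h N i (φ y) y hc1
      have hw' : wIZ (uO α i) (wO α h N i) P i (yP Q k P L) y =
          wZ Q (uB α) (wB h N) P L (φ y) := by
        refine (hWE k Q (uB α) (wB h N) (uO α i) (wO α h N i) P L 0 (φ y) y i j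
          (fun p hp => (H.hP p hp).1.two_le) le_rfl hij hl ?_).1
        intro p hp
        rw [hl (some i), LZ_own α h H.hα N i y]
        exact hFP p hp
      rw [hw', corr_ltF H G i (φ y) y hc1, ArithmeticFunction.vonMangoldt_apply_prime hpF]
      have h1 : Real.log ((F y : ℕ) : ℝ) ≤ hi := by
        refine le_trans ?_ hhi
        apply Real.log_le_log _ hbig'.le
        exact_mod_cast hpF.pos
      have h2 := hg0 (φ y)
      calc lt n0 Δ (φ y : ℕ) * Real.log ((F y : ℕ) : ℝ) * (wZ Q (uB α) (wB h N) P L (φ y)) ^ 2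
          = Real.log ((F y : ℕ) : ℝ) * g (φ y) := by simp only [hg]; ring
        _ ≤ hi * g (φ y) := mul_le_mul_of_nonneg_right h1 h2
  have hbad : ∀ y ∈ B, ¬ (F y).Prime →
      (lt (x0 i) Δ (((F y : ℕ) : ℝ) / aI α i) * ArithmeticFunction.vonMangoldt (F y)) *
        (wIZ (uO α i) (wO α h N i) P i (yP Q k P L) y) ^ 2 ≤
      W2 * (if ¬ (aI α i * y + bI α h N i).Prime ∨ ((aI α i * y + bI α h N i : ℕ) : ℝ) ≤ 0 then
        ArithmeticFunction.vonMangoldt (aI α i * y + bI α h N i) else 0) := by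
    intro y hy hnp
    obtain ⟨hc1, hc2, hc3⟩ := hcor y hy
    have hl := LZ_corr α h N i (φ y) y hc1
    rw [if_pos (Or.inl hnp), ← wIZ_congr P i (yP Q k P L) (φ y) y hl]
    have h1 := hw (φ y) hc2
    have h2 := lt_le_one (x0 i) Δ (((F y : ℕ) : ℝ) / aI α i) G.g0
    have h3 := lt_nonneg (x0 i) Δ (((F y : ℕ) : ℝ) / aI α i)
    have h4 : 0 ≤ ArithmeticFunction.vonMangoldt (F y) := ArithmeticFunction.vonMangoldt_nonneg
    calc _ ≤ (1 * ArithmeticFunction.vonMangoldt (F y)) * W2 := by gcongr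
      _ = _ := by simp only [hF]; ring
  have hbl := bad_lambda (aI α i) (bI α h N i) ha1 hb1 B (x0 i + Δ) 0 hx1 le_rfl (by
    intro y hy
    rw [hB, Finset.mem_filter] at hy
    exact (form_big H i y (lt_pos_iff G.g0 hy.2)).2.le)
  rw [mul_zero, add_zero] at hbl
  set T : ℕ → ℝ := fun y => (lt (x0 i) Δ (((F y : ℕ) : ℝ) / aI α i) *
    ArithmeticFunction.vonMangoldt (F y)) * (wIZ (uO α i) (wO α h N i) P i (yP Q k P L) y) ^ 2
    with hT
  have e0 : ∑ y ∈ Ys α h i D D' N (vi i) (Xi i), T y = ∑ y ∈ B, T y := by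
    rw [hB, Finset.sum_filter]
    refine Finset.sum_congr rfl fun y _ => ?_
    split_ifs with h1
    · rfl
    · simp only [hT]
      rw [not_not.1 h1]
      ring
  have e1 := Finset.sum_filter_add_sum_filter_not B (fun y => (F y).Prime) T
  calc ∑ y ∈ Ys α h i D D' N (vi i) (Xi i), T y = ∑ y ∈ B, T y := e0
    _ = ∑ y ∈ B.filter (fun y => (F y).Prime), T y +
        ∑ y ∈ B.filter (fun y => ¬ (F y).Prime), T y := e1.symm
    _ ≤ hi * ∑ n ∈ Ns α h D D' N v X, (if (Fm α h N i n).toNat.Prime then g n else 0) +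
        W2 * (2 * √(aI α i * (x0 i + Δ)) * Real.log (aI α i * (x0 i + Δ))) := by
        apply add_le_add
        · calc ∑ y ∈ B.filter (fun y => (F y).Prime), T y
              ≤ ∑ y ∈ B.filter (fun y => (F y).Prime), hi * g (φ y) :=
                Finset.sum_le_sum fun y hy => (hterm y hy).2.2
            _ = hi * ∑ n ∈ (B.filter (fun y => (F y).Prime)).image φ, g n := by
                rw [← Finset.mul_sum, Finset.sum_image hinj]
            _ ≤ hi * ∑ n ∈ (Ns α h D D' N v X).filter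
                (fun n : ℕ => (Fm α h N i n).toNat.Prime), g n := by
                apply mul_le_mul_of_nonneg_left _ (hlog1.trans hhi)
                apply Finset.sum_le_sum_of_subset_of_nonneg
                · intro n hn
                  obtain ⟨y, hy, rfl⟩ := Finset.mem_image.1 hn
                  rw [Finset.mem_filter]
                  exact ⟨(hterm y hy).1, (hterm y hy).2.1⟩
                · intro n _ _
                  exact hg0 n
            _ = _ := by rw [Finset.sum_filter]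
        · calc ∑ y ∈ B.filter (fun y => ¬ (F y).Prime), T y
              ≤ ∑ y ∈ B.filter (fun y => ¬ (F y).Prime), W2 *
                (if ¬ (aI α i * y + bI α h N i).Prime ∨
                  ((aI α i * y + bI α h N i : ℕ) : ℝ) ≤ 0 then
                ArithmeticFunction.vonMangoldt (aI α i * y + bI α h N i) else 0) := by
                apply Finset.sum_le_sum
                intro y hy
                rw [Finset.mem_filter] at hy
                exact hbad y hy.1 hy.2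
            _ ≤ ∑ y ∈ B, W2 * (if ¬ (aI α i * y + bI α h N i).Prime ∨
                  ((aI α i * y + bI α h N i : ℕ) : ℝ) ≤ 0 then
                ArithmeticFunction.vonMangoldt (aI α i * y + bI α h N i) else 0) := by
                apply Finset.sum_le_sum_of_subset_of_nonneg (Finset.filter_subset _ _)
                intro y _ _
                apply mul_nonneg hW2
                split_ifs
                · exact ArithmeticFunction.vonMangoldt_nonneg
                · exact le_rfl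
            _ ≤ _ := by
                rw [← Finset.mul_sum]
                exact mul_le_mul_of_nonneg_left hbl hW2


theorem vi_copF (H : Hyp α h D D' N v P) (G : GeoF α h D D' N v P n0 Δ X x0 Xi vi) (i : Fin k)
    (y : ℕ) (hy : y ≡ vi i [MOD (WW D)]) :
    (LZ (uO α i) (wO α h N i) (some i) y).Coprime (WW D) := by
  have h1 : (y : ℤ) ≡ (vi i : ℤ) [ZMOD (WW D)] := Int.natCast_modEq_iff.2 hy
  have h2 := (G.vi1 i (y : ℤ)).1 h1
  have h3 := H.hv (some i) _ h2
  have h4 : uO α i (some i) * y + wO α h N i (some i) =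
      uB α (some i) * (sI α i * y + tI α h N i) + wB h N (some i) := by
    unfold uO wO
    ring
  unfold LZ
  rw [h4]
  exact Int.isCoprime_iff_nat_coprime.1 h3

theorem est_S2F {C0 : ℕ} (hPS : PS2At (k + 1) C0) (hEq : Eq2) (hTn : Tents) (hRC : RootsCount)
    (hSd : SdLZ) (H : Hyp α h D D' N v P) (G : GeoF α h D D' N v P n0 Δ X x0 Xi vi)
    (hBD : BD D' = BD D * ∏ p ∈ QQ D D', (1 - 1 / (p : ℝ))) (hBD' : 0 < BD D') (i : Fin k)
    (z : (IP P → Option (Option (Fin k))) → ℝ) (Bz : ℝ) (hBz : 0 < Bz) (hz : ∀ σ, |z σ| ≤ Bz)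
    (R : ℝ) (hR : 0 ≤ R) (hsupp : ∀ σ, z σ ≠ 0 → lgt (prP P) σ ≤ R)
    (κ : ℝ) (b Jj : ℕ) (hb : C0 ≤ b) (hCD : C0 ≤ D) (hJ : D' ≤ 2 ^ 2 ^ Jj)
    (hκ : 0 < κ) (hκ1 : κ ≤ 1 / 64) (hx : 0 < x0 i) (hΔ : Δ = κ * x0 i)
    (hx1 : 1 ≤ x0 i * Real.exp (-(4 * κ))) (hx2 : x0 i * Real.exp (4 * κ) ≤ Xi i)
    (ε1 : ℝ) (hε0 : 0 ≤ ε1) (hε1 : ε1 ≤ 1)
    (hM1 : |Mt (aI α i) (x0 i) κ - ts (x0 i) κ| ≤ ε1 * (κ * x0 i))
    (hM4 : |Mt (aI α i) (x0 i) (4 * κ) - ts (x0 i) (4 * κ)| ≤ ε1 * (4 * κ * x0 i))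
    (E : ℝ) (hE : 0 ≤ E)
    (hE1 : E2 k P (aI α i) (bI α h N i) (WW D) Bz R (x0 i) κ C0 b Jj ≤ E)
    (hE4 : E2 k P (aI α i) (bI α h N i) (WW D) Bz R (x0 i) (4 * κ) C0 b Jj ≤ E) :
    (1 - (1 / 2 : ℝ) ^ b - ε1 - 60 * κ) * (Δ * (VV α h N D D' / (WW D * BD D') *
        QI (some i) (prP P) (cw (prP P) z))) - 2 * E ≤
      ∑ y ∈ Ys α h i D D' N (vi i) (Xi i),
        (lt (x0 i) Δ (((aI α i * y + bI α h N i : ℕ) : ℝ) / aI α i) *
          ArithmeticFunction.vonMangoldt (aI α i * y + bI α h N i)) *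
            (wIZ (uO α i) (wO α h N i) P i z y) ^ 2 ∧
      ∑ y ∈ Ys α h i D D' N (vi i) (Xi i),
        (lt (x0 i) Δ (((aI α i * y + bI α h N i : ℕ) : ℝ) / aI α i) *
          ArithmeticFunction.vonMangoldt (aI α i * y + bI α h N i)) *
            (wIZ (uO α i) (wO α h N i) P i z y) ^ 2 ≤
      (1 + (1 / 2 : ℝ) ^ b) * (1 + ε1 + 60 * κ) * (Δ * (VV α h N D D' / (WW D * BD D') *
        QI (some i) (prP P) (cw (prP P) z))) + 2 * E := by
  have h4κ : 0 < 4 * κ := by linarith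
  have ha : (0 : ℝ) < aI α i := by exact_mod_cast aI_pos α H.hα i
  obtain ⟨hb1, -, -⟩ := bI_spec α h H.hα N i
  have hx1' : 1 ≤ x0 i * Real.exp (-κ) := by
    refine hx1.trans ?_
    apply mul_le_mul_of_nonneg_left _ hx.le
    exact Real.exp_le_exp.2 (by linarith)
  have hx2' : x0 i * Real.exp κ ≤ Xi i := by
    refine le_trans ?_ hx2
    apply mul_le_mul_of_nonneg_left _ hx.le
    exact Real.exp_le_exp.2 (by linarith)
  have t1 := hTn.2.2.1 (x0 i) κ hx hκ (by linarith)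
  have t2 := hTn.2.2.1 (x0 i) (4 * κ) hx h4κ (by linarith)
  have hκx : 0 < κ * x0 i := by positivity
  have hMn1 : 0 ≤ Mt (aI α i) (x0 i) κ := by
    have := (abs_le.1 hM1).1
    nlinarith [t1.1]
  have hMn4 : 0 ≤ Mt (aI α i) (x0 i) (4 * κ) := by
    have := (abs_le.1 hM4).1
    nlinarith [t2.1]
  have hpJ : ∀ t : IP P, Fintype.card (Option (Fin k)) + 1 ≤ prP P t := by
    intro t
    rw [cardJ]
    have h1 := (H.hP t.1 t.2).2
    have : prP P t = t.1 := rfl
    have := H.hDD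
    have := H.hDk
    omega
  have hQ := QI_nn (prP P) (some i) hpJ (cw (prP P) z)
  have hA := S2main hPS hEq hRC hSd H hBD hBD' i (vi i) (vi_copF H G i) z Bz hBz hz R hR hsupp κ
    (x0 i) b Jj (Xi i) hb hCD hJ hκ hx1' hx2' hMn1
  have hB := S2main hPS hEq hRC hSd H hBD hBD' i (vi i) (vi_copF H G i) z Bz hBz hz R hR hsupp
    (4 * κ) (x0 i) b Jj (Xi i) hb hCD hJ h4κ hx1 hx2 hMn4
  have hV := VV_pos hRC H
  have hW : (0 : ℝ) < WW D := by exact_mod_cast H.hW
  have hU : 0 ≤ VV α h N D D' / (WW D * BD D') * QI (some i) (prP P) (cw (prP P) z) := by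
    positivity
  have hβ1 : (1 / 2 : ℝ) ^ b ≤ 1 := pow_le_one₀ (by norm_num) (by norm_num)
  have key := tent_sums hTn (Ys α h i D D' N (vi i) (Xi i))
    (fun y => ((aI α i * y + bI α h N i : ℕ) : ℝ) / aI α i)
    (fun y => ArithmeticFunction.vonMangoldt (aI α i * y + bI α h N i) *
            (wIZ (uO α i) (wO α h N i) P i z y) ^ 2) (x0 i) κ Δ
    (Mt (aI α i) (x0 i) κ) (Mt (aI α i) (x0 i) (4 * κ)) ((1 / 2 : ℝ) ^ b) E
    (VV α h N D D' / (WW D * BD D') * QI (some i) (prP P) (cw (prP P) z)) hx hκ hκ1 hΔ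
    (by positivity) hβ1 hE hU ε1 hε1 hε0
    (fun y _ => by
      have : 0 < aI α i * y + bI α h N i := by omega
      have : (0 : ℝ) < ((aI α i * y + bI α h N i : ℕ) : ℝ) := by exact_mod_cast this
      positivity)
    (fun y _ => mul_nonneg ArithmeticFunction.vonMangoldt_nonneg (sq_nonneg _)) hM1 hM4
    (by
      refine le_trans (le_of_eq ?_) (le_trans hA ?_)
      · congr 2
        · refine Finset.sum_congr rfl fun y _ => ?_
          ring
        · ring
      · apply add_le_add (le_of_eq (by ring)) hE1)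
    (by
      refine le_trans (le_of_eq ?_) (le_trans hB ?_)
      · congr 2
        · refine Finset.sum_congr rfl fun y _ => ?_
          ring
        · ring
      · apply add_le_add (le_of_eq (by ring)) hE4)
  have e : ∑ y ∈ Ys α h i D D' N (vi i) (Xi i),
        lt (x0 i) Δ (((aI α i * y + bI α h N i : ℕ) : ℝ) / aI α i) *
          (ArithmeticFunction.vonMangoldt (aI α i * y + bI α h N i) *
            (wIZ (uO α i) (wO α h N i) P i z y) ^ 2) =
      ∑ y ∈ Ys α h i D D' N (vi i) (Xi i),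
        (lt (x0 i) Δ (((aI α i * y + bI α h N i : ℕ) : ℝ) / aI α i) *
          ArithmeticFunction.vonMangoldt (aI α i * y + bI α h N i)) *
            (wIZ (uO α i) (wO α h N i) P i z y) ^ 2 :=
    Finset.sum_congr rfl fun y _ => by ring
  rw [e] at key
  exact key


end Pool.Agent.TH899.UG
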