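import Mathlib
import Pool.Agent.W714.UN.Pt

/-! Pointwise bound of the sieve weights of affine forms, with an independent offset. -/

set_option autoImplicit false

namespace Pool.Agent.TH899.UG

open Finset Filter Topology
open Pool.Agent.H410R2 hiding GP GP_prof GP_cut_some GP_cut_none GP_lip gg_pos gg_le_one gg_anti ee_bound ee_nonneg gg_lip LB_gg LB_ee Sums exists_sums yx wx wxi Br sum_GP_none sum_GP_some sum_GP_some_ee sum_GP_some_one sum_GPr_none sum_GPr_some S1_final QI_final S2_final w_abs_le wmax gg ee I1 I2 IE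
open Pool.Agent.H361R2.GM
open Pool.Agent.H362R2.CM
open Pool.Agent.W25.UN
open Pool.Agent.W714.UN.Pt (NZ NZ_eq NZ_ne w_abs_le)

def PtwF : Prop := ∀ (k : ℕ) (α h : Fin k → ℤ) (Q : SPar) (e : ℝ), 0 < e →
  ∀ᶠ N : ℕ in atTop, ∀ Mo : ℕ, 4 * Mo ≤ 5 * N → ∀ (P : Finset ℕ) (L : ℝ), 0 < L →
    (∀ p ∈ P, p.Prime ∧ p ≤ N) →
    SieveData (IP P) (Option (Fin k)) (prP P) (LZ (uB α) (wB h Mo)) 1 →
    ∀ n : ℕ, 1 ≤ n → n ≤ N → (∀ i, Mo + α i * n + h i ≠ 0) →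
      (wZ Q (uB α) (wB h Mo) P L n) ^ 2 ≤ (N : ℝ) ^ e ∧
      ∀ i, (wIZ (uB α) (wB h Mo) P i (yP Q k P L) n) ^ 2 ≤ (N : ℝ) ^ e

theorem NZ_leF {k : ℕ} (α h : Fin k → ℤ) (Mo N n : ℕ) (hMo : 4 * Mo ≤ 5 * N) (hn : 1 ≤ n) (hnN : n ≤ N) :
    (NZ (uB α) (wB h Mo) n : ℝ) ≤
      (∏ i, (2 + |(α i : ℝ)| + |(h i : ℝ)|)) * (N : ℝ) ^ (k + 1) := by
  have hN1 : (1 : ℝ) ≤ N := by exact_mod_cast hn.trans hnN
  have hnN' : (n : ℝ) ≤ N := by exact_mod_cast hnN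
  have hn0 : (0 : ℝ) ≤ n := Nat.cast_nonneg _
  have hMo' : (Mo : ℝ) ≤ 2 * N := by
    have h0 : Mo ≤ 2 * N := by omega
    exact_mod_cast h0
  have hMo0 : (0 : ℝ) ≤ Mo := Nat.cast_nonneg _
  rw [NZ_eq]
  push_cast
  have h1 : ∏ i, |((Mo : ℝ) + α i * n + h i)| ≤ ∏ i : Fin k, ((2 + |(α i : ℝ)| + |(h i : ℝ)|) * N) := by
    apply Finset.prod_le_prod
    · intro i _; positivity
    · intro i _
      calc |((Mo : ℝ) + α i * n + h i)| ≤ |(Mo : ℝ) + α i * n| + |(h i : ℝ)| := abs_add_le _ _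
        _ ≤ |(Mo : ℝ)| + |(α i : ℝ) * n| + |(h i : ℝ)| := by
            gcongr; exact abs_add_le _ _
        _ = Mo + |(α i : ℝ)| * n + |(h i : ℝ)| * 1 := by
            rw [abs_mul, abs_of_nonneg hn0, abs_of_nonneg hMo0, mul_one]
        _ ≤ 2 * N + |(α i : ℝ)| * N + |(h i : ℝ)| * N := by gcongr
        _ = _ := by ring
  rw [Finset.prod_mul_distrib, Finset.prod_const, Finset.card_univ, Fintype.card_fin] at h1
  have hc : ∀ i, ((Mo + α i * n + h i : ℤ).natAbs : ℝ) = |((Mo : ℝ) + α i * n + h i)| := by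
    intro i
    rw [Nat.cast_natAbs]
    push_cast
    rfl
  simp only [hc]
  calc (n : ℝ) * ∏ i, |((Mo : ℝ) + α i * n + h i)|
      ≤ N * ((∏ i, (2 + |(α i : ℝ)| + |(h i : ℝ)|)) * (N : ℝ) ^ k) := by
        apply mul_le_mul hnN' h1 (Finset.prod_nonneg fun i _ => abs_nonneg _) (by linarith)
    _ = _ := by ring

theorem ptwF : PtwF := by
  intro k α h Q e he
  obtain ⟨C, hC, m, h1⟩ := Pool.Agent.H361R2.prodBound (2 * ((k + 1 : ℕ) : ℝ)) (by positivity)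
  set e2 : ℝ := e / (4 * ((k + 1 : ℕ) : ℝ)) with he2
  have he2p : 0 < e2 := by positivity
  obtain ⟨C', hC', h2⟩ := Pool.Agent.H361R2.omegaBound 2 (by norm_num) e2 he2p
  set A : ℝ := ∏ i, (2 + |(α i : ℝ)| + |(h i : ℝ)|) with hA
  have hA0 : 0 ≤ A := Finset.prod_nonneg fun i _ => by positivity
  have hev := (tendsto_natCast_atTop_atTop (R := ℝ)).eventually
    (ev_polylog (C ^ 2 * C' ^ 2 * (A ^ e2) ^ 2) (2 * m) (e / 2) e (by linarith))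
  filter_upwards [hev, eventually_ge_atTop 3] with N hx2 hN3 Mo hMo P L hL hP hsd n hn hnN hne
  have hx3 : (3 : ℝ) ≤ N := by exact_mod_cast hN3
  have hx0 : (0 : ℝ) < N := by linarith
  have hlx0 : 0 < Real.log N := Real.log_pos (by linarith)
  have hNZ := NZ_ne α h Mo n hn hne
  have hprodP : ∏ t : IP P, (1 + 2 * ((k + 1 : ℕ) : ℝ) / (prP P t : ℝ)) ≤
      C * (Real.log N) ^ m := by
    have h3 : ∏ t : IP P, (1 + 2 * ((k + 1 : ℕ) : ℝ) / (prP P t : ℝ)) =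
        ∏ p ∈ P, (1 + 2 * ((k + 1 : ℕ) : ℝ) / (p : ℝ)) :=
      Finset.prod_coe_sort P (fun p => 1 + 2 * ((k + 1 : ℕ) : ℝ) / (p : ℝ))
    rw [h3]
    refine le_trans ?_ (h1 N hx3)
    apply prod_le_prod_subset
    · intro p hp
      rw [Finset.mem_filter, Finset.mem_Icc, Nat.floor_natCast]
      exact ⟨⟨(hP p hp).1.one_lt.le, (hP p hp).2⟩, (hP p hp).1⟩
    · intro p _
      have : 0 ≤ 2 * ((k + 1 : ℕ) : ℝ) / (p : ℝ) := by positivity
      linarith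
  have hom : (2 : ℝ) ^ (NZ (uB α) (wB h Mo) n).primeFactors.card ≤
      C' * (A ^ e2 * (N : ℝ) ^ (e / 4)) := by
    refine le_trans (h2 _ (Nat.one_le_iff_ne_zero.2 hNZ)) ?_
    apply mul_le_mul_of_nonneg_left _ hC'.le
    calc (NZ (uB α) (wB h Mo) n : ℝ) ^ e2 ≤ (A * (N : ℝ) ^ (k + 1)) ^ e2 :=
          Real.rpow_le_rpow (Nat.cast_nonneg _) (NZ_leF α h Mo N n hMo hn hnN) he2p.le
      _ = A ^ e2 * (N : ℝ) ^ (e / 4) := by
          rw [Real.mul_rpow hA0 (by positivity), ← Real.rpow_natCast, ← Real.rpow_mul hx0.le]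
          congr 2
          rw [he2]
          have : ((k + 1 : ℕ) : ℝ) ≠ 0 := by positivity
          field_simp
  have hfin : ∀ w : ℝ, |w| ≤ (∏ t : IP P, (1 + 2 * ((k + 1 : ℕ) : ℝ) /
      (prP P t : ℝ))) * 2 ^ (NZ (uB α) (wB h Mo) n).primeFactors.card → w ^ 2 ≤ (N : ℝ) ^ e := by
    intro w hw
    have hP0 : 0 ≤ ∏ t : IP P, (1 + 2 * ((k + 1 : ℕ) : ℝ) / (prP P t : ℝ)) :=
      Finset.prod_nonneg fun t _ => by positivity
    have h3 : |w| ≤ (C * (Real.log N) ^ m) * (C' * (A ^ e2 * (N : ℝ) ^ (e / 4))) :=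
      hw.trans (mul_le_mul hprodP hom (by positivity) (by positivity))
    calc w ^ 2 = |w| ^ 2 := (sq_abs w).symm
      _ ≤ ((C * (Real.log N) ^ m) * (C' * (A ^ e2 * (N : ℝ) ^ (e / 4)))) ^ 2 :=
          pow_le_pow_left₀ (abs_nonneg _) h3 2
      _ = C ^ 2 * C' ^ 2 * (A ^ e2) ^ 2 * (Real.log N) ^ (2 * m) * ((N : ℝ) ^ (e / 4)) ^ 2 := by ring
      _ = C ^ 2 * C' ^ 2 * (A ^ e2) ^ 2 * (Real.log N) ^ (2 * m) * (N : ℝ) ^ (e / 2) := by
          congr 1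
          rw [← Real.rpow_natCast, ← Real.rpow_mul hx0.le]
          congr 1
          push_cast
          ring
      _ ≤ _ := hx2
  have h4 := w_abs_le Q (uB α) (wB h Mo) P (fun p hp => (hP p hp).1) hsd L hL n hNZ
  exact ⟨hfin _ h4.1, fun i => hfin _ (h4.2 i)⟩

end Pool.Agent.TH899.UG
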