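import Mathlib
import Pool.Agent.W25.UB.Stm3

/-! The four-class theorem for general linear forms `α i * n + (Mo + h i)`: statements.  The scale `N`
and the offset `Mo` of the forms are independent (`Mo = 0`: fixed forms). -/

set_option autoImplicit false

namespace Pool.Agent.TH899.UG

open Finset Filter Topology
open Pool.Agent.H410R2 hiding GP GP_prof GP_cut_some GP_cut_none GP_lip gg_pos gg_le_one gg_anti ee_bound ee_nonneg gg_lip LB_gg LB_ee Sums exists_sums yx wx wxi Br sum_GP_none sum_GP_some sum_GP_some_ee sum_GP_some_one sum_GPr_none sum_GPr_some S1_final QI_final S2_final w_abs_le wmax gg ee I1 I2 IE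
open Pool.Agent.H361R2.GM
open Pool.Agent.H362R2.CM
open Pool.Agent.W25.UN
open Pool.Agent.W25.UB

/-- the product of two rough divisor sums of linear forms beyond the level one half -/
def R2LAt (ε₀ η : ℝ) : Prop :=
  ∀ ε₁ : ℝ, 0 < ε₁ → ε₁ ≤ 1 → ∃ η₁ : ℝ, 0 < η₁ ∧ ∀ U : ℕ, 1 ≤ U → ∃ C : ℝ, 0 < C ∧
    ∀ (X Z : ℕ), 2 ≤ X →
    (Z : ℝ) ≤ (X : ℝ) ^ (1 / 2 + ε₀ / 4) → ∀ (S Cl : ℕ → Prop) (Y R y : ℝ) (Φ : ℤ → ℝ) (m : ℝ),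
    (X : ℝ) ^ ε₁ ≤ y → (∀ p, S p → (p : ℝ) ≤ y) → Ex S Y R Φ m → R ≤ (X : ℝ) ^ (ε₀ / 10) →
    Y ≤ (X : ℝ) ^ η → |m| ≤ 1 → ∀ (u w u' w' : ℤ), u ≠ 0 → u' ≠ 0 → |u| ≤ U → |u'| ≤ U →
    4 * |(w : ℝ)| ≤ 3 * |(u : ℝ)| * X → 4 * |(w' : ℝ)| ≤ 3 * |(u' : ℝ)| * X →
    u' * w - u * w' ≠ 0 →
    (∀ p : ℕ, p.Prime → y < (p : ℝ) → (p : ℤ) ∣ u' * w - u * w' → Cl p) →
    ∀ c c' : ℕ → ℝ, RC Cl y Z c → RC Cl y Z c' →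
    |∑' n : ℤ, Pool.Agent.H442R2.KF.Wt X n *
        (Φ n * (ds c Z (u * n + w) * ds c' Z (u' * n + w'))) -
      X * (m * ((∑ d ∈ Icc 1 Z, c d / d) * (∑ d ∈ Icc 1 Z, c' d / d)))| ≤
      C * (X : ℝ) ^ (1 - η₁)

/-- the forms are pairwise not proportional, and none has a zero constant term -/
def Nd {k : ℕ} (α h : Fin k → ℤ) (Mo : ℕ) : Prop :=
  ∀ j l, j ≠ l → uB α j * wB h Mo l - uB α l * wB h Mo j ≠ 0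

/-- the sieving primes of the weights -/
noncomputable def PBF {k : ℕ} (α h : Fin k → ℤ) (Mo N B : ℕ) (ρ₁ : ℝ) : Finset ℕ :=
  (Icc (DB (2 * N) B + 1) ⌊Real.exp (ρ₁ * Real.log N)⌋₊).filter
    (fun p => p.Prime ∧ p ∉ CL (uB α) (wB h Mo))

/-- the master formula at `N` -/
def MasAtF {k : ℕ} (α h : Fin k → ℤ) (Mo : ℕ) (ε₀ ε₁ r M : ℝ) (A E₁ D N v D₁ : ℕ) (P Pt : Finset ℕ)
    (Tr : ℤ → ℝ) (t : ℝ) : Prop :=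
  ∀ (X Z : ℕ) (c : (IP P → Option (Option (Fin k))) → ℝ) (j j' : Fin k) (th th' b b' : ℕ → ℝ),
    (X = 2 * N ∨ X = 4 * N) → (Z : ℝ) ≤ (X : ℝ) ^ (1 / 2 + ε₀ / 4) → j ≠ j' →
    (∀ σ, |c σ| ≤ (Real.log N) ^ E₁ * mulc (prP P) (fun p => 1 / ((p : ℝ) - 1)) σ) →
    (∀ σ, c σ ≠ 0 → lgt (prP P) σ ≤ r * Real.log N) →
    Pool.Agent.W23.PL.DW Pt D₁ (Real.log (2 * N : ℕ)) th →
    Pool.Agent.W23.PL.DW Pt D₁ (Real.log (2 * N : ℕ)) th' →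
    ((∀ e, e ≠ 1 → th e = 0) ∨ ∀ σ, c σ ≠ 0 → ∀ t, σ t ≠ some (some j)) →
    ((∀ e, e ≠ 1 → th' e = 0) ∨ ∀ σ, c σ ≠ 0 → ∀ t, σ t ≠ some (some j')) →
    RCM (CL (uB α) (wB h Mo)) (((2 * N : ℕ) : ℝ) ^ ε₁) Z M b →
    RCM (CL (uB α) (wB h Mo)) (((2 * N : ℕ) : ℝ) ^ ε₁) Z M b' →
    Summable (fun n : ℤ => Pool.Agent.H442R2.KF.Wt X n *
      Ms α h Mo D v D₁ Z P Tr c j j' th th' b b' n) ∧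
    |∑' n : ℤ, Pool.Agent.H442R2.KF.Wt X n * Ms α h Mo D v D₁ Z P Tr c j j' th th' b b' n -
      X * Mm D D₁ Z P t c th th' b b'| ≤ X / (Real.log N) ^ A


/-- (MAS) the master formula -/
def St_MASF : Prop := ∀ (ε₀ η : ℝ), 0 < ε₀ → ε₀ ≤ 1 / 100 → 0 < η → η ≤ 1 / 100 → R2LAt ε₀ η →
  ∀ k : ℕ, ∃ E : ℕ, ∀ (ε₁ η₀ r M : ℝ) (A E₁ B D : ℕ) (α h : Fin k → ℤ), 0 < ε₁ → ε₁ ≤ 1 →
  0 < η₀ → 0 < r → 16 * r ≤ ε₀ / 10 → 16 * r ≤ η → 16 * η₀ ≤ ε₀ / 10 → 16 * η₀ ≤ η → 1 ≤ M →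
  E + 2 * E₁ + A ≤ B → 2 * (k + 1) ≤ D → (∀ i, α i ≠ 0) →
  (∀ i, (α i).natAbs ≤ D) → ∀ᶠ N : ℕ in atTop, ∀ Mo : ℕ, 4 * Mo ≤ 5 * N → Nd α h Mo →
  ∀ (v D₁ : ℕ) (P Pt : Finset ℕ) (Tr : ℤ → ℝ) (t : ℝ), D₁ = ⌊((2 * N : ℕ) : ℝ) ^ η₀⌋₊ →
    (∀ p ∈ P ∪ Pt, Gd (uB α) (wB h Mo) p ∧ DB (2 * N) B < p ∧ (p : ℝ) ≤ ((2 * N : ℕ) : ℝ) ^ ε₁) →
    Ex (fun p => D < p ∧ p ≤ DB (2 * N) B) ((N : ℝ) ^ η₀) ((N : ℝ) ^ η₀) Tr t → |t| ≤ 2 →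
    MasAtF α h Mo ε₀ ε₁ r M A E₁ D N v D₁ P Pt Tr t


section
variable {k : ℕ}
/-- the primes of the fundamental lemma -/
noncomputable def PtF (α h : Fin k → ℤ) (Mo N B : ℕ) (ε₁ : ℝ) : Finset ℕ :=
  Pool.Agent.W23.PL.P1 (2 * N) B ε₁ \ CL (uB α) (wB h Mo)

/-- the primes of the rough Selberg weights -/
noncomputable def PbF (α h : Fin k → ℤ) (Mo N z : ℕ) (ε₁ : ℝ) : Finset ℕ :=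
  (Icc 1 z).filter (fun p => p.Prime ∧ ((2 * N : ℕ) : ℝ) ^ ε₁ < (p : ℝ) ∧
    p ∉ CL (uB α) (wB h Mo))

/-- `V / G`, the density of the rough primes -/
noncomputable def vGF (α h : Fin k → ℤ) (Mo N B z : ℕ) (ε₁ : ℝ) : ℝ :=
  Pool.Agent.W23.PL.VV (PtF α h Mo N B ε₁) / GG (PbF α h Mo N z ε₁) z

/-- the main size -/
noncomputable def MMF (α h : Fin k → ℤ) (Mo D N B : ℕ) (ρ : ℝ) : ℝ :=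
  ((2 * N : ℕ) : ℝ) * (Pool.Agent.W25.UN.VV α h Mo D (DB (2 * N) B) / ((WW D / 2 : ℕ) : ℝ) *
    (bb N B ρ / 48 * bb N B ρ ^ k))

/-- the majorant weight of the form `i` -/
noncomputable def muF (Q : SPar) (α h : Fin k → ℤ) (Mo : ℕ) (ρ ρ₁ : ℝ) (D B N v : ℕ) (Tr : ℤ → ℝ)
    (i : Fin k) (n : ℤ) : ℝ :=
  Pool.Agent.H442R2.KF.Wt (2 * N) n *
    (((if ((WW D / 2 : ℕ) : ℤ) ∣ n - v then 1 else 0) * Tr n) *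
      FZ (uB α) (wB h Mo) (PBF α h Mo N B ρ₁)
        (cw (prP (PBF α h Mo N B ρ₁)) (zA Q k (PBF α h Mo N B ρ₁) (ρ * Real.log N) i)) n ^ 2)

/-- the majorant of the indicator of the primes in the form `j` -/
noncomputable def sjF (α h : Fin k → ℤ) (Mo : ℕ) (ε₁ : ℝ) (B N z : ℕ) (b : ℕ → ℝ) (j : Fin k) (n : ℤ) : ℝ :=
  Pool.Agent.W23.PL.xx (PtF α h Mo N B ε₁) (Lf α h Mo (some j) n) *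
    ds b (z ^ 2) (Lf α h Mo (some j) n)

/-- all the data at `N` -/
structure DatF (Q : SPar) (α h : Fin k → ℤ) (Mo : ℕ) (ε₀ ε₁ ρ ρ₁ ε M C1 : ℝ) (A E₁ D B N v D₁ z : ℕ)
    (Tr : ℤ → ℝ) (t : ℝ) (th dl b : ℕ → ℝ) : Prop where
  k3 : 3 ≤ k
  α1 : ∀ i, α i ≠ 0
  N8 : 8 ≤ N
  l1 : 1 ≤ Real.log N
  ρ0 : 0 < ρ
  ε0 : 0 < ε
  ε3 : ε < 1 / 3
  e10 : 0 < ε₁
  e11 : ε₁ ≤ 1 / 2
  M1 : 1 ≤ M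
  C11 : 1 ≤ C1
  W2 : 1 ≤ WW D / 2
  /-- the sieving primes of the weights are among the primes of the fundamental lemma -/
  sub : PBF α h Mo N B ρ₁ ⊆ PtF α h Mo N B ε₁
  ne : (PtF α h Mo N B ε₁).Nonempty
  gd : ∀ p ∈ PBF α h Mo N B ρ₁ ∪ PtF α h Mo N B ε₁, Gd (uB α) (wB h Mo) p ∧ DB (2 * N) B < p ∧
    (p : ℝ) ≤ ((2 * N : ℕ) : ℝ) ^ ε₁
  sd : SieveData (IP (PBF α h Mo N B ρ₁)) (Option (Fin k)) (prP (PBF α h Mo N B ρ₁))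
    (LZ (uB α) (wB h Mo)) 1
  sums : SumsN Q (DB (2 * N) B) ε (k + 1) (ρ * Real.log N) (PBF α h Mo N B ρ₁)
  low : 0 < Br2 Q k ε → ∀ i j : Fin k, i ≠ j →
    (1 - ε) ^ 4 * (bb N B ρ * (Q.I1 - ε)) ^ 4 / (bb N B ρ * (1 + ε)) ^ 2 *
      (bb N B ρ * (1 - ε)) * (bb N B ρ / 48 * bb N B ρ ^ (k - 2) * Br2 Q k ε) ≤
      Q1f (prP (PBF α h Mo N B ρ₁)) (cw (prP (PBF α h Mo N B ρ₁))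
        (zB Q k (PBF α h Mo N B ρ₁) (ρ * Real.log N) i j))
  bd0 : 0 < BD (DB (2 * N) B)
  b1 : 1 ≤ bb N B ρ
  Tr0 : ∀ n, 0 ≤ Tr n
  Tr1 : ∀ n : ℤ, (∀ p : ℕ, p.Prime → D < p → p ≤ DB (2 * N) B → ∀ j,
    ¬ (p : ℤ) ∣ uB α j * n + wB h Mo j) → 1 ≤ Tr n
  Vp : 0 < Pool.Agent.W25.UN.VV α h Mo D (DB (2 * N) B)
  t1 : |t - Pool.Agent.W25.UN.VV α h Mo D (DB (2 * N) B)| ≤
    ε * Pool.Agent.W25.UN.VV α h Mo D (DB (2 * N) B)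
  V0 : 0 < Pool.Agent.W23.PL.VV (PtF α h Mo N B ε₁)
  V1 : Pool.Agent.W23.PL.VV (PtF α h Mo N B ε₁) ≤ 1
  G1 : 1 ≤ GG (PbF α h Mo N z ε₁) z
  /-- the density is at most the expected one -/
  vg : vGF α h Mo N B z ε₁ * bb N B ρ * ((1 / 4 + ε₀ / 8) * (1 - ε)) ≤ ρ
  dth : Pool.Agent.W23.PL.DW (PtF α h Mo N B ε₁) D₁ (Real.log (2 * N : ℕ)) th
  ddl : Pool.Agent.W23.PL.DW (PtF α h Mo N B ε₁) D₁ (Real.log (2 * N : ℕ)) dl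
  fl : ∀ m : ℤ, Pool.Agent.W23.PL.xx (PtF α h Mo N B ε₁) m ≤ Pool.Agent.W23.PL.Ev th D₁ m ∧
    Pool.Agent.W23.PL.Ev th D₁ m - Pool.Agent.W23.PL.xx (PtF α h Mo N B ε₁) m ≤
      Pool.Agent.W23.PL.Ev dl D₁ m
  hth : |Pool.Agent.W23.PL.hat th D₁ - Pool.Agent.W23.PL.VV (PtF α h Mo N B ε₁)| ≤
    ε₁ ^ 3 * Pool.Agent.W23.PL.VV (PtF α h Mo N B ε₁)
  hdl : |Pool.Agent.W23.PL.hat dl D₁| ≤ ε₁ ^ 3 * Pool.Agent.W23.PL.VV (PtF α h Mo N B ε₁)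
  D1 : 1 ≤ D₁
  z1 : 1 ≤ z
  z2 : ((z ^ 2 : ℕ) : ℝ) ≤ ((2 * N : ℕ) : ℝ) ^ (1 / 2 + ε₀ / 4)
  z3 : 4 * z ≤ N
  bM : RCM (CL (uB α) (wB h Mo)) (((2 * N : ℕ) : ℝ) ^ ε₁) (z ^ 2) M b
  bn : ∀ m : ℤ, 0 ≤ ds b (z ^ 2) m
  bo : ∀ m : ℤ, (∀ p ∈ PbF α h Mo N z ε₁, ¬ (p : ℤ) ∣ m) → ds b (z ^ 2) m = 1
  bs : ∑ d ∈ Icc 1 (z ^ 2), b d / d = 1 / GG (PbF α h Mo N z ε₁) z
  /-- the Selberg squares are bounded -/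
  rcb : ∀ (j : Fin k) (n : ℤ), Lf α h Mo (some j) n ≠ 0 →
    Pool.Agent.H442R2.KF.Wt (2 * N) n * ds b (z ^ 2) (Lf α h Mo (some j) n) ≤
      C1 * Pool.Agent.H442R2.KF.Wt (4 * N) n
  size : (∏ t : IP (PBF α h Mo N B ρ₁), (1 + 4 / (prP (PBF α h Mo N B ρ₁) t : ℝ))) ^ 6 ≤
    (Real.log N) ^ E₁
  mas : MasAtF α h Mo ε₀ ε₁ (3 * ρ) M A E₁ D N v D₁ (PBF α h Mo N B ρ₁) (PtF α h Mo N B ε₁) Tr t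
  small : ((4 * N : ℕ) : ℝ) / (Real.log N) ^ A ≤ ε * (MMF α h Mo D N B ρ * vGF α h Mo N B z ε₁ ^ 2)

end

/-- (U0) the total mass -/
def St_U0F : Prop := ∀ (k : ℕ) (Q : SPar) (α h : Fin k → ℤ) (Mo : ℕ) (ε₀ ε₁ ρ ρ₁ ε M C1 : ℝ)
  (A E₁ D B N v D₁ z : ℕ) (Tr : ℤ → ℝ) (t : ℝ) (th dl b : ℕ → ℝ), 0 < Q.I1 → 0 < Q.I2 →
  DatF Q α h Mo ε₀ ε₁ ρ ρ₁ ε M C1 A E₁ D B N v D₁ z Tr t th dl b → ∀ i : Fin k,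
    (∀ n, 0 ≤ muF Q α h Mo ρ ρ₁ D B N v Tr i n) ∧ Summable (muF Q α h Mo ρ ρ₁ D B N v Tr i) ∧
    ∑' n : ℤ, muF Q α h Mo ρ ρ₁ D B N v Tr i n ≤ MMF α h Mo D N B ρ *
      ((1 + ε) * ((Q.I1 + ε) ^ 2 / (1 - ε) ^ 2 * (1 + ε) * (1 / 3 + ε) * (Q.I2 + ε) ^ (k - 1)) +
        ε)

/-- (L1) the first moments from below -/
def St_L1F : Prop := ∀ (k : ℕ) (Q : SPar) (α h : Fin k → ℤ) (Mo : ℕ) (ε₀ ε₁ ρ ρ₁ ε M C1 : ℝ)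
  (A E₁ D B N v D₁ z : ℕ) (Tr : ℤ → ℝ) (t : ℝ) (th dl b : ℕ → ℝ), 0 < Q.I1 → 0 < Q.I2 →
  ε < Q.I1 → ε < Q.I2 → 0 < Br2 Q k ε →
  DatF Q α h Mo ε₀ ε₁ ρ ρ₁ ε M C1 A E₁ D B N v D₁ z Tr t th dl b → ∀ i j : Fin k, i ≠ j →
    Summable (fun n => muF Q α h Mo ρ ρ₁ D B N v Tr i n * sjF α h Mo ε₁ B N z b j n) ∧
    MMF α h Mo D N B ρ * (vGF α h Mo N B z ε₁ * bb N B ρ) *
      ((1 - ε) * (1 - 2 * ε₁ ^ 3) * ((1 - ε) ^ 4 * (Q.I1 - ε) ^ 4 / (1 + ε) ^ 2 * (1 - ε) *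
        Br2 Q k ε) - 2 * ε) ≤
      ∑' n : ℤ, muF Q α h Mo ρ ρ₁ D B N v Tr i n * sjF α h Mo ε₁ B N z b j n

/-- (U2) the mixed second moments from above -/
def St_U2F : Prop := ∀ (k : ℕ) (Q : SPar) (α h : Fin k → ℤ) (Mo : ℕ) (ε₀ ε₁ ρ ρ₁ ε M C1 : ℝ)
  (A E₁ D B N v D₁ z : ℕ) (Tr : ℤ → ℝ) (t : ℝ) (th dl b : ℕ → ℝ), 0 < Q.I1 → 0 < Q.I2 →
  DatF Q α h Mo ε₀ ε₁ ρ ρ₁ ε M C1 A E₁ D B N v D₁ z Tr t th dl b → ∀ i j l : Fin k, i ≠ j → i ≠ l →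
    j ≠ l →
    Summable (fun n => muF Q α h Mo ρ ρ₁ D B N v Tr i n * (sjF α h Mo ε₁ B N z b j n *
      sjF α h Mo ε₁ B N z b l n)) ∧
    ∑' n : ℤ, muF Q α h Mo ρ ρ₁ D B N v Tr i n * (sjF α h Mo ε₁ B N z b j n *
      sjF α h Mo ε₁ B N z b l n) ≤
      MMF α h Mo D N B ρ * (vGF α h Mo N B z ε₁ * bb N B ρ) ^ 2 *
      ((1 + ε) * (1 + ε₁ ^ 3) ^ 2 * ((Q.I1 + ε) ^ 6 / (1 - ε) ^ 2 * (1 + ε) * (1 / 3 + ε) *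
        (Q.I2 + ε) ^ (k - 3)) + ε)

/-- (UD) the diagonal second moments from above -/
def St_UDF : Prop := ∀ (k : ℕ) (Q : SPar) (α h : Fin k → ℤ) (Mo : ℕ) (ε₀ ε₁ ρ ρ₁ ε M C1 : ℝ)
  (A E₁ D B N v D₁ z : ℕ) (Tr : ℤ → ℝ) (t : ℝ) (th dl b : ℕ → ℝ), 0 < Q.I1 → 0 < Q.I2 →
  DatF Q α h Mo ε₀ ε₁ ρ ρ₁ ε M C1 A E₁ D B N v D₁ z Tr t th dl b → ∀ i j : Fin k, i ≠ j →
    Summable (fun n => muF Q α h Mo ρ ρ₁ D B N v Tr i n * sjF α h Mo ε₁ B N z b j n ^ 2) ∧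
    ∑' n : ℤ, muF Q α h Mo ρ ρ₁ D B N v Tr i n * sjF α h Mo ε₁ B N z b j n ^ 2 ≤
      2 * C1 * (MMF α h Mo D N B ρ * (vGF α h Mo N B z ε₁ * bb N B ρ) *
      ((1 + ε) * (1 + ε₁ ^ 3) * ((Q.I1 + ε) ^ 4 / (1 - ε) ^ 2 * (1 + ε) * (1 / 3 + ε) *
        (Q.I2 + ε) ^ (k - 2)) + ε))

/-- (DAT) existence of the data for all large `N` -/
def St_DATF : Prop := ∀ (ε₀ η : ℝ), 0 < ε₀ → ε₀ ≤ 1 / 100 → 0 < η → η ≤ 1 / 100 → R2LAt ε₀ η →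
  ∀ η₀ : ℝ, 0 < η₀ → 16 * η₀ ≤ ε₀ / 10 → 16 * η₀ ≤ η → ∃ εs : ℝ, 0 < εs ∧ ∀ ε₁ : ℝ, 0 < ε₁ →
  ε₁ ≤ εs → ∃ C1 : ℝ, 1 ≤ C1 ∧ ∀ (k : ℕ) (Q : SPar) (ρ ρ₁ ε : ℝ), 3 ≤ k → 0 < ρ → ρ < ρ₁ →
  2 * ρ₁ ≤ ε₁ → 3 * ρ ≤ η₀ → 0 < ε → ε < 1 / 3 → ε < Q.I1 → ε < Q.I2 → ∃ B₀ : ℕ, 6 ≤ B₀ ∧
  ∀ B : ℕ, B₀ ≤ B → ∀ D : ℕ, 2 * (k + 1) ≤ D → ∀ (α h : Fin k → ℤ), (∀ i, α i ≠ 0) →
  (∀ i, (α i).natAbs ≤ D) → ∀ᶠ N : ℕ in atTop, ∀ Mo : ℕ, 4 * Mo ≤ 5 * N → Nd α h Mo → ∀ v : ℕ,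
    ∃ (M : ℝ) (A E₁ D₁ z : ℕ) (Tr : ℤ → ℝ) (t : ℝ) (th dl b : ℕ → ℝ),
      DatF Q α h Mo ε₀ ε₁ ρ ρ₁ ε M C1 A E₁ D B N v D₁ z Tr t th dl b


end Pool.Agent.TH899.UG
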