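import Pool.Agent.TH899.UG.Stm
import Pool.Agent.W240.UBVLN
import Pool.Agent.W382.UB.Rcb
import Pool.Agent.W293.UN.Cc

/-! Sizes, collisions, pointwise bounds for general linear forms. -/

set_option autoImplicit false

namespace Pool.Agent.TH899.UG

open Pool.Agent.W240.UBVLN
open Finset Filter Topology Pool.Agent.W25.UB Pool.Agent.W25.UN


/-- (VLN) sizes -/
def St_VLNF : Prop := ∀ (k B D : ℕ) (ε₁ ρ : ℝ), 1 ≤ B → 2 * (k + 1) ≤ D → 0 < ε₁ → ε₁ ≤ 1 →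
  0 < ρ → ∀ᶠ N : ℕ in atTop, ∀ (α h : Fin k → ℤ) (Mo : ℕ), (∀ i, α i ≠ 0) →
    (∀ i, (α i).natAbs ≤ D) →
    D ≤ DB (2 * N) B ∧ (Real.log (2 * N : ℕ)) ^ B - 1 ≤ (DB (2 * N) B : ℝ) ∧
    (DB (2 * N) B : ℝ) ≤ (Real.log (2 * N : ℕ)) ^ B ∧
    1 / Real.log N ≤ Pool.Agent.W25.UN.VV α h Mo D (DB (2 * N) B) ∧
    Pool.Agent.W25.UN.VV α h Mo D (DB (2 * N) B) ≤ 1 ∧
    1 ≤ Pool.Agent.H410R2.BD (DB (2 * N) B) * (ρ * Real.log N) ∧
    (∀ Cl : Finset ℕ, (∀ p ∈ Pool.Agent.W23.PL.P1 (2 * N) B ε₁ \ Cl, p.Prime ∧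
        DB (2 * N) B < p ∧ (p : ℝ) < ((2 * N : ℕ) : ℝ) ^ ε₁) ∧
      (∀ p : ℕ, p.Prime → DB (2 * N) B < p → (p : ℝ) < ((2 * N : ℕ) : ℝ) ^ ε₁ → p ∉ Cl →
        p ∈ Pool.Agent.W23.PL.P1 (2 * N) B ε₁ \ Cl) ∧
      1 / (Real.log N) ^ 2 ≤ Pool.Agent.W23.PL.VV (Pool.Agent.W23.PL.P1 (2 * N) B ε₁ \ Cl) ∧
      Pool.Agent.W23.PL.VV (Pool.Agent.W23.PL.P1 (2 * N) B ε₁ \ Cl) ≤ 1) ∧
    (∀ (P : Finset ℕ) (z : ℕ), 1 ≤ z → (∀ p ∈ P, p.Prime ∧ p ≤ 2 * N) →
      1 ≤ GG P z ∧ GG P z ≤ (Real.log N) ^ 2)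

theorem om_leF {k : ℕ} (α h : Fin k → ℤ) (D : ℕ) (hα : ∀ i, α i ≠ 0) (hαD : ∀ i, (α i).natAbs ≤ D)
    (N : ℕ) {p : ℕ} (hp : p.Prime) (hDp : D < p) : (Om (uB α) (wB h N) p).card ≤ k + 1 := by
  refine (Pool.Agent.W398.UNFO.rc k (uB α) (wB h N) p hp ?_).2.1
  intro j hj
  rcases j with _ | i
  · have h3 : (p : ℤ) ∣ 1 := hj
    have h4 : p ∣ 1 := by exact_mod_cast h3
    exact hp.one_lt.ne' (Nat.dvd_one.1 h4)
  · have h3 : (p : ℤ) ∣ α i := hj
    have h4 : p ∣ (α i).natAbs := Int.natCast_dvd.1 h3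
    have h5 := Nat.le_of_dvd (Int.natAbs_pos.2 (hα i)) h4
    have h6 := hαD i
    omega

theorem VV_bdF {k : ℕ} (α h : Fin k → ℤ) (N D D' : ℕ) (hα : ∀ i, α i ≠ 0)
    (hαD : ∀ i, (α i).natAbs ≤ D)
    (hD : 2 * (k + 1) ≤ D) :
    (∏ p ∈ QQ D D', (1 + (2 * (k + 1) : ℝ) / p))⁻¹ ≤ Pool.Agent.W25.UN.VV α h N D D' ∧
    Pool.Agent.W25.UN.VV α h N D D' ≤ 1 := by
  unfold Pool.Agent.W25.UN.VV
  have key : ∀ p ∈ QQ D D', (1 + (2 * (k + 1) : ℝ) / p)⁻¹ ≤
      1 - ((Om (uB α) (wB h N) p).card : ℝ) / p ∧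
      1 - ((Om (uB α) (wB h N) p).card : ℝ) / p ≤ 1 := by
    intro p hp
    obtain ⟨hpp, hDp, -⟩ := QQ_prime hp
    have hp0 : (0 : ℝ) < p := by exact_mod_cast hpp.pos
    have h1 : ((Om (uB α) (wB h N) p).card : ℝ) ≤ k + 1 := by
      exact_mod_cast om_leF α h D hα hαD N hpp hDp
    have h2 : (2 * (k + 1) : ℝ) ≤ p := by
      have : 2 * (k + 1) ≤ p := by omega
      exact_mod_cast this
    constructor
    · have h3 : ((Om (uB α) (wB h N) p).card : ℝ) / p ≤ (k + 1) / p :=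
        div_le_div_of_nonneg_right h1 hp0.le
      have h4 : ((k : ℝ) + 1) / p ≤ 1 / 2 := by
        rw [div_le_iff₀ hp0]
        linarith
      have h5 : (0 : ℝ) ≤ ((k : ℝ) + 1) / p := by positivity
      have h6 : (2 * (k + 1) : ℝ) / p = 2 * (((k : ℝ) + 1) / p) := by ring
      rw [h6, inv_le_comm₀ (by positivity) (by linarith)]
      rw [inv_le_iff_one_le_mul₀ (by linarith)]
      have h7 : 1 - ((k : ℝ) + 1) / p ≤ 1 - ((Om (uB α) (wB h N) p).card : ℝ) / p := by linarith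
      nlinarith [mul_nonneg h5 (sub_nonneg.2 h4)]
    · have : 0 ≤ ((Om (uB α) (wB h N) p).card : ℝ) / p := by positivity
      linarith
  have hpos : ∀ p ∈ QQ D D', 0 ≤ (1 + (2 * (k + 1) : ℝ) / p)⁻¹ := fun p _ => by positivity
  constructor
  · rw [← Finset.prod_inv_distrib]
    exact Finset.prod_le_prod hpos fun p hp => (key p hp).1
  · apply Finset.prod_le_one
    · intro p hp
      exact (hpos p hp).trans (key p hp).1
    · intro p hp
      exact (key p hp).2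


theorem vlnF (hVLB : Pool.Agent.W23.PL.St_VLB) : St_VLNF := by
  classical
  intro k B D ε₁ ρ hB hD hε₁ hε₁' hρ
  obtain ⟨c₂, hc₂, hV⟩ := hVLB
  obtain ⟨N₀, hN₀⟩ := hV B hB ε₁ hε₁ hε₁'
  filter_upwards [prodB (2 * (k + 1) : ℝ) (by positivity) B hB 1 one_pos,
    prodB 2 (by norm_num) B hB ρ hρ, ev_GG, ev_y ((D : ℝ) + 5), ev_log (2 / c₂ + 1),
    eventually_ge_atTop (max N₀ 3), ev_y (Real.exp 1)] with N hP1 hP2 hGG hy hl hNN hye
  intro α h Mo hα hαD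
  have hN0 : N₀ ≤ 2 * N := by
    have := le_max_left N₀ 3
    omega
  have hN3 : 3 ≤ N := (le_max_right N₀ 3).trans hNN
  obtain ⟨h1, h2, h3, h4, h5⟩ := DB_facts (N := N) (D := D) hB (by linarith)
  have hlog0 : 0 < Real.log N := by
    have : 0 < 2 / c₂ := by positivity
    linarith
  have hD0 : (0 : ℝ) ≤ D := Nat.cast_nonneg D
  refine ⟨h1, h3, h4, ?_, (VV_bdF α h Mo D _ hα hαD hD).2, ?_, ?_, ?_⟩
  · -- lower bound of the presieving product
    refine le_trans ?_ (VV_bdF α h Mo D _ hα hαD hD).1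
    rw [one_div]
    have hpos : 0 < ∏ p ∈ QQ D (DB (2 * N) B), (1 + (2 * (k + 1) : ℝ) / p) :=
      Finset.prod_pos fun p _ => by positivity
    apply inv_anti₀ hpos
    calc ∏ p ∈ QQ D (DB (2 * N) B), (1 + (2 * (k + 1) : ℝ) / p)
        ≤ ∏ p ∈ (Icc 1 (DB (2 * N) B)).filter Nat.Prime, (1 + (2 * (k + 1) : ℝ) / p) := by
          apply prod_mono_set
          · intro p hp
            obtain ⟨hp1, hp2, hp3⟩ := QQ_prime hp
            rw [Finset.mem_filter, Finset.mem_Icc]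
            exact ⟨⟨hp1.one_lt.le, hp3⟩, hp1⟩
          · intro p
            have : (0 : ℝ) ≤ (2 * (k + 1) : ℝ) / p := by positivity
            linarith
      _ ≤ 1 * Real.log N := hP1
      _ = Real.log N := one_mul _
  · -- BD
    have hb := BD_bd (DB (2 * N) B)
    have hpos : 0 < ∏ p ∈ (Icc 1 (DB (2 * N) B)).filter Nat.Prime, (1 + (2 : ℝ) / p) :=
      Finset.prod_pos fun p _ => by positivity
    have hρl : 0 < ρ * Real.log N := by positivity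
    calc (1 : ℝ) = (ρ * Real.log N)⁻¹ * (ρ * Real.log N) := (inv_mul_cancel₀ hρl.ne').symm
      _ ≤ Pool.Agent.H410R2.BD (DB (2 * N) B) * (ρ * Real.log N) := by
          apply mul_le_mul_of_nonneg_right _ hρl.le
          exact (inv_anti₀ hpos hP2).trans hb
  · -- the primes of the weights
    intro Cl
    have hX : (1 : ℝ) ≤ ((2 * N : ℕ) : ℝ) := by
      have : 1 ≤ 2 * N := by omega
      exact_mod_cast this
    have hX0 : (0 : ℝ) < ((2 * N : ℕ) : ℝ) := by linarith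
    have hy0 : 0 < Real.log ((2 * N : ℕ) : ℝ) := by linarith
    have hprime : ∀ p ∈ Pool.Agent.W23.PL.P1 (2 * N) B ε₁, p.Prime := by
      intro p hp
      unfold Pool.Agent.W23.PL.P1 at hp
      exact (Finset.mem_filter.1 hp).2.1
    have hlt : ∀ p : ℕ, p.Prime →
        (Pool.Agent.W23.DC.tt (2 * N) p < ε₁ ↔ (p : ℝ) < ((2 * N : ℕ) : ℝ) ^ ε₁) := by
      intro p hp
      have hp0 : (0 : ℝ) < p := by exact_mod_cast hp.pos
      unfold Pool.Agent.W23.DC.tt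
      rw [div_lt_iff₀ hy0, Real.rpow_def_of_pos hX0, mul_comm (Real.log _) ε₁,
        ← Real.log_lt_iff_lt_exp hp0]
    refine ⟨?_, ?_, ?_, (PLVV_bd hprime Cl).2⟩
    · intro p hp
      have hp' := (Finset.mem_sdiff.1 hp).1
      have hpp := hprime p hp'
      unfold Pool.Agent.W23.PL.P1 at hp'
      rw [Finset.mem_filter] at hp'
      obtain ⟨-, -, hp1, hp2⟩ := hp'
      refine ⟨hpp, ?_, (hlt p hpp).1 hp2⟩
      have := Nat.ceil_le.2 hp1
      omega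
    · intro p hpp hDp hpε hpC
      rw [Finset.mem_sdiff]
      refine ⟨?_, hpC⟩
      unfold Pool.Agent.W23.PL.P1
      rw [Finset.mem_filter, Finset.mem_Icc]
      refine ⟨⟨hpp.one_lt.le, ?_⟩, hpp, ?_, (hlt p hpp).2 hpε⟩
      · have h6 : ((2 * N : ℕ) : ℝ) ^ ε₁ ≤ ((2 * N : ℕ) : ℝ) ^ (1 : ℝ) :=
          Real.rpow_le_rpow_of_exponent_le hX hε₁'
        rw [Real.rpow_one] at h6
        have h7 : (p : ℝ) ≤ ((2 * N : ℕ) : ℝ) := by linarith
        exact_mod_cast h7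
      · apply Nat.ceil_le.1
        omega
    · refine le_trans ?_ (PLVV_bd hprime Cl).1
      refine le_trans ?_ (hN₀ (2 * N) hN0).1
      have h6 := (y_bd (show 2 ≤ N by omega)).2
      have h7 : 1 ≤ Real.log (Real.log ((2 * N : ℕ) : ℝ)) := by
        rw [Real.le_log_iff_exp_le hy0]
        exact hye
      have hB1 : (1 : ℝ) ≤ B := by exact_mod_cast hB
      have h8 : (1 : ℝ) ≤ B * Real.log (Real.log ((2 * N : ℕ) : ℝ)) := by nlinarith
      have h9 : ε₁ * Real.log ((2 * N : ℕ) : ℝ) ≤ 2 * Real.log N := by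
        calc ε₁ * Real.log ((2 * N : ℕ) : ℝ) ≤ 1 * Real.log ((2 * N : ℕ) : ℝ) :=
              mul_le_mul_of_nonneg_right hε₁' hy0.le
          _ ≤ 2 * Real.log N := by linarith
      have h10 : 1 / (2 * Real.log N) ≤
          B * Real.log (Real.log ((2 * N : ℕ) : ℝ)) / (ε₁ * Real.log ((2 * N : ℕ) : ℝ)) :=
        div_le_div₀ (by linarith) h8 (by positivity) h9
      refine le_trans ?_ (mul_le_mul_of_nonneg_left h10 hc₂.le)
      have h11 : 2 / c₂ ≤ Real.log N := by linarith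
      rw [div_le_iff₀ hc₂] at h11
      rw [mul_one_div, div_le_div_iff₀ (by positivity) (by positivity)]
      nlinarith
  · intro P z hz hP
    exact ⟨GG_ge P z hz, (GG_le P z fun p hp => (hP p hp).1).trans (hGG P hP)⟩


/-- (CC) few collisions -/
theorem clF (k : ℕ) (α h : Fin k → ℤ) : ∃ C' : ℝ, ∀ᶠ N : ℕ in atTop, ∀ Mo : ℕ, 4 * Mo ≤ 5 * N →
    Nd α h Mo → ((CL (uB α) (wB h Mo)).card : ℝ) ≤ C' * Real.log N := by
  set H : ℕ := ∑ i, (α i).natAbs + ∑ i, (h i).natAbs + 2 with hH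
  have hαH : ∀ i, (α i).natAbs ≤ H := by
    intro i
    have h1 : (α i).natAbs ≤ ∑ i, (α i).natAbs :=
      Finset.single_le_sum (f := fun i => (α i).natAbs) (fun j _ => Nat.zero_le _) (Finset.mem_univ i)
    omega
  have hhH : ∀ i, (h i).natAbs ≤ H := by
    intro i
    have h1 : (h i).natAbs ≤ ∑ i, (h i).natAbs :=
      Finset.single_le_sum (f := fun i => (h i).natAbs) (fun j _ => Nat.zero_le _) (Finset.mem_univ i)
    omega
  refine ⟨((k + 1 : ℕ) : ℝ) ^ 2 * (2 / Real.log 2), ?_⟩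
  filter_upwards [eventually_ge_atTop (4 * H * (H + 1) + 2)] with N hN Mo hMo hnd
  have hu : ∀ j : Option (Fin k), (uB α j).natAbs ≤ H := by
    rintro (_ | i)
    · show (1 : ℤ).natAbs ≤ H
      rw [Int.natAbs_one]; omega
    · exact hαH i
  have hw : ∀ j : Option (Fin k), (wB h Mo j).natAbs ≤ 2 * N + H := by
    rintro (_ | i)
    · show (0 : ℤ).natAbs ≤ 2 * N + H
      simp
    · show ((Mo : ℤ) + h i).natAbs ≤ 2 * N + H
      have h1 := Int.natAbs_add_le (Mo : ℤ) (h i)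
      have h2 := hhH i
      rw [Int.natAbs_natCast] at h1
      omega
  have hN2 : 2 ≤ N := by omega
  have hdet : ∀ j l : Option (Fin k), (uB α j * wB h Mo l - uB α l * wB h Mo j).natAbs ≤ N ^ 2 := by
    intro j l
    have h1 := Int.natAbs_sub_le (uB α j * wB h Mo l) (uB α l * wB h Mo j)
    rw [Int.natAbs_mul, Int.natAbs_mul] at h1
    have h2 := Nat.mul_le_mul (hu j) (hw l)
    have h3 := Nat.mul_le_mul (hu l) (hw j)
    have h4 : 2 * (H * (2 * N + H)) ≤ N ^ 2 := by nlinarith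
    omega
  -- number of prime factors of the product
  unfold CL
  set Pd : ℤ := ∏ j, ∏ l, if j = l then (1 : ℤ) else uB α j * wB h Mo l - uB α l * wB h Mo j with hPd
  have hPd0 : Pd ≠ 0 := by
    rw [hPd]
    refine Finset.prod_ne_zero_iff.2 fun j _ => Finset.prod_ne_zero_iff.2 fun l _ => ?_
    split_ifs with hjl
    · exact one_ne_zero
    · exact hnd j l hjl
  have hPdle : Pd.natAbs ≤ (N ^ 2) ^ ((k + 1) * (k + 1)) := by
    rw [hPd]
    have e1 : (∏ j, ∏ l, if j = l then (1 : ℤ) else uB α j * wB h Mo l - uB α l * wB h Mo j).natAbs =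
        ∏ j, ∏ l, (if j = l then (1 : ℤ) else uB α j * wB h Mo l - uB α l * wB h Mo j).natAbs := by
      have h1 : ∀ (ι : Type) (s : Finset ι) (f : ι → ℤ), (∏ i ∈ s, f i).natAbs =
          ∏ i ∈ s, (f i).natAbs := fun ι s f => map_prod Int.natAbsHom f s
      rw [h1]
      exact Finset.prod_congr rfl fun j _ => h1 _ _ _
    rw [e1]
    calc ∏ j : Option (Fin k), ∏ l : Option (Fin k),
          (if j = l then (1 : ℤ) else uB α j * wB h Mo l - uB α l * wB h Mo j).natAbs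
        ≤ ∏ _j : Option (Fin k), ∏ _l : Option (Fin k), N ^ 2 := by
          refine Finset.prod_le_prod' fun j _ => Finset.prod_le_prod' fun l _ => ?_
          split_ifs
          · rw [Int.natAbs_one]; exact Nat.one_le_pow _ _ (by omega)
          · exact hdet j l
      _ = (N ^ 2) ^ ((k + 1) * (k + 1)) := by
          simp only [Finset.prod_const, Finset.card_univ, Fintype.card_option, Fintype.card_fin]
          rw [← pow_mul]
  have h1 := Pool.Agent.W293.UN.Cc.card_pf Pd.natAbs (Int.natAbs_ne_zero.2 hPd0)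
  refine h1.trans ?_
  have hN0 : (0 : ℝ) < N := by exact_mod_cast (by omega : 0 < N)
  have h2 : Real.log (Pd.natAbs : ℝ) ≤ ((k + 1 : ℕ) : ℝ) ^ 2 * (2 * Real.log N) := by
    have h3 : (Pd.natAbs : ℝ) ≤ ((N : ℝ) ^ 2) ^ ((k + 1) * (k + 1)) := by exact_mod_cast hPdle
    have h4 : (0 : ℝ) < (Pd.natAbs : ℝ) := by
      exact_mod_cast Int.natAbs_pos.2 hPd0
    have h5 := Real.log_le_log h4 h3
    rw [Real.log_pow, Real.log_pow] at h5
    refine h5.trans (le_of_eq ?_)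
    push_cast
    ring
  have hl2 : 0 < Real.log 2 := Real.log_pos (by norm_num)
  rw [div_le_iff₀ hl2]
  refine h2.trans (le_of_eq ?_)
  field_simp

/-- (RCB) the Selberg squares are bounded, linear forms -/
def St_RCBF : Prop := ∀ ε₁ : ℝ, 0 < ε₁ → ε₁ ≤ 1 → ∃ C1 : ℝ, 1 ≤ C1 ∧ ∀ A : ℕ, 1 ≤ A →
  ∀ᶠ N : ℕ in atTop,
  ∀ (P : Finset ℕ) (z : ℕ), (∀ p ∈ P, p.Prime ∧ ((2 * N : ℕ) : ℝ) ^ ε₁ < (p : ℝ)) →
    ∀ u w n : ℤ, |u| ≤ A → |(w : ℝ)| ≤ 2 * N → u * n + w ≠ 0 →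
      Pool.Agent.H442R2.KF.Wt (2 * N) n *
        (((sq P z).filter (fun d : ℕ => (d : ℤ) ∣ u * n + w)).card : ℝ) ^ 2 ≤
      C1 * Pool.Agent.H442R2.KF.Wt (4 * N) n

theorem rcbF (hRC : Pool.Agent.H442R2.BX.St_RC) (hGS : Pool.Agent.H442R2.BX.St_GS) : St_RCBF := by
  classical
  intro ε₁ hε _
  obtain ⟨N₀, C, hC, h⟩ := hRC (ε₁ / 2) (by linarith)
  refine ⟨2 * (1 + C) ^ 2, by nlinarith, fun A hA => ?_⟩
  filter_upwards [eventually_ge_atTop (max (max N₀ A) 1)] with N hN P z hP u w n hu hw hna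
  have hN1 : 1 ≤ N := le_trans (le_max_right _ _) hN
  have hN0 : N₀ ≤ N := le_trans (le_max_left _ _) ((le_max_left _ _).trans hN)
  have hNA : A ≤ N := le_trans (le_max_right _ _) ((le_max_left _ _).trans hN)
  have hA1 : (1 : ℝ) ≤ A := by exact_mod_cast hA
  have h2N0 : (0 : ℝ) < ((2 * N : ℕ) : ℝ) := by
    have : 0 < 2 * N := by omega
    exact_mod_cast this
  have hscale : N₀ ≤ A * (2 * N) := by nlinarith
  have h1 := h (A * (2 * N)) z hscale (-w) (u * n) (by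
      push_cast
      rw [abs_neg]
      have h3 : (0 : ℝ) ≤ 2 * N := by positivity
      nlinarith) (by
      intro h3
      apply hna
      rw [h3, neg_add_cancel])
  have e0 : u * n - -w = u * n + w := by ring
  rw [e0] at h1
  have hyy : ((A * (2 * N) : ℕ) : ℝ) ^ (ε₁ / 2) ≤ ((2 * N : ℕ) : ℝ) ^ ε₁ := by
    have h3 : ((A * (2 * N) : ℕ) : ℝ) ≤ ((2 * N : ℕ) : ℝ) ^ (2 : ℝ) := by
      rw [Real.rpow_two, pow_two]
      push_cast
      have h4 : (A : ℝ) ≤ N := by exact_mod_cast hNA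
      have h5 : (0 : ℝ) ≤ 2 * N := by positivity
      apply mul_le_mul_of_nonneg_right _ h5
      have : (0 : ℝ) ≤ N := Nat.cast_nonneg _
      linarith
    calc ((A * (2 * N) : ℕ) : ℝ) ^ (ε₁ / 2) ≤ (((2 * N : ℕ) : ℝ) ^ (2 : ℝ)) ^ (ε₁ / 2) :=
          Real.rpow_le_rpow (Nat.cast_nonneg _) h3 (by linarith)
      _ = _ := by
          rw [← Real.rpow_mul h2N0.le]
          congr 1
          ring
  have hxle : 1 + |((u * n : ℤ) : ℝ)| / ((A * (2 * N) : ℕ) : ℝ) ≤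
      1 + |(n : ℝ)| / ((2 * N : ℕ) : ℝ) := by
    have h3 : |((u * n : ℤ) : ℝ)| ≤ A * |(n : ℝ)| := by
      push_cast
      rw [abs_mul]
      apply mul_le_mul_of_nonneg_right _ (abs_nonneg _)
      rw [← Int.cast_abs]
      exact_mod_cast hu
    have h4 : |((u * n : ℤ) : ℝ)| / ((A * (2 * N) : ℕ) : ℝ) ≤ |(n : ℝ)| / ((2 * N : ℕ) : ℝ) := by
      rw [div_le_div_iff₀ (by push_cast; positivity) h2N0]
      calc |((u * n : ℤ) : ℝ)| * ((2 * N : ℕ) : ℝ) ≤ (A * |(n : ℝ)|) * ((2 * N : ℕ) : ℝ) :=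
            mul_le_mul_of_nonneg_right h3 h2N0.le
        _ = _ := by push_cast; ring
    linarith
  set x : ℝ := 1 + |(n : ℝ)| / ((2 * N : ℕ) : ℝ) with hx
  have hx1 : 1 ≤ x := by
    rw [hx]
    have : 0 ≤ |(n : ℝ)| / ((2 * N : ℕ) : ℝ) := by positivity
    linarith
  have hsub : (sq P z).filter (fun d : ℕ => (d : ℤ) ∣ u * n + w) ⊆
      insert 1 (Pool.Agent.H442R2.BX.rd (((A * (2 * N) : ℕ) : ℝ) ^ (ε₁ / 2)) z (u * n + w)) := by
    intro d hd
    unfold Pool.Agent.W25.UB.sq at hd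
    rw [mem_filter, mem_filter, mem_Icc] at hd
    obtain ⟨⟨⟨hd1, hdz⟩, _, hdP⟩, hdv⟩ := hd
    rw [mem_insert]
    by_cases h0 : d = 1
    · exact Or.inl h0
    · right
      unfold Pool.Agent.H442R2.BX.rd Pool.Agent.H442R2.BX.roughs
      rw [mem_filter, mem_filter, mem_Icc]
      exact ⟨⟨⟨hd1, hdz⟩, by omega, fun p hp hpd =>
        lt_of_le_of_lt hyy (hP p (hdP p hp hpd)).2⟩, hdv⟩
  have hcard : (((sq P z).filter (fun d : ℕ => (d : ℤ) ∣ u * n + w)).card : ℝ) ≤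
      1 + C * x ^ (1 / 4 : ℝ) := by
    have h2 := (card_le_card hsub).trans (card_insert_le _ _)
    have h1' := h1.trans (mul_le_mul_of_nonneg_left (Real.rpow_le_rpow (by positivity) hxle
      (by norm_num : (0 : ℝ) ≤ 1 / 4)) hC.le)
    have h3 : (((sq P z).filter (fun d : ℕ => (d : ℤ) ∣ u * n + w)).card : ℝ) ≤
        ((Pool.Agent.H442R2.BX.rd (((A * (2 * N) : ℕ) : ℝ) ^ (ε₁ / 2)) z (u * n + w)).card : ℝ) + 1 := by
      exact_mod_cast h2
    linarith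
  have hx4 : 1 ≤ x ^ (1 / 4 : ℝ) := Real.one_le_rpow hx1 (by norm_num)
  have hcard2 : (((sq P z).filter (fun d : ℕ => (d : ℤ) ∣ u * n + w)).card : ℝ) ≤
      (1 + C) * x ^ (1 / 4 : ℝ) := by linarith
  have hsq : (((sq P z).filter (fun d : ℕ => (d : ℤ) ∣ u * n + w)).card : ℝ) ^ 2 ≤
      (1 + C) ^ 2 * x := by
    have h4 := pow_le_pow_left₀ (Nat.cast_nonneg _) hcard2 2
    have h5 : ((1 + C) * x ^ (1 / 4 : ℝ)) ^ 2 = (1 + C) ^ 2 * x ^ (1 / 2 : ℝ) := by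
      rw [mul_pow, ← Real.rpow_natCast (x ^ (1 / 4 : ℝ)) 2, ← Real.rpow_mul (by linarith)]
      norm_num
    have h6 : x ^ (1 / 2 : ℝ) ≤ x := by
      conv_rhs => rw [← Real.rpow_one x]
      exact Real.rpow_le_rpow_of_exponent_le hx1 (by norm_num)
    rw [h5] at h4
    exact h4.trans (mul_le_mul_of_nonneg_left h6 (by positivity))
  have hW : 0 ≤ Pool.Agent.H442R2.KF.Wt (2 * N) n := (Real.exp_pos _).le
  have hg := (hGS (2 * N) (by omega)).1 n
  have e4 : 2 * (2 * N) = 4 * N := by ring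
  rw [e4] at hg
  calc Pool.Agent.H442R2.KF.Wt (2 * N) n *
        (((sq P z).filter (fun d : ℕ => (d : ℤ) ∣ u * n + w)).card : ℝ) ^ 2
      ≤ Pool.Agent.H442R2.KF.Wt (2 * N) n * ((1 + C) ^ 2 * x) := mul_le_mul_of_nonneg_left hsq hW
    _ = (1 + C) ^ 2 * (Pool.Agent.H442R2.KF.Wt (2 * N) n * x) := by ring
    _ ≤ (1 + C) ^ 2 * (2 * Pool.Agent.H442R2.KF.Wt (4 * N) n) :=
        mul_le_mul_of_nonneg_left hg (by positivity)
    _ = 2 * (1 + C) ^ 2 * Pool.Agent.H442R2.KF.Wt (4 * N) n := by ring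


end Pool.Agent.TH899.UG
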