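import Mathlib
import Pool.Agent.TH899.UG.Stm
import Pool.Agent.TH899.UG.Vln
import Pool.Agent.W22.UB.TWa

/-! The first sum for general linear forms, with the new parameters. -/

set_option autoImplicit false

namespace Pool.Agent.TH899.UG

open Finset Filter Topology
open Pool.Agent.H410R2 hiding GP GP_prof GP_cut_some GP_cut_none GP_lip gg_pos gg_le_one gg_anti ee_bound ee_nonneg gg_lip LB_gg LB_ee Sums exists_sums yx wx wxi Br sum_GP_none sum_GP_some sum_GP_some_ee sum_GP_some_one sum_GPr_none sum_GPr_some S1_final QI_final S2_final w_abs_le wmax gg ee I1 I2 IE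
open Pool.Agent.H361R2.GM
open Pool.Agent.H362R2.CM
open Pool.Agent.W25.UN Pool.Agent.W25.UB
open Pool.Agent.W22.UB (Jb Jb_le Jb_up ev_DB DB_up ZZ_low' E1_small')

/-- (TWa) first sum for narrow tents with centres between `N / 8` and `N / 4` -/
def St_TWaF : Prop := ∀ (k : ℕ) (Q : SPar) (ρ ρ₁ ε : ℝ) (B : ℕ), 2 ≤ k → 0 < ρ → ρ ≤ 1 / 16 →
  49 / 48 * ρ < ρ₁ → ρ₁ ≤ 1 / 4 → 0 < ε → ε < 1 / 3 → ε < Q.I1 → ε < Q.I2 → 3 ≤ B →
  ∃ D₀ : ℕ, ∀ D : ℕ, D₀ ≤ D → ∀ (α h : Fin k → ℤ), (∀ i, α i ≠ 0) →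
  (∀ i, (α i).natAbs ≤ D) → ∀ c₀ : ℝ, 1 / 8 ≤ c₀ → c₀ ≤ 1 / 4 → ∀ᶠ N : ℕ in atTop,
  ∀ Mo : ℕ, 4 * Mo ≤ 5 * N → Nd α h Mo → ∀ v : ℕ,
    (∀ j, ∀ n : ℤ, n ≡ v [ZMOD (WW D)] → IsCoprime (uB α j * n + wB h Mo j) ((WW D : ℕ) : ℤ)) →
    ∀ Z : ℝ, Z = ZZ k (Pool.Agent.W25.UN.VV α h Mo D (DB (2 * N) B)) (ε / 400 * (c₀ * N)) (WW D)
        (BD (DB (2 * N) B)) (ρ * Real.log N) →
    ∑ n ∈ Ns α h D (DB (2 * N) B) Mo v N, lt (c₀ * N) (ε / 400 * (c₀ * N)) n *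
        (wZ Q (uB α) (wB h Mo) (PBF α h Mo N B ρ₁) (ρ * Real.log N) n) ^ 2 ≤ Z * Ac Q k ε

variable {k : ℕ}

variable {α h : Fin k → ℤ} {D D' N Mo v : ℕ} {P : Finset ℕ}

/-- bound (I) -/
theorem fix_IF {C1 : ℕ} (hPS : PS1At (k + 1) C1) (hTn : Tents) (hRC : RootsCount) (hSd : SdLZ)
    (hS1P : S1Parts) (hS1G : S1Gen) (H : Hyp α h D D' Mo v P) (Q : SPar) (ρ ε l c₀ : ℝ)
    (b A1 J a₁ a₂ : ℕ)
    (m3 : ℕ) (hρ : 0 < ρ) (hρ1 : ρ ≤ 1 / 16) (hε : 0 < ε) (hε1 : ε < 1 / 3) (hI2 : 0 < Q.I2)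
    (hl : l = Real.log N) (hl1 : 1 ≤ l) (hN : 16 ≤ N) (hc₀ : 1 / 8 ≤ c₀) (hc₁ : c₀ ≤ 1 / 4)
    (hb : C1 ≤ b) (hCD : C1 ≤ D) (hβ : (1 / 2 : ℝ) ^ b ≤ ε / 8)
    (hJD : D' ≤ 2 ^ 2 ^ J)
    (hJ : ((2 : ℝ) ^ 2 ^ J) ≤ l ^ a₁ ∧ ((J : ℝ) + 2) ≤ l ^ a₂)
    (hm3 : ∏ t : IP P, (1 + 3 * ((k + 1 : ℕ) : ℝ) / (prP P t : ℝ)) ≤ l ^ m3)
    (hpoly : (16 / (ε / 400)) * (Real.log N) ^ (a₂ + 2 * a₁ * (C1 * b) + 1 + 2 * m3 + A1) *
      (N : ℝ) ^ (49 / 24 * ρ) ≤ (N : ℝ) ^ (1 : ℝ))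
    (hS : Sums Q D' ε (k + 1) (ρ * l) (ρ * l / 48) P)
    (Z : ℝ) (hZ : Z = ZZ k (VV α h Mo D D') (ε / 400 * (c₀ * N)) (WW D) (BD D') (ρ * l))
    (hErr : N / l ^ A1 ≤ Z / l) (hlA : 2 / (ε * ((1 / 3 + ε) * (Q.I2 + ε) ^ k)) ≤ l) :
    ∑ n ∈ Ns α h D D' Mo v N, lt (c₀ * N) (ε / 400 * (c₀ * N)) n *
      (wZ Q (uB α) (wB h Mo) P (ρ * l) n) ^ 2 ≤ Z * Ac Q k ε := by
  have hNR : (16 : ℝ) ≤ N := by exact_mod_cast hN
  have hN0 : (0 : ℝ) < N := by linarith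
  have hl0 : 0 < l := by linarith
  have hL : 0 < ρ * l := by positivity
  have hκ : 0 < ε / 400 := by positivity
  have hκ1 : ε / 400 ≤ 1 / 64 := by linarith
  have hn0p : 0 < c₀ * N := by positivity
  have hn2 : 2 ≤ c₀ * N := by nlinarith
  have hnN : c₀ * N ≤ N / 4 := by nlinarith
  have hexp : Real.exp (4 * (ε / 400)) ≤ 2 := by
    have h2 : 4 * (ε / 400) ≤ 1 / 2 := by linarith
    calc Real.exp (4 * (ε / 400)) ≤ Real.exp (1 / 2) := Real.exp_le_exp.2 h2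
      _ ≤ 2 := by
        have := Real.exp_one_lt_d9
        have h3 : Real.exp (1 / 2) ^ 2 = Real.exp 1 := by
          rw [← Real.exp_nat_mul]; norm_num
        by_contra hc
        have h4 : (2 : ℝ) ^ 2 < Real.exp (1 / 2) ^ 2 :=
          pow_lt_pow_left₀ (not_le.1 hc) (by norm_num) (by norm_num)
        rw [h3] at h4
        norm_num at h4
        linarith
  have hexp' : 1 / 2 ≤ Real.exp (-(4 * (ε / 400))) := by
    rw [Real.exp_neg, one_div]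
    exact inv_anti₀ (Real.exp_pos _) hexp
  have hx1 : 1 ≤ c₀ * N * Real.exp (-(4 * (ε / 400))) := by
    calc (1 : ℝ) ≤ c₀ * N * (1 / 2) := by linarith
      _ ≤ _ := mul_le_mul_of_nonneg_left hexp' hn0p.le
  have hx2 : c₀ * N * Real.exp (4 * (ε / 400)) ≤ N := by
    calc c₀ * N * Real.exp (4 * (ε / 400)) ≤ c₀ * N * 2 :=
          mul_le_mul_of_nonneg_left hexp hn0p.le
      _ ≤ _ := by linarith
  have hx3 : 1 ≤ c₀ * N * Real.exp (4 * (ε / 400)) := by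
    have := Real.one_le_exp (by positivity : 0 ≤ 4 * (ε / 400))
    nlinarith
  have hBD := BD_pos D'
  have hS1 := hS1P Q k D' ε (ρ * l) P hε hL hI2 hBD H.hP hS
  have hsd := H.sd0 hSd
  have hI := est_I hPS hTn hRC hSd (fun c => (s1g_nonneg hS1G hsd c).1) H Q (ρ * l) (ε / 400)
    (Real.exp (ρ * l / 48 + ρ * l) *
      ∏ t : IP P, (1 + 3 * ((k + 1 : ℕ) : ℝ) / (prP P t : ℝ))) b J hb hCD hJD hκ hκ1
    hn0p rfl hx1 hx2 hS1.2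
  have hprod0 : 0 ≤ ∏ t : IP P, (1 + 3 * ((k + 1 : ℕ) : ℝ) / (prP P t : ℝ)) :=
    Finset.prod_nonneg fun t _ => by positivity
  have hEs := E1_small' N A1 C1 b m3 J a₁ a₂ ρ (ε / 400) l (Real.exp (ρ * l / 48 + ρ * l) *
      ∏ t : IP P, (1 + 3 * ((k + 1 : ℕ) : ℝ) / (prP P t : ℝ))) (c₀ * N) hl hl1 (by omega) hκ
    hJ.1 hJ.2 (by gcongr) (by positivity) hx3 hx2 hpoly
  have hQ1 := (s1g_nonneg hS1G hsd (cw (prP P) (yP Q k P (ρ * l)))).2.trans hS1.1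
  have hQ0 := (s1g_nonneg hS1G hsd (cw (prP P) (yP Q k P (ρ * l)))).1
  have hW : (0 : ℝ) < WW D := by exact_mod_cast H.hW
  have hV := VV_pos hRC H
  set A0c : ℝ := (1 / 3 + ε) * (Q.I2 + ε) ^ k with hA0c
  have hA0cp : 0 < A0c := by
    rw [hA0c]
    positivity
  have hmain : VV α h Mo D D' * (ε / 400 * (c₀ * N)) / WW D *
        Q1f (prP P) (cw (prP P) (yP Q k P (ρ * l))) ≤ Z * A0c := by
    have e : Z * A0c = VV α h Mo D D' * (ε / 400 * (c₀ * N)) / WW D *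
        ((BD D' * (ρ * l / 48) * (1 / 3 + ε)) *
          (BD D' * (ρ * l) * (Q.I2 + ε)) ^ k) := by
      rw [hZ, hA0c]
      unfold ZZ
      rw [mul_pow (BD D' * (ρ * l)) (Q.I2 + ε) k]
      ring
    rw [e]
    apply mul_le_mul_of_nonneg_left hQ1
    positivity
  have hZ0 : 0 < Z := by
    rw [hZ]
    unfold ZZ
    positivity
  have hZA : 0 < Z * A0c := by positivity
  have hβ0 : 0 ≤ (1 / 2 : ℝ) ^ b := by positivity
  have hcoef : (1 + (1 / 2 : ℝ) ^ b) * (1 + 25 * (ε / 400)) ≤ 1 + ε / 2 := by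
    nlinarith [mul_nonneg hβ0 hε.le]
  have herr : (N : ℝ) / l ^ A1 ≤ ε / 2 * (Z * A0c) := by
    refine hErr.trans ?_
    rw [div_le_iff₀ hl0]
    rw [div_le_iff₀ (by positivity)] at hlA
    have h1 : Z * 2 ≤ Z * (l * (ε * A0c)) := mul_le_mul_of_nonneg_left hlA hZ0.le
    linarith
  have hM0 : 0 ≤ VV α h Mo D D' * (ε / 400 * (c₀ * N)) / WW D *
        Q1f (prP P) (cw (prP P) (yP Q k P (ρ * l))) := by positivity
  calc _ ≤ (1 + (1 / 2 : ℝ) ^ b) * (1 + 25 * (ε / 400)) * (VV α h Mo D D' *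
        (ε / 400 * (c₀ * N)) / WW D * Q1f (prP P) (cw (prP P) (yP Q k P (ρ * l)))) +
        N / l ^ A1 := by linarith
    _ ≤ (1 + ε / 2) * (Z * A0c) + ε / 2 * (Z * A0c) := by
        have h1 : (1 + (1 / 2 : ℝ) ^ b) * (1 + 25 * (ε / 400)) * (VV α h Mo D D' *
            (ε / 400 * (c₀ * N)) / WW D * Q1f (prP P) (cw (prP P) (yP Q k P (ρ * l)))) ≤
            (1 + ε / 2) * (Z * A0c) := mul_le_mul hcoef hmain hM0 (by linarith)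
        linarith
    _ = Z * Ac Q k ε := by
        unfold Ac
        rw [hA0c]
        ring

theorem PBF_spec (α h : Fin k → ℤ) (Mo N B : ℕ) (ρ₁ : ℝ) (hρ₁ : ρ₁ ≤ 1 / 4) (hN : 1 ≤ N) :
    ∀ p ∈ PBF α h Mo N B ρ₁, p.Prime ∧ DB (2 * N) B < p ∧ p ∉ CL (uB α) (wB h Mo) ∧
      (p : ℝ) ≤ Real.exp (ρ₁ * Real.log N) ∧ (p : ℝ) ≤ N := by
  intro p hp
  unfold PBF at hp
  rw [Finset.mem_filter, Finset.mem_Icc] at hp
  have h1 : (p : ℝ) ≤ Real.exp (ρ₁ * Real.log N) :=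
    (Nat.cast_le.2 hp.1.2).trans (Nat.floor_le (Real.exp_pos _).le)
  refine ⟨hp.2.1, by omega, hp.2.2, h1, h1.trans ?_⟩
  have hN0 : (0 : ℝ) < N := by exact_mod_cast hN
  have h0 := Real.log_nonneg (by exact_mod_cast hN : (1 : ℝ) ≤ N)
  have h2 : ρ₁ * Real.log N ≤ Real.log N := by nlinarith
  calc Real.exp (ρ₁ * Real.log N) ≤ Real.exp (Real.log N) := Real.exp_le_exp.2 h2
    _ = N := Real.exp_log hN0

theorem twaF (hPS1 : PS1) (hTn : Tents) (hRC : RootsCount) (hSd : SdLZ)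
    (hS1P : S1Parts) (hWF : WFacts) (hVL : VLow) (hS1G : S1Gen) (hSUM : St_SUM) : St_TWaF := by
  classical
  intro k Q ρ ρ₁ ε B hk hρ hρ1 hρρ hρ₁ hε hε1 hI1 hI2 hB
  have hρlt : ρ < ρ₁ := by linarith
  obtain ⟨C1, hC1, hPS1⟩ := ps1At_of hPS1 (k + 1)
  obtain ⟨DW, hWF⟩ := hWF
  obtain ⟨b0, hb0⟩ := exists_pow_lt_of_lt_one (by positivity : 0 < ε / 8)
    (by norm_num : (1 / 2 : ℝ) < 1)
  obtain ⟨b, hb1, hβ⟩ : ∃ b : ℕ, C1 ≤ b ∧ (1 / 2 : ℝ) ^ b ≤ ε / 8 :=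
    ⟨b0 + C1, by omega, by
      refine le_trans ?_ hb0.le
      exact pow_le_pow_of_le_one (by norm_num) (by norm_num) (by omega)⟩
  obtain ⟨m3, hm3⟩ := prods_le (3 * ((k + 1 : ℕ) : ℝ)) (by positivity)
  have hI2p : 0 < Q.I2 := hε.trans hI2
  refine ⟨DW + C1 + 2 * (k + 1) + 1, fun D hD α h hα hαD c₀ hc₀ hc₁ => ?_⟩
  obtain ⟨C', hCC⟩ := clF k α h
  obtain ⟨hW, htot, hBDp, hdvd, -⟩ := hWF D (by omega)
  have hWR : (0 : ℝ) < WW D := by exact_mod_cast hW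
  have hc₀p : 0 < c₀ := by linarith
  filter_upwards [hCC, hSUM Q (k + 1) ε ρ ρ₁ C' B hε hρ hρlt hB,
    ev_DB B (by omega) (D + 1), Jb_up B (by omega), DB_up B, hm3,
    ev_poly (16 / (ε / 400)) ((2 * B + 2) + 2 * (2 * B + 1) * (C1 * b) + 1 + 2 * m3 +
      ((3 * B + 2) * (k + 1) + 2)) (49 / 24 * ρ) 1 (by linarith),
    ev_log 1, ev_log (2 ^ B), ev_log (48 * WW D / (ε / 400 * c₀ * ρ ^ (k + 1))),
    ev_log (2 / (ε * ((1 / 3 + ε) * (Q.I2 + ε) ^ k))), eventually_ge_atTop 16]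
    with N hCC hsums hDp hJ hDup hm3 hpoly hl1 hl2 hl3 hl4 hN16 Mo hMo hnd v hv Z hZ
  replace hCC := hCC Mo hMo hnd
  have hN1 : 1 ≤ N := by omega
  have hNR : (16 : ℝ) ≤ N := by exact_mod_cast hN16
  have hl0 : 0 < Real.log N := by linarith
  have hPs := PBF_spec α h Mo N B ρ₁ hρ₁ hN1
  have hPle : ∀ p ∈ PBF α h Mo N B ρ₁, p.Prime ∧ (p : ℝ) ≤ N :=
    fun p hp => ⟨(hPs p hp).1, (hPs p hp).2.2.2.2⟩
  have hPD : ∀ p ∈ PBF α h Mo N B ρ₁, p.Prime ∧ DB (2 * N) B < p :=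
    fun p hp => ⟨(hPs p hp).1, (hPs p hp).2.1⟩
  have H : Hyp α h D (DB (2 * N) B) Mo v (PBF α h Mo N B ρ₁) := {
    hα := hα
    hW := hW
    tot := htot
    BDpos := hBDp
    hdvd := hdvd
    hDk := by omega
    hDα := hαD
    hDD := by omega
    hP := hPD
    hres := fun p hp j l hjl => CL_ndvd hnd (hPs p hp).1 (hPs p hp).2.2.1 j l hjl
    hv := hv }
  have hS1 := ((hsums (CL (uB α) (wB h Mo)) (PBF α h Mo N B ρ₁) hCC hPD).1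
    (fun p hp hDp' hple hpC => by
      unfold PBF
      rw [Finset.mem_filter, Finset.mem_Icc]
      exact ⟨⟨hDp', Nat.le_floor hple⟩, hp, hpC⟩)).2
  have hDp1 : 1 ≤ DB (2 * N) B := by omega
  have hVlow := hVL (k + 1) (DB (2 * N) B) (QQ D (DB (2 * N) B))
    (fun p => (Om (uB α) (wB h Mo) p).card) hDp1 (fun p hp => by
      have h1 := QQ_prime hp
      exact ⟨h1.1, by omega, h1.2.2,
        (hRC k (uB α) (wB h Mo) p h1.1 (fun j => H.uB_ndvd h1.1 h1.2.1 j)).2.1⟩)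
  have hDl : (DB (2 * N) B : ℝ) ≤ (Real.log N) ^ (B + 1) := by
    refine hDup.trans ?_
    rw [pow_succ, mul_comm]
    exact mul_le_mul_of_nonneg_left hl2 (by positivity)
  have hZlow : N / (Real.log N) ^ ((3 * B + 2) * (k + 1) + 1) ≤ Z := by
    rw [hZ]
    apply ZZ_low' k B (VV α h Mo D (DB (2 * N) B)) (ε / 400 * (c₀ * N)) (WW D)
      (BD (DB (2 * N) B)) (ρ * Real.log N) (ε / 400 * c₀) (Real.log N) N (DB (2 * N) B) ρ hl1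
      hWR hρ rfl
    · exact_mod_cast hDp1
    · exact hDl
    · exact hVlow.1
    · exact hVlow.2
    · ring
    · positivity
    · positivity
    · exact hl3
  have hErr : N / (Real.log N) ^ ((3 * B + 2) * (k + 1) + 2) ≤ Z / Real.log N := by
    have e1 : (N : ℝ) / (Real.log N) ^ ((3 * B + 2) * (k + 1) + 2) =
        N / (Real.log N) ^ ((3 * B + 2) * (k + 1) + 1) / Real.log N := by
      rw [div_div, ← pow_succ]
    rw [e1]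
    exact div_le_div_of_nonneg_right hZlow (by linarith)
  exact fix_IF hPS1 hTn hRC hSd hS1P hS1G H Q ρ ε (Real.log N) c₀ b
    ((3 * B + 2) * (k + 1) + 2) (Jb N B) (2 * B + 1) (2 * B + 2) m3 hρ hρ1 hε hε1 hI2p rfl hl1
    hN16 hc₀ hc₁ hb1 (by omega) hβ (Jb_le N B) hJ (hm3 (PBF α h Mo N B ρ₁) hPle) hpoly hS1 Z hZ
    hErr hl4

end Pool.Agent.TH899.UG
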