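import Mathlib
import Pool.Agent.TH899.UG.Stm
import Pool.Agent.TH899.UG.Vln
import Pool.Agent.TH899.UG.Geo
import Pool.Agent.TH899.UG.Pt
import Pool.Agent.TH899.UG.AsmB
import Pool.Agent.TH899.UG.TWa
import Pool.Agent.W460.UB.TWb

/-! The prime sums for general linear forms, with the new parameters. -/

set_option autoImplicit false

namespace Pool.Agent.TH899.UG

open Finset Filter Topology
open Pool.Agent.H410R2 hiding GP GP_prof GP_cut_some GP_cut_none GP_lip gg_pos gg_le_one gg_anti ee_bound ee_nonneg gg_lip LB_gg LB_ee Sums exists_sums yx wx wxi Br sum_GP_none sum_GP_some sum_GP_some_ee sum_GP_some_one sum_GPr_none sum_GPr_some S1_final QI_final S2_final w_abs_le wmax gg ee I1 I2 IE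
open Pool.Agent.H361R2.GM
open Pool.Agent.H362R2.CM
open Pool.Agent.W25.UN
open Pool.Agent.W25.UB (DB)
open Pool.Agent.W460.UBT (Jb Jb_le Jb_up ev_DB DB_up ZZ_lowB E2_leB)

/-- the forms are large on the range of `n`, real argument -/
def PosR {k : ℕ} (α h : Fin k → ℤ) (Mo N : ℕ) : Prop :=
  ∀ (i : Fin k) (x : ℝ), (N : ℝ) / 16 ≤ x → x ≤ N / 2 → (N : ℝ) / 32 ≤ (Mo : ℝ) + α i * x + h i

theorem PosR.posF {k : ℕ} {α h : Fin k → ℤ} {Mo N : ℕ} (H : PosR α h Mo N) : PosF α h Mo N := by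
  intro i n h1 h2
  have h3 := H i n h1 h2
  unfold Fm
  push_cast
  exact h3

/-- (TWb) prime sums for narrow tents with centres between `N / 8` and `N / 4` -/
def St_TWbF : Prop := ∀ (k : ℕ) (Q : SPar) (ρ ρ₁ ε : ℝ) (B : ℕ), 2 ≤ k → 0 < ρ → ρ ≤ 1 / 16 →
  49 / 48 * ρ < ρ₁ → ρ₁ ≤ 1 / 4 → 0 < ε → ε < 1 / 3 → ε < Q.I1 → ε < Q.I2 → 0 < Br Q k ε → 3 ≤ B →
  ∃ D₀ : ℕ, ∀ D : ℕ, D₀ ≤ D → ∀ (α h : Fin k → ℤ), (∀ i, α i ≠ 0) →
  (∀ i, (α i).natAbs ≤ D) → ∀ c₀ : ℝ, 1 / 8 ≤ c₀ → c₀ ≤ 1 / 4 → ∀ᶠ N : ℕ in atTop,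
  ∀ Mo : ℕ, 4 * Mo ≤ 5 * N → Nd α h Mo → PosR α h Mo N → ∀ v : ℕ,
    (∀ j, ∀ n : ℤ, n ≡ v [ZMOD (WW D)] → IsCoprime (uB α j * n + wB h Mo j) ((WW D : ℕ) : ℤ)) →
    ∀ Z : ℝ, Z = ZZ k (Pool.Agent.W25.UN.VV α h Mo D (DB (2 * N) B)) (ε / 400 * (c₀ * N)) (WW D)
        (BD (DB (2 * N) B)) (ρ * Real.log N) →
    ∀ i : Fin k, Z * (ρ * βc Q k ε) ≤ ∑ n ∈ Ns α h D (DB (2 * N) B) Mo v N,
      (if (Fm α h Mo i n).toNat.Prime then lt (c₀ * N) (ε / 400 * (c₀ * N)) n *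
        (wZ Q (uB α) (wB h Mo) (PBF α h Mo N B ρ₁) (ρ * Real.log N) n) ^ 2 else 0)

variable {k : ℕ}

/-! ### centres -/

/-- centres -/
noncomputable def xcF (α h : Fin k → ℤ) (Mo : ℕ) (c₀ : ℝ) (N : ℕ) (i : Fin k) : ℝ :=
  (Mo + α i * (c₀ * N) + h i) / aI α i

/-- the bundle of sizes -/
structure SzF (n x κ a Ca : ℝ) (N : ℕ) : Prop where
  hx : 0 < x
  hκ : 0 < κ * n / x
  hκlo : κ / 16 ≤ κ * n / x
  hκhi : κ * n / x ≤ 2 * κ
  hx1 : 1 ≤ x * Real.exp (-(4 * (κ * n / x)))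
  hx2 : x * Real.exp (4 * (κ * n / x)) ≤ ⌈3 * x⌉₊
  big : (N : ℝ) / 32 ≤ a * (x - κ * n)
  up : a * (x + κ * n) ≤ Ca * N
  hXi : x + κ * n ≤ ⌈3 * x⌉₊
  lo : (N : ℝ) / 16 ≤ x
  hi : x ≤ 2 * N
  one : 1 ≤ x + κ * n

theorem szF_aux (n x κ a Ca : ℝ) (N : ℕ) (hN : 64 ≤ N) (hκ : 0 < κ) (hκ1 : κ ≤ 1 / 64)
    (hn1 : (N : ℝ) / 8 ≤ n) (hn2 : n ≤ N / 4) (hxn : n / 2 ≤ x) (hx1 : (N : ℝ) / 16 ≤ x)
    (hx2 : x ≤ 2 * N) (hbig : (N : ℝ) / 32 ≤ a * (x - κ * n))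
    (hup : a * (x + κ * n) ≤ Ca * N) :
    SzF n x κ a Ca N := by
  have hN0 : (64 : ℝ) ≤ N := by exact_mod_cast hN
  have hn0 : 0 < n := by linarith
  have hx0 : 0 < x := by linarith
  have hx4 : 4 ≤ x := by linarith
  have hnx : n ≤ 2 * x := by linarith
  have hκi : κ * n / x ≤ 2 * κ := by
    rw [div_le_iff₀ hx0]
    have := mul_le_mul_of_nonneg_left hnx hκ.le
    calc κ * n ≤ κ * (2 * x) := this
      _ = _ := by ring
  have hκi0 : 0 < κ * n / x := by positivity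
  have hκn : κ * n ≤ 1 / 64 * n := mul_le_mul_of_nonneg_right hκ1 hn0.le
  have hκn0 : 0 < κ * n := by positivity
  have hexp : Real.exp (4 * (κ * n / x)) ≤ 2 := by
    have h2 : 4 * (κ * n / x) ≤ 1 / 2 := by linarith
    calc Real.exp (4 * (κ * n / x)) ≤ Real.exp (1 / 2) := Real.exp_le_exp.2 h2
      _ ≤ 2 := by
        have := Real.exp_one_lt_d9
        have h3 : Real.exp (1 / 2) ^ 2 = Real.exp 1 := by
          rw [← Real.exp_nat_mul]; norm_num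
        by_contra hc
        have h4 : (2 : ℝ) ^ 2 < Real.exp (1 / 2) ^ 2 :=
          pow_lt_pow_left₀ (not_le.1 hc) (by norm_num) (by norm_num)
        rw [h3] at h4
        norm_num at h4
        linarith
  have hexp' : 1 / 2 ≤ Real.exp (-(4 * (κ * n / x))) := by
    rw [Real.exp_neg, one_div]
    exact inv_anti₀ (Real.exp_pos _) hexp
  have hc : 3 * x ≤ (⌈3 * x⌉₊ : ℝ) := Nat.le_ceil _
  refine ⟨hx0, hκi0, ?_, hκi, ?_, ?_, hbig, hup, ?_, hx1, hx2, ?_⟩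
  · rw [div_le_div_iff₀ (by norm_num) hx0]
    have h2 : x ≤ n * 16 := by linarith
    calc κ * x ≤ κ * (n * 16) := mul_le_mul_of_nonneg_left h2 hκ.le
      _ = _ := by ring
  · calc (1 : ℝ) ≤ x * (1 / 2) := by linarith
      _ ≤ _ := mul_le_mul_of_nonneg_left hexp' hx0.le
  · calc x * Real.exp (4 * (κ * n / x)) ≤ x * 2 := mul_le_mul_of_nonneg_left hexp hx0.le
      _ ≤ _ := by linarith
  · linarith
  · linarith

theorem szF (α h : Fin k → ℤ) (hα : ∀ i, α i ≠ 0) (D : ℕ) (hαD : ∀ i, (α i).natAbs ≤ D)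
    (c₀ : ℝ) (hc1 : 1 / 8 ≤ c₀)
    (hc2 : c₀ ≤ 1 / 4) (κ : ℝ) (hκ : 0 < κ) (hκ1 : κ ≤ 1 / 64) :
    ∀ᶠ N : ℕ in atTop, ∀ Mo : ℕ, 4 * Mo ≤ 5 * N → PosR α h Mo N → ∀ i,
      SzF (c₀ * N) (xcF α h Mo c₀ N i) κ (aI α i) (D + 2) N := by
  have h1 : ∀ᶠ N : ℕ in atTop, ∀ i, 16 * |(h i : ℝ)| ≤ (N : ℝ) := by
    rw [Filter.eventually_all]
    intro i
    exact tendsto_natCast_atTop_atTop.eventually_ge_atTop _
  filter_upwards [h1, eventually_ge_atTop 64] with N hh hN Mo hMo hpos i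
  have hN0 : (64 : ℝ) ≤ N := by exact_mod_cast hN
  have hMo0 : (0 : ℝ) ≤ Mo := Nat.cast_nonneg _
  have hMo1 : 4 * (Mo : ℝ) ≤ 5 * N := by exact_mod_cast hMo
  have h2 : c₀ * N ≤ 1 / 4 * N := mul_le_mul_of_nonneg_right hc2 (by linarith)
  have h3 : 1 / 8 * N ≤ c₀ * N := mul_le_mul_of_nonneg_right hc1 (by linarith)
  set n : ℝ := c₀ * N with hn
  have hn0 : 0 < n := by linarith
  have hhi := hh i
  have h4 := abs_le.1 (le_refl |(h i : ℝ)|)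
  have ha1 : 1 ≤ aI α i := aI_pos α hα i
  have ha1' : (1 : ℝ) ≤ aI α i := by exact_mod_cast ha1
  have haD : (aI α i : ℝ) ≤ D := by
    have : aI α i ≤ D := hαD i
    exact_mod_cast this
  set a : ℝ := (aI α i : ℝ) with ha
  have ha0 : 0 < a := by linarith
  have habs : |(α i : ℝ)| = a := by
    have := aI_abs α i
    rw [ha, ← Int.cast_abs, ← this, Int.cast_natCast]
  have hκn : κ * n ≤ 1 / 64 * n := mul_le_mul_of_nonneg_right hκ1 hn0.le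
  have hκn0 : 0 < κ * n := by positivity
  have hx : a * xcF α h Mo c₀ N i = Mo + α i * n + h i := by
    unfold xcF
    rw [← ha, ← hn]
    exact mul_div_cancel₀ _ ha0.ne'
  set x : ℝ := xcF α h Mo c₀ N i with hxd
  have han : n ≤ a * n := le_mul_of_one_le_left hn0.le ha1'
  have haN : a * n ≤ D * n := mul_le_mul_of_nonneg_right haD hn0.le
  have hDn : (D : ℝ) * n ≤ D * (1 / 4 * N) := mul_le_mul_of_nonneg_left h2 (Nat.cast_nonneg _)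
  have hakn : a * (κ * n) ≤ 1 / 64 * (a * n) := by
    calc a * (κ * n) ≤ a * (1 / 64 * n) := mul_le_mul_of_nonneg_left hκn ha0.le
      _ = _ := by ring
  have haN' : (N : ℝ) ≤ a * N := le_mul_of_one_le_left (by linarith) ha1'
  have key : n / 2 ≤ x ∧ (N : ℝ) / 16 ≤ x ∧ (N : ℝ) / 32 ≤ a * (x - κ * n) ∧
      Mo + α i * n + h i ≤ 5 / 4 * N + a * n + N / 16 := by
    rcases lt_or_gt_of_ne (hα i) with hneg | hposα
    · have hαe : (α i : ℝ) = -a := by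
        rw [← habs, abs_of_neg (by exact_mod_cast hneg)]
        ring
      have hp1 := hpos i (N / 2) (by linarith) le_rfl
      have hp2 := hpos i (n + κ * n) (by linarith) (by linarith)
      rw [hαe] at hp1 hp2 hx ⊢
      have e1 : a * (N / 4) ≤ a * x := by
        have e3 : a * n ≤ a * (1 / 4 * N) := mul_le_mul_of_nonneg_left h2 ha0.le
        rw [hx]
        linarith
      have e2 : (N : ℝ) / 4 ≤ x := le_of_mul_le_mul_left e1 ha0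
      refine ⟨by linarith, by linarith, ?_, ?_⟩
      · rw [mul_sub, hx]
        linarith
      · linarith
    · have hαe : (α i : ℝ) = a := by
        rw [← habs, abs_of_pos (by exact_mod_cast hposα)]
      have hp2 := hpos i (n - κ * n) (by linarith) (by linarith)
      rw [hαe] at hp2 hx ⊢
      have e1 : a * (n / 2) ≤ a * x := by
        rw [hx]
        linarith
      have e2 : n / 2 ≤ x := le_of_mul_le_mul_left e1 ha0
      refine ⟨e2, by linarith, ?_, ?_⟩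
      · rw [mul_sub, hx]
        linarith
      · linarith
  obtain ⟨k1, k2, k3, k4⟩ := key
  have hxup : a * x ≤ a * (2 * N) := by
    rw [hx]
    have e3 : a * n ≤ a * (1 / 4 * N) := mul_le_mul_of_nonneg_left h2 ha0.le
    linarith
  have hxup' : x ≤ 2 * N := le_of_mul_le_mul_left hxup ha0
  refine szF_aux n x κ a (D + 2) N hN hκ hκ1 (by linarith) (by linarith) k1 k2 hxup' k3 ?_
  rw [mul_add, hx]
  have hDN : (0 : ℝ) ≤ D * N := by positivity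
  linarith

theorem geoF_ev (α h : Fin k → ℤ) (hα : ∀ i, α i ≠ 0) (D : ℕ) (hαD : ∀ i, (α i).natAbs ≤ D)
    (c₀ : ℝ) (hc1 : 1 / 8 ≤ c₀)
    (hc2 : c₀ ≤ 1 / 4) (κ : ℝ) (hκ : 0 < κ) (hκ1 : κ ≤ 1 / 64) (B : ℕ) (ρ₁ : ℝ)
    (hρ₁ : ρ₁ ≤ 1 / 4) (hW : 1 ≤ WW D) :
    ∀ᶠ N : ℕ in atTop, ∀ Mo : ℕ, 4 * Mo ≤ 5 * N → PosR α h Mo N → ∀ v : ℕ,
      GeoF α h D (DB (2 * N) B) Mo v (PBF α h Mo N B ρ₁) (c₀ * N)
      (κ * (c₀ * N)) N (xcF α h Mo c₀ N) (fun i => ⌈3 * xcF α h Mo c₀ N i⌉₊) (vf α h D Mo v) := by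
  have h2 : ∀ᶠ N : ℕ in atTop, ((D : ℝ) + 2) * (Real.log N) ^ (B + 1) * (N : ℝ) ^ (0 : ℝ) ≤
      (N : ℝ) ^ (1 / 2 : ℝ) := ev_poly _ (B + 1) 0 (1 / 2) (by norm_num)
  have h3 : ∀ᶠ N : ℕ in atTop, (64 : ℝ) * (Real.log N) ^ 0 * (N : ℝ) ^ (1 / 2 : ℝ) ≤
      (N : ℝ) ^ (1 : ℝ) := ev_poly _ 0 (1 / 2) 1 (by norm_num)
  filter_upwards [szF α h hα D hαD c₀ hc1 hc2 κ hκ hκ1, h2, h3, ev_log 1, eventually_ge_atTop 8,
    DB_up B] with N hsz h2 h3 hl hN hDB Mo hMo hpos v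
  replace hsz := hsz Mo hMo hpos
  have hN8 : (8 : ℝ) ≤ N := by exact_mod_cast hN
  have hN0 : (0 : ℝ) < N := by linarith
  rw [Real.rpow_zero, mul_one] at h2
  rw [pow_zero, mul_one, Real.rpow_one] at h3
  have hc0 : 0 < c₀ := by linarith
  have hn0 : 0 < c₀ * N := by positivity
  have hnN : c₀ * N ≤ 1 / 4 * N := mul_le_mul_of_nonneg_right hc2 (by linarith)
  have hl3 : 1 ≤ (Real.log N) ^ (B + 1) := one_le_pow₀ hl
  have hκn : κ * (c₀ * N) ≤ 1 / 64 * (c₀ * N) := mul_le_mul_of_nonneg_right hκ1 hn0.le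
  constructor
  · positivity
  · linarith
  · linarith
  · intro i
    have ha : (0 : ℝ) < aI α i := by exact_mod_cast aI_pos α hα i
    unfold xcF
    field_simp
  · intro i
    exact (hsz i).hXi
  · intro i
    have h4 := (hsz i).big
    have haD : (aI α i : ℝ) ≤ D := by
      have : aI α i ≤ D := hαD i
      exact_mod_cast this
    have hD0 : (0 : ℝ) ≤ D := Nat.cast_nonneg _
    have h6 : (DB (2 * N) B : ℝ) + aI α i + 1 ≤ ((D : ℝ) + 2) * (Real.log N) ^ (B + 1) := by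
      have h8 : (D : ℝ) * 1 ≤ D * (Real.log N) ^ (B + 1) := mul_le_mul_of_nonneg_left hl3 hD0
      linarith
    have h7 : (0 : ℝ) < (N : ℝ) ^ (1 / 2 : ℝ) := by positivity
    linarith
  · intro i p hp
    have h4 := (hsz i).big
    have h5 := (PBF_spec α h Mo N B ρ₁ hρ₁ (by omega) p hp).2.2.2.1
    have h6 : Real.exp (ρ₁ * Real.log N) ≤ (N : ℝ) ^ (1 / 2 : ℝ) := by
      rw [Real.rpow_def_of_pos hN0]
      apply Real.exp_le_exp.2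
      have h8 : ρ₁ * Real.log N ≤ 1 / 4 * Real.log N :=
        mul_le_mul_of_nonneg_right hρ₁ (by linarith)
      linarith
    have h7 : (0 : ℝ) < (N : ℝ) ^ (1 / 2 : ℝ) := by positivity
    linarith
  · intro i y
    exact vf_spec α h hα D Mo v hW i y

/-- eventual form of the prime number theorem for all forms -/
theorem pn_evF (hPN : PntT) (α h : Fin k → ℤ) (hα : ∀ i, α i ≠ 0) (c₀ : ℝ)
    (ε κ1 : ℝ) (hε : 0 < ε) (hκ1 : 0 < κ1) :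
    ∀ᶠ N : ℕ in atTop, ∀ (Mo : ℕ) (i : Fin k), (N : ℝ) / 16 ≤ xcF α h Mo c₀ N i →
      ∀ κ' : ℝ, κ1 ≤ κ' → κ' ≤ 1 →
      |Mt (aI α i) (xcF α h Mo c₀ N i) κ' - ts (xcF α h Mo c₀ N i) κ'| ≤
        ε * (κ' * xcF α h Mo c₀ N i) := by
  have h0 : ∀ᶠ N : ℕ in atTop, ∀ (i : Fin k) (Mo : ℕ), (N : ℝ) / 16 ≤ xcF α h Mo c₀ N i →
      ∀ κ' : ℝ, κ1 ≤ κ' → κ' ≤ 1 →
      |Mt (aI α i) (xcF α h Mo c₀ N i) κ' - ts (xcF α h Mo c₀ N i) κ'| ≤
        ε * (κ' * xcF α h Mo c₀ N i) := by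
    rw [Filter.eventually_all]
    intro i
    have ha : 1 ≤ aI α i := aI_pos α hα i
    obtain ⟨X1, hX1⟩ := Filter.eventually_atTop.1 (hPN (aI α i) ε κ1 ha hε hκ1)
    have h2 : ∀ᶠ N : ℕ in atTop, 16 * X1 ≤ (N : ℝ) :=
      tendsto_natCast_atTop_atTop.eventually_ge_atTop _
    filter_upwards [h2] with N h3 Mo h4
    apply hX1
    refine le_trans ?_ h4
    linarith
  filter_upwards [h0] with N h1 Mo i
  exact h1 i Mo

/-- eventual form of the error bound for all forms -/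
theorem er_evF (hER : ErrU) (hEq : Eq2) (α h : Fin k → ℤ) (hα : ∀ i, α i ≠ 0)
    (c₀ : ℝ) (B : ℕ) (hB : 3 ≤ B) (D : ℕ) (hαD : ∀ i, (α i).natAbs ≤ D)
    (hdvd : ∀ p : ℕ, p.Prime → (p ∣ WW D ↔ p ≤ D))
    (hW : 1 ≤ WW D) (ρ κ1 : ℝ) (A1 C2 b : ℕ)
    (hρ : 0 < ρ) (hρ1 : ρ ≤ 1 / 16) (hκ1 : 0 < κ1) :
    ∀ᶠ N : ℕ in atTop, ∀ (Mo : ℕ) (i : Fin k), (N : ℝ) / 16 ≤ xcF α h Mo c₀ N i →
      xcF α h Mo c₀ N i ≤ 2 * N → ∀ (P : Finset ℕ), (∀ p ∈ P, p.Prime ∧ (p : ℝ) ≤ N) →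
      ∀ κ' : ℝ, κ1 ≤ κ' → κ' ≤ 1 →
      E2 k P (aI α i) (bI α h Mo i) (WW D) 1 ((1 / 4 - ρ / 2) * Real.log N)
        (xcF α h Mo c₀ N i) κ' C2 b (Jb (DB (2 * N) B)) ≤ N / (Real.log N) ^ A1 := by
  set s : ℕ := 2 * (B + 1) + 2 with hs
  set q : ℕ := (2 * (B + 1) + 1) * (C2 * b) + s with hq
  have hERi : ∀ᶠ N : ℕ in atTop, ∀ i : Fin k, ∀ (P : Finset ℕ),
      (∀ p ∈ P, p.Prime ∧ (p : ℝ) ≤ N) → ∀ (b' : ℕ) (x κ' Y : ℝ), b' ≤ aI α i →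
      1 / 16 * N ≤ x → x ≤ 2 * N → κ1 ≤ κ' → κ' ≤ 1 → 0 ≤ Y →
      Y ≤ (Real.log N) ^ q →
      (Real.log N) ^ q *
      ((∏ t : IP P, (1 + ((k + 1 : ℕ) : ℝ) / ((prP P t : ℝ) - 1)) *
        ((prP P t : ℝ) / ((prP P t : ℝ) - 1))) ^ 2 *
      ∑ m ∈ (Icc 1 ⌊Y * (Real.exp ((1 / 4 - ρ / 2) * Real.log N)) ^ 2⌋₊).filter Squarefree,
        (3 * ((k + 1 : ℕ) : ℝ)) ^ m.primeFactors.card * Dev (aI α i) b' x κ' (WW D * m)) ≤
      N / (Real.log N) ^ A1 := by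
    rw [Filter.eventually_all]
    intro i
    have ha : 1 ≤ aI α i := aI_pos α hα i
    exact hER k (aI α i) (WW D) ρ κ1 (1 / 16) 2 A1 _ ha hW hρ hρ1 hκ1 (by norm_num)
  filter_upwards [hERi, DB_up B, ev_DB B hB 5, ev_log 4,
    eventually_ge_atTop 64]
    with N her hDBu hDB5 hl4 hN Mo i hlo hhi P hP κ' hκ' hκ'1
  have hl : 1 ≤ Real.log N := by linarith
  have hJ := Jb_up (DB (2 * N) B) (B + 1) (Real.log N) hDB5 hl4 hDBu
  obtain ⟨hb1, hb2, -⟩ := bI_spec α h hα Mo i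
  have hN8 : (64 : ℝ) ≤ N := by exact_mod_cast hN
  have hY : ((2 : ℝ) ^ 2 ^ Jb (DB (2 * N) B)) ^ (C2 * b) ≤ (Real.log N) ^ q := by
    calc ((2 : ℝ) ^ 2 ^ Jb (DB (2 * N) B)) ^ (C2 * b) ≤
          ((Real.log N) ^ (2 * (B + 1) + 1)) ^ (C2 * b) :=
          pow_le_pow_left₀ (by positivity) hJ.1 _
      _ = (Real.log N) ^ ((2 * (B + 1) + 1) * (C2 * b)) := by rw [← pow_mul]
      _ ≤ _ := pow_le_pow_right₀ hl (by omega)
  have h1 := her i P hP (bI α h Mo i) (xcF α h Mo c₀ N i) κ'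
    (((2 : ℝ) ^ 2 ^ Jb (DB (2 * N) B)) ^ (C2 * b))
    hb2 (by linarith) hhi hκ' hκ'1 (by positivity) hY
  refine E2_leB hEq P (aI α i) (bI α h Mo i) D (aI_pos α hα i) hb1 hW ?_
    ((1 / 4 - ρ / 2) * Real.log N) (xcF α h Mo c₀ N i) κ'
    (Real.log N) (N / (Real.log N) ^ A1) C2 b (Jb (DB (2 * N) B)) s hl
    (by linarith) hκ'1 (by linarith) q hJ.2 (by omega) h1
  intro p hp hd
  rw [hdvd p hp]
  have h5 := Nat.le_of_dvd (aI_pos α hα i) hd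
  have h6 : aI α i ≤ D := hαD i
  omega

/-- in the support of the tent all forms are nonzero -/
theorem Fm_neF {α h : Fin k → ℤ} (hα : ∀ i, α i ≠ 0) {D D' N Mo v : ℕ} {P : Finset ℕ}
    {n0 Δ : ℝ} {x0 : Fin k → ℝ} {Xi vi : Fin k → ℕ} (G : GeoF α h D D' Mo v P n0 Δ N x0 Xi vi)
    (n : ℕ) (hn : |(n : ℝ) - n0| < Δ) :
    1 ≤ n ∧ n ≤ N ∧ ∀ i, (Mo : ℤ) + α i * n + h i ≠ 0 := by
  have h1 := abs_lt.1 hn
  have h2 := G.g1
  have h3 := G.nX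
  refine ⟨?_, ?_, ?_⟩
  · have : (0 : ℝ) < n := by linarith
    have : 0 < n := by exact_mod_cast this
    omega
  · have : (n : ℝ) ≤ N := by linarith
    exact_mod_cast this
  · intro j hj
    have ha : (0 : ℝ) < aI α j := by exact_mod_cast aI_pos α hα j
    have hFr : (((Mo : ℤ) + α j * n + h j : ℤ) : ℝ) =
        aI α j * x0 j + α j * (n - n0) := by
      rw [G.hx0 j]
      push_cast
      ring
    have habs : |(α j : ℝ)| = aI α j := by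
      have := aI_abs α j
      rw [← Int.cast_abs, ← this, Int.cast_natCast]
    have h5 : -(aI α j * Δ) < α j * ((n : ℝ) - n0) := by
      have h3 : |α j * ((n : ℝ) - n0)| < aI α j * Δ := by
        rw [abs_mul, habs]
        exact mul_lt_mul_of_pos_left hn ha
      exact (abs_lt.1 h3).1
    rw [hj] at hFr
    have h6 := G.big1 j
    have h7 : (0 : ℝ) ≤ D' := Nat.cast_nonneg _
    push_cast at hFr
    linarith

theorem bad_smallF (N A1 : ℕ) (l y Ca : ℝ) (hl : l = Real.log N) (hl2 : 2 ≤ l) (hN : 8 ≤ N)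
    (hCa : 1 ≤ Ca) (hy1 : 1 ≤ y) (hy : y ≤ Ca * N)
    (hpoly : 8 * Ca ^ 2 * (Real.log N) ^ (A1 + 1) * (N : ℝ) ^ (6 / 10 : ℝ) ≤ (N : ℝ) ^ (1 : ℝ)) :
    (N : ℝ) ^ (1 / 10 : ℝ) * (2 * √y * Real.log y) ≤ N / l ^ A1 := by
  have hNR : (8 : ℝ) ≤ N := by exact_mod_cast hN
  have hN0 : (0 : ℝ) < N := by linarith
  have hl0 : 0 < l := by linarith
  have hCa0 : 0 < Ca := by linarith
  rw [le_div_iff₀ (by positivity)]
  rw [Real.rpow_one, ← hl] at hpoly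
  refine le_trans ?_ hpoly
  have h1 : √y ≤ Ca * (N : ℝ) ^ (1 / 2 : ℝ) := by
    calc √y ≤ √(Ca * N) := Real.sqrt_le_sqrt hy
      _ = √Ca * (N : ℝ) ^ (1 / 2 : ℝ) := by
        rw [Real.sqrt_mul hCa0.le, Real.sqrt_eq_rpow (N : ℝ)]
      _ ≤ Ca * (N : ℝ) ^ (1 / 2 : ℝ) := by
        apply mul_le_mul_of_nonneg_right _ (by positivity)
        rw [Real.sqrt_le_left (by linarith)]
        nlinarith
  have h2 : Real.log y ≤ 2 * Ca * l := by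
    have h3 : Real.log y ≤ Real.log (Ca * N) := Real.log_le_log (by linarith) hy
    have h4 : Real.log (Ca * N) = Real.log Ca + l := by
      rw [Real.log_mul hCa0.ne' hN0.ne', hl]
    have h5 : Real.log Ca ≤ Ca - 1 := Real.log_le_sub_one_of_pos hCa0
    nlinarith
  have h2' : 0 ≤ Real.log y := Real.log_nonneg hy1
  calc (N : ℝ) ^ (1 / 10 : ℝ) * (2 * √y * Real.log y) * l ^ A1
      ≤ (N : ℝ) ^ (1 / 10 : ℝ) * (2 * (Ca * (N : ℝ) ^ (1 / 2 : ℝ)) * (2 * Ca * l)) * l ^ A1 := by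
        gcongr
    _ = 4 * Ca ^ 2 * l ^ (A1 + 1) * ((N : ℝ) ^ (1 / 10 : ℝ) * (N : ℝ) ^ (1 / 2 : ℝ)) := by
        rw [pow_succ]; ring
    _ = 4 * Ca ^ 2 * l ^ (A1 + 1) * (N : ℝ) ^ (6 / 10 : ℝ) := by
        rw [← Real.rpow_add hN0]
        norm_num
    _ ≤ 8 * Ca ^ 2 * l ^ (A1 + 1) * (N : ℝ) ^ (6 / 10 : ℝ) := by gcongr; norm_num

/-- bound (II), generic parameters -/
theorem fix_IIF {α h : Fin k → ℤ} {D D' N Mo v : ℕ} {P : Finset ℕ} {n0 : ℝ} {x0 : Fin k → ℝ}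
    {vi : Fin k → ℕ} {C2 : ℕ} (hPS : PS2At (k + 1) C2) (hEq : Eq2) (hTn : Tents)
    (hRC : RootsCount)
    (hSd : SdLZ) (hWE : WEq) (H : Hyp α h D D' Mo v P) (Q : SPar) (ρ ε l : ℝ) (b A1 Jj : ℕ)
    (hk : 2 ≤ k) (hρ : 0 < ρ) (hρ1 : ρ ≤ 1 / 16) (hε : 0 < ε) (hε1 : ε < 1 / 3)
    (hI1 : ε < Q.I1) (hBr : 0 < Br Q k ε)
    (hl : l = Real.log N) (hl2 : 2 ≤ l) (hN : 8 ≤ N)
    (hb : C2 ≤ b) (hCD : C2 ≤ D) (hβ : (1 / 2 : ℝ) ^ b ≤ ε / 8) (hJ : D' ≤ 2 ^ 2 ^ Jj)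
    (hn0p : 0 < n0) (Ca : ℝ) (hCa : 1 ≤ Ca)
    (G : GeoF α h D D' Mo v P n0 (ε / 400 * n0) N x0 (fun i => ⌈3 * x0 i⌉₊) vi) (i : Fin k)
    (hsz : SzF n0 (x0 i) (ε / 400) (aI α i) Ca N)
    (hpn : ∀ κ' : ℝ, ε / 400 / 16 ≤ κ' → κ' ≤ 1 →
      |Mt (aI α i) (x0 i) κ' - ts (x0 i) κ'| ≤ ε / 8 * (κ' * x0 i))
    (hE2 : ∀ κ' : ℝ, ε / 400 / 16 ≤ κ' → κ' ≤ 1 →
      E2 k P (aI α i) (bI α h Mo i) (WW D) 1 ((1 / 4 - ρ / 2) * l) (x0 i) κ' C2 b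
        Jj ≤ N / l ^ A1)
    (hQL : (1 - ε) ^ 2 * (BD D' * (ρ * l) * (Q.I1 - ε)) ^ 2 *
      (BD D' * (ρ * l / 48) * (BD D' * (ρ * l)) ^ (k - 1) * Br Q k ε) ≤
      QI (some i) (prP P) (cw (prP P) (yP Q k P (ρ * l))))
    (hw : ∀ n : ℕ, |(n : ℝ) - n0| < ε / 400 * n0 →
      (wIZ (uB α) (wB h Mo) P i (yP Q k P (ρ * l)) n) ^ 2 ≤ (N : ℝ) ^ (1 / 10 : ℝ))
    (hpoly : 8 * Ca ^ 2 * (Real.log N) ^ (A1 + 1) * (N : ℝ) ^ (6 / 10 : ℝ) ≤ (N : ℝ) ^ (1 : ℝ))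
    (Z : ℝ) (hZ : Z = ZZ k (VV α h Mo D D') (ε / 400 * n0) (WW D) (BD D') (ρ * l))
    (hErr : N / l ^ A1 ≤ Z / l)
    (hlA : (3 / (ρ * ((1 - ε) ^ 3 * (Q.I1 - ε) ^ 2 * Br Q k ε)) + Ca) / ε ≤ l) :
    Z * (ρ * βc Q k ε) ≤ ∑ n ∈ Ns α h D D' Mo v N, (if (Fm α h Mo i n).toNat.Prime then
      lt n0 (ε / 400 * n0) n * (wZ Q (uB α) (wB h Mo) P (ρ * l) n) ^ 2 else 0) := by
  have hNR : (8 : ℝ) ≤ N := by exact_mod_cast hN
  have hN0 : (0 : ℝ) < N := by linarith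
  have hl0 : 0 < l := by linarith
  have hL : 0 < ρ * l := by positivity
  have h1ε : 0 < 1 - ε := by linarith
  have hI1ε : 0 < Q.I1 - ε := by linarith
  have hR0 : 0 ≤ (1 / 4 - ρ / 2) * l := mul_nonneg (by linarith) hl0.le
  have hxp := hsz.hx
  set κi := ε / 400 * n0 / x0 i with hκi
  have hκ4 : κi ≤ 2 * (ε / 400) := hsz.hκhi
  have hκ0 : 0 < κi := hsz.hκ
  have hκlo : ε / 400 / 16 ≤ κi := hsz.hκlo
  have hΔi : ε / 400 * n0 = κi * x0 i := by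
    rw [hκi]; field_simp
  have hBD := BD_pos D'
  have hW : (0 : ℝ) < WW D := by exact_mod_cast H.hW
  have hV := VV_pos hRC H
  have hNl : 0 ≤ (N : ℝ) / l ^ A1 := by positivity
  have hup : (aI α i : ℝ) * (x0 i + ε / 400 * n0) ≤ Ca * N := hsz.up
  have hge1 : 1 ≤ (aI α i : ℝ) * (x0 i + ε / 400 * n0) := by
    have h1 := aI_pos α H.hα i
    have h2 : (1 : ℝ) ≤ aI α i := by exact_mod_cast h1
    exact one_le_mul_of_one_le_of_one_le h2 hsz.one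
  have hS2 := (est_S2F hPS hEq hTn hRC hSd H G (BD_split H.hDD) hBD i (yP Q k P (ρ * l)) 1
    one_pos (fun σ => y_le_one Q P (ρ * l) hL σ) ((1 / 4 - ρ / 2) * l) hR0
    (fun σ hσ => supp_y Q P ρ l hρ1 hl0 σ hσ) κi b Jj hb hCD hJ hκ0 (by linarith) hxp
    hΔi hsz.hx1 hsz.hx2 (ε / 8) (by positivity) (by linarith)
    (hpn κi hκlo (by linarith)) (hpn (4 * κi) (by linarith) (by linarith)) (N / l ^ A1) hNl
    (hE2 κi hκlo (by linarith)) (hE2 (4 * κi) (by linarith) (by linarith))).1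
  obtain ⟨j, hij⟩ : ∃ j : Fin k, i ≠ j := by
    by_cases h0 : i = ⟨0, by omega⟩
    · exact ⟨⟨1, by omega⟩, by rw [h0]; simp⟩
    · exact ⟨⟨0, by omega⟩, h0⟩
  have hlog : Real.log (aI α i * (x0 i + ε / 400 * n0)) ≤ l + Ca := by
    have h3 : Real.log (aI α i * (x0 i + ε / 400 * n0)) ≤
        Real.log (Ca * N) := by
      apply Real.log_le_log _ hup
      linarith
    have hCa0 : 0 < Ca := by linarith
    have h4 : Real.log (Ca * N) = Real.log Ca + l := by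
      rw [Real.log_mul hCa0.ne' hN0.ne', hl]
    have h5 : Real.log Ca ≤ Ca - 1 := Real.log_le_sub_one_of_pos hCa0
    linarith
  have hconv := conv_lowF hRC hWE H G Q (ρ * l) (l + Ca) ((N : ℝ) ^ (1 / 10 : ℝ)) i j hij hlog
    (by positivity) hw hsz.one
  have hbad := bad_smallF N A1 l (aI α i * (x0 i + ε / 400 * n0)) Ca hl hl2 hN hCa hge1 hup hpoly
  set β00 : ℝ := (1 - ε) ^ 3 * (Q.I1 - ε) ^ 2 * Br Q k ε with hβ00
  have hβ00p : 0 < β00 := by rw [hβ00]; positivity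
  have hlow := low_alg k (by omega) (VV α h Mo D D') (ε / 400 * n0) (WW D)
    (BD D') (ρ * l) ε Q.I1 (Br Q k ε) _ hW hBD hV (by positivity) (by linarith) hQL
  rw [← hZ, ← hβ00] at hlow
  have hQI0 : 0 ≤ ε / 400 * n0 * (VV α h Mo D D' / (WW D * BD D') *
      QI (some i) (prP P) (cw (prP P) (yP Q k P (ρ * l)))) := by
    have h3 : 0 ≤ QI (some i) (prP P) (cw (prP P) (yP Q k P (ρ * l))) := by
      refine le_trans ?_ hQL
      positivity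
    positivity
  have hβ0 : 0 ≤ (1 / 2 : ℝ) ^ b := by positivity
  have hcoef : 1 - ε ≤ 1 - (1 / 2 : ℝ) ^ b - ε / 8 - 60 * κi := by linarith
  have h5 := mul_le_mul_of_nonneg_right hcoef hQI0
  have hZ0 : 0 < Z := by
    rw [hZ]
    unfold ZZ
    positivity
  set S := ∑ n ∈ Ns α h D D' Mo v N, (if (Fm α h Mo i n).toNat.Prime then
      lt n0 (ε / 400 * n0) n * (wZ Q (uB α) (wB h Mo) P (ρ * l) n) ^ 2 else 0)
    with hSdef
  have hkey : ρ * l * Z * β00 - 3 * (Z / l) ≤ (l + Ca) * S := by linarith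
  have hZl : Z / l ≤ Z := div_le_self hZ0.le (by linarith)
  have hfin : (l + Ca) * (Z * (ρ * βc Q k ε)) ≤ (l + Ca) * S := by
    refine le_trans ?_ hkey
    have e2 : Z * (ρ * βc Q k ε) = (1 - ε) * (ρ * β00) * Z := by
      unfold βc
      rw [hβ00]
      ring
    rw [e2]
    rw [div_le_iff₀ hε] at hlA
    have hρβ : 0 < ρ * β00 := by positivity
    have h6 : 3 ≤ (ρ * β00) * (ε * l - Ca) := by
      have h7 : 3 / (ρ * β00) ≤ ε * l - Ca := by linarith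
      rw [div_le_iff₀ hρβ] at h7
      linarith
    have h8 : (l + Ca) * ((1 - ε) * (ρ * β00)) ≤ l * (ρ * β00) - 3 := by
      have h8' : 0 ≤ Ca * ε * (ρ * β00) := by positivity
      nlinarith
    have h9 := mul_le_mul_of_nonneg_right h8 hZ0.le
    calc (l + Ca) * ((1 - ε) * (ρ * β00) * Z) = (l + Ca) * ((1 - ε) * (ρ * β00)) * Z := by ring
      _ ≤ (l * (ρ * β00) - 3) * Z := h9
      _ = ρ * l * Z * β00 - 3 * Z := by ring
      _ ≤ _ := by linarith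
  exact le_of_mul_le_mul_left hfin (by linarith)

/-- (TWb) -/
theorem twbF (hPS2 : PS2) (hTn : Tents) (hRC : RootsCount) (hSd : SdLZ)
    (hWE : WEq) (hEq : Eq2) (hSU : Pool.Agent.W25.UB.St_SUM)
    (hPN : PntT) (hER : ErrU) (hQL : QLow) (hWF : WFacts) (hVL : VLow)
    (hTail : TailBound) : St_TWbF := by
  classical
  intro k Q ρ ρ₁ ε B hk hρ hρ1 hρρ hρ₁ hε hε1 hI1 hI2 hBr hB
  obtain ⟨C2, hC2, hPS2⟩ := ps2At_of hPS2 (k + 1)
  obtain ⟨DW, hWF⟩ := hWF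
  obtain ⟨DQ, hQL⟩ := hQL k
  obtain ⟨DT, hT⟩ := tails hTail k ε hε
  obtain ⟨b0, hb0⟩ := exists_pow_lt_of_lt_one (by positivity : 0 < ε / 8)
    (by norm_num : (1 / 2 : ℝ) < 1)
  obtain ⟨b, hb2, hβ⟩ : ∃ b : ℕ, C2 ≤ b ∧ (1 / 2 : ℝ) ^ b ≤ ε / 8 :=
    ⟨b0 + C2, by omega, by
      refine le_trans ?_ hb0.le
      exact pow_le_pow_of_le_one (by norm_num) (by norm_num) (by omega)⟩
  have hκ : 0 < ε / 400 := by positivity
  have hκ1 : ε / 400 ≤ 1 / 64 := by linarith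
  have h1ε : 0 < 1 - ε := by linarith
  have hI1p : 0 < Q.I1 := hε.trans hI1
  have hI1ε : 0 < Q.I1 - ε := by linarith
  refine ⟨DW + C2 + 2 * (k + 1) + 1, fun D hD α h hα0 hαD c₀ hc1 hc2 => ?_⟩
  obtain ⟨C', hCC⟩ := clF k α h
  have hD1 : DW ≤ D := by omega
  have hD3 : C2 ≤ D := by omega
  have hD4 : 2 * (k + 1) ≤ D := by omega
  obtain ⟨hW, htot, hBDp, hdvd, -⟩ := hWF D hD1
  have hWR : (0 : ℝ) < WW D := by exact_mod_cast hW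
  have hc0 : 0 < c₀ := by linarith
  set A1 : ℕ := 3 * (B + 1) * (k + 1) + 2 with hA1
  filter_upwards [hCC, hSU Q (k + 1) ε ρ ρ₁ C' B hε hρ (by linarith) hB,
    szF α h hα0 D hαD c₀ hc1 hc2 (ε / 400) hκ hκ1,
    geoF_ev α h hα0 D hαD c₀ hc1 hc2 (ε / 400) hκ hκ1 B ρ₁ hρ₁ hW,
    ev_DB B hB (D + DQ + DT + 5), DB_up B,
    ptwF k α h Q (1 / 10) (by norm_num),
    pn_evF hPN α h hα0 c₀ (ε / 8) (ε / 400 / 16) (by positivity) (by positivity),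
    er_evF hER hEq α h hα0 c₀ B hB D hαD hdvd hW ρ (ε / 400 / 16) A1 C2 b hρ hρ1 (by positivity),
    ev_poly (8 * ((D : ℝ) + 2) ^ 2) (A1 + 1) (6 / 10) 1 (by norm_num),
    ev_log 2, ev_log (48 * WW D / (ε / 400 * c₀ * ρ ^ (k + 1))),
    ev_log ((3 / (ρ * ((1 - ε) ^ 3 * (Q.I1 - ε) ^ 2 * Br Q k ε)) + ((D : ℝ) + 2)) / ε),
    eventually_ge_atTop 8]
    with N hCC hsums hsz hgeo hDp hDBu hpt10 hpn her hpoly2 hl2 hl3 hl5 hN8
  intro Mo hMo hnd hpos v hv Z hZ i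
  replace hCC := hCC Mo hMo hnd
  replace hsz := hsz Mo hMo hpos
  replace hgeo := hgeo Mo hMo hpos
  replace hpt10 := hpt10 Mo hMo
  have hN1 : 1 ≤ N := by omega
  have hNR : (8 : ℝ) ≤ N := by exact_mod_cast hN8
  have hl1 : 1 ≤ Real.log N := by linarith
  have hPs := PBF_spec α h Mo N B ρ₁ hρ₁ hN1
  have hPle : ∀ p ∈ PBF α h Mo N B ρ₁, p.Prime ∧ (p : ℝ) ≤ N :=
    fun p hp => ⟨(hPs p hp).1, (hPs p hp).2.2.2.2⟩
  have hPleN : ∀ p ∈ PBF α h Mo N B ρ₁, p.Prime ∧ p ≤ N := fun p hp => ⟨(hPs p hp).1, by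
    exact_mod_cast (hPs p hp).2.2.2.2⟩
  have hPD : ∀ p ∈ PBF α h Mo N B ρ₁, p.Prime ∧ DB (2 * N) B < p :=
    fun p hp => ⟨(hPs p hp).1, (hPs p hp).2.1⟩
  have H : Hyp α h D (DB (2 * N) B) Mo v (PBF α h Mo N B ρ₁) := {
    hα := hα0
    hW := hW
    tot := htot
    BDpos := hBDp
    hdvd := hdvd
    hDk := hD4
    hDα := hαD
    hDD := by omega
    hP := hPD
    hres := fun p hp j l hjl => CL_ndvd hnd (hPs p hp).1 (hPs p hp).2.2.1 j l hjl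
    hv := hv }
  have G := hgeo v
  have hS1 := ((hsums (CL (uB α) (wB h Mo)) (PBF α h Mo N B ρ₁) hCC hPD).1
    (fun p hp hDp' hple hpC => by
      unfold PBF
      rw [Finset.mem_filter, Finset.mem_Icc]
      exact ⟨⟨hDp', Nat.le_floor hple⟩, hp, hpC⟩)).2
  obtain ⟨hT1, hT2, hT3⟩ := hT (DB (2 * N) B) (by omega) (PBF α h Mo N B ρ₁) hPD
  have hDp1 : 1 ≤ DB (2 * N) B := by omega
  have hVlow := hVL (k + 1) (DB (2 * N) B) (QQ D (DB (2 * N) B))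
    (fun p => (Om (uB α) (wB h Mo) p).card) hDp1 (fun p hp => by
      have h1 := QQ_prime hp
      exact ⟨h1.1, by omega, h1.2.2,
        (hRC k (uB α) (wB h Mo) p h1.1 (fun j => H.uB_ndvd h1.1 h1.2.1 j)).2.1⟩)
  have hZlow : N / (Real.log N) ^ (3 * (B + 1) * (k + 1) + 1) ≤ Z := by
    rw [hZ]
    apply ZZ_lowB k (B + 1) (Pool.Agent.W25.UN.VV α h Mo D (DB (2 * N) B)) (ε / 400 * (c₀ * N))
      (WW D) (BD (DB (2 * N) B))
      (ρ * Real.log N) (ε / 400 * c₀) (Real.log N) N (DB (2 * N) B) ρ hl1 hWR hρ rfl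
    · exact_mod_cast hDp1
    · exact hDBu
    · exact hVlow.1
    · exact hVlow.2
    · ring
    · positivity
    · positivity
    · exact hl3
  have hErr : N / (Real.log N) ^ A1 ≤ Z / Real.log N := by
    have e1 : (N : ℝ) / (Real.log N) ^ A1 =
        N / (Real.log N) ^ (3 * (B + 1) * (k + 1) + 1) / Real.log N := by
      rw [div_div, ← pow_succ]
    rw [e1]
    exact div_le_div_of_nonneg_right hZlow (by linarith)
  have hsd0 := H.sd0 hSd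
  have hL0 : 0 < ρ * Real.log N := by positivity
  exact fix_IIF hPS2 hEq hTn hRC hSd hWE H Q ρ ε (Real.log N) b A1 (Jb (DB (2 * N) B)) hk hρ hρ1
      hε hε1 hI1 hBr rfl hl2 hN8 hb2 hD3 hβ (Jb_le _) (by positivity) ((D : ℝ) + 2) (by
        have := Nat.cast_nonneg (α := ℝ) D
        linarith) G i (hsz i) (hpn Mo i (hsz i).lo)
      (fun κ' h1 h2 => her Mo i (hsz i).lo (hsz i).hi (PBF α h Mo N B ρ₁) hPle κ' h1 h2)
      (hQL (DB (2 * N) B) Q ε (by omega) hε hε1 hI1 hI2 hBr (ρ * Real.log N) (PBF α h Mo N B ρ₁)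
        hL0 hPD hT1 hT2 hS1 i)
      (fun n hd => by
        obtain ⟨q1, q2, q3⟩ := Fm_neF hα0 G n hd
        exact (hpt10 (PBF α h Mo N B ρ₁) (ρ * Real.log N) hL0 hPleN hsd0 n q1 q2 q3).2 i)
      hpoly2 Z hZ hErr hl5

end Pool.Agent.TH899.UG
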