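import Mathlib
import Pool.Agent.TH899.UG.TWb

/-! The statements uniformly in the constant terms of the forms. -/

set_option autoImplicit false

namespace Pool.Agent.TH899.UG

open Finset Filter Topology
open Pool.Agent.H410R2 hiding GP GP_prof GP_cut_some GP_cut_none GP_lip gg_pos gg_le_one gg_anti ee_bound ee_nonneg gg_lip LB_gg LB_ee Sums exists_sums yx wx wxi Br sum_GP_none sum_GP_some sum_GP_some_ee sum_GP_some_one sum_GPr_none sum_GPr_some S1_final QI_final S2_final w_abs_le wmax gg ee I1 I2 IE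
open Pool.Agent.H361R2.GM
open Pool.Agent.H362R2.CM
open Pool.Agent.W25.UN
open Pool.Agent.W25.UB

/-- the constant terms of the forms are at most `21 N / 16` -/
def HB {k : ℕ} (h : Fin k → ℤ) (Mo N : ℕ) : Prop := ∀ i, 16 * |(Mo : ℤ) + h i| ≤ 21 * (N : ℤ)

theorem HB.real {k : ℕ} {h : Fin k → ℤ} {Mo N : ℕ} (H : HB h Mo N) (i : Fin k) :
    16 * |(Mo : ℝ) + h i| ≤ 21 * (N : ℝ) := by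
  have h1 := H i
  have h2 : ((16 * |(Mo : ℤ) + h i| : ℤ) : ℝ) ≤ ((21 * (N : ℤ) : ℤ) : ℝ) := by exact_mod_cast h1
  push_cast at h2
  exact h2

/-- (MAS) the master formula -/
def St_MASH : Prop := ∀ (ε₀ η : ℝ), 0 < ε₀ → ε₀ ≤ 1 / 100 → 0 < η → η ≤ 1 / 100 → R2LAt ε₀ η →
  ∀ k : ℕ, ∃ E : ℕ, ∀ (ε₁ η₀ r M : ℝ) (A E₁ B D : ℕ) (α : Fin k → ℤ), 0 < ε₁ → ε₁ ≤ 1 →
  0 < η₀ → 0 < r → 16 * r ≤ ε₀ / 10 → 16 * r ≤ η → 16 * η₀ ≤ ε₀ / 10 → 16 * η₀ ≤ η → 1 ≤ M →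
  E + 2 * E₁ + A ≤ B → 2 * (k + 1) ≤ D → (∀ i, α i ≠ 0) →
  (∀ i, (α i).natAbs ≤ D) → ∀ᶠ N : ℕ in atTop, ∀ (h : Fin k → ℤ) (Mo : ℕ), HB h Mo N →
  Nd α h Mo →
  ∀ (v D₁ : ℕ) (P Pt : Finset ℕ) (Tr : ℤ → ℝ) (t : ℝ), D₁ = ⌊((2 * N : ℕ) : ℝ) ^ η₀⌋₊ →
    (∀ p ∈ P ∪ Pt, Gd (uB α) (wB h Mo) p ∧ DB (2 * N) B < p ∧ (p : ℝ) ≤ ((2 * N : ℕ) : ℝ) ^ ε₁) →
    Ex (fun p => D < p ∧ p ≤ DB (2 * N) B) ((N : ℝ) ^ η₀) ((N : ℝ) ^ η₀) Tr t → |t| ≤ 2 →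
    MasAtF α h Mo ε₀ ε₁ r M A E₁ D N v D₁ P Pt Tr t

/-- (DAT) existence of the data for all large `N` -/
def St_DATH : Prop := ∀ (ε₀ η : ℝ), 0 < ε₀ → ε₀ ≤ 1 / 100 → 0 < η → η ≤ 1 / 100 → R2LAt ε₀ η →
  ∀ η₀ : ℝ, 0 < η₀ → 16 * η₀ ≤ ε₀ / 10 → 16 * η₀ ≤ η → ∃ εs : ℝ, 0 < εs ∧ ∀ ε₁ : ℝ, 0 < ε₁ →
  ε₁ ≤ εs → ∃ C1 : ℝ, 1 ≤ C1 ∧ ∀ (k : ℕ) (Q : SPar) (ρ ρ₁ ε : ℝ), 3 ≤ k → 0 < ρ → ρ < ρ₁ →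
  2 * ρ₁ ≤ ε₁ → 3 * ρ ≤ η₀ → 0 < ε → ε < 1 / 3 → ε < Q.I1 → ε < Q.I2 → ∃ B₀ : ℕ, 6 ≤ B₀ ∧
  ∀ B : ℕ, B₀ ≤ B → ∀ D : ℕ, 2 * (k + 1) ≤ D → ∀ (α : Fin k → ℤ), (∀ i, α i ≠ 0) →
  (∀ i, (α i).natAbs ≤ D) → ∀ᶠ N : ℕ in atTop, ∀ (h : Fin k → ℤ) (Mo : ℕ), HB h Mo N →
  Nd α h Mo → ∀ v : ℕ,
    ∃ (M : ℝ) (A E₁ D₁ z : ℕ) (Tr : ℤ → ℝ) (t : ℝ) (th dl b : ℕ → ℝ),
      DatF Q α h Mo ε₀ ε₁ ρ ρ₁ ε M C1 A E₁ D B N v D₁ z Tr t th dl b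


/-- (TWa) first sum for narrow tents with centres between `N / 8` and `N / 4` -/
def St_TWaH : Prop := ∀ (k : ℕ) (Q : SPar) (ρ ρ₁ ε : ℝ) (B : ℕ), 2 ≤ k → 0 < ρ → ρ ≤ 1 / 16 →
  49 / 48 * ρ < ρ₁ → ρ₁ ≤ 1 / 4 → 0 < ε → ε < 1 / 3 → ε < Q.I1 → ε < Q.I2 → 3 ≤ B →
  ∃ D₀ : ℕ, ∀ D : ℕ, D₀ ≤ D → ∀ (α : Fin k → ℤ), (∀ i, α i ≠ 0) →
  (∀ i, (α i).natAbs ≤ D) → ∀ c₀ : ℝ, 1 / 8 ≤ c₀ → c₀ ≤ 1 / 4 → ∀ᶠ N : ℕ in atTop,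
  ∀ (h : Fin k → ℤ) (Mo : ℕ), HB h Mo N → Nd α h Mo → ∀ v : ℕ,
    (∀ j, ∀ n : ℤ, n ≡ v [ZMOD (WW D)] → IsCoprime (uB α j * n + wB h Mo j) ((WW D : ℕ) : ℤ)) →
    ∀ Z : ℝ, Z = ZZ k (Pool.Agent.W25.UN.VV α h Mo D (DB (2 * N) B)) (ε / 400 * (c₀ * N)) (WW D)
        (BD (DB (2 * N) B)) (ρ * Real.log N) →
    ∑ n ∈ Ns α h D (DB (2 * N) B) Mo v N, lt (c₀ * N) (ε / 400 * (c₀ * N)) n *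
        (wZ Q (uB α) (wB h Mo) (PBF α h Mo N B ρ₁) (ρ * Real.log N) n) ^ 2 ≤ Z * Ac Q k ε

/-- (TWb) prime sums for narrow tents with centres between `N / 8` and `N / 4` -/
def St_TWbH : Prop := ∀ (k : ℕ) (Q : SPar) (ρ ρ₁ ε : ℝ) (B : ℕ), 2 ≤ k → 0 < ρ → ρ ≤ 1 / 16 →
  49 / 48 * ρ < ρ₁ → ρ₁ ≤ 1 / 4 → 0 < ε → ε < 1 / 3 → ε < Q.I1 → ε < Q.I2 → 0 < Br Q k ε → 3 ≤ B →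
  ∃ D₀ : ℕ, ∀ D : ℕ, D₀ ≤ D → ∀ (α : Fin k → ℤ), (∀ i, α i ≠ 0) →
  (∀ i, (α i).natAbs ≤ D) → ∀ c₀ : ℝ, 1 / 8 ≤ c₀ → c₀ ≤ 1 / 4 → ∀ᶠ N : ℕ in atTop,
  ∀ (h : Fin k → ℤ) (Mo : ℕ), HB h Mo N → Nd α h Mo → PosR α h Mo N → ∀ v : ℕ,
    (∀ j, ∀ n : ℤ, n ≡ v [ZMOD (WW D)] → IsCoprime (uB α j * n + wB h Mo j) ((WW D : ℕ) : ℤ)) →
    ∀ Z : ℝ, Z = ZZ k (Pool.Agent.W25.UN.VV α h Mo D (DB (2 * N) B)) (ε / 400 * (c₀ * N)) (WW D)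
        (BD (DB (2 * N) B)) (ρ * Real.log N) →
    ∀ i : Fin k, Z * (ρ * βc Q k ε) ≤ ∑ n ∈ Ns α h D (DB (2 * N) B) Mo v N,
      (if (Fm α h Mo i n).toNat.Prime then lt (c₀ * N) (ε / 400 * (c₀ * N)) n *
        (wZ Q (uB α) (wB h Mo) (PBF α h Mo N B ρ₁) (ρ * Real.log N) n) ^ 2 else 0)

end Pool.Agent.TH899.UG
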