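import Pool.Agent.TH899.UG.Tu
import Pool.Agent.H442R2.BX.Bc

/-! One box, fixed classes modulo `q`, with an auxiliary odd number `l` coprime to `q`; the modulus
`q` may be even. -/

namespace Pool.Agent.TH899.UG

open Finset
open Pool.Agent.H442R2
open Pool.Agent.H442R2.KF
open Pool.Agent.H442R2.BX
open Pool.Agent.H442R2.BX.TaskBC

theorem cofO_of {q l : ℕ} {c : ℕ → ℝ} (h : CofO (q * l) c) : CofO q c :=
  ⟨h.bd, fun d hd => by
    have h1 := h.cop d hd
    rw [← mul_assoc] at h1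
    exact Nat.Coprime.coprime_mul_right_right h1⟩

/-- BC with an auxiliary odd number `l` -/
def St_BCl : Prop := ∀ θ : ℝ, θ < 14 / 27 → ∃ (η C : ℝ), 0 < η ∧ 0 < C ∧ ∀ (N q i k l : ℕ), 3 ≤ N →
    1 ≤ q → 3 ≤ l → Odd l → Nat.Coprime q l →
    (2 : ℝ) ^ i ≤ (N : ℝ) ^ θ → (2 : ℝ) ^ k ≤ (N : ℝ) ^ θ →
    ∀ (a a' σ : ℤ), |(a : ℝ)| ≤ N → |(a' : ℝ)| ≤ N → a ≠ a' → (σ = 1 ∨ σ = -1) →
    ∀ c c' : ℕ → ℝ, CofO (q * l) c → CofO (q * l) c' → ∀ r r' : ℕ,
    (∀ d, c d ≠ 0 → d % q = r) → (∀ d, c' d ≠ 0 → d % q = r') →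
    ‖∑ j ∈ Icc 1 (JB N i k), ∑ d ∈ bx q i,
      ∑ d' ∈ (Ioc (2 ^ k) (2 ^ (k + 1))).filter (fun d' => Nat.Coprime d d'),
        trB N a a' q σ c c' j d d'‖ ≤
      C * (l : ℝ) ^ 2 * (2 : ℝ) ^ (max i k - min i k) * (N : ℝ) ^ (1 - η)

/-- BC: one box, fixed classes modulo `q` -/
theorem BCl (hTU : St_TUl) (hPW : St_PW) : St_BCl := by
  intro θ hθ
  set θ' := max θ (1 / 2) with hθ'
  have hθ1 : θ' < 14 / 27 := max_lt hθ (by norm_num)
  have hθ2 : 1 / 2 ≤ θ' := le_max_right _ _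
  have hθ3 : θ ≤ θ' := le_max_left _ _
  set δ := (1 - 27 * θ' / 14) / 2 with hδ
  have hδ0 : 0 < δ := by rw [hδ]; linarith
  have hδ1 : δ ≤ 1 / 56 := by rw [hδ]; linarith
  obtain ⟨η0, C0, hη0, hC0, H⟩ := hTU δ hδ0 (by linarith)
  obtain ⟨N0, hN0⟩ := exists_log_le δ hδ0
  refine ⟨min (η0 / 5) 1, C0 * 10000 * (10 / η0) ^ 2 + 8 * (N0 : ℝ) ^ 3,
    lt_min (by positivity) one_pos, by positivity, ?_⟩
  intro N q i k l hN hq hl3 hlo hql hi hk a a' σ ha ha' haa hσ c c' hcl hcl' r r' hr hr'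
  have hc : CofO q c := cofO_of hcl
  have hc' : CofO q c' := cofO_of hcl'
  have hlR : (3 : ℝ) ≤ l := by exact_mod_cast hl3
  have hl2 : (1 : ℝ) ≤ (l : ℝ) ^ 2 := one_le_pow₀ (by linarith)
  set η := min (η0 / 5) 1 with hη
  have hη1 : η ≤ 1 := min_le_right _ _
  have hη2 : η ≤ η0 / 5 := min_le_left _ _
  set J := JB N i k with hJdef
  have hN' : (3 : ℝ) ≤ N := by exact_mod_cast hN
  have hNpos : (0 : ℝ) < N := by linarith
  have hN1 : (1 : ℝ) ≤ N := by linarith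
  have hlog : 1 ≤ Real.log N := by
    rw [Real.le_log_iff_exp_le (by linarith)]
    have := Real.exp_one_lt_d9
    linarith
  obtain ⟨P, hP⟩ : ∃ P : ℝ, P = (2 : ℝ) ^ (i + k) := ⟨_, rfl⟩
  obtain ⟨M, hM⟩ : ∃ M : ℝ, M = (2 : ℝ) ^ max i k := ⟨_, rfl⟩
  obtain ⟨L, hL⟩ : ∃ L : ℝ, L = (2 : ℝ) ^ (max i k - min i k) := ⟨_, rfl⟩
  have hP1 : 1 ≤ P := by rw [hP]; exact one_le_pow₀ (by norm_num)
  have hM1 : 1 ≤ M := by rw [hM]; exact one_le_pow₀ (by norm_num)
  have hL1 : 1 ≤ L := by rw [hL]; exact one_le_pow₀ (by norm_num)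
  have hP0 : 0 < P := by linarith
  have hM0 : 0 < M := by linarith
  have hML : M ^ 2 = P * L := by
    rw [hM, hP, hL, ← pow_mul, ← pow_add]
    congr 1
    have h1 : max i k + min i k = i + k := max_add_min i k
    have h2 : min i k ≤ max i k := min_le_max
    omega
  have hPM : P ≤ M ^ 2 := by
    rw [hML]
    nlinarith
  have hMθ : M ≤ (N : ℝ) ^ θ' := by
    have h1 : M ≤ (N : ℝ) ^ θ := by
      rw [hM]
      rcases max_choice i k with h | h
      · rw [h]; exact hi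
      · rw [h]; exact hk
    exact h1.trans (Real.rpow_le_rpow_of_exponent_le hN1 hθ3)
  have hMN1 : M ≤ N := by
    refine hMθ.trans ?_
    calc (N : ℝ) ^ θ' ≤ (N : ℝ) ^ (1 : ℝ) :=
          Real.rpow_le_rpow_of_exponent_le hN1 (by linarith)
      _ = N := Real.rpow_one _
  have hJle : (J : ℝ) * N ≤ 4 * P * Real.log N := by
    have h1 : (J : ℝ) ≤ 4 * P * Real.log N / N := by
      rw [hJdef, hP]
      exact Nat.floor_le (by positivity)
    rwa [le_div_iff₀ hNpos] at h1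
  have hNη : 1 ≤ (N : ℝ) ^ (1 - η) := Real.one_le_rpow hN1 (by linarith)
  have hpart : 0 ≤ C0 * 10000 * (10 / η0) ^ 2 := by positivity
  have hpart2 : 0 ≤ 8 * (N0 : ℝ) ^ 3 := by positivity
  rw [← hL]
  -- no frequency
  rcases Nat.eq_zero_or_pos J with hJ0 | hJpos
  · rw [hJ0]
    simp only [zero_lt_one, Finset.Icc_eq_empty_of_lt, Finset.sum_empty, norm_zero]
    positivity
  -- small `N`
  by_cases hNN : N < N0
  · refine (trivial_bd N q i k J a a' σ c c' hc.bd hc'.bd).trans ?_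
    have h3 : (N : ℝ) ≤ N0 := by exact_mod_cast hNN.le
    have h2 : Real.log N ≤ N := (Real.log_le_sub_one_of_pos hNpos).trans (by linarith)
    calc 2 * (J : ℝ) * N = 2 * ((J : ℝ) * N) := by ring
      _ ≤ 2 * (4 * P * Real.log N) := by linarith
      _ ≤ 2 * (4 * (N : ℝ) ^ 2 * N) := by
          have h4 : P ≤ (N : ℝ) ^ 2 := hPM.trans (pow_le_pow_left₀ hM0.le hMN1 2)
          gcongr
      _ = 8 * (N : ℝ) ^ 3 * 1 * 1 * 1 := by ring
      _ ≤ 8 * (N0 : ℝ) ^ 3 * (l : ℝ) ^ 2 * L * (N : ℝ) ^ (1 - η) := by gcongr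
      _ ≤ _ := by
        apply mul_le_mul_of_nonneg_right _ (by positivity)
        apply mul_le_mul_of_nonneg_right _ (by positivity)
        apply mul_le_mul_of_nonneg_right _ (by positivity)
        linarith
  -- large `N`
  push Not at hNN
  have hl4 := hN0 N hNN
  have hJ1 : (1 : ℝ) ≤ J := by exact_mod_cast hJpos
  have hNP : (N : ℝ) ≤ 4 * P * Real.log N := by nlinarith
  -- `P` is large
  have hPN : (N : ℝ) ^ (1 - δ) ≤ P := by
    have h1 : (N : ℝ) ≤ P * (N : ℝ) ^ δ := by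
      calc (N : ℝ) ≤ 4 * P * Real.log N := hNP
        _ = P * (4 * Real.log N) := by ring
        _ ≤ _ := mul_le_mul_of_nonneg_left hl4 hP0.le
    have h2 : (N : ℝ) ^ (1 - δ) * (N : ℝ) ^ δ ≤ P * (N : ℝ) ^ δ := by
      rw [← Real.rpow_add hNpos, sub_add_cancel, Real.rpow_one]
      exact h1
    exact le_of_mul_le_mul_right h2 (Real.rpow_pos_of_pos hNpos _)
  have hMN : (N : ℝ) ^ (2 / 5 : ℝ) ≤ M := by
    have h1 : ((N : ℝ) ^ (2 / 5 : ℝ)) ^ 2 ≤ M ^ 2 := by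
      calc ((N : ℝ) ^ (2 / 5 : ℝ)) ^ 2 = (N : ℝ) ^ (4 / 5 : ℝ) := by
            rw [← Real.rpow_natCast, ← Real.rpow_mul hNpos.le]
            norm_num
        _ ≤ (N : ℝ) ^ (1 - δ) := Real.rpow_le_rpow_of_exponent_le hN1 (by linarith)
        _ ≤ P := hPN
        _ ≤ M ^ 2 := hPM
    exact (pow_le_pow_iff_left₀ (Real.rpow_nonneg hNpos.le _) hM0.le two_ne_zero).1 h1
  -- few frequencies
  have hJM : (J : ℝ) ≤ M ^ (1 / 14 - δ) := by
    have h4 : M ^ (27 / 14 + δ) ≤ (N : ℝ) ^ (1 - δ) := by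
      calc M ^ (27 / 14 + δ) ≤ ((N : ℝ) ^ θ') ^ (27 / 14 + δ) :=
            Real.rpow_le_rpow hM0.le hMθ (by positivity)
        _ = (N : ℝ) ^ (θ' * (27 / 14 + δ)) := by rw [← Real.rpow_mul hNpos.le]
        _ ≤ _ := by
          apply Real.rpow_le_rpow_of_exponent_le hN1
          have : θ' * δ ≤ 1 * δ := by
            apply mul_le_mul_of_nonneg_right _ hδ0.le
            linarith
          have e1 : 27 * θ' / 14 = 1 - 2 * δ := by rw [hδ]; ring
          nlinarith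
    have h6 : M ^ 2 = M ^ (1 / 14 - δ) * M ^ (27 / 14 + δ) := by
      rw [← Real.rpow_add hM0, ← Real.rpow_natCast]
      congr 1
      push_cast
      ring
    have h7 : (J : ℝ) * N ≤ M ^ (1 / 14 - δ) * N := by
      calc (J : ℝ) * N ≤ 4 * P * Real.log N := hJle
        _ ≤ 4 * M ^ 2 * Real.log N := by gcongr
        _ = M ^ (1 / 14 - δ) * (M ^ (27 / 14 + δ) * (4 * Real.log N)) := by
          rw [h6]
          ring
        _ ≤ M ^ (1 / 14 - δ) * ((N : ℝ) ^ (1 - δ) * (N : ℝ) ^ δ) := by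
          apply mul_le_mul_of_nonneg_left _ (Real.rpow_nonneg hM0.le _)
          exact mul_le_mul h4 hl4 (by positivity) (Real.rpow_nonneg hNpos.le _)
        _ = M ^ (1 / 14 - δ) * N := by
          rw [← Real.rpow_add hNpos, sub_add_cancel, Real.rpow_one]
    exact le_of_mul_le_mul_right h7 hNpos
  have hσ1 : |(σ : ℝ)| = 1 := by
    rcases hσ with h | h <;> rw [h] <;> norm_num
  obtain ⟨ω, hω⟩ : ∃ ω : ℕ → ℂ, ω = fun j : ℕ => kf (-(σ * (j : ℤ) * a)) ((r * r' : ℕ) : ℤ) q :=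
    ⟨_, rfl⟩
  have hωn : ∀ j, ‖ω j‖ ≤ 1 := by
    intro j
    rw [hω]
    exact (norm_kf _ _ _).le
  have hW : ∀ j : ℕ, WeiP ((2 : ℝ) ^ (i + k)) (100 * Real.log N)
      (psB N J a ((2 : ℝ) ^ (i + k)) σ ω j) := by
    intro j
    rw [← hP]
    exact hPW N J hN a ha P hP1 σ hσ ω hωn hJle j
  have hb : |((σ * (a' - a) : ℤ) : ℝ)| * J ≤ 100 * Real.log N * (2 : ℝ) ^ (i + k) := by
    rw [← hP]
    push_cast
    rw [abs_mul, hσ1, one_mul]
    have h1 : |(a' : ℝ) - a| ≤ 2 * N := by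
      have := abs_sub (a' : ℝ) (a : ℝ)
      linarith
    calc |(a' : ℝ) - a| * J ≤ (2 * N) * J := by gcongr
      _ = 2 * ((J : ℝ) * N) := by ring
      _ ≤ 2 * (4 * P * Real.log N) := by linarith
      _ ≤ _ := by
        have : 0 ≤ P * Real.log N := by positivity
        nlinarith
  have hσk : σ * (a' - a) ≠ 0 := by
    apply mul_ne_zero
    · rcases hσ with h | h <;> rw [h] <;> norm_num
    · exact sub_ne_zero.2 haa.symm
  have key := H i k J l hl3 hlo hJpos (by rw [← hM]; exact hJM) (100 * Real.log N) (by linarith)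
    (psB N J a ((2 : ℝ) ^ (i + k)) σ ω) hW (σ * (a' - a)) hσk hb
    (fun m => if q ∣ m then (c (m / q) : ℂ) else 0) (fun n => (c' n : ℂ))
    (fun m => by
      split_ifs
      · rw [Complex.norm_real]; exact hc.bd _
      · simp)
    (fun n => by rw [Complex.norm_real]; exact hc'.bd _)
    (fun m hm => by
      have hqm : q ∣ m := by
        by_contra h
        exact hm (if_neg h)
      have hcm : c (m / q) ≠ 0 := by
        intro h
        apply hm
        show (if q ∣ m then (c (m / q) : ℂ) else 0) = 0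
        rw [if_pos hqm, h]
        simp
      have h2 := hcl.cop _ hcm
      have h3 : Nat.Coprime (m / q) l :=
        Nat.Coprime.coprime_mul_left_right (Nat.Coprime.coprime_mul_left_right h2)
      have h4 : m = q * (m / q) := (Nat.mul_div_cancel' hqm).symm
      rw [h4]
      exact Nat.Coprime.mul_left hql h3)
    (fun n hn => by
      have hcn : c' n ≠ 0 := by
        intro h
        apply hn
        show (c' n : ℂ) = 0
        rw [h]
        simp
      have := Nat.Coprime.coprime_mul_right_right (hc'.cop n hcn)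
      exact Nat.coprime_two_right.1 this)
  rw [sum_eq N q i k J hq a a' σ c c' hc hc' r r' hr hr', norm_mul, Complex.norm_real,
    Real.norm_eq_abs, abs_of_nonneg (by positivity)]
  rw [hω] at key
  -- numbers
  have hlogsq : Real.log N ≤ (N : ℝ) ^ (η0 / 10) / (η0 / 10) :=
    Real.log_le_rpow_div hNpos.le (by positivity)
  have hMη : M ^ (-η0) ≤ (N : ℝ) ^ (-(2 / 5 * η0)) := by
    rw [Real.rpow_neg hM0.le, Real.rpow_neg hNpos.le]
    apply inv_anti₀ (Real.rpow_pos_of_pos hNpos _)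
    rw [Real.rpow_mul hNpos.le]
    exact Real.rpow_le_rpow (Real.rpow_nonneg hNpos.le _) hMN hη0.le
  have hfin : (N : ℝ) * ((N : ℝ) ^ (η0 / 10)) ^ 2 * (N : ℝ) ^ (-(2 / 5 * η0)) ≤
      (N : ℝ) ^ (1 - η) := by
    rw [← Real.rpow_natCast ((N : ℝ) ^ (η0 / 10)) 2, ← Real.rpow_mul hNpos.le]
    calc (N : ℝ) * (N : ℝ) ^ (η0 / 10 * ((2 : ℕ) : ℝ)) * (N : ℝ) ^ (-(2 / 5 * η0))
        = (N : ℝ) ^ (1 + η0 / 10 * ((2 : ℕ) : ℝ) + (-(2 / 5 * η0))) := by
          rw [Real.rpow_add hNpos, Real.rpow_add hNpos, Real.rpow_one]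
      _ ≤ _ := by
          apply Real.rpow_le_rpow_of_exponent_le hN1
          push_cast
          nlinarith
  rw [← hP, ← hM] at key
  rw [← hP]
  calc (N : ℝ) / P * _
      ≤ (N : ℝ) / P * (C0 * (l : ℝ) ^ 2 * (100 * Real.log N) ^ 2 * M ^ (2 - η0)) :=
        mul_le_mul_of_nonneg_left key (by positivity)
    _ = C0 * 10000 * (Real.log N) ^ 2 * (l : ℝ) ^ 2 * L * N * M ^ (-η0) := by
        have h1 : M ^ (2 - η0) = (P * L) * M ^ (-η0) := by
          rw [← hML, ← Real.rpow_natCast M 2, ← Real.rpow_add hM0]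
          congr 1
        rw [h1]
        field_simp
        ring
    _ ≤ C0 * 10000 * ((N : ℝ) ^ (η0 / 10) / (η0 / 10)) ^ 2 * (l : ℝ) ^ 2 * L * N *
          (N : ℝ) ^ (-(2 / 5 * η0)) := by gcongr
    _ = C0 * 10000 * (10 / η0) ^ 2 * (l : ℝ) ^ 2 * L *
          ((N : ℝ) * ((N : ℝ) ^ (η0 / 10)) ^ 2 * (N : ℝ) ^ (-(2 / 5 * η0))) := by
        field_simp
    _ ≤ C0 * 10000 * (10 / η0) ^ 2 * (l : ℝ) ^ 2 * L * (N : ℝ) ^ (1 - η) := by gcongr
    _ ≤ _ := by
        apply mul_le_mul_of_nonneg_right _ (by positivity)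
        apply mul_le_mul_of_nonneg_right _ (by positivity)
        apply mul_le_mul_of_nonneg_right _ (by positivity)
        linarith

end Pool.Agent.TH899.UG
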