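import Pool.Agent.TH899.UG.Bc
import Pool.Agent.H442R2.BX.Bb
import Pool.Agent.H442R2.BX.Co

/-! All classes modulo `q` and all boxes, with an auxiliary odd number `l` coprime to `q`; the
modulus `q` may be even. -/

namespace Pool.Agent.TH899.UG

open Finset
open Pool.Agent.H442R2
open Pool.Agent.H442R2.KF
open Pool.Agent.H442R2.BX

open TaskBB in
theorem cl_cof' {q Q : ℕ} {c : ℕ → ℝ} (h : CofO Q c) (r : ℕ) : CofO Q (cl q c r) := by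
  refine ⟨fun d => ?_, fun d hd => ?_⟩
  · unfold cl
    split_ifs
    · exact h.bd d
    · simp
  · unfold cl at hd
    by_cases h1 : d % q = r
    · rw [if_pos h1] at hd
      exact h.cop d hd
    · rw [if_neg h1] at hd
      exact absurd rfl hd

/-- BB with the auxiliary number -/
def St_BBl : Prop := ∀ θ : ℝ, θ < 14 / 27 → ∃ (η C : ℝ), 0 < η ∧ 0 < C ∧ ∀ (N q i k l : ℕ), 3 ≤ N →
    1 ≤ q → 3 ≤ l → Odd l → Nat.Coprime q l →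
    (2 : ℝ) ^ i ≤ (N : ℝ) ^ θ → (2 : ℝ) ^ k ≤ (N : ℝ) ^ θ →
    ∀ (a a' σ : ℤ), |(a : ℝ)| ≤ N → |(a' : ℝ)| ≤ N → a ≠ a' → (σ = 1 ∨ σ = -1) →
    ∀ c c' : ℕ → ℝ, CofO (q * l) c → CofO (q * l) c' →
    ‖∑ j ∈ Icc 1 (JB N i k), ∑ d ∈ bx q i,
      ∑ d' ∈ (Ioc (2 ^ k) (2 ^ (k + 1))).filter (fun d' => Nat.Coprime d d'),
        trB N a a' q σ c c' j d d'‖ ≤
      C * (q : ℝ) ^ 2 * (l : ℝ) ^ 2 * (2 : ℝ) ^ (max i k - min i k) * (N : ℝ) ^ (1 - η)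

/-- CO with the auxiliary number -/
def St_COl : Prop := ∀ θ : ℝ, θ < 14 / 27 → ∃ (ε₀ η C : ℝ), 0 < ε₀ ∧ 0 < η ∧ 0 < C ∧
    ∀ (N q D0 X l : ℕ), 2 ≤ N → 1 ≤ q → 3 ≤ l → Odd l → Nat.Coprime q l →
    (q : ℝ) ≤ (N : ℝ) ^ ε₀ → (l : ℝ) ≤ (N : ℝ) ^ ε₀ → (X : ℝ) ≤ (N : ℝ) ^ θ →
    1 ≤ D0 → (X : ℝ) ≤ (N : ℝ) ^ ε₀ * D0 →
    ∀ (a a' : ℤ), |(a : ℝ)| ≤ N → |(a' : ℝ)| ≤ N → a ≠ a' →
    ∀ c c' : ℕ → ℝ, CofO (q * l) c → CofO (q * l) c' →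
    |∑ d ∈ Ioc D0 X, ∑ d' ∈ (Ioc D0 X).filter (fun d' => Nat.Coprime d d'), c d * c' d' *
      (SE N a a' q d d' - N / (q * d * d'))| ≤ C * (N : ℝ) ^ (1 - η)

open TaskBB in
theorem BBl (hBC : St_BCl) : St_BBl := by
  intro θ hθ
  obtain ⟨η, C, hη, hC, h⟩ := hBC θ hθ
  refine ⟨η, C, hη, hC, ?_⟩
  intro N q i k l hN hq hl3 hlo hql hi hk a a' σ ha ha' hne hσ c c' hc hc'
  have key : T N q i k a a' σ c c' =
      ∑ r ∈ range q, ∑ r' ∈ range q, T N q i k a a' σ (cl q c r) (cl q c' r') := by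
    conv_lhs => rw [← cl_sum q hq c, ← cl_sum q hq c']
    rw [T_left]
    refine Finset.sum_congr rfl fun r _ => ?_
    rw [T_right]
  have hb : ∀ r r', ‖T N q i k a a' σ (cl q c r) (cl q c' r')‖ ≤
      C * (l : ℝ) ^ 2 * (2 : ℝ) ^ (max i k - min i k) * (N : ℝ) ^ (1 - η) := fun r r' =>
    h N q i k l hN hq hl3 hlo hql hi hk a a' σ ha ha' hne hσ (cl q c r) (cl q c' r')
      (cl_cof' hc r) (cl_cof' hc' r') r r' (fun d hd => cl_mod q c r d hd)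
      (fun d hd => cl_mod q c' r' d hd)
  show ‖T N q i k a a' σ c c'‖ ≤ _
  rw [key]
  calc ‖∑ r ∈ range q, ∑ r' ∈ range q, T N q i k a a' σ (cl q c r) (cl q c' r')‖
      ≤ ∑ r ∈ range q, ∑ r' ∈ range q,
          C * (l : ℝ) ^ 2 * (2 : ℝ) ^ (max i k - min i k) * (N : ℝ) ^ (1 - η) :=
        norm_sum_le_of_le _ fun r _ => norm_sum_le_of_le _ fun r' _ => hb r r'
    _ = C * (q : ℝ) ^ 2 * (l : ℝ) ^ 2 * (2 : ℝ) ^ (max i k - min i k) * (N : ℝ) ^ (1 - η) := by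
        rw [Finset.sum_const, Finset.sum_const, Finset.card_range, nsmul_eq_mul, nsmul_eq_mul]
        ring


open TaskCO in
/-- CO with the auxiliary number -/
theorem COl (hBB : St_BBl) (hSV : St_SV) : St_COl := by
  intro θ hθ
  obtain ⟨θ₁, hθ₁⟩ : ∃ θ₁ : ℝ, θ₁ = max θ (1 / 2) := ⟨_, rfl⟩
  have h1 : θ ≤ θ₁ := hθ₁ ▸ le_max_left _ _
  have h2 : 1 / 2 ≤ θ₁ := hθ₁ ▸ le_max_right _ _
  have h3 : θ₁ < 14 / 27 := by rw [hθ₁]; exact max_lt hθ (by norm_num)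
  obtain ⟨θ', hθ'⟩ : ∃ θ' : ℝ, θ' = (θ₁ + 14 / 27) / 2 := ⟨_, rfl⟩
  have h4 : θ₁ < θ' := by rw [hθ']; linarith
  have h5 : θ' < 14 / 27 := by rw [hθ']; linarith
  obtain ⟨η₁, C₁, hη₁, hC₁, hBB'⟩ := hBB θ' h5
  obtain ⟨N₀, hSV'⟩ := hSV
  obtain ⟨η₂, hη₂⟩ : ∃ η₂ : ℝ, η₂ = min η₁ 1 := ⟨_, rfl⟩
  have h6 : 0 < η₂ := by rw [hη₂]; exact lt_min hη₁ one_pos
  have h7 : η₂ ≤ η₁ := hη₂ ▸ min_le_left _ _
  have h8 : η₂ ≤ 1 := hη₂ ▸ min_le_right _ _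
  obtain ⟨ε₀, hε₀⟩ : ∃ ε₀ : ℝ, ε₀ = min (θ' - θ₁) (η₂ / 32) := ⟨_, rfl⟩
  have h9 : 0 < ε₀ := by rw [hε₀]; exact lt_min (by linarith) (by positivity)
  have h10 : ε₀ ≤ θ' - θ₁ := hε₀ ▸ min_le_left _ _
  have h11 : ε₀ ≤ η₂ / 32 := hε₀ ▸ min_le_right _ _
  obtain ⟨C₂, hC₂, hclog⟩ := clog_le (η₂ / 8) (by positivity)
  obtain ⟨K₀, hK₀⟩ : ∃ K₀ : ℝ, K₀ = ∑ N ∈ range (max N₀ 4),
    (N : ℝ) ^ 2 * ((∑' n : ℤ, Wt N n) + N) := ⟨_, rfl⟩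
  have hKterm : ∀ N : ℕ, 0 ≤ (N : ℝ) ^ 2 * ((∑' n : ℤ, Wt N n) + N) := by
    intro N
    have : 0 ≤ ∑' n : ℤ, Wt N n := tsum_nonneg fun n => (Real.exp_pos _).le
    positivity
  have hK₀' : 0 ≤ K₀ := by rw [hK₀]; exact sum_nonneg fun N _ => hKterm N
  refine ⟨ε₀, η₂ / 2, K₀ + C₂ ^ 2 * (2 + 4 * C₁), h9, by positivity, by positivity, ?_⟩
  intro N q D0 X l hN hq hl3 hlo hql hqN hlN hX hD hXD a a' ha ha' haa c c' hcl hcl'
  have hc : CofO q c := cofO_of hcl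
  have hc' : CofO q c' := cofO_of hcl'
  have hN1 : (1 : ℝ) ≤ N := by
    have : 1 ≤ N := by omega
    exact_mod_cast this
  have hN0 : (0 : ℝ) < N := by linarith
  have hX' : (X : ℝ) ≤ (N : ℝ) ^ θ₁ := hX.trans (Real.rpow_le_rpow_of_exponent_le hN1 h1)
  have hXN : X ≤ N := by
    have : (X : ℝ) ≤ (N : ℝ) ^ (1 : ℝ) :=
      hX'.trans (Real.rpow_le_rpow_of_exponent_le hN1 (by linarith))
    rw [Real.rpow_one] at this
    exact_mod_cast this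
  have hη : (1 : ℝ) ≤ (N : ℝ) ^ (1 - η₂ / 2) := Real.one_le_rpow hN1 (by linarith)
  have hC2' : 0 ≤ C₂ ^ 2 * (2 + 4 * C₁) := by positivity
  rcases lt_or_ge N (max N₀ 4) with hsm | hlg
  · have h12 := triv N (by omega) q D0 X hXN a a' hq c c' hc hc'
    have h13 : (N : ℝ) ^ 2 * ((∑' n : ℤ, Wt N n) + N) ≤ K₀ := by
      rw [hK₀]
      exact single_le_sum (f := fun N : ℕ => (N : ℝ) ^ 2 * ((∑' n : ℤ, Wt N n) + N))
        (fun N _ => hKterm N) (mem_range.2 hsm)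
    calc _ ≤ K₀ := h12.trans h13
      _ ≤ (K₀ + C₂ ^ 2 * (2 + 4 * C₁)) * 1 := by linarith
      _ ≤ _ := mul_le_mul_of_nonneg_left hη (by positivity)
  · have hNN₀ : N₀ ≤ N := (le_max_left _ _).trans hlg
    have hN4 : 4 ≤ N := (le_max_right _ _).trans hlg
    have hq1 : (1 : ℝ) ≤ q := by exact_mod_cast hq
    have hqX : (q : ℝ) * X ≤ (N : ℝ) ^ θ' := by
      calc (q : ℝ) * X ≤ (N : ℝ) ^ ε₀ * (N : ℝ) ^ θ₁ :=
            mul_le_mul hqN hX' (Nat.cast_nonneg _) (by positivity)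
        _ = (N : ℝ) ^ (ε₀ + θ₁) := (Real.rpow_add hN0 _ _).symm
        _ ≤ (N : ℝ) ^ θ' := Real.rpow_le_rpow_of_exponent_le hN1 (by linarith)
    have hTN : (N : ℝ) ^ θ' ≤ N := by
      have : (N : ℝ) ^ θ' ≤ (N : ℝ) ^ (1 : ℝ) :=
        Real.rpow_le_rpow_of_exponent_le hN1 (by linarith)
      rwa [Real.rpow_one] at this
    have hqXN : q * X ≤ N := by exact_mod_cast hqX.trans hTN
    have hL : q * X ≤ 2 ^ (Nat.clog 2 N) := hqXN.trans (Nat.le_pow_clog (by norm_num) _)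
    rw [boxes q D0 X (Nat.clog 2 N) hq hD hL c c'
      (fun d d' => SE N a a' q d d' - N / (q * d * d'))]
    -- restricted coefficients
    have hr : ∀ (q : ℕ) (b : ℕ → ℝ), CofO q b →
        CofO q (fun d => if d ∈ Ioc D0 X then b d else 0) := by
      intro q b hb
      refine ⟨fun d => ?_, fun d hd => ?_⟩
      · by_cases h : d ∈ Ioc D0 X
        · simp only [if_pos h]; exact hb.bd d
        · simp only [if_neg h]; simp
      · by_cases h : d ∈ Ioc D0 X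
        · simp only [if_pos h] at hd; exact hb.cop d hd
        · simp only [if_neg h] at hd; exact absurd rfl hd
    have hrs : ∀ b : ℕ → ℝ, ∀ d, (fun d => if d ∈ Ioc D0 X then b d else 0) d ≠ 0 →
        d ∈ Ioc D0 X := by
      intro b d hd
      by_contra h
      simp only [if_neg h] at hd
      exact hd rfl
    have hqN2 : (q : ℝ) ^ 2 ≤ (N : ℝ) ^ (2 * ε₀) := by
      calc (q : ℝ) ^ 2 ≤ ((N : ℝ) ^ ε₀) ^ 2 := pow_le_pow_left₀ (by positivity) hqN 2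
        _ = (N : ℝ) ^ (2 * ε₀) := by
            rw [← Real.rpow_natCast, ← Real.rpow_mul hN0.le]
            congr 1
            push_cast
            ring
    have hlN2 : (l : ℝ) ^ 2 ≤ (N : ℝ) ^ (2 * ε₀) := by
      calc (l : ℝ) ^ 2 ≤ ((N : ℝ) ^ ε₀) ^ 2 := pow_le_pow_left₀ (by positivity) hlN 2
        _ = (N : ℝ) ^ (2 * ε₀) := by
            rw [← Real.rpow_natCast, ← Real.rpow_mul hN0.le]
            congr 1
            push_cast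
            ring
    have hRR : (q : ℝ) * X ≤ (N : ℝ) ^ (2 * ε₀) * D0 := by
      calc (q : ℝ) * X ≤ (N : ℝ) ^ ε₀ * ((N : ℝ) ^ ε₀ * D0) :=
            mul_le_mul hqN hXD (Nat.cast_nonneg _) (by positivity)
        _ = ((N : ℝ) ^ ε₀ * (N : ℝ) ^ ε₀) * D0 := by ring
        _ = (N : ℝ) ^ (2 * ε₀) * D0 := by
            rw [← Real.rpow_add hN0]
            congr 2
            ring
    have hbox : ∀ i k : ℕ, |∑ d ∈ bx q i,
        ∑ d' ∈ (Ioc (2 ^ k) (2 ^ (k + 1))).filter (fun d' => Nat.Coprime d d'),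
        (if d ∈ Ioc D0 X then c d else 0) * (if d' ∈ Ioc D0 X then c' d' else 0) *
          (SE N a a' q d d' - N / (q * d * d'))| ≤ (2 + 4 * C₁) * (N : ℝ) ^ (1 - 3 * η₂ / 4) := by
      intro i k
      have h12 := box N hN4 (hSV' N hNN₀) ((N : ℝ) ^ θ') (C₁ * (q : ℝ) ^ 2 * (l : ℝ) ^ 2 * (N : ℝ) ^ (1 - η₁))
        q i k hq a a' _ _ (hr q c hc) (hr q c' hc')
        (fun hi hk σ hσ => by
          have := hBB' N q i k l (by omega) hq hl3 hlo hql hi hk a a' σ ha ha' haa hσ _ _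
            (hr _ c hcl) (hr _ c' hcl')
          refine this.trans (le_of_eq ?_)
          ring)
        D0 X hD (hrs c) (hrs c') hqX hTN (by positivity) ((N : ℝ) ^ (2 * ε₀)) hRR
      refine h12.trans ?_
      have h13 : C₁ * (q : ℝ) ^ 2 * (l : ℝ) ^ 2 * (N : ℝ) ^ (1 - η₁) * (N : ℝ) ^ (2 * ε₀) ≤
          C₁ * (N : ℝ) ^ (1 - 3 * η₂ / 4) := by
        calc C₁ * (q : ℝ) ^ 2 * (l : ℝ) ^ 2 * (N : ℝ) ^ (1 - η₁) * (N : ℝ) ^ (2 * ε₀) ≤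
            C₁ * (N : ℝ) ^ (2 * ε₀) * (N : ℝ) ^ (2 * ε₀) * (N : ℝ) ^ (1 - η₁) *
              (N : ℝ) ^ (2 * ε₀) := by gcongr
          _ = C₁ * ((N : ℝ) ^ (2 * ε₀) * (N : ℝ) ^ (2 * ε₀) * (N : ℝ) ^ (1 - η₁) *
              (N : ℝ) ^ (2 * ε₀)) := by ring
          _ = C₁ * (N : ℝ) ^ (2 * ε₀ + 2 * ε₀ + (1 - η₁) + 2 * ε₀) := by
              rw [← Real.rpow_add hN0, ← Real.rpow_add hN0, ← Real.rpow_add hN0]
          _ ≤ C₁ * (N : ℝ) ^ (1 - 3 * η₂ / 4) := by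
              refine mul_le_mul_of_nonneg_left ?_ hC₁.le
              exact Real.rpow_le_rpow_of_exponent_le hN1 (by linarith)
      have h14 : (1 : ℝ) ≤ (N : ℝ) ^ (1 - 3 * η₂ / 4) := Real.one_le_rpow hN1 (by linarith)
      nlinarith
    have hcl := hclog N hN
    have hcl0 : (0 : ℝ) ≤ ((Nat.clog 2 N : ℕ) : ℝ) := Nat.cast_nonneg _
    calc _ ≤ ∑ i ∈ range (Nat.clog 2 N), ∑ k ∈ range (Nat.clog 2 N),
          (2 + 4 * C₁) * (N : ℝ) ^ (1 - 3 * η₂ / 4) := by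
          refine (abs_sum_le_sum_abs _ _).trans (sum_le_sum fun i _ => ?_)
          refine (abs_sum_le_sum_abs _ _).trans (sum_le_sum fun k _ => ?_)
          exact hbox i k
      _ = ((Nat.clog 2 N : ℕ) : ℝ) * (((Nat.clog 2 N : ℕ) : ℝ) *
          ((2 + 4 * C₁) * (N : ℝ) ^ (1 - 3 * η₂ / 4))) := by
          rw [sum_const, sum_const, card_range, nsmul_eq_mul, nsmul_eq_mul]
      _ ≤ (C₂ * (N : ℝ) ^ (η₂ / 8)) * ((C₂ * (N : ℝ) ^ (η₂ / 8)) *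
          ((2 + 4 * C₁) * (N : ℝ) ^ (1 - 3 * η₂ / 4))) := by
          have h15 : 0 ≤ (2 + 4 * C₁) * (N : ℝ) ^ (1 - 3 * η₂ / 4) := by positivity
          refine mul_le_mul hcl (mul_le_mul_of_nonneg_right hcl h15) (by positivity)
            (by positivity)
      _ = C₂ ^ 2 * (2 + 4 * C₁) * ((N : ℝ) ^ (η₂ / 8) * (N : ℝ) ^ (η₂ / 8) *
          (N : ℝ) ^ (1 - 3 * η₂ / 4)) := by ring
      _ = C₂ ^ 2 * (2 + 4 * C₁) * (N : ℝ) ^ (1 - η₂ / 2) := by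
          rw [← Real.rpow_add hN0, ← Real.rpow_add hN0]
          congr 2
          ring
      _ ≤ (K₀ + C₂ ^ 2 * (2 + 4 * C₁)) * (N : ℝ) ^ (1 - η₂ / 2) := by
          refine mul_le_mul_of_nonneg_right (by linarith) (by positivity)


end Pool.Agent.TH899.UG
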