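import Mathlib
import Pool.Agent.TH899.UG.StmH

/-! Few collisions, uniformly in the constant terms. -/

set_option autoImplicit false

namespace Pool.Agent.TH899.UG

open Finset Filter Topology
open Pool.Agent.H410R2 hiding GP GP_prof GP_cut_some GP_cut_none GP_lip gg_pos gg_le_one gg_anti ee_bound ee_nonneg gg_lip LB_gg LB_ee Sums exists_sums yx wx wxi Br sum_GP_none sum_GP_some sum_GP_some_ee sum_GP_some_one sum_GPr_none sum_GPr_some S1_final QI_final S2_final w_abs_le wmax gg ee I1 I2 IE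
open Pool.Agent.H361R2.GM
open Pool.Agent.H362R2.CM
open Pool.Agent.W25.UN
open Pool.Agent.W25.UB

/-- (CC) few collisions -/
theorem clH (k : ℕ) (α : Fin k → ℤ) : ∃ C' : ℝ, ∀ᶠ N : ℕ in atTop, ∀ (h : Fin k → ℤ) (Mo : ℕ),
    HB h Mo N → Nd α h Mo → ((CL (uB α) (wB h Mo)).card : ℝ) ≤ C' * Real.log N := by
  set H : ℕ := ∑ i, (α i).natAbs + 2 with hH
  have hαH : ∀ i, (α i).natAbs ≤ H := by
    intro i
    have h1 : (α i).natAbs ≤ ∑ i, (α i).natAbs :=
      Finset.single_le_sum (f := fun i => (α i).natAbs) (fun j _ => Nat.zero_le _) (Finset.mem_univ i)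
    omega
  refine ⟨((k + 1 : ℕ) : ℝ) ^ 2 * (2 / Real.log 2), ?_⟩
  filter_upwards [eventually_ge_atTop (4 * H * (H + 1) + 2)] with N hN h Mo hMo hnd
  have hu : ∀ j : Option (Fin k), (uB α j).natAbs ≤ H := by
    rintro (_ | i)
    · show (1 : ℤ).natAbs ≤ H
      rw [Int.natAbs_one]; omega
    · exact hαH i
  have hw : ∀ j : Option (Fin k), (wB h Mo j).natAbs ≤ 2 * N + H := by
    rintro (_ | i)
    · show (0 : ℤ).natAbs ≤ 2 * N + H
      simp
    · show ((Mo : ℤ) + h i).natAbs ≤ 2 * N + H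
      have h1 := hMo i
      rw [Int.abs_eq_natAbs] at h1
      omega
  have hN2 : 2 ≤ N := by omega
  have hdet : ∀ j l : Option (Fin k), (uB α j * wB h Mo l - uB α l * wB h Mo j).natAbs ≤ N ^ 2 := by
    intro j l
    have h1 := Int.natAbs_sub_le (uB α j * wB h Mo l) (uB α l * wB h Mo j)
    rw [Int.natAbs_mul, Int.natAbs_mul] at h1
    have h2 := Nat.mul_le_mul (hu j) (hw l)
    have h3 := Nat.mul_le_mul (hu l) (hw j)
    have h4 : 2 * (H * (2 * N + H)) ≤ N ^ 2 := by nlinarith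
    omega
  -- number of prime factors of the product
  unfold CL
  set Pd : ℤ := ∏ j, ∏ l, if j = l then (1 : ℤ) else uB α j * wB h Mo l - uB α l * wB h Mo j with hPd
  have hPd0 : Pd ≠ 0 := by
    rw [hPd]
    refine Finset.prod_ne_zero_iff.2 fun j _ => Finset.prod_ne_zero_iff.2 fun l _ => ?_
    split_ifs with hjl
    · exact one_ne_zero
    · exact hnd j l hjl
  have hPdle : Pd.natAbs ≤ (N ^ 2) ^ ((k + 1) * (k + 1)) := by
    rw [hPd]
    have e1 : (∏ j, ∏ l, if j = l then (1 : ℤ) else uB α j * wB h Mo l - uB α l * wB h Mo j).natAbs =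
        ∏ j, ∏ l, (if j = l then (1 : ℤ) else uB α j * wB h Mo l - uB α l * wB h Mo j).natAbs := by
      have h1 : ∀ (ι : Type) (s : Finset ι) (f : ι → ℤ), (∏ i ∈ s, f i).natAbs =
          ∏ i ∈ s, (f i).natAbs := fun ι s f => map_prod Int.natAbsHom f s
      rw [h1]
      exact Finset.prod_congr rfl fun j _ => h1 _ _ _
    rw [e1]
    calc ∏ j : Option (Fin k), ∏ l : Option (Fin k),
          (if j = l then (1 : ℤ) else uB α j * wB h Mo l - uB α l * wB h Mo j).natAbs
        ≤ ∏ _j : Option (Fin k), ∏ _l : Option (Fin k), N ^ 2 := by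
          refine Finset.prod_le_prod' fun j _ => Finset.prod_le_prod' fun l _ => ?_
          split_ifs
          · rw [Int.natAbs_one]; exact Nat.one_le_pow _ _ (by omega)
          · exact hdet j l
      _ = (N ^ 2) ^ ((k + 1) * (k + 1)) := by
          simp only [Finset.prod_const, Finset.card_univ, Fintype.card_option, Fintype.card_fin]
          rw [← pow_mul]
  have h1 := Pool.Agent.W293.UN.Cc.card_pf Pd.natAbs (Int.natAbs_ne_zero.2 hPd0)
  refine h1.trans ?_
  have hN0 : (0 : ℝ) < N := by exact_mod_cast (by omega : 0 < N)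
  have h2 : Real.log (Pd.natAbs : ℝ) ≤ ((k + 1 : ℕ) : ℝ) ^ 2 * (2 * Real.log N) := by
    have h3 : (Pd.natAbs : ℝ) ≤ ((N : ℝ) ^ 2) ^ ((k + 1) * (k + 1)) := by exact_mod_cast hPdle
    have h4 : (0 : ℝ) < (Pd.natAbs : ℝ) := by
      exact_mod_cast Int.natAbs_pos.2 hPd0
    have h5 := Real.log_le_log h4 h3
    rw [Real.log_pow, Real.log_pow] at h5
    refine h5.trans (le_of_eq ?_)
    push_cast
    ring
  have hl2 : 0 < Real.log 2 := Real.log_pos (by norm_num)
  rw [div_le_iff₀ hl2]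
  refine h2.trans (le_of_eq ?_)
  field_simp


end Pool.Agent.TH899.UG
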