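import Pool.Agent.TH899.UG.Vln
import Pool.Agent.W565.UB.Dat
import Pool.Agent.TH899.UG.Dat
import Pool.Agent.TH899.UG.VlnH

/-! Existence of the data for general linear forms. -/

set_option autoImplicit false

namespace Pool.Agent.TH899.UG

open Finset Filter Topology
open Pool.Agent.H410R2 hiding GP GP_prof GP_cut_some GP_cut_none GP_lip gg_pos gg_le_one gg_anti ee_bound ee_nonneg gg_lip LB_gg LB_ee Sums exists_sums yx wx wxi Br sum_GP_none sum_GP_some sum_GP_some_ee sum_GP_some_one sum_GPr_none sum_GPr_some S1_final QI_final S2_final w_abs_le wmax gg ee I1 I2 IE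
open Pool.Agent.H361R2.GM
open Pool.Agent.H362R2.CM
open Pool.Agent.W25.UN
open Pool.Agent.W25.UB
open Pool.Agent.W565.UB Pool.Agent.W565.UB.Dat

theorem datH (hBPS : St_BPS) (hFLC : St_FLC2) (hSEL : St_SEL) (hVG : St_VG) (hSUM : St_SUM)
    (hMAS : St_MASH) (hRCB : St_RCBF) (hVLN : St_VLNF) (hNWL : St_NWL)
    (hSd : SdLZ) : St_DATH := by
  intro ε₀ η he0 he0' hη hη' hR2 η₀ hη0 h16 h16'
  obtain ⟨εf, hεf, hFL⟩ := hFLC η₀ hη0
  refine ⟨min εf (1 / 2), lt_min hεf (by norm_num), ?_⟩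
  intro ε₁ h1 h1'
  have h1f : ε₁ ≤ εf := h1'.trans (min_le_left _ _)
  have h12 : ε₁ ≤ 1 / 2 := h1'.trans (min_le_right _ _)
  obtain ⟨C1, hC1, hRC⟩ := hRCB ε₁ h1 (by linarith)
  refine ⟨C1, hC1, ?_⟩
  intro k Q ρ ρ₁ ε hk hρ hρρ hρ₁ h3ρ hε hε3 hI1 hI2
  obtain ⟨E, hM⟩ := hMAS ε₀ η he0 he0' hη hη' hR2 k
  obtain ⟨m, hprod⟩ := prods_le 4 (by norm_num)
  have hM1 : (1 : ℝ) ≤ 3 ^ ⌈2 / ε₁⌉₊ := one_le_pow₀ (by norm_num)
  refine ⟨max 6 (E + 2 * (m * 6) + 12), le_max_left _ _, ?_⟩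
  intro B hB D hD α hα hαD
  have hB6 : 6 ≤ B := (le_max_left _ _).trans hB
  have hBE : E + 2 * (m * 6) + 12 ≤ B := (le_max_right _ _).trans hB
  have hD8 : 8 ≤ D := by omega
  have hρ1 : ρ₁ ≤ 1 / 4 := by linarith
  obtain ⟨C', hCev⟩ := clH k α
  have eS := hSUM Q (k + 1) ε ρ ρ₁ (|C'| + 1) B hε hρ hρρ (by omega)
  have eM := hM ε₁ η₀ (3 * ρ) (3 ^ ⌈2 / ε₁⌉₊) 12 (m * 6) B D α h1 (by linarith) hη0
    (by linarith) (by linarith) (by linarith) h16 h16' hM1 hBE hD hα hαD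
  have eV := hVLN k B D ε₁ ρ (by omega) hD h1 (by linarith) hρ
  have eV10 := hVLN k B D ε₁ (ρ / 10) (by omega) hD h1 (by linarith) (by linarith)
  obtain ⟨N1, hBP⟩ := hBPS k (B + 1) 2 η₀ hη0
  obtain ⟨N2, hFL2⟩ := hFL ε₁ h1 h1f B hB6
  obtain ⟨L₀, hL₀⟩ : ∃ L₀ : ℝ, 0 < Br2 Q k ε → ∀ (L b : ℝ) (D' : ℕ) (P : Finset ℕ) (i j : Fin k)
    (Lf : Option (Fin k) → ℕ → ℕ), SieveData (IP P) (Option (Fin k)) (prP P) Lf 1 →
    L₀ ≤ L → L ^ 2 ≤ (D' : ℝ) → (∀ p ∈ P, p.Prime ∧ D' < p) → 0 < BD D' → b = BD D' * L →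
    SumsN Q D' ε (k + 1) L P → i ≠ j →
    (1 - ε) ^ 4 * (b * (Q.I1 - ε)) ^ 4 / (b * (1 + ε)) ^ 2 * (b * (1 - ε)) *
      (b / 48 * b ^ (k - 2) * Br2 Q k ε) ≤ Q1f (prP P) (cw (prP P) (zB Q k P L i j)) := by
    by_cases hb : 0 < Br2 Q k ε
    · obtain ⟨L₀, hL⟩ := hNWL k Q ε hε hε3 hI1 hI2 hb
      exact ⟨L₀, fun _ => hL⟩
    · exact ⟨0, fun h => absurd h hb⟩
  filter_upwards [hCev, eS, eM, eV, eV10, hRC D (by omega), hprod, zf_ev ε₀ he0 he0',
    eventually_ge_atTop N1, eventually_ge_atTop N2, eventually_ge_atTop 64, evlog 2,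
    evlog (1 / ε), evlog (L₀ / ρ), evlog (96 * ((WW D / 2 : ℕ) : ℝ) / ε), evlog (|C'| + 1),
    evlog ((2 : ℝ) ^ B)] with N hC hS hMa hV hV10 hRc hPr hZ hN1 hN2 hN64 hl2 hlε hlL hlW
      hlC hlB h Mo hMoN hnd v
  have hC := hC h Mo hMoN hnd
  have hMa := hMa h Mo hMoN hnd
  have hV := hV α h Mo hα hαD
  have hV10 := hV10 α h Mo hα hαD
  have hN1r : (64 : ℝ) ≤ N := by exact_mod_cast hN64
  have hN0 : (0 : ℝ) < N := by linarith only [hN1r]
  have hc2 : ((2 * N : ℕ) : ℝ) = 2 * (N : ℝ) := by push_cast; ring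
  have h2N : (1 : ℝ) < ((2 * N : ℕ) : ℝ) := by rw [hc2]; linarith only [hN1r]
  have h2N0 : (0 : ℝ) < ((2 * N : ℕ) : ℝ) := by linarith only [h2N]
  have hll : Real.log N ≤ Real.log ((2 * N : ℕ) : ℝ) :=
    Real.log_le_log hN0 (by rw [hc2]; linarith only [hN1r])
  have hll2 : Real.log ((2 * N : ℕ) : ℝ) ≤ 2 * Real.log N := by
    rw [hc2, Real.log_mul (by norm_num) hN0.ne']
    have h3 := Real.log_two_lt_d9
    linarith only [h3, hl2]
  have hl1 : 1 ≤ Real.log N := by linarith only [hl2]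
  have hl0 : 0 < Real.log N := by linarith only [hl2]
  -- the sets
  set z : ℕ := ⌊((2 * N : ℕ) : ℝ) ^ (1 / 4 + ε₀ / 8)⌋₊ with hz
  obtain ⟨hVa, hVb, hVc, hVd, hVe, hVf, hVg, hVh⟩ := hV
  obtain ⟨hg1, hg2, hg3, hg4⟩ := hVg (CL (uB α) (wB h Mo))
  have hcard : ((CL (uB α) (wB h Mo)).card : ℝ) ≤ (|C'| + 1) * Real.log N - 1 := by
    have h3 : C' * Real.log N ≤ |C'| * Real.log N := by
      have := le_abs_self C'
      gcongr
    have h4 := hC
    linarith only [h3, h4, hl1]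
  have hcard2 : ((CL (uB α) (wB h Mo)).card : ℝ) ≤ (Real.log ((2 * N : ℕ) : ℝ)) ^ 2 := by
    have h3 : (|C'| + 1) * Real.log N ≤ Real.log N * Real.log N := by gcongr
    have h4 : Real.log N * Real.log N ≤ (Real.log ((2 * N : ℕ) : ℝ)) ^ 2 := by
      rw [pow_two]
      gcongr
    linarith only [h3, h4, hcard]
  have hgd : ∀ p ∈ PtF α h Mo N B ε₁, Gd (uB α) (wB h Mo) p ∧ DB (2 * N) B < p ∧
      (p : ℝ) ≤ ((2 * N : ℕ) : ℝ) ^ ε₁ := by
    intro p hp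
    obtain ⟨hp1, hp2, hp3⟩ := hg1 p hp
    have hpC : p ∉ CL (uB α) (wB h Mo) := by
      unfold PtF at hp
      exact (Finset.mem_sdiff.1 hp).2
    refine ⟨⟨hp1, by omega, fun j => uB_ndvdF hα hαD hp1 (by omega) j, ?_⟩, hp2, hp3.le⟩
    intro j l hjl
    exact CL_ndvd hnd hp1 hpC j l hjl
  have hexp : Real.exp (ρ₁ * Real.log N) < ((2 * N : ℕ) : ℝ) ^ ε₁ := by
    rw [Real.rpow_def_of_pos h2N0]
    apply Real.exp_lt_exp.2
    have h3 : ρ₁ * Real.log N ≤ ε₁ / 2 * Real.log N := by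
      have : ρ₁ ≤ ε₁ / 2 := by linarith only [hρ₁]
      gcongr
    have h4 : ε₁ / 2 * Real.log N < ε₁ * Real.log N := by
      have h8 : 0 < ε₁ / 2 * Real.log N := by positivity
      linarith only [h8]
    have h5 : ε₁ * Real.log N ≤ ε₁ * Real.log ((2 * N : ℕ) : ℝ) := by gcongr
    linarith only [h3, h4, h5]
  have hsub : PBF α h Mo N B ρ₁ ⊆ PtF α h Mo N B ε₁ := by
    intro p hp
    rw [PBF_mem] at hp
    exact hg2 p hp.1 hp.2.1 (lt_of_le_of_lt hp.2.2.1 hexp) hp.2.2.2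
  have hPBp : ∀ p ∈ PBF α h Mo N B ρ₁, p.Prime ∧ DB (2 * N) B < p := by
    intro p hp
    rw [PBF_mem] at hp
    exact ⟨hp.1, hp.2.1⟩
  have hsums := ((hS (CL (uB α) (wB h Mo)) (PBF α h Mo N B ρ₁) (by linarith only [hcard]) hPBp).1 (by
    intro p hp1 hp2 hp3 hp4
    rw [PBF_mem]
    exact ⟨hp1, hp2, hp3, hp4⟩)).1
  have hbd0 : 0 < BD (DB (2 * N) B) := BD_pos _
  have hb10 : 10 ≤ bb N B ρ := by
    obtain ⟨_, _, _, _, _, h10, _⟩ := hV10
    unfold bb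
    have e : BD (DB (2 * N) B) * (ρ / 10 * Real.log N) =
      (BD (DB (2 * N) B) * (ρ * Real.log N)) / 10 := by ring
    rw [e] at h10
    linarith only [h10]
  have hPBne : (PBF α h Mo N B ρ₁).Nonempty := by
    by_contra hne
    rw [Finset.not_nonempty_iff_eq_empty] at hne
    have h5 := hsums.l5
    rw [hne, SS_empty _ _ (by positivity)] at h5
    have h6 : bb N B ρ * (1 - ε) ≤ 1 := h5
    nlinarith only [h6, hb10, hε3]
  have hsd := hSd k (uB α) (wB h Mo) (PBF α h Mo N B ρ₁) (fun p hp => (hPBp p hp).1)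
    (fun p hp j => uB_ndvdF hα hαD (hPBp p hp).1 (lt_of_le_of_lt hVa (hPBp p hp).2) j)
    (fun p hp j l hjl => (hgd p (hsub hp)).1.2.2.2 j l hjl)
  -- the presieve
  have hDBle : (DB (2 * N) B : ℝ) ≤ (Real.log N) ^ (B + 1) := by
    refine hVc.trans ?_
    calc (Real.log ((2 * N : ℕ) : ℝ)) ^ B ≤ (2 * Real.log N) ^ B :=
          pow_le_pow_left₀ (hl0.le.trans hll) hll2 B
      _ = 2 ^ B * (Real.log N) ^ B := by rw [mul_pow]
      _ ≤ Real.log N * (Real.log N) ^ B := by gcongr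
      _ = _ := by ring
  obtain ⟨Tr, t, hEx, hTr0, hTr1, ht⟩ := hBP N hN1 (uB α) (wB h Mo) D (DB (2 * N) B) hD hVa hDBle
    (fun p hp hDp j => uB_ndvdF hα hαD hp hDp j)
  have ht' : |t - Pool.Agent.W25.UN.VV α h Mo D (DB (2 * N) B)| ≤ 1 / (Real.log N) ^ 2 := ht
  have hVp : 0 < Pool.Agent.W25.UN.VV α h Mo D (DB (2 * N) B) :=
    lt_of_lt_of_le (by positivity) hVd
  have ht1 : |t - Pool.Agent.W25.UN.VV α h Mo D (DB (2 * N) B)| ≤
      ε * Pool.Agent.W25.UN.VV α h Mo D (DB (2 * N) B) := by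
    refine ht'.trans ?_
    have h3 : 1 / (Real.log N) ^ 2 ≤ ε * (1 / Real.log N) := by
      rw [div_le_iff₀ hε] at hlε
      rw [mul_one_div, div_le_div_iff₀ (by positivity) hl0]
      nlinarith only [hlε, hl0]
    refine h3.trans ?_
    gcongr
  have ht2 : |t| ≤ 2 := by
    have h3 : 1 / (Real.log N) ^ 2 ≤ 1 := by
      rw [div_le_one (by positivity)]
      exact one_le_pow₀ hl1
    have h4 := abs_le.1 (ht'.trans h3)
    have h5 := h4.1
    have h6 := h4.2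
    rw [abs_le]
    constructor
    · linarith only [h5, h6, hVp, hVe]
    · linarith only [h5, h6, hVp, hVe]
  -- the fundamental lemma
  obtain ⟨th, dl, hth, hdl, hfl, hht, hhd⟩ := hFL2 (2 * N) (by omega)
    ⌊((2 * N : ℕ) : ℝ) ^ η₀⌋₊ rfl (CL (uB α) (wB h Mo)) hcard2
  -- Selberg weights
  have hPbm : ∀ p ∈ PbF α h Mo N z ε₁, p.Prime ∧ p ≤ z ∧ ((2 * N : ℕ) : ℝ) ^ ε₁ < (p : ℝ) ∧
      p ∉ CL (uB α) (wB h Mo) := fun p hp => (PbF_mem α h Mo N z ε₁ p).1 hp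
  obtain ⟨b, hb0, hbo, hbc, hb3, hbs, hbsum⟩ := hSEL (PbF α h Mo N z ε₁) z hZ.one
    (fun p hp => (hPbm p hp).1)
  obtain ⟨hG1, hG2⟩ := hVh (PbF α h Mo N z ε₁) z hZ.one
    (fun p hp => ⟨(hPbm p hp).1, (hPbm p hp).2.1.trans hZ.z4⟩)
  have hbM : RCM (CL (uB α) (wB h Mo)) (((2 * N : ℕ) : ℝ) ^ ε₁) (z ^ 2) (3 ^ ⌈2 / ε₁⌉₊) b := by
    have hsupp : ∀ d, b d ≠ 0 → 1 ≤ d ∧ d ≤ z ^ 2 ∧ ∀ p : ℕ, p.Prime → p ∣ d →
        ((2 * N : ℕ) : ℝ) ^ ε₁ < (p : ℝ) ∧ p ∉ CL (uB α) (wB h Mo) := by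
      intro d hd
      have h3 := hbs d hd
      obtain ⟨h3c, h3d, _, h3b⟩ := sq_mem _ _ _ h3
      refine ⟨h3c, h3d, fun p hp hpd => ?_⟩
      have h4 := hPbm p (h3b p hp hpd)
      exact ⟨h4.2.2.1, h4.2.2.2⟩
    refine ⟨fun d => ?_, hsupp⟩
    by_cases hd : b d = 0
    · rw [hd, abs_zero]
      positivity
    · obtain ⟨s1, s2, s3⟩ := hsupp d hd
      refine (hb3 d).trans ?_
      have h4 := omega_rough N d ε₁ (by omega) h1 s1 (s2.trans hZ.z5)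
        (fun p hp hpd => (s3 p hp hpd).1)
      have h5 : (3 : ℝ) ^ d.primeFactors.card ≤ 3 ^ ⌈2 / ε₁⌉₊ :=
        pow_le_pow_right₀ (by norm_num) h4
      exact_mod_cast h5
  have hV0 : 0 < Pool.Agent.W23.PL.VV (PtF α h Mo N B ε₁) := lt_of_lt_of_le (by positivity) hg3
  have hG0 : 0 < GG (PbF α h Mo N z ε₁) z := by linarith only [hG1]
  have hvg4 : 1 / (Real.log N) ^ 4 ≤ vGF α h Mo N B z ε₁ := by
    unfold vGF
    rw [le_div_iff₀ hG0]
    calc 1 / (Real.log N) ^ 4 * GG (PbF α h Mo N z ε₁) z ≤ 1 / (Real.log N) ^ 4 * (Real.log N) ^ 2 := by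
          gcongr
      _ = 1 / (Real.log N) ^ 2 := by field_simp
      _ ≤ _ := hg3
  have hvg0 : 0 ≤ vGF α h Mo N B z ε₁ := le_trans (by positivity) hvg4
  -- the comparison
  have hdisj : Disjoint (PbF α h Mo N z ε₁) (PtF α h Mo N B ε₁) := by
    rw [Finset.disjoint_left]
    intro p hp hp'
    have h3 := (hPbm p hp).2.2.1
    have h4 := (hg1 p hp').2.2
    linarith only [h3, h4]
  have hDBe : (DB (2 * N) B : ℝ) < ((2 * N : ℕ) : ℝ) ^ ε₁ := by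
    obtain ⟨p, hp⟩ := hPBne
    have h3 := hg1 p (hsub hp)
    have h4 : (DB (2 * N) B : ℝ) < p := by exact_mod_cast h3.2.1
    exact h4.trans h3.2.2
  have hunp : ∀ p ∈ PbF α h Mo N z ε₁ ∪ PtF α h Mo N B ε₁, p.Prime ∧ DB (2 * N) B < p := by
    intro p hp
    rw [Finset.mem_union] at hp
    rcases hp with hp | hp
    · refine ⟨(hPbm p hp).1, ?_⟩
      have h3 : (DB (2 * N) B : ℝ) < p := hDBe.trans (hPbm p hp).2.2.1
      exact_mod_cast h3
    · exact ⟨(hg1 p hp).1, (hg1 p hp).2.1⟩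
  obtain ⟨hvg1, hvg2⟩ := hVG (PbF α h Mo N z ε₁) (PtF α h Mo N B ε₁) z hZ.one
    (fun p hp => (hunp p hp).1) hdisj
  have hS2 := (hS (insert ⌊((2 * N : ℕ) : ℝ) ^ ε₁⌋₊ (CL (uB α) (wB h Mo)))
    (PbF α h Mo N z ε₁ ∪ PtF α h Mo N B ε₁) (by
      have h3 : ((insert ⌊((2 * N : ℕ) : ℝ) ^ ε₁⌋₊ (CL (uB α) (wB h Mo))).card : ℝ) ≤
          (CL (uB α) (wB h Mo)).card + 1 := by exact_mod_cast Finset.card_insert_le _ _
      linarith only [h3, hcard]) hunp).2 z hZ.e8 hZ.z4 (by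
      intro p hp1 hp2 hp3 hp4
      rw [Finset.mem_insert, not_or] at hp4
      rw [Finset.mem_union]
      rcases lt_trichotomy (p : ℝ) (((2 * N : ℕ) : ℝ) ^ ε₁) with h3 | h3 | h3
      · right
        exact hg2 p hp1 hp2 h3 hp4.2
      · exact absurd (by rw [← h3, Nat.floor_natCast]) hp4.1
      · left
        rw [PbF_mem]
        exact ⟨hp1, hp3, h3, hp4.2⟩)
  have hvg : vGF α h Mo N B z ε₁ * bb N B ρ * ((1 / 4 + ε₀ / 8) * (1 - ε)) ≤ ρ := by
    set S := SS (PbF α h Mo N z ε₁ ∪ PtF α h Mo N B ε₁) h0 1 (Real.log z) (fun _ => 1) with hSd'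
    have h3 : bb N B ρ * ((1 / 4 + ε₀ / 8) * (1 - ε)) ≤ ρ * S := by
      calc bb N B ρ * ((1 / 4 + ε₀ / 8) * (1 - ε)) =
            ρ * (BD (DB (2 * N) B) * ((1 / 4 + ε₀ / 8) * Real.log N) * (1 - ε)) := by
            unfold bb; ring
        _ ≤ ρ * (BD (DB (2 * N) B) * Real.log z * (1 - ε)) := by
            have h4 := hZ.lg
            have h5 : 0 ≤ 1 - ε := by linarith only [hε3]
            gcongr
        _ ≤ ρ * S := by gcongr
    calc vGF α h Mo N B z ε₁ * bb N B ρ * ((1 / 4 + ε₀ / 8) * (1 - ε)) =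
          vGF α h Mo N B z ε₁ * (bb N B ρ * ((1 / 4 + ε₀ / 8) * (1 - ε))) := by ring
      _ ≤ vGF α h Mo N B z ε₁ * (ρ * S) := by gcongr
      _ ≤ (1 / S) * (ρ * S) := by
          have h4 : vGF α h Mo N B z ε₁ ≤ 1 / S := hvg1
          have h5 : 0 < S := hvg2
          gcongr
      _ = ρ := by
          have h5 : 0 < S := hvg2
          field_simp
  have hgdU : ∀ p ∈ PBF α h Mo N B ρ₁ ∪ PtF α h Mo N B ε₁, Gd (uB α) (wB h Mo) p ∧ DB (2 * N) B < p ∧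
      (p : ℝ) ≤ ((2 * N : ℕ) : ℝ) ^ ε₁ := by
    intro p hp
    rw [Finset.mem_union] at hp
    rcases hp with hp | hp
    · exact hgd p (hsub hp)
    · exact hgd p hp
  have hWt : ∀ (X : ℕ) (n : ℤ), 0 ≤ Pool.Agent.H442R2.KF.Wt X n := fun X n => (Real.exp_pos _).le
  have hD1 : 1 ≤ ⌊((2 * N : ℕ) : ℝ) ^ η₀⌋₊ := by
    apply Nat.le_floor
    rw [Nat.cast_one]
    exact Real.one_le_rpow h2N.le hη0.le
  refine ⟨3 ^ ⌈2 / ε₁⌉₊, 12, m * 6, ⌊((2 * N : ℕ) : ℝ) ^ η₀⌋₊, z, Tr, t, th, dl, b, ?_⟩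
  exact {
    k3 := hk
    α1 := hα
    N8 := by omega
    l1 := hl1
    ρ0 := hρ
    ε0 := hε
    ε3 := hε3
    e10 := h1
    e11 := h12
    M1 := hM1
    C11 := hC1
    W2 := WW_two D (by omega)
    sub := hsub
    ne := hPBne.mono hsub
    gd := hgdU
    sd := hsd
    sums := hsums
    low := by
      intro hbr i j hij
      refine hL₀ hbr (ρ * Real.log N) (bb N B ρ) (DB (2 * N) B) (PBF α h Mo N B ρ₁) i j _ hsd ?_ ?_
        hPBp hbd0 rfl hsums hij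
      · rw [div_le_iff₀ hρ] at hlL
        linarith only [hlL]
      · have h3 : (ρ * Real.log N) ^ 2 ≤ (Real.log N) ^ 2 := by
          apply pow_le_pow_left₀ (by positivity)
          nlinarith only [hl0, hρρ, hρ1]
        have h4 : (Real.log N) ^ 6 ≤ (Real.log ((2 * N : ℕ) : ℝ)) ^ B := by
          calc (Real.log N) ^ 6 ≤ (Real.log N) ^ B := pow_le_pow_right₀ hl1 hB6
            _ ≤ _ := pow_le_pow_left₀ hl0.le hll B
        have h5 : (Real.log N) ^ 2 + 1 ≤ (Real.log N) ^ 6 := by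
          have h6 : (4 : ℝ) ≤ (Real.log N) ^ 2 := by nlinarith only [hl2]
          have h7 : (Real.log N) ^ 6 = ((Real.log N) ^ 2) ^ 3 := by ring
          rw [h7]
          set q := (Real.log N) ^ 2 with hq
          have h8 : 16 * q ≤ q ^ 3 := by
            have h9 : 16 ≤ q ^ 2 := by nlinarith only [h6]
            have h10 : q ^ 3 = q ^ 2 * q := by ring
            rw [h10]
            have h11 : 0 ≤ q := by linarith only [h6]
            gcongr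
          linarith only [h8, h6]
        linarith only [h3, h4, h5, hVb]
    bd0 := hbd0
    b1 := hVf
    Tr0 := hTr0
    Tr1 := hTr1
    Vp := hVp
    t1 := ht1
    V0 := hV0
    V1 := hg4
    G1 := hG1
    vg := hvg
    dth := hth
    ddl := hdl
    fl := hfl
    hth := hht
    hdl := hhd
    D1 := hD1
    z1 := hZ.one
    z2 := hZ.z2
    z3 := hZ.z3
    bM := hbM
    bn := hb0
    bo := hbo
    bs := hbsum
    rcb := by
      intro j n hLf
      have hw : |((wB h Mo (some j) : ℤ) : ℝ)| ≤ 2 * N := by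
        have h3 : ((wB h Mo (some j) : ℤ) : ℝ) = (Mo : ℝ) + h j := by
          show (((Mo : ℤ) + h j : ℤ) : ℝ) = _
          push_cast; rfl
        rw [h3]
        have h4 := hMoN.real j
        linarith only [h4, hN0]
      have hu : |uB α (some j)| ≤ (D : ℤ) := by
        show |α j| ≤ (D : ℤ)
        rw [Int.abs_eq_natAbs]
        exact_mod_cast hαD j
      have h4 := hRc (PbF α h Mo N z ε₁) z (fun p hp => ⟨(hPbm p hp).1, (hPbm p hp).2.2.1⟩)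
        (uB α (some j)) (wB h Mo (some j)) n hu hw hLf
      have h5 := hbc (Lf α h Mo (some j) n)
      exact le_trans (mul_le_mul_of_nonneg_left h5 (hWt _ _)) h4
    size := by
      have h3 := hPr (PBF α h Mo N B ρ₁) (by
        intro p hp
        refine ⟨(hPBp p hp).1, ?_⟩
        rw [PBF_mem] at hp
        refine hp.2.2.1.trans ?_
        have h4 : ρ₁ * Real.log N ≤ Real.log N := by nlinarith only [hl0, hρ1]
        calc Real.exp (ρ₁ * Real.log N) ≤ Real.exp (Real.log N) := Real.exp_le_exp.2 h4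
          _ = N := Real.exp_log hN0)
      rw [pow_mul]
      apply pow_le_pow_left₀ _ h3
      apply Finset.prod_nonneg
      intro t _
      positivity
    mas := hMa v _ (PBF α h Mo N B ρ₁) (PtF α h Mo N B ε₁) Tr t rfl hgdU hEx ht2
    small := by
      have h3 := small_alg (Real.log N) N (Pool.Agent.W25.UN.VV α h Mo D (DB (2 * N) B))
        ((WW D / 2 : ℕ) : ℝ) (bb N B ρ) (vGF α h Mo N B z ε₁) ε k hl1 hN0.le hVd
        (by exact_mod_cast WW_two D (by omega)) hVf hvg4 hε hlW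
      unfold MMF
      have h4 : ((4 * N : ℕ) : ℝ) = 4 * (N : ℝ) := by push_cast; ring
      rw [h4, hc2]
      exact h3 }


end Pool.Agent.TH899.UG
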