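import Pool.Agent.TH899.UG.Stm
import Pool.Agent.W89.UBMAS

/-! The master formula for general linear forms. -/

set_option autoImplicit false

namespace Pool.Agent.TH899.UG

open Finset Filter Topology
open Pool.Agent.W25.UN Pool.Agent.W25.UB
open Pool.Agent.H362R2.CM (IP prP)
open Pool.Agent.H410R2 (mulc lgt WW)
open Pool.Agent.W23.PL (DW Ev hat)
open Pool.Agent.H442R2.KF (Wt)

open Pool.Agent.W89.UBMAS

variable {k : ℕ}

theorem masF (hEXM : St_EXM) (hGAU : St_GAU) (hFT3 : St_FT3) : St_MASF := by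
  intro ε₀ η hε₀ hε₀' hη hη' hR2 k
  obtain ⟨E₃, N₃, hFT⟩ := hFT3 k
  obtain ⟨m₁, hm₁⟩ := Pool.Agent.W494.UB.FT3.prods (18 * ((k : ℝ) + 2) ^ 2) (by positivity)
  refine ⟨E₃ + 3, ?_⟩
  intro ε₁ η₀ r M A E₁ B D α h hε₁ hε₁' hη₀ hr hr1 hr2 hη1 hη2 hM hB hD hα hDα
  obtain ⟨η₁, hη₁, hR'⟩ := hR2 (ε₁ / 2) (by linarith) (by linarith)
  obtain ⟨C, hC, hR⟩ := hR' D (by omega)
  obtain ⟨X₀, hX₀⟩ := hGAU (1 / 2) (by norm_num)
  have hT2 : Tendsto (fun N : ℕ => 2 * N) atTop atTop :=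
    tendsto_atTop_mono (fun n => by show n ≤ 2 * n; omega) tendsto_id
  filter_upwards [hT2.eventually hm₁, Pool.Agent.W494.UB.FT3.tlog 10,
    Pool.Agent.W494.UB.FT3.tlog (16 * M ^ 2), Pool.Agent.W494.UB.FT3.tlog (D + 1),
    grow 0 (ε₀ / 20) ((WW D / 2 : ℕ) : ℝ) (by positivity),
    grow (2 * E₁ + E₃) (η / 2) 1 (by positivity),
    grow (A + (2 * E₁ + m₁ + E₃ + 5)) η₁ (2 * M ^ 2 * C) hη₁, grow B ε₁ 1 hε₁,
    eventually_ge_atTop N₃, eventually_ge_atTop X₀, eventually_ge_atTop 16,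
    eventually_ge_atTop (4 * ∑ i, (h i).natAbs)]
    with N hprod hl10 hlM hlD hgW hgY hgE hgB hN3 hNX hN16 hNh
  intro Mo hMoN hnd v D₁ P Pt Tr t hD₁ hP hTr ht X Z c j j' th th' b b' hX hZ hjj' hc hcR hth hth' halt halt'
    hb hb'
  obtain ⟨hW1, hWo, hWs, hWp⟩ := ww_facts D (by omega)
  have hN0 : (16 : ℝ) ≤ N := by exact_mod_cast hN16
  have hTN : ((2 * N : ℕ) : ℝ) = 2 * N := by push_cast; ring
  have hT1 : (1 : ℝ) ≤ ((2 * N : ℕ) : ℝ) := by rw [hTN]; linarith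
  have hT0 : (0 : ℝ) < ((2 * N : ℕ) : ℝ) := by linarith
  have hl : Real.log N ≤ Real.log ((2 * N : ℕ) : ℝ) :=
    Real.log_le_log (by linarith) (by rw [hTN]; linarith)
  have hl2 : 10 ≤ Real.log ((2 * N : ℕ) : ℝ) := hl10.trans hl
  have hl1 : 1 ≤ Real.log ((2 * N : ℕ) : ℝ) := by linarith
  have hl0 : 0 < Real.log ((2 * N : ℕ) : ℝ) := by linarith
  -- the end of the presieve
  have hDB1 : (Real.log ((2 * N : ℕ) : ℝ)) ^ B ≤ (DB (2 * N) B : ℝ) + 1 := by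
    have h1 : (Real.log ((2 * N : ℕ) : ℝ)) ^ B ≤ (⌈(Real.log ((2 * N : ℕ) : ℝ)) ^ B⌉₊ : ℝ) :=
      Nat.le_ceil _
    have h2 : ⌈(Real.log ((2 * N : ℕ) : ℝ)) ^ B⌉₊ ≤ DB (2 * N) B + 1 := by
      unfold DB
      omega
    have h3 : (⌈(Real.log ((2 * N : ℕ) : ℝ)) ^ B⌉₊ : ℝ) ≤ (DB (2 * N) B : ℝ) + 1 := by
      exact_mod_cast h2
    linarith
  have hlB : Real.log ((2 * N : ℕ) : ℝ) ≤ (Real.log ((2 * N : ℕ) : ℝ)) ^ B :=
    le_self_pow₀ hl1 (by omega)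
  have hDB2 : (DB (2 * N) B : ℝ) ≤ (Real.log ((2 * N : ℕ) : ℝ)) ^ B := by
    have h1 : (⌈(Real.log ((2 * N : ℕ) : ℝ)) ^ B⌉₊ : ℝ) < (Real.log ((2 * N : ℕ) : ℝ)) ^ B + 1 :=
      Nat.ceil_lt_add_one (by positivity)
    have h2 : DB (2 * N) B + 1 = ⌈(Real.log ((2 * N : ℕ) : ℝ)) ^ B⌉₊ := by
      have h3 : 0 < ⌈(Real.log ((2 * N : ℕ) : ℝ)) ^ B⌉₊ := Nat.ceil_pos.2 (by positivity)
      unfold DB
      omega
    have h4 : ((DB (2 * N) B : ℕ) : ℝ) + 1 = (⌈(Real.log ((2 * N : ℕ) : ℝ)) ^ B⌉₊ : ℝ) := by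
      exact_mod_cast h2
    linarith
  have hDDB : D ≤ DB (2 * N) B := by
    have h1 : ((D + 1 : ℕ) : ℝ) ≤ (⌈(Real.log ((2 * N : ℕ) : ℝ)) ^ B⌉₊ : ℝ) := by
      rw [Nat.cast_add, Nat.cast_one]
      exact (hlD.trans (hl.trans hlB)).trans (Nat.le_ceil _)
    have h2 : D + 1 ≤ ⌈(Real.log ((2 * N : ℕ) : ℝ)) ^ B⌉₊ := by exact_mod_cast h1
    unfold DB
    omega
  -- the primes
  have hpN : ∀ p ∈ P ∪ Pt, p ≤ 2 * N := by
    intro p hp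
    have h1 := (hP p hp).2.2
    have h2 : ((2 * N : ℕ) : ℝ) ^ ε₁ ≤ ((2 * N : ℕ) : ℝ) := by
      calc ((2 * N : ℕ) : ℝ) ^ ε₁ ≤ ((2 * N : ℕ) : ℝ) ^ (1 : ℝ) :=
            Real.rpow_le_rpow_of_exponent_le hT1 hε₁'
        _ = _ := Real.rpow_one _
    exact_mod_cast h1.trans h2
  have hD₁' : (D₁ : ℝ) ≤ ((2 * N : ℕ) : ℝ) ^ η₀ := by
    rw [hD₁]
    exact Nat.floor_le (Real.rpow_nonneg hT0.le _)
  have hD₁N : D₁ ≤ 2 * N := by
    have h2 : ((2 * N : ℕ) : ℝ) ^ η₀ ≤ ((2 * N : ℕ) : ℝ) := by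
      calc ((2 * N : ℕ) : ℝ) ^ η₀ ≤ ((2 * N : ℕ) : ℝ) ^ (1 : ℝ) :=
            Real.rpow_le_rpow_of_exponent_le hT1 (by linarith)
        _ = _ := Real.rpow_one _
    exact_mod_cast hD₁'.trans h2
  -- the expandable part
  obtain ⟨m3, hEx3, hm3⟩ := hFT (2 * N) (by omega) (uB α) (wB h Mo) P Pt c (some j) (some j')
    (r * Real.log N) ((Real.log N) ^ E₁) ((DB (2 * N) B : ℝ) + 1) D₁ th th'
    (by simpa using hjj') (by linarith)
    (fun p hp => ⟨(hP p hp).1, by exact_mod_cast (hP p hp).2.1, by exact_mod_cast hpN p hp⟩)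
    (one_le_pow₀ (by linarith)) hD₁N hc hcR hth hth' halt halt'
  have hExW := hEXM.2.2.2.1 (fun p => p ≤ D) (WW D / 2) (v : ℤ) hW1 hWo hWs hWp
  have hEx1 := hEXM.1 _ _ _ _ _ _ _ _ _ _ hExW hTr (fun p h1 h2 => absurd h1 (by omega))
    (Nat.cast_nonneg _) (Real.rpow_nonneg (by linarith) _)
  have hEx2 := hEXM.1 _ _ _ _ _ _ _ _ _ _ hEx1 hEx3
    (fun p h1 h2 => by
      have h3 := (hP p h2).2.1
      rcases h1 with h1 | h1 <;> omega)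
    (by positivity) (by positivity)
  -- sizes of the parts
  have hg' : ((Real.log N) ^ E₁) ^ 2 ≤ (Real.log ((2 * N : ℕ) : ℝ)) ^ (2 * E₁) := by
    rw [← pow_mul, mul_comm E₁ 2]
    exact pow_le_pow_left₀ (by linarith) hl _
  have hH : |hat th D₁| ≤ Real.log ((2 * N : ℕ) : ℝ) * (1 + Real.log ((2 * N : ℕ) : ℝ)) :=
    sum_bd th _ D₁ (2 * N) hl0.le hth.bd hD₁N
  have hH' : |hat th' D₁| ≤ Real.log ((2 * N : ℕ) : ℝ) * (1 + Real.log ((2 * N : ℕ) : ℝ)) :=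
    sum_bd th' _ D₁ (2 * N) hl0.le hth'.bd hD₁N
  have hPp : ∀ p ∈ P, p.Prime := fun p hp => (hP p (Finset.mem_union_left _ hp)).1.1
  have hQ : |Q1f (prP P) c| ≤ ((Real.log N) ^ E₁) ^ 2 * (Real.log ((2 * N : ℕ) : ℝ)) ^ m₁ := by
    refine (Pool.Agent.W494.UB.FT3.q1f_le P c ((Real.log N) ^ E₁) hPp
      (pow_nonneg (by linarith) _) hc).trans ?_
    refine mul_le_mul_of_nonneg_left ?_ (sq_nonneg _)
    exact (Pool.Agent.W494.UB.FT3.prod9_le k P hPp).trans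
      (hprod P fun p hp => ⟨hPp p hp, hpN p (Finset.mem_union_left _ hp)⟩)
  have hW1R : (1 : ℝ) ≤ ((WW D / 2 : ℕ) : ℝ) := by exact_mod_cast hW1
  have hm0 : |1 / ((WW D / 2 : ℕ) : ℝ) * t * m3| ≤
      (Real.log ((2 * N : ℕ) : ℝ)) ^ (2 * E₁ + m₁ + E₃ + 5) :=
    mterm _ E₁ E₃ m₁ (((Real.log N) ^ E₁) ^ 2) (hat th D₁) (hat th' D₁) (Q1f (prP P) c) m3 t _
      ((DB (2 * N) B : ℝ) + 1) hl2 hg' hH hH' hQ hm3 (by linarith) ht hW1R
  have hpw := pw N D₁ η₀ r (by omega) hη₀ hr hD₁'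
  -- the two values of `X`
  have hX1 : ((2 * N : ℕ) : ℝ) ≤ (X : ℝ) := by
    rcases hX with rfl | rfl
    · exact le_rfl
    · push_cast; linarith
  have hX2 : (X : ℝ) ≤ ((2 * N : ℕ) : ℝ) ^ (2 : ℝ) := by
    rw [Real.rpow_two, hTN]
    rcases hX with rfl | rfl
    · push_cast; nlinarith
    · push_cast; nlinarith
  have hX3 : (X : ℝ) ≤ 2 * ((2 * N : ℕ) : ℝ) := by
    rw [hTN]
    rcases hX with rfl | rfl
    · push_cast; linarith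
    · push_cast; linarith
  have hX0 : (0 : ℝ) < X := by linarith
  have hX1' : (1 : ℝ) ≤ X := by linarith
  have hy : (X : ℝ) ^ (ε₁ / 2) ≤ ((2 * N : ℕ) : ℝ) ^ ε₁ := by
    calc (X : ℝ) ^ (ε₁ / 2) ≤ (((2 * N : ℕ) : ℝ) ^ (2 : ℝ)) ^ (ε₁ / 2) :=
          Real.rpow_le_rpow hX0.le hX2 (by linarith)
      _ = _ := by
          rw [← Real.rpow_mul hT0.le]
          ring_nf
  have hR0 : ((WW D / 2 : ℕ) : ℝ) * (N : ℝ) ^ η₀ * (Real.exp (2 * (r * Real.log N)) *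
      (D₁ : ℝ) ^ 2) ≤ (X : ℝ) ^ (ε₀ / 10) := by
    rw [pow_zero, mul_one] at hgW
    calc ((WW D / 2 : ℕ) : ℝ) * (N : ℝ) ^ η₀ * (Real.exp (2 * (r * Real.log N)) * (D₁ : ℝ) ^ 2)
        = ((WW D / 2 : ℕ) : ℝ) *
          ((N : ℝ) ^ η₀ * (Real.exp (2 * (r * Real.log N)) * (D₁ : ℝ) ^ 2)) := by ring
      _ ≤ ((2 * N : ℕ) : ℝ) ^ (ε₀ / 20) * ((2 * N : ℕ) : ℝ) ^ (3 * η₀ + 2 * r) :=
          mul_le_mul hgW hpw (by positivity) (Real.rpow_nonneg hT0.le _)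
      _ = ((2 * N : ℕ) : ℝ) ^ (ε₀ / 20 + (3 * η₀ + 2 * r)) := (Real.rpow_add hT0 _ _).symm
      _ ≤ ((2 * N : ℕ) : ℝ) ^ (ε₀ / 10) :=
          Real.rpow_le_rpow_of_exponent_le hT1 (by linarith)
      _ ≤ _ := Real.rpow_le_rpow hT0.le hX1 (by linarith)
  have ha0 : 0 < 1 / (Real.log ((2 * N : ℕ) : ℝ)) ^ (2 * E₁ + m₁ + E₃ + 5) := by positivity
  have ha1 : 1 / (Real.log ((2 * N : ℕ) : ℝ)) ^ (2 * E₁ + m₁ + E₃ + 5) ≤ 1 := by
    rw [div_le_one (by positivity)]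
    exact one_le_pow₀ hl1
  have hY0 : |1 / (Real.log ((2 * N : ℕ) : ℝ)) ^ (2 * E₁ + m₁ + E₃ + 5)| *
      (1 * (N : ℝ) ^ η₀ * ((Real.log (N : ℝ) ^ E₁) ^ 2 * Real.exp (2 * (r * Real.log N)) *
        (D₁ : ℝ) ^ 2 * (Real.log ((2 * N : ℕ) : ℝ)) ^ E₃)) ≤ (X : ℝ) ^ η := by
    rw [abs_of_pos ha0]
    rw [one_mul] at hgY
    have h0 : 0 ≤ 1 * (N : ℝ) ^ η₀ * ((Real.log (N : ℝ) ^ E₁) ^ 2 *
        Real.exp (2 * (r * Real.log N)) *
        (D₁ : ℝ) ^ 2 * (Real.log ((2 * N : ℕ) : ℝ)) ^ E₃) := by positivity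
    calc 1 / (Real.log ((2 * N : ℕ) : ℝ)) ^ (2 * E₁ + m₁ + E₃ + 5) *
      (1 * (N : ℝ) ^ η₀ * ((Real.log (N : ℝ) ^ E₁) ^ 2 * Real.exp (2 * (r * Real.log N)) *
        (D₁ : ℝ) ^ 2 * (Real.log ((2 * N : ℕ) : ℝ)) ^ E₃))
        ≤ 1 * (1 * (N : ℝ) ^ η₀ * ((Real.log (N : ℝ) ^ E₁) ^ 2 *
          Real.exp (2 * (r * Real.log N)) *
          (D₁ : ℝ) ^ 2 * (Real.log ((2 * N : ℕ) : ℝ)) ^ E₃)) :=
          mul_le_mul_of_nonneg_right ha1 h0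
      _ = ((Real.log (N : ℝ) ^ E₁) ^ 2 * (Real.log ((2 * N : ℕ) : ℝ)) ^ E₃) *
          ((N : ℝ) ^ η₀ * (Real.exp (2 * (r * Real.log N)) * (D₁ : ℝ) ^ 2)) := by ring
      _ ≤ ((Real.log ((2 * N : ℕ) : ℝ)) ^ (2 * E₁) * (Real.log ((2 * N : ℕ) : ℝ)) ^ E₃) *
          ((2 * N : ℕ) : ℝ) ^ (3 * η₀ + 2 * r) :=
          mul_le_mul (mul_le_mul_of_nonneg_right hg' (by positivity)) hpw (by positivity)
            (by positivity)
      _ ≤ ((2 * N : ℕ) : ℝ) ^ (η / 2) * ((2 * N : ℕ) : ℝ) ^ (3 * η₀ + 2 * r) := by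
          refine mul_le_mul_of_nonneg_right ?_ (Real.rpow_nonneg hT0.le _)
          rw [← pow_add]
          exact hgY
      _ = ((2 * N : ℕ) : ℝ) ^ (η / 2 + (3 * η₀ + 2 * r)) := (Real.rpow_add hT0 _ _).symm
      _ ≤ ((2 * N : ℕ) : ℝ) ^ η := Real.rpow_le_rpow_of_exponent_le hT1 (by linarith)
      _ ≤ _ := Real.rpow_le_rpow hT0.le hX1 hη.le
  -- the roots
  have habs : ∀ i : Fin k, 4 * |((wB h Mo (some i) : ℤ) : ℝ)| ≤
      3 * |((uB α (some i) : ℤ) : ℝ)| * X := by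
    intro i
    have h1 : |(wB h Mo (some i) : ℤ)| ≤ Mo + |h i| := by
      show |((Mo : ℤ) + h i)| ≤ _
      refine (abs_add_le _ _).trans ?_
      rw [Nat.abs_cast]
    have h2 : 4 * (h i).natAbs ≤ N := by
      have h3 : (h i).natAbs ≤ ∑ i, (h i).natAbs :=
        Finset.single_le_sum (f := fun i => (h i).natAbs) (fun _ _ => Nat.zero_le _)
          (Finset.mem_univ i)
      omega
    have h3 : 4 * |h i| ≤ N := by
      rw [Int.abs_eq_natAbs]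
      exact_mod_cast h2
    have hMz : 4 * (Mo : ℤ) ≤ 5 * N := by exact_mod_cast hMoN
    have h4 : 4 * |(wB h Mo (some i) : ℤ)| ≤ 6 * N := by linarith
    have h5 : 4 * |((wB h Mo (some i) : ℤ) : ℝ)| ≤ 6 * N := by
      rw [← Int.cast_abs]
      exact_mod_cast h4
    have h6 : (1 : ℝ) ≤ |((uB α (some i) : ℤ) : ℝ)| := by
      rw [← Int.cast_abs]
      have h7 : (1 : ℤ) ≤ |uB α (some i)| := Int.one_le_abs (hα i)
      exact_mod_cast h7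
    calc 4 * |((wB h Mo (some i) : ℤ) : ℝ)| ≤ 6 * N := h5
      _ = 3 * 1 * ((2 * N : ℕ) : ℝ) := by rw [hTN]; ring
      _ ≤ 3 * |((uB α (some i) : ℤ) : ℝ)| * X := by gcongr
  have huU : ∀ i : Fin k, |uB α (some i)| ≤ (D : ℤ) := by
    intro i
    show |α i| ≤ (D : ℤ)
    rw [Int.abs_eq_natAbs]
    exact_mod_cast hDα i
  have hne : uB α (some j') * wB h Mo (some j) - uB α (some j) * wB h Mo (some j') ≠ 0 :=
    hnd (some j') (some j) (by simpa using hjj'.symm)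
  have hCL : ∀ p : ℕ, p.Prime → ((2 * N : ℕ) : ℝ) ^ ε₁ < (p : ℝ) →
      (p : ℤ) ∣ uB α (some j') * wB h Mo (some j) - uB α (some j) * wB h Mo (some j') →
      p ∈ CL (uB α) (wB h Mo) := by
    intro p hp _ hd
    exact mem_CL _ _ hnd p hp (some j') (some j) (by simpa using hjj'.symm) hd
  have hRC : ∀ b : ℕ → ℝ, RCM (CL (uB α) (wB h Mo)) (((2 * N : ℕ) : ℝ) ^ ε₁) Z M b →
      RC (fun p => p ∈ CL (uB α) (wB h Mo)) (((2 * N : ℕ) : ℝ) ^ ε₁) Z (fun d => b d / M) := by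
    intro b hb
    refine ⟨fun d => ?_, fun d hd => ?_⟩
    · rw [abs_div, abs_of_pos (by linarith : 0 < M), div_le_one (by linarith)]
      exact hb.bd d
    · exact hb.supp d (fun h0 => hd (by rw [h0, zero_div]))
  -- the correlation theorem
  have hExa := hEXM.2.1 _ Unit {()}
    (fun _ => 1 / (Real.log ((2 * N : ℕ) : ℝ)) ^ (2 * E₁ + m₁ + E₃ + 5)) _ _ _ _
    (fun _ _ => hEx2)
  simp only [Finset.sum_singleton] at hExa
  have hmain := hR X Z (by have := hN16; rcases hX with rfl | rfl <;> omega) hZ _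
    (fun p => p ∈ CL (uB α) (wB h Mo)) _ _ (((2 * N : ℕ) : ℝ) ^ ε₁) _ _ hy ?_ hExa hR0 hY0 ?_
    (uB α (some j)) (wB h Mo (some j)) (uB α (some j')) (wB h Mo (some j')) (hα j) (hα j')
    (huU j) (huU j') (habs j) (habs j') hne hCL _ _ (hRC b hb) (hRC b' hb')
  rotate_left
  · rintro p ((h1 | h1) | h1)
    · have h2 : (p : ℝ) ≤ (DB (2 * N) B : ℝ) := by exact_mod_cast h1.trans hDDB
      linarith
    · have h2 : (p : ℝ) ≤ (DB (2 * N) B : ℝ) := by exact_mod_cast h1.2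
      linarith
    · exact (hP p h1).2.2
  · rw [abs_mul, abs_of_pos ha0, div_mul_eq_mul_div, one_mul, div_le_one (by positivity)]
    exact hm0
  simp only [ds_div, hat_div] at hmain
  have hM0 : M ≠ 0 := by linarith
  have hlE : (Real.log ((2 * N : ℕ) : ℝ)) ^ (2 * E₁ + m₁ + E₃ + 5) ≠ 0 := by positivity
  have key : ∀ n : ℤ, Wt X n * Ms α h Mo D v D₁ Z P Tr c j j' th th' b b' n =
      ((Real.log ((2 * N : ℕ) : ℝ)) ^ (2 * E₁ + m₁ + E₃ + 5) * M ^ 2) * (Wt X n *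
        (1 / (Real.log ((2 * N : ℕ) : ℝ)) ^ (2 * E₁ + m₁ + E₃ + 5) *
          ((if ((WW D / 2 : ℕ) : ℤ) ∣ n - (v : ℤ) then 1 else 0) * Tr n *
            (FZ (uB α) (wB h Mo) P c n ^ 2 *
              (Ev th D₁ (uB α (some j) * n + wB h Mo (some j)) *
                Ev th' D₁ (uB α (some j') * n + wB h Mo (some j'))))) *
          (ds b Z (uB α (some j) * n + wB h Mo (some j)) / M *
            (ds b' Z (uB α (some j') * n + wB h Mo (some j')) / M)))) := by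
    intro n
    unfold Ms
    unfold Lf
    field_simp
  have hZX : Z ≤ X := by
    have h1 : (X : ℝ) ^ (1 / 2 + ε₀ / 4) ≤ (X : ℝ) := by
      calc (X : ℝ) ^ (1 / 2 + ε₀ / 4) ≤ (X : ℝ) ^ (1 : ℝ) :=
            Real.rpow_le_rpow_of_exponent_le hX1' (by linarith)
        _ = _ := Real.rpow_one _
    exact_mod_cast hZ.trans h1
  have hlX : 1 + Real.log X ≤ 2 * Real.log ((2 * N : ℕ) : ℝ) := by
    have h1 : Real.log X ≤ Real.log (2 * ((2 * N : ℕ) : ℝ)) := Real.log_le_log hX0 hX3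
    rw [Real.log_mul (by norm_num) hT0.ne'] at h1
    have h2 := Real.log_two_lt_d9
    linarith
  have hSb : ∀ b : ℕ → ℝ, RCM (CL (uB α) (wB h Mo)) (((2 * N : ℕ) : ℝ) ^ ε₁) Z M b →
      |∑ d ∈ Icc 1 Z, b d / (d : ℝ)| ≤ M * (2 * Real.log ((2 * N : ℕ) : ℝ)) := by
    intro b hb
    refine (sum_bd b M Z X (by linarith) hb.bd hZX).trans ?_
    exact mul_le_mul_of_nonneg_left hlX (by linarith)
  have hsumW : Summable (fun n : ℤ => Wt X n) := by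
    have hone := hEXM.2.2.2.1 (fun _ => True) 1 0 le_rfl odd_one squarefree_one
      (fun _ _ _ => trivial)
    have h1 : ((1 : ℕ) : ℝ) ≤ (X : ℝ) ^ (1 - 1 / 2 : ℝ) := by
      rw [Nat.cast_one]
      exact Real.one_le_rpow hX1' (by norm_num)
    have hsW := (hX₀ X (by have := hNX; rcases hX with rfl | rfl <;> omega) _ _ _ _ _ hone h1).1
    simpa using hsW
  have hbd : ∃ Y : ℝ, 0 ≤ Y ∧ ∀ n : ℤ, |((if ((WW D / 2 : ℕ) : ℤ) ∣ n - (v : ℤ) then 1 else 0) *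
      Tr n) * (FZ (uB α) (wB h Mo) P c n ^ 2 *
        (Ev th D₁ (Lf α h Mo (some j) n) * Ev th' D₁ (Lf α h Mo (some j') n)))| ≤ Y :=
    ⟨_, (abs_nonneg _).trans (ex_bd hEx2 0), fun n => ex_bd hEx2 n⟩
  obtain ⟨Y, hY, hYb⟩ := hbd
  constructor
  · refine Summable.of_norm_bounded (g := fun n => Y * ((∑ d ∈ Icc 1 Z, |b d|) *
      ∑ d ∈ Icc 1 Z, |b' d|) * Wt X n) (hsumW.mul_left _) (fun n => ?_)
    have h2 := ds_bd b Z (Lf α h Mo (some j) n)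
    have h3 := ds_bd b' Z (Lf α h Mo (some j') n)
    have h4 : 0 ≤ Wt X n := (Real.exp_pos _).le
    have h5 : 0 ≤ ∑ d ∈ Icc 1 Z, |b d| := Finset.sum_nonneg fun _ _ => abs_nonneg _
    rw [Real.norm_eq_abs, abs_mul, abs_of_nonneg h4, mul_comm]
    refine mul_le_mul_of_nonneg_right ?_ h4
    unfold Ms
    rw [abs_mul, abs_mul (ds _ _ _)]
    exact mul_le_mul (hYb n) (mul_le_mul h2 h3 (abs_nonneg _) h5)
      (mul_nonneg (abs_nonneg _) (abs_nonneg _)) hY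
  · rw [tsum_congr key, tsum_mul_left]
    have hdiff := diff_bd (Real.log ((2 * N : ℕ) : ℝ)) M X ((WW D / 2 : ℕ) : ℝ) t m3
      (hat th D₁ * hat th' D₁ * Q1f (prP P) c) (∑ d ∈ Icc 1 Z, b d / (d : ℝ))
      (∑ d ∈ Icc 1 Z, b' d / (d : ℝ)) ((DB (2 * N) B : ℝ) + 1) (((Real.log N) ^ E₁) ^ 2) A B E₁ E₃
      (by linarith) (hlM.trans hl) hM hX0.le hW1R ht hg' hm3 hDB1 hB (hSb b hb) (hSb b' hb')
    have herr := err_bd X (Real.log ((2 * N : ℕ) : ℝ)) M C η₁ A (2 * E₁ + m₁ + E₃ + 5) hX0 hl0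
      (hgE.trans (Real.rpow_le_rpow hT0.le hX1 hη₁.le))
    have hfin : (X : ℝ) / (Real.log ((2 * N : ℕ) : ℝ)) ^ A ≤ X / (Real.log N) ^ A := by
      refine div_le_div_of_nonneg_left hX0.le (pow_pos (by linarith) _) ?_
      exact pow_le_pow_left₀ (by linarith) hl _
    have hc0 : 0 ≤ (Real.log ((2 * N : ℕ) : ℝ)) ^ (2 * E₁ + m₁ + E₃ + 5) * M ^ 2 := by positivity
    have h1 := mul_le_mul_of_nonneg_left hmain hc0
    rw [← abs_of_nonneg hc0, ← abs_mul, abs_of_nonneg hc0] at h1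
    have h2 : (X : ℝ) / (2 * (Real.log ((2 * N : ℕ) : ℝ)) ^ A) +
        X / (2 * (Real.log ((2 * N : ℕ) : ℝ)) ^ A) = X / (Real.log ((2 * N : ℕ) : ℝ)) ^ A := by
      field_simp
      ring
    refine le_trans ?_ hfin
    rw [← h2]
    refine le_trans ?_ (add_le_add (h1.trans herr) hdiff)
    refine le_trans (le_of_eq ?_) (abs_add_le _ _)
    congr 1
    unfold Mm
    rw [mul_sub]
    have h3 : ∀ S S' : ℝ, (Real.log ((2 * N : ℕ) : ℝ)) ^ (2 * E₁ + m₁ + E₃ + 5) * M ^ 2 *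
        (X * (1 / (Real.log ((2 * N : ℕ) : ℝ)) ^ (2 * E₁ + m₁ + E₃ + 5) *
          (1 / ((WW D / 2 : ℕ) : ℝ) * t * m3) * (S / M * (S' / M)))) =
        X * ((1 / ((WW D / 2 : ℕ) : ℝ) * t * m3) * (S * S')) := by
      intro S S'
      field_simp
    rw [h3]
    ring


end Pool.Agent.TH899.UG
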