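import Pool.Agent.TH899.UG.Ttc
import Pool.Agent.W935.UB.R2

/-! The product of two rough divisor sums beyond the level one half, arbitrary moduli. -/

set_option autoImplicit false

namespace Pool.Agent.TH899.UG

open Finset
open Pool.Agent.W25.UB
open Pool.Agent.H442R2
open Pool.Agent.H442R2.KF
open Pool.Agent.H442R2.BX.TaskEX
open Pool.Agent.W23.PL
open Pool.Agent.W347.PL
open Pool.Agent.W935.UB.R2

/-- as `Ex`, arbitrary moduli -/
def ExG (S : ℕ → Prop) (Y R : ℝ) (Φ : ℤ → ℝ) (m : ℝ) : Prop :=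
  ∃ (s : Finset (ℕ × ℤ)) (φ : ℕ × ℤ → ℝ),
    (∀ n : ℤ, Φ n = ∑ x ∈ s, φ x * (if (x.1 : ℤ) ∣ n - x.2 then 1 else 0)) ∧
    ∑ x ∈ s, |φ x| ≤ Y ∧
    (∀ x ∈ s, 1 ≤ x.1 ∧ (x.1 : ℝ) ≤ R ∧ ∀ p : ℕ, p.Prime → p ∣ x.1 → S p) ∧
    m = ∑ x ∈ s, φ x / x.1

/-- (R2g) product of two rough divisor sums beyond the level one half, arbitrary moduli -/
def St_R2g : Prop := ∃ ε₀ η : ℝ, 0 < ε₀ ∧ ε₀ ≤ 1 / 100 ∧ 0 < η ∧ η ≤ 1 / 100 ∧
  ∀ ε₁ : ℝ, 0 < ε₁ → ε₁ ≤ 1 → ∃ η₁ C : ℝ, 0 < η₁ ∧ 0 < C ∧ ∀ (X Z : ℕ), 2 ≤ X →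
    (Z : ℝ) ≤ (X : ℝ) ^ (1 / 2 + ε₀ / 4) → ∀ (S Cl : ℕ → Prop) (Y R y : ℝ) (Φ : ℤ → ℝ) (m : ℝ),
    (X : ℝ) ^ ε₁ ≤ y → (∀ p, S p → (p : ℝ) ≤ y) → ExG S Y R Φ m → R ≤ (X : ℝ) ^ (ε₀ / 8) →
    Y ≤ (X : ℝ) ^ η → |m| ≤ 1 → ∀ (a a' : ℤ), |(a : ℝ)| ≤ X - (X : ℝ) ^ (1 / 2 : ℝ) →
    |(a' : ℝ)| ≤ X - (X : ℝ) ^ (1 / 2 : ℝ) → a ≠ a' →
    (∀ p : ℕ, p.Prime → y < (p : ℝ) → (p : ℤ) ∣ a - a' → Cl p) →
    ∀ c c' : ℕ → ℝ, RC Cl y Z c → RC Cl y Z c' →
    |∑' n : ℤ, Pool.Agent.H442R2.KF.Wt X n * (Φ n * (ds c Z (n - a) * ds c' Z (n - a'))) -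
      X * (m * ((∑ d ∈ Icc 1 Z, c d / d) * (∑ d ∈ Icc 1 Z, c' d / d)))| ≤
      C * (X : ℝ) ^ (1 - η₁)

/-- a product of distinct primes, one in each dyadic interval -/
theorem dyadic_primes (q : ℕ) (hq : 1 ≤ q) (T : ℕ)
    (h : ∀ p : ℕ, p.Prime → 3 ≤ p → p ≤ 2 ^ (T + 1) → p ∣ q) : 2 ^ (∑ i ∈ Icc 1 T, i) ≤ q := by
  have hb : ∀ i : ℕ, 1 ≤ i → ∃ p, p.Prime ∧ 2 ^ i < p ∧ p ≤ 2 ^ (i + 1) := by
    intro i _
    obtain ⟨p, h1, h2, h3⟩ := Nat.exists_prime_lt_and_le_two_mul (2 ^ i) (by positivity)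
    exact ⟨p, h1, h2, by rw [pow_succ]; omega⟩
  choose! P hP1 hP2 hP3 using hb
  have hco : ∏ i ∈ Icc 1 T, P i ∣ q := by
    apply Finset.prod_dvd_of_isRelPrime
    · intro i hi j hj hij
      rw [Finset.coe_Icc, Set.mem_Icc] at hi hj
      have hPi := hP1 i hi.1
      have hPj := hP1 j hj.1
      refine (Nat.coprime_iff_isRelPrime.1 ((Nat.coprime_primes hPi hPj).2 ?_))
      intro he
      rcases lt_or_gt_of_ne hij with h1 | h1
      · have h2 := hP3 i hi.1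
        have h3 := hP2 j hj.1
        have h4 : 2 ^ (i + 1) ≤ 2 ^ j := Nat.pow_le_pow_right (by norm_num) h1
        omega
      · have h2 := hP3 j hj.1
        have h3 := hP2 i hi.1
        have h4 : 2 ^ (j + 1) ≤ 2 ^ i := Nat.pow_le_pow_right (by norm_num) h1
        omega
    · intro i hi
      rw [mem_Icc] at hi
      apply h _ (hP1 i hi.1)
      · have h2 := hP2 i hi.1
        have h3 : 2 ^ 1 ≤ 2 ^ i := Nat.pow_le_pow_right (by norm_num) hi.1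
        omega
      · refine (hP3 i hi.1).trans (Nat.pow_le_pow_right (by norm_num) (by omega))
  refine le_trans ?_ (Nat.le_of_dvd hq hco)
  rw [← Finset.prod_pow_eq_pow_sum]
  apply Finset.prod_le_prod'
  intro i hi
  exact (hP2 i (mem_Icc.1 hi).1).le

/-- a small odd prime not dividing `q` -/
theorem exists_l (κ : ℝ) (hκ : 0 < κ) : ∃ N₀ : ℕ, ∀ X : ℕ, N₀ ≤ X → ∀ q : ℕ, 1 ≤ q → q ≤ X →
    ∃ l : ℕ, 3 ≤ l ∧ Odd l ∧ Nat.Coprime q l ∧ (l : ℝ) ≤ (X : ℝ) ^ κ := by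
  -- `T` with `2 ^ (T + 1) ≤ X ^ κ` and `X < 2 ^ (T (T + 1) / 2)`
  have h1 : ∀ᶠ x : ℝ in Filter.atTop, x + 1 < (κ * x - 2) * (κ * x - 2) / 2 := by
    have h2 : Filter.Tendsto (fun x : ℝ => κ ^ 2 / 4 * x) Filter.atTop Filter.atTop :=
      Filter.tendsto_id.const_mul_atTop (by positivity)
    filter_upwards [h2.eventually_gt_atTop (κ + 2), Filter.eventually_ge_atTop (8 / κ),
      Filter.eventually_ge_atTop (1 : ℝ)] with x h3 h4 h5
    have h6 : 8 ≤ κ * x := by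
      rw [div_le_iff₀ hκ] at h4
      linarith
    nlinarith
  have h2 : Filter.Tendsto (fun X : ℕ => Real.logb 2 (X : ℝ)) Filter.atTop Filter.atTop :=
    (Real.tendsto_logb_atTop (by norm_num)).comp tendsto_natCast_atTop_atTop
  have h3 := h2.eventually (h1.and (Filter.eventually_ge_atTop (4 / κ)))
  obtain ⟨N₀, hN₀⟩ := Filter.eventually_atTop.1 (h3.and (Filter.eventually_ge_atTop 1))
  refine ⟨N₀, fun X hX q hq hqX => ?_⟩
  obtain ⟨⟨h4, h5⟩, h6⟩ := hN₀ X hX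
  set x := Real.logb 2 (X : ℝ) with hx
  have hXpos : (0 : ℝ) < X := by exact_mod_cast h6
  have hx2 : (2 : ℝ) ^ x = X := Real.rpow_logb (by norm_num) (by norm_num) hXpos
  have hκx : 4 ≤ κ * x := by
    rw [div_le_iff₀ hκ] at h5
    linarith
  set T : ℕ := ⌊κ * x - 1⌋₊ with hT
  have hT1 : (T : ℝ) ≤ κ * x - 1 := Nat.floor_le (by linarith)
  have hT2 : κ * x - 1 < T + 1 := Nat.lt_floor_add_one _
  by_contra hcon
  have h7 : ∀ p : ℕ, p.Prime → 3 ≤ p → p ≤ 2 ^ (T + 1) → p ∣ q := by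
    intro p hp hp3 hpT
    by_contra hpq
    apply hcon
    refine ⟨p, hp3, hp.odd_of_ne_two (by omega), ((Nat.Prime.coprime_iff_not_dvd hp).2 hpq).symm, ?_⟩
    calc (p : ℝ) ≤ (2 : ℝ) ^ (T + 1) := by exact_mod_cast hpT
      _ = (2 : ℝ) ^ ((T : ℝ) + 1) := by rw [← Real.rpow_natCast]; push_cast; rfl
      _ ≤ (2 : ℝ) ^ (κ * x) := Real.rpow_le_rpow_of_exponent_le (by norm_num) (by linarith)
      _ = (X : ℝ) ^ κ := by
          rw [← hx2, ← Real.rpow_mul (by norm_num), mul_comm]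
  have h8 := dyadic_primes q hq T h7
  have h9 : (∑ i ∈ Icc 1 T, i) * 2 = T * (T + 1) := by
    clear * -
    induction T with
    | zero => simp
    | succ n ih =>
      rw [Finset.sum_Icc_succ_top (by omega), add_mul, ih]
      ring
  have h10 : ((∑ i ∈ Icc 1 T, i : ℕ) : ℝ) * 2 = T * (T + 1) := by exact_mod_cast h9
  have h11 : (2 : ℝ) ^ ((∑ i ∈ Icc 1 T, i : ℕ) : ℝ) ≤ (2 : ℝ) ^ x := by
    rw [hx2, Real.rpow_natCast]
    exact_mod_cast h8.trans hqX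
  have h12 := (Real.rpow_le_rpow_left_iff (by norm_num : (1 : ℝ) < 2)).1 h11
  have h13 : (κ * x - 2) * (κ * x - 2) ≤ T * (T + 1) := by
    have : κ * x - 2 ≤ T := by linarith
    have h0 : 0 ≤ κ * x - 2 := by linarith
    nlinarith
  linarith

/-- the coprime pairs for one residue class -/
theorem perxl (ε₀ ε₀' η' ε₁ C₁ : ℝ) (hε₀ : 0 < ε₀) (hε₀1 : ε₀ ≤ 1 / 100) (hε₀' : ε₀ ≤ ε₀')
    (X : ℕ) (hX : 2 ≤ X)
    (hT : ∀ (q D0 Z l : ℕ), 1 ≤ q → 3 ≤ l → Odd l → Nat.Coprime q l → (q : ℝ) ≤ (X : ℝ) ^ ε₀' →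
      (l : ℝ) ≤ (X : ℝ) ^ ε₀' → (Z : ℝ) ≤ (X : ℝ) ^ (51 / 100 : ℝ) → 1 ≤ D0 → (Z : ℝ) ≤ (X : ℝ) ^ ε₀' * D0 →
      ∀ (b a a' : ℤ), |(b : ℝ)| ≤ q → |(a : ℝ)| ≤ X - (X : ℝ) ^ (1 / 2 : ℝ) →
      |(a' : ℝ)| ≤ X - (X : ℝ) ^ (1 / 2 : ℝ) → a ≠ a' →
      ∀ c c' : ℕ → ℝ, BX.CofO (q * l) c → BX.CofO (q * l) c' → BX.CofR ((X : ℝ) ^ ε₁) Z c →
      BX.CofR ((X : ℝ) ^ ε₁) Z c' →
      |∑ d ∈ Ioc D0 Z, ∑ d' ∈ (Ioc D0 Z).filter (fun d' => Nat.Coprime d d'), c d * c' d' *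
        ∑' n : ℤ, (if (q : ℤ) ∣ n - b then Wt X n else 0) * (BX.dl d (n - a) * BX.dl d' (n - a'))| ≤
        C₁ * (X : ℝ) ^ (1 - η'))
    (hP : ∀ m : ℕ, 1 ≤ m → (m : ℝ) ≤ (X : ℝ) ^ (1 - ε₀ / 8) → ∀ c : ℤ,
      |∑' n : ℤ, (if (m : ℤ) ∣ n - c then Wt X n else 0) - X / m| ≤ 1 / (X : ℝ) ^ 5)
    (h2 : (2 : ℝ) ≤ (X : ℝ) ^ ε₁) (h4 : (2 : ℝ) ≤ (X : ℝ) ^ (ε₀ / 4))
    (Z : ℕ) (hZ : (Z : ℝ) ≤ (X : ℝ) ^ (1 / 2 + ε₀ / 4)) (S Cl : ℕ → Prop) (y : ℝ)
    (hy : (X : ℝ) ^ ε₁ ≤ y) (hS : ∀ p, S p → (p : ℝ) ≤ y)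
    (q : ℕ) (b : ℤ) (hq1 : 1 ≤ q) (hqR : (q : ℝ) ≤ (X : ℝ) ^ (ε₀ / 8)) 
    (l : ℕ) (hl3 : 3 ≤ l) (hlo : Odd l) (hql : Nat.Coprime q l) (hlX : (l : ℝ) ≤ (X : ℝ) ^ ε₀')
    (hly : (l : ℝ) ≤ y) (hqS : ∀ p : ℕ, p.Prime → p ∣ q → S p) (hb : |(b : ℝ)| ≤ q)
    (a a' : ℤ) (ha : |(a : ℝ)| ≤ X - (X : ℝ) ^ (1 / 2 : ℝ))
    (ha' : |(a' : ℝ)| ≤ X - (X : ℝ) ^ (1 / 2 : ℝ)) (haa : a ≠ a')
    (c c' : ℕ → ℝ) (hc : RC Cl y Z c) (hc' : RC Cl y Z c') :
    |∑ d ∈ Icc 1 Z, ∑ d' ∈ (Icc 1 Z).filter (fun d' => Nat.Coprime d d'), c d * c' d' *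
      (SEb X b a a' q d d' - X / (q * d * d'))| ≤ C₁ * (X : ℝ) ^ (1 - η') + 3 := by
  have hX1 : (1 : ℝ) ≤ X := by exact_mod_cast (by omega : 1 ≤ X)
  have hX0 : (0 : ℝ) < X := by linarith
  have hXle : ∀ s t : ℝ, s ≤ t → (X : ℝ) ^ s ≤ (X : ℝ) ^ t := fun s t hst =>
    Real.rpow_le_rpow_of_exponent_le hX1 hst
  set t : ℝ := (X : ℝ) ^ (1 / 2 - ε₀ / 2) with ht
  have ht1 : 1 ≤ t := Real.one_le_rpow hX1 (by linarith)
  set D0 : ℕ := ⌊t⌋₊ with hD0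
  have hD01 : 1 ≤ D0 := Nat.le_floor (by simpa using ht1)
  have hD0t : (D0 : ℝ) ≤ t := Nat.floor_le (by linarith)
  have hD01' : (1 : ℝ) ≤ (D0 : ℝ) := by exact_mod_cast hD01
  have htD0 : t ≤ 2 * D0 := by
    have := Nat.lt_floor_add_one t
    linarith
  have hZ51 : (Z : ℝ) ≤ (X : ℝ) ^ (51 / 100 : ℝ) := hZ.trans (hXle _ _ (by linarith))
  have hZX : (Z : ℝ) ≤ X := hZ51.trans (by
    have := hXle (51 / 100) 1 (by norm_num)
    rwa [Real.rpow_one] at this)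
  have hZD : (Z : ℝ) ≤ (X : ℝ) ^ ε₀' * D0 := by
    have hp : 0 < (X : ℝ) ^ (3 * ε₀ / 4) := Real.rpow_pos_of_pos hX0 _
    calc (Z : ℝ) ≤ (X : ℝ) ^ (1 / 2 + ε₀ / 4) := hZ
      _ = t * (X : ℝ) ^ (3 * ε₀ / 4) := by
          rw [ht, ← Real.rpow_add hX0]; congr 1; ring
      _ ≤ (2 * D0) * (X : ℝ) ^ (3 * ε₀ / 4) := mul_le_mul_of_nonneg_right htD0 hp.le
      _ ≤ ((X : ℝ) ^ (ε₀ / 4) * D0) * (X : ℝ) ^ (3 * ε₀ / 4) :=
          mul_le_mul_of_nonneg_right (mul_le_mul_of_nonneg_right h4 (by positivity)) hp.le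
      _ = ((X : ℝ) ^ (ε₀ / 4) * (X : ℝ) ^ (3 * ε₀ / 4)) * D0 := by ring
      _ = (X : ℝ) ^ ε₀ * D0 := by
          rw [← Real.rpow_add hX0]; congr 2; ring
      _ ≤ (X : ℝ) ^ ε₀' * D0 := mul_le_mul_of_nonneg_right (hXle _ _ hε₀') (by positivity)
  have hcop : ∀ (cc : ℕ → ℝ), RC Cl y Z cc → ∀ d, cc d ≠ 0 →
      Nat.Coprime d (2 * (q * l)) := by
    intro cc hcc d hd
    refine Nat.Coprime.symm (Nat.coprime_of_dvd ?_)
    intro p hpp hp1 hp2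
    have h1 := ((hcc.supp d hd).2.2 p hpp hp2).1
    rcases (Nat.Prime.dvd_mul hpp).1 hp1 with h3 | h3
    · have h5 : p ≤ 2 := Nat.le_of_dvd (by norm_num) h3
      have h6 : (p : ℝ) ≤ 2 := by exact_mod_cast h5
      linarith
    · rcases (Nat.Prime.dvd_mul hpp).1 h3 with h3 | h3
      · have := hS p (hqS p hpp h3)
        linarith
      · have h5 : p ≤ l := Nat.le_of_dvd (by omega) h3
        have h6 : (p : ℝ) ≤ l := by exact_mod_cast h5
        linarith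
  have hO : ∀ (cc : ℕ → ℝ), RC Cl y Z cc →
      BX.CofO (q * l) (fun d => if D0 < d then cc d else 0) := by
    intro cc hcc
    refine ⟨fun d => ?_, fun d hd => ?_⟩
    · split_ifs
      · exact hcc.bd d
      · simp
    · refine hcop cc hcc d ?_
      intro h0
      apply hd
      rw [h0]
      simp
  have hR : ∀ (cc : ℕ → ℝ), RC Cl y Z cc →
      BX.CofR ((X : ℝ) ^ ε₁) Z (fun d => if D0 < d then cc d else 0) := by
    intro cc hcc
    refine ⟨fun d => ?_, fun d hd => ?_⟩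
    · split_ifs
      · exact hcc.bd d
      · simp
    · have hD : D0 < d := by
        by_contra h
        exact hd (if_neg h)
      have hd' : cc d ≠ 0 := by
        intro h0
        apply hd
        rw [h0]
        simp
      obtain ⟨h1, h3, h5⟩ := hcc.supp d hd'
      exact ⟨h3, by omega, fun p hp hpd => lt_of_le_of_lt hy (h5 p hp hpd).1⟩
  have hqε : (q : ℝ) ≤ (X : ℝ) ^ ε₀' := hqR.trans (hXle _ _ (by linarith))
  have hmain := hT q D0 Z l hq1 hl3 hlo hql hqε hlX hZ51 hD01 hZD b a a' hb ha ha' haa _ _ (hO c hc)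
    (hO c' hc') (hR c hc) (hR c' hc')
  set T : ℕ → ℕ → ℝ := fun d d' => ∑' n : ℤ, (if (q : ℤ) ∣ n - b then Wt X n else 0) *
    (BX.dl d (n - a) * BX.dl d' (n - a')) with hTdef
  -- the sum over all pairs
  have hconv : ∑ d ∈ Ioc D0 Z, ∑ d' ∈ (Ioc D0 Z).filter (fun d' => Nat.Coprime d d'),
      (if D0 < d then c d else 0) * (if D0 < d' then c' d' else 0) * T d d' =
      ∑ d ∈ Icc 1 Z, ∑ d' ∈ (Icc 1 Z).filter (fun d' => Nat.Coprime d d'),
      (if D0 < d then c d else 0) * (if D0 < d' then c' d' else 0) * T d d' := by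
    have hsub : Ioc D0 Z ⊆ Icc 1 Z := by
      intro d hd
      rw [mem_Ioc] at hd
      rw [mem_Icc]
      omega
    have e1 : ∀ d ∈ Ioc D0 Z, ∑ d' ∈ (Ioc D0 Z).filter (fun d' => Nat.Coprime d d'),
        (if D0 < d then c d else 0) * (if D0 < d' then c' d' else 0) * T d d' =
        ∑ d' ∈ (Icc 1 Z).filter (fun d' => Nat.Coprime d d'),
        (if D0 < d then c d else 0) * (if D0 < d' then c' d' else 0) * T d d' := by
      intro d _
      refine Finset.sum_subset (Finset.filter_subset_filter _ hsub) ?_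
      intro d' hd' hnd'
      rw [mem_filter, mem_Icc] at hd'
      rw [mem_filter, mem_Ioc] at hnd'
      have h5 : ¬ D0 < d' := fun h => hnd' ⟨⟨h, hd'.1.2⟩, hd'.2⟩
      rw [if_neg h5]
      ring
    rw [Finset.sum_congr rfl e1]
    refine Finset.sum_subset hsub ?_
    intro d hd hnd
    rw [mem_Icc] at hd
    rw [mem_Ioc] at hnd
    have h5 : ¬ D0 < d := fun h => hnd ⟨h, hd.2⟩
    refine Finset.sum_eq_zero fun d' _ => ?_
    rw [if_neg h5]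
    ring
  have hmain' : |∑ d ∈ Icc 1 Z, ∑ d' ∈ (Icc 1 Z).filter (fun d' => Nat.Coprime d d'),
      (if D0 < d then c d else 0) * (if D0 < d' then c' d' else 0) * T d d'| ≤
      C₁ * (X : ℝ) ^ (1 - η') := by
    rw [← hconv]
    exact hmain
  have hX5 : (0 : ℝ) < (X : ℝ) ^ 5 := by positivity
  have hM : ∀ d d' : ℕ, 1 ≤ d → 1 ≤ d' → Nat.Coprime q d → Nat.Coprime q d' →
      Nat.Coprime d d' → (q : ℝ) * d * d' ≤ (X : ℝ) ^ (1 - ε₀ / 8) →
      |SEb X b a a' q d d' - X / (q * d * d')| ≤ 1 / (X : ℝ) ^ 5 := by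
    intro d d' hd hd' g1 g2 g3 hle
    obtain ⟨cc, hcc'⟩ := SEb_eq X b a a' q d d' g1 g2 g3
    have hm1 : 1 ≤ q * d * d' := Nat.succ_le_of_lt (by positivity)
    have h4 := hP (q * d * d') hm1 (by push_cast; exact hle) cc
    rw [← hcc'] at h4
    push_cast at h4
    exact h4
  have hcc : ∀ d d' : ℕ, |c d * c' d'| ≤ 1 := by
    intro d d'
    rw [abs_mul]
    calc |c d| * |c' d'| ≤ 1 * 1 :=
          mul_le_mul (hc.bd d) (hc'.bd d') (abs_nonneg _) zero_le_one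
      _ = 1 := one_mul 1
  have hqr : (0 : ℝ) < q := by exact_mod_cast hq1
  have hqd : ∀ d : ℕ, d ≤ Z → (q : ℝ) * d ≤ (X : ℝ) ^ (1 - ε₀ / 8) := by
    intro d hd
    have hd' : (d : ℝ) ≤ (X : ℝ) ^ (51 / 100 : ℝ) := le_trans (by exact_mod_cast hd) hZ51
    calc (q : ℝ) * d ≤ (X : ℝ) ^ (ε₀ / 8) * (X : ℝ) ^ (51 / 100 : ℝ) :=
          mul_le_mul hqR hd' (Nat.cast_nonneg _) (by positivity)
      _ = (X : ℝ) ^ (ε₀ / 8 + 51 / 100) := by rw [← Real.rpow_add hX0]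
      _ ≤ _ := hXle _ _ (by linarith)
  -- one pair
  have herr : ∀ d ∈ Icc 1 Z, ∀ d' ∈ (Icc 1 Z).filter (fun d' => Nat.Coprime d d'),
      |c d * c' d' * (SEb X b a a' q d d' - X / (q * d * d')) -
        (if D0 < d then c d else 0) * (if D0 < d' then c' d' else 0) * T d d'| ≤
        3 / (X : ℝ) ^ 5 := by
    intro d hd d' hd'
    rw [mem_filter, mem_Icc] at hd'
    rw [mem_Icc] at hd
    by_cases hz : c d * c' d' = 0
    · have hz' : (if D0 < d then c d else 0) * (if D0 < d' then c' d' else 0) = 0 := by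
        rcases mul_eq_zero.1 hz with h | h
        · rw [h]; simp
        · rw [h]; simp
      rw [hz, hz', zero_mul, zero_mul, sub_zero, abs_zero]
      positivity
    · have hcd : c d ≠ 0 := left_ne_zero_of_mul hz
      have hcd' : c' d' ≠ 0 := right_ne_zero_of_mul hz
      have k1 : Nat.Coprime q d :=
        (Nat.Coprime.coprime_dvd_right (Dvd.dvd.mul_left (Dvd.intro l rfl) 2) (hcop c hc d hcd)).symm
      have k2 : Nat.Coprime q d' :=
        (Nat.Coprime.coprime_dvd_right (Dvd.dvd.mul_left (Dvd.intro l rfl) 2) (hcop c' hc' d' hcd')).symm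
      have hdr : (1 : ℝ) ≤ d := by exact_mod_cast hd.1
      have hdr' : (1 : ℝ) ≤ d' := by exact_mod_cast hd'.1.1
      have hd0 : (0 : ℝ) < d := by linarith
      have hd0' : (0 : ℝ) < d' := by linarith
      by_cases hL : D0 < d ∧ D0 < d'
      · rw [if_pos hL.1, if_pos hL.2, ← mul_sub, abs_mul]
        have hE : |SEb X b a a' q d d' - X / (q * d * d') - T d d'| ≤ 3 / (X : ℝ) ^ 5 := by
          rw [hTdef]
          dsimp only
          rw [open_prod X (by omega)]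
          have s1 := hM d 1 hd.1 le_rfl k1 (Nat.coprime_one_right q) (Nat.coprime_one_right d)
            (by rw [Nat.cast_one, mul_one]; exact hqd d hd.2)
          have s2 := hM 1 d' le_rfl hd'.1.1 (Nat.coprime_one_right q) k2
            (Nat.coprime_one_left d')
            (by rw [Nat.cast_one, mul_one]; exact hqd d' hd'.1.2)
          have s3 := hM 1 1 le_rfl le_rfl (Nat.coprime_one_right q) (Nat.coprime_one_right q)
            (Nat.coprime_one_right 1) (by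
              rw [Nat.cast_one, mul_one, mul_one]
              have := hqd d hd.2
              exact (le_mul_of_one_le_right hqr.le hdr).trans this)
          rw [Nat.cast_one, mul_one] at s1 s2
          rw [Nat.cast_one, mul_one, mul_one] at s3
          have e1 : SEb X b a a' q d d' - X / (q * d * d') -
              (SEb X b a a' q d d' - SEb X b a a' q d 1 / d' - SEb X b a a' q 1 d' / d +
              SEb X b a a' q 1 1 / (d * d')) =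
              (SEb X b a a' q d 1 - X / (q * d)) / d' +
              (SEb X b a a' q 1 d' - X / (q * d')) / d -
              (SEb X b a a' q 1 1 - X / q) / (d * d') := by
            field_simp
            ring
          rw [e1]
          have f1 : |(SEb X b a a' q d 1 - X / (q * d)) / d'| ≤ 1 / (X : ℝ) ^ 5 := by
            rw [abs_div, abs_of_pos hd0', div_le_iff₀ hd0']
            exact s1.trans (le_mul_of_one_le_right (by positivity) hdr')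
          have f2 : |(SEb X b a a' q 1 d' - X / (q * d')) / d| ≤ 1 / (X : ℝ) ^ 5 := by
            rw [abs_div, abs_of_pos hd0, div_le_iff₀ hd0]
            exact s2.trans (le_mul_of_one_le_right (by positivity) hdr)
          have f3 : |(SEb X b a a' q 1 1 - X / q) / (d * d')| ≤ 1 / (X : ℝ) ^ 5 := by
            rw [abs_div, abs_of_pos (by positivity : (0 : ℝ) < d * d'),
              div_le_iff₀ (by positivity)]
            exact s3.trans (le_mul_of_one_le_right (by positivity)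
              (one_le_mul_of_one_le_of_one_le hdr hdr'))
          have f4 : (3 : ℝ) / (X : ℝ) ^ 5 = 1 / (X : ℝ) ^ 5 + 1 / (X : ℝ) ^ 5 +
              1 / (X : ℝ) ^ 5 := by ring
          rw [f4]
          refine (abs_sub _ _).trans (add_le_add ?_ f3)
          exact (abs_add_le _ _).trans (add_le_add f1 f2)
        calc |c d * c' d'| * _ ≤ 1 * (3 / (X : ℝ) ^ 5) :=
              mul_le_mul (hcc d d') hE (abs_nonneg _) zero_le_one
          _ = 3 / (X : ℝ) ^ 5 := one_mul _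
      · have hz' : (if D0 < d then c d else 0) * (if D0 < d' then c' d' else 0) = 0 := by
          by_cases g1 : D0 < d
          · have g2 : ¬ D0 < d' := fun h => hL ⟨g1, h⟩
            rw [if_neg g2, mul_zero]
          · rw [if_neg g1, zero_mul]
        rw [hz', zero_mul, sub_zero, abs_mul]
        have hsm : (d : ℝ) * d' ≤ t * (X : ℝ) ^ (1 / 2 + ε₀ / 4) := by
          have ht0 : 0 ≤ t := by linarith
          have hdZ : (d : ℝ) ≤ (X : ℝ) ^ (1 / 2 + ε₀ / 4) := le_trans (by exact_mod_cast hd.2) hZ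
          have hdZ' : (d' : ℝ) ≤ (X : ℝ) ^ (1 / 2 + ε₀ / 4) :=
            le_trans (by exact_mod_cast hd'.1.2) hZ
          by_cases g1 : D0 < d
          · have g2 : d' ≤ D0 := not_lt.1 fun h => hL ⟨g1, h⟩
            have g3 : (d' : ℝ) ≤ t := le_trans (by exact_mod_cast g2) hD0t
            calc (d : ℝ) * d' ≤ (X : ℝ) ^ (1 / 2 + ε₀ / 4) * t :=
                  mul_le_mul hdZ g3 hd0'.le (by positivity)
              _ = _ := mul_comm _ _
          · have g2 : d ≤ D0 := not_lt.1 g1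
            have g3 : (d : ℝ) ≤ t := le_trans (by exact_mod_cast g2) hD0t
            exact mul_le_mul g3 hdZ' hd0'.le ht0
        have hqdd : (q : ℝ) * d * d' ≤ (X : ℝ) ^ (1 - ε₀ / 8) := by
          calc (q : ℝ) * d * d' = q * (d * d') := by ring
            _ ≤ (X : ℝ) ^ (ε₀ / 8) * (t * (X : ℝ) ^ (1 / 2 + ε₀ / 4)) :=
                mul_le_mul hqR hsm (by positivity) (by positivity)
            _ = (X : ℝ) ^ (1 - ε₀ / 8) := by
                rw [ht, ← Real.rpow_add hX0, ← Real.rpow_add hX0]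
                congr 1
                ring
        have hE := hM d d' hd.1 hd'.1.1 k1 k2 hd'.2 hqdd
        calc |c d * c' d'| * _ ≤ 1 * (1 / (X : ℝ) ^ 5) :=
              mul_le_mul (hcc d d') hE (abs_nonneg _) zero_le_one
          _ = 1 / (X : ℝ) ^ 5 := one_mul _
          _ ≤ 3 / (X : ℝ) ^ 5 := by
              apply div_le_div_of_nonneg_right _ hX5.le
              norm_num
  have hdiff := dbl Z X hZX (fun d d' => c d * c' d' * (SEb X b a a' q d d' - X / (q * d * d')) -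
        (if D0 < d then c d else 0) * (if D0 < d' then c' d' else 0) * T d d') (3 / (X : ℝ) ^ 5)
        (by positivity) herr
  have hsplit : ∑ d ∈ Icc 1 Z, ∑ d' ∈ (Icc 1 Z).filter (fun d' => Nat.Coprime d d'),
      (c d * c' d' * (SEb X b a a' q d d' - X / (q * d * d')) -
        (if D0 < d then c d else 0) * (if D0 < d' then c' d' else 0) * T d d') =
      (∑ d ∈ Icc 1 Z, ∑ d' ∈ (Icc 1 Z).filter (fun d' => Nat.Coprime d d'), c d * c' d' *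
        (SEb X b a a' q d d' - X / (q * d * d'))) -
      ∑ d ∈ Icc 1 Z, ∑ d' ∈ (Icc 1 Z).filter (fun d' => Nat.Coprime d d'),
        (if D0 < d then c d else 0) * (if D0 < d' then c' d' else 0) * T d d' := by
    rw [← Finset.sum_sub_distrib]
    refine Finset.sum_congr rfl fun d _ => ?_
    rw [← Finset.sum_sub_distrib]
  rw [hsplit] at hdiff
  have h3 : (X : ℝ) ^ 2 * (3 / (X : ℝ) ^ 5) ≤ 3 := by
    have : (X : ℝ) ^ 2 * (3 / (X : ℝ) ^ 5) = 3 / (X : ℝ) ^ 3 := by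
      field_simp
    rw [this]
    exact div_le_self (by norm_num) (one_le_pow₀ hX1)
  have h5 := abs_sub_abs_le_abs_sub
    (∑ d ∈ Icc 1 Z, ∑ d' ∈ (Icc 1 Z).filter (fun d' => Nat.Coprime d d'), c d * c' d' *
        (SEb X b a a' q d d' - X / (q * d * d')))
    (∑ d ∈ Icc 1 Z, ∑ d' ∈ (Icc 1 Z).filter (fun d' => Nat.Coprime d d'),
        (if D0 < d then c d else 0) * (if D0 < d' then c' d' else 0) * T d d')
  linarith


theorem R2g (hTTC : St_TTCl) : St_R2g := by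
  obtain ⟨ε₀', η', hε₀', hη', hT⟩ := hTTC (51 / 100) (by norm_num) (by norm_num)
  obtain ⟨ε₀, hε₀, hε₀1, hε₀2⟩ : ∃ ε₀ : ℝ, 0 < ε₀ ∧ ε₀ ≤ 1 / 100 ∧ ε₀ ≤ ε₀' :=
    ⟨min ε₀' (1 / 100), lt_min hε₀' (by norm_num), min_le_right _ _, min_le_left _ _⟩
  obtain ⟨η, hη, hη1, hη2⟩ : ∃ η : ℝ, 0 < η ∧ η ≤ 1 / 100 ∧ η ≤ η' / 2 :=
    ⟨min (η' / 2) (1 / 100), lt_min (by positivity) (by norm_num), min_le_right _ _,
      min_le_left _ _⟩
  refine ⟨ε₀, η, hε₀, hε₀1, hη, hη1, ?_⟩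
  intro ε₁ hε₁ hε₁1
  obtain ⟨C₁, hC₁, hT1⟩ := hT ε₁ hε₁
  obtain ⟨C₃, hC₃, hRB⟩ := BX.RB ε₁ hε₁
  obtain ⟨N₁, hN₁⟩ := pois0
  obtain ⟨N₂, hN₂⟩ : ∃ N₂ : ℕ, ∀ N : ℕ, N₂ ≤ N → Real.log N ≤ (N : ℝ) ^ (ε₀ / 8) := by
    have h1 := (isLittleO_log_rpow_atTop (by positivity : 0 < ε₀ / 8)).bound (one_pos)
    have h2 := (tendsto_natCast_atTop_atTop (R := ℝ)).eventually h1
    have h3 := h2.and (Filter.eventually_ge_atTop 1)
    obtain ⟨N₂, hN₂⟩ := Filter.eventually_atTop.mp h3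
    refine ⟨N₂, fun N hN => ?_⟩
    obtain ⟨h4, h5⟩ := hN₂ N hN
    rw [one_mul, Real.norm_eq_abs, Real.norm_eq_abs, abs_of_nonneg (Real.log_natCast_nonneg N),
      abs_of_nonneg (by positivity)] at h4
    exact h4
  have hbig : ∀ κ : ℝ, 0 < κ → ∃ N₃ : ℕ, ∀ N : ℕ, N₃ ≤ N → (2 : ℝ) ≤ (N : ℝ) ^ κ := by
    intro κ hκ
    have h := ((tendsto_rpow_atTop hκ).comp tendsto_natCast_atTop_atTop).eventually
      (Filter.eventually_ge_atTop (2 : ℝ))
    obtain ⟨N₃, h3⟩ := Filter.eventually_atTop.1 h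
    exact ⟨N₃, fun N hN => h3 N hN⟩
  obtain ⟨N₃, hN₃⟩ := hbig ε₁ hε₁
  obtain ⟨N₄, hN₄⟩ := hbig (ε₀ / 4) (by positivity)
  obtain ⟨η₁, hη₁, g1, g2, g3⟩ : ∃ η₁ : ℝ, 0 < η₁ ∧ η₁ ≤ η' / 4 ∧ η₁ ≤ ε₁ / 4 ∧ η₁ ≤ 1 / 2 :=
    ⟨min (η' / 4) (min (ε₁ / 4) (1 / 2)), lt_min (by positivity) (lt_min (by positivity)
      (by norm_num)), min_le_left _ _, (min_le_right _ _).trans (min_le_left _ _),
      (min_le_right _ _).trans (min_le_right _ _)⟩
  obtain ⟨N₅, hN₅⟩ := exists_l (min ε₁ ε₀') (lt_min hε₁ hε₀')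
  set N₀ : ℕ := max (max N₁ N₂) (max (max N₃ N₅) N₄) with hN₀
  set Cs : ℝ := ∑ N ∈ range N₀, ((∑' n : ℤ, Wt N n) * (N : ℝ) ^ 3 + (N : ℝ) ^ 3) with hCs
  have hWn : ∀ N : ℕ, 0 ≤ (∑' n : ℤ, Wt N n) * (N : ℝ) ^ 3 + (N : ℝ) ^ 3 := fun N =>
    add_nonneg (mul_nonneg (tsum_nonneg fun n => (Wt_pos N n).le) (by positivity))
      (by positivity)
  have hCs0 : 0 ≤ Cs := Finset.sum_nonneg fun N _ => hWn N
  refine ⟨η₁, C₁ + 3 + C₃ + Cs, hη₁, by positivity, ?_⟩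
  intro X Z hX hZ S Cl Y R y Φ m hy hS hEx hR hYη hm a a' ha ha' haa hCl c c' hc hc'
  obtain ⟨s, φ, hΦ, hY, hs, hmv⟩ := hEx
  have hX1 : (1 : ℝ) ≤ X := by exact_mod_cast (by omega : 1 ≤ X)
  have hX0 : (0 : ℝ) < X := by linarith
  have hXle : ∀ s t : ℝ, s ≤ t → (X : ℝ) ^ s ≤ (X : ℝ) ^ t := fun s t hst =>
    Real.rpow_le_rpow_of_exponent_le hX1 hst
  have hZX : (Z : ℝ) ≤ X := hZ.trans (by
    have := hXle (1 / 2 + ε₀ / 4) 1 (by linarith)
    rwa [Real.rpow_one] at this)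
  have hYX : Y ≤ X := hYη.trans (by
    have := hXle η 1 (by linarith)
    rwa [Real.rpow_one] at this)
  have hpow1 : (1 : ℝ) ≤ (X : ℝ) ^ (1 - η₁) := Real.one_le_rpow hX1 (by linarith)
  rcases lt_or_ge X N₀ with hlt | hge
  · have h1 := triv X Z (by omega) hZX Y m hYX hm s φ Φ hΦ hY a a' c c' hc.bd hc'.bd
    have h2 := Finset.single_le_sum
      (f := fun N : ℕ => (∑' n : ℤ, Wt N n) * (N : ℝ) ^ 3 + (N : ℝ) ^ 3)
      (fun N _ => hWn N) (Finset.mem_range.2 hlt)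
    calc _ ≤ _ := h1
      _ ≤ Cs := h2
      _ ≤ (C₁ + 3 + C₃ + Cs) * 1 := by linarith
      _ ≤ (C₁ + 3 + C₃ + Cs) * (X : ℝ) ^ (1 - η₁) :=
          mul_le_mul_of_nonneg_left hpow1 (by positivity)
  · have hge1 : N₁ ≤ X := (le_max_left _ _).trans ((le_max_left _ _).trans hge)
    have hge2 : N₂ ≤ X := (le_max_right _ _).trans ((le_max_left _ _).trans hge)
    have hge3 : N₃ ≤ X := (le_max_left _ _).trans ((le_max_left _ _).trans
      ((le_max_right _ _).trans hge))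
    have hge5 : N₅ ≤ X := (le_max_right _ _).trans ((le_max_left _ _).trans
      ((le_max_right _ _).trans hge))
    have hge4 : N₄ ≤ X := (le_max_right _ _).trans ((le_max_right _ _).trans hge)
    have hP : ∀ m : ℕ, 1 ≤ m → (m : ℝ) ≤ (X : ℝ) ^ (1 - ε₀ / 8) → ∀ c : ℤ,
        |∑' n : ℤ, (if (m : ℤ) ∣ n - c then Wt X n else 0) - X / m| ≤ 1 / (X : ℝ) ^ 5 := by
      intro m hm1 hmX c
      refine hN₁ X hge1 m hm1 ?_ ?_ c
      · refine hmX.trans ?_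
        rw [← Real.rpow_natCast (X : ℝ) 3]
        apply hXle
        push_cast
        linarith
      · calc (m : ℝ) * Real.log X ≤ (X : ℝ) ^ (1 - ε₀ / 8) * (X : ℝ) ^ (ε₀ / 8) :=
              mul_le_mul hmX (hN₂ X hge2) (Real.log_natCast_nonneg X) (by positivity)
          _ = X := by
              rw [← Real.rpow_add hX0, show 1 - ε₀ / 8 + ε₀ / 8 = 1 by ring,
                Real.rpow_one]
    -- every residue class
    have hE : ∀ x ∈ s, |∑ d ∈ Icc 1 Z, ∑ d' ∈ (Icc 1 Z).filter (fun d' => Nat.Coprime d d'),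
        c d * c' d' * (SEb X x.2 a a' x.1 d d' - X / (x.1 * d * d'))| ≤
        C₁ * (X : ℝ) ^ (1 - η') + 3 := by
      intro x hx
      obtain ⟨q1, q2, q5⟩ := hs x hx
      have hqX : x.1 ≤ X := by
        have h1 : (x.1 : ℝ) ≤ (X : ℝ) ^ (1 : ℝ) :=
          (q2.trans hR).trans (hXle _ _ (by linarith))
        rw [Real.rpow_one] at h1
        exact_mod_cast h1
      obtain ⟨l, hl3, hlo, hql, hlX⟩ := hN₅ X hge5 x.1 q1 hqX
      have hl1 : (l : ℝ) ≤ (X : ℝ) ^ ε₀' := hlX.trans (hXle _ _ (min_le_right _ _))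
      have hl2 : (l : ℝ) ≤ y := (hlX.trans (hXle _ _ (min_le_left _ _))).trans hy
      have hq0 : (0 : ℤ) < (x.1 : ℤ) := by exact_mod_cast q1
      have hb : |((x.2 % (x.1 : ℤ) : ℤ) : ℝ)| ≤ x.1 := by
        have b1 := Int.emod_nonneg x.2 hq0.ne'
        have b2 := Int.emod_lt_of_pos x.2 hq0
        rw [abs_of_nonneg (by exact_mod_cast b1)]
        have b3 : ((x.2 % (x.1 : ℤ) : ℤ) : ℝ) < ((x.1 : ℤ) : ℝ) := by exact_mod_cast b2
        have b4 : ((x.1 : ℤ) : ℝ) = (x.1 : ℝ) := by simp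
        linarith
      have h := perxl ε₀ ε₀' η' ε₁ C₁ hε₀ hε₀1 hε₀2 X hX
        (fun q D0 Z l k1 k2 k3 k4 k5 k6 k6' k6'' k7 b a a' k8 k9 k10 k11 c c' k12 k13 k14 k15 =>
          hT1 X q D0 Z l hX k1 k2 k3 k4 k5 k6 k6' k6'' k7 b a a' k8 k9 k10 k11 c c' k12 k13 k14
            k15) hP (hN₃ X hge3) (hN₄ X hge4) Z hZ S Cl y hy hS x.1
        (x.2 % (x.1 : ℤ)) q1 (q2.trans hR) l hl3 hlo hql hl1 hl2 q5 hb a a' ha ha' haa c c' hc hc'
      have e : ∑ d ∈ Icc 1 Z, ∑ d' ∈ (Icc 1 Z).filter (fun d' => Nat.Coprime d d'),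
          c d * c' d' * (SEb X x.2 a a' x.1 d d' - X / (x.1 * d * d')) =
          ∑ d ∈ Icc 1 Z, ∑ d' ∈ (Icc 1 Z).filter (fun d' => Nat.Coprime d d'),
          c d * c' d' * (SEb X (x.2 % (x.1 : ℤ)) a a' x.1 d d' - X / (x.1 * d * d')) :=
        Finset.sum_congr rfl fun d _ => Finset.sum_congr rfl fun d' _ => by
          rw [SEb_shift X x.2 a a' x.1 d d']
      rw [e]
      exact h
    have hnc := ncsum ε₁ C₃ X Z (by exact_mod_cast hZX) Cl y hy (hRB X hX) c c' hc hc'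
    set K : ℝ := ∑ d ∈ Icc 1 Z, ∑ d' ∈ (Icc 1 Z).filter (fun d' => Nat.Coprime d d'),
      c d * c' d' / (d * d') with hK
    set K' : ℝ := ∑ d ∈ Icc 1 Z, ∑ d' ∈ (Icc 1 Z).filter (fun d' => ¬ Nat.Coprime d d'),
      c d * c' d' / (d * d') with hK'
    have hKK : (∑ d ∈ Icc 1 Z, c d / d) * (∑ d ∈ Icc 1 Z, c' d / d) = K + K' := by
      rw [hK, hK', ← Finset.sum_add_distrib, Finset.sum_mul_sum]
      refine Finset.sum_congr rfl fun d _ => ?_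
      rw [Finset.sum_filter_add_sum_filter_not]
      refine Finset.sum_congr rfl fun d' _ => ?_
      rw [div_mul_div_comm]
    set E : ℕ × ℤ → ℝ := fun x => ∑ d ∈ Icc 1 Z,
      ∑ d' ∈ (Icc 1 Z).filter (fun d' => Nat.Coprime d d'),
        c d * c' d' * (SEb X x.2 a a' x.1 d d' - X / (x.1 * d * d')) with hEdef
    have hone : ∀ x ∈ s, φ x * ∑ d ∈ Icc 1 Z, ∑ d' ∈ Icc 1 Z,
        c d * c' d' * SEb X x.2 a a' x.1 d d' = φ x * E x + X * (φ x / x.1) * K := by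
      intro x hx
      have hxq : (0 : ℝ) < x.1 := by exact_mod_cast (hs x hx).1
      have e1 : ∑ d ∈ Icc 1 Z, ∑ d' ∈ Icc 1 Z, c d * c' d' * SEb X x.2 a a' x.1 d d' =
          E x + X / x.1 * K := by
        rw [hEdef, hK, Finset.mul_sum]
        dsimp only
        rw [← Finset.sum_add_distrib]
        refine Finset.sum_congr rfl fun d hd => ?_
        rw [Finset.mul_sum, ← Finset.sum_add_distrib,
          ← Finset.sum_filter_add_sum_filter_not (Icc 1 Z) (fun d' => Nat.Coprime d d')]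
        have e2 : ∑ d' ∈ (Icc 1 Z).filter (fun d' => ¬ Nat.Coprime d d'),
            c d * c' d' * SEb X x.2 a a' x.1 d d' = 0 := by
          refine Finset.sum_eq_zero fun d' hd' => ?_
          by_cases h0 : c d = 0
          · rw [h0]; ring
          · rw [SEb_nc hc hCl X x.2 x.1 d d' h0 (mem_filter.1 hd').2, mul_zero]
        rw [e2, add_zero]
        refine Finset.sum_congr rfl fun d' hd' => ?_
        have hd0 : (0 : ℝ) < d := by exact_mod_cast (mem_Icc.1 hd).1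
        have hd0' : (0 : ℝ) < d' := by exact_mod_cast (mem_Icc.1 (mem_filter.1 hd').1).1
        field_simp
        ring
      rw [e1]
      field_simp
    have hexp := (expand X Z (by omega) a a' c c' s φ Φ hΦ).tsum_eq
    have hmain : ∑' n : ℤ, Wt X n * (Φ n * (ds c Z (n - a) * ds c' Z (n - a'))) -
        X * (m * ((∑ d ∈ Icc 1 Z, c d / d) * (∑ d ∈ Icc 1 Z, c' d / d))) =
        ∑ x ∈ s, φ x * E x - X * m * K' := by
      rw [hexp, Finset.sum_congr rfl hone, Finset.sum_add_distrib, hKK, hmv,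
        ← Finset.sum_mul, ← Finset.mul_sum]
      ring
    rw [hmain]
    have hB0 : 0 ≤ C₁ * (X : ℝ) ^ (1 - η') + 3 := by positivity
    have t1 : |∑ x ∈ s, φ x * E x| ≤ Y * (C₁ * (X : ℝ) ^ (1 - η') + 3) := by
      refine (Finset.abs_sum_le_sum_abs _ _).trans ?_
      calc ∑ x ∈ s, |φ x * E x| ≤ ∑ x ∈ s, |φ x| * (C₁ * (X : ℝ) ^ (1 - η') + 3) := by
            refine Finset.sum_le_sum fun x hx => ?_
            rw [abs_mul]
            exact mul_le_mul_of_nonneg_left (hE x hx) (abs_nonneg _)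
        _ = (∑ x ∈ s, |φ x|) * (C₁ * (X : ℝ) ^ (1 - η') + 3) := by rw [Finset.sum_mul]
        _ ≤ Y * (C₁ * (X : ℝ) ^ (1 - η') + 3) := mul_le_mul_of_nonneg_right hY hB0
    have t2 : |X * m * K'| ≤ X * (C₃ * (X : ℝ) ^ (-(ε₁ / 2))) := by
      rw [abs_mul, abs_mul, abs_of_pos hX0]
      calc X * |m| * |K'| ≤ X * 1 * (C₃ * (X : ℝ) ^ (-(ε₁ / 2))) :=
            mul_le_mul (mul_le_mul_of_nonneg_left hm hX0.le) hnc (abs_nonneg _) (by positivity)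
        _ = _ := by ring
    have t3 : Y * (C₁ * (X : ℝ) ^ (1 - η') + 3) ≤ (C₁ + 3) * (X : ℝ) ^ (1 - η₁) := by
      have u1 : (X : ℝ) ^ η * (X : ℝ) ^ (1 - η') ≤ (X : ℝ) ^ (1 - η₁) := by
        rw [← Real.rpow_add hX0]
        exact hXle _ _ (by linarith)
      have u2 : (X : ℝ) ^ η ≤ (X : ℝ) ^ (1 - η₁) := hXle _ _ (by linarith)
      calc Y * (C₁ * (X : ℝ) ^ (1 - η') + 3) ≤ (X : ℝ) ^ η * (C₁ * (X : ℝ) ^ (1 - η') + 3) :=
            mul_le_mul_of_nonneg_right hYη hB0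
        _ = C₁ * ((X : ℝ) ^ η * (X : ℝ) ^ (1 - η')) + 3 * (X : ℝ) ^ η := by ring
        _ ≤ C₁ * (X : ℝ) ^ (1 - η₁) + 3 * (X : ℝ) ^ (1 - η₁) :=
            add_le_add (mul_le_mul_of_nonneg_left u1 hC₁.le)
              (mul_le_mul_of_nonneg_left u2 (by norm_num))
        _ = _ := by ring
    have t4 : X * (C₃ * (X : ℝ) ^ (-(ε₁ / 2))) ≤ C₃ * (X : ℝ) ^ (1 - η₁) := by
      have u1 : (X : ℝ) * (X : ℝ) ^ (-(ε₁ / 2)) ≤ (X : ℝ) ^ (1 - η₁) := by
        nth_rewrite 1 [← Real.rpow_one (X : ℝ)]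
        rw [← Real.rpow_add hX0]
        exact hXle _ _ (by linarith)
      calc X * (C₃ * (X : ℝ) ^ (-(ε₁ / 2))) = C₃ * (X * (X : ℝ) ^ (-(ε₁ / 2))) := by ring
        _ ≤ _ := mul_le_mul_of_nonneg_left u1 hC₃.le
    have t5 : 0 ≤ Cs * (X : ℝ) ^ (1 - η₁) := by positivity
    calc |∑ x ∈ s, φ x * E x - X * m * K'| ≤ |∑ x ∈ s, φ x * E x| + |X * m * K'| := abs_sub _ _
      _ ≤ (C₁ + 3) * (X : ℝ) ^ (1 - η₁) + C₃ * (X : ℝ) ^ (1 - η₁) :=
          add_le_add (t1.trans t3) (t2.trans t4)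
      _ ≤ (C₁ + 3 + C₃ + Cs) * (X : ℝ) ^ (1 - η₁) := by linarith


end Pool.Agent.TH899.UG
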