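import Pool.Agent.TH899.UG.Stm
import Pool.Agent.TH899.UG.R2g

/-! The product of two rough divisor sums of linear forms beyond the level one half. -/

set_option autoImplicit false

namespace Pool.Agent.TH899.UG

open Finset
open Pool.Agent.W25.UB
open Pool.Agent.H442R2
open Pool.Agent.H442R2.KF

theorem Wt_scale (S X : ℕ) (hS : 1 ≤ S) (n : ℤ) : Wt (S * X) ((S : ℤ) * n) = Wt X n := by
  unfold Wt
  congr 3
  push_cast
  have hS0 : (S : ℝ) ≠ 0 := by
    have : 0 < S := hS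
    exact_mod_cast this.ne'
  rw [mul_div_mul_left _ _ hS0]

theorem ds_abs (c : ℕ → ℝ) (Z : ℕ) (hc : ∀ d, |c d| ≤ 1) (m : ℤ) : |ds c Z m| ≤ Z := by
  unfold ds
  refine (Finset.abs_sum_le_sum_abs _ _).trans ?_
  calc ∑ d ∈ Icc 1 Z, |c d * (if (d : ℤ) ∣ m then 1 else 0)| ≤ ∑ _d ∈ Icc 1 Z, (1 : ℝ) := by
        refine Finset.sum_le_sum fun d _ => ?_
        rw [abs_mul]
        split_ifs
        · rw [abs_one, mul_one]; exact hc d
        · rw [abs_zero, mul_zero]; exact zero_le_one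
    _ = Z := by simp

theorem sumdiv_abs (c : ℕ → ℝ) (Z : ℕ) (hc : ∀ d, |c d| ≤ 1) : |∑ d ∈ Icc 1 Z, c d / d| ≤ Z := by
  refine (Finset.abs_sum_le_sum_abs _ _).trans ?_
  calc ∑ d ∈ Icc 1 Z, |c d / d| ≤ ∑ _d ∈ Icc 1 Z, (1 : ℝ) := by
        refine Finset.sum_le_sum fun d hd => ?_
        have hd1 : (1 : ℝ) ≤ d := by exact_mod_cast (Finset.mem_Icc.1 hd).1
        rw [abs_div, abs_of_pos (by linarith : (0 : ℝ) < d), div_le_one (by linarith)]
        exact (hc d).trans hd1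
    _ = Z := by simp

/-- divisors coprime to a factor -/
theorem ds_fac (c : ℕ → ℝ) (Z : ℕ) (v m : ℤ) (h : ∀ d, c d ≠ 0 → IsCoprime (d : ℤ) v) :
    ds c Z (v * m) = ds c Z m := by
  unfold ds
  refine Finset.sum_congr rfl fun d _ => ?_
  by_cases hd : c d = 0
  · rw [hd, zero_mul, zero_mul]
  · have h1 : ((d : ℤ) ∣ v * m) ↔ ((d : ℤ) ∣ m) :=
      ⟨fun h2 => (h d hd).dvd_of_dvd_mul_left h2, fun h2 => h2.mul_left v⟩
    by_cases h3 : (d : ℤ) ∣ m
    · rw [if_pos h3, if_pos (h1.2 h3)]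
    · rw [if_neg h3, if_neg (fun h4 => h3 (h1.1 h4))]

theorem trivL (X Z : ℕ) (hX : 1 ≤ X) (hZX : (Z : ℝ) ≤ X) (Y m : ℝ) (hYX : Y ≤ X) (hm : |m| ≤ 1)
    (S : ℕ → Prop) (R : ℝ) (Φ : ℤ → ℝ) (hEx : Ex S Y R Φ m) (u w u' w' : ℤ) (c c' : ℕ → ℝ)
    (hc : ∀ d, |c d| ≤ 1) (hc' : ∀ d, |c' d| ≤ 1) :
    |∑' n : ℤ, Wt X n * (Φ n * (ds c Z (u * n + w) * ds c' Z (u' * n + w'))) -
      X * (m * ((∑ d ∈ Icc 1 Z, c d / d) * (∑ d ∈ Icc 1 Z, c' d / d)))| ≤
      (∑' n : ℤ, Wt X n) * (X : ℝ) ^ 3 + (X : ℝ) ^ 3 := by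
  have hX0 : (0 : ℝ) ≤ X := Nat.cast_nonneg _
  have hZ0 : (0 : ℝ) ≤ Z := Nat.cast_nonneg _
  have hs := TaskS.summable_Wt X hX
  obtain ⟨s, φ, hΦ, hY, _, _⟩ := hEx
  have hΦb : ∀ n, |Φ n| ≤ X := by
    intro n
    rw [hΦ n]
    refine (Finset.abs_sum_le_sum_abs _ _).trans (le_trans ?_ (hY.trans hYX))
    refine Finset.sum_le_sum fun x _ => ?_
    rw [abs_mul]
    split_ifs
    · rw [abs_one, mul_one]
    · rw [abs_zero, mul_zero]; exact abs_nonneg _
  have hb : ∀ n : ℤ, ‖Wt X n * (Φ n * (ds c Z (u * n + w) * ds c' Z (u' * n + w')))‖ ≤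
      (X : ℝ) ^ 3 * Wt X n := by
    intro n
    have k3 : 0 ≤ Wt X n := (Real.exp_pos _).le
    rw [Real.norm_eq_abs, abs_mul, abs_mul, abs_mul, abs_of_nonneg k3]
    calc Wt X n * (|Φ n| * (|ds c Z (u * n + w)| * |ds c' Z (u' * n + w')|))
        ≤ Wt X n * (X * (X * X)) := by
          refine mul_le_mul_of_nonneg_left ?_ k3
          refine mul_le_mul (hΦb n) ?_ (by positivity) hX0
          exact mul_le_mul ((ds_abs c Z hc _).trans hZX) ((ds_abs c' Z hc' _).trans hZX)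
            (abs_nonneg _) hX0
      _ = (X : ℝ) ^ 3 * Wt X n := by ring
  have h := tsum_of_norm_bounded (hs.mul_left ((X : ℝ) ^ 3)).hasSum hb
  rw [Real.norm_eq_abs, tsum_mul_left] at h
  have h2 : |(X : ℝ) * (m * ((∑ d ∈ Icc 1 Z, c d / d) * (∑ d ∈ Icc 1 Z, c' d / d)))| ≤
      (X : ℝ) ^ 3 := by
    rw [abs_mul, abs_mul, abs_mul, abs_of_nonneg hX0]
    calc (X : ℝ) * (|m| * (|∑ d ∈ Icc 1 Z, c d / d| * |∑ d ∈ Icc 1 Z, c' d / d|))
        ≤ X * (1 * (X * X)) := by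
          refine mul_le_mul_of_nonneg_left ?_ hX0
          refine mul_le_mul hm ?_ (by positivity) zero_le_one
          exact mul_le_mul ((sumdiv_abs c Z hc).trans hZX) ((sumdiv_abs c' Z hc').trans hZX)
            (abs_nonneg _) hX0
      _ = (X : ℝ) ^ 3 := by ring
  refine (abs_sub _ _).trans ?_
  rw [mul_comm] at h
  exact add_le_add h h2

theorem R2L (h : St_R2g) : ∃ ε₀ η : ℝ, 0 < ε₀ ∧ ε₀ ≤ 1 / 100 ∧ 0 < η ∧ η ≤ 1 / 100 ∧
    R2LAt ε₀ η := by
  obtain ⟨ε₀, η, hε₀, hε₀1, hη, hη1, H⟩ := h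
  refine ⟨ε₀, η, hε₀, hε₀1, hη, hη1, ?_⟩
  intro ε₁ hε₁ hε₁1
  obtain ⟨η₁, C₁, hη₁, hC₁, HH⟩ := H (ε₁ / 2) (by linarith) (by linarith)
  set η₂ : ℝ := min η₁ (1 / 2) with hη₂
  have hη₂0 : 0 < η₂ := lt_min hη₁ (by norm_num)
  have hη₂1 : η₂ ≤ η₁ := min_le_left _ _
  have hη₂2 : η₂ ≤ 1 / 2 := min_le_right _ _
  refine ⟨η₂, hη₂0, fun U hU => ?_⟩
  have hbig : ∀ κ : ℝ, 0 < κ → ∃ N₃ : ℕ, ∀ N : ℕ, N₃ ≤ N → (U : ℝ) ^ 2 + 2 ≤ (N : ℝ) ^ κ := by
    intro κ hκ
    have h := ((tendsto_rpow_atTop hκ).comp tendsto_natCast_atTop_atTop).eventually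
      (Filter.eventually_ge_atTop ((U : ℝ) ^ 2 + 2))
    obtain ⟨N₃, h3⟩ := Filter.eventually_atTop.1 h
    exact ⟨N₃, fun N hN => h3 N hN⟩
  obtain ⟨N₁, hN₁⟩ := hbig ε₁ hε₁
  obtain ⟨N₂, hN₂⟩ := hbig (ε₀ / 40) (by linarith)
  set N₀ : ℕ := max (max N₁ N₂) 16 with hN₀
  set Cs : ℝ := ∑ N ∈ range N₀, ((∑' n : ℤ, Wt N n) * (N : ℝ) ^ 3 + (N : ℝ) ^ 3) with hCs
  have hWn : ∀ N : ℕ, 0 ≤ (∑' n : ℤ, Wt N n) * (N : ℝ) ^ 3 + (N : ℝ) ^ 3 := fun N =>
    add_nonneg (mul_nonneg (tsum_nonneg fun n => (Real.exp_pos _).le) (by positivity))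
      (by positivity)
  have hCs0 : 0 ≤ Cs := Finset.sum_nonneg fun N _ => hWn N
  have hU1 : (1 : ℝ) ≤ U := by exact_mod_cast hU
  refine ⟨C₁ * (U : ℝ) ^ 2 + Cs, by positivity, ?_⟩
  intro X Z hX hZ S Cl Y R y Φ m hy hS hEx hR hYη hm u w u' w' hu hu' huU hu'U hw hw' hne hCl
    c c' hc hc'
  have hX1 : (1 : ℝ) ≤ X := by exact_mod_cast (by omega : 1 ≤ X)
  have hX0 : (0 : ℝ) < X := by linarith
  have hXle : ∀ s t : ℝ, s ≤ t → (X : ℝ) ^ s ≤ (X : ℝ) ^ t := fun s t hst =>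
    Real.rpow_le_rpow_of_exponent_le hX1 hst
  have hZX : (Z : ℝ) ≤ X := hZ.trans (by
    have := hXle (1 / 2 + ε₀ / 4) 1 (by linarith)
    rwa [Real.rpow_one] at this)
  have hYX : Y ≤ X := hYη.trans (by
    have := hXle η 1 (by linarith)
    rwa [Real.rpow_one] at this)
  have hpow1 : (1 : ℝ) ≤ (X : ℝ) ^ (1 - η₂) := Real.one_le_rpow hX1 (by linarith)
  rcases lt_or_ge X N₀ with hlt | hge
  · have h1 := trivL X Z (by omega) hZX Y m hYX hm S R Φ hEx u w u' w' c c' hc.bd hc'.bd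
    have h2 := Finset.single_le_sum
      (f := fun N : ℕ => (∑' n : ℤ, Wt N n) * (N : ℝ) ^ 3 + (N : ℝ) ^ 3)
      (fun N _ => hWn N) (Finset.mem_range.2 hlt)
    have h3 : 0 ≤ C₁ * (U : ℝ) ^ 2 := by positivity
    calc _ ≤ _ := h1
      _ ≤ Cs := h2
      _ ≤ (C₁ * (U : ℝ) ^ 2 + Cs) * 1 := by linarith
      _ ≤ _ := mul_le_mul_of_nonneg_left hpow1 (by positivity)
  · have hge1 : N₁ ≤ X := (le_max_left _ _).trans ((le_max_left _ _).trans hge)
    have hge2 : N₂ ≤ X := (le_max_right _ _).trans ((le_max_left _ _).trans hge)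
    have hge3 : 16 ≤ X := (le_max_right _ _).trans hge
    have hX16 : (16 : ℝ) ≤ X := by exact_mod_cast hge3
    have hb1 := hN₁ X hge1
    have hb2 := hN₂ X hge2
    have hUU : (U : ℝ) ≤ (U : ℝ) ^ 2 := by nlinarith
    have hUy : (U : ℝ) < y := by linarith
    have hUy2 : (U : ℝ) ^ 2 < y := by linarith
    -- the scaling factor
    have huu : u * u' ≠ 0 := mul_ne_zero hu hu'
    set S₀ : ℕ := (u * u').natAbs with hS₀
    set sg : ℤ := (u * u').sign with hsg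
    have hS₀1 : 1 ≤ S₀ := Int.natAbs_pos.2 huu
    have hsS : sg * (u * u') = (S₀ : ℤ) := by
      rw [hsg, hS₀, Int.sign_mul_self_eq_natAbs]
    have hsg1 : sg = 1 ∨ sg = -1 := by
      rcases lt_trichotomy (u * u') 0 with h1 | h1 | h1
      · right; rw [hsg]; exact Int.sign_eq_neg_one_of_neg h1
      · exact absurd h1 huu
      · left; rw [hsg]; exact Int.sign_eq_one_of_pos h1
    have hsg0 : sg ≠ 0 := by rcases hsg1 with h1 | h1 <;> rw [h1] <;> norm_num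
    have hS₀R : (S₀ : ℝ) = |(u : ℝ)| * |(u' : ℝ)| := by
      have h1 : ((S₀ : ℕ) : ℤ) = |u * u'| := by rw [hS₀, Int.abs_eq_natAbs]
      have h2 : ((S₀ : ℕ) : ℝ) = ((|u * u'| : ℤ) : ℝ) := by exact_mod_cast h1
      rw [h2]
      push_cast
      rw [abs_mul]
    have huR : |(u : ℝ)| ≤ U := by rw [← Int.cast_abs]; exact_mod_cast huU
    have hu'R : |(u' : ℝ)| ≤ U := by rw [← Int.cast_abs]; exact_mod_cast hu'U
    have hS₀U : (S₀ : ℝ) ≤ (U : ℝ) ^ 2 := by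
      rw [hS₀R, pow_two]
      exact mul_le_mul huR hu'R (abs_nonneg _) (by linarith)
    have hS₀1R : (1 : ℝ) ≤ S₀ := by exact_mod_cast hS₀1
    have hS₀0 : (0 : ℝ) < S₀ := by linarith
    set X' : ℕ := S₀ * X with hX'
    have hX'R : (X' : ℝ) = S₀ * X := by rw [hX']; push_cast; ring
    have hXX' : (X : ℝ) ≤ X' := by rw [hX'R]; nlinarith
    have hX'1 : (1 : ℝ) ≤ X' := hX1.trans hXX'
    -- primes of `d` are larger than `U`
    have hcop : ∀ (cc : ℕ → ℝ), RC Cl y Z cc → ∀ v : ℤ, v ≠ 0 → |v| ≤ U → ∀ d, cc d ≠ 0 →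
        IsCoprime (d : ℤ) (sg * v) := by
      intro cc hcc v hv hvU d hd
      rw [Int.isCoprime_iff_gcd_eq_one]
      have h1 : Int.gcd (d : ℤ) (sg * v) = Nat.gcd d v.natAbs := by
        rw [Int.gcd_def, Int.natAbs_natCast, Int.natAbs_mul]
        have : sg.natAbs = 1 := by rcases hsg1 with h2 | h2 <;> rw [h2] <;> rfl
        rw [this, one_mul]
      rw [h1]
      refine Nat.coprime_of_dvd ?_
      intro p hp hpd hpv
      have h2 := ((hcc.supp d hd).2.2 p hp hpd).1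
      have h3 : p ≤ v.natAbs := Nat.le_of_dvd (Int.natAbs_pos.2 hv) hpv
      have h4 : (v.natAbs : ℤ) ≤ U := by rw [← Int.abs_eq_natAbs]; exact hvU
      have h5 : v.natAbs ≤ U := by exact_mod_cast h4
      have h6 : (p : ℝ) ≤ U := by exact_mod_cast h3.trans h5
      linarith
    -- the function on the multiples of `S₀`
    obtain ⟨s, φ, hΦ, hY, hs, hmv⟩ := hEx
    set g : ℕ × ℤ → ℕ × ℤ := fun x => (S₀ * x.1, (S₀ : ℤ) * x.2) with hg
    have hginj : Function.Injective g := by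
      intro x y hxy
      simp only [hg, Prod.mk.injEq] at hxy
      have hz : (S₀ : ℤ) ≠ 0 := by exact_mod_cast (by omega : S₀ ≠ 0)
      exact Prod.ext (Nat.eq_of_mul_eq_mul_left (by omega) hxy.1) (mul_left_cancel₀ hz hxy.2)
    set Φ' : ℤ → ℝ := fun n => ∑ x ∈ s, φ x *
      (if ((S₀ * x.1 : ℕ) : ℤ) ∣ n - (S₀ : ℤ) * x.2 then 1 else 0) with hΦ'
    have hinv : ∀ x, Function.invFun g (g x) = x := Function.leftInverse_invFun hginj
    set R₁ : ℝ := max R 0 with hR₁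
    have hR₁0 : 0 ≤ R₁ := le_max_right _ _
    have hRR₁ : R ≤ R₁ := le_max_left _ _
    have hR₁X : R₁ ≤ (X : ℝ) ^ (ε₀ / 10) := max_le hR (by positivity)
    have hExG : ExG (fun p => S p ∨ (p : ℝ) ≤ y) Y (S₀ * R₁) Φ' (m / S₀) := by
      refine ⟨s.image g, fun z => φ (Function.invFun g z), ?_, ?_, ?_, ?_⟩
      · intro n
        rw [Finset.sum_image (fun x _ y _ hxy => hginj hxy)]
        simp only [hinv]
        rfl
      · rw [Finset.sum_image (fun x _ y _ hxy => hginj hxy)]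
        simp only [hinv]
        exact hY
      · intro z hz
        obtain ⟨x, hx, rfl⟩ := Finset.mem_image.1 hz
        obtain ⟨q1, q2, _, _, q5⟩ := hs x hx
        refine ⟨Nat.mul_pos hS₀1 q1, ?_, ?_⟩
        · simp only [hg]
          push_cast
          exact mul_le_mul_of_nonneg_left (q2.trans hRR₁) hS₀0.le
        · intro p hp hpd
          simp only [hg] at hpd
          rcases (Nat.Prime.dvd_mul hp).1 hpd with h1 | h1
          · right
            have h2 : p ≤ S₀ := Nat.le_of_dvd hS₀1 h1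
            have h3 : (p : ℝ) ≤ S₀ := by exact_mod_cast h2
            linarith
          · left
            exact q5 p hp h1
      · rw [Finset.sum_image (fun x _ y _ hxy => hginj hxy), hmv, Finset.sum_div]
        refine Finset.sum_congr rfl fun x _ => ?_
        simp only []
        rw [hinv]
        simp only [hg]
        push_cast
        rw [div_div, mul_comm (S₀ : ℝ) (x.1 : ℝ)]
    have hy' : (X' : ℝ) ^ (ε₁ / 2) ≤ y := by
      refine le_trans ?_ hy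
      have h1 : (S₀ : ℝ) ≤ X := by
        have h2 : (X : ℝ) ^ (ε₀ / 40) ≤ X := by
          have := hXle (ε₀ / 40) 1 (by linarith)
          rwa [Real.rpow_one] at this
        linarith
      have h2 : (X' : ℝ) ≤ (X : ℝ) ^ (2 : ℝ) := by
        rw [hX'R, Real.rpow_two, pow_two]
        exact mul_le_mul_of_nonneg_right h1 hX0.le
      calc (X' : ℝ) ^ (ε₁ / 2) ≤ ((X : ℝ) ^ (2 : ℝ)) ^ (ε₁ / 2) :=
            Real.rpow_le_rpow (by linarith) h2 (by linarith)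
        _ = (X : ℝ) ^ ε₁ := by
            rw [← Real.rpow_mul hX0.le]
            congr 1
            ring
    have hR' : (S₀ : ℝ) * R₁ ≤ (X' : ℝ) ^ (ε₀ / 8) := by
      calc (S₀ : ℝ) * R₁ ≤ (X : ℝ) ^ (ε₀ / 40) * (X : ℝ) ^ (ε₀ / 10) :=
            mul_le_mul (by linarith) hR₁X hR₁0 (by positivity)
        _ = (X : ℝ) ^ (ε₀ / 8) := by
            rw [← Real.rpow_add hX0]
            congr 1
            ring
        _ ≤ _ := Real.rpow_le_rpow hX0.le hXX' (by linarith)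
    have hZ' : (Z : ℝ) ≤ (X' : ℝ) ^ (1 / 2 + ε₀ / 4) :=
      hZ.trans (Real.rpow_le_rpow hX0.le hXX' (by linarith))
    have hYη' : Y ≤ (X' : ℝ) ^ η := hYη.trans (Real.rpow_le_rpow hX0.le hXX' hη.le)
    have hm' : |m / S₀| ≤ 1 := by
      rw [abs_div, abs_of_pos hS₀0, div_le_one hS₀0]
      linarith
    have hroot : ∀ r : ℤ, 4 * |(r : ℝ)| ≤ 3 * (X' : ℝ) → |(r : ℝ)| ≤ X' - (X' : ℝ) ^ (1 / 2 : ℝ) := by
      intro r hr
      have h6 : (X' : ℝ) ^ (1 / 2 : ℝ) ≤ X' / 4 := by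
        rw [← Real.sqrt_eq_rpow, Real.sqrt_le_iff]
        refine ⟨by positivity, ?_⟩
        nlinarith
      linarith
    have hsgabs : |(sg : ℝ)| = 1 := by rcases hsg1 with h1 | h1 <;> rw [h1] <;> norm_num
    have ha : 4 * |((-(sg * (u' * w)) : ℤ) : ℝ)| ≤ 3 * (X' : ℝ) := by
      push_cast
      rw [abs_neg, abs_mul, abs_mul, hsgabs, one_mul, hX'R, hS₀R]
      have h1 : 0 ≤ |(u' : ℝ)| := abs_nonneg _
      calc 4 * (|(u' : ℝ)| * |(w : ℝ)|) = |(u' : ℝ)| * (4 * |(w : ℝ)|) := by ring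
        _ ≤ |(u' : ℝ)| * (3 * |(u : ℝ)| * X) := mul_le_mul_of_nonneg_left hw h1
        _ = _ := by ring
    have ha' : 4 * |((-(sg * (u * w')) : ℤ) : ℝ)| ≤ 3 * (X' : ℝ) := by
      push_cast
      rw [abs_neg, abs_mul, abs_mul, hsgabs, one_mul, hX'R, hS₀R]
      have h1 : 0 ≤ |(u : ℝ)| := abs_nonneg _
      calc 4 * (|(u : ℝ)| * |(w' : ℝ)|) = |(u : ℝ)| * (4 * |(w' : ℝ)|) := by ring
        _ ≤ |(u : ℝ)| * (3 * |(u' : ℝ)| * X) := mul_le_mul_of_nonneg_left hw' h1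
        _ = _ := by ring
    have hdiff : -(sg * (u' * w)) - -(sg * (u * w')) = -sg * (u' * w - u * w') := by ring
    have haa : -(sg * (u' * w)) ≠ -(sg * (u * w')) := by
      intro h1
      have h2 : -sg * (u' * w - u * w') = 0 := by rw [← hdiff, h1, sub_self]
      rcases mul_eq_zero.1 h2 with h3 | h3
      · exact hsg0 (neg_eq_zero.1 h3)
      · exact hne h3
    have hCl' : ∀ p : ℕ, p.Prime → y < (p : ℝ) → (p : ℤ) ∣ -(sg * (u' * w)) - -(sg * (u * w')) →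
        Cl p := by
      intro p hp hyp hpd
      apply hCl p hp hyp
      rw [hdiff] at hpd
      rcases hsg1 with h1 | h1
      · rw [h1] at hpd
        rw [neg_one_mul] at hpd
        exact (dvd_neg).1 hpd
      · rw [h1] at hpd
        rw [neg_neg, one_mul] at hpd
        exact hpd
    have hmain := HH X' Z (by
        have : 1 * 16 ≤ S₀ * X := Nat.mul_le_mul hS₀1 hge3
        omega) hZ' (fun p => S p ∨ (p : ℝ) ≤ y) Cl Y (S₀ * R₁) y Φ' (m / S₀) hy'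
      (fun p hp => by
        rcases hp with h1 | h1
        · exact hS p h1
        · exact h1) hExG hR' hYη' hm' (-(sg * (u' * w))) (-(sg * (u * w'))) (hroot _ ha)
      (hroot _ ha') haa hCl' c c' hc hc'
    -- the sum over the multiples of `S₀`
    have hSz : (S₀ : ℤ) ≠ 0 := by exact_mod_cast (by omega : S₀ ≠ 0)
    have hinj2 : Function.Injective (fun n : ℤ => (S₀ : ℤ) * n) := fun a b hab =>
      mul_left_cancel₀ hSz hab
    have hts : ∑' n : ℤ, Wt X' n * (Φ' n * (ds c Z (n - -(sg * (u' * w))) *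
        ds c' Z (n - -(sg * (u * w'))))) =
        ∑' n : ℤ, Wt X n * (Φ n * (ds c Z (u * n + w) * ds c' Z (u' * n + w'))) := by
      rw [← hinj2.tsum_eq (f := fun n : ℤ => Wt X' n * (Φ' n * (ds c Z (n - -(sg * (u' * w))) *
        ds c' Z (n - -(sg * (u * w'))))))]
      · refine tsum_congr fun n => ?_
        have e1 : Wt X' ((S₀ : ℤ) * n) = Wt X n := Wt_scale S₀ X hS₀1 n
        have e2 : Φ' ((S₀ : ℤ) * n) = Φ n := by
          rw [hΦ n]
          refine Finset.sum_congr rfl fun x _ => ?_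
          have h1 : (S₀ : ℤ) * n - (S₀ : ℤ) * x.2 = (S₀ : ℤ) * (n - x.2) := by ring
          have h2 : (((S₀ * x.1 : ℕ) : ℤ) ∣ (S₀ : ℤ) * n - (S₀ : ℤ) * x.2) ↔ ((x.1 : ℤ) ∣ n - x.2) := by
            rw [h1]
            push_cast
            exact mul_dvd_mul_iff_left hSz
          by_cases h3 : (x.1 : ℤ) ∣ n - x.2
          · rw [if_pos h3, if_pos (h2.2 h3)]
          · rw [if_neg h3, if_neg (fun h4 => h3 (h2.1 h4))]
        have e3 : (S₀ : ℤ) * n - -(sg * (u' * w)) = (sg * u') * (u * n + w) := by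
          rw [← hsS]; ring
        have e4 : (S₀ : ℤ) * n - -(sg * (u * w')) = (sg * u) * (u' * n + w') := by
          rw [← hsS]; ring
        rw [e1, e2, e3, e4, ds_fac c Z (sg * u') _ (hcop c hc u' hu' hu'U),
          ds_fac c' Z (sg * u) _ (hcop c' hc' u hu huU)]
      · intro n hn
        rw [Function.mem_support] at hn
        have h1 : Φ' n ≠ 0 := by
          intro h0
          apply hn
          rw [h0]
          ring
        obtain ⟨x, hx, hxne⟩ := Finset.exists_ne_zero_of_sum_ne_zero h1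
        have h2 : ((S₀ * x.1 : ℕ) : ℤ) ∣ n - (S₀ : ℤ) * x.2 := by
          by_contra h3
          apply hxne
          rw [if_neg h3, mul_zero]
        have h3 : (S₀ : ℤ) ∣ n - (S₀ : ℤ) * x.2 := by
          refine dvd_trans ?_ h2
          push_cast
          exact dvd_mul_right _ _
        have h4 : (S₀ : ℤ) ∣ n := by
          have := dvd_add h3 (dvd_mul_right (S₀ : ℤ) x.2)
          rwa [sub_add_cancel] at this
        obtain ⟨t, ht⟩ := h4
        exact ⟨t, ht.symm⟩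
    rw [hts] at hmain
    have hXm : (X' : ℝ) * (m / S₀ * ((∑ d ∈ Icc 1 Z, c d / d) * (∑ d ∈ Icc 1 Z, c' d / d))) =
        X * (m * ((∑ d ∈ Icc 1 Z, c d / d) * (∑ d ∈ Icc 1 Z, c' d / d))) := by
      rw [hX'R]
      field_simp
    rw [hXm] at hmain
    refine hmain.trans ?_
    have h1 : (X' : ℝ) ^ (1 - η₁) ≤ (U : ℝ) ^ 2 * (X : ℝ) ^ (1 - η₂) := by
      calc (X' : ℝ) ^ (1 - η₁) ≤ (X' : ℝ) ^ (1 - η₂) :=
            Real.rpow_le_rpow_of_exponent_le hX'1 (by linarith)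
        _ = (S₀ : ℝ) ^ (1 - η₂) * (X : ℝ) ^ (1 - η₂) := by
            rw [hX'R, Real.mul_rpow hS₀0.le hX0.le]
        _ ≤ (S₀ : ℝ) ^ (1 : ℝ) * (X : ℝ) ^ (1 - η₂) := by
            apply mul_le_mul_of_nonneg_right _ (by positivity)
            exact Real.rpow_le_rpow_of_exponent_le hS₀1R (by linarith)
        _ ≤ _ := by
            rw [Real.rpow_one]
            exact mul_le_mul_of_nonneg_right hS₀U (by positivity)
    calc C₁ * (X' : ℝ) ^ (1 - η₁) ≤ C₁ * ((U : ℝ) ^ 2 * (X : ℝ) ^ (1 - η₂)) :=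
          mul_le_mul_of_nonneg_left h1 hC₁.le
      _ = (C₁ * (U : ℝ) ^ 2) * (X : ℝ) ^ (1 - η₂) := by ring
      _ ≤ _ := by
          apply mul_le_mul_of_nonneg_right _ (by positivity)
          linarith

end Pool.Agent.TH899.UG
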