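import Pool.Agent.H442R2.BX.Tu
import Pool.Agent.H442R2.BX.Ks

/-! Trilinear forms with Kloosterman fractions, unbalanced dyadic ranges, one even variable allowed:
the variable `m` is coprime to an auxiliary odd number `l`, the variable `n` is odd. -/

namespace Pool.Agent.TH899.UG

open Finset
open Pool.Agent.H442R2
open Pool.Agent.H442R2.KF
open Pool.Agent.H442R2.BX
open Pool.Agent.H442R2.BX.TaskTU

theorem coprime_scale0 (u m n : ℕ) (hn : Odd n) :
    Nat.Coprime (2 ^ u * m) (2 ^ 0 * n) ↔ Nat.Coprime m n := by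
  have hn2 : ∀ w : ℕ, Nat.Coprime (2 ^ w) n := fun w =>
    (Nat.Coprime.pow_right w hn.coprime_two_right).symm
  rw [pow_zero, one_mul]
  constructor
  · intro h
    exact Nat.Coprime.coprime_mul_left h
  · intro h
    exact Nat.Coprime.mul_left (hn2 u) h

/-- the case `i ≤ k`, only `n` is odd -/
def St_TUa : Prop := ∀ δ : ℝ, 0 < δ → ∃ (η C : ℝ), 0 < η ∧ 0 < C ∧ ∀ (i k J : ℕ), i ≤ k →
    1 ≤ J → (J : ℝ) ≤ ((2 : ℝ) ^ k) ^ (1 / 14 - δ) →
    ∀ V : ℝ, 1 ≤ V → ∀ ψ : ℕ → ℝ → ℂ, (∀ j, WeiP ((2 : ℝ) ^ (i + k)) V (ψ j)) →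
    ∀ b : ℤ, b ≠ 0 → |(b : ℝ)| * J ≤ V * (2 : ℝ) ^ (i + k) →
    ∀ α β : ℕ → ℂ, (∀ m, ‖α m‖ ≤ 1) → (∀ n, ‖β n‖ ≤ 1) →
    (∀ n, β n ≠ 0 → Odd n) →
    ‖∑ m ∈ Ioc (2 ^ i) (2 ^ (i + 1)),
      ∑ n ∈ (Ioc (2 ^ k) (2 ^ (k + 1))).filter (fun n => Nat.Coprime m n),
        α m * β n * FF ψ b J n m‖ ≤ C * V ^ 2 * ((2 : ℝ) ^ k) ^ (2 - η)

theorem TUa (hKS : St_KS) : St_TUa := by
  intro δ hδ
  obtain ⟨η, C, hη, hC, htri⟩ := tri δ hδ
  refine ⟨η, C, hη, hC, ?_⟩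
  intro i k J hik hJ1 hJ V hV ψ hψ b hb hbJ α β hα hβ hβo
  obtain ⟨u, v, hiu, hkv, hv0⟩ : ∃ u v : ℕ, i + u = k ∧ k + v = k ∧ v = 0 :=
    ⟨k - i, 0, by omega, by omega, rfl⟩
  have huv : u = 0 ∨ v = 0 := Or.inr hv0
  set D : ℝ := 2 ^ (u + v) with hD
  have hD0 : 0 < D := by positivity
  have hMr : (((2 ^ k : ℕ) : ℝ)) = (2 : ℝ) ^ k := by push_cast; rfl
  have hM2 : (((2 ^ k : ℕ) : ℝ)) ^ 2 = (2 : ℝ) ^ (i + k) * D := by
    rw [hMr, hD, ← pow_mul, ← pow_add]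
    congr 1
    omega
  have hP0 : (0 : ℝ) < (2 : ℝ) ^ (i + k) := by positivity
  have key := htri (2 ^ k) J Nat.one_le_two_pow hJ1 (by rw [hMr]; exact hJ) V hV
    (fun j t => ψ j (t / 2 ^ (u + v))) ?_ (b * 2 ^ (u + v)) ?_ ?_ (up u i α) (up v k β)
    (up_norm u i α hα) (up_norm v k β hβ)
  · rw [hMr] at key
    refine le_trans (le_of_eq ?_) key
    congr 1
    have hr1 := reindex u i (fun m' => ∑ n' ∈ (Ioc (2 ^ k) (2 * 2 ^ k + 1)).filter
      (fun n' => Nat.Coprime m' n'), up u i α m' * up v k β n' *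
        FF (fun j t => ψ j (t / 2 ^ (u + v))) (b * 2 ^ (u + v)) J n' m') ?_
    · rw [hiu] at hr1
      rw [hr1]
      refine Finset.sum_congr rfl fun m hm => ?_
      rw [Finset.sum_filter, Finset.sum_filter]
      have hr2 := reindex v k (fun n' => if Nat.Coprime (2 ^ u * m) n' then
        up u i α (2 ^ u * m) * up v k β n' *
        FF (fun j t => ψ j (t / 2 ^ (u + v))) (b * 2 ^ (u + v)) J n' (2 ^ u * m) else 0) ?_
      · rw [hkv] at hr2
        rw [hr2]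
        refine Finset.sum_congr rfl fun n hn => ?_
        rw [up_mul u i α m hm, up_mul v k β n hn]
        by_cases hm0 : α m = 0
        · simp [hm0]
        by_cases hn0 : β n = 0
        · simp [hn0]
        have hno := hβo n hn0
        have hnpos : 0 < n := hno.pos
        by_cases hc : Nat.Coprime m n
        · have hc' : Nat.Coprime (2 ^ u * m) (2 ^ v * n) := by
            rw [hv0]
            exact (coprime_scale0 u m n hno).2 hc
          rw [if_pos hc, if_pos hc', FF_scale hKS ψ b J u v m n huv hnpos hc']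
        · have hc' : ¬ Nat.Coprime (2 ^ u * m) (2 ^ v * n) := by
            rw [hv0]
            exact fun h => hc ((coprime_scale0 u m n hno).1 h)
          rw [if_neg hc, if_neg hc']
      · intro n' hn'
        have : up v k β n' = 0 := by
          unfold up
          rw [if_neg hn']
        simp [this]
    · intro m' hm'
      have : up u i α m' = 0 := by
        unfold up
        rw [if_neg hm']
      simp [this]
  · intro j
    refine ⟨?_, ?_⟩
    · intro s hs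
      apply (hψ j).bd
      rw [hM2] at hs
      rw [le_div_iff₀ hD0]
      exact hs
    · intro s s' hs hs'
      rw [hM2] at hs hs' ⊢
      have h1 := (hψ j).lip (s / D) (s' / D) (by rwa [le_div_iff₀ hD0]) (by rwa [le_div_iff₀ hD0])
      refine h1.trans (le_of_eq ?_)
      rw [← sub_div, abs_div, abs_of_pos hD0]
      field_simp
  · exact mul_ne_zero hb (by positivity)
  · rw [hM2]
    push_cast
    rw [abs_mul, abs_of_pos (by positivity : (0 : ℝ) < 2 ^ (u + v))]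
    calc |(b : ℝ)| * 2 ^ (u + v) * J = |(b : ℝ)| * J * D := by rw [hD]; ring
      _ ≤ V * (2 : ℝ) ^ (i + k) * D := mul_le_mul_of_nonneg_right hbJ hD0.le
      _ = V * ((2 : ℝ) ^ (i + k) * D) := by ring

/-- the coefficients on the multiples of `g` -/
noncomputable def upg (g k : ℕ) (β : ℕ → ℂ) (n' : ℕ) : ℂ :=
  if g ∣ n' ∧ n' / g ∈ Ioc (2 ^ k) (2 ^ (k + 1)) then β (n' / g) else 0

theorem upg_mul (g k : ℕ) (hg : 0 < g) (β : ℕ → ℂ) (n : ℕ) (hn : n ∈ Ioc (2 ^ k) (2 ^ (k + 1))) :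
    upg g k β (g * n) = β n := by
  unfold upg
  rw [Nat.mul_div_cancel_left n hg, if_pos ⟨Dvd.intro _ rfl, hn⟩]

theorem upg_norm (g k : ℕ) (β : ℕ → ℂ) (h : ∀ m, ‖β m‖ ≤ 1) (m : ℕ) : ‖upg g k β m‖ ≤ 1 := by
  unfold upg
  split_ifs
  · exact h _
  · simp

/-- the sum over the multiples of `g` -/
theorem reindexg (g k κ : ℕ) (hg : 0 < g) (h1 : 2 ^ κ ≤ g * 2 ^ k) (h2 : g * 2 ^ k < 2 ^ (κ + 1))
    (F : ℕ → ℂ)
    (hF : ∀ n', ¬ (g ∣ n' ∧ n' / g ∈ Ioc (2 ^ k) (2 ^ (k + 1))) → F n' = 0) :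
    ∑ n' ∈ Ioc (2 ^ κ) (2 ^ (κ + 2)), F n' =
      ∑ n ∈ Ioc (2 ^ k) (2 ^ (k + 1)), F (g * n) := by
  have hinj : Set.InjOn (fun m : ℕ => g * m) (Ioc (2 ^ k) (2 ^ (k + 1)) : Finset ℕ) := by
    intro a _ b _ hab
    exact Nat.eq_of_mul_eq_mul_left hg hab
  rw [← Finset.sum_image (f := F) hinj]
  symm
  apply Finset.sum_subset
  · intro m' hm'
    rw [Finset.mem_image] at hm'
    obtain ⟨m, hm, rfl⟩ := hm'
    rw [Finset.mem_Ioc] at hm ⊢
    have e2 : (2 : ℕ) ^ (k + 1) = 2 * 2 ^ k := by rw [pow_succ, mul_comm]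
    have e3 : (2 : ℕ) ^ (κ + 2) = 2 * 2 ^ (κ + 1) := by rw [pow_succ, mul_comm]
    constructor
    · exact lt_of_le_of_lt h1 (Nat.mul_lt_mul_of_pos_left hm.1 hg)
    · rw [e3]
      rw [e2] at hm
      calc g * m ≤ g * (2 * 2 ^ k) := Nat.mul_le_mul_left g hm.2
        _ = 2 * (g * 2 ^ k) := by ring
        _ ≤ 2 * 2 ^ (κ + 1) := by omega
  · intro m' _ hm'
    apply hF
    rintro ⟨h1, h2⟩
    apply hm'
    rw [Finset.mem_image]
    exact ⟨m' / g, h2, Nat.mul_div_cancel' h1⟩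

/-- TU with an auxiliary odd number `l` coprime to `m` -/
def St_TUl : Prop := ∀ δ : ℝ, 0 < δ → δ ≤ 1 / 14 → ∃ (η C : ℝ), 0 < η ∧ 0 < C ∧
    ∀ (i k J l : ℕ), 3 ≤ l → Odd l →
    1 ≤ J → (J : ℝ) ≤ ((2 : ℝ) ^ max i k) ^ (1 / 14 - δ) →
    ∀ V : ℝ, 1 ≤ V → ∀ ψ : ℕ → ℝ → ℂ, (∀ j, WeiP ((2 : ℝ) ^ (i + k)) V (ψ j)) →
    ∀ b : ℤ, b ≠ 0 → |(b : ℝ)| * J ≤ V * (2 : ℝ) ^ (i + k) →
    ∀ α β : ℕ → ℂ, (∀ m, ‖α m‖ ≤ 1) → (∀ n, ‖β n‖ ≤ 1) →
    (∀ m, α m ≠ 0 → Nat.Coprime m l) → (∀ n, β n ≠ 0 → Odd n) →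
    ‖∑ m ∈ Ioc (2 ^ i) (2 ^ (i + 1)),
      ∑ n ∈ (Ioc (2 ^ k) (2 ^ (k + 1))).filter (fun n => Nat.Coprime m n),
        α m * β n * FF ψ b J n m‖ ≤ C * (l : ℝ) ^ 2 * V ^ 2 * ((2 : ℝ) ^ max i k) ^ (2 - η)

theorem TUl (hKS : St_KS) : St_TUl := by
  intro δ hδ hδ1
  obtain ⟨η₀, C, hη₀, hC, H⟩ := TUa hKS δ hδ
  set η : ℝ := min η₀ 1 with hη
  have hη0 : 0 < η := lt_min hη₀ one_pos
  have hη1 : η ≤ 1 := min_le_right _ _
  have hηη : η ≤ η₀ := min_le_left _ _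
  refine ⟨η, 32 * C, hη0, by positivity, ?_⟩
  intro i k J l hl hlo hJ1 hJ V hV ψ hψ b hb hbJ α β hα hβ hαl hβo
  have hl1 : (3 : ℝ) ≤ l := by exact_mod_cast hl
  rcases le_or_gt i k with hik | hik
  · -- the case `i ≤ k`
    rw [max_eq_right hik] at hJ ⊢
    refine (H i k J hik hJ1 hJ V hV ψ hψ b hb hbJ α β hα hβ hβo).trans ?_
    have h1 : ((2 : ℝ) ^ k) ^ (2 - η₀) ≤ ((2 : ℝ) ^ k) ^ (2 - η) :=
      Real.rpow_le_rpow_of_exponent_le (one_le_pow₀ (by norm_num)) (by linarith)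
    have h2 : (1 : ℝ) ≤ (l : ℝ) ^ 2 := one_le_pow₀ (by linarith)
    have h3 : 0 ≤ ((2 : ℝ) ^ k) ^ (2 - η) := by positivity
    have h4 : 0 ≤ C * V ^ 2 := by positivity
    calc C * V ^ 2 * ((2 : ℝ) ^ k) ^ (2 - η₀) ≤ C * V ^ 2 * ((2 : ℝ) ^ k) ^ (2 - η) :=
          mul_le_mul_of_nonneg_left h1 h4
      _ = C * 1 * V ^ 2 * ((2 : ℝ) ^ k) ^ (2 - η) := by ring
      _ ≤ (32 * C) * (l : ℝ) ^ 2 * V ^ 2 * ((2 : ℝ) ^ k) ^ (2 - η) := by
          apply mul_le_mul_of_nonneg_right _ h3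
          apply mul_le_mul_of_nonneg_right _ (by positivity)
          apply mul_le_mul _ h2 zero_le_one (by positivity)
          linarith
  · -- the case `k < i`
    rw [max_eq_left hik.le] at hJ ⊢
    set t := Nat.clog l (2 ^ (i - k)) with ht
    have h2ik : 1 < 2 ^ (i - k) := Nat.one_lt_two_pow (by omega)
    set g := l ^ t with hg
    have hg1 : 2 ^ (i - k) ≤ g := Nat.le_pow_clog (by omega) _
    have hg2 : g ≤ l * 2 ^ (i - k) := by
      have h3 := Nat.pow_pred_clog_lt_self (b := l) (by omega) h2ik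
      have h4 : 0 < t := Nat.clog_pos (by omega) (by omega)
      rw [← ht] at h3
      have h5 : l ^ t = l * l ^ (t.pred) := by
        rw [← pow_succ']
        congr 1
        rw [Nat.pred_eq_sub_one]
        omega
      rw [hg, h5]
      exact Nat.mul_le_mul_left l h3.le
    have hg0 : 0 < g := by positivity
    have hgR : (0 : ℝ) < g := by exact_mod_cast hg0
    have hgo : Odd g := hlo.pow
    set κ := Nat.log 2 (g * 2 ^ k) with hκ
    have hgk0 : g * 2 ^ k ≠ 0 := by positivity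
    have hκ1 : 2 ^ κ ≤ g * 2 ^ k := Nat.pow_log_le_self 2 hgk0
    have hκ2 : g * 2 ^ k < 2 ^ (κ + 1) := Nat.lt_pow_succ_log_self (by norm_num) _
    have h2i : 2 ^ i = 2 ^ (i - k) * 2 ^ k := by
      rw [← pow_add]
      congr 1
      omega
    have hiκ : i ≤ κ := by
      have h3 : 2 ^ i < 2 ^ (κ + 1) := by
        rw [h2i]
        exact lt_of_le_of_lt (Nat.mul_le_mul_right _ hg1) hκ2
      have := (Nat.pow_lt_pow_iff_right (by norm_num : 1 < 2)).1 h3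
      omega
    have hκ1R : (2 : ℝ) ^ κ ≤ g * 2 ^ k := by exact_mod_cast hκ1
    have hκ2R : (g : ℝ) * 2 ^ k ≤ 2 ^ (κ + 1) := by exact_mod_cast hκ2.le
    have hκ3R : (2 : ℝ) ^ (κ + 1) ≤ 2 * l * 2 ^ i := by
      have h3 : (2 : ℝ) ^ i = 2 ^ (i - k) * 2 ^ k := by exact_mod_cast h2i
      have h4 : (g : ℝ) ≤ l * 2 ^ (i - k) := by exact_mod_cast hg2
      rw [h3, pow_succ]
      calc (2 : ℝ) ^ κ * 2 ≤ (g * 2 ^ k) * 2 := by linarith
        _ ≤ (l * 2 ^ (i - k) * 2 ^ k) * 2 := by gcongr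
        _ = _ := by ring
    set P : ℝ := (2 : ℝ) ^ (i + k) with hP
    have hP0 : 0 < P := by positivity
    set ψ' : ℕ → ℝ → ℂ := fun j s => ψ j (max (s / g) P) with hψ'
    have hwei : ∀ κ' : ℕ, (2 : ℝ) ^ (i + κ') ≤ 2 * (g * P) → ∀ j,
        WeiP ((2 : ℝ) ^ (i + κ')) (2 * V) (ψ' j) := by
      intro κ' hκ' j
      have hQ0 : (0 : ℝ) < (2 : ℝ) ^ (i + κ') := by positivity
      refine ⟨?_, ?_⟩
      · intro s _
        exact (hψ j).bd _ (le_max_right _ _)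
      · intro s s' _ _
        refine ((hψ j).lip _ _ (le_max_right _ _) (le_max_right _ _)).trans ?_
        have h3 : |max (s / g) P - max (s' / g) P| ≤ |s - s'| / g := by
          refine (abs_max_sub_max_le_abs _ _ _).trans (le_of_eq ?_)
          rw [← sub_div, abs_div, abs_of_pos hgR]
        rw [div_le_div_iff₀ hP0 hQ0]
        have h4 : 0 ≤ |s - s'| := abs_nonneg _
        calc V * |max (s / g) P - max (s' / g) P| * (2 : ℝ) ^ (i + κ')
            ≤ V * (|s - s'| / g) * (2 * (g * P)) := by gcongr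
          _ = 2 * V * |s - s'| * P := by field_simp
    have e1 : ∀ κ' : ℕ, (2 : ℝ) ^ (i + κ') = 2 ^ i * 2 ^ κ' := fun κ' => pow_add _ _ _
    have hw1 := hwei κ (by
      rw [e1, hP, e1]
      have : (2 : ℝ) ^ i * 2 ^ κ ≤ 2 ^ i * (g * 2 ^ k) := by gcongr
      have h5 : (0 : ℝ) ≤ 2 ^ i * (g * 2 ^ k) := by positivity
      calc (2 : ℝ) ^ i * 2 ^ κ ≤ 2 ^ i * (g * 2 ^ k) := this
        _ ≤ 2 * (2 ^ i * (g * 2 ^ k)) := by linarith
        _ = _ := by ring)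
    have hw2 := hwei (κ + 1) (by
      rw [e1, hP, e1, pow_succ]
      have : (2 : ℝ) ^ i * 2 ^ κ ≤ 2 ^ i * (g * 2 ^ k) := by gcongr
      calc (2 : ℝ) ^ i * (2 ^ κ * 2) = 2 * (2 ^ i * 2 ^ κ) := by ring
        _ ≤ 2 * (2 ^ i * (g * 2 ^ k)) := by linarith
        _ = _ := by ring)
    have hbg : b * (g : ℤ) ≠ 0 := mul_ne_zero hb (by exact_mod_cast hg0.ne')
    have hbJ1 : |((b * (g : ℤ) : ℤ) : ℝ)| * J ≤ 2 * V * (2 : ℝ) ^ (i + κ) := by
      push_cast
      rw [abs_mul, abs_of_pos hgR, e1]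
      calc |(b : ℝ)| * g * J = (|(b : ℝ)| * J) * g := by ring
        _ ≤ (V * P) * g := by gcongr
        _ = V * 2 ^ i * (g * 2 ^ k) := by rw [hP, e1]; ring
        _ ≤ V * 2 ^ i * (2 ^ (κ + 1)) := by gcongr
        _ = _ := by rw [pow_succ]; ring
    have hbJ2 : |((b * (g : ℤ) : ℤ) : ℝ)| * J ≤ 2 * V * (2 : ℝ) ^ (i + (κ + 1)) := by
      refine hbJ1.trans ?_
      have h3 : (2 : ℝ) ^ (i + κ) ≤ (2 : ℝ) ^ (i + (κ + 1)) :=
        pow_le_pow_right₀ (by norm_num) (by omega)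
      gcongr
    have hexp : (0 : ℝ) ≤ 1 / 14 - δ := by linarith
    have hJκ : (J : ℝ) ≤ ((2 : ℝ) ^ κ) ^ (1 / 14 - δ) := by
      refine hJ.trans ?_
      apply Real.rpow_le_rpow (by positivity) _ hexp
      exact pow_le_pow_right₀ (by norm_num) hiκ
    have hJκ2 : (J : ℝ) ≤ ((2 : ℝ) ^ (κ + 1)) ^ (1 / 14 - δ) := by
      refine hJ.trans ?_
      apply Real.rpow_le_rpow (by positivity) _ hexp
      exact pow_le_pow_right₀ (by norm_num) (by omega)
    have hodd : ∀ n, upg g k β n ≠ 0 → Odd n := by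
      intro n hn
      unfold upg at hn
      split_ifs at hn with h
      · have h3 := hβo _ hn
        rw [← Nat.mul_div_cancel' h.1]
        exact hgo.mul h3
      · exact absurd rfl hn
    have key1 := H i κ J hiκ hJ1 hJκ (2 * V) (by linarith) ψ' hw1 (b * (g : ℤ)) hbg hbJ1 α
      (upg g k β) hα (upg_norm g k β hβ) hodd
    have key2 := H i (κ + 1) J (by omega) hJ1 hJκ2 (2 * V) (by linarith) ψ' hw2 (b * (g : ℤ)) hbg
      hbJ2 α (upg g k β) hα (upg_norm g k β hβ) hodd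
    -- the identity
    have hid : ∑ m ∈ Ioc (2 ^ i) (2 ^ (i + 1)),
        ∑ n ∈ (Ioc (2 ^ k) (2 ^ (k + 1))).filter (fun n => Nat.Coprime m n),
          α m * β n * FF ψ b J n m =
        (∑ m ∈ Ioc (2 ^ i) (2 ^ (i + 1)),
        ∑ n ∈ (Ioc (2 ^ κ) (2 ^ (κ + 1))).filter (fun n => Nat.Coprime m n),
          α m * upg g k β n * FF ψ' (b * (g : ℤ)) J n m) +
        ∑ m ∈ Ioc (2 ^ i) (2 ^ (i + 1)),
        ∑ n ∈ (Ioc (2 ^ (κ + 1)) (2 ^ (κ + 1 + 1))).filter (fun n => Nat.Coprime m n),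
          α m * upg g k β n * FF ψ' (b * (g : ℤ)) J n m := by
      rw [← Finset.sum_add_distrib]
      refine Finset.sum_congr rfl fun m hm => ?_
      rw [Finset.sum_filter, Finset.sum_filter, Finset.sum_filter]
      have hun : Ioc (2 ^ κ) (2 ^ (κ + 2)) =
          Ioc (2 ^ κ) (2 ^ (κ + 1)) ∪ Ioc (2 ^ (κ + 1)) (2 ^ (κ + 1 + 1)) := by
        rw [Finset.Ioc_union_Ioc_eq_Ioc]
        · exact Nat.pow_le_pow_right (by norm_num) (by omega)
        · exact Nat.pow_le_pow_right (by norm_num) (by omega)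
      have hdj : Disjoint (Ioc (2 ^ κ) (2 ^ (κ + 1))) (Ioc (2 ^ (κ + 1)) (2 ^ (κ + 1 + 1))) := by
        rw [Finset.disjoint_left]
        intro x hx hy
        rw [Finset.mem_Ioc] at hx hy
        omega
      rw [← Finset.sum_union hdj, ← hun]
      rw [reindexg g k κ hg0 hκ1 hκ2 (fun n => if Nat.Coprime m n then
        α m * upg g k β n * FF ψ' (b * (g : ℤ)) J n m else 0) (by
          intro n' hn'
          have : upg g k β n' = 0 := by
            unfold upg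
            rw [if_neg hn']
          simp [this])]
      refine Finset.sum_congr rfl fun n hn => ?_
      rw [upg_mul g k hg0 β n hn]
      by_cases hm0 : α m = 0
      · simp [hm0]
      by_cases hn0 : β n = 0
      · simp [hn0]
      have hmg : Nat.Coprime m g := Nat.Coprime.pow_right t (hαl m hm0)
      rw [Finset.mem_Ioc] at hm hn
      have hnpos : 0 < n := lt_of_le_of_lt (Nat.zero_le _) hn.1
      by_cases hc : Nat.Coprime m n
      · have hc' : Nat.Coprime m (g * n) := Nat.Coprime.mul_right hmg hc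
        rw [if_pos hc, if_pos hc']
        congr 1
        unfold FF
        refine Finset.sum_congr rfl fun j _ => ?_
        have e2 := hKS.1 ((j : ℤ) * b) m g n hg0 hnpos hc'
        have e3 : (j : ℤ) * (b * (g : ℤ)) = (j : ℤ) * b * g := by ring
        rw [e3, e2]
        congr 1
        rw [hψ']
        simp only
        congr 1
        have e4 : (m : ℝ) * ((g * n : ℕ) : ℝ) / g = m * n := by
          push_cast
          field_simp
        rw [e4, max_eq_left]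
        rw [hP, pow_add]
        have h5 : (2 : ℝ) ^ i ≤ m := by exact_mod_cast hm.1.le
        have h6 : (2 : ℝ) ^ k ≤ n := by exact_mod_cast hn.1.le
        gcongr
      · have hc' : ¬ Nat.Coprime m (g * n) :=
          fun h => hc (Nat.Coprime.coprime_mul_left_right h)
        rw [if_neg hc, if_neg hc']
    rw [hid]
    refine (norm_add_le _ _).trans ((add_le_add key1 key2).trans ?_)
    have hb1 : ((2 : ℝ) ^ κ) ^ (2 - η₀) ≤ ((2 : ℝ) ^ (κ + 1)) ^ (2 - η) := by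
      calc ((2 : ℝ) ^ κ) ^ (2 - η₀) ≤ ((2 : ℝ) ^ κ) ^ (2 - η) :=
            Real.rpow_le_rpow_of_exponent_le (one_le_pow₀ (by norm_num)) (by linarith)
        _ ≤ _ := by
            apply Real.rpow_le_rpow (by positivity) _ (by linarith)
            exact pow_le_pow_right₀ (by norm_num) (by omega)
    have hb2 : ((2 : ℝ) ^ (κ + 1)) ^ (2 - η₀) ≤ ((2 : ℝ) ^ (κ + 1)) ^ (2 - η) :=
      Real.rpow_le_rpow_of_exponent_le (one_le_pow₀ (by norm_num)) (by linarith)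
    have hb3 : ((2 : ℝ) ^ (κ + 1)) ^ (2 - η) ≤ (2 * l) ^ 2 * ((2 : ℝ) ^ i) ^ (2 - η) := by
      calc ((2 : ℝ) ^ (κ + 1)) ^ (2 - η) ≤ (2 * l * 2 ^ i) ^ (2 - η) :=
            Real.rpow_le_rpow (by positivity) hκ3R (by linarith)
        _ = (2 * l) ^ (2 - η) * ((2 : ℝ) ^ i) ^ (2 - η) :=
            Real.mul_rpow (by positivity) (by positivity)
        _ ≤ (2 * l) ^ 2 * ((2 : ℝ) ^ i) ^ (2 - η) := by
            apply mul_le_mul_of_nonneg_right _ (by positivity)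
            rw [← Real.rpow_natCast (2 * (l : ℝ)) 2]
            apply Real.rpow_le_rpow_of_exponent_le (by linarith)
            push_cast
            linarith
    have hCV : 0 ≤ C * (2 * V) ^ 2 := by positivity
    calc C * (2 * V) ^ 2 * ((2 : ℝ) ^ κ) ^ (2 - η₀) +
          C * (2 * V) ^ 2 * ((2 : ℝ) ^ (κ + 1)) ^ (2 - η₀)
        ≤ C * (2 * V) ^ 2 * ((2 * l) ^ 2 * ((2 : ℝ) ^ i) ^ (2 - η)) +
          C * (2 * V) ^ 2 * ((2 * l) ^ 2 * ((2 : ℝ) ^ i) ^ (2 - η)) := by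
          apply add_le_add
          · exact mul_le_mul_of_nonneg_left (hb1.trans hb3) hCV
          · exact mul_le_mul_of_nonneg_left (hb2.trans hb3) hCV
      _ = _ := by ring

end Pool.Agent.TH899.UG
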