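import Pool.Agent.TH899.UG.Stm
import Pool.Agent.W376.UBU0

/-! The total mass, general linear forms. -/

set_option autoImplicit false

namespace Pool.Agent.TH899.UG

open Finset Filter Topology
open Pool.Agent.H410R2 hiding GP GP_prof GP_cut_some GP_cut_none GP_lip gg_pos gg_le_one gg_anti ee_bound ee_nonneg gg_lip LB_gg LB_ee Sums exists_sums yx wx wxi Br sum_GP_none sum_GP_some sum_GP_some_ee sum_GP_some_one sum_GPr_none sum_GPr_some S1_final QI_final S2_final w_abs_le wmax gg ee I1 I2 IE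
open Pool.Agent.H361R2.GM
open Pool.Agent.H362R2.CM
open Pool.Agent.W25.UN
open Pool.Agent.W25.UB
open Pool.Agent.W376.UBU0

theorem u0F (hNWU : St_NWU) : St_U0F := by
  intro k Q α h Mo ε₀ ε₁ ρ ρ₁ ε M C1 A E₁ D B N v D₁ z Tr t th dl b hI1 hI2 H i
  obtain ⟨j, l, hij, hil, hjl⟩ := two_others H.k3 i
  have hWt : ∀ (X : ℕ) (n : ℤ), 0 ≤ Pool.Agent.H442R2.KF.Wt X n := fun X n => (Real.exp_pos _).le
  have hmu0 : ∀ n, 0 ≤ muF Q α h Mo ρ ρ₁ D B N v Tr i n := by
    intro n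
    unfold muF
    refine mul_nonneg (hWt _ _) (mul_nonneg (mul_nonneg ?_ (H.Tr0 n)) (sq_nonneg _))
    split_ifs <;> norm_num
  set P := PBF α h Mo N B ρ₁ with hP
  set L : ℝ := ρ * Real.log N with hL
  have hLpos : 0 < L := mul_pos H.ρ0 (by linarith [H.l1])
  have hPp : ∀ p ∈ P, p.Prime := fun p hp => (H.gd p (Finset.mem_union_left _ hp)).1.1
  obtain ⟨hsup, -, -, hsz, hrest⟩ := hNWU k Q P L i j l hij hil hjl hLpos hPp
  obtain ⟨⟨hQ0, hQ1⟩, -, -⟩ := hrest (DB (2 * N) B) ε (bb N B ρ) (LZ (uB α) (wB h Mo)) H.sd H.ε0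
    H.ε3 hI1 hI2 H.bd0 rfl H.sums
  set c := cw (prP P) (zA Q k P L i) with hc
  have hNpos : (0 : ℝ) < N := by
    have : 0 < N := by have := H.N8; omega
    exact_mod_cast this
  have hlog2 : 1 ≤ Real.log (2 * N : ℕ) := by
    refine H.l1.trans (Real.log_le_log hNpos ?_)
    push_cast
    linarith
  have hz2 : 1 ≤ z ^ 2 := Nat.one_le_pow _ _ H.z1
  have hc1 : ∀ σ, |c σ| ≤ (Real.log N) ^ E₁ * mulc (prP P) (fun p => 1 / ((p : ℝ) - 1)) σ := by
    intro σ
    rw [hc, abs_cw (prP P) (fun t => hPp t.1 t.2)]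
    refine mul_le_mul_of_nonneg_right (((hsz σ).1).trans H.size) ?_
    unfold mulc
    refine Finset.prod_nonneg fun t _ => ?_
    split_ifs
    · exact zero_le_one
    · have h1 : (1 : ℝ) < prP P t := by exact_mod_cast (hPp t.1 t.2).one_lt
      exact (one_div_pos.mpr (by linarith)).le
  have hc2 : ∀ σ, c σ ≠ 0 → lgt (prP P) σ ≤ 3 * ρ * Real.log N := by
    intro σ hσ
    have h1 : zA Q k P L i σ ≠ 0 := by
      intro h0
      apply hσ
      rw [hc]
      unfold cw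
      rw [h0, mul_zero]
    have := hsup σ h1
    rw [hL] at this
    linarith
  have hDW : Pool.Agent.W23.PL.DW (PtF α h Mo N B ε₁) D₁ (Real.log (2 * N : ℕ)) dl1 := by
    constructor
    · intro e
      by_cases he : e = 1
      · rw [he, dl1_one, abs_one]; exact hlog2
      · rw [dl1_ne he, abs_zero]; linarith
    · intro e he
      have he1 : e = 1 := by
        by_contra hc'
        exact he (dl1_ne hc')
      rw [he1]
      refine ⟨squarefree_one, H.D1, ?_⟩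
      intro p hp hp1
      exact absurd (Nat.dvd_one.mp hp1) hp.one_lt.ne'
  have hRC : RCM (CL (uB α) (wB h Mo)) (((2 * N : ℕ) : ℝ) ^ ε₁) (z ^ 2) M dl1 := by
    constructor
    · intro e
      by_cases he : e = 1
      · rw [he, dl1_one, abs_one]; exact H.M1
      · rw [dl1_ne he, abs_zero]; linarith [H.M1]
    · intro e he
      have he1 : e = 1 := by
        by_contra hc'
        exact he (dl1_ne hc')
      rw [he1]
      refine ⟨le_rfl, hz2, ?_⟩
      intro p hp hp1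
      exact absurd (Nat.dvd_one.mp hp1) hp.one_lt.ne'
  obtain ⟨hsum, habs⟩ := H.mas (2 * N) (z ^ 2) c j l dl1 dl1 dl1 dl1 (Or.inl rfl) H.z2 hjl hc1 hc2
    hDW hDW (Or.inl fun e he => dl1_ne he) (Or.inl fun e he => dl1_ne he) hRC hRC
  have hMs : (fun n : ℤ => Pool.Agent.H442R2.KF.Wt (2 * N) n *
      Ms α h Mo D v D₁ (z ^ 2) P Tr c j l dl1 dl1 dl1 dl1 n) =
      muF Q α h Mo ρ ρ₁ D B N v Tr i := by
    funext n
    unfold Ms muF
    rw [Ev_dl1 D₁ H.D1, Ev_dl1 D₁ H.D1, ds_dl1 _ hz2, ds_dl1 _ hz2]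
    ring
  have hMm : Mm D D₁ (z ^ 2) P t c dl1 dl1 dl1 dl1 = t / (WW D / 2 : ℕ) * Q1f (prP P) c := by
    unfold Mm
    have h1 : ∑ d ∈ Icc 1 (z ^ 2), dl1 d / (d : ℝ) = 1 := hat_dl1 (z ^ 2) hz2
    rw [hat_dl1 D₁ H.D1, h1]
    ring
  rw [hMs, hMm] at habs
  rw [hMs] at hsum
  refine ⟨hmu0, hsum, ?_⟩
  -- the estimate
  set V' := Pool.Agent.W25.UN.VV α h Mo D (DB (2 * N) B) with hV'
  set W' : ℝ := ((WW D / 2 : ℕ) : ℝ) with hW'
  set bv := bb N B ρ with hbv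
  have hW1 : 1 ≤ W' := by
    rw [hW']; exact_mod_cast H.W2
  have hb1 : 1 ≤ bv := H.b1
  have hVp : 0 < V' := H.Vp
  have hε : 0 < ε := H.ε0
  have hε3 : ε < 1 / 3 := H.ε3
  set R : ℝ := (Q.I1 + ε) ^ 2 / (1 - ε) ^ 2 * (1 + ε) * (1 / 3 + ε) * (Q.I2 + ε) ^ (k - 1) with hR
  have hR0 : 0 ≤ R := by
    rw [hR]
    have h1 : 0 < 1 - ε := by linarith
    positivity
  have hU : (bv * (Q.I1 + ε)) ^ 2 / (bv * (1 - ε)) ^ 2 * (bv * (1 + ε)) * (bv / 48 * (1 / 3 + ε)) *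
        (bv * (Q.I2 + ε)) ^ (k - 1) = (bv / 48 * bv ^ k) * R := by
    have h1 : (1 - ε) ≠ 0 := by linarith
    have h2 : bv ≠ 0 := by linarith
    have h3 : bv ^ k = bv * bv ^ (k - 1) := by
      rw [← pow_succ']
      congr 1
      have := H.k3
      omega
    rw [h3, hR, mul_pow bv (Q.I2 + ε), mul_pow bv (Q.I1 + ε), mul_pow bv (1 - ε)]
    field_simp
  rw [hU] at hQ1
  have ht : t ≤ (1 + ε) * V' := by
    have := (abs_le.mp H.t1).2
    linarith
  have hN2 : (0 : ℝ) < ((2 * N : ℕ) : ℝ) := by push_cast; linarith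
  have hmain : ((2 * N : ℕ) : ℝ) * (t / W' * Q1f (prP P) c) ≤
      MMF α h Mo D N B ρ * ((1 + ε) * R) := by
    have h1 : t / W' * Q1f (prP P) c ≤ ((1 + ε) * V') / W' * ((bv / 48 * bv ^ k) * R) := by
      have h2 : t / W' ≤ ((1 + ε) * V') / W' := div_le_div_of_nonneg_right ht (by linarith)
      have h3 : 0 ≤ ((1 + ε) * V') / W' := by positivity
      calc t / W' * Q1f (prP P) c ≤ ((1 + ε) * V') / W' * Q1f (prP P) c :=
            mul_le_mul_of_nonneg_right h2 hQ0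
        _ ≤ _ := mul_le_mul_of_nonneg_left hQ1 h3
    calc ((2 * N : ℕ) : ℝ) * (t / W' * Q1f (prP P) c)
        ≤ ((2 * N : ℕ) : ℝ) * (((1 + ε) * V') / W' * ((bv / 48 * bv ^ k) * R)) :=
          mul_le_mul_of_nonneg_left h1 hN2.le
      _ = _ := by
        unfold MMF
        rw [← hV', ← hW', ← hbv]
        ring
  have hMM0 : 0 ≤ MMF α h Mo D N B ρ := by
    unfold MMF
    rw [← hV', ← hW', ← hbv]
    positivity
  have hvG : vGF α h Mo N B z ε₁ ^ 2 ≤ 1 := by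
    have h1 : 0 ≤ vGF α h Mo N B z ε₁ := div_nonneg H.V0.le (by linarith [H.G1])
    have h2 : vGF α h Mo N B z ε₁ ≤ 1 := by
      unfold vGF
      rw [div_le_one (by linarith [H.G1])]
      exact H.V1.trans H.G1
    nlinarith
  have herr : ((2 * N : ℕ) : ℝ) / (Real.log N) ^ A ≤ MMF α h Mo D N B ρ * ε := by
    have h1 : 0 < (Real.log N) ^ A := pow_pos (by linarith [H.l1]) _
    calc ((2 * N : ℕ) : ℝ) / (Real.log N) ^ A ≤ ((4 * N : ℕ) : ℝ) / (Real.log N) ^ A := by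
          apply div_le_div_of_nonneg_right _ h1.le
          push_cast
          linarith
      _ ≤ ε * (MMF α h Mo D N B ρ * vGF α h Mo N B z ε₁ ^ 2) := H.small
      _ ≤ ε * (MMF α h Mo D N B ρ * 1) := by gcongr
      _ = _ := by ring
  have h5 := (abs_le.mp habs).2
  calc ∑' n : ℤ, muF Q α h Mo ρ ρ₁ D B N v Tr i n
      ≤ ((2 * N : ℕ) : ℝ) * (t / W' * Q1f (prP P) c) + ((2 * N : ℕ) : ℝ) / (Real.log N) ^ A := by
        linarith
    _ ≤ MMF α h Mo D N B ρ * ((1 + ε) * R) + MMF α h Mo D N B ρ * ε := add_le_add hmain herr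
    _ = _ := by ring


end Pool.Agent.TH899.UG
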