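import Pool.Agent.TH899.UG.Stm
import Pool.Agent.W140.UBU2

/-! The mixed second moments, general linear forms. -/

set_option autoImplicit false

namespace Pool.Agent.TH899.UG

open Finset Filter Topology
open Pool.Agent.H410R2 hiding GP GP_prof GP_cut_some GP_cut_none GP_lip gg_pos gg_le_one gg_anti ee_bound ee_nonneg gg_lip LB_gg LB_ee Sums exists_sums yx wx wxi Br sum_GP_none sum_GP_some sum_GP_some_ee sum_GP_some_one sum_GPr_none sum_GPr_some S1_final QI_final S2_final w_abs_le wmax gg ee I1 I2 IE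
open Pool.Agent.H361R2.GM
open Pool.Agent.H362R2.CM
open Pool.Agent.W25.UN
open Pool.Agent.W25.UB
open Pool.Agent.W140.UBU2

theorem u2F (hNWU : St_NWU) (hNWE : St_NWE) : St_U2F := by
  intro k Q α h Mo ε₀ ε₁ ρ ρ₁ ε M C1 A E₁ D B N v D₁ z Tr t th dl b hI1 hI2 hD i j l hij hil hjl
  have hlog : 0 < Real.log N := lt_of_lt_of_le one_pos hD.l1
  have hL : 0 < ρ * Real.log N := mul_pos hD.ρ0 hlog
  have hPp : ∀ p ∈ PBF α h Mo N B ρ₁, p.Prime := fun p hp =>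
    (hD.gd p (Finset.mem_union_left _ hp)).1.1
  obtain ⟨-, -, hC, hsz, hQ⟩ := hNWU k Q (PBF α h Mo N B ρ₁) (ρ * Real.log N) i j l hij hil hjl hL hPp
  obtain ⟨-, -, hQ0, hQ1⟩ := hQ (DB (2 * N) B) ε (bb N B ρ) (LZ (uB α) (wB h Mo)) hD.sd hD.ε0
    hD.ε3 hI1 hI2 hD.bd0 rfl hD.sums
  obtain ⟨hE, -⟩ := hNWE k (uB α) (wB h Mo) (PBF α h Mo N B ρ₁) (fun p hp => (hPp p hp).two_le)
  have hFZ : ∀ n : ℤ, (∀ p ∈ PtF α h Mo N B ε₁, ¬ (p : ℤ) ∣ Lf α h Mo (some j) n) →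
      (∀ p ∈ PtF α h Mo N B ε₁, ¬ (p : ℤ) ∣ Lf α h Mo (some l) n) →
      FZ (uB α) (wB h Mo) (PBF α h Mo N B ρ₁) (cw (prP (PBF α h Mo N B ρ₁))
        (zC Q k (PBF α h Mo N B ρ₁) (ρ * Real.log N) i j l)) n =
      FZ (uB α) (wB h Mo) (PBF α h Mo N B ρ₁) (cw (prP (PBF α h Mo N B ρ₁))
        (zA Q k (PBF α h Mo N B ρ₁) (ρ * Real.log N) i)) n := by
    intro n h1 h2
    have e1 := hE (some j) 0 (zA Q k (PBF α h Mo N B ρ₁) (ρ * Real.log N) i) n le_rfl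
      (fun p hp => h1 p (hD.sub hp))
    have e2 := hE (some l) 0 (zB Q k (PBF α h Mo N B ρ₁) (ρ * Real.log N) i j) n le_rfl
      (fun p hp => h2 p (hD.sub hp))
    exact e2.trans e1
  obtain ⟨hsum, hmas⟩ := hD.mas (2 * N) (z ^ 2) (cw (prP (PBF α h Mo N B ρ₁))
      (zC Q k (PBF α h Mo N B ρ₁) (ρ * Real.log N) i j l)) j l th th b b (Or.inl rfl) hD.z2 hjl
    (fun σ => cw_bound _ hPp _ _ σ ((hsz σ).2.2.trans hD.size))
    (fun σ hσ => by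
      have := (hC σ (cw_ne _ _ σ hσ)).1
      rw [mul_assoc]; exact this)
    hD.dth hD.dth (Or.inr fun σ hσ => (hC σ (cw_ne _ _ σ hσ)).2.1)
    (Or.inr fun σ hσ => (hC σ (cw_ne _ _ σ hσ)).2.2) hD.bM hD.bM
  -- the comparison
  have hW0 : ∀ n : ℤ, 0 ≤ Pool.Agent.H442R2.KF.Wt (2 * N) n := fun n => (Real.exp_pos _).le
  have hi0 : ∀ n : ℤ, 0 ≤ (if ((WW D / 2 : ℕ) : ℤ) ∣ n - v then (1 : ℝ) else 0) * Tr n := by
    intro n
    refine mul_nonneg ?_ (hD.Tr0 n)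
    split_ifs <;> norm_num
  have hEv : ∀ m : ℤ, 0 ≤ Pool.Agent.W23.PL.Ev th D₁ m := fun m =>
    (xx_nonneg _ m).trans (hD.fl m).1
  have hG0 : ∀ n : ℤ, 0 ≤ Pool.Agent.H442R2.KF.Wt (2 * N) n *
      Ms α h Mo D v D₁ (z ^ 2) (PBF α h Mo N B ρ₁) Tr (cw (prP (PBF α h Mo N B ρ₁))
      (zC Q k (PBF α h Mo N B ρ₁) (ρ * Real.log N) i j l)) j l th th b b n := by
    intro n
    refine mul_nonneg (hW0 n) ?_
    unfold Ms
    exact mul_nonneg (mul_nonneg (hi0 n) (mul_nonneg (sq_nonneg _)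
      (mul_nonneg (hEv _) (hEv _)))) (mul_nonneg (hD.bn _) (hD.bn _))
  have hF : ∀ n : ℤ, 0 ≤ muF Q α h Mo ρ ρ₁ D B N v Tr i n * (sjF α h Mo ε₁ B N z b j n *
      sjF α h Mo ε₁ B N z b l n) ∧ muF Q α h Mo ρ ρ₁ D B N v Tr i n * (sjF α h Mo ε₁ B N z b j n *
      sjF α h Mo ε₁ B N z b l n) ≤ Pool.Agent.H442R2.KF.Wt (2 * N) n *
      Ms α h Mo D v D₁ (z ^ 2) (PBF α h Mo N B ρ₁) Tr (cw (prP (PBF α h Mo N B ρ₁))
      (zC Q k (PBF α h Mo N B ρ₁) (ρ * Real.log N) i j l)) j l th th b b n := by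
    intro n
    have hn1 := hD.bn (Lf α h Mo (some j) n)
    have hn2 := hD.bn (Lf α h Mo (some l) n)
    constructor
    · unfold muF sjF
      exact mul_nonneg (mul_nonneg (hW0 n) (mul_nonneg (hi0 n) (sq_nonneg _)))
        (mul_nonneg (mul_nonneg (xx_nonneg _ _) hn1) (mul_nonneg (xx_nonneg _ _) hn2))
    · rcases xx01 (PtF α h Mo N B ε₁) (Lf α h Mo (some j) n) with hx | ⟨hx1, hx⟩
      · have : sjF α h Mo ε₁ B N z b j n = 0 := by unfold sjF; rw [hx, zero_mul]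
        rw [this, zero_mul, mul_zero]
        exact hG0 n
      rcases xx01 (PtF α h Mo N B ε₁) (Lf α h Mo (some l) n) with hy | ⟨hy1, hy⟩
      · have : sjF α h Mo ε₁ B N z b l n = 0 := by unfold sjF; rw [hy, zero_mul]
        rw [this, mul_zero, mul_zero]
        exact hG0 n
      have g1 := (hD.fl (Lf α h Mo (some j) n)).1
      have g2 := (hD.fl (Lf α h Mo (some l) n)).1
      rw [hx] at g1
      rw [hy] at g2
      unfold muF sjF Ms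
      rw [hx, hy, hFZ n hx1 hy1, one_mul, one_mul, mul_assoc]
      refine mul_le_mul_of_nonneg_left ?_ (hW0 n)
      refine mul_le_mul_of_nonneg_right ?_ (mul_nonneg hn1 hn2)
      refine mul_le_mul_of_nonneg_left ?_ (hi0 n)
      refine le_mul_of_one_le_right (sq_nonneg _) ?_
      nlinarith
  have hsF : Summable (fun n => muF Q α h Mo ρ ρ₁ D B N v Tr i n * (sjF α h Mo ε₁ B N z b j n *
      sjF α h Mo ε₁ B N z b l n)) :=
    Summable.of_nonneg_of_le (fun n => (hF n).1) (fun n => (hF n).2) hsum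
  refine ⟨hsF, ?_⟩
  have h1 := hsF.tsum_le_tsum (fun n => (hF n).2) hsum
  have h2 := (abs_le.1 hmas).2
  -- main term
  have hX : (0 : ℝ) ≤ ((2 * N : ℕ) : ℝ) := Nat.cast_nonneg _
  have hW' : (0 : ℝ) < ((WW D / 2 : ℕ) : ℝ) := by
    have := hD.W2
    exact_mod_cast this
  have hb : 0 < bb N B ρ := lt_of_lt_of_le one_pos hD.b1
  have hG : 0 < GG (PbF α h Mo N z ε₁) z := lt_of_lt_of_le one_pos hD.G1
  have ht := abs_le.1 hD.t1
  have hm := main_ineq k hD.k3 Q.I1 Q.I2 ε ε₁ (bb N B ρ)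
    (Pool.Agent.W25.UN.VV α h Mo D (DB (2 * N) B)) ((WW D / 2 : ℕ) : ℝ)
    (Pool.Agent.W23.PL.VV (PtF α h Mo N B ε₁)) (GG (PbF α h Mo N z ε₁) z) ((2 * N : ℕ) : ℝ) t
    (Q1f (prP (PBF α h Mo N B ρ₁)) (cw (prP (PBF α h Mo N B ρ₁))
      (zC Q k (PBF α h Mo N B ρ₁) (ρ * Real.log N) i j l))) (Pool.Agent.W23.PL.hat th D₁) hb hD.Vp hW'
    hD.V0 hG hX hD.ε3 hD.ε0 (by linarith [ht.2]) (by
      have h3 := hD.ε3
      have h4 := hD.Vp
      nlinarith [ht.1]) hD.hth hD.e10 hD.e11 hQ0 hI1 hI2 hQ1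
  have hMm : ((2 * N : ℕ) : ℝ) * Mm D D₁ (z ^ 2) (PBF α h Mo N B ρ₁) t (cw (prP (PBF α h Mo N B ρ₁))
      (zC Q k (PBF α h Mo N B ρ₁) (ρ * Real.log N) i j l)) th th b b ≤
      MMF α h Mo D N B ρ * (vGF α h Mo N B z ε₁ * bb N B ρ) ^ 2 *
      ((1 + ε) * (1 + ε₁ ^ 3) ^ 2 * ((Q.I1 + ε) ^ 6 / (1 - ε) ^ 2 * (1 + ε) * (1 / 3 + ε) *
        (Q.I2 + ε) ^ (k - 3))) := by
    unfold Mm MMF vGF
    rw [hD.bs]
    exact hm
  -- error term
  have hMM : 0 < MMF α h Mo D N B ρ := by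
    unfold MMF
    have hN : (0 : ℝ) < ((2 * N : ℕ) : ℝ) := by
      have := hD.N8
      have h3 : 0 < 2 * N := by omega
      exact_mod_cast h3
    have := hD.Vp
    positivity
  have herr : ((2 * N : ℕ) : ℝ) / (Real.log N) ^ A ≤
      MMF α h Mo D N B ρ * (vGF α h Mo N B z ε₁ * bb N B ρ) ^ 2 * ε := by
    have h3 : ((2 * N : ℕ) : ℝ) / (Real.log N) ^ A ≤ ((4 * N : ℕ) : ℝ) / (Real.log N) ^ A := by
      refine div_le_div_of_nonneg_right ?_ (by positivity)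
      have : 2 * N ≤ 4 * N := by omega
      exact_mod_cast this
    refine (h3.trans hD.small).trans ?_
    have h4 : vGF α h Mo N B z ε₁ ^ 2 ≤ (vGF α h Mo N B z ε₁ * bb N B ρ) ^ 2 := by
      rw [mul_pow]
      refine le_mul_of_one_le_right (sq_nonneg _) ?_
      exact one_le_pow₀ hD.b1
    calc ε * (MMF α h Mo D N B ρ * vGF α h Mo N B z ε₁ ^ 2)
        ≤ ε * (MMF α h Mo D N B ρ * (vGF α h Mo N B z ε₁ * bb N B ρ) ^ 2) :=
          mul_le_mul_of_nonneg_left (mul_le_mul_of_nonneg_left h4 hMM.le) hD.ε0.le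
      _ = _ := by ring
  calc ∑' n : ℤ, muF Q α h Mo ρ ρ₁ D B N v Tr i n * (sjF α h Mo ε₁ B N z b j n *
      sjF α h Mo ε₁ B N z b l n) ≤ _ := h1
    _ ≤ ((2 * N : ℕ) : ℝ) * Mm D D₁ (z ^ 2) (PBF α h Mo N B ρ₁) t (cw (prP (PBF α h Mo N B ρ₁))
      (zC Q k (PBF α h Mo N B ρ₁) (ρ * Real.log N) i j l)) th th b b +
      ((2 * N : ℕ) : ℝ) / (Real.log N) ^ A := by linarith
    _ ≤ _ := by
      rw [mul_add]
      exact add_le_add hMm herr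


end Pool.Agent.TH899.UG
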