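import Pool.Agent.TH899.UG.Stm
import Pool.Agent.W804.UBUD

/-! The diagonal second moments, general linear forms. -/

set_option autoImplicit false

namespace Pool.Agent.TH899.UG

open Finset Filter Topology
open Pool.Agent.H410R2 hiding GP GP_prof GP_cut_some GP_cut_none GP_lip gg_pos gg_le_one gg_anti ee_bound ee_nonneg gg_lip LB_gg LB_ee Sums exists_sums yx wx wxi Br sum_GP_none sum_GP_some sum_GP_some_ee sum_GP_some_one sum_GPr_none sum_GPr_some S1_final QI_final S2_final w_abs_le wmax gg ee I1 I2 IE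
open Pool.Agent.H361R2.GM
open Pool.Agent.H362R2.CM
open Pool.Agent.W25.UN
open Pool.Agent.W25.UB
open Pool.Agent.W804.UBUD

theorem udF (hNWU : St_NWU) (hNWE : St_NWE) : St_UDF := by
  intro k Q α h Mo ε₀ ε₁ ρ ρ₁ ε M C1 A E₁ D B N v D₁ z Tr t th dl b hI1 hI2 d i j hij
  have hk := d.k3
  obtain ⟨l, hil, hjl⟩ := exists_third hk i j
  have hN : (8 : ℝ) ≤ (N : ℝ) := by exact_mod_cast d.N8
  have hl0 : 0 < Real.log N := by linarith [d.l1]
  have hL : 0 < ρ * Real.log N := mul_pos d.ρ0 hl0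
  have hPp : ∀ p ∈ PBF α h Mo N B ρ₁, p.Prime := fun p hp =>
    (d.gd p (mem_union_left _ hp)).1.1
  obtain ⟨_, hB, _, hsz, hQ⟩ := hNWU k Q (PBF α h Mo N B ρ₁) (ρ * Real.log N) i j l hij hil hjl hL hPp
  obtain ⟨_, ⟨hQ0, hQ1⟩, _⟩ := hQ (DB (2 * N) B) ε (bb N B ρ) (LZ (uB α) (wB h Mo)) d.sd d.ε0 d.ε3
    hI1 hI2 d.bd0 rfl d.sums
  obtain ⟨hne, _⟩ := hNWE k (uB α) (wB h Mo) (PBF α h Mo N B ρ₁) (fun p hp => (hPp p hp).two_le)
  set P := PBF α h Mo N B ρ₁ with hPdef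
  set PT := PtF α h Mo N B ε₁ with hPTdef
  set zb := zB Q k P (ρ * Real.log N) i j with hzb
  set cB := cw (prP P) zb with hcB
  have hz2 : 1 ≤ z ^ 2 := Nat.one_le_pow _ _ d.z1
  have hc0 : ∀ σ, cB σ ≠ 0 → zb σ ≠ 0 := by
    intro σ hσ h0
    apply hσ
    rw [hcB]
    unfold cw
    rw [h0, mul_zero]
  -- the exponent
  have hZ : ((z ^ 2 : ℕ) : ℝ) ≤ ((4 * N : ℕ) : ℝ) ^ (1 / 2 + ε₀ / 4) := by
    have h1 := d.z2
    have h2 : (1 : ℝ) ≤ ((z ^ 2 : ℕ) : ℝ) := by exact_mod_cast hz2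
    have h3 : (1 : ℝ) < ((2 * N : ℕ) : ℝ) := by push_cast; linarith
    rcases lt_or_ge (1 / 2 + ε₀ / 4) 0 with he | he
    · have h4 := Real.rpow_lt_one_of_one_lt_of_neg h3 he
      linarith
    · refine h1.trans (Real.rpow_le_rpow (by linarith) ?_ he)
      push_cast
      linarith
  have hlog2 : 1 ≤ Real.log (2 * N : ℕ) := by
    refine d.l1.trans (Real.log_le_log (by linarith) ?_)
    push_cast
    linarith
  obtain ⟨hsum, hbd⟩ := d.mas (4 * N) (z ^ 2) cB j i th dlt b dlt (Or.inr rfl) hZ hij.symm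
    (fun σ => by
      refine cw_bd P hPp zb σ _ ?_
      exact ((hsz σ).2.1).trans d.size)
    (fun σ hσ => by
      have h1 := (hB σ (hc0 σ hσ)).1
      linarith)
    d.dth (triv_DW PT D₁ d.D1 _ hlog2)
    (Or.inr fun σ hσ => (hB σ (hc0 σ hσ)).2)
    (Or.inl fun e he => dlt_ne he)
    d.bM (triv_RCM _ _ _ hz2 M d.M1)
  -- pointwise
  have hMs : ∀ n : ℤ, Ms α h Mo D v D₁ (z ^ 2) P Tr cB j i th dlt b dlt n =
      ((if ((WW D / 2 : ℕ) : ℤ) ∣ n - v then 1 else 0) * Tr n) *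
        (FZ (uB α) (wB h Mo) P cB n ^ 2 * Pool.Agent.W23.PL.Ev th D₁ (Lf α h Mo (some j) n)) *
        ds b (z ^ 2) (Lf α h Mo (some j) n) := by
    intro n
    unfold Ms
    rw [triv_Ev D₁ d.D1, triv_ds (z ^ 2) hz2, mul_one, mul_one]
  have hWt : ∀ (X : ℕ) (n : ℤ), 0 ≤ Pool.Agent.H442R2.KF.Wt X n := fun X n =>
    (Real.exp_pos _).le
  have hind : ∀ n : ℤ, (0 : ℝ) ≤ (if ((WW D / 2 : ℕ) : ℤ) ∣ n - v then (1 : ℝ) else 0) * Tr n := by
    intro n
    refine mul_nonneg ?_ (d.Tr0 n)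
    split_ifs
    · exact zero_le_one
    · exact le_rfl
  have hxx0 : ∀ m : ℤ, 0 ≤ Pool.Agent.W23.PL.xx PT m := by
    intro m
    rcases xx_cases PT m with h1 | h1
    · rw [h1]
    · rw [h1.1]; exact zero_le_one
  have hEv0 : ∀ m : ℤ, 0 ≤ Pool.Agent.W23.PL.Ev th D₁ m := fun m =>
    (hxx0 m).trans (d.fl m).1
  have hMs0 : ∀ n : ℤ, 0 ≤ Ms α h Mo D v D₁ (z ^ 2) P Tr cB j i th dlt b dlt n := by
    intro n
    rw [hMs n]
    exact mul_nonneg (mul_nonneg (hind n) (mul_nonneg (sq_nonneg _) (hEv0 _))) (d.bn _)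
  have hC10 : 0 ≤ C1 := by linarith [d.C11]
  have hmu0 : ∀ n : ℤ, 0 ≤ muF Q α h Mo ρ ρ₁ D B N v Tr i n := by
    intro n
    unfold muF
    exact mul_nonneg (hWt _ _) (mul_nonneg (hind n) (sq_nonneg _))
  have hle : ∀ n : ℤ, muF Q α h Mo ρ ρ₁ D B N v Tr i n * sjF α h Mo ε₁ B N z b j n ^ 2 ≤
      C1 * (Pool.Agent.H442R2.KF.Wt (4 * N) n *
        Ms α h Mo D v D₁ (z ^ 2) P Tr cB j i th dlt b dlt n) := by
    intro n
    have hR : 0 ≤ C1 * (Pool.Agent.H442R2.KF.Wt (4 * N) n *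
        Ms α h Mo D v D₁ (z ^ 2) P Tr cB j i th dlt b dlt n) :=
      mul_nonneg hC10 (mul_nonneg (hWt _ _) (hMs0 n))
    rcases xx_cases PT (Lf α h Mo (some j) n) with h1 | ⟨h1, h2⟩
    · have h3 : sjF α h Mo ε₁ B N z b j n = 0 := by
        unfold sjF
        rw [← hPTdef, h1, zero_mul]
      rw [h3]
      simpa using hR
    · have hLn : Lf α h Mo (some j) n ≠ 0 := by
        intro h0
        obtain ⟨p, hp⟩ := d.ne
        refine h2 p hp ?_
        rw [h0]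
        exact dvd_zero _
      have h3 : sjF α h Mo ε₁ B N z b j n = ds b (z ^ 2) (Lf α h Mo (some j) n) := by
        unfold sjF
        rw [← hPTdef, h1, one_mul]
      have h4 : FZ (uB α) (wB h Mo) P cB n =
          FZ (uB α) (wB h Mo) P (cw (prP P) (zA Q k P (ρ * Real.log N) i)) n := by
        rw [hcB, hzb]
        unfold zB
        exact hne (some j) 0 (zA Q k P (ρ * Real.log N) i) n le_rfl
          (fun p hp => h2 p (d.sub hp))
      have h5 : 1 ≤ Pool.Agent.W23.PL.Ev th D₁ (Lf α h Mo (some j) n) := by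
        have := (d.fl (Lf α h Mo (some j) n)).1
        rw [← hPTdef, h1] at this
        exact this
      rw [h3, hMs n, h4]
      unfold muF
      rw [← hPdef]
      have h6 := d.rcb j n hLn
      have h7 := d.bn (Lf α h Mo (some j) n)
      have h8 := hind n
      have h9 := sq_nonneg (FZ (uB α) (wB h Mo) P (cw (prP P) (zA Q k P (ρ * Real.log N) i)) n)
      generalize FZ (uB α) (wB h Mo) P (cw (prP P) (zA Q k P (ρ * Real.log N) i)) n ^ 2 = f at h9 ⊢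
      generalize (if ((WW D / 2 : ℕ) : ℤ) ∣ n - v then (1 : ℝ) else 0) * Tr n = g at h8 ⊢
      generalize Pool.Agent.W23.PL.Ev th D₁ (Lf α h Mo (some j) n) = e at h5 ⊢
      generalize ds b (z ^ 2) (Lf α h Mo (some j) n) = s at h6 h7 ⊢
      have h10 := hWt (4 * N) n
      generalize Pool.Agent.H442R2.KF.Wt (4 * N) n = w4 at h6 h10 ⊢
      generalize Pool.Agent.H442R2.KF.Wt (2 * N) n = w2 at h6 ⊢
      have h11 : 0 ≤ g * f * s := by positivity
      calc w2 * (g * f) * s ^ 2 = (w2 * s) * (g * f * s) := by ring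
        _ ≤ (C1 * w4) * (g * f * s) := mul_le_mul_of_nonneg_right h6 h11
        _ = (C1 * w4 * (g * f * s)) * 1 := by ring
        _ ≤ (C1 * w4 * (g * f * s)) * e := mul_le_mul_of_nonneg_left h5 (by positivity)
        _ = C1 * (w4 * (g * (f * e) * s)) := by ring
  have hnn : ∀ n : ℤ, 0 ≤ muF Q α h Mo ρ ρ₁ D B N v Tr i n * sjF α h Mo ε₁ B N z b j n ^ 2 := fun n =>
    mul_nonneg (hmu0 n) (sq_nonneg _)
  have hsC := hsum.mul_left C1
  have hsumm := Summable.of_nonneg_of_le hnn hle hsC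
  refine ⟨hsumm, ?_⟩
  have h1 := hsumm.tsum_le_tsum hle hsC
  rw [tsum_mul_left] at h1
  refine h1.trans ?_
  have hW1 : (1 : ℝ) ≤ ((WW D / 2 : ℕ) : ℝ) := by exact_mod_cast d.W2
  unfold Mm at hbd
  rw [triv_hat D₁ d.D1, triv_sum (z ^ 2) hz2, d.bs] at hbd
  refine calc1 ((2 * N : ℕ) : ℝ) (Pool.Agent.W25.UN.VV α h Mo D (DB (2 * N) B))
    ((WW D / 2 : ℕ) : ℝ) (bb N B ρ) (Pool.Agent.W23.PL.VV (PtF α h Mo N B ε₁))
    (GG (PbF α h Mo N z ε₁) z) (Q1f (prP P) cB) (((4 * N : ℕ) : ℝ) / (Real.log N) ^ A)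
    Q.I1 Q.I2 ε (ε₁ ^ 3) C1 _ (MMF α h Mo D N B ρ) (vGF α h Mo N B z ε₁) t
    (Pool.Agent.W23.PL.hat th D₁) ((4 * N : ℕ) : ℝ) k (by omega) ?_ (by positivity) (by linarith)
    d.Vp d.b1 d.V0 d.V1 d.G1 d.ε0 d.ε3 ?_ ?_ hI1 hI2 d.C11 rfl rfl hQ0 hQ1 d.t1 d.hth d.small ?_
  · push_cast
    ring
  · have := d.e10
    positivity
  · exact pow_le_one₀ d.e10.le (by linarith [d.e11])
  · exact hbd


end Pool.Agent.TH899.UG
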