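import Mathlib
import Pool.Agent.TH899.UG.AsmD
import Pool.Agent.TH899.UG.Tu
import Pool.Agent.TH899.UG.Bc
import Pool.Agent.TH899.UG.Co
import Pool.Agent.TH899.UG.Ttc
import Pool.Agent.TH899.UG.R2g
import Pool.Agent.TH899.UG.R2L
import Pool.Agent.TH899.UG.Mas
import Pool.Agent.TH899.UG.Vln
import Pool.Agent.TH899.UG.Dat
import Pool.Agent.TH899.UG.U0
import Pool.Agent.TH899.UG.U2
import Pool.Agent.TH899.UG.UD
import Pool.Agent.TH899.UG.L1
import Pool.Agent.W25.UB.Final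
import Pool.Agent.W856.UBNumT

/-! The coloured theorem for general linear forms, unconditionally. -/

set_option autoImplicit false

namespace Pool.Agent.TH899.UG

open Pool.Agent.W25.UN Pool.Agent.W25.UB
open Pool.Agent.H442R2

theorem hTTCl : St_TTCl := TTCl (COSl (COl (BBl (BCl (TUl BX.KS) BX.PW)) BX.SV_thm) BX.RC BX.GS)

theorem hR2LF : St_R2LF := R2L (R2g hTTCl)

theorem hMASF : St_MASF := masF hEXM Pool.Agent.W505.UBGAU.main hFT3

theorem hVLNF : St_VLNF := vlnF Pool.Agent.W655.PL.VLB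

theorem hDATF : St_DATF :=
  datF (Pool.Agent.W308.UB.main hEXM)
    (Pool.Agent.W505.UBFLC.main Pool.Agent.W308.PL.FLW Pool.Agent.W655.PL.VLB)
    Pool.Agent.W356.UBSel.main Pool.Agent.W287.UB.main hSUM hMASF
    (rcbF BX.RC BX.GS) hVLNF (Pool.Agent.W940.UBNWL.main Pool.Agent.W21.UN.main)
    Pool.Agent.W398.UNFO.sd

theorem hTWaF : St_TWaF :=
  twaF (Pool.Agent.W991.UN.main hFLA Pool.Agent.W21.UN.main)
    Pool.Agent.W776.UNTents.main Pool.Agent.W398.UNFO.rc Pool.Agent.W398.UNFO.sd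
    Pool.Agent.W493.UN.S1P.main Pool.Agent.W493.UN.WD.main
    W310.UN.VL.main Pool.Agent.W21.UN.main hSUM

theorem hTWbF : St_TWbF :=
  twbF (Pool.Agent.W334.UNPS2.main hFLA Pool.Agent.W924.UNS2G.main)
    Pool.Agent.W776.UNTents.main Pool.Agent.W398.UNFO.rc Pool.Agent.W398.UNFO.sd
    Pool.Agent.W143.UN.WE.main (Pool.Agent.W410.UNEQ.main Pool.Agent.W776.UNTents.main)
    hSUM
    (Pool.Agent.W293.UN.Pn.main Pool.Agent.H732R2.pntLog)
    (Pool.Agent.W493.UN.ER.main Pool.Agent.H410R2.bvap) Pool.Agent.W493.UN.QL.main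
    Pool.Agent.W493.UN.WD.main W310.UN.VL.main Pool.Agent.H361R2.tailBound

/-- the uniform coloured theorem with any number of classes, arbitrary slopes -/
theorem thmVGF : ThmVGF :=
  thmVGF_of hR2LF hDATF Pool.Agent.W856.UBNumT.main hTWaF hTWbF
    (u0F hNWU) (l1F hNWU Pool.Agent.W469.UBNWE.main)
    (u2F hNWU Pool.Agent.W469.UBNWE.main)
    (udF hNWU Pool.Agent.W469.UBNWE.main) Pool.Agent.W469.UBNWE.main hVLNF

end Pool.Agent.TH899.UG
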