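import Mathlib
import Pool.Agent.TH899.UG.Stm
import Pool.Agent.TH899.UG.Vln
import Pool.Agent.W22.UB.TWa
import Pool.Agent.TH899.UG.VlnH
import Pool.Agent.TH899.UG.TWa

/-! The first sum for general linear forms, with the new parameters. -/

set_option autoImplicit false

namespace Pool.Agent.TH899.UG

open Finset Filter Topology
open Pool.Agent.H410R2 hiding GP GP_prof GP_cut_some GP_cut_none GP_lip gg_pos gg_le_one gg_anti ee_bound ee_nonneg gg_lip LB_gg LB_ee Sums exists_sums yx wx wxi Br sum_GP_none sum_GP_some sum_GP_some_ee sum_GP_some_one sum_GPr_none sum_GPr_some S1_final QI_final S2_final w_abs_le wmax gg ee I1 I2 IE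
open Pool.Agent.H361R2.GM
open Pool.Agent.H362R2.CM
open Pool.Agent.W25.UN Pool.Agent.W25.UB
open Pool.Agent.W22.UB (Jb Jb_le Jb_up ev_DB DB_up ZZ_low' E1_small')

theorem twaH (hPS1 : PS1) (hTn : Tents) (hRC : RootsCount) (hSd : SdLZ)
    (hS1P : S1Parts) (hWF : WFacts) (hVL : VLow) (hS1G : S1Gen) (hSUM : St_SUM) : St_TWaH := by
  classical
  intro k Q ρ ρ₁ ε B hk hρ hρ1 hρρ hρ₁ hε hε1 hI1 hI2 hB
  have hρlt : ρ < ρ₁ := by linarith
  obtain ⟨C1, hC1, hPS1⟩ := ps1At_of hPS1 (k + 1)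
  obtain ⟨DW, hWF⟩ := hWF
  obtain ⟨b0, hb0⟩ := exists_pow_lt_of_lt_one (by positivity : 0 < ε / 8)
    (by norm_num : (1 / 2 : ℝ) < 1)
  obtain ⟨b, hb1, hβ⟩ : ∃ b : ℕ, C1 ≤ b ∧ (1 / 2 : ℝ) ^ b ≤ ε / 8 :=
    ⟨b0 + C1, by omega, by
      refine le_trans ?_ hb0.le
      exact pow_le_pow_of_le_one (by norm_num) (by norm_num) (by omega)⟩
  obtain ⟨m3, hm3⟩ := prods_le (3 * ((k + 1 : ℕ) : ℝ)) (by positivity)
  have hI2p : 0 < Q.I2 := hε.trans hI2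
  refine ⟨DW + C1 + 2 * (k + 1) + 1, fun D hD α hα hαD c₀ hc₀ hc₁ => ?_⟩
  obtain ⟨C', hCC⟩ := clH k α
  obtain ⟨hW, htot, hBDp, hdvd, -⟩ := hWF D (by omega)
  have hWR : (0 : ℝ) < WW D := by exact_mod_cast hW
  have hc₀p : 0 < c₀ := by linarith
  filter_upwards [hCC, hSUM Q (k + 1) ε ρ ρ₁ C' B hε hρ hρlt hB,
    ev_DB B (by omega) (D + 1), Jb_up B (by omega), DB_up B, hm3,
    ev_poly (16 / (ε / 400)) ((2 * B + 2) + 2 * (2 * B + 1) * (C1 * b) + 1 + 2 * m3 +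
      ((3 * B + 2) * (k + 1) + 2)) (49 / 24 * ρ) 1 (by linarith),
    ev_log 1, ev_log (2 ^ B), ev_log (48 * WW D / (ε / 400 * c₀ * ρ ^ (k + 1))),
    ev_log (2 / (ε * ((1 / 3 + ε) * (Q.I2 + ε) ^ k))), eventually_ge_atTop 16]
    with N hCC hsums hDp hJ hDup hm3 hpoly hl1 hl2 hl3 hl4 hN16 h Mo hMo hnd v hv Z hZ
  replace hCC := hCC h Mo hMo hnd
  have hN1 : 1 ≤ N := by omega
  have hNR : (16 : ℝ) ≤ N := by exact_mod_cast hN16
  have hl0 : 0 < Real.log N := by linarith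
  have hPs := PBF_spec α h Mo N B ρ₁ hρ₁ hN1
  have hPle : ∀ p ∈ PBF α h Mo N B ρ₁, p.Prime ∧ (p : ℝ) ≤ N :=
    fun p hp => ⟨(hPs p hp).1, (hPs p hp).2.2.2.2⟩
  have hPD : ∀ p ∈ PBF α h Mo N B ρ₁, p.Prime ∧ DB (2 * N) B < p :=
    fun p hp => ⟨(hPs p hp).1, (hPs p hp).2.1⟩
  have H : Hyp α h D (DB (2 * N) B) Mo v (PBF α h Mo N B ρ₁) := {
    hα := hα
    hW := hW
    tot := htot
    BDpos := hBDp
    hdvd := hdvd
    hDk := by omega
    hDα := hαD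
    hDD := by omega
    hP := hPD
    hres := fun p hp j l hjl => CL_ndvd hnd (hPs p hp).1 (hPs p hp).2.2.1 j l hjl
    hv := hv }
  have hS1 := ((hsums (CL (uB α) (wB h Mo)) (PBF α h Mo N B ρ₁) hCC hPD).1
    (fun p hp hDp' hple hpC => by
      unfold PBF
      rw [Finset.mem_filter, Finset.mem_Icc]
      exact ⟨⟨hDp', Nat.le_floor hple⟩, hp, hpC⟩)).2
  have hDp1 : 1 ≤ DB (2 * N) B := by omega
  have hVlow := hVL (k + 1) (DB (2 * N) B) (QQ D (DB (2 * N) B))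
    (fun p => (Om (uB α) (wB h Mo) p).card) hDp1 (fun p hp => by
      have h1 := QQ_prime hp
      exact ⟨h1.1, by omega, h1.2.2,
        (hRC k (uB α) (wB h Mo) p h1.1 (fun j => H.uB_ndvd h1.1 h1.2.1 j)).2.1⟩)
  have hDl : (DB (2 * N) B : ℝ) ≤ (Real.log N) ^ (B + 1) := by
    refine hDup.trans ?_
    rw [pow_succ, mul_comm]
    exact mul_le_mul_of_nonneg_left hl2 (by positivity)
  have hZlow : N / (Real.log N) ^ ((3 * B + 2) * (k + 1) + 1) ≤ Z := by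
    rw [hZ]
    apply ZZ_low' k B (VV α h Mo D (DB (2 * N) B)) (ε / 400 * (c₀ * N)) (WW D)
      (BD (DB (2 * N) B)) (ρ * Real.log N) (ε / 400 * c₀) (Real.log N) N (DB (2 * N) B) ρ hl1
      hWR hρ rfl
    · exact_mod_cast hDp1
    · exact hDl
    · exact hVlow.1
    · exact hVlow.2
    · ring
    · positivity
    · positivity
    · exact hl3
  have hErr : N / (Real.log N) ^ ((3 * B + 2) * (k + 1) + 2) ≤ Z / Real.log N := by
    have e1 : (N : ℝ) / (Real.log N) ^ ((3 * B + 2) * (k + 1) + 2) =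
        N / (Real.log N) ^ ((3 * B + 2) * (k + 1) + 1) / Real.log N := by
      rw [div_div, ← pow_succ]
    rw [e1]
    exact div_le_div_of_nonneg_right hZlow (by linarith)
  exact fix_IF hPS1 hTn hRC hSd hS1P hS1G H Q ρ ε (Real.log N) c₀ b
    ((3 * B + 2) * (k + 1) + 2) (Jb N B) (2 * B + 1) (2 * B + 2) m3 hρ hρ1 hε hε1 hI2p rfl hl1
    hN16 hc₀ hc₁ hb1 (by omega) hβ (Jb_le N B) hJ (hm3 (PBF α h Mo N B ρ₁) hPle) hpoly hS1 Z hZ
    hErr hl4

end Pool.Agent.TH899.UG
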