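import Mathlib
import Pool.Agent.TH899.UG.Stm
import Pool.Agent.TH899.UG.Vln
import Pool.Agent.TH899.UG.Geo
import Pool.Agent.TH899.UG.Pt
import Pool.Agent.TH899.UG.AsmB
import Pool.Agent.TH899.UG.TWa
import Pool.Agent.W460.UB.TWb
import Pool.Agent.TH899.UG.VlnH
import Pool.Agent.TH899.UG.PtH
import Pool.Agent.TH899.UG.TWb

/-! The prime sums for general linear forms, with the new parameters. -/

set_option autoImplicit false

namespace Pool.Agent.TH899.UG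

open Finset Filter Topology
open Pool.Agent.H410R2 hiding GP GP_prof GP_cut_some GP_cut_none GP_lip gg_pos gg_le_one gg_anti ee_bound ee_nonneg gg_lip LB_gg LB_ee Sums exists_sums yx wx wxi Br sum_GP_none sum_GP_some sum_GP_some_ee sum_GP_some_one sum_GPr_none sum_GPr_some S1_final QI_final S2_final w_abs_le wmax gg ee I1 I2 IE
open Pool.Agent.H361R2.GM
open Pool.Agent.H362R2.CM
open Pool.Agent.W25.UN
open Pool.Agent.W25.UB (DB)
open Pool.Agent.W460.UBT (Jb Jb_le Jb_up ev_DB DB_up ZZ_lowB E2_leB)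

variable {k : ℕ}

theorem szH (α : Fin k → ℤ) (hα : ∀ i, α i ≠ 0) (D : ℕ) (hαD : ∀ i, (α i).natAbs ≤ D)
    (c₀ : ℝ) (hc1 : 1 / 8 ≤ c₀)
    (hc2 : c₀ ≤ 1 / 4) (κ : ℝ) (hκ : 0 < κ) (hκ1 : κ ≤ 1 / 64) :
    ∀ᶠ N : ℕ in atTop, ∀ (h : Fin k → ℤ) (Mo : ℕ), HB h Mo N → PosR α h Mo N → ∀ i,
      SzF (c₀ * N) (xcF α h Mo c₀ N i) κ (aI α i) (D + 2) N := by
  filter_upwards [eventually_ge_atTop 64] with N hN h Mo hMo hpos i
  have hN0 : (64 : ℝ) ≤ N := by exact_mod_cast hN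
  have h2 : c₀ * N ≤ 1 / 4 * N := mul_le_mul_of_nonneg_right hc2 (by linarith)
  have h3 : 1 / 8 * N ≤ c₀ * N := mul_le_mul_of_nonneg_right hc1 (by linarith)
  set n : ℝ := c₀ * N with hn
  have hn0 : 0 < n := by linarith
  have hhi := hMo.real i
  have h4 := abs_le.1 (le_refl |(Mo : ℝ) + h i|)
  have ha1 : 1 ≤ aI α i := aI_pos α hα i
  have ha1' : (1 : ℝ) ≤ aI α i := by exact_mod_cast ha1
  have haD : (aI α i : ℝ) ≤ D := by
    have : aI α i ≤ D := hαD i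
    exact_mod_cast this
  set a : ℝ := (aI α i : ℝ) with ha
  have ha0 : 0 < a := by linarith
  have habs : |(α i : ℝ)| = a := by
    have := aI_abs α i
    rw [ha, ← Int.cast_abs, ← this, Int.cast_natCast]
  have hκn : κ * n ≤ 1 / 64 * n := mul_le_mul_of_nonneg_right hκ1 hn0.le
  have hκn0 : 0 < κ * n := by positivity
  have hx : a * xcF α h Mo c₀ N i = Mo + α i * n + h i := by
    unfold xcF
    rw [← ha, ← hn]
    exact mul_div_cancel₀ _ ha0.ne'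
  set x : ℝ := xcF α h Mo c₀ N i with hxd
  have han : n ≤ a * n := le_mul_of_one_le_left hn0.le ha1'
  have haN : a * n ≤ D * n := mul_le_mul_of_nonneg_right haD hn0.le
  have hDn : (D : ℝ) * n ≤ D * (1 / 4 * N) := mul_le_mul_of_nonneg_left h2 (Nat.cast_nonneg _)
  have hakn : a * (κ * n) ≤ 1 / 64 * (a * n) := by
    calc a * (κ * n) ≤ a * (1 / 64 * n) := mul_le_mul_of_nonneg_left hκn ha0.le
      _ = _ := by ring
  have haN' : (N : ℝ) ≤ a * N := le_mul_of_one_le_left (by linarith) ha1'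
  have key : n / 2 ≤ x ∧ (N : ℝ) / 16 ≤ x ∧ (N : ℝ) / 32 ≤ a * (x - κ * n) ∧
      Mo + α i * n + h i ≤ 5 / 4 * N + a * n + N / 16 := by
    rcases lt_or_gt_of_ne (hα i) with hneg | hposα
    · have hαe : (α i : ℝ) = -a := by
        rw [← habs, abs_of_neg (by exact_mod_cast hneg)]
        ring
      have hp1 := hpos i (N / 2) (by linarith) le_rfl
      have hp2 := hpos i (n + κ * n) (by linarith) (by linarith)
      rw [hαe] at hp1 hp2 hx ⊢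
      have e1 : a * (N / 4) ≤ a * x := by
        have e3 : a * n ≤ a * (1 / 4 * N) := mul_le_mul_of_nonneg_left h2 ha0.le
        rw [hx]
        linarith
      have e2 : (N : ℝ) / 4 ≤ x := le_of_mul_le_mul_left e1 ha0
      refine ⟨by linarith, by linarith, ?_, ?_⟩
      · rw [mul_sub, hx]
        linarith
      · linarith
    · have hαe : (α i : ℝ) = a := by
        rw [← habs, abs_of_pos (by exact_mod_cast hposα)]
      have hp1 := hpos i (N / 16) le_rfl (by linarith)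
      have hp2 := hpos i (n - κ * n) (by linarith) (by linarith)
      rw [hαe] at hp1 hp2 hx ⊢
      have e1 : a * (n / 2) ≤ a * x := by
        rw [hx]
        have e3 : a * (1 / 8 * N) ≤ a * n := mul_le_mul_of_nonneg_left h3 ha0.le
        linarith
      have e2 : n / 2 ≤ x := le_of_mul_le_mul_left e1 ha0
      refine ⟨e2, by linarith, ?_, ?_⟩
      · rw [mul_sub, hx]
        linarith
      · linarith
  obtain ⟨k1, k2, k3, k4⟩ := key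
  have hxup : a * x ≤ a * (2 * N) := by
    rw [hx]
    have e3 : a * n ≤ a * (1 / 4 * N) := mul_le_mul_of_nonneg_left h2 ha0.le
    linarith
  have hxup' : x ≤ 2 * N := le_of_mul_le_mul_left hxup ha0
  refine szF_aux n x κ a (D + 2) N hN hκ hκ1 (by linarith) (by linarith) k1 k2 hxup' k3 ?_
  rw [mul_add, hx]
  have hDN : (0 : ℝ) ≤ D * N := by positivity
  linarith

theorem geoH_ev (α : Fin k → ℤ) (hα : ∀ i, α i ≠ 0) (D : ℕ) (hαD : ∀ i, (α i).natAbs ≤ D)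
    (c₀ : ℝ) (hc1 : 1 / 8 ≤ c₀)
    (hc2 : c₀ ≤ 1 / 4) (κ : ℝ) (hκ : 0 < κ) (hκ1 : κ ≤ 1 / 64) (B : ℕ) (ρ₁ : ℝ)
    (hρ₁ : ρ₁ ≤ 1 / 4) (hW : 1 ≤ WW D) :
    ∀ᶠ N : ℕ in atTop, ∀ (h : Fin k → ℤ) (Mo : ℕ), HB h Mo N → PosR α h Mo N → ∀ v : ℕ,
      GeoF α h D (DB (2 * N) B) Mo v (PBF α h Mo N B ρ₁) (c₀ * N)
      (κ * (c₀ * N)) N (xcF α h Mo c₀ N) (fun i => ⌈3 * xcF α h Mo c₀ N i⌉₊) (vf α h D Mo v) := by
  have h2 : ∀ᶠ N : ℕ in atTop, ((D : ℝ) + 2) * (Real.log N) ^ (B + 1) * (N : ℝ) ^ (0 : ℝ) ≤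
      (N : ℝ) ^ (1 / 2 : ℝ) := ev_poly _ (B + 1) 0 (1 / 2) (by norm_num)
  have h3 : ∀ᶠ N : ℕ in atTop, (64 : ℝ) * (Real.log N) ^ 0 * (N : ℝ) ^ (1 / 2 : ℝ) ≤
      (N : ℝ) ^ (1 : ℝ) := ev_poly _ 0 (1 / 2) 1 (by norm_num)
  filter_upwards [szH α hα D hαD c₀ hc1 hc2 κ hκ hκ1, h2, h3, ev_log 1, eventually_ge_atTop 8,
    DB_up B] with N hsz h2 h3 hl hN hDB h Mo hMo hpos v
  replace hsz := hsz h Mo hMo hpos
  have hN8 : (8 : ℝ) ≤ N := by exact_mod_cast hN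
  have hN0 : (0 : ℝ) < N := by linarith
  rw [Real.rpow_zero, mul_one] at h2
  rw [pow_zero, mul_one, Real.rpow_one] at h3
  have hc0 : 0 < c₀ := by linarith
  have hn0 : 0 < c₀ * N := by positivity
  have hnN : c₀ * N ≤ 1 / 4 * N := mul_le_mul_of_nonneg_right hc2 (by linarith)
  have hl3 : 1 ≤ (Real.log N) ^ (B + 1) := one_le_pow₀ hl
  have hκn : κ * (c₀ * N) ≤ 1 / 64 * (c₀ * N) := mul_le_mul_of_nonneg_right hκ1 hn0.le
  constructor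
  · positivity
  · linarith
  · linarith
  · intro i
    have ha : (0 : ℝ) < aI α i := by exact_mod_cast aI_pos α hα i
    unfold xcF
    field_simp
  · intro i
    exact (hsz i).hXi
  · intro i
    have h4 := (hsz i).big
    have haD : (aI α i : ℝ) ≤ D := by
      have : aI α i ≤ D := hαD i
      exact_mod_cast this
    have hD0 : (0 : ℝ) ≤ D := Nat.cast_nonneg _
    have h6 : (DB (2 * N) B : ℝ) + aI α i + 1 ≤ ((D : ℝ) + 2) * (Real.log N) ^ (B + 1) := by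
      have h8 : (D : ℝ) * 1 ≤ D * (Real.log N) ^ (B + 1) := mul_le_mul_of_nonneg_left hl3 hD0
      linarith
    have h7 : (0 : ℝ) < (N : ℝ) ^ (1 / 2 : ℝ) := by positivity
    linarith
  · intro i p hp
    have h4 := (hsz i).big
    have h5 := (PBF_spec α h Mo N B ρ₁ hρ₁ (by omega) p hp).2.2.2.1
    have h6 : Real.exp (ρ₁ * Real.log N) ≤ (N : ℝ) ^ (1 / 2 : ℝ) := by
      rw [Real.rpow_def_of_pos hN0]
      apply Real.exp_le_exp.2
      have h8 : ρ₁ * Real.log N ≤ 1 / 4 * Real.log N :=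
        mul_le_mul_of_nonneg_right hρ₁ (by linarith)
      linarith
    have h7 : (0 : ℝ) < (N : ℝ) ^ (1 / 2 : ℝ) := by positivity
    linarith
  · intro i y
    exact vf_spec α h hα D Mo v hW i y

/-- eventual form of the prime number theorem for all forms -/
theorem pn_evH (hPN : PntT) (α : Fin k → ℤ) (hα : ∀ i, α i ≠ 0) (c₀ : ℝ)
    (ε κ1 : ℝ) (hε : 0 < ε) (hκ1 : 0 < κ1) :
    ∀ᶠ N : ℕ in atTop, ∀ (h : Fin k → ℤ) (Mo : ℕ) (i : Fin k), (N : ℝ) / 16 ≤ xcF α h Mo c₀ N i →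
      ∀ κ' : ℝ, κ1 ≤ κ' → κ' ≤ 1 →
      |Mt (aI α i) (xcF α h Mo c₀ N i) κ' - ts (xcF α h Mo c₀ N i) κ'| ≤
        ε * (κ' * xcF α h Mo c₀ N i) := by
  have h0 : ∀ᶠ N : ℕ in atTop, ∀ (i : Fin k) (h : Fin k → ℤ) (Mo : ℕ), (N : ℝ) / 16 ≤ xcF α h Mo c₀ N i →
      ∀ κ' : ℝ, κ1 ≤ κ' → κ' ≤ 1 →
      |Mt (aI α i) (xcF α h Mo c₀ N i) κ' - ts (xcF α h Mo c₀ N i) κ'| ≤
        ε * (κ' * xcF α h Mo c₀ N i) := by
    rw [Filter.eventually_all]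
    intro i
    have ha : 1 ≤ aI α i := aI_pos α hα i
    obtain ⟨X1, hX1⟩ := Filter.eventually_atTop.1 (hPN (aI α i) ε κ1 ha hε hκ1)
    have h2 : ∀ᶠ N : ℕ in atTop, 16 * X1 ≤ (N : ℝ) :=
      tendsto_natCast_atTop_atTop.eventually_ge_atTop _
    filter_upwards [h2] with N h3 h Mo h4
    apply hX1
    refine le_trans ?_ h4
    linarith
  filter_upwards [h0] with N h1 h Mo i
  exact h1 i h Mo

/-- eventual form of the error bound for all forms -/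
theorem er_evH (hER : ErrU) (hEq : Eq2) (α : Fin k → ℤ) (hα : ∀ i, α i ≠ 0)
    (c₀ : ℝ) (B : ℕ) (hB : 3 ≤ B) (D : ℕ) (hαD : ∀ i, (α i).natAbs ≤ D)
    (hdvd : ∀ p : ℕ, p.Prime → (p ∣ WW D ↔ p ≤ D))
    (hW : 1 ≤ WW D) (ρ κ1 : ℝ) (A1 C2 b : ℕ)
    (hρ : 0 < ρ) (hρ1 : ρ ≤ 1 / 16) (hκ1 : 0 < κ1) :
    ∀ᶠ N : ℕ in atTop, ∀ (h : Fin k → ℤ) (Mo : ℕ) (i : Fin k), (N : ℝ) / 16 ≤ xcF α h Mo c₀ N i →
      xcF α h Mo c₀ N i ≤ 2 * N → ∀ (P : Finset ℕ), (∀ p ∈ P, p.Prime ∧ (p : ℝ) ≤ N) →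
      ∀ κ' : ℝ, κ1 ≤ κ' → κ' ≤ 1 →
      E2 k P (aI α i) (bI α h Mo i) (WW D) 1 ((1 / 4 - ρ / 2) * Real.log N)
        (xcF α h Mo c₀ N i) κ' C2 b (Jb (DB (2 * N) B)) ≤ N / (Real.log N) ^ A1 := by
  set s : ℕ := 2 * (B + 1) + 2 with hs
  set q : ℕ := (2 * (B + 1) + 1) * (C2 * b) + s with hq
  have hERi : ∀ᶠ N : ℕ in atTop, ∀ i : Fin k, ∀ (P : Finset ℕ),
      (∀ p ∈ P, p.Prime ∧ (p : ℝ) ≤ N) → ∀ (b' : ℕ) (x κ' Y : ℝ), b' ≤ aI α i →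
      1 / 16 * N ≤ x → x ≤ 2 * N → κ1 ≤ κ' → κ' ≤ 1 → 0 ≤ Y →
      Y ≤ (Real.log N) ^ q →
      (Real.log N) ^ q *
      ((∏ t : IP P, (1 + ((k + 1 : ℕ) : ℝ) / ((prP P t : ℝ) - 1)) *
        ((prP P t : ℝ) / ((prP P t : ℝ) - 1))) ^ 2 *
      ∑ m ∈ (Icc 1 ⌊Y * (Real.exp ((1 / 4 - ρ / 2) * Real.log N)) ^ 2⌋₊).filter Squarefree,
        (3 * ((k + 1 : ℕ) : ℝ)) ^ m.primeFactors.card * Dev (aI α i) b' x κ' (WW D * m)) ≤
      N / (Real.log N) ^ A1 := by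
    rw [Filter.eventually_all]
    intro i
    have ha : 1 ≤ aI α i := aI_pos α hα i
    exact hER k (aI α i) (WW D) ρ κ1 (1 / 16) 2 A1 _ ha hW hρ hρ1 hκ1 (by norm_num)
  filter_upwards [hERi, DB_up B, ev_DB B hB 5, ev_log 4,
    eventually_ge_atTop 64]
    with N her hDBu hDB5 hl4 hN h Mo i hlo hhi P hP κ' hκ' hκ'1
  have hl : 1 ≤ Real.log N := by linarith
  have hJ := Jb_up (DB (2 * N) B) (B + 1) (Real.log N) hDB5 hl4 hDBu
  obtain ⟨hb1, hb2, -⟩ := bI_spec α h hα Mo i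
  have hN8 : (64 : ℝ) ≤ N := by exact_mod_cast hN
  have hY : ((2 : ℝ) ^ 2 ^ Jb (DB (2 * N) B)) ^ (C2 * b) ≤ (Real.log N) ^ q := by
    calc ((2 : ℝ) ^ 2 ^ Jb (DB (2 * N) B)) ^ (C2 * b) ≤
          ((Real.log N) ^ (2 * (B + 1) + 1)) ^ (C2 * b) :=
          pow_le_pow_left₀ (by positivity) hJ.1 _
      _ = (Real.log N) ^ ((2 * (B + 1) + 1) * (C2 * b)) := by rw [← pow_mul]
      _ ≤ _ := pow_le_pow_right₀ hl (by omega)
  have h1 := her i P hP (bI α h Mo i) (xcF α h Mo c₀ N i) κ'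
    (((2 : ℝ) ^ 2 ^ Jb (DB (2 * N) B)) ^ (C2 * b))
    hb2 (by linarith) hhi hκ' hκ'1 (by positivity) hY
  refine E2_leB hEq P (aI α i) (bI α h Mo i) D (aI_pos α hα i) hb1 hW ?_
    ((1 / 4 - ρ / 2) * Real.log N) (xcF α h Mo c₀ N i) κ'
    (Real.log N) (N / (Real.log N) ^ A1) C2 b (Jb (DB (2 * N) B)) s hl
    (by linarith) hκ'1 (by linarith) q hJ.2 (by omega) h1
  intro p hp hd
  rw [hdvd p hp]
  have h5 := Nat.le_of_dvd (aI_pos α hα i) hd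
  have h6 : aI α i ≤ D := hαD i
  omega

/-- (TWb) -/
theorem twbH (hPS2 : PS2) (hTn : Tents) (hRC : RootsCount) (hSd : SdLZ)
    (hWE : WEq) (hEq : Eq2) (hSU : Pool.Agent.W25.UB.St_SUM)
    (hPN : PntT) (hER : ErrU) (hQL : QLow) (hWF : WFacts) (hVL : VLow)
    (hTail : TailBound) : St_TWbH := by
  classical
  intro k Q ρ ρ₁ ε B hk hρ hρ1 hρρ hρ₁ hε hε1 hI1 hI2 hBr hB
  obtain ⟨C2, hC2, hPS2⟩ := ps2At_of hPS2 (k + 1)
  obtain ⟨DW, hWF⟩ := hWF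
  obtain ⟨DQ, hQL⟩ := hQL k
  obtain ⟨DT, hT⟩ := tails hTail k ε hε
  obtain ⟨b0, hb0⟩ := exists_pow_lt_of_lt_one (by positivity : 0 < ε / 8)
    (by norm_num : (1 / 2 : ℝ) < 1)
  obtain ⟨b, hb2, hβ⟩ : ∃ b : ℕ, C2 ≤ b ∧ (1 / 2 : ℝ) ^ b ≤ ε / 8 :=
    ⟨b0 + C2, by omega, by
      refine le_trans ?_ hb0.le
      exact pow_le_pow_of_le_one (by norm_num) (by norm_num) (by omega)⟩
  have hκ : 0 < ε / 400 := by positivity
  have hκ1 : ε / 400 ≤ 1 / 64 := by linarith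
  have h1ε : 0 < 1 - ε := by linarith
  have hI1p : 0 < Q.I1 := hε.trans hI1
  have hI1ε : 0 < Q.I1 - ε := by linarith
  refine ⟨DW + C2 + 2 * (k + 1) + 1, fun D hD α hα0 hαD c₀ hc1 hc2 => ?_⟩
  obtain ⟨C', hCC⟩ := clH k α
  have hD1 : DW ≤ D := by omega
  have hD3 : C2 ≤ D := by omega
  have hD4 : 2 * (k + 1) ≤ D := by omega
  obtain ⟨hW, htot, hBDp, hdvd, -⟩ := hWF D hD1
  have hWR : (0 : ℝ) < WW D := by exact_mod_cast hW
  have hc0 : 0 < c₀ := by linarith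
  set A1 : ℕ := 3 * (B + 1) * (k + 1) + 2 with hA1
  filter_upwards [hCC, hSU Q (k + 1) ε ρ ρ₁ C' B hε hρ (by linarith) hB,
    szH α hα0 D hαD c₀ hc1 hc2 (ε / 400) hκ hκ1,
    geoH_ev α hα0 D hαD c₀ hc1 hc2 (ε / 400) hκ hκ1 B ρ₁ hρ₁ hW,
    ev_DB B hB (D + DQ + DT + 5), DB_up B,
    ptwH k α Q (1 / 10) (by norm_num),
    pn_evH hPN α hα0 c₀ (ε / 8) (ε / 400 / 16) (by positivity) (by positivity),
    er_evH hER hEq α hα0 c₀ B hB D hαD hdvd hW ρ (ε / 400 / 16) A1 C2 b hρ hρ1 (by positivity),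
    ev_poly (8 * ((D : ℝ) + 2) ^ 2) (A1 + 1) (6 / 10) 1 (by norm_num),
    ev_log 2, ev_log (48 * WW D / (ε / 400 * c₀ * ρ ^ (k + 1))),
    ev_log ((3 / (ρ * ((1 - ε) ^ 3 * (Q.I1 - ε) ^ 2 * Br Q k ε)) + ((D : ℝ) + 2)) / ε),
    eventually_ge_atTop 8]
    with N hCC hsums hsz hgeo hDp hDBu hpt10 hpn her hpoly2 hl2 hl3 hl5 hN8
  intro h Mo hMo hnd hpos v hv Z hZ i
  replace hCC := hCC h Mo hMo hnd
  replace hsz := hsz h Mo hMo hpos
  replace hgeo := hgeo h Mo hMo hpos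
  replace hpt10 := hpt10 h Mo hMo
  have hN1 : 1 ≤ N := by omega
  have hNR : (8 : ℝ) ≤ N := by exact_mod_cast hN8
  have hl1 : 1 ≤ Real.log N := by linarith
  have hPs := PBF_spec α h Mo N B ρ₁ hρ₁ hN1
  have hPle : ∀ p ∈ PBF α h Mo N B ρ₁, p.Prime ∧ (p : ℝ) ≤ N :=
    fun p hp => ⟨(hPs p hp).1, (hPs p hp).2.2.2.2⟩
  have hPleN : ∀ p ∈ PBF α h Mo N B ρ₁, p.Prime ∧ p ≤ N := fun p hp => ⟨(hPs p hp).1, by
    exact_mod_cast (hPs p hp).2.2.2.2⟩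
  have hPD : ∀ p ∈ PBF α h Mo N B ρ₁, p.Prime ∧ DB (2 * N) B < p :=
    fun p hp => ⟨(hPs p hp).1, (hPs p hp).2.1⟩
  have H : Hyp α h D (DB (2 * N) B) Mo v (PBF α h Mo N B ρ₁) := {
    hα := hα0
    hW := hW
    tot := htot
    BDpos := hBDp
    hdvd := hdvd
    hDk := hD4
    hDα := hαD
    hDD := by omega
    hP := hPD
    hres := fun p hp j l hjl => CL_ndvd hnd (hPs p hp).1 (hPs p hp).2.2.1 j l hjl
    hv := hv }
  have G := hgeo v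
  have hS1 := ((hsums (CL (uB α) (wB h Mo)) (PBF α h Mo N B ρ₁) hCC hPD).1
    (fun p hp hDp' hple hpC => by
      unfold PBF
      rw [Finset.mem_filter, Finset.mem_Icc]
      exact ⟨⟨hDp', Nat.le_floor hple⟩, hp, hpC⟩)).2
  obtain ⟨hT1, hT2, hT3⟩ := hT (DB (2 * N) B) (by omega) (PBF α h Mo N B ρ₁) hPD
  have hDp1 : 1 ≤ DB (2 * N) B := by omega
  have hVlow := hVL (k + 1) (DB (2 * N) B) (QQ D (DB (2 * N) B))
    (fun p => (Om (uB α) (wB h Mo) p).card) hDp1 (fun p hp => by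
      have h1 := QQ_prime hp
      exact ⟨h1.1, by omega, h1.2.2,
        (hRC k (uB α) (wB h Mo) p h1.1 (fun j => H.uB_ndvd h1.1 h1.2.1 j)).2.1⟩)
  have hZlow : N / (Real.log N) ^ (3 * (B + 1) * (k + 1) + 1) ≤ Z := by
    rw [hZ]
    apply ZZ_lowB k (B + 1) (Pool.Agent.W25.UN.VV α h Mo D (DB (2 * N) B)) (ε / 400 * (c₀ * N))
      (WW D) (BD (DB (2 * N) B))
      (ρ * Real.log N) (ε / 400 * c₀) (Real.log N) N (DB (2 * N) B) ρ hl1 hWR hρ rfl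
    · exact_mod_cast hDp1
    · exact hDBu
    · exact hVlow.1
    · exact hVlow.2
    · ring
    · positivity
    · positivity
    · exact hl3
  have hErr : N / (Real.log N) ^ A1 ≤ Z / Real.log N := by
    have e1 : (N : ℝ) / (Real.log N) ^ A1 =
        N / (Real.log N) ^ (3 * (B + 1) * (k + 1) + 1) / Real.log N := by
      rw [div_div, ← pow_succ]
    rw [e1]
    exact div_le_div_of_nonneg_right hZlow (by linarith)
  have hsd0 := H.sd0 hSd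
  have hL0 : 0 < ρ * Real.log N := by positivity
  exact fix_IIF hPS2 hEq hTn hRC hSd hWE H Q ρ ε (Real.log N) b A1 (Jb (DB (2 * N) B)) hk hρ hρ1
      hε hε1 hI1 hBr rfl hl2 hN8 hb2 hD3 hβ (Jb_le _) (by positivity) ((D : ℝ) + 2) (by
        have := Nat.cast_nonneg (α := ℝ) D
        linarith) G i (hsz i) (hpn h Mo i (hsz i).lo)
      (fun κ' h1 h2 => her h Mo i (hsz i).lo (hsz i).hi (PBF α h Mo N B ρ₁) hPle κ' h1 h2)
      (hQL (DB (2 * N) B) Q ε (by omega) hε hε1 hI1 hI2 hBr (ρ * Real.log N) (PBF α h Mo N B ρ₁)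
        hL0 hPD hT1 hT2 hS1 i)
      (fun n hd => by
        obtain ⟨q1, q2, q3⟩ := Fm_neF hα0 G n hd
        exact (hpt10 (PBF α h Mo N B ρ₁) (ρ * Real.log N) hL0 hPleN hsd0 n q1 q2 q3).2 i)
      hpoly2 Z hZ hErr hl5

end Pool.Agent.TH899.UG
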