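import Mathlib
import Pool.Agent.TH899.UG.AsmD
import Pool.Agent.TH899.UG.Tu
import Pool.Agent.TH899.UG.Bc
import Pool.Agent.TH899.UG.Co
import Pool.Agent.TH899.UG.Ttc
import Pool.Agent.TH899.UG.R2g
import Pool.Agent.TH899.UG.R2L
import Pool.Agent.TH899.UG.Mas
import Pool.Agent.TH899.UG.Vln
import Pool.Agent.TH899.UG.Dat
import Pool.Agent.TH899.UG.U0
import Pool.Agent.TH899.UG.U2
import Pool.Agent.TH899.UG.UD
import Pool.Agent.TH899.UG.L1
import Pool.Agent.W25.UB.Final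
import Pool.Agent.W856.UBNumT
import Pool.Agent.TH899.UG.Final
import Pool.Agent.TH899.UG.AsmDH
import Pool.Agent.TH899.UG.MasH
import Pool.Agent.TH899.UG.DatH
import Pool.Agent.TH899.UG.TWaH
import Pool.Agent.TH899.UG.TWbH

/-! The coloured theorem for general linear forms, unconditionally. -/

set_option autoImplicit false

namespace Pool.Agent.TH899.UG

open Pool.Agent.W25.UN Pool.Agent.W25.UB
open Pool.Agent.H442R2

theorem hMASH : St_MASH := masH hEXM Pool.Agent.W505.UBGAU.main hFT3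

theorem hDATH : St_DATH :=
  datH (Pool.Agent.W308.UB.main hEXM)
    (Pool.Agent.W505.UBFLC.main Pool.Agent.W308.PL.FLW Pool.Agent.W655.PL.VLB)
    Pool.Agent.W356.UBSel.main Pool.Agent.W287.UB.main hSUM hMASH
    (rcbF BX.RC BX.GS) hVLNF (Pool.Agent.W940.UBNWL.main Pool.Agent.W21.UN.main)
    Pool.Agent.W398.UNFO.sd

theorem hTWaH : St_TWaH :=
  twaH (Pool.Agent.W991.UN.main hFLA Pool.Agent.W21.UN.main)
    Pool.Agent.W776.UNTents.main Pool.Agent.W398.UNFO.rc Pool.Agent.W398.UNFO.sd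
    Pool.Agent.W493.UN.S1P.main Pool.Agent.W493.UN.WD.main
    W310.UN.VL.main Pool.Agent.W21.UN.main hSUM

theorem hTWbH : St_TWbH :=
  twbH (Pool.Agent.W334.UNPS2.main hFLA Pool.Agent.W924.UNS2G.main)
    Pool.Agent.W776.UNTents.main Pool.Agent.W398.UNFO.rc Pool.Agent.W398.UNFO.sd
    Pool.Agent.W143.UN.WE.main (Pool.Agent.W410.UNEQ.main Pool.Agent.W776.UNTents.main)
    hSUM
    (Pool.Agent.W293.UN.Pn.main Pool.Agent.H732R2.pntLog)
    (Pool.Agent.W493.UN.ER.main Pool.Agent.H410R2.bvap) Pool.Agent.W493.UN.QL.main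
    Pool.Agent.W493.UN.WD.main W310.UN.VL.main Pool.Agent.H361R2.tailBound

/-- the uniform coloured theorem with any number of classes, arbitrary slopes -/
theorem thmVGH : ThmVGH :=
  thmVGH_of hR2LF hDATH Pool.Agent.W856.UBNumT.main hTWaH hTWbH
    (u0F hNWU) (l1F hNWU Pool.Agent.W469.UBNWE.main)
    (u2F hNWU Pool.Agent.W469.UBNWE.main)
    (udF hNWU Pool.Agent.W469.UBNWE.main) Pool.Agent.W469.UBNWE.main hVLNF

end Pool.Agent.TH899.UG
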