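import Mathlib
import Pool.Agent.TH899.UG.Uni

/-! The coloured theorem above one quarter for arbitrary centres with prescribed residues of the
perturbations. -/

set_option autoImplicit false

namespace Pool.Agent.TH899.UG.Uni

open Finset Filter Topology
open Pool.Agent.W25.UN
open Pool.Agent.W25.UB (CopAt)
open Pool.Agent.H410R2 (WW)
open Pool.Agent.TH899.UG

/-- admissibility -/
theorem admR {k : ℕ} (W A : ℕ) (hW : (k + 2 + A).factorial ∣ W) (α h r : Fin k → ℤ)
    (hα : ∀ i, α i ≠ 0) (hA : ∀ i, |α i| ≤ A) (hr : ∀ i, IsCoprime (r i) (W : ℤ))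
    (hh : ∀ i, (W : ℤ) ∣ α i + h i - r i)
    (p : ℕ) (hp : p.Prime) : ∃ n : ℤ, ¬ (p : ℤ) ∣ n ∧ ∀ i, ¬ (p : ℤ) ∣ Fm α h 0 i n := by
  classical
  by_cases hpK : p ≤ k + 2 + A
  · have hpW : (p : ℤ) ∣ W := by
      exact_mod_cast (hp.dvd_factorial.2 hpK).trans hW
    have hp1 : ¬ (p : ℤ) ∣ 1 := by
      intro h
      have : p ∣ 1 := by exact_mod_cast h
      exact hp.one_lt.ne' (Nat.dvd_one.1 this)
    refine ⟨1, hp1, fun i hi => hp1 ?_⟩
    unfold Fm at hi
    have h3 : r i = (((0 : ℕ) : ℤ) + α i * 1 + h i) - (α i + h i - r i) := by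
      push_cast; ring
    have h4 : (p : ℤ) ∣ r i := by
      rw [h3]
      exact dvd_sub hi (hpW.trans (hh i))
    have h5 : IsUnit (p : ℤ) := (hr i).isUnit_of_dvd' h4 hpW
    exact h5.dvd
  · haveI := Fact.mk hp
    have hal : ∀ i, ((α i : ℤ) : ZMod p) ≠ 0 := by
      intro i h
      rw [ZMod.intCast_zmod_eq_zero_iff_dvd] at h
      have h1 : (p : ℤ) ≤ |α i| := Int.le_of_dvd (abs_pos.2 (hα i)) ((dvd_abs _ _).2 h)
      have h2 := hA i
      omega
    let b : Fin k → ZMod p := fun i => - ((h i : ℤ) : ZMod p) / ((α i : ℤ) : ZMod p)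
    have hcard : (insert (0 : ZMod p) (univ.image b)).card < (univ : Finset (ZMod p)).card := by
      rw [card_univ, ZMod.card]
      have h1 := card_insert_le (0 : ZMod p) (univ.image b)
      have h2 : (univ.image b).card ≤ k := card_image_le.trans (by simp)
      omega
    obtain ⟨z, _, hz⟩ := Finset.exists_mem_notMem_of_card_lt_card hcard
    have hz0 : z ≠ 0 := fun h => hz (h ▸ mem_insert_self _ _)
    have hzb : ∀ i, z ≠ b i := fun i h => hz (mem_insert_of_mem (mem_image.2 ⟨i, mem_univ _, h.symm⟩))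
    refine ⟨(z.val : ℤ), ?_, ?_⟩
    · intro h
      rw [← ZMod.intCast_zmod_eq_zero_iff_dvd] at h
      push_cast at h
      rw [ZMod.natCast_zmod_val] at h
      exact hz0 h
    · intro i h
      rw [← ZMod.intCast_zmod_eq_zero_iff_dvd] at h
      unfold Fm at h
      push_cast at h
      rw [ZMod.natCast_zmod_val] at h
      apply hzb i
      rw [eq_div_iff (hal i)]
      linear_combination h

/-- a lift of a reduced residue -/
theorem lift (q W : ℕ) (hq : q ∣ W) (hW : 0 < W) (ρ : ℤ) (hρ : IsCoprime ρ (q : ℤ)) :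
    ∃ r : ℤ, IsCoprime r (W : ℤ) ∧ (q : ℤ) ∣ r - ρ := by
  haveI : NeZero W := ⟨hW.ne'⟩
  haveI : NeZero q := ⟨(Nat.pos_of_dvd_of_pos hq hW).ne'⟩
  have h1 : IsUnit ((ρ : ℤ) : ZMod q) := (ZMod.coe_int_isUnit_iff_isCoprime ρ q).2 hρ.symm
  obtain ⟨u, hu⟩ := h1
  obtain ⟨w, hw⟩ := ZMod.unitsMap_surjective hq u
  refine ⟨((w : ZMod W).val : ℤ), ?_, ?_⟩
  · have h2 := ZMod.val_coe_unit_coprime w
    exact Nat.isCoprime_iff_coprime.2 h2
  · rw [← ZMod.intCast_zmod_eq_zero_iff_dvd]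
    push_cast
    have h3 : (((w : ZMod W).val : ℕ) : ZMod q) = (u : ZMod q) := by
      rw [← hw]
      rw [ZMod.unitsMap_val]
      exact ZMod.natCast_val _
    rw [h3, hu]
    simp

open Classical in
/-- **The coloured theorem above one quarter for arbitrary centres, with prescribed residues.** -/
theorem uniR : ∃ c : ℝ, 0 < c ∧ c < 1 ∧ ∀ T M A q : ℕ, 0 < q → 1 ≤ T → (4 - c) * M < T → ∃ C : ℕ,
    ∀ η : ℝ, 0 < η → ∀ᶠ N : ℕ in atTop, ∀ a b ρ : Fin T → ℤ, (∀ i, IsCoprime (ρ i) (q : ℤ)) →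
      (∀ i, a i ≠ 0) → (∀ i, |a i| ≤ A) →
      (∀ i, 4 * |b i| ≤ 5 * (N : ℤ)) → Pos1 a b N →
      ∃ (S : Finset (Fin T)) (e : Fin T → ℕ), M + 1 ≤ S.card ∧ (∀ i, e i ≤ C) ∧
        (∀ i j, i ≠ j → a i * (b j + e j) ≠ a j * (b i + e i)) ∧
        (∀ i, (q : ℤ) ∣ a i + (b i + e i) - ρ i) ∧
        (N : ℝ) ^ (1 - η) ≤ (((Icc 1 N).filter (fun n : ℕ => (N : ℝ) / 16 ≤ n ∧ (n : ℝ) ≤ N / 2 ∧
          ∀ i ∈ S, (a i * n + (b i + e i)).toNat.Prime)).card : ℝ) := by
  obtain ⟨c, hc, hc1, H⟩ := thmVGH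
  refine ⟨c, hc, hc1, ?_⟩
  intro T M A q hq0 hT hTM
  obtain ⟨K, hK, D₀, H⟩ := H T M hT hTM
  obtain ⟨DW, hWF⟩ := Pool.Agent.W493.UN.WD.main
  set D : ℕ := D₀ + DW + A with hD
  obtain ⟨-, -, -, -, hv⟩ := hWF D (by omega)
  set k : ℕ := T * K with hk
  set W : ℕ := (k + 2 + A).factorial * q with hWd
  have hW0 : 0 < W := Nat.mul_pos (Nat.factorial_pos _) hq0
  have hqW : q ∣ W := dvd_mul_left _ _
  have hWz : (0 : ℤ) < W := by exact_mod_cast hW0
  have hKpos : 0 < K := by omega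
  haveI : NeZero K := ⟨by omega⟩
  refine ⟨W + W * k, fun η hη => ?_⟩
  have h1 := fun (a : Fin T → ℤ) (_ : a ∈ (Fintype.piFinset (fun _ : Fin T => Icc (-(A : ℤ)) A)).filter
      (fun a => ∀ i, a i ≠ 0)) => H D (by omega) (fun i : Fin (T * K) => a (cl i)) cl card_cl
  have h2 : ∀ᶠ N : ℕ in atTop, ∀ a ∈ (Fintype.piFinset (fun _ : Fin T => Icc (-(A : ℤ)) A)).filter
      (fun a => ∀ i, a i ≠ 0), ∀ (h : Fin (T * K) → ℤ) (Mo : ℕ), HB h Mo N →
      Nd (fun i : Fin (T * K) => a (cl i)) h Mo → PosR (fun i : Fin (T * K) => a (cl i)) h Mo N →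
      ∀ v : ℕ, CopAt (fun i : Fin (T * K) => a (cl i)) h D Mo v →
      (N : ℝ) ^ (1 - η / 2) ≤ (((Icc 1 N).filter (fun n : ℕ => n ≡ v [MOD (WW D)] ∧
        (N : ℝ) / 16 ≤ n ∧ (n : ℝ) ≤ N / 2 ∧
        M + 1 ≤ (univ.filter (fun g : Fin T => ∃ i, cl i = g ∧
          (Fm (fun i : Fin (T * K) => a (cl i)) h Mo i n).toNat.Prime)).card)).card : ℝ) := by
    rw [Filter.eventually_all_finset]
    intro a ha
    obtain ⟨ha1, ha2⟩ := mem_filter.1 ha
    rw [Fintype.mem_piFinset] at ha1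
    refine H D (by omega) (fun i : Fin (T * K) => a (cl i)) cl card_cl (fun i => ha2 _)
      (fun i => ?_) (η / 2) (by positivity)
    have h3 := mem_Icc.1 (ha1 (cl i))
    show (a (cl i)).natAbs ≤ D
    omega
  set P : ℕ := 2 ^ T * K ^ T with hP
  have h3 : ∀ᶠ N : ℕ in atTop, (P : ℝ) < (N : ℝ) ^ (η / 2) :=
    ((tendsto_rpow_atTop (by positivity)).comp tendsto_natCast_atTop_atTop).eventually_gt_atTop _
  filter_upwards [h2, h3, eventually_ge_atTop (16 * (W + W * k)), eventually_ge_atTop 1]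
    with N hN2 hN3 hN4 hN1 a b ρ hρ ha hA hb hpos
  choose r hrW hrq using fun i : Fin T => lift q W hqW hW0 (ρ i) (hρ i)
  -- the shifts
  obtain ⟨t, ht1, ht2, ht3⟩ := greedy (T * K) W hWz (fun i => a (cl i))
    (fun i => b (cl i) + (r (cl i) - a (cl i) - b (cl i)) % (W : ℤ)) (fun i => ha _) univ
  set h : Fin (T * K) → ℤ := fun i =>
    b (cl i) + (r (cl i) - a (cl i) - b (cl i)) % (W : ℤ) + W * t i with hh
  have hr0 : ∀ i : Fin (T * K), 0 ≤ (r (cl i) - a (cl i) - b (cl i)) % (W : ℤ) :=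
    fun i => Int.emod_nonneg _ hWz.ne'
  have hr1 : ∀ i : Fin (T * K), (r (cl i) - a (cl i) - b (cl i)) % (W : ℤ) < W :=
    fun i => Int.emod_lt_of_pos _ hWz
  have ht0 : ∀ i, (0 : ℤ) ≤ W * t i := fun i => by positivity
  have ht4 : ∀ i, (W : ℤ) * t i ≤ W * k := fun i => by
    have := ht1 i
    exact mul_le_mul_of_nonneg_left (by exact_mod_cast this) hWz.le
  have hN4' : 16 * ((W : ℤ) + W * k) ≤ N := by exact_mod_cast hN4
  have hHB : HB h 0 N := by
    intro i
    have e1 := hb (cl i)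
    have e2 := hr0 i
    have e3 := hr1 i
    have e4 := ht0 i
    have e5 := ht4 i
    have e6 : |((0 : ℕ) : ℤ) + h i| ≤ |b (cl i)| + (W + W * k) := by
      rw [Nat.cast_zero, zero_add, hh]
      show |b (cl i) + (r (cl i) - a (cl i) - b (cl i)) % (W : ℤ) + W * t i| ≤ _
      rw [add_assoc]
      refine (abs_add_le _ _).trans ?_
      have e7 : |(r (cl i) - a (cl i) - b (cl i)) % (W : ℤ) + W * t i| ≤ W + W * k := by
        rw [abs_of_nonneg (by linarith)]
        linarith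
      linarith
    linarith
  have hNd : Nd (fun i : Fin (T * K) => a (cl i)) h 0 := by
    intro j l hjl
    rcases j with _ | j <;> rcases l with _ | l
    · exact absurd rfl hjl
    · simp only [uB, wB]
      have := ht2 l (mem_univ _)
      intro h0
      apply this
      have h5 : h l = 0 := by push_cast at h0; linarith
      exact h5
    · simp only [uB, wB]
      have := ht2 j (mem_univ _)
      intro h0
      apply this
      have h5 : h j = 0 := by push_cast at h0; linarith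
      exact h5
    · have hne : j ≠ l := fun h => hjl (by rw [h])
      simp only [uB, wB]
      have := ht3 j (mem_univ _) l (mem_univ _) hne
      intro h0
      apply this
      push_cast at h0
      have h5 : a (cl j) * h l = a (cl l) * h j := by linarith
      exact h5
  have hPR : PosR (fun i : Fin (T * K) => a (cl i)) h 0 N := by
    intro i x hx1 hx2
    have h5 := hpos (cl i) x hx1 hx2
    have e2 := hr0 i
    have e4 := ht0 i
    have e7 : b (cl i) ≤ h i := by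
      show b (cl i) ≤ b (cl i) + (r (cl i) - a (cl i) - b (cl i)) % (W : ℤ) + W * t i
      linarith
    have e8 : (b (cl i) : ℝ) ≤ h i := by exact_mod_cast e7
    push_cast
    linarith
  have hadm := admR W A (dvd_mul_right _ _) (fun i : Fin (T * K) => a (cl i)) h
    (fun i => r (cl i)) (fun i => ha _) (fun i => hA _) (fun i => hrW _) (fun i => by
      have h5 : (W : ℤ) ∣ (r (cl i) - a (cl i) - b (cl i)) - (r (cl i) - a (cl i) - b (cl i)) % (W : ℤ) :=
        Int.dvd_self_sub_emod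
      have h6 : a (cl i) + h i - r (cl i) = W * t i -
          ((r (cl i) - a (cl i) - b (cl i)) - (r (cl i) - a (cl i) - b (cl i)) % (W : ℤ)) := by
        show a (cl i) + (b (cl i) + (r (cl i) - a (cl i) - b (cl i)) % (W : ℤ) + W * t i) - r (cl i) = _
        ring
      show (W : ℤ) ∣ a (cl i) + h i - r (cl i)
      rw [h6]
      exact dvd_sub (dvd_mul_right _ _) h5)
  obtain ⟨v, hv⟩ := hv 0 (T * K) (fun i : Fin (T * K) => a (cl i)) h hadm
  have hmem : a ∈ (Fintype.piFinset (fun _ : Fin T => Icc (-(A : ℤ)) A)).filter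
      (fun a => ∀ i, a i ≠ 0) := by
    rw [mem_filter, Fintype.mem_piFinset]
    refine ⟨fun i => mem_Icc.2 (abs_le.1 (hA i)), ha⟩
  have hmain := hN2 a hmem h 0 hHB hNd hPR v hv
  -- pigeonhole
  set Q : Finset (Finset (Fin T) × (Fin T → Fin K)) := univ.filter (fun q => M + 1 ≤ q.1.card)
    with hQ
  set B : Finset (Fin T) × (Fin T → Fin K) → Finset ℕ := fun q => (Icc 1 N).filter (fun n : ℕ =>
    (N : ℝ) / 16 ≤ n ∧ (n : ℝ) ≤ N / 2 ∧
      ∀ g ∈ q.1, (Fm (fun i : Fin (T * K) => a (cl i)) h 0 (ix g (q.2 g)) n).toNat.Prime) with hB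
  have hsub : (Icc 1 N).filter (fun n : ℕ => n ≡ v [MOD (WW D)] ∧
        (N : ℝ) / 16 ≤ n ∧ (n : ℝ) ≤ N / 2 ∧
        M + 1 ≤ (univ.filter (fun g : Fin T => ∃ i, cl i = g ∧
          (Fm (fun i : Fin (T * K) => a (cl i)) h 0 i n).toNat.Prime)).card) ⊆ Q.biUnion B := by
    intro n hn
    rw [mem_filter] at hn
    obtain ⟨hn1, -, hn3, hn4, hn5⟩ := hn
    set S : Finset (Fin T) := univ.filter (fun g : Fin T => ∃ i, cl i = g ∧
          (Fm (fun i : Fin (T * K) => a (cl i)) h 0 i n).toNat.Prime) with hS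
    have hex : ∀ g : Fin T, ∃ s : Fin K, g ∈ S →
        (Fm (fun i : Fin (T * K) => a (cl i)) h 0 (ix g s) n).toNat.Prime := by
      intro g
      by_cases hg : g ∈ S
      · obtain ⟨i, hi1, hi2⟩ := (mem_filter.1 hg).2
        refine ⟨sx i, fun _ => ?_⟩
        rw [← hi1, ix_cl]
        exact hi2
      · exact ⟨0, fun h => absurd h hg⟩
    choose σ hσ using hex
    exact mem_biUnion.2 ⟨(S, σ), mem_filter.2 ⟨mem_univ _, hn5⟩,
      mem_filter.2 ⟨hn1, hn3, hn4, fun g hg => hσ g hg⟩⟩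
  have hNpos : (0 : ℝ) < N := by exact_mod_cast hN1
  have hbig : ∃ q ∈ Q, (N : ℝ) ^ (1 - η) ≤ ((B q).card : ℝ) := by
    by_contra hcon
    push Not at hcon
    have e1 := (Nat.cast_le (α := ℝ)).2 ((card_le_card hsub).trans card_biUnion_le)
    rw [Nat.cast_sum] at e1
    have e2 : ∑ q ∈ Q, ((B q).card : ℝ) ≤ Q.card • (N : ℝ) ^ (1 - η) :=
      Finset.sum_le_card_nsmul _ _ _ (fun q hq => (hcon q hq).le)
    have e3 : Q.card ≤ P := by
      refine (card_le_univ _).trans ?_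
      rw [Fintype.card_prod, Fintype.card_finset, Fintype.card_fun, Fintype.card_fin,
        Fintype.card_fin]
    have e4 : (Q.card : ℝ) ≤ P := by exact_mod_cast e3
    have e5 : (0 : ℝ) < (N : ℝ) ^ (1 - η) := Real.rpow_pos_of_pos hNpos _
    have e6 : (N : ℝ) ^ (1 - η / 2) = (N : ℝ) ^ (η / 2) * (N : ℝ) ^ (1 - η) := by
      rw [← Real.rpow_add hNpos]
      congr 1
      ring
    rw [nsmul_eq_mul] at e2
    have e7 := hmain.trans (e1.trans (e2.trans (mul_le_mul_of_nonneg_right e4 e5.le)))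
    rw [e6] at e7
    have e8 := le_of_mul_le_mul_right e7 e5
    linarith
  obtain ⟨⟨S, σ⟩, hq, hbig⟩ := hbig
  have hpr : ∀ g : Fin T, ∃ e : ℕ, (e : ℤ) = (r g - a g - b g) % (W : ℤ) + W * t (ix g (σ g)) := by
    intro g
    have e2 := hr0 (ix g (σ g))
    rw [cl_ix] at e2
    have e4 := ht0 (ix g (σ g))
    exact ⟨((r g - a g - b g) % (W : ℤ) + W * t (ix g (σ g))).toNat,
      Int.toNat_of_nonneg (by linarith)⟩
  choose e he using hpr
  have hhe : ∀ g, h (ix g (σ g)) = b g + e g := by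
    intro g
    show b (cl (ix g (σ g))) + (r (cl (ix g (σ g))) - a (cl (ix g (σ g))) - b (cl (ix g (σ g)))) % (W : ℤ) +
      W * t (ix g (σ g)) = _
    rw [cl_ix, he g]
    ring
  refine ⟨S, e, (mem_filter.1 hq).2, ?_, ?_, ?_, hbig.trans ?_⟩
  · intro g
    have e2 := hr1 (ix g (σ g))
    rw [cl_ix] at e2
    have e5 := ht4 (ix g (σ g))
    have h5 := he g
    have h6 : (e g : ℤ) ≤ ((W + W * k : ℕ) : ℤ) := by
      push_cast
      linarith
    exact_mod_cast h6
  · intro g g' hgg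
    have hne : ix g (σ g) ≠ ix g' (σ g') := by
      intro h5
      apply hgg
      have := congrArg cl h5
      rwa [cl_ix, cl_ix] at this
    have h5 := ht3 _ (mem_univ (ix g (σ g))) _ (mem_univ (ix g' (σ g'))) hne
    have h6 := hhe g
    have h7 := hhe g'
    rw [← h6, ← h7]
    have h8 : a (cl (ix g (σ g))) * h (ix g' (σ g')) ≠ a (cl (ix g' (σ g'))) * h (ix g (σ g)) := h5
    rwa [cl_ix, cl_ix] at h8
  · intro g
    have h5 : (W : ℤ) ∣ (r g - a g - b g) - (r g - a g - b g) % (W : ℤ) := Int.dvd_self_sub_emod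
    have h6 : (q : ℤ) ∣ (r g - a g - b g) - (r g - a g - b g) % (W : ℤ) :=
      (Int.natCast_dvd_natCast.2 hqW).trans h5
    have h7 : (q : ℤ) ∣ (W : ℤ) * t (ix g (σ g)) := Dvd.dvd.mul_right (Int.natCast_dvd_natCast.2 hqW) _
    have h8 := hrq g
    have h9 : a g + (b g + e g) - ρ g = (r g - ρ g) + W * t (ix g (σ g)) -
        ((r g - a g - b g) - (r g - a g - b g) % (W : ℤ)) := by
      rw [he g]
      ring
    rw [h9]
    exact dvd_sub (dvd_add h8 h7) h6
  · rw [Nat.cast_le]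
    apply card_le_card
    intro n hn
    rw [mem_filter] at hn ⊢
    refine ⟨hn.1, hn.2.1, hn.2.2.1, fun g hg => ?_⟩
    have h5 : (((0 : ℕ) : ℤ) + a (cl (ix g (σ g))) * (n : ℤ) + h (ix g (σ g))).toNat.Prime :=
      hn.2.2.2 g hg
    rw [cl_ix, hhe g] at h5
    have h6 : ((0 : ℕ) : ℤ) + a g * n + (b g + e g) = a g * n + (b g + e g) := by
      push_cast; ring
    rwa [h6] at h5

end Pool.Agent.TH899.UG.Uni
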