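import Mathlib
import Pool.Agent.TH899.UG.UniR

/-! Either primes in different residue classes are close to each other, or more linear forms are
simultaneously prime. -/

set_option autoImplicit false

namespace Pool.Agent.TH899.UG.Dich

open Finset Filter Topology
open Pool.Agent.TH899.UG.Uni

/-- `p` is a prime and there is a prime `p'` with `|p' - p| ≤ C` and `p' - p ≡ Δ` modulo `q` -/
def Mixed (q C : ℕ) (Δ : ℤ) (p : ℕ) : Prop :=
  p.Prime ∧ ∃ p' : ℕ, p'.Prime ∧ |(p' : ℤ) - p| ≤ C ∧ (q : ℤ) ∣ ((p' : ℤ) - p) - Δ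

/-- prime values are positive -/
theorem toNat_eq {x : ℤ} (h : x.toNat.Prime) : ((x.toNat : ℕ) : ℤ) = x := by
  apply Int.toNat_of_nonneg
  by_contra hcon
  rw [Int.toNat_of_nonpos (by omega)] at h
  exact Nat.not_prime_zero h

open Classical in
/-- **Either primes in different residue classes are close to each other, or more linear forms are
simultaneously prime.** -/
theorem dich : ∃ c : ℝ, 0 < c ∧ c < 1 ∧ ∀ T M A m q κ : ℕ, 0 < q → 1 ≤ T → 1 ≤ κ →
    (4 - c) * M < κ * T → ∃ C : ℕ, ∀ η : ℝ, 0 < η → ∀ᶠ N : ℕ in atTop,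
    (∀ ρ : Fin κ → ℤ, (∀ i, IsCoprime (ρ i) (q : ℤ)) → ∃ i j, i ≠ j ∧
      (N : ℝ) ^ (1 - η) ≤ (((Icc 1 (C * N)).filter (fun p : ℕ =>
        Mixed q C (ρ j - ρ i) p)).card : ℝ)) ∨
    (∀ a b : Fin T → ℤ, (∀ i, a i ≠ 0) → (∀ i, |a i| ≤ A) → (∀ i, 4 * |b i| ≤ 5 * (N : ℤ)) →
      Pos1 a b N →
      ∃ (S : Finset (Fin T)) (E : Fin T → Finset ℕ), M + 1 ≤ S.card ∧
        (∀ i, ∀ e ∈ E i, e ≤ C) ∧ (∀ i ∈ S, (E i).card = m) ∧
        (∀ i j, i ≠ j → ∀ e ∈ E i, ∀ f ∈ E j, a i * (b j + f) ≠ a j * (b i + e)) ∧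
        (N : ℝ) ^ (1 - η) ≤ (((Icc 1 N).filter (fun n : ℕ => (N : ℝ) / 16 ≤ n ∧ (n : ℝ) ≤ N / 2 ∧
          ∀ i ∈ S, ∀ e ∈ E i, (a i * n + (b i + e)).toNat.Prime)).card : ℝ)) := by
  obtain ⟨c, hc, hc1, H⟩ := uniR
  refine ⟨c, hc, hc1, ?_⟩
  intro T M A m q κ hq hT hκ hTM
  obtain ⟨R, hR⟩ : ∃ R : ℕ, (4 - c) * (T * m) < R * (κ * T - (4 - c) * M) := by
    obtain ⟨R, hR⟩ := exists_nat_gt ((4 - c) * (T * m) / (κ * T - (4 - c) * M))
    refine ⟨R, ?_⟩
    rw [div_lt_iff₀ (by linarith)] at hR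
    exact hR
  have hR0 : 0 < R := by
    rcases Nat.eq_zero_or_pos R with h | h
    · rw [h, Nat.cast_zero, zero_mul] at hR
      have : (0 : ℝ) ≤ (4 - c) * (T * m) := by
        have : (0 : ℝ) ≤ 4 - c := by linarith
        positivity
      linarith
    · exact h
  obtain ⟨C, H⟩ := H (T * R * κ) (M * R + T * m) A q hq
    (Nat.mul_pos (Nat.mul_pos hT hR0) hκ) (by
      push_cast
      nlinarith)
  refine ⟨A + 2 + C, fun η hη => ?_⟩
  filter_upwards [H η hη, eventually_ge_atTop 1] with N hN hN1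
  by_cases hcase : ∀ ρ : Fin κ → ℤ, (∀ i, IsCoprime (ρ i) (q : ℤ)) → ∃ i j, i ≠ j ∧
      (N : ℝ) ^ (1 - η) ≤ (((Icc 1 ((A + 2 + C) * N)).filter (fun p : ℕ =>
        Mixed q (A + 2 + C) (ρ j - ρ i) p)).card : ℝ)
  · exact Or.inl hcase
  refine Or.inr ?_
  push Not at hcase
  obtain ⟨ρ, hρ, hno⟩ := hcase
  intro a b ha hA hb hpos
  obtain ⟨S', e, hS', he, hne, hres, hcnt⟩ := hN (fun i => a (cl (cl i))) (fun i => b (cl (cl i)))
    (fun i => ρ (sx i)) (fun i => hρ _) (fun i => ha _) (fun i => hA _) (fun i => hb _)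
    (fun i x h1 h2 => hpos (cl (cl i)) x h1 h2)
  -- no two different types at the same centre
  have htype : ∀ i ∈ S', ∀ j ∈ S', cl (cl i) = cl (cl j) → sx i = sx j := by
    intro i hi j hj hij
    by_contra hty
    have h1 := hno (sx i) (sx j) hty
    refine absurd (hcnt.trans ?_) (not_le.2 h1)
    rw [Nat.cast_le]
    refine card_le_card_of_injOn
      (fun n : ℕ => (a (cl (cl i)) * (n : ℤ) + (b (cl (cl i)) + e i)).toNat) ?_ ?_
    · intro n hn
      rw [mem_coe, mem_filter] at hn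
      obtain ⟨hn1, -, -, hn4⟩ := hn
      have p1 := hn4 i hi
      have p2 := hn4 j hj
      rw [← hij] at p2
      have q1 := toNat_eq p1
      have q2 := toNat_eq p2
      rw [mem_coe, mem_filter, mem_Icc]
      refine ⟨⟨p1.one_lt.le, ?_⟩, p1, _, p2, ?_, ?_⟩
      · have e1 : (((a (cl (cl i)) * (n : ℤ) + (b (cl (cl i)) + e i)).toNat : ℕ) : ℤ) ≤
            (((A + 2 + C) * N : ℕ) : ℤ) := by
          rw [q1]
          have f1 : a (cl (cl i)) * (n : ℤ) ≤ A * N := by
            have g1 : (n : ℤ) ≤ N := by exact_mod_cast (mem_Icc.1 hn1).2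
            have g2 : a (cl (cl i)) ≤ A := (le_abs_self _).trans (hA _)
            have g3 : (0 : ℤ) ≤ n := Nat.cast_nonneg _
            have g4 : a (cl (cl i)) * (n : ℤ) ≤ A * n := mul_le_mul_of_nonneg_right g2 g3
            have g5 : (A : ℤ) * n ≤ A * N := mul_le_mul_of_nonneg_left g1 (Nat.cast_nonneg _)
            exact g4.trans g5
          have f2 : b (cl (cl i)) ≤ 2 * N := by
            have g1 := hb (cl (cl i))
            have g2 := le_abs_self (b (cl (cl i)))
            omega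
          have f3 : (e i : ℤ) ≤ C * N := by
            have g1 : (e i : ℤ) ≤ C := by exact_mod_cast he i
            have g2 : (1 : ℤ) ≤ N := by exact_mod_cast hN1
            nlinarith [Nat.cast_nonneg (α := ℤ) C]
          push_cast
          linarith
        exact_mod_cast e1
      · rw [q1, q2]
        have f1 : (e i : ℤ) ≤ C := by exact_mod_cast he i
        have f2 : (e j : ℤ) ≤ C := by exact_mod_cast he j
        have f3 : (0 : ℤ) ≤ e i := Nat.cast_nonneg _
        have f4 : (0 : ℤ) ≤ e j := Nat.cast_nonneg _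
        rw [abs_le]
        push_cast
        constructor <;> linarith [Nat.cast_nonneg (α := ℤ) A]
      · rw [q1, q2]
        have f1 := hres i
        have f2 := hres j
        rw [← hij] at f2
        have f3 := dvd_sub f2 f1
        have f4 : a (cl (cl i)) * (n : ℤ) + (b (cl (cl i)) + e j) -
            (a (cl (cl i)) * (n : ℤ) + (b (cl (cl i)) + e i)) - (ρ (sx j) - ρ (sx i)) =
            (a (cl (cl i)) + (b (cl (cl i)) + e j) - ρ (sx j)) -
            (a (cl (cl i)) + (b (cl (cl i)) + e i) - ρ (sx i)) := by ring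
        rw [f4]
        exact f3
    · intro n hn n' hn' hnn
      rw [mem_coe, mem_filter] at hn hn'
      have p1 := toNat_eq (hn.2.2.2 i hi)
      have p2 := toNat_eq (hn'.2.2.2 i hi)
      have h3 : a (cl (cl i)) * (n : ℤ) + (b (cl (cl i)) + e i) =
          a (cl (cl i)) * (n' : ℤ) + (b (cl (cl i)) + e i) := by
        rw [← p1, ← p2]
        exact_mod_cast hnn
      have h4 : a (cl (cl i)) * (n : ℤ) = a (cl (cl i)) * (n' : ℤ) := by linarith
      have h5 := mul_left_cancel₀ (ha _) h4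
      exact_mod_cast h5
  -- the elements in the class `g`
  set F : Fin T → Finset (Fin (T * R * κ)) := fun g => S'.filter (fun i => cl (cl i) = g) with hF
  have hinj : ∀ g, Set.InjOn e (F g : Set (Fin (T * R * κ))) := by
    intro g i hi j hj hij
    by_contra hne'
    have h1 := (mem_filter.1 (mem_coe.1 hi)).2
    have h2 := (mem_filter.1 (mem_coe.1 hj)).2
    have h3 := hne i j hne'
    rw [h1, h2, hij] at h3
    exact h3 rfl
  have hFR : ∀ g, (F g).card ≤ R := by
    intro g
    rcases (F g).eq_empty_or_nonempty with h0 | ⟨i₀, hi₀⟩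
    · rw [h0, card_empty]; exact Nat.zero_le _
    · have h1 := mem_filter.1 hi₀
      have h2 : (F g).card ≤ (univ.filter (fun j : Fin (T * R) => cl j = g)).card := by
        refine card_le_card_of_injOn (fun i => cl i) ?_ ?_
        · intro i hi
          have h3 := mem_filter.1 (mem_coe.1 hi)
          exact mem_coe.2 (mem_filter.2 ⟨mem_univ _, h3.2⟩)
        · intro i hi j hj hij
          have h3 := mem_filter.1 (mem_coe.1 hi)
          have h4 := mem_filter.1 (mem_coe.1 hj)
          have h5 : sx i = sx j := htype i h3.1 j h4.1 (h3.2.trans h4.2.symm)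
          have h6 : cl i = cl j := hij
          rw [← ix_cl i, ← ix_cl j, h5, h6]
      rwa [card_cl] at h2
  set S : Finset (Fin T) := univ.filter (fun g => m ≤ (F g).card) with hS
  have hex : ∀ g : Fin T, ∃ E : Finset ℕ, E ⊆ (F g).image e ∧ (g ∈ S → E.card = m) := by
    intro g
    by_cases hg : g ∈ S
    · have h1 : m ≤ ((F g).image e).card := by
        rw [card_image_of_injOn (hinj g)]
        exact (mem_filter.1 hg).2
      obtain ⟨E, hE1, hE2⟩ := exists_subset_card_eq h1
      exact ⟨E, hE1, fun _ => hE2⟩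
    · exact ⟨∅, empty_subset _, fun h => absurd h hg⟩
  choose E hE1 hE2 using hex
  refine ⟨S, E, ?_, ?_, hE2, ?_, hcnt.trans ?_⟩
  · by_contra hcon
    have h1 : S.card ≤ M := by omega
    have h2 : S'.card = ∑ g : Fin T, (F g).card := by
      rw [hF]
      exact card_eq_sum_card_fiberwise (fun i _ => mem_univ (cl (cl i)))
    have h3 : ∀ g : Fin T, (F g).card ≤ m + if g ∈ S then R else 0 := by
      intro g
      by_cases hg : g ∈ S
      · rw [if_pos hg]
        have h4 := hFR g
        omega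
      · rw [if_neg hg]
        have h4 : ¬ m ≤ (F g).card := fun h => hg (mem_filter.2 ⟨mem_univ _, h⟩)
        omega
    have h4 : ∑ g : Fin T, (F g).card ≤ ∑ g : Fin T, (m + if g ∈ S then R else 0) :=
      sum_le_sum fun g _ => h3 g
    rw [sum_add_distrib, sum_const, card_univ, Fintype.card_fin, smul_eq_mul, sum_ite_mem,
      univ_inter, sum_const, smul_eq_mul] at h4
    have h5 : S.card * R ≤ M * R := Nat.mul_le_mul_right _ h1
    omega
  · intro i x hx
    obtain ⟨j, -, rfl⟩ := mem_image.1 (hE1 i hx)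
    exact (he j).trans (by omega)
  · intro i j hij x hx y hy
    obtain ⟨i', hi', rfl⟩ := mem_image.1 (hE1 i hx)
    obtain ⟨j', hj', rfl⟩ := mem_image.1 (hE1 j hy)
    have h1 := (mem_filter.1 hi').2
    have h2 := (mem_filter.1 hj').2
    have hne' : i' ≠ j' := by
      rintro rfl
      exact hij (h1.symm.trans h2)
    have h3 := hne i' j' hne'
    rwa [h1, h2] at h3
  · rw [Nat.cast_le]
    apply card_le_card
    intro n hn
    rw [mem_filter] at hn ⊢
    refine ⟨hn.1, hn.2.1, hn.2.2.1, fun g _ x hx => ?_⟩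
    obtain ⟨i, hi, rfl⟩ := mem_image.1 (hE1 g hx)
    have h1 := mem_filter.1 hi
    have h2 := hn.2.2.2 i h1.1
    rwa [h1.2] at h2

end Pool.Agent.TH899.UG.Dich
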