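import Mathlib
import Pool.Agent.TH899.UG.Uni

/-! Clusters: the uniform coloured theorem above one quarter with `m` primes near each of the chosen
forms. -/

set_option autoImplicit false

namespace Pool.Agent.TH899.UG.Uni

open Finset Filter Topology

open Classical in
/-- **The uniform coloured theorem above one quarter with clusters of `m` primes.** -/
theorem uniM : ∃ c : ℝ, 0 < c ∧ c < 1 ∧ ∀ T M A m : ℕ, 1 ≤ T → (4 - c) * M < T → ∃ C : ℕ,
    ∀ η : ℝ, 0 < η → ∀ᶠ N : ℕ in atTop, ∀ a b : Fin T → ℤ, (∀ i, a i ≠ 0) → (∀ i, |a i| ≤ A) →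
      (∀ i, 4 * |b i| ≤ 5 * (N : ℤ)) → Pos1 a b N →
      ∃ (S : Finset (Fin T)) (E : Fin T → Finset ℕ), M + 1 ≤ S.card ∧
        (∀ i, ∀ e ∈ E i, e ≤ C) ∧ (∀ i ∈ S, (E i).card = m) ∧
        (∀ i j, i ≠ j → ∀ e ∈ E i, ∀ f ∈ E j, a i * (b j + f) ≠ a j * (b i + e)) ∧
        (N : ℝ) ^ (1 - η) ≤ (((Icc 1 N).filter (fun n : ℕ => (N : ℝ) / 16 ≤ n ∧ (n : ℝ) ≤ N / 2 ∧
          ∀ i ∈ S, ∀ e ∈ E i, (a i * n + (b i + e)).toNat.Prime)).card : ℝ) := by
  obtain ⟨c, hc, hc1, H⟩ := uni
  refine ⟨c, hc, hc1, ?_⟩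
  intro T M A m hT hTM
  obtain ⟨R, hR⟩ : ∃ R : ℕ, (4 - c) * (T * m) < R * (T - (4 - c) * M) := by
    obtain ⟨R, hR⟩ := exists_nat_gt ((4 - c) * (T * m) / (T - (4 - c) * M))
    refine ⟨R, ?_⟩
    rw [div_lt_iff₀ (by linarith)] at hR
    exact hR
  have hR0 : 0 < R := by
    rcases Nat.eq_zero_or_pos R with h | h
    · rw [h, Nat.cast_zero, zero_mul] at hR
      have : (0 : ℝ) ≤ (4 - c) * (T * m) := by
        have : (0 : ℝ) ≤ 4 - c := by linarith
        positivity
      linarith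
    · exact h
  obtain ⟨C, H⟩ := H (T * R) (M * R + T * m) A (Nat.mul_pos hT hR0) (by
    push_cast
    nlinarith)
  refine ⟨C, fun η hη => ?_⟩
  filter_upwards [H η hη] with N hN a b ha hA hb hpos
  obtain ⟨S', e, hS', he, hne, hcnt⟩ := hN (fun i => a (cl i)) (fun i => b (cl i)) (fun i => ha _)
    (fun i => hA _) (fun i => hb _) (fun i x h1 h2 => hpos (cl i) x h1 h2)
  -- the elements in the class `g`
  set F : Fin T → Finset (Fin (T * R)) := fun g => S'.filter (fun i => cl i = g) with hF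
  have hinj : ∀ g, Set.InjOn e (F g : Set (Fin (T * R))) := by
    intro g i hi j hj hij
    by_contra hne'
    have h1 := (mem_filter.1 (mem_coe.1 hi)).2
    have h2 := (mem_filter.1 (mem_coe.1 hj)).2
    have h3 := hne i j hne'
    rw [h1, h2, hij] at h3
    exact h3 rfl
  set S : Finset (Fin T) := univ.filter (fun g => m ≤ (F g).card) with hS
  have hex : ∀ g : Fin T, ∃ E : Finset ℕ, E ⊆ (F g).image e ∧ (g ∈ S → E.card = m) := by
    intro g
    by_cases hg : g ∈ S
    · have h1 : m ≤ ((F g).image e).card := by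
        rw [card_image_of_injOn (hinj g)]
        exact (mem_filter.1 hg).2
      obtain ⟨E, hE1, hE2⟩ := exists_subset_card_eq h1
      exact ⟨E, hE1, fun _ => hE2⟩
    · exact ⟨∅, empty_subset _, fun h => absurd h hg⟩
  choose E hE1 hE2 using hex
  refine ⟨S, E, ?_, ?_, hE2, ?_, hcnt.trans ?_⟩
  · by_contra hcon
    have h1 : S.card ≤ M := by omega
    have h2 : S'.card = ∑ g : Fin T, (F g).card := by
      rw [hF]
      exact card_eq_sum_card_fiberwise (fun i _ => mem_univ (cl i))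
    have h3 : ∀ g : Fin T, (F g).card ≤ m + if g ∈ S then R else 0 := by
      intro g
      by_cases hg : g ∈ S
      · rw [if_pos hg]
        have h4 : (F g).card ≤ R := by
          have h5 : F g ⊆ univ.filter (fun i : Fin (T * R) => cl i = g) :=
            filter_subset_filter _ (subset_univ _)
          have h6 := card_le_card h5
          rwa [card_cl] at h6
        omega
      · rw [if_neg hg]
        have h4 : ¬ m ≤ (F g).card := fun h => hg (mem_filter.2 ⟨mem_univ _, h⟩)
        omega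
    have h4 : ∑ g : Fin T, (F g).card ≤ ∑ g : Fin T, (m + if g ∈ S then R else 0) :=
      sum_le_sum fun g _ => h3 g
    rw [sum_add_distrib, sum_const, card_univ, Fintype.card_fin, smul_eq_mul, sum_ite_mem,
      univ_inter, sum_const, smul_eq_mul] at h4
    have h5 : S.card * R ≤ M * R := Nat.mul_le_mul_right _ h1
    omega
  · intro i x hx
    obtain ⟨j, -, rfl⟩ := mem_image.1 (hE1 i hx)
    exact he j
  · intro i j hij x hx y hy
    obtain ⟨i', hi', rfl⟩ := mem_image.1 (hE1 i hx)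
    obtain ⟨j', hj', rfl⟩ := mem_image.1 (hE1 j hy)
    have h1 := (mem_filter.1 hi').2
    have h2 := (mem_filter.1 hj').2
    have hne' : i' ≠ j' := by
      rintro rfl
      exact hij (h1.symm.trans h2)
    have h3 := hne i' j' hne'
    rwa [h1, h2] at h3
  · rw [Nat.cast_le]
    apply card_le_card
    intro n hn
    rw [mem_filter] at hn ⊢
    refine ⟨hn.1, hn.2.1, hn.2.2.1, fun g _ x hx => ?_⟩
    obtain ⟨i, hi, rfl⟩ := mem_image.1 (hE1 g hx)
    have h1 := mem_filter.1 hi
    have h2 := hn.2.2.2 i h1.1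
    rwa [h1.2] at h2

end Pool.Agent.TH899.UG.Uni
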