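import Mathlib
import Pool.Agent.TH899.UG.UniM
import Pool.Agent.H732R3.TupIP

/-! Near a subsum of any vectors of shifts, uniformly in vectors as large as the primes. -/

set_option autoImplicit false

namespace Pool.Agent.TH899.UG.USub

open Finset Filter Topology
open Pool.Agent.TH899.UG.Uni

theorem rpow_mono {x N η : ℝ} (hx : 1 ≤ x) (hxN : x ≤ N) :
    x ^ (1 - η) ≤ N ^ (1 - min η 1) := by
  have h1 : x ^ (1 - η) ≤ x ^ (1 - min η 1) :=
    Real.rpow_le_rpow_of_exponent_le hx (by linarith [min_le_left η 1])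
  have h2 : x ^ (1 - min η 1) ≤ N ^ (1 - min η 1) :=
    Real.rpow_le_rpow (by linarith) hxN (by linarith [min_le_right η 1])
  exact h1.trans h2

open Classical in
theorem main (k m : ℕ) (hm : 1 ≤ m) : ∃ n C : ℕ, ∀ η : ℝ, 0 < η → ∀ᶠ x : ℕ in atTop,
    ∀ v : Fin n → Fin k → ℤ, (∀ j i, |v j i| ≤ x) →
    ∃ J : Finset (Fin n), J.Nonempty ∧ ∃ A : Fin (k + 1) → Finset ℤ,
      0 ∈ A 0 ∧ (∀ i, (A i).card = m) ∧ (∀ i j, i ≠ j → Disjoint (A i) (A j)) ∧
      (∀ a ∈ A 0, |a| ≤ C) ∧ (∀ i : Fin k, ∀ a ∈ A i.succ, |a - ∑ j ∈ J, v j i| ≤ C) ∧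
      (x : ℝ) ^ (1 - η) ≤ ({N : ℕ | N ≤ C * x ∧ N.Prime ∧
        ∀ i, ∀ a ∈ A i, ∃ p : ℕ, p.Prime ∧ (p : ℤ) = N + a}.ncard : ℝ) := by
  obtain ⟨n, hn⟩ := Pool.Agent.H732R3.Tup.dhj_quarter k
  obtain ⟨c, hc, hc1, H⟩ := uniM
  set T : ℕ := (k + 1) ^ n with hT
  have hT1 : 1 ≤ T := Nat.one_le_pow _ _ (by omega)
  set M : ℕ := (T - 1) / 4 with hM
  have hM1 : 4 * M < T := by omega
  have hM2 : T ≤ 4 * (M + 1) := by omega
  obtain ⟨C0, H⟩ := H T M 1 m hT1 (by
    have h1 : (4 * M : ℝ) < T := by exact_mod_cast hM1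
    have h2 : (0 : ℝ) ≤ c * M := by positivity
    nlinarith)
  refine ⟨n, 33 * (n + 1) + C0, fun η hη => ?_⟩
  have htend : Tendsto (fun x : ℕ => 64 * (n + 1) * x) atTop atTop :=
    tendsto_id.const_mul_atTop' (by positivity)
  filter_upwards [htend.eventually (H (min η 1) (by positivity)), eventually_ge_atTop 1]
    with x hN hx v hv
  set N : ℕ := 64 * (n + 1) * x with hNdef
  set e : (Fin n → Fin (k + 1)) ≃ Fin T := finFunctionFinEquiv with he
  set V : Fin n → Fin (k + 1) → ℤ := fun j => Fin.cons 0 (v j) with hV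
  set s : (Fin n → Fin (k + 1)) → ℤ := fun w => ∑ j, V j (w j) with hs
  have hVb : ∀ j i, |V j i| ≤ x := by
    intro j i
    refine Fin.cases ?_ (fun i => ?_) i
    · simp [hV]
    · simpa [hV] using hv j i
  have hsb : ∀ w, |s w| ≤ n * x := by
    intro w
    rw [hs]
    refine (Finset.abs_sum_le_sum_abs _ _).trans ?_
    refine (Finset.sum_le_card_nsmul _ _ (x : ℤ) fun j _ => hVb j _).trans ?_
    rw [card_univ, Fintype.card_fin, nsmul_eq_mul]
  have hx1 : (1 : ℤ) ≤ x := by exact_mod_cast hx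
  have hNz : (N : ℤ) = 64 * (n + 1) * x := by rw [hNdef]; push_cast; ring
  have hNr : (N : ℝ) = 64 * (n + 1) * x := by rw [hNdef]; push_cast; ring
  obtain ⟨S, E, hS, hE1, hE2, hE3, hcnt⟩ := hN (fun _ => 1) (fun g => s (e.symm g))
    (fun _ => one_ne_zero) (fun _ => by simp) (fun g => by
      have h1 := hsb (e.symm g)
      rw [hNz]
      nlinarith) (fun g y h1 h2 => by
      have h3 := hsb (e.symm g)
      have h4 : |((s (e.symm g) : ℤ) : ℝ)| ≤ n * x := by exact_mod_cast h3
      have h5 := (abs_le.1 h4).1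
      rw [hNr] at h1 ⊢
      push_cast
      have hx0 : (0 : ℝ) ≤ x := Nat.cast_nonneg _
      nlinarith)
  obtain ⟨L, hL⟩ := hn (S.map e.symm.toEmbedding) (by rw [card_map]; omega)
  have hLS : ∀ i, e (L i) ∈ S := by
    intro i
    have := hL i
    rw [Finset.mem_map] at this
    obtain ⟨g, hg, hgi⟩ := this
    have h2 : e (L i) = g := by
      rw [← hgi]
      simp
    rw [h2]; exact hg
  set J : Finset (Fin n) := univ.filter (fun j => L.idxFun j = none) with hJ
  have hJne : J.Nonempty := by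
    obtain ⟨j, hj⟩ := L.proper
    exact ⟨j, by simp [hJ, hj]⟩
  have hdiff : ∀ i : Fin k, s (L i.succ) - s (L 0) = ∑ j ∈ J, v j i := by
    intro i
    rw [hs]
    simp only
    rw [← sum_sub_distrib, hJ, sum_filter]
    refine sum_congr rfl fun j _ => ?_
    by_cases hj : L.idxFun j = none
    · rw [if_pos hj, Combinatorics.Line.apply_none _ _ _ hj, Combinatorics.Line.apply_none _ _ _ hj]
      simp [hV]
    · rw [if_neg hj]
      obtain ⟨y, hy⟩ := Option.ne_none_iff_exists'.1 hj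
      rw [Combinatorics.Line.apply_some hy, Combinatorics.Line.apply_some hy, sub_self]
  have hLinj : Function.Injective (fun i => L i) := by
    intro i i' hii
    obtain ⟨j, hj⟩ := L.proper
    have := congrFun hii j
    simp only at this
    rw [Combinatorics.Line.apply_none _ _ _ hj, Combinatorics.Line.apply_none _ _ _ hj] at this
    exact this
  have hne : ∀ i, (E (e (L i))).Nonempty := by
    intro i
    rw [← card_pos, hE2 _ (hLS i)]
    exact hm
  obtain ⟨f, hf⟩ := hne 0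
  set A : Fin (k + 1) → Finset ℤ := fun i =>
    (E (e (L i))).image (fun u : ℕ => (s (L i) + u) - (s (L 0) + f)) with hA
  have hEC : ∀ i, ∀ u ∈ E (e (L i)), (u : ℤ) ≤ C0 := by
    intro i u hu
    exact_mod_cast hE1 _ u hu
  have hsym : ∀ i, s (e.symm (e (L i))) = s (L i) := fun i => by rw [Equiv.symm_apply_apply]
  refine ⟨J, hJne, A, ?_, ?_, ?_, ?_, ?_, ?_⟩
  · rw [hA]
    refine mem_image.2 ⟨f, hf, by ring⟩
  · intro i
    rw [hA]
    simp only
    rw [card_image_of_injective _ (fun u u' h => by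
      simp only [sub_left_inj, add_right_inj, Nat.cast_inj] at h
      exact h)]
    exact hE2 _ (hLS i)
  · intro i j hij
    rw [Finset.disjoint_left]
    intro a ha hb
    obtain ⟨u, hu, hua⟩ := mem_image.1 ha
    obtain ⟨u', hu', hua'⟩ := mem_image.1 hb
    have hne' : e (L i) ≠ e (L j) := fun h => hij (hLinj (e.injective h))
    apply hE3 _ _ hne' u hu u' hu'
    rw [hsym, hsym]
    linarith
  · intro a ha
    obtain ⟨u, hu, rfl⟩ := mem_image.1 ha
    have h1 := hEC 0 u hu
    have h2 := hEC 0 f hf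
    have h3 : (0 : ℤ) ≤ u := Nat.cast_nonneg _
    have h4 : (0 : ℤ) ≤ f := Nat.cast_nonneg _
    have h5 : (0 : ℤ) ≤ n := Nat.cast_nonneg _
    rw [abs_le]
    push_cast
    constructor <;> linarith
  · intro i a ha
    obtain ⟨u, hu, rfl⟩ := mem_image.1 ha
    have h1 := hEC i.succ u hu
    have h2 := hEC 0 f hf
    have h3 : (0 : ℤ) ≤ u := Nat.cast_nonneg _
    have h4 : (0 : ℤ) ≤ f := Nat.cast_nonneg _
    have h5 : (0 : ℤ) ≤ n := Nat.cast_nonneg _
    have h6 := hdiff i
    rw [abs_le]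
    push_cast
    constructor <;> linarith
  · have hxr : (1 : ℝ) ≤ x := by exact_mod_cast hx
    have hxN : (x : ℝ) ≤ N := by
      rw [hNr]
      have : (0 : ℝ) ≤ n := Nat.cast_nonneg _
      nlinarith
    refine (rpow_mono hxr hxN).trans (hcnt.trans ?_)
    rw [Nat.cast_le, ← Set.ncard_coe_finset]
    have hfin : {N : ℕ | N ≤ (33 * (n + 1) + C0) * x ∧ N.Prime ∧
        ∀ i, ∀ a ∈ A i, ∃ p : ℕ, p.Prime ∧ (p : ℤ) = N + a}.Finite :=
      (Set.finite_Iic ((33 * (n + 1) + C0) * x)).subset fun N hN => hN.1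
    refine Set.ncard_le_ncard_of_injOn (fun q : ℕ => ((q : ℤ) + (s (L 0) + f)).toNat) ?_ ?_ hfin
    · intro q hq
      rw [mem_coe, mem_filter] at hq
      obtain ⟨hq1, hq2, hq3, hq4⟩ := hq
      have hp0 := hq4 _ (hLS 0) f hf
      rw [hsym, one_mul] at hp0
      have hpos0 : 0 ≤ (q : ℤ) + (s (L 0) + f) := by
        by_contra hcon
        rw [Int.toNat_of_nonpos (by linarith)] at hp0
        exact Nat.not_prime_zero hp0
      have hcast : ((((q : ℤ) + (s (L 0) + f)).toNat : ℕ) : ℤ) = (q : ℤ) + (s (L 0) + f) :=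
        Int.toNat_of_nonneg hpos0
      refine ⟨?_, hp0, ?_⟩
      · have h1 : (q : ℤ) ≤ 32 * (n + 1) * x := by
          have h2 : (q : ℝ) ≤ 32 * (n + 1) * x := by rw [hNr] at hq3; linarith
          exact_mod_cast h2
        have h2 := (abs_le.1 (hsb (L 0))).2
        have h3 := hEC 0 f hf
        have h4 : (C0 : ℤ) ≤ C0 * x := le_mul_of_one_le_right (Nat.cast_nonneg _) hx1
        have h5 : (((((q : ℤ) + (s (L 0) + f)).toNat : ℕ)) : ℤ) ≤
            (((33 * (n + 1) + C0) * x : ℕ) : ℤ) := by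
          rw [hcast]
          push_cast
          nlinarith
        exact_mod_cast h5
      · intro i a ha
        obtain ⟨u, hu, rfl⟩ := mem_image.1 ha
        have hp := hq4 _ (hLS i) u hu
        rw [hsym, one_mul] at hp
        refine ⟨_, hp, ?_⟩
        have hpos1 : 0 ≤ (q : ℤ) + (s (L i) + u) := by
          by_contra hcon
          rw [Int.toNat_of_nonpos (by linarith)] at hp
          exact Nat.not_prime_zero hp
        rw [Int.toNat_of_nonneg hpos1]
        show _ = ((((q : ℤ) + (s (L 0) + f)).toNat : ℕ) : ℤ) + _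
        rw [hcast]
        ring
    · intro q hq q' hq' hqq
      rw [mem_coe, mem_filter] at hq hq'
      have hp0 := hq.2.2.2 _ (hLS 0) f hf
      rw [hsym, one_mul] at hp0
      have hp1 := hq'.2.2.2 _ (hLS 0) f hf
      rw [hsym, one_mul] at hp1
      have hpos0 : 0 ≤ (q : ℤ) + (s (L 0) + f) := by
        by_contra hcon
        rw [Int.toNat_of_nonpos (by linarith)] at hp0
        exact Nat.not_prime_zero hp0
      have hpos1 : 0 ≤ (q' : ℤ) + (s (L 0) + f) := by
        by_contra hcon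
        rw [Int.toNat_of_nonpos (by linarith)] at hp1
        exact Nat.not_prime_zero hp1
      have h1 := congrArg (fun t : ℕ => (t : ℤ)) hqq
      simp only at h1
      rw [Int.toNat_of_nonneg hpos0, Int.toNat_of_nonneg hpos1] at h1
      have h2 : (q : ℤ) = q' := by linarith
      exact_mod_cast h2

end Pool.Agent.TH899.UG.USub
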