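import Mathlib
import Pool.Agent.H362R2.CM.Box

/-! Erdos's box lemma with a power saving. -/

set_option autoImplicit false

namespace Pool.Agent.TH899.UG

open Finset Pool.Agent.H362R2.CM

/-- **Erdos's box lemma** with a power saving -/
theorem box_pow (K : ℕ) : ∀ T : ℕ, ∃ (C : ℝ) (E : ℕ), 1 ≤ C ∧ ∀ (ε : ℝ), 0 < ε → ε ≤ 1 →
    ∀ (α : Type) (V : Fin T → Finset α), (∀ i, C / ε ^ E ≤ ((V i).card : ℝ)) →
    ∀ B : Finset (Fin T → α), B ⊆ Fintype.piFinset V → ε * ∏ i, ((V i).card : ℝ) ≤ B.card →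
    ∃ A : Fin T → Fin K → α, (∀ i, Function.Injective (A i)) ∧
      ∀ c : Fin T → Fin K, (fun i => A i (c i)) ∈ B := by
  classical
  intro T
  induction T with
  | zero =>
    refine ⟨1, 0, le_rfl, ?_⟩
    intro ε hε _ α V _ B hB hcard
    have h1 : (0 : ℝ) < B.card := by
      refine lt_of_lt_of_le ?_ hcard
      simp [hε]
    have h2 : B.Nonempty := by
      rw [← Finset.card_pos]; exact_mod_cast h1
    obtain ⟨f, hf⟩ := h2
    refine ⟨fun i => i.elim0, fun i => i.elim0, fun c => ?_⟩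
    have : (fun i : Fin 0 => (fun i : Fin 0 => i.elim0 : Fin 0 → Fin K → α) i (c i)) = f := by
      funext i; exact i.elim0
    rw [this]; exact hf
  | succ T ih =>
    obtain ⟨C, E, hC, hN'⟩ := ih
    refine ⟨C * 2 ^ E + 2 * (K : ℝ) ^ 2 + 1, K * (E + 1), ?_, ?_⟩
    · have h1 : (0 : ℝ) ≤ C * 2 ^ E := by positivity
      have h2 : (0 : ℝ) ≤ 2 * (K : ℝ) ^ 2 := by positivity
      linarith
    intro ε hε hε1 α V hV B hB hcard
    have hεE : 0 < ε ^ (K * (E + 1)) := by positivity
    have hpow : ε ^ (K * (E + 1)) ≤ ε ^ K := pow_le_pow_of_le_one hε.le hε1 (by nlinarith)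
    have hpow2 : ε ^ (K * (E + 1)) ≤ (ε ^ K) ^ E := by
      rw [← pow_mul]
      exact pow_le_pow_of_le_one hε.le hε1 (by nlinarith)
    have hεK1 : ε ^ K ≤ 1 := pow_le_one₀ hε.le hε1
    have hv0 : 2 * (K : ℝ) ^ 2 / ε ^ K < (V 0).card := by
      refine lt_of_lt_of_le ?_ (hV 0)
      rw [div_lt_div_iff₀ (by positivity) hεE]
      have h1 : (0 : ℝ) ≤ C * 2 ^ E := by positivity
      calc 2 * (K : ℝ) ^ 2 * ε ^ (K * (E + 1)) ≤ 2 * (K : ℝ) ^ 2 * ε ^ K := by gcongr
        _ < (C * 2 ^ E + 2 * (K : ℝ) ^ 2 + 1) * ε ^ K := by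
            have : 0 < ε ^ K := by positivity
            nlinarith
    have hvs : ∀ i : Fin T, C / (ε ^ K / 2) ^ E ≤ ((V i.succ).card : ℝ) := by
      intro i
      refine le_trans ?_ (hV i.succ)
      rw [div_pow, div_div_eq_mul_div]
      apply div_le_div₀ (by positivity) _ hεE hpow2
      have h2 : (0 : ℝ) ≤ 2 * (K : ℝ) ^ 2 := by positivity
      linarith
    set V' : Fin T → Finset α := fun i => V i.succ with hV'
    have hMcard : ((Fintype.piFinset V').card : ℝ) = ∏ i, ((V' i).card : ℝ) := by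
      rw [Fintype.card_piFinset]; push_cast; rfl
    have hprod : ∏ i, ((V i).card : ℝ) = (V 0).card * (Fintype.piFinset V').card := by
      rw [Fin.prod_univ_succ, hMcard]
    have hBcard : (B.card : ℝ) =
        ∑ g ∈ Fintype.piFinset V', (((V 0).filter (fun x => glue B x g)).card : ℝ) := by
      have h1 := card_eq_sum_glue B V hB
      rw [h1]
      push_cast
      rfl
    obtain ⟨φ, hφ1, hφ2, hφ3⟩ := box_step K ε hε (V 0) (Fintype.piFinset V') (glue B)
      hv0 (by
        rw [Fintype.card_piFinset]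
        apply Finset.prod_pos
        intro i _
        have h1 := hvs i
        have h2 : 0 < C / (ε ^ K / 2) ^ E := by positivity
        have h3 : (0 : ℝ) < ((V i.succ).card : ℝ) := h2.trans_le h1
        exact_mod_cast h3) (by
        rw [← hBcard, mul_assoc, ← hprod]; exact hcard)
    rw [hMcard] at hφ3
    obtain ⟨A', hA'1, hA'2⟩ := hN' (ε ^ K / 2) (by positivity) (by linarith) α V' hvs
      ((Fintype.piFinset V').filter (fun g => ∀ j, glue B (φ j) g)) (Finset.filter_subset _ _) hφ3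
    refine ⟨Fin.cons φ A', ?_, ?_⟩
    · intro i
      refine Fin.cases ?_ (fun i => ?_) i
      · simp only [Fin.cons_zero]; exact hφ1
      · simp only [Fin.cons_succ]; exact hA'1 i
    · intro c
      have h1 : glue B (φ (c 0)) (fun i => A' i (c i.succ)) :=
        (mem_filter.1 (hA'2 (fun i => c i.succ))).2 (c 0)
      have h2 : (fun i => (Fin.cons φ A' : Fin (T + 1) → Fin K → α) i (c i)) =
          Fin.cons (φ (c 0)) (fun i => A' i (c i.succ)) := by
        funext i
        refine Fin.cases ?_ (fun i => ?_) i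
        · simp
        · simp
      rw [h2]; exact h1

end Pool.Agent.TH899.UG
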