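import Mathlib
import Pool.Agent.TH899.UG.BoxP
import Pool.Agent.H362R2.CM.AlmostAll

/-! Almost all admissible tuples of linear forms: exceptional set with a power saving. -/

set_option autoImplicit false

namespace Pool.Agent.TH899.UG

open Finset Pool.Agent.H361R2 Pool.Agent.H362R2.CM

/-- coloured Maynard-Tao theorem for `T` classes: the set of classes has `P`, the set of `n` has `Z` -/
def HitP (T : ℕ) (P : Finset (Fin T) → Prop) (Z : Set ℕ → Prop) : Prop :=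
  ∃ K : ℕ, 1 ≤ K ∧ ∀ (a b : Fin T → Fin K → ℤ), (∀ g i, 0 < a g i) →
    Function.Injective (fun x : Fin T × Fin K => (a x.1 x.2, b x.1 x.2)) →
    (∀ p : ℕ, p.Prime → ∃ n : ℤ, ∀ g i, ¬ ((p : ℤ) ∣ a g i * n + b g i)) →
    ∃ (S : Finset (Fin T)) (c : Fin T → Fin K), P S ∧
      Z {n : ℕ | ∀ g ∈ S, 0 < a g (c g) * (n : ℤ) + b g (c g) ∧
        Prime (a g (c g) * (n : ℤ) + b g (c g))}

/-- the set of `n` for which the forms with index in `S` are simultaneously prime has `Z` -/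
def SimP (Z : Set ℕ → Prop) {T : ℕ} (f : Fin T → ℤ × ℤ) (S : Finset (Fin T)) : Prop :=
  Z {n : ℕ | ∀ i ∈ S, 0 < (f i).1 * (n : ℤ) + (f i).2 ∧ Prime ((f i).1 * (n : ℤ) + (f i).2)}

/-- no box of `T` classes of `K` forms, all congruent mod `(TK)!` in each class, can consist only
of bad tuples -/
theorem no_bad_boxP (T K : ℕ) (P : Finset (Fin T) → Prop) (Z : Set ℕ → Prop) (hK : 1 ≤ K)
    (hq : ∀ (a b : Fin T → Fin K → ℤ), (∀ g i, 0 < a g i) →
      Function.Injective (fun x : Fin T × Fin K => (a x.1 x.2, b x.1 x.2)) →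
      (∀ p : ℕ, p.Prime → ∃ n : ℤ, ∀ g i, ¬ ((p : ℤ) ∣ a g i * n + b g i)) →
      ∃ (S : Finset (Fin T)) (c : Fin T → Fin K), P S ∧
        Z {n : ℕ | ∀ g ∈ S, 0 < a g (c g) * (n : ℤ) + b g (c g) ∧
          Prime (a g (c g) * (n : ℤ) + b g (c g))})
    (A : Fin T → Fin K → ℤ × ℤ) (hApos : ∀ g i, 0 < (A g i).1)
    (hAinj : ∀ g, Function.Injective (A g))
    (hres : ∀ g i j, ((T * K).factorial : ℤ) ∣ (A g i).1 - (A g j).1 ∧
      ((T * K).factorial : ℤ) ∣ (A g i).2 - (A g j).2)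
    (hadm : ∀ c : Fin T → Fin K, Adm (fun g => A g (c g)))
    (hfinj : ∀ c : Fin T → Fin K, Function.Injective (fun g => A g (c g))) :
    ∃ c : Fin T → Fin K, ∃ S : Finset (Fin T), P S ∧ SimP Z (fun g => A g (c g)) S := by
  classical
  have h0 : 0 < K := hK
  obtain ⟨S, c, hS1, hS2⟩ := hq (fun g i => (A g i).1) (fun g i => (A g i).2) hApos (by
    rintro ⟨g, i⟩ ⟨g', i'⟩ h
    simp only [Prod.mk.injEq] at h
    have hA : A g i = A g' i' := Prod.ext h.1 h.2
    by_cases hg : g = g'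
    · subst hg
      rw [hAinj g hA]
    · exfalso
      have h1 := hfinj (Function.update (fun _ => i) g' i')
      apply hg
      apply h1
      simp only [Function.update_self, Function.update_of_ne hg]
      exact hA) (by
    intro p hp
    by_cases hpk : p ≤ T * K
    · obtain ⟨n, hn⟩ := hadm (fun _ => ⟨0, h0⟩) p hp
      refine ⟨n, fun g i hdvd => hn g ?_⟩
      have hpQ : (p : ℤ) ∣ ((T * K).factorial : ℤ) :=
        Int.natCast_dvd_natCast.2 ((hp.dvd_factorial).2 hpk)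
      have h1 := hpQ.trans (hres g i ⟨0, h0⟩).1
      have h2 := hpQ.trans (hres g i ⟨0, h0⟩).2
      have h3 := dvd_sub hdvd (dvd_add (Dvd.dvd.mul_right h1 n) h2)
      have h4 : (A g i).1 * n + (A g i).2 - (((A g i).1 - (A g ⟨0, h0⟩).1) * n +
        ((A g i).2 - (A g ⟨0, h0⟩).2)) = (A g ⟨0, h0⟩).1 * n + (A g ⟨0, h0⟩).2 := by ring
      rwa [h4] at h3
    · push Not at hpk
      obtain ⟨n, hn⟩ := exists_avoid' (m := T * K) hp hpk
        (fun x => (A (finProdFinEquiv.symm x).1 (finProdFinEquiv.symm x).2).1)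
        (fun x => (A (finProdFinEquiv.symm x).1 (finProdFinEquiv.symm x).2).2) (by
          rintro x ⟨h1, h2⟩
          obtain ⟨n, hn⟩ := hadm (fun _ => (finProdFinEquiv.symm x).2) p hp
          exact hn (finProdFinEquiv.symm x).1 (dvd_add (Dvd.dvd.mul_right h1 n) h2))
      refine ⟨n, fun g i => ?_⟩
      have h1 := hn (finProdFinEquiv (g, i))
      simpa only [Equiv.symm_apply_apply] using h1)
  exact ⟨c, S, hS1, hS2⟩

open Classical in
/-- **almost all admissible tuples**, with a power saving -/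
theorem almost_all_pow (T : ℕ) (P : Finset (Fin T) → Prop) (Z : Set ℕ → Prop) (hP : HitP T P Z) :
    ∃ C δ : ℝ, 0 < C ∧ 0 < δ ∧ δ ≤ 1 ∧ ∀ N : ℕ, 1 ≤ N →
    ∀ V : Fin T → Finset (ℤ × ℤ), (∀ i, ∀ f ∈ V i, 0 < f.1) → (∀ i, N ≤ (V i).card) →
    (((Fintype.piFinset V).filter (fun f => Adm f ∧
      ¬ ∃ S : Finset (Fin T), P S ∧ SimP Z f S)).card : ℝ) ≤
      C * (N : ℝ) ^ (-δ) * ∏ i, ((V i).card : ℝ) := by
  obtain ⟨K, hK, hq⟩ := hP
  set Q : ℕ := (T * K).factorial with hQ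
  have hQpos : 0 < Q := Nat.factorial_pos _
  set t : Finset (Fin T → ℤ × ℤ) :=
    Fintype.piFinset (fun _ : Fin T => (Finset.Ico (0 : ℤ) Q ×ˢ Finset.Ico (0 : ℤ) Q)) with ht
  have htne : t.Nonempty := by
    refine ⟨fun _ => (0, 0), ?_⟩
    rw [ht, Fintype.mem_piFinset]
    intro i
    rw [mem_product]
    have : (0 : ℤ) < Q := by exact_mod_cast hQpos
    exact ⟨mem_Ico.2 ⟨le_rfl, this⟩, mem_Ico.2 ⟨le_rfl, this⟩⟩
  set R : ℝ := (t.card : ℝ) with hR
  have hR1 : 1 ≤ R := by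
    rw [hR]
    exact_mod_cast Nat.one_le_iff_ne_zero.2 htne.card_pos.ne'
  have hRpos : 0 < R := by linarith
  obtain ⟨C₀, E, hC₀, hbox⟩ := box_pow K T
  set δ₀ : ℝ := 1 / ((E : ℝ) + 1) with hδ₀
  have hδ₀pos : 0 < δ₀ := by positivity
  have hδ₀1 : δ₀ ≤ 1 := by
    rw [hδ₀, div_le_one (by positivity)]
    have : (0 : ℝ) ≤ E := Nat.cast_nonneg _
    linarith
  set C : ℝ := 2 * R * C₀ + 2 * (T : ℝ) ^ 2 + 1 with hC
  have hCpos : 0 < C := by positivity
  refine ⟨C, δ₀, hCpos, hδ₀pos, hδ₀1, ?_⟩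
  intro N hN V hVpos hVN
  obtain ⟨P', hP'⟩ : ∃ P' : ℝ, P' = ∏ i, ((V i).card : ℝ) := ⟨_, rfl⟩
  have hN0 : (0 : ℝ) < N := by exact_mod_cast hN
  have hN1 : (1 : ℝ) ≤ N := by exact_mod_cast hN
  have hVpos' : ∀ i, 0 < (V i).card := fun i => by
    have := hVN i; omega
  have hPpos : 0 < P' := by
    rw [hP']
    exact Finset.prod_pos (fun i _ => by exact_mod_cast hVpos' i)
  obtain ⟨ε, hε⟩ : ∃ ε : ℝ, ε = C * (N : ℝ) ^ (-δ₀) := ⟨_, rfl⟩
  have hεpos : 0 < ε := by rw [hε]; positivity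
  rw [← hε, ← hP']
  -- facts on `ε`
  have hNδ : (N : ℝ) ^ (-δ₀) * (N : ℝ) ^ δ₀ = 1 := by
    rw [← Real.rpow_add hN0]
    simp
  have hNδ1 : (N : ℝ) ^ (-(1 : ℝ)) ≤ (N : ℝ) ^ (-δ₀) :=
    Real.rpow_le_rpow_of_exponent_le hN1 (by linarith)
  have hNinv : (N : ℝ) ^ (-(1 : ℝ)) = 1 / N := by
    rw [Real.rpow_neg_one, one_div]
  have hεT : 2 * (T : ℝ) ^ 2 / N ≤ ε := by
    have h1 : 2 * (T : ℝ) ^ 2 ≤ C := by
      have : 0 ≤ 2 * R * C₀ := by positivity
      linarith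
    calc 2 * (T : ℝ) ^ 2 / N = 2 * (T : ℝ) ^ 2 * (N : ℝ) ^ (-(1 : ℝ)) := by rw [hNinv]; ring
      _ ≤ C * (N : ℝ) ^ (-δ₀) := mul_le_mul h1 hNδ1 (Real.rpow_nonneg hN0.le _) hCpos.le
      _ = ε := hε.symm
  have hεE : ε ^ (E + 1) * N = C ^ (E + 1) := by
    have h1 : ((N : ℝ) ^ (-δ₀)) ^ (E + 1) = (N : ℝ) ^ (-(1 : ℝ)) := by
      rw [← Real.rpow_natCast, ← Real.rpow_mul hN0.le]
      congr 1
      rw [hδ₀]
      push_cast
      field_simp
    rw [hε, mul_pow, h1, hNinv]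
    field_simp
  by_contra hcon'
  have hcon := not_le.1 hcon'
  set Bad := (Fintype.piFinset V).filter (fun f => Adm f ∧
      ¬ ∃ S : Finset (Fin T), P S ∧ SimP Z f S) with hBad
  have hε1 : ε ≤ 1 := by
    by_contra hgt
    have hgt := not_le.1 hgt
    have h1 : (Bad.card : ℝ) ≤ P' := by
      have h2 : Bad.card ≤ (Fintype.piFinset V).card := card_filter_le _ _
      rw [Fintype.card_piFinset] at h2
      rw [hP']
      exact_mod_cast h2
    nlinarith
  set Bad' := Bad.filter (fun f => Inj f) with hBad'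
  -- remove the non injective tuples
  have hni := card_not_injective_pi_le T N V hVN
  have hni' : (((Fintype.piFinset V).filter (fun φ => ¬ Inj φ)).card : ℝ) ≤
      ε / 2 * P' := by
    have h1 : (((Fintype.piFinset V).filter (fun φ => ¬ Inj φ)).card : ℝ) * N ≤
        (T : ℝ) ^ 2 * P' := by
      rw [hP']
      exact_mod_cast hni
    have h2 : (((Fintype.piFinset V).filter (fun φ => ¬ Inj φ)).card : ℝ) ≤
        (T : ℝ) ^ 2 * P' / N := by
      rw [le_div_iff₀ hN0]; exact h1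
    refine h2.trans ?_
    have h3 : (T : ℝ) ^ 2 * P' / N = (2 * (T : ℝ) ^ 2 / N) / 2 * P' := by ring
    rw [h3]
    exact mul_le_mul_of_nonneg_right (by linarith) hPpos.le
  have hBad'card : ε / 2 * P' ≤ (Bad'.card : ℝ) := by
    have h1 : Bad.card = Bad'.card + (Bad.filter (fun f => ¬ Inj f)).card := by
      rw [hBad']
      exact (Finset.card_filter_add_card_filter_not _).symm
    have h2 : (Bad.filter (fun f => ¬ Inj f)).card ≤
        ((Fintype.piFinset V).filter (fun φ => ¬ Inj φ)).card := by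
      apply card_le_card
      apply Finset.filter_subset_filter
      exact Finset.filter_subset _ _
    have h1' : (Bad.card : ℝ) = Bad'.card + (Bad.filter (fun f => ¬ Inj f)).card := by
      exact_mod_cast h1
    have h2' : ((Bad.filter (fun f => ¬ Inj f)).card : ℝ) ≤
        (((Fintype.piFinset V).filter (fun φ => ¬ Inj φ)).card : ℝ) := by
      exact_mod_cast h2
    linarith
  -- pigeonhole on residues
  obtain ⟨δ, hδ⟩ : ∃ δ : ℝ, δ = ε / (2 * R) := ⟨_, rfl⟩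
  have hδpos : 0 < δ := by rw [hδ]; positivity
  have hδ1 : δ ≤ 1 := by
    rw [hδ, div_le_one (by positivity)]
    linarith
  set res : (Fin T → ℤ × ℤ) → (Fin T → ℤ × ℤ) := fun f i => ((f i).1 % Q, (f i).2 % Q) with hres
  have hmaps : ∀ f ∈ Bad', res f ∈ t := by
    intro f _
    rw [ht, Fintype.mem_piFinset]
    intro i
    have hQ' : (0 : ℤ) < Q := by exact_mod_cast hQpos
    rw [mem_product, mem_Ico, mem_Ico]
    exact ⟨⟨Int.emod_nonneg _ hQ'.ne', Int.emod_lt_of_pos _ hQ'⟩,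
      ⟨Int.emod_nonneg _ hQ'.ne', Int.emod_lt_of_pos _ hQ'⟩⟩
  obtain ⟨ρ, _, hρ⟩ := Finset.exists_le_card_fiber_of_nsmul_le_card_of_maps_to hmaps htne
    (b := δ * P') (by
      rw [nsmul_eq_mul, ← hR]
      calc R * (δ * P') = ε / 2 * P' := by rw [hδ]; field_simp
        _ ≤ _ := hBad'card)
  set B := Bad'.filter (fun f => res f = ρ) with hB
  set W : Fin T → Finset (ℤ × ℤ) := fun i => (V i).filter (fun x => (x.1 % Q, x.2 % Q) = ρ i) with hW
  have hBmem : ∀ f ∈ B, (∀ i, f i ∈ V i) ∧ Adm f ∧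
      (¬ ∃ S : Finset (Fin T), P S ∧ SimP Z f S) ∧ Inj f ∧
      res f = ρ := by
    intro f hf
    rw [hB, mem_filter, hBad', mem_filter, hBad, mem_filter, Fintype.mem_piFinset] at hf
    exact ⟨hf.1.1.1, hf.1.1.2.1, hf.1.1.2.2, hf.1.2, hf.2⟩
  have hBW : B ⊆ Fintype.piFinset W := by
    intro f hf
    obtain ⟨h1, _, _, _, h5⟩ := hBmem f hf
    rw [Fintype.mem_piFinset]
    intro i
    rw [hW]
    simp only [mem_filter]
    exact ⟨h1 i, congrFun h5 i⟩
  have hWle : ∀ i, (W i).card ≤ (V i).card := fun i => Finset.card_filter_le _ _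
  have hprodW : δ * P' ≤ ∏ i, ((W i).card : ℝ) := by
    have h1 := card_le_card hBW
    rw [Fintype.card_piFinset] at h1
    have h2 : (B.card : ℝ) ≤ ∏ i, ((W i).card : ℝ) := by exact_mod_cast h1
    exact hρ.trans h2
  have hWN : ∀ i, C₀ / δ ^ E ≤ ((W i).card : ℝ) := by
    intro i
    have h1 : ∏ j, ((W j).card : ℝ) ≤ (W i).card * ∏ j ∈ univ.erase i, ((V j).card : ℝ) := by
      rw [← Finset.mul_prod_erase univ (fun j => ((W j).card : ℝ)) (mem_univ i)]
      apply mul_le_mul_of_nonneg_left _ (Nat.cast_nonneg _)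
      exact Finset.prod_le_prod (fun _ _ => Nat.cast_nonneg _)
        (fun j _ => by exact_mod_cast hWle j)
    have h2 : P' = (V i).card * ∏ j ∈ univ.erase i, ((V j).card : ℝ) := by
      rw [hP']
      exact (Finset.mul_prod_erase univ (fun j => ((V j).card : ℝ)) (mem_univ i)).symm
    have h3 : 0 < ∏ j ∈ univ.erase i, ((V j).card : ℝ) :=
      Finset.prod_pos (fun j _ => by exact_mod_cast hVpos' j)
    have h4 : δ * ((V i).card : ℝ) ≤ (W i).card := by
      have h5 := hprodW.trans h1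
      rw [h2, ← mul_assoc] at h5
      exact le_of_mul_le_mul_right h5 h3
    refine le_trans ?_ h4
    rw [div_le_iff₀ (by positivity)]
    have h6 : (N : ℝ) ≤ (V i).card := by exact_mod_cast hVN i
    have h7 : δ ^ (E + 1) * N = (C / (2 * R)) ^ (E + 1) := by
      rw [hδ, div_pow, div_pow, div_mul_eq_mul_div, hεE]
    have h8 : C₀ ≤ C / (2 * R) := by
      rw [le_div_iff₀ (by positivity)]
      have : (0 : ℝ) ≤ 2 * (T : ℝ) ^ 2 := by positivity
      linarith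
    have h9 : C₀ ≤ (C / (2 * R)) ^ (E + 1) := by
      calc C₀ ≤ C₀ ^ (E + 1) := le_self_pow₀ hC₀ (by omega)
        _ ≤ (C / (2 * R)) ^ (E + 1) := pow_le_pow_left₀ (by linarith) h8 _
    calc C₀ ≤ δ ^ (E + 1) * N := by rw [h7]; exact h9
      _ ≤ δ ^ (E + 1) * (V i).card := mul_le_mul_of_nonneg_left h6 (by positivity)
      _ = δ * (V i).card * δ ^ E := by ring
  have hdens : δ * ∏ i, ((W i).card : ℝ) ≤ (B.card : ℝ) := by
    have h1 : ∏ i, ((W i).card : ℝ) ≤ P' := by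
      rw [hP']
      exact Finset.prod_le_prod (fun _ _ => Nat.cast_nonneg _)
        (fun j _ => by exact_mod_cast hWle j)
    calc δ * ∏ i, ((W i).card : ℝ) ≤ δ * P' := mul_le_mul_of_nonneg_left h1 hδpos.le
      _ ≤ _ := hρ
  obtain ⟨A, hA1, hA2⟩ := hbox δ hδpos hδ1 (ℤ × ℤ) W hWN B hBW hdens
  obtain ⟨c, S, hS1, hS2⟩ := no_bad_boxP T K P Z hK hq A
    (fun g i => by
      have h1 := (hBmem _ (hA2 (fun _ => i))).1 g
      exact hVpos g _ h1)
    hA1
    (fun g i j => by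
      have h1 := congrFun (hBmem _ (hA2 (fun _ => i))).2.2.2.2 g
      have h2 := congrFun (hBmem _ (hA2 (fun _ => j))).2.2.2.2 g
      rw [← h2] at h1
      simp only [hres, Prod.mk.injEq] at h1
      exact ⟨Int.ModEq.dvd (Int.ModEq.symm h1.1), Int.ModEq.dvd (Int.ModEq.symm h1.2)⟩)
    (fun c => (hBmem _ (hA2 c)).2.1)
    (fun c => (hBmem _ (hA2 c)).2.2.2.1)
  exact (hBmem _ (hA2 c)).2.2.1 ⟨S, hS1, hS2⟩

end Pool.Agent.TH899.UG
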