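import Mathlib
import Pool.Agent.TH899.UG.Final
import Pool.Agent.H732R3.QuarterB

/-! The coloured Maynard-Tao theorem for linear forms with a proportion above one quarter. -/

set_option autoImplicit false

namespace Pool.Agent.TH899.UG

open Finset Filter
open Pool.Agent.H361R2 Pool.Agent.H362R2.CM
open Pool.Agent.H732R3.BigQ

open Classical in
/-- fixed forms `a i * n + b i` -/
theorem core_quantC : ∃ c : ℝ, 0 < c ∧ c < 1 ∧ ∀ T M : ℕ, 1 ≤ T → (4 - c) * M < T →
    ∃ K : ℕ, 2 ≤ K ∧ ∀ (a b : Fin (T * K) → ℕ) (cl : Fin (T * K) → Fin T),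
      (∀ g, (univ.filter (fun i => cl i = g)).card = K) → (∀ i, 1 ≤ a i) → (∀ i, 1 ≤ b i) →
      (∀ i j, i ≠ j → a i * b j ≠ a j * b i) →
      (∀ p : ℕ, p.Prime → ∃ n : ℕ, ¬ p ∣ n ∧ ∀ i, ¬ p ∣ a i * n + b i) →
      ∀ η : ℝ, 0 < η → ∀ᶠ x : ℝ in atTop, x ^ (1 - η) ≤ (((Icc 1 ⌊x⌋₊).filter (fun n : ℕ =>
        M + 1 ≤ (univ.filter (fun g : Fin T => ∃ i, cl i = g ∧ (a i * n + b i).Prime)).card)).card
          : ℝ) := by
  obtain ⟨c, hc, hc1, H⟩ := thmVGF
  refine ⟨c, hc, hc1, ?_⟩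
  intro T M hT hTM
  obtain ⟨K, hK, D₀, H⟩ := H T M hT hTM
  refine ⟨K, hK, ?_⟩
  intro a b cl hcl ha hb hnp hadm η hη
  obtain ⟨DW, hWF⟩ := Pool.Agent.W493.UN.WD.main
  set D : ℕ := D₀ + DW + ∑ i, a i with hD
  have haD : ∀ i, a i ≤ D := by
    intro i
    have h1 : a i ≤ ∑ i, a i :=
      Finset.single_le_sum (f := fun i => a i) (fun j _ => Nat.zero_le _) (Finset.mem_univ i)
    omega
  set α : Fin (T * K) → ℤ := fun i => (a i : ℤ) with hα
  set h : Fin (T * K) → ℤ := fun i => (b i : ℤ) with hh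
  have hα0 : ∀ i, α i ≠ 0 := fun i => by
    have := ha i
    simp only [hα]
    exact_mod_cast (by omega : a i ≠ 0)
  have hαD : ∀ i, (α i).natAbs ≤ D := fun i => by
    simp only [hα, Int.natAbs_natCast]
    exact haD i
  have hmain := H D (by omega) α h cl hcl hα0 hαD (η / 2) (by linarith)
  have hFm : ∀ (i : Fin (T * K)) (n : ℤ), Pool.Agent.W25.UN.Fm α h 0 i n = a i * n + b i := by
    intro i n
    unfold Pool.Agent.W25.UN.Fm
    simp [hα, hh]
  -- the residue class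
  obtain ⟨-, -, -, -, hv⟩ := hWF D (by omega)
  obtain ⟨v, hv⟩ := hv 0 (T * K) α h (by
    intro p hp
    obtain ⟨n, hn1, hn2⟩ := hadm p hp
    refine ⟨n, by exact_mod_cast hn1, fun i => ?_⟩
    rw [hFm]
    have := hn2 i
    exact_mod_cast this)
  have hnd : Nd α h 0 := by
    intro j l hjl
    rcases j with _ | j <;> rcases l with _ | l
    · exact absurd rfl hjl
    · simp only [Pool.Agent.W25.UN.uB, Pool.Agent.W25.UN.wB, hα, hh]
      have := hb l
      have h1 : (b l : ℤ) ≠ 0 := by exact_mod_cast (by omega : b l ≠ 0)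
      simpa using h1
    · simp only [Pool.Agent.W25.UN.uB, Pool.Agent.W25.UN.wB, hα, hh]
      have := hb j
      have h1 : (b j : ℤ) ≠ 0 := by exact_mod_cast (by omega : b j ≠ 0)
      simpa using h1
    · have hne : j ≠ l := fun h => hjl (by rw [h])
      have h1 := hnp j l hne
      simp only [Pool.Agent.W25.UN.uB, Pool.Agent.W25.UN.wB, hα, hh]
      intro h2
      apply h1
      have h3 : (a j : ℤ) * b l = a l * b j := by
        push_cast at h2
        linarith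
      exact_mod_cast h3
  have hpos : ∀ N : ℕ, PosR α h 0 N := by
    intro N i x hx1 hx2
    have h1 : (1 : ℝ) ≤ a i := by exact_mod_cast ha i
    have h2 : (0 : ℝ) ≤ b i := Nat.cast_nonneg _
    have h3 : (0 : ℝ) ≤ N := Nat.cast_nonneg _
    have h4 : x ≤ a i * x := le_mul_of_one_le_left (by linarith) h1
    simp only [hα, hh]
    push_cast
    linarith
  have hcls : ∀ n : ℕ, (univ.filter (fun g : Fin T => ∃ i, cl i = g ∧
      (Pool.Agent.W25.UN.Fm α h 0 i n).toNat.Prime)) =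
      (univ.filter (fun g : Fin T => ∃ i, cl i = g ∧ (a i * n + b i).Prime)) := by
    intro n
    have hval : ∀ i, (Pool.Agent.W25.UN.Fm α h 0 i n).toNat = a i * n + b i := by
      intro i
      rw [hFm]
      have h13 : ((a i : ℤ) * (n : ℤ) + b i) = ((a i * n + b i : ℕ) : ℤ) := by push_cast; ring
      rw [h13, Int.toNat_natCast]
    simp only [hval]
  have hsubN : ∀ N : ℕ, (Icc 1 N).filter (fun n : ℕ => n ≡ v [MOD (Pool.Agent.H410R2.WW D)] ∧
        (N : ℝ) / 16 ≤ n ∧ (n : ℝ) ≤ (N : ℝ) / 2 ∧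
        M + 1 ≤ (univ.filter (fun g : Fin T => ∃ i, cl i = g ∧
          (Pool.Agent.W25.UN.Fm α h 0 i n).toNat.Prime)).card) ⊆
        (Icc 1 N).filter (fun n : ℕ =>
        M + 1 ≤ (univ.filter (fun g : Fin T => ∃ i, cl i = g ∧ (a i * n + b i).Prime)).card) := by
    intro N n hn
    rw [Finset.mem_filter] at hn ⊢
    have h12 := hn.2.2.2.2
    rw [hcls n] at h12
    exact ⟨hn.1, h12⟩
  -- from natural to real numbers
  have hfl := (tendsto_nat_floor_atTop (α := ℝ)).eventually hmain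
  have h2η : ∀ᶠ x : ℝ in atTop, (2 : ℝ) ≤ x ^ (η / 2) :=
    (tendsto_rpow_atTop (by linarith)).eventually_ge_atTop 2
  rcases le_or_gt 1 η with hη1 | hη1
  · filter_upwards [hfl, eventually_ge_atTop (1 : ℝ), eventually_ge_atTop (1 : ℝ)]
      with x hx hx1 _
    have h5 := hx 0 (Nat.zero_le _) hnd (hpos _) v hv
    have h6 : x ^ (1 - η) ≤ 1 := by
      calc x ^ (1 - η) ≤ x ^ (0 : ℝ) := Real.rpow_le_rpow_of_exponent_le hx1 (by linarith)
        _ = 1 := Real.rpow_zero x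
    have h7 : 1 ≤ ⌊x⌋₊ := Nat.le_floor (by exact_mod_cast hx1)
    have h8 : 0 < ((⌊x⌋₊ : ℕ) : ℝ) ^ (1 - η / 2) := by
      apply Real.rpow_pos_of_pos
      exact_mod_cast h7
    have h9 := lt_of_lt_of_le h8 h5
    have h10 : 0 < (((Icc 1 ⌊x⌋₊).filter (fun n : ℕ => n ≡ v [MOD (Pool.Agent.H410R2.WW D)] ∧
        ((⌊x⌋₊ : ℕ) : ℝ) / 16 ≤ n ∧ (n : ℝ) ≤ ((⌊x⌋₊ : ℕ) : ℝ) / 2 ∧
        M + 1 ≤ (univ.filter (fun g : Fin T => ∃ i, cl i = g ∧
          (Pool.Agent.W25.UN.Fm α h 0 i n).toNat.Prime)).card)).card) := by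
      exact_mod_cast h9
    have h11 : (1 : ℝ) ≤ (((Icc 1 ⌊x⌋₊).filter (fun n : ℕ => n ≡ v [MOD (Pool.Agent.H410R2.WW D)] ∧
        ((⌊x⌋₊ : ℕ) : ℝ) / 16 ≤ n ∧ (n : ℝ) ≤ ((⌊x⌋₊ : ℕ) : ℝ) / 2 ∧
        M + 1 ≤ (univ.filter (fun g : Fin T => ∃ i, cl i = g ∧
          (Pool.Agent.W25.UN.Fm α h 0 i n).toNat.Prime)).card)).card : ℝ) := by
      exact_mod_cast h10
    refine h6.trans (h11.trans ?_)
    have hsub := hsubN ⌊x⌋₊
    exact_mod_cast Finset.card_le_card hsub
  · filter_upwards [hfl, eventually_ge_atTop (2 : ℝ), h2η] with x hx hx1 hx2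
    have h5 := hx 0 (Nat.zero_le _) hnd (hpos _) v hv
    have hx0 : 0 < x := by linarith
    have h7 : x / 2 ≤ ((⌊x⌋₊ : ℕ) : ℝ) := by
      have := Nat.lt_floor_add_one x
      linarith
    have h8 : x ^ (1 - η) ≤ ((⌊x⌋₊ : ℕ) : ℝ) ^ (1 - η / 2) := by
      have h9 : (x / 2) ^ (1 - η / 2) ≤ ((⌊x⌋₊ : ℕ) : ℝ) ^ (1 - η / 2) :=
        Real.rpow_le_rpow (by linarith) h7 (by linarith)
      refine le_trans ?_ h9
      rw [Real.div_rpow hx0.le (by norm_num), le_div_iff₀ (by positivity)]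
      have h10 : (2 : ℝ) ^ (1 - η / 2) ≤ 2 := by
        calc (2 : ℝ) ^ (1 - η / 2) ≤ (2 : ℝ) ^ (1 : ℝ) :=
              Real.rpow_le_rpow_of_exponent_le (by norm_num) (by linarith)
          _ = 2 := Real.rpow_one 2
      calc x ^ (1 - η) * (2 : ℝ) ^ (1 - η / 2) ≤ x ^ (1 - η) * x ^ (η / 2) := by
            apply mul_le_mul_of_nonneg_left (h10.trans hx2) (by positivity)
        _ = x ^ (1 - η / 2) := by
            rw [← Real.rpow_add hx0]
            congr 1
            ring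
    refine h8.trans (h5.trans ?_)
    have hsub := hsubN ⌊x⌋₊
    exact_mod_cast Finset.card_le_card hsub

/-- the coloured Maynard-Tao theorem, integer forms, a proportion above one quarter of the classes -/
def QuarterC : Prop := ∃ c₀ : ℝ, 0 < c₀ ∧ c₀ < 1 ∧ ∀ T M : ℕ, 1 ≤ T → (4 - c₀) * M < T →
  ∃ K : ℕ, 1 ≤ K ∧ ∀ (a b : Fin T → Fin K → ℤ), (∀ g i, 0 < a g i) →
    Function.Injective (fun x : Fin T × Fin K => (a x.1 x.2, b x.1 x.2)) →
    (∀ p : ℕ, p.Prime → ∃ n : ℤ, ∀ g i, ¬ ((p : ℤ) ∣ a g i * n + b g i)) →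
    ∃ (S : Finset (Fin T)) (c : Fin T → Fin K), M + 1 ≤ S.card ∧
      Big {n : ℕ | ∀ g ∈ S, 0 < a g (c g) * (n : ℤ) + b g (c g) ∧
        Prime (a g (c g) * (n : ℤ) + b g (c g))}

theorem quarterC : QuarterC := by
  classical
  obtain ⟨c₀, hc₀, hc₁, hcoreC⟩ := core_quantC
  refine ⟨c₀, hc₀, hc₁, ?_⟩
  intro T M hT hTM
  obtain ⟨K, hK2, hcore⟩ := hcoreC T M hT hTM
  refine ⟨K, by omega, ?_⟩
  intro a b ha hinj hadm
  set e : Fin T × Fin K ≃ Fin (T * K) := finProdFinEquiv with he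
  set A : Fin (T * K) → ℕ := fun i => (a (e.symm i).1 (e.symm i).2).toNat with hA
  set B : Fin (T * K) → ℤ := fun i => b (e.symm i).1 (e.symm i).2 with hB
  have hAz : ∀ i, (A i : ℤ) = a (e.symm i).1 (e.symm i).2 := fun i =>
    Int.toNat_of_nonneg (ha _ _).le
  obtain ⟨N, b', hbz, hb1, hnp, hadm'⟩ := shift_forms A B
    (fun i => by have := ha (e.symm i).1 (e.symm i).2; rw [← hAz] at this; exact_mod_cast this)
    (by
      intro i j hij
      simp only [Prod.mk.injEq] at hij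
      have h1 : a (e.symm i).1 (e.symm i).2 = a (e.symm j).1 (e.symm j).2 := by
        rw [← hAz, ← hAz, hij.1]
      have h2 : (e.symm i) = (e.symm j) := hinj (by
        simp only [Prod.mk.injEq]
        exact ⟨h1, hij.2⟩)
      exact e.symm.injective h2)
    (by
      intro p hp
      obtain ⟨n, hn⟩ := hadm p hp
      refine ⟨n, fun i => ?_⟩
      rw [hAz]
      exact hn _ _)
  set cl : Fin (T * K) → Fin T := fun i => (e.symm i).1 with hcl
  have hcard : ∀ g, (univ.filter (fun i => cl i = g)).card = K := by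
    intro g
    have h1 : (univ.filter (fun i => cl i = g)) = univ.image (fun j : Fin K => e (g, j)) := by
      ext i
      simp only [mem_filter, mem_univ, true_and, mem_image]
      constructor
      · intro h
        refine ⟨(e.symm i).2, ?_⟩
        rw [Equiv.apply_eq_iff_eq_symm_apply]
        exact Prod.ext h.symm rfl
      · rintro ⟨j, rfl⟩
        simp [hcl]
    rw [h1, Finset.card_image_of_injective _ (by
      intro j j' h
      have := e.injective h
      simpa using this)]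
    simp
  have hmain := hcore A b' cl hcard
    (fun i => by
      have := ha (e.symm i).1 (e.symm i).2; rw [← hAz] at this
      exact_mod_cast this) hb1 hnp hadm'
  -- the set of classes and representatives
  set P : ℕ → Finset (Fin T) := fun n => univ.filter (fun g : Fin T => ∃ i, cl i = g ∧
    (A i * n + b' i).Prime) with hP
  have hG : ∀ η : ℝ, 0 < η → ∀ᶠ x : ℝ in atTop,
      x ^ (1 - η) ≤ ({n : ℕ | n ∈ {n : ℕ | M + 1 ≤ (P n).card} ∧ (n : ℝ) ≤ x}.ncard : ℝ) := by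
    intro η hη
    filter_upwards [hmain η hη, eventually_ge_atTop (0 : ℝ)] with x hx hx0
    refine hx.trans ?_
    rw [← Set.ncard_coe_finset]
    have hsub : (((Icc 1 ⌊x⌋₊).filter (fun n : ℕ => M + 1 ≤ (univ.filter (fun g : Fin T =>
        ∃ i, cl i = g ∧ (A i * n + b' i).Prime)).card) : Finset ℕ) : Set ℕ) ⊆
        {n : ℕ | n ∈ {n : ℕ | M + 1 ≤ (P n).card} ∧ (n : ℝ) ≤ x} := by
      intro n hn
      rw [Finset.mem_coe, Finset.mem_filter, Finset.mem_Icc] at hn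
      exact ⟨hn.2, (Nat.cast_le.2 hn.1.2).trans (Nat.floor_le hx0)⟩
    exact_mod_cast Set.ncard_le_ncard hsub (fin_le _ x)
  have hK0 : 0 < K := by omega
  have hch : ∀ n, ∃ c : Fin T → Fin K, ∀ g ∈ P n, (A (e (g, c g)) * n + b' (e (g, c g))).Prime := by
    intro n
    have h1 : ∀ g : Fin T, ∃ j : Fin K, g ∈ P n → (A (e (g, j)) * n + b' (e (g, j))).Prime := by
      intro g
      by_cases hg : g ∈ P n
      · obtain ⟨i, hi1, hi2⟩ := (mem_filter.1 hg).2
        refine ⟨(e.symm i).2, fun _ => ?_⟩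
        have h2 : e (g, (e.symm i).2) = i := by
          rw [Equiv.apply_eq_iff_eq_symm_apply]
          exact Prod.ext hi1.symm rfl
        rw [h2]; exact hi2
      · exact ⟨⟨0, hK0⟩, fun h => absurd h hg⟩
    choose c hc using h1
    exact ⟨c, fun g hg => hc g hg⟩
  choose cf hcf using hch
  have hcover : {n : ℕ | M + 1 ≤ (P n).card} ⊆
      ⋃ x : Finset (Fin T) × (Fin T → Fin K), {n : ℕ | M + 1 ≤ x.1.card ∧ P n = x.1 ∧ cf n = x.2} := by
    intro n hn
    exact Set.mem_iUnion.2 ⟨(P n, cf n), hn, rfl, rfl⟩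
  obtain ⟨⟨S, c⟩, hS⟩ := big_of_cover _ _ hG hcover
  have hSc : M + 1 ≤ S.card := by
    obtain ⟨n, hn⟩ := hS.infinite.nonempty
    exact hn.1
  refine ⟨S, c, hSc, ?_⟩
  refine hS.affine 1 N le_rfl (fun n => n + N) (fun n _ => by push_cast; ring) ?_
  rintro n ⟨_, h2, h3⟩
  intro g hg
  have h4 := hcf n g (by rw [h2]; exact hg)
  rw [h3] at h4
  have e1 : (a g (c g) * ((n + N : ℕ) : ℤ) + b g (c g)) =
      ((A (e (g, c g)) * n + b' (e (g, c g)) : ℕ) : ℤ) := by
    push_cast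
    rw [hbz, hAz]
    simp only [hB, Equiv.symm_apply_apply]
    ring
  rw [e1]
  exact ⟨by exact_mod_cast h4.pos, Nat.prime_iff_prime_int.1 h4⟩

end Pool.Agent.TH899.UG
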