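import Mathlib
import Pool.Agent.TH899.UG.Qc

/-! Convenient forms of the coloured Maynard-Tao theorem above one quarter. -/

set_option autoImplicit false

namespace Pool.Agent.TH899.UG

open Finset Filter
open Pool.Agent.H361R2 Pool.Agent.H362R2.CM
open Pool.Agent.H732R3.BigQ

/-- the direct analogue of `QuarterB` -/
def QuarterD : Prop := ∃ c₀ : ℝ, 0 < c₀ ∧ c₀ < 1 ∧ ∀ T : ℕ,
  ∃ K : ℕ, 1 ≤ K ∧ ∀ (a b : Fin T → Fin K → ℤ), (∀ g i, 0 < a g i) →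
    Function.Injective (fun x : Fin T × Fin K => (a x.1 x.2, b x.1 x.2)) →
    (∀ p : ℕ, p.Prime → ∃ n : ℤ, ∀ g i, ¬ ((p : ℤ) ∣ a g i * n + b g i)) →
    ∃ (S : Finset (Fin T)) (c : Fin T → Fin K), (T : ℝ) ≤ (4 - c₀) * S.card ∧
      Big {n : ℕ | ∀ g ∈ S, 0 < a g (c g) * (n : ℤ) + b g (c g) ∧
        Prime (a g (c g) * (n : ℤ) + b g (c g))}

theorem quarterD : QuarterD := by
  obtain ⟨c₀, hc₀, hc₁, H⟩ := quarterC
  refine ⟨c₀, hc₀, hc₁, ?_⟩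
  intro T
  rcases Nat.eq_zero_or_pos T with hT | hT
  · subst hT
    refine ⟨1, le_rfl, ?_⟩
    intro a b _ _ _
    refine ⟨∅, fun _ => 0, by simp, ?_⟩
    simpa using big_univ
  have h4 : (0 : ℝ) < 4 - c₀ := by linarith
  set M : ℕ := ⌈(T : ℝ) / (4 - c₀)⌉₊ - 1 with hM
  have hceil : 1 ≤ ⌈(T : ℝ) / (4 - c₀)⌉₊ := by
    rw [Nat.one_le_ceil_iff]
    positivity
  have hM1 : (M : ℝ) + 1 = ⌈(T : ℝ) / (4 - c₀)⌉₊ := by
    have : M + 1 = ⌈(T : ℝ) / (4 - c₀)⌉₊ := by omega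
    exact_mod_cast this
  have hlt : (M : ℝ) < (T : ℝ) / (4 - c₀) := by
    have := Nat.ceil_lt_add_one (a := (T : ℝ) / (4 - c₀)) (by positivity)
    linarith
  have hTM : (4 - c₀) * M < T := by
    rw [lt_div_iff₀ h4] at hlt
    linarith
  obtain ⟨K, hK, H⟩ := H T M hT hTM
  refine ⟨K, hK, ?_⟩
  intro a b ha hinj hadm
  obtain ⟨S, c, hS, hB⟩ := H a b ha hinj hadm
  refine ⟨S, c, ?_, hB⟩
  have h1 : (T : ℝ) / (4 - c₀) ≤ S.card := by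
    calc (T : ℝ) / (4 - c₀) ≤ ⌈(T : ℝ) / (4 - c₀)⌉₊ := Nat.le_ceil _
      _ = (M : ℝ) + 1 := hM1.symm
      _ ≤ S.card := by exact_mod_cast hS
  rw [div_le_iff₀ h4] at h1
  linarith

/-- two of four classes -/
def FourC : Prop := ∃ K : ℕ, 1 ≤ K ∧ ∀ (a b : Fin 4 → Fin K → ℤ), (∀ g i, 0 < a g i) →
    Function.Injective (fun x : Fin 4 × Fin K => (a x.1 x.2, b x.1 x.2)) →
    (∀ p : ℕ, p.Prime → ∃ n : ℤ, ∀ g i, ¬ ((p : ℤ) ∣ a g i * n + b g i)) →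
    ∃ (S : Finset (Fin 4)) (c : Fin 4 → Fin K), 2 ≤ S.card ∧
      Big {n : ℕ | ∀ g ∈ S, 0 < a g (c g) * (n : ℤ) + b g (c g) ∧
        Prime (a g (c g) * (n : ℤ) + b g (c g))}

theorem fourC : FourC := by
  obtain ⟨c₀, hc₀, hc₁, H⟩ := quarterC
  obtain ⟨K, hK, H⟩ := H 4 1 (by norm_num) (by push_cast; linarith)
  exact ⟨K, hK, H⟩

end Pool.Agent.TH899.UG
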