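import Mathlib
import Pool.Agent.TH899.UG.AAP
import Pool.Agent.TH899.UG.Qd

/-! Almost all admissible tuples have more than a quarter of their members simultaneously prime,
many times; exceptional set with a power saving. -/

set_option autoImplicit false

namespace Pool.Agent.TH899.UG

open Finset Pool.Agent.H361R2 Pool.Agent.H362R2.CM
open Pool.Agent.H732R3.BigQ

/-- at least `1 / (4 - c)` of the classes -/
def PropHit (c : ℝ) (T : ℕ) (S : Finset (Fin T)) : Prop := (T : ℝ) ≤ (4 - c) * S.card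

theorem hitP_prop : ∃ c : ℝ, 0 < c ∧ c < 1 ∧ ∀ T : ℕ, HitP T (PropHit c T) Big := by
  obtain ⟨c, hc, hc1, H⟩ := quarterD
  refine ⟨c, hc, hc1, fun T => ?_⟩
  obtain ⟨K, hK, H⟩ := H T
  exact ⟨K, hK, H⟩

/-- **almost all admissible tuples**, above one quarter, with a power saving -/
theorem almost_all_quarter : ∃ c : ℝ, 0 < c ∧ c < 1 ∧ ∀ T : ℕ, ∃ C δ : ℝ, 0 < δ ∧ ∀ N : ℕ, 1 ≤ N →
    ∀ V : Fin T → Finset (ℤ × ℤ), (∀ i, ∀ f ∈ V i, 0 < f.1) → (∀ i, N ≤ (V i).card) →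
    ({f : Fin T → ℤ × ℤ | (∀ i, f i ∈ V i) ∧
      (∀ p : ℕ, p.Prime → ∃ n : ℤ, ∀ i, ¬ ((p : ℤ) ∣ (f i).1 * n + (f i).2)) ∧
      ¬ ∃ S : Finset (Fin T), (T : ℝ) ≤ (4 - c) * S.card ∧
        Big {n : ℕ | ∀ i ∈ S, 0 < (f i).1 * (n : ℤ) + (f i).2 ∧
          Prime ((f i).1 * (n : ℤ) + (f i).2)}}.ncard : ℝ) ≤
      C * (N : ℝ) ^ (-δ) * ∏ i, ((V i).card : ℝ) := by
  classical
  obtain ⟨c, hc, hc1, H⟩ := hitP_prop
  refine ⟨c, hc, hc1, fun T => ?_⟩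
  obtain ⟨C, δ, -, hδ, -, hN⟩ := almost_all_pow T (PropHit c T) Big (H T)
  refine ⟨C, δ, hδ, fun N hN1 V h1 h2 => ?_⟩
  refine le_trans (le_of_eq ?_) (hN N hN1 V h1 h2)
  rw [← Set.ncard_coe_finset]
  congr 2
  ext f
  simp only [Set.mem_ofPred_eq, coe_filter, Fintype.mem_piFinset]
  rfl

end Pool.Agent.TH899.UG
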