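import Mathlib
import Pool.Agent.TH899.UG.ExU
import Pool.Agent.TH899.UG.Dich

/-! Goldbach density or de Polignac: the input from the coloured Maynard-Tao theorem. -/

set_option autoImplicit false

namespace Pool.Agent.TH899.UG.GD

open Finset Filter Topology
open Pool.Agent.TH899.UG.Uni

/-- the number of the primes `p ≤ 3 N` with `p + h` prime -/
noncomputable def difc (N h : ℕ) : ℕ := by
  classical exact ((Icc 1 (3 * N)).filter (fun p : ℕ => p.Prime ∧ (p + h).Prime)).card

/-- the number of the primes `p ≤ 3 N` with `a p + c` prime -/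
noncomputable def golc (N : ℕ) (a c : ℤ) : ℕ := by
  classical exact ((Icc 1 (3 * N)).filter (fun p : ℕ => p.Prime ∧ (a * p + c).toNat.Prime)).card

/-- slope of the class -/
def sl (a : ℤ) (g : Fin 4) : ℤ := if g = 0 ∨ g = 1 then 1 else a

/-- base constant of the class -/
def bs (β : ℤ) (g : Fin 4) : ℤ := if g = 0 ∨ g = 1 then 0 else β

theorem toNat_eq' {x : ℤ} (h : x.toNat.Prime) : ((x.toNat : ℕ) : ℤ) = x := by
  apply Int.toNat_of_nonneg
  by_contra hcon
  have h1 : x.toNat = 0 := Int.toNat_of_nonpos (by omega)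
  rw [h1] at h
  exact Nat.not_prime_zero h

open Classical in
/-- **the input** -/
theorem core : ∃ K : ℕ, 1 ≤ K ∧ ∀ η : ℝ, 0 < η → ∀ᶠ N : ℕ in atTop,
    ∀ (a : ℤ), (a = 1 ∨ a = -1) → ∀ (β : ℕ) (A : Fin 4 → Fin K → ℕ),
      (∀ g, Function.Injective (A g)) → (∀ i j, A 1 i < A 0 j) → (∀ i j, A 3 i < A 2 j) →
      (∀ g i, 60 * A g i ≤ N) → (∀ g i, A g i < β) → (∀ g i, 5 * (β + A g i) ≤ 6 * N) →
      (∀ y : ℝ, (N : ℝ) / 16 ≤ y → y ≤ N / 2 → (N : ℝ) / 30 ≤ a * y + β) →
      (∀ p : ℕ, p.Prime → p ≤ 4 * K → ∃ n : ℤ, ∀ g i,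
        ¬ ((p : ℤ) ∣ sl a g * n + (bs β g + A g i))) →
      (∃ i j, (N : ℝ) ^ (1 - η) ≤ difc N (A 0 i - A 1 j)) ∨
      (∃ i j, (N : ℝ) ^ (1 - η) ≤ difc N (A 2 i - A 3 j)) ∨
      (∃ g g' : Fin 4, (g = 0 ∨ g = 1) ∧ (g' = 2 ∨ g' = 3) ∧ ∃ i j,
        (N : ℝ) ^ (1 - η) ≤ golc N a (β + A g' j - a * A g i)) := by
  obtain ⟨c, hc, hc1, H⟩ := exactU
  obtain ⟨K, hK, H⟩ := H 4 1 (by norm_num) (by push_cast; linarith)
  refine ⟨K, hK, fun η hη => ?_⟩
  filter_upwards [H 1 η hη, eventually_ge_atTop 1] with N hN hN1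
  intro a ha β A hinj h10 h32 hN60 hAβ hb hpos hloc
  have hNz : (0 : ℤ) ≤ N := Nat.cast_nonneg _
  have hsl : ∀ g, sl a g = 1 ∨ sl a g = -1 := by
    intro g
    unfold sl
    split_ifs
    · exact Or.inl rfl
    · exact ha
  have hslne : ∀ g, sl a g ≠ 0 := by
    intro g
    rcases hsl g with h | h <;> rw [h] <;> decide
  obtain ⟨S, σ, hS, hcnt⟩ := hN (fun g _ => sl a g) (fun g i => bs β g + A g i)
    (fun g _ => hslne g)
    (fun g _ => by rcases hsl g with h | h <;> rw [h] <;> simp)
    (fun g i => by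
      have h1 := hb g i
      have h2 := hN60 g i
      show 5 * |bs β g + A g i| ≤ 6 * (N : ℤ)
      unfold bs
      split_ifs
      · rw [zero_add, abs_of_nonneg (Nat.cast_nonneg _)]
        omega
      · rw [abs_of_nonneg (by positivity)]
        omega)
    (fun g i y h1 h2 => by
      have h3 : (0 : ℝ) ≤ (A g i : ℝ) := Nat.cast_nonneg _
      have h4 : (0 : ℝ) ≤ N := Nat.cast_nonneg _
      have h5 := hpos y h1 h2
      unfold sl bs
      split_ifs
      · push_cast
        linarith
      · push_cast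
        linarith)
    (by
      rintro ⟨g, i⟩ ⟨g', i'⟩ h
      have h1 : bs β g + A g i = bs β g' + A g' i' := congrArg Prod.snd h
      have h3 : g = g' := by
        by_contra hne
        have k1 := h10
        have k2 := h32
        have a1 := hAβ g i
        have a2 := hAβ g' i'
        unfold bs at h1
        fin_cases g <;> fin_cases g' <;> simp at h1 hne a1 a2
        all_goals first
          | (have := k1 i i'; omega)
          | (have := k1 i' i; omega)
          | (have := k2 i i'; omega)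
          | (have := k2 i' i; omega)
          | omega
      subst h3
      have h4 : A g i = A g i' := by
        have h5 : ((A g i : ℕ) : ℤ) = A g i' := by linarith
        exact_mod_cast h5
      rw [hinj g h4])
    (by
      intro p hp
      by_cases hpn : p ≤ 4 * K
      · exact hloc p hp hpn
      · haveI := Fact.mk hp
        let f : Fin 4 × Fin K → ZMod p := fun x =>
          - ((bs β x.1 + A x.1 x.2 : ℤ) : ZMod p) / ((sl a x.1 : ℤ) : ZMod p)
        have hal : ∀ g, ((sl a g : ℤ) : ZMod p) ≠ 0 := by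
          intro g
          rcases hsl g with h | h <;> rw [h] <;> simp
        have hcard : (univ.image f).card < (univ : Finset (ZMod p)).card := by
          rw [card_univ, ZMod.card]
          have h2 : (univ.image f).card ≤ 4 * K := by
            refine card_image_le.trans ?_
            rw [card_univ, Fintype.card_prod, Fintype.card_fin, Fintype.card_fin]
          omega
        obtain ⟨w, -, hw⟩ := Finset.exists_mem_notMem_of_card_lt_card hcard
        refine ⟨(w.val : ℤ), fun g i hd => hw (mem_image.2 ⟨(g, i), mem_univ _, ?_⟩)⟩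
        rw [← ZMod.intCast_zmod_eq_zero_iff_dvd] at hd
        push_cast at hd
        rw [ZMod.natCast_zmod_val] at hd
        show - ((bs β g + A g i : ℤ) : ZMod p) / ((sl a g : ℤ) : ZMod p) = w
        rw [div_eq_iff (hal _)]
        push_cast
        linear_combination -hd)
  -- two different classes
  have hle : ∀ g ∈ S, ∀ g' ∈ S, (N : ℝ) ^ (1 - η) ≤ (((Icc 1 N).filter (fun n : ℕ =>
      (sl a g * n + (bs β g + A g (σ g))).toNat.Prime ∧
      (sl a g' * n + (bs β g' + A g' (σ g'))).toNat.Prime)).card : ℝ) := by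
    intro g hg g' hg'
    refine hcnt.trans ?_
    rw [Nat.cast_le]
    apply card_le_card
    intro n hn
    rw [mem_filter] at hn ⊢
    exact ⟨hn.1, hn.2 g hg, hn.2 g' hg'⟩
  -- same side
  have hsame : ∀ (a' β' : ℤ) (x y : ℕ), (a' = 1 ∨ a' = -1) → 0 ≤ β' → y < x →
      5 * (β' + y) ≤ 6 * N →
      ((Icc 1 N).filter (fun n : ℕ => (a' * n + (β' + x)).toNat.Prime ∧
        (a' * n + (β' + y)).toNat.Prime)).card ≤ difc N (x - y) := by
    intro a' β' x y ha' hβ' hxy hy
    unfold difc
    refine card_le_card_of_injOn (fun n : ℕ => (a' * n + (β' + y)).toNat) ?_ ?_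
    · intro n hn
      obtain ⟨h1, h2, h3⟩ := mem_filter.1 (mem_coe.1 hn)
      have h4 := toNat_eq' h2
      have h5 := toNat_eq' h3
      have h6 := mem_Icc.1 h1
      refine mem_coe.2 (mem_filter.2 ⟨mem_Icc.2 ⟨h3.one_lt.le, ?_⟩, h3, ?_⟩)
      · show (a' * n + (β' + y)).toNat ≤ 3 * N
        have h7 : (a' * n + (β' + y)) ≤ 3 * N := by
          rcases ha' with h | h <;> rw [h] <;> omega
        omega
      · show ((a' * n + (β' + y)).toNat + (x - y)).Prime
        have h7 : (a' * n + (β' + y)).toNat + (x - y) = (a' * n + (β' + x)).toNat := by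
          omega
        rw [h7]
        exact h2
    · intro n hn n' hn' hnn
      have h5 := toNat_eq' (mem_filter.1 (mem_coe.1 hn)).2.2
      have h6 := toNat_eq' (mem_filter.1 (mem_coe.1 hn')).2.2
      have h7 : (a' * n + (β' + y)).toNat = (a' * n' + (β' + y)).toNat := hnn
      rw [h7, h6] at h5
      rcases ha' with h | h <;> rw [h] at h5 <;> omega
  -- different sides
  have hdiff : ∀ (x y : ℕ), 60 * x ≤ N →
      ((Icc 1 N).filter (fun n : ℕ => (1 * (n : ℤ) + (0 + x)).toNat.Prime ∧
        (a * n + (β + y)).toNat.Prime)).card ≤ golc N a (β + y - a * x) := by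
    intro x y hx
    unfold golc
    refine card_le_card_of_injOn (fun n : ℕ => n + x) ?_ ?_
    · intro n hn
      obtain ⟨h1, h2, h3⟩ := mem_filter.1 (mem_coe.1 hn)
      have h6 := mem_Icc.1 h1
      have e1 : (1 * (n : ℤ) + (0 + x)).toNat = n + x := by omega
      rw [e1] at h2
      refine mem_coe.2 (mem_filter.2 ⟨mem_Icc.2 ⟨h2.one_lt.le, ?_⟩, h2, ?_⟩)
      · show n + x ≤ 3 * N
        omega
      · show (a * ((n + x : ℕ) : ℤ) + (β + y - a * x)).toNat.Prime
        have e2 : a * ((n + x : ℕ) : ℤ) + (β + y - a * x) = a * n + (β + y) := by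
          push_cast; ring
        rw [e2]
        exact h3
    · intro n _ n' _ hnn
      have h7 : n + x = n' + x := hnn
      omega
  obtain ⟨g, hg, g', hg', hne⟩ : ∃ g ∈ S, ∃ g' ∈ S, g ≠ g' := by
    have h1 : 1 < S.card := by omega
    obtain ⟨g, hg, g', hg', hne⟩ := Finset.one_lt_card.1 h1
    exact ⟨g, hg, g', hg', hne⟩
  have hβ0 : (0 : ℤ) ≤ β := Nat.cast_nonneg _
  -- symmetric: assume the smaller first
  have key : ∀ g ∈ S, ∀ g' ∈ S, g < g' →
      (∃ i j, (N : ℝ) ^ (1 - η) ≤ difc N (A 0 i - A 1 j)) ∨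
      (∃ i j, (N : ℝ) ^ (1 - η) ≤ difc N (A 2 i - A 3 j)) ∨
      (∃ g g' : Fin 4, (g = 0 ∨ g = 1) ∧ (g' = 2 ∨ g' = 3) ∧ ∃ i j,
        (N : ℝ) ^ (1 - η) ≤ golc N a (β + A g' j - a * A g i)) := by
    intro g hg g' hg' hlt
    have h1 := hle g hg g' hg'
    by_cases hg1 : g' = 1
    · -- 0, 1
      have hg0 : g = 0 := by
        subst hg1
        omega
      subst hg1 hg0
      left
      refine ⟨σ 0, σ 1, h1.trans ?_⟩
      have h2 := hsame 1 0 (A 0 (σ 0)) (A 1 (σ 1)) (Or.inl rfl) le_rfl (h10 _ _) (by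
        have := hN60 1 (σ 1)
        omega)
      have h3 : ((Icc 1 N).filter (fun n : ℕ =>
          (sl a 0 * n + (bs β 0 + A 0 (σ 0))).toNat.Prime ∧
          (sl a 1 * n + (bs β 1 + A 1 (σ 1))).toNat.Prime)).card ≤
          difc N (A 0 (σ 0) - A 1 (σ 1)) := by
        simpa [sl, bs] using h2
      exact_mod_cast h3
    · by_cases hg2 : g = 2
      · have hg3 : g' = 3 := by
          subst hg2
          omega
        subst hg2 hg3
        right; left
        refine ⟨σ 2, σ 3, h1.trans ?_⟩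
        have h2 := hsame a β (A 2 (σ 2)) (A 3 (σ 3)) ha hβ0 (h32 _ _) (by
          have := hb 3 (σ 3)
          omega)
        have h3 : ((Icc 1 N).filter (fun n : ℕ =>
            (sl a 2 * n + (bs β 2 + A 2 (σ 2))).toNat.Prime ∧
            (sl a 3 * n + (bs β 3 + A 3 (σ 3))).toNat.Prime)).card ≤
            difc N (A 2 (σ 2) - A 3 (σ 3)) := by
          simpa [sl, bs] using h2
        exact_mod_cast h3
      · right; right
        have hgg : g = 0 ∨ g = 1 := by omega
        have hgg' : g' = 2 ∨ g' = 3 := by omega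
        refine ⟨g, g', hgg, hgg', σ g, σ g', h1.trans ?_⟩
        have h2 := hdiff (A g (σ g)) (A g' (σ g')) (hN60 _ _)
        have e1 : sl a g = 1 := by unfold sl; rw [if_pos hgg]
        have e2 : bs β g = 0 := by unfold bs; rw [if_pos hgg]
        have hn' : ¬ (g' = 0 ∨ g' = 1) := by omega
        have e3 : sl a g' = a := by unfold sl; rw [if_neg hn']
        have e4 : bs β g' = β := by unfold bs; rw [if_neg hn']
        rw [e1, e2, e3, e4]
        exact_mod_cast h2
  rcases lt_or_gt_of_ne hne with h | h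
  · exact key g hg g' hg' h
  · exact key g' hg' g hg h

end Pool.Agent.TH899.UG.GD
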