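import Mathlib
import Pool.Agent.TH899.UG.GD1
import Pool.Agent.TH899.UG.BoxP

/-! Goldbach density or de Polignac: many solvable equations for every translation. -/

set_option autoImplicit false

namespace Pool.Agent.TH899.UG.GD

open Finset Filter Topology
open Pool.Agent.TH899.UG.Uni

open Classical in
/-- the number of the pairs of elements of `X` and `Y` with the property `G` -/
noncomputable def prs (G : ℤ → Prop) (β a : ℤ) (X Y : Finset ℕ) : ℕ :=
  ((X ×ˢ Y).filter (fun z : ℕ × ℕ => G (β + z.2 - a * z.1))).card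

open Classical in
theorem cnt (V : Fin 4 → Finset ℕ) (R : ℕ) (hV : ∀ i, (V i).card = R) (P : ℕ → ℕ → Prop)
    (g g1 g' g1' : Fin 4) (hall : ∀ k : Fin 4, k = g ∨ k = g1 ∨ k = g' ∨ k = g1') :
    ((Fintype.piFinset V).filter (fun f => P (f g) (f g'))).card ≤
      ((V g ×ˢ V g').filter (fun z : ℕ × ℕ => P z.1 z.2)).card * (R * R) := by
  have h1 : ((((V g ×ˢ V g').filter (fun z : ℕ × ℕ => P z.1 z.2)) ×ˢ (V g1 ×ˢ V g1'))).card =
      ((V g ×ˢ V g').filter (fun z : ℕ × ℕ => P z.1 z.2)).card * (R * R) := by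
    rw [card_product, card_product, hV, hV]
  rw [← h1]
  refine card_le_card_of_injOn (fun f => ((f g, f g'), (f g1, f g1'))) ?_ ?_
  · intro f hf
    obtain ⟨h2, h3⟩ := mem_filter.1 (mem_coe.1 hf)
    rw [Fintype.mem_piFinset] at h2
    exact mem_coe.2 (mem_product.2 ⟨mem_filter.2 ⟨mem_product.2 ⟨h2 _, h2 _⟩, h3⟩,
      mem_product.2 ⟨h2 _, h2 _⟩⟩)
  · intro f _ f' _ hff
    simp only [Prod.mk.injEq] at hff
    obtain ⟨⟨e1, e2⟩, e3, e4⟩ := hff
    funext k
    rcases hall k with h | h | h | h <;> rw [h] <;> assumption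

open Classical in
theorem per_t : ∃ K : ℕ, 1 ≤ K ∧ ∀ ε : ℝ, 0 < ε → ε ≤ 1 → ∃ R : ℕ, 1 ≤ R ∧ ∀ η : ℝ, 0 < η →
    ∀ᶠ N : ℕ in atTop, ∀ (a : ℤ), (a = 1 ∨ a = -1) → ∀ (β : ℕ) (P Q : Finset ℕ),
      P.card = R → Q.card = R → (∀ x ∈ P, ∀ y ∈ Q, y < x) →
      (∀ x ∈ P, 60 * x ≤ N) → (∀ x ∈ P, x < β) → (∀ x ∈ P, 5 * (β + x) ≤ 6 * N) →
      (∀ y : ℝ, (N : ℝ) / 16 ≤ y → y ≤ N / 2 → (N : ℝ) / 30 ≤ a * y + β) →
      (∀ p : ℕ, p.Prime → p ≤ 4 * K → ∃ n : ℤ, ∀ x ∈ P ∪ Q,
        ¬ ((p : ℤ) ∣ n + x) ∧ ¬ ((p : ℤ) ∣ a * n + (β + x))) →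
      (∀ x ∈ P, ∀ y ∈ Q, (difc N (x - y) : ℝ) < (N : ℝ) ^ (1 - η)) →
      (1 - ε) * (R : ℝ) ^ 2 ≤
        (prs (fun c => (N : ℝ) ^ (1 - η) ≤ golc N a c) β a P P : ℝ) +
        prs (fun c => (N : ℝ) ^ (1 - η) ≤ golc N a c) β a P Q +
        prs (fun c => (N : ℝ) ^ (1 - η) ≤ golc N a c) β a Q P +
        prs (fun c => (N : ℝ) ^ (1 - η) ≤ golc N a c) β a Q Q := by
  obtain ⟨K, hK, HC⟩ := core
  refine ⟨K, hK, fun ε hε hε1 => ?_⟩
  obtain ⟨C, E, hC, HB⟩ := box_pow K 4
  obtain ⟨R, hR⟩ := exists_nat_ge (C / ε ^ E)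
  have hR1 : 1 ≤ R := by
    by_contra h
    have h1 : R = 0 := by omega
    rw [h1, Nat.cast_zero] at hR
    have h2 : 0 < C / ε ^ E := by positivity
    linarith
  refine ⟨R, hR1, fun η hη => ?_⟩
  filter_upwards [HC η hη] with N hN
  intro a ha β P Q hP hQ hPQ hP60 hPβ hPb hpos hloc hno
  set G : ℤ → Prop := fun c => (N : ℝ) ^ (1 - η) ≤ golc N a c with hG
  have hK0 : 0 < K := hK
  have hPne : P.Nonempty := by rw [← card_pos, hP]; omega
  obtain ⟨x0, hx0⟩ := hPne
  have hQ60 : ∀ y ∈ Q, y < x0 := fun y hy => hPQ _ hx0 _ hy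
  set V : Fin 4 → Finset ℕ := ![P, Q, P, Q] with hV
  have hVc : ∀ i, (V i).card = R := by
    intro i
    fin_cases i
    · exact hP
    · exact hQ
    · exact hP
    · exact hQ
  set B := (Fintype.piFinset V).filter (fun f => ∀ g g' : Fin 4, (g = 0 ∨ g = 1) →
    (g' = 2 ∨ g' = 3) → ¬ G (β + f g' - a * f g)) with hB
  have hBlt : (B.card : ℝ) < ε * (R : ℝ) ^ 4 := by
    by_contra hcon
    rw [not_lt] at hcon
    have hprod : ∏ i, ((V i).card : ℝ) = (R : ℝ) ^ 4 := by
      simp only [hVc, prod_const, card_univ, Fintype.card_fin]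
    obtain ⟨A, hA1, hA2⟩ := HB ε hε hε1 ℕ V (fun i => by rw [hVc]; exact hR) B
      (filter_subset _ _) (by rw [hprod]; exact hcon)
    have hmem : ∀ g i, A g i ∈ V g := by
      intro g i
      have h1 := hA2 (fun _ => i)
      have h2 := (mem_filter.1 h1).1
      rw [Fintype.mem_piFinset] at h2
      exact h2 g
    have hPQ' : ∀ g i, A g i ∈ P ∪ Q := by
      intro g i
      have h1 := hmem g i
      rw [hV] at h1
      fin_cases g
      · exact mem_union_left _ h1
      · exact mem_union_right _ h1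
      · exact mem_union_left _ h1
      · exact mem_union_right _ h1
    have hle0 : ∀ x ∈ P ∪ Q, ∃ z ∈ P, x ≤ z := by
      intro x hx
      rcases mem_union.1 hx with h | h
      · exact ⟨x, h, le_rfl⟩
      · exact ⟨x0, hx0, (hQ60 x h).le⟩
    rcases hN a ha β A hA1 (fun i j => hPQ _ (hmem 0 j) _ (hmem 1 i))
      (fun i j => hPQ _ (hmem 2 j) _ (hmem 3 i))
      (fun g i => by
        obtain ⟨z, hz, h1⟩ := hle0 _ (hPQ' g i)
        have := hP60 z hz
        omega)
      (fun g i => by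
        obtain ⟨z, hz, h1⟩ := hle0 _ (hPQ' g i)
        have := hPβ z hz
        omega)
      (fun g i => by
        obtain ⟨z, hz, h1⟩ := hle0 _ (hPQ' g i)
        have := hPb z hz
        omega) hpos
      (fun p hp hpK => by
        obtain ⟨n, hn⟩ := hloc p hp hpK
        refine ⟨n, fun g i => ?_⟩
        obtain ⟨h1, h2⟩ := hn _ (hPQ' g i)
        unfold sl bs
        split_ifs
        · rw [one_mul, zero_add]
          exact h1
        · exact h2) with ⟨i, j, h⟩ | ⟨i, j, h⟩ | ⟨g, g', hg, hg', i, j, h⟩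
    · exact absurd h (not_le.2 (hno _ (hmem 0 i) _ (hmem 1 j)))
    · exact absurd h (not_le.2 (hno _ (hmem 2 i) _ (hmem 3 j)))
    · have h1 := hA2 (Function.update (fun _ => i) g' j)
      have h2 := (mem_filter.1 h1).2 g g' hg hg'
      have hgg : g ≠ g' := by
        rcases hg with h | h <;> rcases hg' with h' | h' <;> rw [h, h'] <;> decide
      simp only [Function.update_self, Function.update_of_ne hgg] at h2
      exact h2 h
  have hpi : ((Fintype.piFinset V).card : ℝ) = (R : ℝ) ^ 4 := by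
    rw [Fintype.card_piFinset]
    push_cast
    simp only [hVc, prod_const, card_univ, Fintype.card_fin]
  have hcov : (Fintype.piFinset V).card ≤ B.card +
      (prs G β a P P * (R * R) + prs G β a P Q * (R * R) + prs G β a Q P * (R * R) +
        prs G β a Q Q * (R * R)) := by
    have h02 := cnt V R hVc (fun x y => G (β + y - a * x)) 0 1 2 3 (by decide)
    have h03 := cnt V R hVc (fun x y => G (β + y - a * x)) 0 1 3 2 (by decide)
    have h12 := cnt V R hVc (fun x y => G (β + y - a * x)) 1 0 2 3 (by decide)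
    have h13 := cnt V R hVc (fun x y => G (β + y - a * x)) 1 0 3 2 (by decide)
    have hsub : Fintype.piFinset V ⊆ B ∪
        ((((Fintype.piFinset V).filter (fun f => G (β + f 2 - a * f 0))) ∪
        ((Fintype.piFinset V).filter (fun f => G (β + f 3 - a * f 0)))) ∪
        (((Fintype.piFinset V).filter (fun f => G (β + f 2 - a * f 1))) ∪
        ((Fintype.piFinset V).filter (fun f => G (β + f 3 - a * f 1))))) := by
      intro f hf
      by_cases hfB : f ∈ B
      · exact mem_union_left _ hfB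
      · refine mem_union_right _ ?_
        rw [hB, mem_filter, not_and] at hfB
        have h1 := hfB hf
        push Not at h1
        obtain ⟨g, g', hg, hg', h2⟩ := h1
        rcases hg with h | h <;> rcases hg' with h' | h' <;> rw [h, h'] at h2
        · exact mem_union_left _ (mem_union_left _ (mem_filter.2 ⟨hf, h2⟩))
        · exact mem_union_left _ (mem_union_right _ (mem_filter.2 ⟨hf, h2⟩))
        · exact mem_union_right _ (mem_union_left _ (mem_filter.2 ⟨hf, h2⟩))
        · exact mem_union_right _ (mem_union_right _ (mem_filter.2 ⟨hf, h2⟩))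
    have h4 := card_le_card hsub
    have h5 := card_union_le B
        ((((Fintype.piFinset V).filter (fun f => G (β + f 2 - a * f 0))) ∪
        ((Fintype.piFinset V).filter (fun f => G (β + f 3 - a * f 0)))) ∪
        (((Fintype.piFinset V).filter (fun f => G (β + f 2 - a * f 1))) ∪
        ((Fintype.piFinset V).filter (fun f => G (β + f 3 - a * f 1)))))
    have h6 := card_union_le
        (((Fintype.piFinset V).filter (fun f => G (β + f 2 - a * f 0))) ∪
        ((Fintype.piFinset V).filter (fun f => G (β + f 3 - a * f 0))))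
        (((Fintype.piFinset V).filter (fun f => G (β + f 2 - a * f 1))) ∪
        ((Fintype.piFinset V).filter (fun f => G (β + f 3 - a * f 1))))
    have h7 := card_union_le
        ((Fintype.piFinset V).filter (fun f => G (β + f 2 - a * f 0)))
        ((Fintype.piFinset V).filter (fun f => G (β + f 3 - a * f 0)))
    have h8 := card_union_le
        ((Fintype.piFinset V).filter (fun f => G (β + f 2 - a * f 1)))
        ((Fintype.piFinset V).filter (fun f => G (β + f 3 - a * f 1)))
    have e02 : ((V 0 ×ˢ V 2).filter (fun z : ℕ × ℕ => G (β + z.2 - a * z.1))).card =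
        prs G β a P P := rfl
    have e03 : ((V 0 ×ˢ V 3).filter (fun z : ℕ × ℕ => G (β + z.2 - a * z.1))).card =
        prs G β a P Q := rfl
    have e12 : ((V 1 ×ˢ V 2).filter (fun z : ℕ × ℕ => G (β + z.2 - a * z.1))).card =
        prs G β a Q P := rfl
    have e13 : ((V 1 ×ˢ V 3).filter (fun z : ℕ × ℕ => G (β + z.2 - a * z.1))).card =
        prs G β a Q Q := rfl
    rw [e02] at h02
    rw [e03] at h03
    rw [e12] at h12
    rw [e13] at h13
    omega
  have hcov' : (R : ℝ) ^ 4 ≤ B.card + ((prs G β a P P : ℝ) + prs G β a P Q + prs G β a Q P +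
      prs G β a Q Q) * (R : ℝ) ^ 2 := by
    rw [← hpi]
    have h1 : ((Fintype.piFinset V).card : ℝ) ≤ ((B.card +
      (prs G β a P P * (R * R) + prs G β a P Q * (R * R) + prs G β a Q P * (R * R) +
        prs G β a Q Q * (R * R)) : ℕ) : ℝ) := by exact_mod_cast hcov
    refine h1.trans (le_of_eq ?_)
    push_cast
    ring
  have hR2 : (0 : ℝ) < (R : ℝ) ^ 2 := by
    have : (0 : ℝ) < R := by exact_mod_cast hR1
    positivity
  have h9 : (1 - ε) * (R : ℝ) ^ 2 * (R : ℝ) ^ 2 ≤ ((prs G β a P P : ℝ) + prs G β a P Q +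
      prs G β a Q P + prs G β a Q Q) * (R : ℝ) ^ 2 := by
    nlinarith
  exact le_of_mul_le_mul_right h9 hR2

end Pool.Agent.TH899.UG.GD
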