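import Mathlib
import Pool.Agent.TH899.UG.GD2
import Pool.Agent.TH880.GPe

/-! Goldbach density or de Polignac: the average over the translations. -/

set_option autoImplicit false

namespace Pool.Agent.TH899.UG.GD

open Finset Filter Topology
open Pool.Agent.TH899.UG.Uni

/-- local conditions for one prime at least five -/
theorem loc5 (p : ℕ) (hp : p.Prime) (hp5 : 5 ≤ p) (a : ℤ) (ha : a = 1 ∨ a = -1) (β x1 x2 : ℤ) :
    ∃ n : ℤ, ¬ ((p : ℤ) ∣ n + x1) ∧ ¬ ((p : ℤ) ∣ n + x2) ∧ ¬ ((p : ℤ) ∣ a * n + (β + x1)) ∧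
      ¬ ((p : ℤ) ∣ a * n + (β + x2)) := by
  classical
  haveI := Fact.mk hp
  have hab : a * a = 1 := by rcases ha with h | h <;> rw [h] <;> norm_num
  let f : Fin 4 → ZMod p := ![((-x1 : ℤ) : ZMod p), ((-x2 : ℤ) : ZMod p),
    ((-(a * (β + x1)) : ℤ) : ZMod p), ((-(a * (β + x2)) : ℤ) : ZMod p)]
  have hcard : (univ.image f).card < (univ : Finset (ZMod p)).card := by
    rw [card_univ, ZMod.card]
    have h2 : (univ.image f).card ≤ 4 := by
      refine card_image_le.trans ?_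
      rw [card_univ, Fintype.card_fin]
    omega
  obtain ⟨w, -, hw⟩ := Finset.exists_mem_notMem_of_card_lt_card hcard
  have key : ∀ (i : Fin 4) (z : ℤ), f i = ((-z : ℤ) : ZMod p) → ¬ ((p : ℤ) ∣ (w.val : ℤ) + z) := by
    intro i z hz hd
    apply hw
    refine mem_image.2 ⟨i, mem_univ _, ?_⟩
    rw [hz]
    rw [← ZMod.intCast_zmod_eq_zero_iff_dvd] at hd
    push_cast at hd ⊢
    rw [ZMod.natCast_zmod_val] at hd
    linear_combination -hd
  have hmul : ∀ z : ℤ, (p : ℤ) ∣ a * (w.val : ℤ) + z → (p : ℤ) ∣ (w.val : ℤ) + a * z := by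
    intro z hz
    have h1 := dvd_mul_of_dvd_right hz a
    have h2 : a * (a * (w.val : ℤ) + z) = (w.val : ℤ) + a * z := by
      rw [mul_add, ← mul_assoc, hab, one_mul]
    rwa [h2] at h1
  exact ⟨(w.val : ℤ), key 0 x1 rfl, key 1 x2 rfl, fun h => key 2 _ rfl (hmul _ h),
    fun h => key 3 _ rfl (hmul _ h)⟩

/-- local conditions -/
theorem loc (a : ℤ) (ha : a = 1 ∨ a = -1) (β x1 x2 : ℤ) (h1 : 2 ∣ x1) (h2 : 2 ∣ x2) (hβ : 2 ∣ β)
    (h3 : 3 ∣ x1 - x2 ∨ 3 ∣ β - (1 - a) * (x1 + x2)) (p : ℕ) (hp : p.Prime) :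
    ∃ n : ℤ, ¬ ((p : ℤ) ∣ n + x1) ∧ ¬ ((p : ℤ) ∣ n + x2) ∧ ¬ ((p : ℤ) ∣ a * n + (β + x1)) ∧
      ¬ ((p : ℤ) ∣ a * n + (β + x2)) := by
  by_cases hp2 : p = 2
  · subst hp2
    refine ⟨1, ?_⟩
    push_cast
    rcases ha with h | h <;> subst h <;> omega
  by_cases hp3 : p = 3
  · subst hp3
    push_cast
    by_cases hx : 3 ∣ x1 - x2
    · have key : ∃ n : ℤ, (n = 0 ∨ n = 1 ∨ n = 2) ∧ ¬ ((3 : ℤ) ∣ n + x1) ∧
          ¬ ((3 : ℤ) ∣ a * n + (β + x1)) := by
        by_contra hcon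
        push Not at hcon
        have c0 := hcon 0 (Or.inl rfl)
        have c1 := hcon 1 (Or.inr (Or.inl rfl))
        have c2 := hcon 2 (Or.inr (Or.inr rfl))
        rcases ha with h | h <;> subst h <;> omega
      obtain ⟨n, -, k1, k2⟩ := key
      refine ⟨n, k1, ?_, k2, ?_⟩
      · intro h; omega
      · intro h
        apply k2
        have e : a * n + (β + x1) = (a * n + (β + x2)) + (x1 - x2) := by ring
        rw [e]
        exact dvd_add h hx
    · have hβ3 := h3.resolve_left hx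
      refine ⟨x1 + x2, by omega, by omega, ?_, ?_⟩
      · intro h
        have e : x1 + x2 + x1 = (a * (x1 + x2) + (β + x1)) - (β - (1 - a) * (x1 + x2)) := by ring
        have h4 : (3 : ℤ) ∣ x1 + x2 + x1 := by
          rw [e]; exact dvd_sub h hβ3
        omega
      · intro h
        have e : x1 + x2 + x2 = (a * (x1 + x2) + (β + x2)) - (β - (1 - a) * (x1 + x2)) := by ring
        have h4 : (3 : ℤ) ∣ x1 + x2 + x2 := by
          rw [e]; exact dvd_sub h hβ3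
        omega
  · have hp5 : 5 ≤ p := by
      have h4 := hp.two_le
      have h5 : p ≠ 4 := by rintro rfl; exact absurd hp (by norm_num)
      omega
    exact loc5 p hp hp5 a ha β x1 x2

/-- the number of the translations in a class modulo six -/
theorem cntT (D E b r : ℕ) (hr : r < 6) :
    (E - D) / 6 ≤ ((Ico D E).filter (fun t => (b + t) % 6 = r)).card := by
  classical
  have h1 : (range ((E - D) / 6)).card ≤ ((Ico D E).filter (fun t => (b + t) % 6 = r)).card := by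
    refine card_le_card_of_injOn (fun j => D + 6 * j + ((r + 6 - (b + D) % 6) % 6)) ?_ ?_
    · intro j hj
      have hj' := mem_range.1 (mem_coe.1 hj)
      refine mem_coe.2 (mem_filter.2 ⟨mem_Ico.2 ⟨?_, ?_⟩, ?_⟩)
      · show D ≤ D + 6 * j + ((r + 6 - (b + D) % 6) % 6)
        omega
      · show D + 6 * j + ((r + 6 - (b + D) % 6) % 6) < E
        omega
      · show (b + (D + 6 * j + ((r + 6 - (b + D) % 6) % 6))) % 6 = r
        omega
    · intro j _ j' _ hjj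
      have h2 : D + 6 * j + ((r + 6 - (b + D) % 6) % 6) =
        D + 6 * j' + ((r + 6 - (b + D) % 6) % 6) := hjj
      omega
  rwa [card_range] at h1

open Classical in
/-- the sum over the translations -/
theorem sumT (G : ℤ → Prop) (b : ℕ) (a : ℤ) (𝒯 X Y 𝒢 : Finset ℕ)
    (h : ∀ t ∈ 𝒯, ∀ x ∈ X, ∀ y ∈ Y, 0 ≤ ((b + t : ℕ) : ℤ) + y - a * x ∧
      (G (((b + t : ℕ) : ℤ) + y - a * x) → (((b + t : ℕ) : ℤ) + y - a * x).toNat ∈ 𝒢)) :
    ∑ t ∈ 𝒯, prs G ((b + t : ℕ) : ℤ) a X Y ≤ X.card * Y.card * 𝒢.card := by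
  have h1 : ∑ t ∈ 𝒯, prs G ((b + t : ℕ) : ℤ) a X Y =
      ∑ z ∈ X ×ˢ Y, (𝒯.filter (fun t => G (((b + t : ℕ) : ℤ) + z.2 - a * z.1))).card := by
    unfold prs
    simp only [card_filter]
    exact Finset.sum_comm
  rw [h1]
  have h2 : ∀ z ∈ X ×ˢ Y, (𝒯.filter (fun t => G (((b + t : ℕ) : ℤ) + z.2 - a * z.1))).card ≤
      𝒢.card := by
    intro z hz
    obtain ⟨hx, hy⟩ := mem_product.1 hz
    refine card_le_card_of_injOn (fun t => (((b + t : ℕ) : ℤ) + z.2 - a * z.1).toNat) ?_ ?_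
    · intro t ht
      obtain ⟨ht1, ht2⟩ := mem_filter.1 (mem_coe.1 ht)
      exact mem_coe.2 ((h t ht1 _ hx _ hy).2 ht2)
    · intro t ht t' ht' htt
      obtain ⟨ht1, -⟩ := mem_filter.1 (mem_coe.1 ht)
      obtain ⟨ht1', -⟩ := mem_filter.1 (mem_coe.1 ht')
      have h3 := (h t ht1 _ hx _ hy).1
      have h4 := (h t' ht1' _ hx _ hy).1
      have h5 : (((b + t : ℕ) : ℤ) + z.2 - a * z.1).toNat =
        (((b + t' : ℕ) : ℤ) + z.2 - a * z.1).toNat := htt
      have h6 : ((b + t : ℕ) : ℤ) + z.2 - a * z.1 = ((b + t' : ℕ) : ℤ) + z.2 - a * z.1 := by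
        rw [← Int.toNat_of_nonneg h3, ← Int.toNat_of_nonneg h4, h5]
      push_cast at h6
      omega
  calc ∑ z ∈ X ×ˢ Y, (𝒯.filter (fun t => G (((b + t : ℕ) : ℤ) + z.2 - a * z.1))).card
      ≤ (X ×ˢ Y).card • 𝒢.card := sum_le_card_nsmul _ _ _ h2
    _ = X.card * Y.card * 𝒢.card := by rw [card_product, smul_eq_mul]

end Pool.Agent.TH899.UG.GD
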