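import Mathlib
import Pool.Agent.TH899.UG.GD3

/-! Goldbach density or de Polignac: the main theorem. -/

set_option autoImplicit false

namespace Pool.Agent.TH899.UG.GD

open Finset Filter Topology
open Pool.Agent.TH899.UG.Uni

theorem onec (W R : ℕ) (hW : 0 < W) (X : Finset ℤ) (hX : W * R ≤ X.card) :
    ∃ X' ⊆ X, X'.card = R ∧ ∀ x ∈ X', ∀ x' ∈ X', (W : ℤ) ∣ x - x' := by
  classical
  have hWz : (0 : ℤ) < W := by exact_mod_cast hW
  obtain ⟨r, -, hr⟩ := exists_le_card_fiber_of_mul_le_card_of_maps_to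
    (s := X) (t := Ico (0 : ℤ) W) (f := fun x => x % W) (n := R)
    (fun x _ => mem_Ico.2 ⟨Int.emod_nonneg _ hWz.ne', Int.emod_lt_of_pos _ hWz⟩)
    ⟨0, mem_Ico.2 ⟨le_rfl, hWz⟩⟩ (by simpa using hX)
  obtain ⟨X', h1, h2⟩ := exists_subset_card_eq hr
  refine ⟨X', h1.trans (filter_subset _ _), h2, fun x hx x' hx' => ?_⟩
  have h3 := (mem_filter.1 (h1 hx)).2
  have h4 := (mem_filter.1 (h1 hx')).2
  exact Int.ModEq.dvd (h4.trans h3.symm)

open Classical in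
/-- grids of exceptional differences -/
theorem grid (W R : ℕ) (hW : 0 < W) (hR : 1 ≤ R) (Bad : ℕ → Prop) (u L : ℕ) (hL : 1 ≤ L)
    (h : ¬ ((((Ioc u (u + L)).filter (fun k => Bad k)).card : ℝ) ≤
      8 * ((W * R : ℕ) : ℝ) * (L : ℝ) ^ (1 - 1 / ((W * R : ℕ) : ℝ)))) :
    ∃ (P Q : Finset ℕ) (cP cQ : ℤ), P.card = R ∧ Q.card = R ∧ (∀ x ∈ P, ∀ y ∈ Q, y < x) ∧
      (∀ x ∈ P, x ≤ 2 * u + 4 * L) ∧ (∀ x ∈ P, (W : ℤ) ∣ x - cP) ∧ (∀ x ∈ Q, (W : ℤ) ∣ x - cQ) ∧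
      2 ∣ cP ∧ 2 ∣ cQ ∧ ∀ x ∈ P, ∀ y ∈ Q, ∃ k, Bad k ∧ x - y = 2 * k := by
  set B : Set ℤ := {z | (u : ℤ) < z ∧ z ≤ u + L ∧ Bad z.toNat} with hB
  have hex : ∃ X Y : Finset ℤ, W * R ≤ X.card ∧ W * R ≤ Y.card ∧ ∀ x ∈ X, ∀ y ∈ Y, x + y ∈ B := by
    by_contra hcon
    push Not at hcon
    apply h
    have h1 := Pool.Agent.TH880.GP.kst (W * R) (Nat.mul_pos hW hR) B
      (fun X Y hX hY => hcon X Y hX hY) (u : ℤ) L hL
      (((Ioc u (u + L)).filter (fun k => Bad k)).image (fun k : ℕ => (k : ℤ))) (by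
        intro z hz
        obtain ⟨k, hk, rfl⟩ := mem_image.1 hz
        obtain ⟨h2, h3⟩ := mem_filter.1 hk
        rw [mem_Ioc] at h2
        refine ⟨⟨by omega, by omega, ?_⟩, by omega, by omega⟩
        rw [Int.toNat_natCast]
        exact h3)
    rwa [card_image_of_injective _ Nat.cast_injective] at h1
  obtain ⟨X, Y, hX, hY, hXY⟩ := hex
  obtain ⟨X', hX1, hX2, hX3⟩ := onec W R hW X hX
  obtain ⟨Y', hY1, hY2, hY3⟩ := onec W R hW Y hY
  have hXne : X'.Nonempty := by rw [← card_pos]; omega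
  have hYne : Y'.Nonempty := by rw [← card_pos]; omega
  obtain ⟨y0, hy0⟩ := hYne
  set x0 := X'.min' hXne with hx0
  have hx0m : x0 ∈ X' := min'_mem _ _
  have hmin : ∀ x ∈ X', x0 ≤ x := fun x hx => min'_le _ _ hx
  have hsum : ∀ x ∈ X', ∀ y ∈ Y', (u : ℤ) < x + y ∧ x + y ≤ u + L ∧ Bad (x + y).toNat :=
    fun x hx y hy => hXY _ (hX1 hx) _ (hY1 hy)
  have hxL : ∀ x ∈ X', x - x0 < L := by
    intro x hx
    have h1 := hsum x hx y0 hy0
    have h2 := hsum x0 hx0m y0 hy0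
    omega
  have hPe : ∀ y ∈ Y', (((2 * (y + x0 + L)).toNat : ℕ) : ℤ) = 2 * (y + x0 + L) := by
    intro y hy
    have h1 := hsum x0 hx0m y hy
    omega
  have hQe : ∀ x ∈ X', (((2 * (L - (x - x0))).toNat : ℕ) : ℤ) = 2 * (L - (x - x0)) := by
    intro x hx
    have h1 := hxL x hx
    omega
  refine ⟨Y'.image (fun y => (2 * (y + x0 + L)).toNat), X'.image (fun x => (2 * (L - (x - x0))).toNat),
    2 * (y0 + x0 + L), 2 * L, ?_, ?_, ?_, ?_, ?_, ?_, dvd_mul_right _ _, dvd_mul_right _ _, ?_⟩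
  · rw [card_image_of_injOn, hY2]
    intro y hy y' hy' hyy
    have h1 := hPe y (mem_coe.1 hy)
    have h2 := hPe y' (mem_coe.1 hy')
    have h3 : (2 * (y + x0 + L)).toNat = (2 * (y' + x0 + L)).toNat := hyy
    omega
  · rw [card_image_of_injOn, hX2]
    intro y hy y' hy' hyy
    have h1 := hQe y (mem_coe.1 hy)
    have h2 := hQe y' (mem_coe.1 hy')
    have h3 : (2 * (L - (y - x0))).toNat = (2 * (L - (y' - x0))).toNat := hyy
    omega
  · intro p hp q hq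
    obtain ⟨y, hy, rfl⟩ := mem_image.1 hp
    obtain ⟨x, hx, rfl⟩ := mem_image.1 hq
    have h1 := hPe y hy
    have h2 := hQe x hx
    have h3 := hsum x hx y hy
    omega
  · intro p hp
    obtain ⟨y, hy, rfl⟩ := mem_image.1 hp
    have h1 := hPe y hy
    have h3 := hsum x0 hx0m y hy
    omega
  · intro p hp
    obtain ⟨y, hy, rfl⟩ := mem_image.1 hp
    rw [hPe y hy]
    have e : 2 * (y + x0 + (L : ℤ)) - 2 * (y0 + x0 + L) = 2 * (y - y0) := by ring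
    rw [e]
    exact dvd_mul_of_dvd_right (hY3 _ hy _ hy0) _
  · intro p hp
    obtain ⟨x, hx, rfl⟩ := mem_image.1 hp
    rw [hQe x hx]
    have e : 2 * ((L : ℤ) - (x - x0)) - 2 * L = 2 * (x0 - x) := by ring
    rw [e]
    exact dvd_mul_of_dvd_right (hX3 _ hx0m _ hx) _
  · intro p hp q hq
    obtain ⟨y, hy, rfl⟩ := mem_image.1 hp
    obtain ⟨x, hx, rfl⟩ := mem_image.1 hq
    have h1 := hPe y hy
    have h2 := hQe x hx
    have h3 := hsum x hx y hy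
    exact ⟨(x + y).toNat, h3.2.2, by omega⟩

open Classical in
/-- **Main theorem.** -/
theorem gd (ε : ℝ) (hε : 0 < ε) : ∃ K C : ℕ, 1 ≤ K ∧ ∀ η : ℝ, 0 < η → ∀ᶠ N : ℕ in atTop,
    ∀ u L : ℕ, 1 ≤ L → C * (u + L) ≤ N →
    ((((Ioc u (u + L)).filter (fun k => (difc N (2 * k) : ℝ) < (N : ℝ) ^ (1 - η))).card : ℝ) ≤
      8 * K * (L : ℝ) ^ (1 - 1 / (K : ℝ))) ∨
    (∀ a : ℤ, (a = 1 ∨ a = -1) → ∀ b H : ℕ, C * (u + L) ≤ b → 6 * b ≤ 7 * N →
      (∀ y : ℝ, (N : ℝ) / 16 ≤ y → y ≤ N / 2 → (N : ℝ) / 30 ≤ a * y + b) →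
      C * (u + L) ≤ H → C * H ≤ N →
      (1 / 12 - ε) * H ≤ (((Ico b (b + H)).filter (fun c : ℕ =>
        (N : ℝ) ^ (1 - η) ≤ golc N a c)).card : ℝ)) := by
  obtain ⟨K₀, hK₀, HP⟩ := per_t
  set ε₁ : ℝ := min (6 * ε) 1 with hε₁
  have hε₁0 : 0 < ε₁ := lt_min (by linarith) one_pos
  have hε₁1 : ε₁ ≤ 1 := min_le_right _ _
  have hε₁6 : ε₁ ≤ 6 * ε := min_le_left _ _
  obtain ⟨R, hR1, HP⟩ := HP ε₁ hε₁0 hε₁1
  set W : ℕ := (4 * K₀ + 3).factorial with hWd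
  have hW0 : 0 < W := Nat.factorial_pos _
  obtain ⟨C₀, hC₀⟩ := exists_nat_ge (3 / ε)
  set C : ℕ := C₀ + 240 with hC
  refine ⟨W * R, C, Nat.mul_pos hW0 hR1, fun η hη => ?_⟩
  filter_upwards [HP η hη] with N hN
  intro u L hL hCN
  by_cases hA : ((((Ioc u (u + L)).filter (fun k => (difc N (2 * k) : ℝ) < (N : ℝ) ^ (1 - η))).card
      : ℝ) ≤ 8 * ((W * R : ℕ) : ℝ) * (L : ℝ) ^ (1 - 1 / ((W * R : ℕ) : ℝ)))
  · exact Or.inl hA
  right
  obtain ⟨P, Q, cP, cQ, hPc, hQc, hPQ, hPb, hPW, hQW, hcP, hcQ, hbad⟩ :=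
    grid W R hW0 hR1 (fun k => (difc N (2 * k) : ℝ) < (N : ℝ) ^ (1 - η)) u L hL hA
  intro a ha b H hb1 hb2 hpos hH1 hH2
  have hCv : 240 * (u + L) ≤ C * (u + L) := Nat.mul_le_mul_right _ (by omega)
  have hCH : 240 * H ≤ C * H := Nat.mul_le_mul_right _ (by omega)
  set G : ℤ → Prop := fun c => (N : ℝ) ^ (1 - η) ≤ golc N a c with hG
  set 𝒢 : Finset ℕ := (Ico b (b + H)).filter (fun c : ℕ => G c) with h𝒢
  set D : ℕ := 2 * u + 4 * L with hD
  have hQb : ∀ x ∈ Q, x ≤ D := by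
    intro x hx
    have hPne : P.Nonempty := by rw [← card_pos]; omega
    obtain ⟨z, hz⟩ := hPne
    have h1 := hPQ z hz x hx
    have h2 := hPb z hz
    omega
  -- the inequality for one translation
  have hone : ∀ t : ℕ, D ≤ t → t < H - 2 * D → 2 ∣ b + t →
      (3 ∣ cP - cQ ∨ (3 : ℤ) ∣ ((b + t : ℕ) : ℤ) - (1 - a) * (cP + cQ)) →
      (1 - ε₁) * (R : ℝ) ^ 2 ≤ (prs G ((b + t : ℕ) : ℤ) a P P : ℝ) + prs G ((b + t : ℕ) : ℤ) a P Q +
        prs G ((b + t : ℕ) : ℤ) a Q P + prs G ((b + t : ℕ) : ℤ) a Q Q := by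
    intro t ht1 ht2 ht3 ht4
    refine hN a ha (b + t) P Q hPc hQc hPQ ?_ ?_ ?_ ?_ ?_ ?_
    · intro x hx
      have := hPb x hx
      omega
    · intro x hx
      have := hPb x hx
      omega
    · intro x hx
      have := hPb x hx
      omega
    · intro y hy1 hy2
      have h1 := hpos y hy1 hy2
      have h2 : (0 : ℝ) ≤ t := Nat.cast_nonneg _
      push_cast
      linarith
    · intro p hp hpK
      have hpW : (p : ℤ) ∣ W := by exact_mod_cast hp.dvd_factorial.2 (by omega)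
      obtain ⟨n, h1, h2, h3, h4⟩ := loc a ha ((b + t : ℕ) : ℤ) cP cQ hcP hcQ
        (by exact_mod_cast ht3) ht4 p hp
      refine ⟨n, fun x hx => ?_⟩
      have key : ∀ c : ℤ, (W : ℤ) ∣ x - c → ¬ ((p : ℤ) ∣ n + c) →
          ¬ ((p : ℤ) ∣ a * n + (((b + t : ℕ) : ℤ) + c)) →
          ¬ ((p : ℤ) ∣ n + x) ∧ ¬ ((p : ℤ) ∣ a * n + (((b + t : ℕ) : ℤ) + x)) := by
        intro c hc k1 k2
        have k3 := hpW.trans hc
        refine ⟨fun k4 => k1 ?_, fun k4 => k2 ?_⟩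
        · have e : n + c = (n + x) - (x - c) := by ring
          rw [e]; exact dvd_sub k4 k3
        · have e : a * n + (((b + t : ℕ) : ℤ) + c) =
            (a * n + (((b + t : ℕ) : ℤ) + x)) - (x - c) := by ring
          rw [e]; exact dvd_sub k4 k3
      rcases mem_union.1 hx with h | h
      · exact key cP (hPW x h) h1 h3
      · exact key cQ (hQW x h) h2 h4
    · intro x hx y hy
      obtain ⟨k, hk1, hk2⟩ := hbad x hx y hy
      rw [hk2]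
      exact hk1
  -- the range of the constants
  have hrange : ∀ t : ℕ, D ≤ t → t < H - 2 * D → ∀ x y : ℕ, x ≤ D → y ≤ D →
      0 ≤ ((b + t : ℕ) : ℤ) + y - a * x ∧ (b : ℤ) ≤ ((b + t : ℕ) : ℤ) + y - a * x ∧
      ((b + t : ℕ) : ℤ) + y - a * x < b + H := by
    intro t ht1 ht2 x y hx hy
    rcases ha with h | h <;> subst h <;> omega
  have hmemG : ∀ t : ℕ, D ≤ t → t < H - 2 * D → ∀ x y : ℕ, x ≤ D → y ≤ D →
      G (((b + t : ℕ) : ℤ) + y - a * x) → (((b + t : ℕ) : ℤ) + y - a * x).toNat ∈ 𝒢 := by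
    intro t ht1 ht2 x y hx hy hGG
    obtain ⟨k0, k1, k2⟩ := hrange t ht1 ht2 x y hx hy
    refine mem_filter.2 ⟨mem_Ico.2 ⟨by omega, by omega⟩, ?_⟩
    rw [Int.toNat_of_nonneg k0]
    exact hGG
  -- it suffices to have a good set of translations
  have hfin : (1 - ε₁) * ((((H - 2 * D) - D) / 6 : ℕ) : ℝ) ≤ 2 * (𝒢.card : ℝ) →
      (1 / 12 - ε) * H ≤ (𝒢.card : ℝ) := by
    intro hfin
    have hv : (1 : ℝ) ≤ ((u + L : ℕ) : ℝ) := by exact_mod_cast (by omega)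
    have hHr : (C : ℝ) * ((u + L : ℕ) : ℝ) ≤ H := by exact_mod_cast hH1
    have hCr : (3 / ε : ℝ) ≤ C := by
      rw [hC]; push_cast; linarith
    have hq : ((H : ℝ) - 12 * ((u + L : ℕ) : ℝ)) / 6 - 1 ≤ ((((H - 2 * D) - D) / 6 : ℕ) : ℝ) := by
      have h1 : H - 12 * (u + L) ≤ 6 * ((((H - 2 * D) - D) / 6 : ℕ)) + 6 := by omega
      have h2 : H ≤ 6 * ((((H - 2 * D) - D) / 6 : ℕ)) + 6 + 12 * (u + L) := by omega
      have h3 : (H : ℝ) ≤ 6 * ((((H - 2 * D) - D) / 6 : ℕ) : ℝ) + 6 + 12 * ((u + L : ℕ) : ℝ) := by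
        exact_mod_cast h2
      linarith
    have h1 : 3 * ((u + L : ℕ) : ℝ) ≤ ε * H := by
      have h2 : (3 / ε) * ((u + L : ℕ) : ℝ) ≤ H :=
        (mul_le_mul_of_nonneg_right hCr (by linarith)).trans hHr
      have h3 := mul_le_mul_of_nonneg_left h2 hε.le
      have e : ε * (3 / ε * ((u + L : ℕ) : ℝ)) = 3 * ((u + L : ℕ) : ℝ) := by field_simp
      rw [e] at h3
      exact h3
    have h2 : (1 - ε₁) * (((H : ℝ) - 12 * ((u + L : ℕ) : ℝ)) / 6 - 1) ≤ 2 * (𝒢.card : ℝ) :=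
      (mul_le_mul_of_nonneg_left hq (by linarith)).trans hfin
    have hH0 : (0 : ℝ) ≤ H := Nat.cast_nonneg _
    have h3 : (1 - ε₁) * (H / 6 - 6 * ε * (H / 6)) ≤
        (1 - ε₁) * (((H : ℝ) - 12 * ((u + L : ℕ) : ℝ)) / 6 - 1) := by
      apply mul_le_mul_of_nonneg_left _ (by linarith)
      linarith
    have h4 : (1 - 6 * ε) * (H / 6 : ℝ) - 6 * ε * (H / 6) ≤ (1 - ε₁) * (H / 6 - 6 * ε * (H / 6)) := by
      have h5 : (0 : ℝ) ≤ ε₁ * (6 * ε * (H / 6)) := by positivity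
      have h6 : ε₁ * (H / 6 : ℝ) ≤ 6 * ε * (H / 6) := mul_le_mul_of_nonneg_right hε₁6 (by positivity)
      have e1 : (1 - ε₁) * (H / 6 - 6 * ε * (H / 6) : ℝ) =
        H / 6 - 6 * ε * (H / 6) - ε₁ * (H / 6) + ε₁ * (6 * ε * (H / 6)) := by ring
      have e2 : (1 - 6 * ε) * (H / 6 : ℝ) - 6 * ε * (H / 6) =
        H / 6 - 6 * ε * (H / 6) - 6 * ε * (H / 6) := by ring
      rw [e1, e2]
      linarith
    have e3 : (1 - 6 * ε) * (H / 6 : ℝ) - 6 * ε * (H / 6) = 2 * ((1 / 12 - ε) * H) := by ring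
    rw [e3] at h4
    linarith
  apply hfin
  have hR0 : (0 : ℝ) < (R : ℝ) ^ 2 := by
    have : (0 : ℝ) < R := by exact_mod_cast hR1
    positivity
  -- the comparison
  have hcomp : ∀ (m : ℕ) (𝒯 : Finset ℕ), 1 ≤ m → (∀ t ∈ 𝒯, D ≤ t ∧ t < H - 2 * D ∧ 2 ∣ b + t ∧
      (3 ∣ cP - cQ ∨ (3 : ℤ) ∣ ((b + t : ℕ) : ℤ) - (1 - a) * (cP + cQ))) →
      m * (((H - 2 * D) - D) / 6) ≤ 𝒯.card →
      (∑ t ∈ 𝒯, prs G ((b + t : ℕ) : ℤ) a P P + ∑ t ∈ 𝒯, prs G ((b + t : ℕ) : ℤ) a P Q +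
        ∑ t ∈ 𝒯, prs G ((b + t : ℕ) : ℤ) a Q P + ∑ t ∈ 𝒯, prs G ((b + t : ℕ) : ℤ) a Q Q) ≤
        2 * m * (R * R) * 𝒢.card →
      (1 - ε₁) * ((((H - 2 * D) - D) / 6 : ℕ) : ℝ) ≤ 2 * (𝒢.card : ℝ) := by
    intro m 𝒯 hm h𝒯 hcard hsum
    have h1 : ∑ t ∈ 𝒯, (1 - ε₁) * (R : ℝ) ^ 2 ≤ ∑ t ∈ 𝒯,
        ((prs G ((b + t : ℕ) : ℤ) a P P : ℝ) + prs G ((b + t : ℕ) : ℤ) a P Q +
        prs G ((b + t : ℕ) : ℤ) a Q P + prs G ((b + t : ℕ) : ℤ) a Q Q) :=
      sum_le_sum fun t ht => hone t (h𝒯 t ht).1 (h𝒯 t ht).2.1 (h𝒯 t ht).2.2.1 (h𝒯 t ht).2.2.2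
    rw [sum_const, nsmul_eq_mul, sum_add_distrib, sum_add_distrib, sum_add_distrib] at h1
    have h2 : (∑ t ∈ 𝒯, (prs G ((b + t : ℕ) : ℤ) a P P : ℝ) +
        ∑ t ∈ 𝒯, (prs G ((b + t : ℕ) : ℤ) a P Q : ℝ) +
        ∑ t ∈ 𝒯, (prs G ((b + t : ℕ) : ℤ) a Q P : ℝ) +
        ∑ t ∈ 𝒯, (prs G ((b + t : ℕ) : ℤ) a Q Q : ℝ)) ≤ 2 * m * (R * R) * 𝒢.card := by
      exact_mod_cast hsum
    have h3 : ((m : ℝ) * ((((H - 2 * D) - D) / 6 : ℕ) : ℝ)) ≤ 𝒯.card := by exact_mod_cast hcard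
    have h4 : (m : ℝ) * ((((H - 2 * D) - D) / 6 : ℕ) : ℝ) * ((1 - ε₁) * (R : ℝ) ^ 2) ≤
        (𝒯.card : ℝ) * ((1 - ε₁) * (R : ℝ) ^ 2) :=
      mul_le_mul_of_nonneg_right h3 (mul_nonneg (by linarith) hR0.le)
    have h5 : (m : ℝ) * (R : ℝ) ^ 2 * ((1 - ε₁) * ((((H - 2 * D) - D) / 6 : ℕ) : ℝ)) ≤
        (m : ℝ) * (R : ℝ) ^ 2 * (2 * 𝒢.card) := by
      calc (m : ℝ) * (R : ℝ) ^ 2 * ((1 - ε₁) * ((((H - 2 * D) - D) / 6 : ℕ) : ℝ))
          = (m : ℝ) * ((((H - 2 * D) - D) / 6 : ℕ) : ℝ) * ((1 - ε₁) * (R : ℝ) ^ 2) := by ring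
        _ ≤ (𝒯.card : ℝ) * ((1 - ε₁) * (R : ℝ) ^ 2) := h4
        _ ≤ 2 * m * (R * R) * 𝒢.card := h1.trans h2
        _ = _ := by ring
    have hm0 : (0 : ℝ) < m := by exact_mod_cast hm
    exact le_of_mul_le_mul_left h5 (by positivity)
  by_cases hx : (3 : ℤ) ∣ cP - cQ
  · -- the same class modulo three
    refine hcomp 2 ((Ico D (H - 2 * D)).filter (fun t => (b + t) % 6 = 0) ∪
      (Ico D (H - 2 * D)).filter (fun t => (b + t) % 6 = 2)) (by norm_num) ?_ ?_ ?_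
    · intro t ht
      rcases mem_union.1 ht with h | h
      · obtain ⟨h1, h2⟩ := mem_filter.1 h
        rw [mem_Ico] at h1
        exact ⟨h1.1, h1.2, by omega, Or.inl hx⟩
      · obtain ⟨h1, h2⟩ := mem_filter.1 h
        rw [mem_Ico] at h1
        exact ⟨h1.1, h1.2, by omega, Or.inl hx⟩
    · rw [card_union_of_disjoint (by
        rw [Finset.disjoint_left]
        intro t h1 h2
        have h3 := (mem_filter.1 h1).2
        have h4 := (mem_filter.1 h2).2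
        omega)]
      have h1 := cntT D (H - 2 * D) b 0 (by norm_num)
      have h2 := cntT D (H - 2 * D) b 2 (by norm_num)
      omega
    · set 𝒯 := (Ico D (H - 2 * D)).filter (fun t => (b + t) % 6 = 0) ∪
        (Ico D (H - 2 * D)).filter (fun t => (b + t) % 6 = 2) with h𝒯
      have hT : ∀ t ∈ 𝒯, D ≤ t ∧ t < H - 2 * D := by
        intro t ht
        rcases mem_union.1 ht with h | h
        · exact mem_Ico.1 (mem_filter.1 h).1
        · exact mem_Ico.1 (mem_filter.1 h).1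
      have key : ∀ X Y : Finset ℕ, (∀ x ∈ X, x ≤ D) → (∀ y ∈ Y, y ≤ D) → X.card = R →
          Y.card = R → ∑ t ∈ 𝒯, prs G ((b + t : ℕ) : ℤ) a X Y ≤ R * R * 𝒢.card := by
        intro X Y hX hY hXc hYc
        have h1 := sumT G b a 𝒯 X Y 𝒢 (fun t ht x hx y hy =>
          ⟨(hrange t (hT t ht).1 (hT t ht).2 x y (hX x hx) (hY y hy)).1,
            hmemG t (hT t ht).1 (hT t ht).2 x y (hX x hx) (hY y hy)⟩)
        rwa [hXc, hYc] at h1
      have h1 := key P P hPb hPb hPc hPc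
      have h2 := key P Q hPb hQb hPc hQc
      have h3 := key Q P hQb hPb hQc hPc
      have h4 := key Q Q hQb hQb hQc hQc
      have e : 2 * 2 * (R * R) * 𝒢.card = R * R * 𝒢.card + R * R * 𝒢.card + R * R * 𝒢.card +
        R * R * 𝒢.card := by ring
      rw [e]
      omega
  · -- different classes modulo three
    have h6 : (0 : ℤ) < 6 := by norm_num
    obtain ⟨r, hr⟩ : ∃ r : ℤ, r = (4 * ((1 - a) * (cP + cQ))) % 6 := ⟨_, rfl⟩
    have hr0 : 0 ≤ r := by rw [hr]; exact Int.emod_nonneg _ (by norm_num)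
    have hr6 : r < 6 := by rw [hr]; exact Int.emod_lt_of_pos _ h6
    have hr2 : 2 ∣ r := by omega
    have hr3 : (3 : ℤ) ∣ r - (1 - a) * (cP + cQ) := by
      generalize (1 - a) * (cP + cQ) = s at hr
      omega
    refine hcomp 1 ((Ico D (H - 2 * D)).filter (fun t => (b + t) % 6 = r.toNat)) le_rfl ?_ ?_ ?_
    · intro t ht
      obtain ⟨h1, h2⟩ := mem_filter.1 ht
      rw [mem_Ico] at h1
      refine ⟨h1.1, h1.2, by omega, Or.inr ?_⟩
      have e : ((b + t : ℕ) : ℤ) - (1 - a) * (cP + cQ) =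
        (((b + t : ℕ) : ℤ) - r) + (r - (1 - a) * (cP + cQ)) := by ring
      rw [e]
      refine dvd_add ?_ hr3
      omega
    · have h1 := cntT D (H - 2 * D) b r.toNat (by omega)
      omega
    · set 𝒯 := (Ico D (H - 2 * D)).filter (fun t => (b + t) % 6 = r.toNat) with h𝒯
      have hT : ∀ t ∈ 𝒯, D ≤ t ∧ t < H - 2 * D ∧ (b + t) % 6 = r.toNat := by
        intro t ht
        obtain ⟨h1, h2⟩ := mem_filter.1 ht
        exact ⟨(mem_Ico.1 h1).1, (mem_Ico.1 h1).2, h2⟩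
      have h3W : (3 : ℤ) ∣ W := by
        exact_mod_cast Nat.prime_three.dvd_factorial.2 (by omega)
      have key : ∀ (X Y : Finset ℕ) (cX cY : ℤ), (∀ x ∈ X, x ≤ D) → (∀ y ∈ Y, y ≤ D) → X.card = R →
          Y.card = R → (∀ x ∈ X, (W : ℤ) ∣ x - cX) → (∀ y ∈ Y, (W : ℤ) ∣ y - cY) →
          ∑ t ∈ 𝒯, prs G ((b + t : ℕ) : ℤ) a X Y ≤
            R * R * (𝒢.filter (fun c : ℕ => (3 : ℤ) ∣ (c : ℤ) - (r + cY - a * cX))).card := by
        intro X Y cX cY hX hY hXc hYc hXW hYW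
        have h1 := sumT G b a 𝒯 X Y (𝒢.filter (fun c : ℕ => (3 : ℤ) ∣ (c : ℤ) - (r + cY - a * cX)))
          (fun t ht x hx y hy => by
            obtain ⟨k1, k2, k3⟩ := hT t ht
            have k4 := hrange t k1 k2 x y (hX x hx) (hY y hy)
            refine ⟨k4.1, fun hGG => mem_filter.2
              ⟨hmemG t k1 k2 x y (hX x hx) (hY y hy) hGG, ?_⟩⟩
            rw [Int.toNat_of_nonneg k4.1]
            have k5 := h3W.trans (hXW x hx)
            have k6 := h3W.trans (hYW y hy)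
            have e : ((b + t : ℕ) : ℤ) + y - a * x - (r + cY - a * cX) =
              (((b + t : ℕ) : ℤ) - r) + (y - cY) - a * (x - cX) := by ring
            rw [e]
            refine dvd_sub (dvd_add ?_ k6) (dvd_mul_of_dvd_right k5 a)
            omega)
        rwa [hXc, hYc] at h1
      have hdis : ∀ cX : ℤ, (𝒢.filter (fun c : ℕ => (3 : ℤ) ∣ (c : ℤ) - (r + cP - a * cX))).card +
          (𝒢.filter (fun c : ℕ => (3 : ℤ) ∣ (c : ℤ) - (r + cQ - a * cX))).card ≤ 𝒢.card := by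
        intro cX
        rw [← card_union_of_disjoint (by
          rw [Finset.disjoint_left]
          intro c h1 h2
          have h3 := (mem_filter.1 h1).2
          have h4 := (mem_filter.1 h2).2
          apply hx
          have e : cP - cQ = ((c : ℤ) - (r + cQ - a * cX)) - ((c : ℤ) - (r + cP - a * cX)) := by ring
          rw [e]
          exact dvd_sub h4 h3)]
        apply card_le_card
        intro c hc
        rcases mem_union.1 hc with h | h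
        · exact (mem_filter.1 h).1
        · exact (mem_filter.1 h).1
      have h1 := key P P cP cP hPb hPb hPc hPc hPW hPW
      have h2 := key P Q cP cQ hPb hQb hPc hQc hPW hQW
      have h3 := key Q P cQ cP hQb hPb hQc hPc hQW hPW
      have h4 := key Q Q cQ cQ hQb hQb hQc hQc hQW hQW
      have h5 := Nat.mul_le_mul_left (R * R) (hdis cP)
      have h7 := Nat.mul_le_mul_left (R * R) (hdis cQ)
      rw [mul_add] at h5 h7
      have e : 2 * 1 * (R * R) * 𝒢.card = R * R * 𝒢.card + R * R * 𝒢.card := by ring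
      rw [e]
      omega

end Pool.Agent.TH899.UG.GD
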