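import Mathlib
import Pool.Agent.TH899.UG.GD4
import Pool.Agent.W150.UBC1a

/-! Gaps between consecutive primes in residue classes: one translation. -/

set_option autoImplicit false

namespace Pool.Agent.TH899.UG.EC

open Finset Filter Topology
open Pool.Agent.TH899.UG.GD
open Pool.Agent.H947R3.GM (AdmN)
open Pool.Agent.W59.GB (GapB)

/-- admissibility from the small primes -/
theorem adm_of {N K : ℕ} (H : Fin 4 → Fin K → ℕ)
    (hinj : Function.Injective (fun x : Fin 4 × Fin K => H x.1 x.2))
    (hloc : ∀ p : ℕ, p.Prime → ¬ p ∣ N → p ≤ 4 * K → ∃ n : ℤ, ∀ g i, ¬ ((p : ℤ) ∣ n + H g i)) :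
    AdmN N H := by
  classical
  refine ⟨hinj, fun p hp hpN => ?_⟩
  by_cases hpn : p ≤ 4 * K
  · exact hloc p hp hpN hpn
  · haveI := Fact.mk hp
    let f : Fin 4 × Fin K → ZMod p := fun x => - ((H x.1 x.2 : ℤ) : ZMod p)
    have hcard : (univ.image f).card < (univ : Finset (ZMod p)).card := by
      rw [card_univ, ZMod.card]
      have h2 : (univ.image f).card ≤ 4 * K := by
        refine card_image_le.trans ?_
        rw [card_univ, Fintype.card_prod, Fintype.card_fin, Fintype.card_fin]
      omega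
    obtain ⟨w, -, hw⟩ := Finset.exists_mem_notMem_of_card_lt_card hcard
    refine ⟨(w.val : ℤ), fun g i hd => hw (mem_image.2 ⟨(g, i), mem_univ _, ?_⟩)⟩
    rw [← ZMod.intCast_zmod_eq_zero_iff_dvd] at hd
    push_cast at hd
    rw [ZMod.natCast_zmod_val] at hd
    show - ((H g i : ℤ) : ZMod p) = w
    push_cast
    linear_combination -hd

open Classical in
/-- **one translation** -/
theorem pt (N a : ℕ) (hN : 0 < N) (h2 : 2 ∣ N) (hsq : Squarefree N) (ha : a.Coprime N) :
    ∃ K : ℕ, 1 ≤ K ∧ ∀ ε : ℝ, 0 < ε → ε ≤ 1 → ∃ R : ℕ, 1 ≤ R ∧ ∀ (q Δ t : ℕ) (P Q : Finset ℕ),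
      1 ≤ q → P.card = R → Q.card = R → (∀ x ∈ P, ∀ y ∈ Q, y < x) → (∀ x ∈ P, x < t) →
      (∀ p : ℕ, p.Prime → ¬ p ∣ N → p ≤ 4 * K → ∃ n : ℤ, ∀ x ∈ P ∪ Q,
        ¬ ((p : ℤ) ∣ n + q * x) ∧ ¬ ((p : ℤ) ∣ n + (Δ + q * (t + x)))) →
      (∀ x ∈ P, ∀ y ∈ Q, q * (x - y) ∉ GapB N a) →
      (1 - ε) * (R : ℝ) ^ 2 ≤
        (prs (fun s => (Δ + q * s).toNat ∈ GapB N a) t 1 P P : ℝ) +
        prs (fun s => (Δ + q * s).toNat ∈ GapB N a) t 1 P Q +
        prs (fun s => (Δ + q * s).toNat ∈ GapB N a) t 1 Q P +
        prs (fun s => (Δ + q * s).toNat ∈ GapB N a) t 1 Q Q := by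
  obtain ⟨K, hK, HC⟩ := Pool.Agent.W150.UBC1a.main Pool.Agent.W25.UB.thmV N a hN h2 hsq ha
  refine ⟨K, hK, fun ε hε hε1 => ?_⟩
  obtain ⟨C, E, hC, HB⟩ := box_pow K 4
  obtain ⟨R, hR⟩ := exists_nat_ge (C / ε ^ E)
  have hR1 : 1 ≤ R := by
    by_contra h
    have h1 : R = 0 := by omega
    rw [h1, Nat.cast_zero] at hR
    have h2 : 0 < C / ε ^ E := by positivity
    linarith
  refine ⟨R, hR1, ?_⟩
  intro q Δ t P Q hq hP hQ hPQ hPt hloc hno
  set G : ℤ → Prop := fun s => (Δ + q * s).toNat ∈ GapB N a with hG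
  have hK0 : 0 < K := hK
  have hPne : P.Nonempty := by rw [← card_pos, hP]; omega
  obtain ⟨x0, hx0⟩ := hPne
  have hQt : ∀ y ∈ Q, y < t := fun y hy => (hPQ _ hx0 _ hy).trans (hPt _ hx0)
  set V : Fin 4 → Finset ℕ := ![P, Q, P, Q] with hV
  have hVc : ∀ i, (V i).card = R := by
    intro i
    fin_cases i
    · exact hP
    · exact hQ
    · exact hP
    · exact hQ
  set B := (Fintype.piFinset V).filter (fun f => ∀ g g' : Fin 4, (g = 0 ∨ g = 1) →
    (g' = 2 ∨ g' = 3) → ¬ G (t + f g' - 1 * f g)) with hB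
  have hBlt : (B.card : ℝ) < ε * (R : ℝ) ^ 4 := by
    by_contra hcon
    rw [not_lt] at hcon
    have hprod : ∏ i, ((V i).card : ℝ) = (R : ℝ) ^ 4 := by
      simp only [hVc, prod_const, card_univ, Fintype.card_fin]
    obtain ⟨A, hA1, hA2⟩ := HB ε hε hε1 ℕ V (fun i => by rw [hVc]; exact hR) B
      (filter_subset _ _) (by rw [hprod]; exact hcon)
    have hmem : ∀ g i, A g i ∈ V g := by
      intro g i
      have h1 := hA2 (fun _ => i)
      have h2 := (mem_filter.1 h1).1
      rw [Fintype.mem_piFinset] at h2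
      exact h2 g
    have hm0 : ∀ i, A 0 i ∈ P := fun i => hmem 0 i
    have hm1 : ∀ i, A 1 i ∈ Q := fun i => hmem 1 i
    have hm2 : ∀ i, A 2 i ∈ P := fun i => hmem 2 i
    have hm3 : ∀ i, A 3 i ∈ Q := fun i => hmem 3 i
    have hlt : ∀ g i, A g i < t := by
      intro g i
      have h1 := hmem g i
      rw [hV] at h1
      fin_cases g
      · exact hPt _ h1
      · exact hQt _ h1
      · exact hPt _ h1
      · exact hQt _ h1
    have hPQ' : ∀ g i, A g i ∈ P ∪ Q := by
      intro g i
      have h1 := hmem g i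
      rw [hV] at h1
      fin_cases g
      · exact mem_union_left _ h1
      · exact mem_union_right _ h1
      · exact mem_union_left _ h1
      · exact mem_union_right _ h1
    set F : Fin 4 → Fin K → ℕ := fun g i =>
      if g = 0 ∨ g = 1 then q * A g i else Δ + q * (t + A g i) with hF
    have hF0 : ∀ g i, (g = 0 ∨ g = 1) → F g i = q * A g i := by
      intro g i hg
      rw [hF]
      simp only [if_pos hg]
    have hF1 : ∀ g i, (g = 2 ∨ g = 3) → F g i = Δ + q * (t + A g i) := by
      intro g i hg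
      have hg' : ¬ (g = 0 ∨ g = 1) := by omega
      rw [hF]
      simp only [if_neg hg']
    have hcr : ∀ g i g' i', (g = 0 ∨ g = 1) → (g' = 2 ∨ g' = 3) → F g i < F g' i' := by
      intro g i g' i' hg hg'
      rw [hF0 g i hg, hF1 g' i' hg']
      have h1 := hlt g i
      have h2 : q * A g i < q * (t + A g' i') := by
        apply Nat.mul_lt_mul_of_pos_left _ hq
        omega
      omega
    have hadm : AdmN N F := by
      apply adm_of
      · rintro ⟨g, i⟩ ⟨g', i'⟩ h
        have h1 : F g i = F g' i' := h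
        have hside : (g = 0 ∨ g = 1) ∨ (g = 2 ∨ g = 3) := by omega
        have hside' : (g' = 0 ∨ g' = 1) ∨ (g' = 2 ∨ g' = 3) := by omega
        have hAA : A g i = A g' i' ∧ ((g = 0 ∨ g = 1) ↔ (g' = 0 ∨ g' = 1)) := by
          rcases hside with k | k <;> rcases hside' with k' | k'
          · rw [hF0 g i k, hF0 g' i' k'] at h1
            exact ⟨Nat.eq_of_mul_eq_mul_left hq h1, by simp only [k, k']⟩
          · exact absurd h1 (hcr g i g' i' k k').ne
          · exact absurd h1 (hcr g' i' g i k' k).ne'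
          · rw [hF1 g i k, hF1 g' i' k'] at h1
            have h3 : q * (t + A g i) = q * (t + A g' i') := by omega
            have h4 := Nat.eq_of_mul_eq_mul_left hq h3
            refine ⟨by omega, ?_⟩
            constructor
            · intro h; omega
            · intro h; omega
        obtain ⟨hA, hsd⟩ := hAA
        have hgg : g = g' := by
          have a0 := hm0
          have a1 := hm1
          have a2 := hm2
          have a3 := hm3
          by_contra hne
          fin_cases g <;> fin_cases g' <;> simp at hsd hne hA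
          · have := hPQ _ (a0 i) _ (a1 i'); omega
          · have := hPQ _ (a0 i') _ (a1 i); omega
          · have := hPQ _ (a2 i) _ (a3 i'); omega
          · have := hPQ _ (a2 i') _ (a3 i); omega
        subst hgg
        rw [hA1 g hA]
      · intro p hp hpN hpK
        obtain ⟨n, hn⟩ := hloc p hp hpN hpK
        refine ⟨n, fun g i => ?_⟩
        obtain ⟨k1, k2⟩ := hn _ (hPQ' g i)
        have hside : (g = 0 ∨ g = 1) ∨ (g = 2 ∨ g = 3) := by omega
        rcases hside with k | k
        · rw [hF0 g i k]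
          push_cast
          exact k1
        · rw [hF1 g i k]
          push_cast
          exact k2
    obtain ⟨g, g', i, i', hne, hlt', hmemG⟩ := HC F hadm
    have hside : (g = 0 ∨ g = 1) ∨ (g = 2 ∨ g = 3) := by omega
    have hside' : (g' = 0 ∨ g' = 1) ∨ (g' = 2 ∨ g' = 3) := by omega
    rcases hside with k | k <;> rcases hside' with k' | k'
    · -- both on the left
      rw [hF0 g i k, hF0 g' i' k'] at hlt' hmemG
      have h3 : A g i < A g' i' := lt_of_mul_lt_mul_left hlt' (Nat.zero_le _)
      rw [← Nat.mul_sub] at hmemG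
      have hg : g = 1 ∧ g' = 0 := by
        rcases k with k | k <;> rcases k' with k' | k'
        · exact absurd (k.trans k'.symm) hne
        · subst k k'
          have := hPQ _ (hm0 i) _ (hm1 i')
          omega
        · exact ⟨k, k'⟩
        · exact absurd (k.trans k'.symm) hne
      obtain ⟨k1, k2⟩ := hg
      subst k1 k2
      exact hno _ (hm0 i') _ (hm1 i) hmemG
    · -- left, right
      rw [hF0 g i k, hF1 g' i' k'] at hlt' hmemG
      have h1 := hA2 (Function.update (fun _ => i) g' i')
      have h2 := (mem_filter.1 h1).2 g g' k k'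
      have hgg : g ≠ g' := hne
      simp only [Function.update_self, Function.update_of_ne hgg] at h2
      apply h2
      rw [hG]
      show (Δ + q * ((t : ℤ) + A g' i' - 1 * A g i)).toNat ∈ GapB N a
      have e : (Δ + q * ((t : ℤ) + A g' i' - 1 * A g i)) =
          ((Δ + q * (t + A g' i') - q * A g i : ℕ) : ℤ) := by
        rw [Nat.cast_sub hlt'.le]
        push_cast
        ring
      rw [e, Int.toNat_natCast]
      exact hmemG
    · exact absurd hlt' (not_lt.2 (hcr g' i' g i k' k).le)
    · -- both on the right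
      rw [hF1 g i k, hF1 g' i' k'] at hlt' hmemG
      have h3 : t + A g i < t + A g' i' := by
        apply lt_of_mul_lt_mul_left _ (Nat.zero_le q)
        omega
      have e : Δ + q * (t + A g' i') - (Δ + q * (t + A g i)) = q * (A g' i' - A g i) := by
        rw [Nat.mul_sub, Nat.mul_add, Nat.mul_add]
        omega
      rw [e] at hmemG
      have hg : g = 3 ∧ g' = 2 := by
        rcases k with k | k <;> rcases k' with k' | k'
        · exact absurd (k.trans k'.symm) hne
        · subst k k'
          have := hPQ _ (hm2 i) _ (hm3 i')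
          omega
        · exact ⟨k, k'⟩
        · exact absurd (k.trans k'.symm) hne
      obtain ⟨k1, k2⟩ := hg
      subst k1 k2
      exact hno _ (hm2 i') _ (hm3 i) hmemG
  have hpi : ((Fintype.piFinset V).card : ℝ) = (R : ℝ) ^ 4 := by
    rw [Fintype.card_piFinset]
    push_cast
    simp only [hVc, prod_const, card_univ, Fintype.card_fin]
  have hcov : (Fintype.piFinset V).card ≤ B.card +
      (prs G t 1 P P * (R * R) + prs G t 1 P Q * (R * R) + prs G t 1 Q P * (R * R) +
        prs G t 1 Q Q * (R * R)) := by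
    have h02 := cnt V R hVc (fun x y => G (t + y - 1 * x)) 0 1 2 3 (by decide)
    have h03 := cnt V R hVc (fun x y => G (t + y - 1 * x)) 0 1 3 2 (by decide)
    have h12 := cnt V R hVc (fun x y => G (t + y - 1 * x)) 1 0 2 3 (by decide)
    have h13 := cnt V R hVc (fun x y => G (t + y - 1 * x)) 1 0 3 2 (by decide)
    have hsub : Fintype.piFinset V ⊆ B ∪
        ((((Fintype.piFinset V).filter (fun f => G (t + f 2 - 1 * f 0))) ∪
        ((Fintype.piFinset V).filter (fun f => G (t + f 3 - 1 * f 0)))) ∪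
        (((Fintype.piFinset V).filter (fun f => G (t + f 2 - 1 * f 1))) ∪
        ((Fintype.piFinset V).filter (fun f => G (t + f 3 - 1 * f 1))))) := by
      intro f hf
      by_cases hfB : f ∈ B
      · exact mem_union_left _ hfB
      · refine mem_union_right _ ?_
        rw [hB, mem_filter, not_and] at hfB
        have h1 := hfB hf
        push Not at h1
        obtain ⟨g, g', hg, hg', h2⟩ := h1
        rcases hg with h | h <;> rcases hg' with h' | h' <;> rw [h, h'] at h2
        · exact mem_union_left _ (mem_union_left _ (mem_filter.2 ⟨hf, h2⟩))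
        · exact mem_union_left _ (mem_union_right _ (mem_filter.2 ⟨hf, h2⟩))
        · exact mem_union_right _ (mem_union_left _ (mem_filter.2 ⟨hf, h2⟩))
        · exact mem_union_right _ (mem_union_right _ (mem_filter.2 ⟨hf, h2⟩))
    have h4 := card_le_card hsub
    have h5 := card_union_le B
        ((((Fintype.piFinset V).filter (fun f => G (t + f 2 - 1 * f 0))) ∪
        ((Fintype.piFinset V).filter (fun f => G (t + f 3 - 1 * f 0)))) ∪
        (((Fintype.piFinset V).filter (fun f => G (t + f 2 - 1 * f 1))) ∪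
        ((Fintype.piFinset V).filter (fun f => G (t + f 3 - 1 * f 1)))))
    have h6 := card_union_le
        (((Fintype.piFinset V).filter (fun f => G (t + f 2 - 1 * f 0))) ∪
        ((Fintype.piFinset V).filter (fun f => G (t + f 3 - 1 * f 0))))
        (((Fintype.piFinset V).filter (fun f => G (t + f 2 - 1 * f 1))) ∪
        ((Fintype.piFinset V).filter (fun f => G (t + f 3 - 1 * f 1))))
    have h7 := card_union_le
        ((Fintype.piFinset V).filter (fun f => G (t + f 2 - 1 * f 0)))
        ((Fintype.piFinset V).filter (fun f => G (t + f 3 - 1 * f 0)))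
    have h8 := card_union_le
        ((Fintype.piFinset V).filter (fun f => G (t + f 2 - 1 * f 1)))
        ((Fintype.piFinset V).filter (fun f => G (t + f 3 - 1 * f 1)))
    have e02 : ((V 0 ×ˢ V 2).filter (fun z : ℕ × ℕ => G (t + z.2 - 1 * z.1))).card =
        prs G t 1 P P := rfl
    have e03 : ((V 0 ×ˢ V 3).filter (fun z : ℕ × ℕ => G (t + z.2 - 1 * z.1))).card =
        prs G t 1 P Q := rfl
    have e12 : ((V 1 ×ˢ V 2).filter (fun z : ℕ × ℕ => G (t + z.2 - 1 * z.1))).card =
        prs G t 1 Q P := rfl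
    have e13 : ((V 1 ×ˢ V 3).filter (fun z : ℕ × ℕ => G (t + z.2 - 1 * z.1))).card =
        prs G t 1 Q Q := rfl
    rw [e02] at h02
    rw [e03] at h03
    rw [e12] at h12
    rw [e13] at h13
    omega
  have hcov' : (R : ℝ) ^ 4 ≤ B.card + ((prs G t 1 P P : ℝ) + prs G t 1 P Q + prs G t 1 Q P +
      prs G t 1 Q Q) * (R : ℝ) ^ 2 := by
    rw [← hpi]
    have h1 : ((Fintype.piFinset V).card : ℝ) ≤ ((B.card +
      (prs G t 1 P P * (R * R) + prs G t 1 P Q * (R * R) + prs G t 1 Q P * (R * R) +
        prs G t 1 Q Q * (R * R)) : ℕ) : ℝ) := by exact_mod_cast hcov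
    refine h1.trans (le_of_eq ?_)
    push_cast
    ring
  have hR2 : (0 : ℝ) < (R : ℝ) ^ 2 := by
    have : (0 : ℝ) < R := by exact_mod_cast hR1
    positivity
  have h9 : (1 - ε) * (R : ℝ) ^ 2 * (R : ℝ) ^ 2 ≤ ((prs G t 1 P P : ℝ) + prs G t 1 P Q +
      prs G t 1 Q P + prs G t 1 Q Q) * (R : ℝ) ^ 2 := by
    nlinarith
  exact le_of_mul_le_mul_right h9 hR2

end Pool.Agent.TH899.UG.EC
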