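import Mathlib
import Pool.Agent.TH899.UG.EC1

/-! Gaps between consecutive primes in residue classes: the average over the translations. -/

set_option autoImplicit false

namespace Pool.Agent.TH899.UG.EC

open Finset Filter Topology
open Pool.Agent.TH899.UG.GD
open Pool.Agent.W59.GB (GapB)

theorem avoid4 (p : ℕ) (hp : p.Prime) (hp5 : 5 ≤ p) (l : Fin 4 → ℤ) :
    ∃ n : ℤ, ∀ i, ¬ ((p : ℤ) ∣ n + l i) := by
  classical
  haveI := Fact.mk hp
  let f : Fin 4 → ZMod p := fun i => ((-(l i) : ℤ) : ZMod p)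
  have hcard : (univ.image f).card < (univ : Finset (ZMod p)).card := by
    rw [card_univ, ZMod.card]
    have h2 : (univ.image f).card ≤ 4 := by
      refine card_image_le.trans ?_
      rw [card_univ, Fintype.card_fin]
    omega
  obtain ⟨w, -, hw⟩ := Finset.exists_mem_notMem_of_card_lt_card hcard
  refine ⟨(w.val : ℤ), fun i hd => hw (mem_image.2 ⟨i, mem_univ _, ?_⟩)⟩
  rw [← ZMod.intCast_zmod_eq_zero_iff_dvd] at hd
  push_cast at hd
  rw [ZMod.natCast_zmod_val] at hd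
  show ((-(l i) : ℤ) : ZMod p) = w
  push_cast
  linear_combination -hd

theorem avoid2 (v w : ℤ) : ∃ n : ℤ, ¬ ((3 : ℤ) ∣ n + v) ∧ ¬ ((3 : ℤ) ∣ n + w) := by
  have key : ∃ n : ℤ, (n = 0 ∨ n = 1 ∨ n = 2) ∧ ¬ ((3 : ℤ) ∣ n + v) ∧ ¬ ((3 : ℤ) ∣ n + w) := by
    by_contra hcon
    push Not at hcon
    have c0 := hcon 0 (Or.inl rfl)
    have c1 := hcon 1 (Or.inr (Or.inl rfl))
    have c2 := hcon 2 (Or.inr (Or.inr rfl))
    omega
  obtain ⟨n, -, h⟩ := key
  exact ⟨n, h⟩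

/-- local conditions -/
theorem locE (N q : ℕ) (Δ τ x1 x2 : ℤ) (h2 : 2 ∣ N)
    (h3 : 3 ∣ N * q ∨ (3 : ℤ) ∣ x1 - x2 ∨ (3 : ℤ) ∣ Δ + q * τ) (p : ℕ) (hp : p.Prime)
    (hpN : ¬ p ∣ N) :
    ∃ n : ℤ, ¬ ((p : ℤ) ∣ n + q * x1) ∧ ¬ ((p : ℤ) ∣ n + q * x2) ∧
      ¬ ((p : ℤ) ∣ n + (Δ + q * (τ + x1))) ∧ ¬ ((p : ℤ) ∣ n + (Δ + q * (τ + x2))) := by
  by_cases hp2 : p = 2
  · subst hp2
    exact absurd h2 hpN
  by_cases hp3 : p = 3
  · subst hp3
    push_cast
    rcases h3 with h | h | h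
    · have h4 : 3 ∣ q := (hp.dvd_mul.1 h).resolve_left hpN
      have h5 : (3 : ℤ) ∣ q := by exact_mod_cast h4
      obtain ⟨m, hm⟩ := h5
      obtain ⟨n, k1, k2⟩ := avoid2 0 Δ
      rw [hm]
      refine ⟨n, fun h => k1 ?_, fun h => k1 ?_, fun h => k2 ?_, fun h => k2 ?_⟩
      · have e : n + 0 = (n + 3 * m * x1) - 3 * (m * x1) := by ring
        rw [e]; exact dvd_sub h (dvd_mul_right _ _)
      · have e : n + 0 = (n + 3 * m * x2) - 3 * (m * x2) := by ring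
        rw [e]; exact dvd_sub h (dvd_mul_right _ _)
      · have e : n + Δ = (n + (Δ + 3 * m * (τ + x1))) - 3 * (m * (τ + x1)) := by ring
        rw [e]; exact dvd_sub h (dvd_mul_right _ _)
      · have e : n + Δ = (n + (Δ + 3 * m * (τ + x2))) - 3 * (m * (τ + x2)) := by ring
        rw [e]; exact dvd_sub h (dvd_mul_right _ _)
    · obtain ⟨n, k1, k2⟩ := avoid2 (q * x1) (Δ + q * (τ + x1))
      refine ⟨n, k1, fun h' => k1 ?_, k2, fun h' => k2 ?_⟩
      · have e : n + q * x1 = (n + q * x2) + q * (x1 - x2) := by ring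
        rw [e]; exact dvd_add h' (dvd_mul_of_dvd_right h _)
      · have e : n + (Δ + q * (τ + x1)) = (n + (Δ + q * (τ + x2))) + q * (x1 - x2) := by ring
        rw [e]; exact dvd_add h' (dvd_mul_of_dvd_right h _)
    · obtain ⟨n, k1, k2⟩ := avoid2 (q * x1) (q * x2)
      refine ⟨n, k1, k2, fun h' => k1 ?_, fun h' => k2 ?_⟩
      · have e : n + q * x1 = (n + (Δ + q * (τ + x1))) - (Δ + q * τ) := by ring
        rw [e]; exact dvd_sub h' h
      · have e : n + q * x2 = (n + (Δ + q * (τ + x2))) - (Δ + q * τ) := by ring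
        rw [e]; exact dvd_sub h' h
  · have hp5 : 5 ≤ p := by
      have h4 := hp.two_le
      have h5 : p ≠ 4 := by rintro rfl; exact absurd hp (by norm_num)
      omega
    obtain ⟨n, hn⟩ := avoid4 p hp hp5 ![q * x1, q * x2, Δ + q * (τ + x1), Δ + q * (τ + x2)]
    exact ⟨n, hn 0, hn 1, hn 2, hn 3⟩

/-- the number of the translations in a class modulo three -/
theorem cnt3 (D E b r : ℕ) (hr : r < 3) :
    (E - D) / 3 ≤ ((Ico D E).filter (fun t => (b + t) % 3 = r)).card := by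
  classical
  have h1 : (range ((E - D) / 3)).card ≤ ((Ico D E).filter (fun t => (b + t) % 3 = r)).card := by
    refine card_le_card_of_injOn (fun j => D + 3 * j + ((r + 3 - (b + D) % 3) % 3)) ?_ ?_
    · intro j hj
      have hj' := mem_range.1 (mem_coe.1 hj)
      refine mem_coe.2 (mem_filter.2 ⟨mem_Ico.2 ⟨?_, ?_⟩, ?_⟩)
      · show D ≤ D + 3 * j + ((r + 3 - (b + D) % 3) % 3)
        omega
      · show D + 3 * j + ((r + 3 - (b + D) % 3) % 3) < E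
        omega
      · show (b + (D + 3 * j + ((r + 3 - (b + D) % 3) % 3))) % 3 = r
        omega
    · intro j _ j' _ hjj
      have h2 : D + 3 * j + ((r + 3 - (b + D) % 3) % 3) =
        D + 3 * j' + ((r + 3 - (b + D) % 3) % 3) := hjj
      omega
  rwa [card_range] at h1

/-- the class of the translations when three does not divide `q` -/
theorem cls3 (q Δ : ℕ) (hq : ¬ 3 ∣ q) : ∃ r < 3, ∀ τ : ℕ, τ % 3 = r → (3 : ℤ) ∣ Δ + q * τ := by
  have h1 : q % 3 = 1 ∨ q % 3 = 2 := by omega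
  refine ⟨(2 * q * Δ) % 3, Nat.mod_lt _ (by norm_num), fun τ hτ => ?_⟩
  have h2 : (Δ + q * τ) % 3 = 0 := by
    rcases h1 with h | h
    · have e1 : (2 * q * Δ) % 3 = (2 * Δ) % 3 := by
        rw [Nat.mul_mod, Nat.mul_mod 2 q, h]
        simp [Nat.mul_mod]
      rw [e1] at hτ
      have e2 : (q * τ) % 3 = τ % 3 := by
        rw [Nat.mul_mod, h, one_mul, Nat.mod_mod]
      omega
    · have e1 : (2 * q * Δ) % 3 = Δ % 3 := by
        have : (2 * q) % 3 = 1 := by omega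
        rw [Nat.mul_mod, this, one_mul, Nat.mod_mod]
      rw [e1] at hτ
      have e2 : (q * τ) % 3 = (2 * (τ % 3)) % 3 := by
        rw [Nat.mul_mod, h]
      omega
  have h3 : 3 ∣ Δ + q * τ := Nat.dvd_of_mod_eq_zero h2
  exact_mod_cast h3

open Classical in
/-- **Main theorem.** -/
theorem ec (N a : ℕ) (hN : 0 < N) (h2 : 2 ∣ N) (hsq : Squarefree N) (ha : a.Coprime N)
    (ε : ℝ) (hε : 0 < ε) : ∃ K C : ℕ, 1 ≤ K ∧ ∀ q u L : ℕ, 1 ≤ q → 1 ≤ L →
    ((((Ioc u (u + L)).filter (fun k => q * k ∉ GapB N a)).card : ℝ) ≤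
      8 * K * (L : ℝ) ^ (1 - 1 / (K : ℝ))) ∨
    (∀ Δ b H : ℕ, C * (u + L) ≤ H →
      ((if 3 ∣ N * q then (1 / 4 : ℝ) else 1 / 6) - ε) * H ≤
        (((Ico b (b + H)).filter (fun s => Δ + q * s ∈ GapB N a)).card : ℝ)) := by
  obtain ⟨K₀, hK₀, HP⟩ := pt N a hN h2 hsq ha
  set ε₁ : ℝ := min ε 1 with hε₁
  have hε₁0 : 0 < ε₁ := lt_min hε one_pos
  have hε₁1 : ε₁ ≤ 1 := min_le_right _ _
  have hε₁6 : ε₁ ≤ ε := min_le_left _ _
  obtain ⟨R, hR1, HP⟩ := HP ε₁ hε₁0 hε₁1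
  set W : ℕ := (4 * K₀ + 3).factorial with hWd
  have hW0 : 0 < W := Nat.factorial_pos _
  obtain ⟨C₀, hC₀⟩ := exists_nat_ge (8 / ε)
  set C : ℕ := C₀ + 8 with hC
  refine ⟨2 * W * R, C, Nat.mul_pos (Nat.mul_pos (by norm_num) hW0) hR1, ?_⟩
  intro q u L hq hL
  by_cases hA : ((((Ioc u (u + L)).filter (fun k => q * k ∉ GapB N a)).card : ℝ) ≤
      8 * ((2 * W * R : ℕ) : ℝ) * (L : ℝ) ^ (1 - 1 / ((2 * W * R : ℕ) : ℝ)))
  · exact Or.inl hA
  right
  obtain ⟨P₀, Q₀, cP₀, cQ₀, hPc₀, hQc₀, hPQ₀, hPb₀, hPW₀, hQW₀, ⟨cP, hcP⟩, ⟨cQ, hcQ⟩, hbad₀⟩ :=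
    grid (2 * W) R (Nat.mul_pos (by norm_num) hW0) hR1 (fun k => q * k ∉ GapB N a) u L hL
      (by convert hA)
  have hev : ∀ (S : Finset ℕ) (c₀ c : ℤ), c₀ = 2 * c → (∀ x ∈ S, ((2 * W : ℕ) : ℤ) ∣ x - c₀) →
      ∀ x ∈ S, x = 2 * (x / 2) ∧ (W : ℤ) ∣ ((x / 2 : ℕ) : ℤ) - c := by
    intro S c₀ c hc hS x hx
    obtain ⟨m, hm⟩ := hS x hx
    rw [hc] at hm
    push_cast at hm
    have h1 : x = 2 * (x / 2) := by
      have h3 : (x : ℤ) = 2 * (c + W * m) := by linarith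
      omega
    refine ⟨h1, ⟨m, ?_⟩⟩
    have h3 : (x : ℤ) = 2 * ((x / 2 : ℕ) : ℤ) := by exact_mod_cast h1
    linarith
  have hevP := hev P₀ cP₀ cP hcP hPW₀
  have hevQ := hev Q₀ cQ₀ cQ hcQ hQW₀
  set P := P₀.image (fun x => x / 2) with hP
  set Q := Q₀.image (fun x => x / 2) with hQ
  have hPc : P.card = R := by
    rw [hP, card_image_of_injOn, hPc₀]
    intro x hx x' hx' hxx
    have h1 := (hevP x hx).1
    have h3 := (hevP x' hx').1
    have h4 : x / 2 = x' / 2 := hxx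
    omega
  have hQc : Q.card = R := by
    rw [hQ, card_image_of_injOn, hQc₀]
    intro x hx x' hx' hxx
    have h1 := (hevQ x hx).1
    have h3 := (hevQ x' hx').1
    have h4 : x / 2 = x' / 2 := hxx
    omega
  have hPQ : ∀ x ∈ P, ∀ y ∈ Q, y < x := by
    intro x hx y hy
    obtain ⟨x', hx', rfl⟩ := mem_image.1 hx
    obtain ⟨y', hy', rfl⟩ := mem_image.1 hy
    have h1 := (hevP x' hx').1
    have h3 := (hevQ y' hy').1
    have h4 := hPQ₀ x' hx' y' hy'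
    show y' / 2 < x' / 2
    omega
  set D : ℕ := u + 2 * L with hD
  have hPb : ∀ x ∈ P, x ≤ D := by
    intro x hx
    obtain ⟨x', hx', rfl⟩ := mem_image.1 hx
    have h1 := hPb₀ x' hx'
    show x' / 2 ≤ D
    omega
  have hPne : P.Nonempty := by rw [← card_pos]; omega
  have hQb : ∀ x ∈ Q, x ≤ D := by
    intro x hx
    obtain ⟨z, hz⟩ := hPne
    have h1 := hPQ z hz x hx
    have h3 := hPb z hz
    omega
  have hPW : ∀ x ∈ P, (W : ℤ) ∣ x - cP := by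
    intro x hx
    obtain ⟨x', hx', rfl⟩ := mem_image.1 hx
    exact (hevP x' hx').2
  have hQW : ∀ x ∈ Q, (W : ℤ) ∣ x - cQ := by
    intro x hx
    obtain ⟨x', hx', rfl⟩ := mem_image.1 hx
    exact (hevQ x' hx').2
  have hbad : ∀ x ∈ P, ∀ y ∈ Q, q * (x - y) ∉ GapB N a := by
    intro x hx y hy
    obtain ⟨x', hx', rfl⟩ := mem_image.1 hx
    obtain ⟨y', hy', rfl⟩ := mem_image.1 hy
    obtain ⟨k, hk1, hk2⟩ := hbad₀ x' hx' y' hy'
    have h1 := (hevP x' hx').1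
    have h3 := (hevQ y' hy').1
    have h4 : x' / 2 - y' / 2 = k := by omega
    show q * (x' / 2 - y' / 2) ∉ GapB N a
    rw [h4]
    exact hk1
  intro Δ b H hH1
  set G : ℤ → Prop := fun s => (Δ + q * s).toNat ∈ GapB N a with hG
  set 𝒢 : Finset ℕ := (Ico b (b + H)).filter (fun s => Δ + q * s ∈ GapB N a) with h𝒢
  -- the inequality for one translation
  have hone : ∀ t : ℕ, D < t →
      (3 ∣ N * q ∨ (3 : ℤ) ∣ cP - cQ ∨ (3 : ℤ) ∣ (Δ : ℤ) + q * ((b + t : ℕ) : ℤ)) →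
      (1 - ε₁) * (R : ℝ) ^ 2 ≤ (prs G ((b + t : ℕ) : ℤ) 1 P P : ℝ) + prs G ((b + t : ℕ) : ℤ) 1 P Q +
        prs G ((b + t : ℕ) : ℤ) 1 Q P + prs G ((b + t : ℕ) : ℤ) 1 Q Q := by
    intro t ht1 ht4
    refine HP q Δ (b + t) P Q hq hPc hQc hPQ ?_ ?_ hbad
    · intro x hx
      have := hPb x hx
      omega
    · intro p hp hpN hpK
      have hpW : (p : ℤ) ∣ W := by exact_mod_cast hp.dvd_factorial.2 (by omega)
      obtain ⟨n, h1, h3, h4, h5⟩ := locE N q Δ ((b + t : ℕ) : ℤ) cP cQ h2 ht4 p hp hpN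
      refine ⟨n, fun x hx => ?_⟩
      have key : ∀ c : ℤ, (W : ℤ) ∣ x - c → ¬ ((p : ℤ) ∣ n + q * c) →
          ¬ ((p : ℤ) ∣ n + (Δ + q * (((b + t : ℕ) : ℤ) + c))) →
          ¬ ((p : ℤ) ∣ n + q * x) ∧ ¬ ((p : ℤ) ∣ n + (Δ + q * (((b + t : ℕ) : ℤ) + x))) := by
        intro c hc k1 k2
        have k3 := hpW.trans hc
        refine ⟨fun k4 => k1 ?_, fun k4 => k2 ?_⟩
        · have e : n + q * c = (n + q * x) - q * (x - c) := by ring
          rw [e]; exact dvd_sub k4 (dvd_mul_of_dvd_right k3 _)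
        · have e : n + (Δ + q * (((b + t : ℕ) : ℤ) + c)) =
            (n + (Δ + q * (((b + t : ℕ) : ℤ) + x))) - q * (x - c) := by ring
          rw [e]; exact dvd_sub k4 (dvd_mul_of_dvd_right k3 _)
      rcases mem_union.1 hx with h | h
      · exact key cP (hPW x h) h1 h4
      · exact key cQ (hQW x h) h3 h5
  -- the range of the constants
  have hrange : ∀ t : ℕ, D < t → t < H - D → ∀ x y : ℕ, x ≤ D → y ≤ D →
      0 ≤ ((b + t : ℕ) : ℤ) + y - 1 * x ∧ (b : ℤ) ≤ ((b + t : ℕ) : ℤ) + y - 1 * x ∧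
      ((b + t : ℕ) : ℤ) + y - 1 * x < b + H := by
    intro t ht1 ht2 x y hx hy
    omega
  have hmemG : ∀ t : ℕ, D < t → t < H - D → ∀ x y : ℕ, x ≤ D → y ≤ D →
      G (((b + t : ℕ) : ℤ) + y - 1 * x) → (((b + t : ℕ) : ℤ) + y - 1 * x).toNat ∈ 𝒢 := by
    intro t ht1 ht2 x y hx hy hGG
    obtain ⟨k0, k1, k2⟩ := hrange t ht1 ht2 x y hx hy
    refine mem_filter.2 ⟨mem_Ico.2 ⟨by omega, by omega⟩, ?_⟩
    have e : ((Δ + q * (((b + t : ℕ) : ℤ) + y - 1 * x).toNat : ℕ) : ℤ) =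
        Δ + q * (((b + t : ℕ) : ℤ) + y - 1 * x) := by
      rw [Nat.cast_add, Nat.cast_mul, Int.toNat_of_nonneg k0]
    have h1 : (Δ + q * (((b + t : ℕ) : ℤ) + y - 1 * x)).toNat ∈ GapB N a := hGG
    rw [← e, Int.toNat_natCast] at h1
    exact h1
  have hR0 : (0 : ℝ) < (R : ℝ) ^ 2 := by
    have : (0 : ℝ) < R := by exact_mod_cast hR1
    positivity
  have hv : (1 : ℝ) ≤ ((u + L : ℕ) : ℝ) := by exact_mod_cast (by omega)
  have hHr : (C : ℝ) * ((u + L : ℕ) : ℝ) ≤ H := by exact_mod_cast hH1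
  have hCr : (8 / ε : ℝ) ≤ C := by
    rw [hC]; push_cast; linarith
  have hsm : 8 * ((u + L : ℕ) : ℝ) ≤ ε * H := by
    have h2 : (8 / ε) * ((u + L : ℕ) : ℝ) ≤ H :=
      (mul_le_mul_of_nonneg_right hCr (by linarith)).trans hHr
    have h3 := mul_le_mul_of_nonneg_left h2 hε.le
    have e : ε * (8 / ε * ((u + L : ℕ) : ℝ)) = 8 * ((u + L : ℕ) : ℝ) := by field_simp
    rw [e] at h3
    exact h3
  have hH0 : (0 : ℝ) ≤ H := Nat.cast_nonneg _
  -- the comparison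
  have hcomp : ∀ (m : ℕ) (𝒯 : Finset ℕ) (T : ℝ), (∀ t ∈ 𝒯, D < t ∧
      (3 ∣ N * q ∨ (3 : ℤ) ∣ cP - cQ ∨ (3 : ℤ) ∣ (Δ : ℤ) + q * ((b + t : ℕ) : ℤ))) →
      T ≤ 𝒯.card →
      (∑ t ∈ 𝒯, prs G ((b + t : ℕ) : ℤ) 1 P P + ∑ t ∈ 𝒯, prs G ((b + t : ℕ) : ℤ) 1 P Q +
        ∑ t ∈ 𝒯, prs G ((b + t : ℕ) : ℤ) 1 Q P + ∑ t ∈ 𝒯, prs G ((b + t : ℕ) : ℤ) 1 Q Q) ≤
        m * (R * R) * 𝒢.card →
      (1 - ε₁) * T ≤ m * (𝒢.card : ℝ) := by
    intro m 𝒯 T h𝒯 hcard hsum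
    have h1 : ∑ t ∈ 𝒯, (1 - ε₁) * (R : ℝ) ^ 2 ≤ ∑ t ∈ 𝒯,
        ((prs G ((b + t : ℕ) : ℤ) 1 P P : ℝ) + prs G ((b + t : ℕ) : ℤ) 1 P Q +
        prs G ((b + t : ℕ) : ℤ) 1 Q P + prs G ((b + t : ℕ) : ℤ) 1 Q Q) :=
      sum_le_sum fun t ht => hone t (h𝒯 t ht).1 (h𝒯 t ht).2
    rw [sum_const, nsmul_eq_mul, sum_add_distrib, sum_add_distrib, sum_add_distrib] at h1
    have h2 : (∑ t ∈ 𝒯, (prs G ((b + t : ℕ) : ℤ) 1 P P : ℝ) +
        ∑ t ∈ 𝒯, (prs G ((b + t : ℕ) : ℤ) 1 P Q : ℝ) +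
        ∑ t ∈ 𝒯, (prs G ((b + t : ℕ) : ℤ) 1 Q P : ℝ) +
        ∑ t ∈ 𝒯, (prs G ((b + t : ℕ) : ℤ) 1 Q Q : ℝ)) ≤ m * (R * R) * 𝒢.card := by
      exact_mod_cast hsum
    have h4 : T * ((1 - ε₁) * (R : ℝ) ^ 2) ≤ (𝒯.card : ℝ) * ((1 - ε₁) * (R : ℝ) ^ 2) :=
      mul_le_mul_of_nonneg_right hcard (mul_nonneg (by linarith) hR0.le)
    have h5 : (R : ℝ) ^ 2 * ((1 - ε₁) * T) ≤ (R : ℝ) ^ 2 * (m * 𝒢.card) := by
      calc (R : ℝ) ^ 2 * ((1 - ε₁) * T) = T * ((1 - ε₁) * (R : ℝ) ^ 2) := by ring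
        _ ≤ (𝒯.card : ℝ) * ((1 - ε₁) * (R : ℝ) ^ 2) := h4
        _ ≤ m * (R * R) * 𝒢.card := h1.trans h2
        _ = _ := by ring
    exact le_of_mul_le_mul_left h5 hR0
  by_cases hx : 3 ∣ N * q ∨ (3 : ℤ) ∣ cP - cQ
  · -- all translations
    have hmain : (1 - ε₁) * ((H : ℝ) - 8 * ((u + L : ℕ) : ℝ)) ≤ (4 : ℕ) * (𝒢.card : ℝ) := by
      refine hcomp 4 (Ico (D + 1) (H - D)) _ ?_ ?_ ?_
      · intro t ht
        rw [mem_Ico] at ht
        refine ⟨by omega, ?_⟩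
        rcases hx with h | h
        · exact Or.inl h
        · exact Or.inr (Or.inl h)
      · rw [Nat.card_Ico]
        have h1 : H ≤ (H - D - (D + 1)) + 8 * (u + L) := by omega
        have h3 : (H : ℝ) ≤ ((H - D - (D + 1) : ℕ) : ℝ) + 8 * ((u + L : ℕ) : ℝ) := by
          exact_mod_cast h1
        linarith
      · have hT : ∀ t ∈ Ico (D + 1) (H - D), D < t ∧ t < H - D := by
          intro t ht
          rw [mem_Ico] at ht
          exact ⟨by omega, ht.2⟩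
        have key : ∀ X Y : Finset ℕ, (∀ x ∈ X, x ≤ D) → (∀ y ∈ Y, y ≤ D) → X.card = R →
            Y.card = R → ∑ t ∈ Ico (D + 1) (H - D), prs G ((b + t : ℕ) : ℤ) 1 X Y ≤
              R * R * 𝒢.card := by
          intro X Y hX hY hXc hYc
          have h1 := sumT G b 1 (Ico (D + 1) (H - D)) X Y 𝒢 (fun t ht x hx y hy =>
            ⟨(hrange t (hT t ht).1 (hT t ht).2 x y (hX x hx) (hY y hy)).1,
              hmemG t (hT t ht).1 (hT t ht).2 x y (hX x hx) (hY y hy)⟩)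
          rwa [hXc, hYc] at h1
        have h1 := key P P hPb hPb hPc hPc
        have h2 := key P Q hPb hQb hPc hQc
        have h3 := key Q P hQb hPb hQc hPc
        have h4 := key Q Q hQb hQb hQc hQc
        have e : 4 * (R * R) * 𝒢.card = R * R * 𝒢.card + R * R * 𝒢.card + R * R * 𝒢.card +
          R * R * 𝒢.card := by ring
        rw [e]
        omega
    push_cast at hmain
    have h3 : (1 / 4 - ε) * (H : ℝ) ≤ 𝒢.card := by
      have h4 : (1 - ε₁) * ((H : ℝ) - ε * H) ≤ (1 - ε₁) * ((H : ℝ) - 8 * ((u + L : ℕ) : ℝ)) :=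
        mul_le_mul_of_nonneg_left (by linarith) (by linarith)
      have h5 : (0 : ℝ) ≤ ε₁ * (ε * H) := by positivity
      have h6 : ε₁ * (H : ℝ) ≤ ε * H := mul_le_mul_of_nonneg_right hε₁6 hH0
      push_cast at h4
      have e1 : (1 - ε₁) * ((H : ℝ) - ε * H) = H - ε * H - ε₁ * H + ε₁ * (ε * H) := by ring
      have h7 : (0 : ℝ) ≤ ε * H := by positivity
      rw [e1] at h4
      linarith
    split_ifs with h
    · exact h3
    · have h4 : (1 / 6 - ε) * (H : ℝ) ≤ (1 / 4 - ε) * H :=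
        mul_le_mul_of_nonneg_right (by linarith) hH0
      exact h4.trans h3
  · -- one class of translations
    have hx1 : ¬ 3 ∣ N * q := fun h => hx (Or.inl h)
    have hx2 : ¬ (3 : ℤ) ∣ cP - cQ := fun h => hx (Or.inr h)
    have hq3 : ¬ 3 ∣ q := fun h => hx1 (dvd_mul_of_dvd_right h _)
    obtain ⟨r, hr, hcls⟩ := cls3 q Δ hq3
    rw [if_neg hx1]
    have hmain : (1 - ε₁) * (((H : ℝ) - 8 * ((u + L : ℕ) : ℝ)) / 3) ≤ (2 : ℕ) * (𝒢.card : ℝ) := by
      refine hcomp 2 ((Ico (D + 1) (H - D)).filter (fun t => (b + t) % 3 = r)) _ ?_ ?_ ?_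
      · intro t ht
        obtain ⟨h1, h2⟩ := mem_filter.1 ht
        rw [mem_Ico] at h1
        exact ⟨by omega, Or.inr (Or.inr (hcls _ h2))⟩
      · have h1 := cnt3 (D + 1) (H - D) b r hr
        have h3 : H ≤ 3 * ((Ico (D + 1) (H - D)).filter (fun t => (b + t) % 3 = r)).card +
          8 * (u + L) := by omega
        have h4 : (H : ℝ) ≤ 3 * (((Ico (D + 1) (H - D)).filter
            (fun t => (b + t) % 3 = r)).card : ℝ) + 8 * ((u + L : ℕ) : ℝ) := by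
          exact_mod_cast h3
        linarith
      · set 𝒯 := (Ico (D + 1) (H - D)).filter (fun t => (b + t) % 3 = r) with h𝒯
        have hT : ∀ t ∈ 𝒯, D < t ∧ t < H - D ∧ (b + t) % 3 = r := by
          intro t ht
          obtain ⟨h1, h2⟩ := mem_filter.1 ht
          rw [mem_Ico] at h1
          exact ⟨by omega, h1.2, h2⟩
        have h3W : (3 : ℤ) ∣ W := by
          exact_mod_cast Nat.prime_three.dvd_factorial.2 (by omega)
        have key : ∀ (X Y : Finset ℕ) (cX cY : ℤ), (∀ x ∈ X, x ≤ D) → (∀ y ∈ Y, y ≤ D) →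
            X.card = R → Y.card = R → (∀ x ∈ X, (W : ℤ) ∣ x - cX) → (∀ y ∈ Y, (W : ℤ) ∣ y - cY) →
            ∑ t ∈ 𝒯, prs G ((b + t : ℕ) : ℤ) 1 X Y ≤
              R * R * (𝒢.filter (fun c : ℕ => (3 : ℤ) ∣ (c : ℤ) - (r + cY - cX))).card := by
          intro X Y cX cY hX hY hXc hYc hXW hYW
          have h1 := sumT G b 1 𝒯 X Y (𝒢.filter (fun c : ℕ => (3 : ℤ) ∣ (c : ℤ) - (r + cY - cX)))
            (fun t ht x hx y hy => by
              obtain ⟨k1, k2, k3⟩ := hT t ht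
              have k4 := hrange t k1 k2 x y (hX x hx) (hY y hy)
              refine ⟨k4.1, fun hGG => mem_filter.2
                ⟨hmemG t k1 k2 x y (hX x hx) (hY y hy) hGG, ?_⟩⟩
              rw [Int.toNat_of_nonneg k4.1]
              have k5 := h3W.trans (hXW x hx)
              have k6 := h3W.trans (hYW y hy)
              have e : ((b + t : ℕ) : ℤ) + y - 1 * x - (r + cY - cX) =
                (((b + t : ℕ) : ℤ) - r) + (y - cY) - (x - cX) := by ring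
              rw [e]
              refine dvd_sub (dvd_add ?_ k6) k5
              omega)
          rwa [hXc, hYc] at h1
        have hdis : ∀ cX : ℤ, (𝒢.filter (fun c : ℕ => (3 : ℤ) ∣ (c : ℤ) - (r + cP - cX))).card +
            (𝒢.filter (fun c : ℕ => (3 : ℤ) ∣ (c : ℤ) - (r + cQ - cX))).card ≤ 𝒢.card := by
          intro cX
          rw [← card_union_of_disjoint (by
            rw [Finset.disjoint_left]
            intro c h1 h2
            have h3 := (mem_filter.1 h1).2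
            have h4 := (mem_filter.1 h2).2
            apply hx2
            have e : cP - cQ = ((c : ℤ) - (r + cQ - cX)) - ((c : ℤ) - (r + cP - cX)) := by ring
            rw [e]
            exact dvd_sub h4 h3)]
          apply card_le_card
          intro c hc
          rcases mem_union.1 hc with h | h
          · exact (mem_filter.1 h).1
          · exact (mem_filter.1 h).1
        have h1 := key P P cP cP hPb hPb hPc hPc hPW hPW
        have h2 := key P Q cP cQ hPb hQb hPc hQc hPW hQW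
        have h3 := key Q P cQ cP hQb hPb hQc hPc hQW hPW
        have h4 := key Q Q cQ cQ hQb hQb hQc hQc hQW hQW
        have h5 := Nat.mul_le_mul_left (R * R) (hdis cP)
        have h7 := Nat.mul_le_mul_left (R * R) (hdis cQ)
        rw [mul_add] at h5 h7
        have e : 2 * (R * R) * 𝒢.card = R * R * 𝒢.card + R * R * 𝒢.card := by ring
        rw [e]
        omega
    push_cast at hmain
    have h4 : (1 - ε₁) * (((H : ℝ) - ε * H) / 3) ≤
        (1 - ε₁) * (((H : ℝ) - 8 * ((u + L : ℕ) : ℝ)) / 3) :=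
      mul_le_mul_of_nonneg_left (by linarith) (by linarith)
    have h5 : (0 : ℝ) ≤ ε₁ * (ε * H) := by positivity
    have h6 : ε₁ * (H : ℝ) ≤ ε * H := mul_le_mul_of_nonneg_right hε₁6 hH0
    push_cast at h4
    have e1 : (1 - ε₁) * (((H : ℝ) - ε * H) / 3) = (H - ε * H - ε₁ * H + ε₁ * (ε * H)) / 3 := by ring
    have h7 : (0 : ℝ) ≤ ε * H := by positivity
    rw [e1] at h4
    linarith

end Pool.Agent.TH899.UG.EC
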