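import Pool.Agent.W142.TB.All
import Pool.Agent.TH899.UG.Qd

/-!
# More than half of the multiples in windows, for an arbitrary set of differences of many classes
(after `Pool.Agent.W142.TB.Fin`)
-/

set_option autoImplicit false
open Filter Topology Finset

namespace Pool.Agent.TH899.UG

open Pool.Agent.H947R3.GM Pool.Agent.W59.GB Pool.Agent.W142.TF Pool.Agent.W142.TB

/-- more than half of the multiples: `n` depends only on the constant `c` -/
theorem mth (c₁ : ℝ) (hc0 : 0 < c₁) (hc1 : c₁ < 1) : ∃ n : ℕ, 1 ≤ n ∧ ∀ (K : ℕ) (G : Set ℕ),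
    (∀ H : Fin n → Fin K → ℕ, Function.Injective (fun x : Fin n × Fin K => H x.1 x.2) →
      (∀ g i, (n * K).factorial ∣ H g i) →
      ∃ (F : Finset (Fin n)) (c : Fin n → Fin K), (n : ℝ) ≤ (4 - c₁) * F.card ∧
        ∀ g ∈ F, ∀ g' ∈ F, H g (c g) < H g' (c g') → H g' (c g') - H g (c g) ∈ G) →
    ∃ M : ℕ, 0 < M ∧ ∀ N : ℕ, 0 < N → M ∣ N → ∃ L : ℕ, ∀ T : ℕ, L ≤ T → ∀ u : ℕ,
      (1 / 2 + c₁ / 16) * T ≤ ({k : ℕ | u < k ∧ k ≤ u + T ∧ N * k ∈ G}.ncard : ℝ) := by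
  classical
  obtain ⟨β, hβ⟩ : ∃ β : ℝ, β = 1 / (4 - c₁) := ⟨_, rfl⟩
  have h4 : 0 < 4 - c₁ := by linarith
  have hβ5 : 1 / 5 ≤ β := by
    rw [hβ, div_le_div_iff₀ (by norm_num) h4]; linarith
  have hβ2 : β ≤ 1 / 2 := by
    rw [hβ, div_le_div_iff₀ h4 (by norm_num)]; linarith
  have hβc : 1 / 2 + c₁ / 8 ≤ 2 * β := by
    have e : β * (4 - c₁) = 1 := by rw [hβ]; field_simp
    nlinarith
  obtain ⟨n₀, hn₀⟩ := s_maiB β hβ5 hβ2 (c₁ / 16) (by positivity)
  obtain ⟨n, hn⟩ : ∃ n, n = max n₀ 1 := ⟨_, rfl⟩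
  have hnn₀ : n₀ ≤ n := by omega
  have hn1 : 1 ≤ n := by omega
  refine ⟨n, hn1, fun K G hQ => ?_⟩
  obtain ⟨M, hM, hall⟩ := windows G (n * K).factorial (Nat.factorial_pos _) (2 * β) (c₁ / 16)
    (fun hall => by
      obtain ⟨Q, A, s, hs, hQ1, hinj, hcr⟩ := hn₀ n hnn₀
        {k : ℤ | (((n * K).factorial : ℕ) : ℤ) * k ∈ Cpl G}
        (fun M hM => by
          obtain ⟨Q, h1, h2, h3⟩ := hall M hM
          exact ⟨Q, h1, h2, fun L₀ => h3 L₀⟩) (n * K)
      -- distinct points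
      obtain ⟨σ, hσ1, hσ2⟩ := select_aux n K (fun g i => (Q g : ℤ) * A g i) (fun g => by
        intro x hx y hy hxy
        have hQ0 : (Q g : ℤ) ≠ 0 := by have := hQ1 g; omega
        exact hinj g hx hy (mul_left_cancel₀ hQ0 hxy)) n le_rfl
      obtain ⟨H, C, hH⟩ := points n K (n * K).factorial Q (fun g i => A g (σ g i))
      have hM0 : (((n * K).factorial : ℕ) : ℤ) ≠ 0 := by exact_mod_cast (Nat.factorial_pos (n * K)).ne'
      have hHinj : ∀ (g g' : Fin n) (i i' : Fin K), H g i = H g' i' → g = g' ∧ i = i' := by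
        intro g g' i i' h
        have e : (((n * K).factorial : ℕ) : ℤ) * (Q g * A g (σ g i) + C) =
            ((n * K).factorial : ℕ) * (Q g' * A g' (σ g' i') + C) := by rw [← hH, ← hH, h]
        have e1 := mul_left_cancel₀ hM0 e
        have e2 : (Q g : ℤ) * A g (σ g i) = Q g' * A g' (σ g' i') := by linarith
        have e3 := hσ2 g g.2 g' g'.2 i i.2 i' i'.2 e2
        exact ⟨Fin.ext e3.1, Fin.ext e3.2⟩
      obtain ⟨S, c, hS, hB⟩ := hQ H (fun x y h => by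
        have := hHinj x.1 y.1 x.2 y.2 h
        exact Prod.ext this.1 this.2) (fun g i => by
        have h1 : (((n * K).factorial : ℕ) : ℤ) ∣ (H g i : ℤ) := by
          rw [hH]
          exact dvd_mul_right _ _
        exact_mod_cast h1)
      obtain ⟨i, hi, j, hj, hij⟩ := hs.2 (S.map Fin.valEmbedding) (fun x hx => by
        rw [Finset.mem_map] at hx
        obtain ⟨y, _, rfl⟩ := hx
        exact mem_range.2 y.2) (by
          rw [card_map, hβ, one_div, inv_mul_le_iff₀ h4]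
          exact hS)
      rw [Finset.mem_map] at hi hj
      obtain ⟨i', hi', rfl⟩ := hi
      obtain ⟨j', hj', rfl⟩ := hj
      have hd := hcr j' j'.2 i' hij (σ j' (c j')) (σ i' (c i')) (hσ1 _ j'.2 _ (c j').2) (hσ1 _ i'.2 _ (c i').2)
      have h := not_Cpl C (hH j' (c j')) (hH i' (c i')) hd
      rcases lt_or_gt_of_ne h.1 with hlt | hlt
      · exact h.2.1 hlt (hB j' hj' i' hi' hlt)
      · exact h.2.2 hlt (hB i' hi' j' hj' hlt))
  refine ⟨M, hM, fun N hN hd => ?_⟩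
  obtain ⟨L, hL⟩ := hall N hN hd
  refine ⟨L, fun T hT u => le_trans ?_ (hL T hT u)⟩
  exact mul_le_mul_of_nonneg_right (by linarith) (Nat.cast_nonneg _)

end Pool.Agent.TH899.UG
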