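import Mathlib
import Pool.Agent.TH899.UG.OGd
import Pool.Agent.TH899.UG.ExU

/-! More than half of the multiples, at every scale and for every step. -/

set_option autoImplicit false

namespace Pool.Agent.TH899.UG.UHalf

open Finset Filter Topology
open Pool.Agent.TH899.UG.Uni

/-- a finite, uniform form of the theorem on more than half of the multiples -/
theorem fin_half (c₁ : ℝ) (hc0 : 0 < c₁) (hc1 : c₁ < 1) : ∃ n : ℕ, 1 ≤ n ∧ ∀ K T₀ : ℕ, ∃ b : ℕ,
    ∀ G : Set ℕ,
    (∀ H : Fin n → Fin K → ℕ, Function.Injective (fun x : Fin n × Fin K => H x.1 x.2) →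
      (∀ g i, (n * K).factorial ∣ H g i) → (∀ g i, H g i ≤ b) →
      ∃ (F : Finset (Fin n)) (c : Fin n → Fin K), (n : ℝ) ≤ (4 - c₁) * F.card ∧
        ∀ g ∈ F, ∀ g' ∈ F, H g (c g) < H g' (c g') → H g' (c g') - H g (c g) ∈ G) →
    ∃ M T : ℕ, 1 ≤ M ∧ T₀ ≤ T ∧ M * T ≤ b ∧
      (1 / 2 + c₁ / 16) * T ≤ ({k : ℕ | 0 < k ∧ k ≤ T ∧ M * k ∈ G}.ncard : ℝ) := by
  classical
  obtain ⟨n, hn, H⟩ := mth c₁ hc0 hc1
  refine ⟨n, hn, fun K T₀ => ?_⟩
  by_contra hcon
  push Not at hcon
  choose G hG1 hG2 using hcon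
  set 𝒰 : Ultrafilter ℕ := hyperfilter ℕ with h𝒰
  have hat : ∀ B : ℕ, ∀ᶠ b in (𝒰 : Filter ℕ), B ≤ b := fun B =>
    Nat.hyperfilter_le_atTop (eventually_ge_atTop B)
  set G' : Set ℕ := {x | ∀ᶠ b in (𝒰 : Filter ℕ), x ∈ G b} with hG'
  obtain ⟨M, hM, h2⟩ := H K G' (by
    intro h hinj hdiv
    have h3 : ∀ b : ℕ, ∃ Fc : Finset (Fin n) × (Fin n → Fin K), (∀ g i, h g i ≤ b) →
        (n : ℝ) ≤ (4 - c₁) * Fc.1.card ∧
        ∀ g ∈ Fc.1, ∀ g' ∈ Fc.1, h g (Fc.2 g) < h g' (Fc.2 g') →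
          h g' (Fc.2 g') - h g (Fc.2 g) ∈ G b := by
      intro b
      by_cases hb : ∀ g i, h g i ≤ b
      · obtain ⟨F, c, h4, h5⟩ := hG1 b h hinj hdiv hb
        exact ⟨(F, c), fun _ => ⟨h4, h5⟩⟩
      · by_cases hne : Nonempty (Finset (Fin n) × (Fin n → Fin K))
        · exact ⟨hne.some, fun h => absurd h hb⟩
        · exfalso
          apply hb
          intro g i
          exact absurd ⟨(∅, fun _ => i)⟩ hne
    choose Fc hFc using h3
    obtain ⟨x, hx⟩ := Ultrafilter.eq_pure_of_finite (𝒰.map Fc)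
    have h4 : ∀ᶠ b in (𝒰 : Filter ℕ), Fc b = x := by
      have h5 : {x} ∈ (𝒰.map Fc) := by
        rw [hx]
        exact Set.mem_singleton x
      exact h5
    have h5 : ∀ᶠ b in (𝒰 : Filter ℕ), ∀ g i, h g i ≤ b := by
      rw [Filter.eventually_all]
      intro g
      rw [Filter.eventually_all]
      intro i
      exact hat _
    have h6 : ∀ᶠ b in (𝒰 : Filter ℕ), (n : ℝ) ≤ (4 - c₁) * x.1.card ∧
        ∀ g ∈ x.1, ∀ g' ∈ x.1, h g (x.2 g) < h g' (x.2 g') →
          h g' (x.2 g') - h g (x.2 g) ∈ G b := by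
      filter_upwards [h4, h5] with b hb1 hb2
      have h7 := hFc b hb2
      rw [hb1] at h7
      exact h7
    refine ⟨x.1, x.2, ?_, fun g hg g' hg' hlt => ?_⟩
    · obtain ⟨b, hb⟩ := h6.exists
      exact hb.1
    · show ∀ᶠ b in (𝒰 : Filter ℕ), _ ∈ G b
      filter_upwards [h6] with b hb
      exact hb.2 g hg g' hg' hlt)
  obtain ⟨L, hL⟩ := h2 M hM (dvd_refl M)
  set T := max L T₀ with hT
  have h3 := hL T (le_max_left _ _) 0
  have h4 : ∀ᶠ b in (𝒰 : Filter ℕ), ∀ k ∈ Finset.range (T + 1), M * k ∈ G' → M * k ∈ G b := by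
    rw [Filter.eventually_all_finset]
    intro k _
    by_cases hk : M * k ∈ G'
    · have h5 : ∀ᶠ b in (𝒰 : Filter ℕ), M * k ∈ G b := hk
      filter_upwards [h5] with b hb _
      exact hb
    · exact Filter.Eventually.of_forall fun b h => absurd h hk
  obtain ⟨b, hb1, hb2⟩ := (h4.and (hat (M * T))).exists
  have h5 := hG2 b M T hM (le_max_right _ _) hb2
  refine absurd (h3.trans ?_) (not_le.2 h5)
  rw [Nat.cast_le]
  refine Set.ncard_le_ncard ?_ ((Set.finite_Iic T).subset fun k hk => hk.2.1)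
  intro k hk
  have hkT : k ≤ T := by
    have := hk.2.1
    omega
  exact ⟨hk.1, hkT, hb1 k (Finset.mem_range.2 (Nat.lt_succ_of_le hkT)) hk.2.2⟩

/-- **Main theorem.** -/
theorem uhalf : ∃ δ : ℝ, 0 < δ ∧ ∀ T₀ : ℕ, ∃ b : ℕ, ∀ η : ℝ, 0 < η → ∀ᶠ N : ℕ in atTop,
    ∀ B : ℕ, 1 ≤ B → b * B ≤ N → ∃ M T : ℕ, 1 ≤ M ∧ T₀ ≤ T ∧ M * T ≤ b ∧
      (1 / 2 + δ) * T ≤ ({k : ℕ | 0 < k ∧ k ≤ T ∧
        (N : ℝ) ^ (1 - η) ≤ (((Icc 1 (2 * N)).filter (fun p : ℕ =>
          p.Prime ∧ (p + B * (M * k)).Prime)).card : ℝ)}.ncard : ℝ) := by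
  classical
  obtain ⟨c, hc, hc1, HE⟩ := exactU
  obtain ⟨n, hn, HF⟩ := fin_half c hc hc1
  refine ⟨c / 16, by positivity, fun T₀ => ?_⟩
  have h4 : 0 < 4 - c := by linarith
  -- the number of classes
  obtain ⟨m, hm1, hm2⟩ : ∃ m : ℕ, (4 - c) * m < n ∧ (n : ℝ) ≤ (4 - c) * (m + 1) := by
    have hex : ∃ m : ℕ, (n : ℝ) ≤ (4 - c) * (m + 1) := by
      obtain ⟨m, hm⟩ := exists_nat_gt ((n : ℝ) / (4 - c))
      refine ⟨m, ?_⟩
      rw [div_lt_iff₀ h4] at hm
      nlinarith
    refine ⟨Nat.find hex, ?_, Nat.find_spec hex⟩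
    rcases Nat.eq_zero_or_pos (Nat.find hex) with h0 | h0
    · rw [h0]
      have : (1 : ℝ) ≤ n := by exact_mod_cast hn
      simp only [Nat.cast_zero, mul_zero]
      linarith
    · have h1 : ¬ (n : ℝ) ≤ (4 - c) * (((Nat.find hex - 1 : ℕ) : ℝ) + 1) :=
        Nat.find_min hex (by omega)
      have h2 : (((Nat.find hex - 1 : ℕ) : ℝ) + 1) = Nat.find hex := by
        have h3 : (Nat.find hex - 1) + 1 = Nat.find hex := by omega
        exact_mod_cast h3
      rw [h2, not_le] at h1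
      exact h1
  obtain ⟨K, hK, HE⟩ := HE n m hn hm1
  obtain ⟨b, hb⟩ := HF K T₀
  refine ⟨b, fun η hη => ?_⟩
  filter_upwards [HE 1 η hη, eventually_ge_atTop 1] with N hN hN1
  intro B hB hBN
  obtain ⟨M, T, h1, h2, h3, h5⟩ := hb {x : ℕ | (N : ℝ) ^ (1 - η) ≤
      (((Icc 1 (2 * N)).filter (fun p : ℕ => p.Prime ∧ (p + B * x).Prime)).card : ℝ)} (by
    intro H hinj hdiv hHb
    have hHN : ∀ g i, B * H g i ≤ N := fun g i =>
      (Nat.mul_le_mul_left B (hHb g i)).trans (by rw [mul_comm]; exact hBN)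
    obtain ⟨S, σ, hS, hcnt⟩ := hN (fun _ _ => 1) (fun g i => ((B * H g i : ℕ) : ℤ))
      (fun _ _ => one_ne_zero) (fun _ _ => by simp)
      (fun g i => by
        have h6 := hHN g i
        rw [abs_of_nonneg (Nat.cast_nonneg _)]
        have h7 : ((B * H g i : ℕ) : ℤ) ≤ N := by exact_mod_cast h6
        have h8 : (0 : ℤ) ≤ N := Nat.cast_nonneg _
        linarith)
      (fun g i y hy1 _ => by
        have h6 : (0 : ℝ) ≤ ((B * H g i : ℕ) : ℤ) := by positivity
        have h7 : (0 : ℝ) ≤ N := Nat.cast_nonneg _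
        push_cast at h6 ⊢
        linarith)
      (by
        rintro ⟨g, i⟩ ⟨g', i'⟩ h
        have h6 : ((B * H g i : ℕ) : ℤ) = ((B * H g' i' : ℕ) : ℤ) := congrArg Prod.snd h
        have h7 : B * H g i = B * H g' i' := by exact_mod_cast h6
        exact hinj (Nat.eq_of_mul_eq_mul_left hB h7))
      (by
        intro p hp
        by_cases hpn : p ≤ n * K
        · refine ⟨1, fun g i hd => ?_⟩
          have h6 : (p : ℤ) ∣ ((B * H g i : ℕ) : ℤ) := by
            have h7 : p ∣ B * H g i :=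
              ((hp.dvd_factorial.2 hpn).trans (hdiv g i)).mul_left B
            exact_mod_cast h7
          have h7 : (p : ℤ) ∣ 1 := by
            have h8 := dvd_sub hd h6
            simpa using h8
          have h9 : (p : ℤ) ≤ 1 := Int.le_of_dvd one_pos h7
          have h10 := hp.one_lt
          omega
        · haveI := Fact.mk hp
          let f : Fin n × Fin K → ZMod p := fun x => - ((B * H x.1 x.2 : ℕ) : ZMod p)
          have hcard : (univ.image f).card < (univ : Finset (ZMod p)).card := by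
            rw [card_univ, ZMod.card]
            have h2 : (univ.image f).card ≤ n * K := by
              refine card_image_le.trans ?_
              rw [card_univ, Fintype.card_prod, Fintype.card_fin, Fintype.card_fin]
            omega
          obtain ⟨w, -, hw⟩ := Finset.exists_mem_notMem_of_card_lt_card hcard
          refine ⟨(w.val : ℤ), fun g i hd => hw (mem_image.2 ⟨(g, i), mem_univ _, ?_⟩)⟩
          rw [← ZMod.intCast_zmod_eq_zero_iff_dvd] at hd
          push_cast at hd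
          rw [ZMod.natCast_zmod_val] at hd
          show - ((B * H g i : ℕ) : ZMod p) = w
          push_cast
          linear_combination -hd)
    refine ⟨S, σ, ?_, fun g hg g' hg' hlt => ?_⟩
    · have h6 : ((m : ℝ) + 1) ≤ S.card := by exact_mod_cast hS
      exact hm2.trans (mul_le_mul_of_nonneg_left h6 h4.le)
    · show (N : ℝ) ^ (1 - η) ≤ _
      refine hcnt.trans ?_
      rw [Nat.cast_le]
      refine card_le_card_of_injOn (fun x : ℕ => x + B * H g (σ g)) ?_ ?_
      · intro x hx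
        rw [mem_coe, mem_filter] at hx
        obtain ⟨hx1, hx2⟩ := hx
        rw [mem_Icc] at hx1
        have p1 := hx2 g hg
        have p2 := hx2 g' hg'
        have e1 : (1 * (x : ℤ) + ((B * H g (σ g) : ℕ) : ℤ)).toNat = x + B * H g (σ g) := by
          rw [one_mul]; norm_cast
        have e2 : (1 * (x : ℤ) + ((B * H g' (σ g') : ℕ) : ℤ)).toNat = x + B * H g' (σ g') := by
          rw [one_mul]; norm_cast
        rw [e1] at p1
        rw [e2] at p2
        have h6 := hHN g (σ g)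
        refine mem_coe.2 (mem_filter.2 ⟨mem_Icc.2 ⟨?_, ?_⟩, p1, ?_⟩)
        · show 1 ≤ x + B * H g (σ g)
          omega
        · show x + B * H g (σ g) ≤ 2 * N
          omega
        show (x + B * H g (σ g) + B * (H g' (σ g') - H g (σ g))).Prime
        have e3 : x + B * H g (σ g) + B * (H g' (σ g') - H g (σ g)) = x + B * H g' (σ g') := by
          rw [Nat.mul_sub]
          have h7 : B * H g (σ g) ≤ B * H g' (σ g') := Nat.mul_le_mul_left B hlt.le
          omega
        rw [e3]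
        exact p2
      · intro x _ x' _ hxx
        have h6 : x + B * H g (σ g) = x' + B * H g (σ g) := hxx
        omega)
  exact ⟨M, T, h1, h2, h3, h5⟩

end Pool.Agent.TH899.UG.UHalf
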