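import Mathlib
import Pool.Agent.TH899.UG.ExL
import Pool.Agent.TH899.UG.BoxP

/-! Positive proportion of the perturbations: one translation. -/

set_option autoImplicit false

namespace Pool.Agent.TH899.UG.DN

open Finset Filter Topology
open Pool.Agent.TH899.UG.Uni

open Classical in
/-- the number of the `n`, `N / 16 ≤ n ≤ 9 N / 16`, at which the forms of `S` are all prime -/
noncomputable def cn {T : ℕ} (N : ℕ) (a b : Fin T → ℤ) (S : Finset (Fin T)) : ℕ :=
  ((Icc 1 N).filter (fun n : ℕ => N ≤ 16 * n ∧ 16 * n ≤ 9 * N ∧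
    ∀ g ∈ S, (a g * n + b g).toNat.Prime)).card

theorem cn_congr {T : ℕ} (N : ℕ) (a b b' : Fin T → ℤ) (S : Finset (Fin T))
    (h : ∀ g ∈ S, b g = b' g) : cn N a b S = cn N a b' S := by
  classical
  unfold cn
  congr 1
  apply filter_congr
  intro n _
  refine and_congr_right fun _ => and_congr_right fun _ => ?_
  constructor
  · intro h1 g hg
    rw [← h g hg]; exact h1 g hg
  · intro h1 g hg
    rw [h g hg]; exact h1 g hg

theorem cn_mono {T : ℕ} (N : ℕ) (a b : Fin T → ℤ) (S S' : Finset (Fin T)) (h : S ⊆ S') :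
    cn N a b S' ≤ cn N a b S := by
  classical
  unfold cn
  apply card_le_card
  intro n hn
  rw [mem_filter] at hn ⊢
  exact ⟨hn.1, hn.2.1, hn.2.2.1, fun g hg => hn.2.2.2 g (h hg)⟩

/-- few functions take prescribed differences -/
theorem coll {T : ℕ} (X : Finset ℕ) (g g' : Fin T) (hne : g ≠ g') (d : ℤ) :
    ((Fintype.piFinset (fun _ : Fin T => X)).filter (fun f => (f g : ℤ) = f g' + d)).card * X.card ≤
      X.card ^ T := by
  classical
  have h1 : (Fintype.piFinset (fun _ : Fin T => X)).card = X.card ^ T := by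
    rw [Fintype.card_piFinset]
    simp only [prod_const, card_univ, Fintype.card_fin]
  rw [← h1, ← card_product]
  refine card_le_card_of_injOn (fun z : (Fin T → ℕ) × ℕ => Function.update z.1 g z.2) ?_ ?_
  · intro z hz
    obtain ⟨h2, h3⟩ := mem_product.1 (mem_coe.1 hz)
    obtain ⟨h4, h5⟩ := mem_filter.1 h2
    rw [Fintype.mem_piFinset] at h4
    refine mem_coe.2 (Fintype.mem_piFinset.2 fun k => ?_)
    by_cases hk : k = g
    · subst hk
      show Function.update z.1 k z.2 k ∈ X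
      rw [Function.update_self]
      exact h3
    · show Function.update z.1 g z.2 k ∈ X
      rw [Function.update_of_ne hk]
      exact h4 k
  · intro z hz z' hz' hzz
    obtain ⟨h2, h3⟩ := mem_product.1 (mem_coe.1 hz)
    obtain ⟨h2', h3'⟩ := mem_product.1 (mem_coe.1 hz')
    have h4 := (mem_filter.1 h2).2
    have h4' := (mem_filter.1 h2').2
    have h5 : Function.update z.1 g z.2 = Function.update z'.1 g z'.2 := hzz
    have h6 : z.2 = z'.2 := by
      have := congrFun h5 g
      rwa [Function.update_self, Function.update_self] at this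
    have h7 : ∀ k, k ≠ g → z.1 k = z'.1 k := by
      intro k hk
      have := congrFun h5 k
      rwa [Function.update_of_ne hk, Function.update_of_ne hk] at this
    have h8 : z.1 g = z'.1 g := by
      have h9 := h7 g' (Ne.symm hne)
      rw [h9] at h4
      have h10 : (z.1 g : ℤ) = z'.1 g := by linarith
      exact_mod_cast h10
    refine Prod.ext ?_ h6
    funext k
    by_cases hk : k = g
    · rw [hk]; exact h8
    · exact h7 k hk

open Classical in
/-- **one translation** -/
theorem per_t : ∃ c : ℝ, 0 < c ∧ c < 1 ∧ ∀ T M : ℕ, 1 ≤ T → (4 - c) * M < T →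
    ∃ K : ℕ, 1 ≤ K ∧ ∀ ε : ℝ, 0 < ε → ε ≤ 1 → ∃ R : ℕ, 1 ≤ R ∧ ∀ A : ℕ, ∀ η : ℝ, 0 < η →
    ∀ᶠ N : ℕ in atTop, ∀ (a b : Fin T → ℤ) (X : Finset ℕ), X.card = R →
      (∀ g, a g ≠ 0) → (∀ g, |a g| ≤ A) → (∀ g, ∀ x ∈ X, 5 * |b g + x| ≤ 6 * (N : ℤ)) →
      (∀ g, ∀ y : ℝ, (N : ℝ) / 16 ≤ y → y ≤ N / 2 → (N : ℝ) / 30 ≤ a g * y + b g) →
      (∀ p : ℕ, p.Prime → p ≤ T * K + A → ∃ n : ℤ, ∀ g, ∀ x ∈ X,
        ¬ ((p : ℤ) ∣ a g * n + (b g + x))) →
      (1 - ε) * (R : ℝ) ^ T ≤
        ∑ S ∈ (univ : Finset (Finset (Fin T))).filter (fun S => S.card = M + 1),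
        (((Fintype.piFinset (fun _ : Fin T => X)).filter (fun f =>
          (N : ℝ) ^ (1 - η) ≤ cn N a (fun g => b g + f g) S)).card : ℝ) := by
  obtain ⟨c, hc, hc1, H⟩ := exactL
  refine ⟨c, hc, hc1, fun T M hT hTM => ?_⟩
  obtain ⟨K, hK, H⟩ := H T M hT hTM
  refine ⟨K, hK, fun ε hε hε1 => ?_⟩
  obtain ⟨C, E, hC, HB⟩ := box_pow K T
  obtain ⟨R₁, hR₁⟩ := exists_nat_ge (C / (ε / 2) ^ E)
  obtain ⟨R₂, hR₂⟩ := exists_nat_ge (2 * (T : ℝ) ^ 2 / ε)
  set R : ℕ := R₁ + R₂ + 1 with hRd
  have hR1 : 1 ≤ R := by omega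
  have hRa : C / (ε / 2) ^ E ≤ (R : ℝ) := by
    refine hR₁.trans ?_
    exact_mod_cast (by omega : R₁ ≤ R)
  have hRb : 2 * (T : ℝ) ^ 2 / ε ≤ (R : ℝ) := by
    refine hR₂.trans ?_
    exact_mod_cast (by omega : R₂ ≤ R)
  refine ⟨R, hR1, fun A η hη => ?_⟩
  filter_upwards [H A η hη] with N hN
  intro a b X hX ha hA hb hpos hloc
  have hR0 : (0 : ℝ) < R := by exact_mod_cast hR1
  set P := Fintype.piFinset (fun _ : Fin T => X) with hP
  have hPc : (P.card : ℝ) = (R : ℝ) ^ T := by
    rw [hP, Fintype.card_piFinset]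
    push_cast
    simp only [hX, prod_const, card_univ, Fintype.card_fin]
  set 𝒮 := (univ : Finset (Finset (Fin T))).filter (fun S => S.card = M + 1) with h𝒮
  -- the functions with a collision
  set Cl := (univ : Finset (Fin T × Fin T)).filter (fun z => z.1 ≠ z.2) with hCl
  set Bc := Cl.biUnion (fun z => P.filter (fun f => (f z.1 : ℤ) = f z.2 + (b z.2 - b z.1))) with hBc
  have hBcc : (Bc.card : ℝ) ≤ ε / 2 * (R : ℝ) ^ T := by
    have h1 : (Bc.card : ℝ) ≤ ∑ z ∈ Cl, ((P.filter (fun f => (f z.1 : ℤ) =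
        f z.2 + (b z.2 - b z.1))).card : ℝ) := by
      rw [hBc]
      exact_mod_cast card_biUnion_le
    have h2 : ∀ z ∈ Cl, ((P.filter (fun f => (f z.1 : ℤ) = f z.2 + (b z.2 - b z.1))).card : ℝ) ≤
        (R : ℝ) ^ T / R := by
      intro z hz
      have h3 := coll X z.1 z.2 (mem_filter.1 hz).2 (b z.2 - b z.1)
      rw [hX] at h3
      rw [le_div_iff₀ hR0]
      exact_mod_cast h3
    have h3 := h1.trans (sum_le_card_nsmul _ _ _ h2)
    have h4 : (Cl.card : ℝ) ≤ (T : ℝ) ^ 2 := by
      have : Cl.card ≤ T * T := by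
        refine (card_le_univ _).trans ?_
        rw [Fintype.card_prod, Fintype.card_fin]
      have h5 : (Cl.card : ℝ) ≤ ((T * T : ℕ) : ℝ) := by exact_mod_cast this
      push_cast at h5
      nlinarith
    rw [nsmul_eq_mul] at h3
    have h5 : (0 : ℝ) ≤ (R : ℝ) ^ T := by positivity
    have h6 : (Cl.card : ℝ) * ((R : ℝ) ^ T / R) ≤ (T : ℝ) ^ 2 * ((R : ℝ) ^ T / R) :=
      mul_le_mul_of_nonneg_right h4 (by positivity)
    have h7 : (T : ℝ) ^ 2 * ((R : ℝ) ^ T / R) ≤ ε / 2 * (R : ℝ) ^ T := by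
      have h8 : (T : ℝ) ^ 2 / R ≤ ε / 2 := by
        rw [div_le_iff₀ hR0]
        rw [div_le_iff₀ hε] at hRb
        linarith
      calc (T : ℝ) ^ 2 * ((R : ℝ) ^ T / R) = (T : ℝ) ^ 2 / R * (R : ℝ) ^ T := by ring
        _ ≤ _ := mul_le_mul_of_nonneg_right h8 h5
    linarith
  -- the bad functions
  set B := P.filter (fun f => (∀ S ∈ 𝒮, ¬ ((N : ℝ) ^ (1 - η) ≤ cn N a (fun g => b g + f g) S)) ∧
    f ∉ Bc) with hB
  have hBlt : (B.card : ℝ) < ε / 2 * (R : ℝ) ^ T := by
    by_contra hcon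
    rw [not_lt] at hcon
    have hprod : ∏ _i : Fin T, (X.card : ℝ) = (R : ℝ) ^ T := by
      simp only [hX, prod_const, card_univ, Fintype.card_fin]
    obtain ⟨Af, hA1, hA2⟩ := HB (ε / 2) (by linarith) (by linarith) ℕ (fun _ : Fin T => X)
      (fun i => by
        show C / (ε / 2) ^ E ≤ (X.card : ℝ)
        rw [hX]; exact hRa) B
      (filter_subset _ _) (by rw [hprod]; exact hcon)
    have hmem : ∀ g i, Af g i ∈ X := by
      intro g i
      have h1 := hA2 (fun _ => i)
      have h2 := (mem_filter.1 h1).1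
      rw [hP, Fintype.mem_piFinset] at h2
      exact h2 g
    obtain ⟨S, σ, hS, hcnt⟩ := hN (fun g _ => a g) (fun g i => b g + Af g i)
      (fun g _ => ha g) (fun g _ => hA g) (fun g i => hb g _ (hmem g i))
      (fun g i y h1 h2 => by
        have h3 := hpos g y h1 h2
        have h4 : (0 : ℝ) ≤ (Af g i : ℝ) := Nat.cast_nonneg _
        push_cast
        linarith)
      (by
        rintro ⟨g, i⟩ ⟨g', i'⟩ h
        have h2 : b g + (Af g i : ℤ) = b g' + Af g' i' := congrArg Prod.snd h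
        by_cases hg : g = g'
        · subst hg
          have h4 : Af g i = Af g i' := by
            have : (Af g i : ℤ) = Af g i' := by linarith
            exact_mod_cast this
          rw [hA1 g h4]
        · exfalso
          have h5 := hA2 (Function.update (fun _ => i) g' i')
          have h6 := (mem_filter.1 h5).2.2
          apply h6
          refine mem_biUnion.2 ⟨(g, g'), mem_filter.2 ⟨mem_univ _, hg⟩,
            mem_filter.2 ⟨(mem_filter.1 h5).1, ?_⟩⟩
          simp only [Function.update_self, Function.update_of_ne hg]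
          linarith)
      (by
        intro p hp
        by_cases hpn : p ≤ T * K + A
        · obtain ⟨n, hn⟩ := hloc p hp hpn
          exact ⟨n, fun g i => hn g _ (hmem g i)⟩
        · haveI := Fact.mk hp
          have hal : ∀ g, ((a g : ℤ) : ZMod p) ≠ 0 := by
            intro g h
            rw [ZMod.intCast_zmod_eq_zero_iff_dvd] at h
            have h1 := Int.le_of_dvd (abs_pos.2 (ha g)) ((dvd_abs _ _).2 h)
            have h2 := hA g
            omega
          let f : Fin T × Fin K → ZMod p := fun x =>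
            - ((b x.1 + Af x.1 x.2 : ℤ) : ZMod p) / ((a x.1 : ℤ) : ZMod p)
          have hcard : (univ.image f).card < (univ : Finset (ZMod p)).card := by
            rw [card_univ, ZMod.card]
            have h2 : (univ.image f).card ≤ T * K := by
              refine card_image_le.trans ?_
              rw [card_univ, Fintype.card_prod, Fintype.card_fin, Fintype.card_fin]
            omega
          obtain ⟨w, -, hw⟩ := Finset.exists_mem_notMem_of_card_lt_card hcard
          refine ⟨(w.val : ℤ), fun g i hd => hw (mem_image.2 ⟨(g, i), mem_univ _, ?_⟩)⟩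
          rw [← ZMod.intCast_zmod_eq_zero_iff_dvd] at hd
          push_cast at hd
          rw [ZMod.natCast_zmod_val] at hd
          show - ((b g + Af g i : ℤ) : ZMod p) / ((a g : ℤ) : ZMod p) = w
          rw [div_eq_iff (hal _)]
          push_cast
          linear_combination -hd)
    have h1 := hA2 σ
    obtain ⟨h2, h3, -⟩ := mem_filter.1 h1
    obtain ⟨S', hS', hS'c⟩ := exists_subset_card_eq hS
    apply h3 S' (mem_filter.2 ⟨mem_univ _, hS'c⟩)
    refine le_trans hcnt ?_
    rw [Nat.cast_le]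
    exact cn_mono N a (fun g => b g + (Af g (σ g) : ℤ)) S' S hS'
  have hcov : P ⊆ (B ∪ Bc) ∪ 𝒮.biUnion (fun S => P.filter (fun f =>
      (N : ℝ) ^ (1 - η) ≤ cn N a (fun g => b g + f g) S)) := by
    intro f hf
    by_cases h1 : f ∈ Bc
    · exact mem_union_left _ (mem_union_right _ h1)
    by_cases h2 : f ∈ B
    · exact mem_union_left _ (mem_union_left _ h2)
    · refine mem_union_right _ ?_
      rw [hB, mem_filter, not_and, not_and] at h2
      have h3 := h2 hf
      have h4 : ¬ (∀ S ∈ 𝒮, ¬ ((N : ℝ) ^ (1 - η) ≤ cn N a (fun g => b g + f g) S)) :=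
        fun h => h3 h h1
      push Not at h4
      obtain ⟨S, hS, h5⟩ := h4
      exact mem_biUnion.2 ⟨S, hS, mem_filter.2 ⟨hf, h5⟩⟩
  have h1 : (P.card : ℝ) ≤ (B.card : ℝ) + Bc.card + ∑ S ∈ 𝒮, ((P.filter (fun f =>
      (N : ℝ) ^ (1 - η) ≤ cn N a (fun g => b g + f g) S)).card : ℝ) := by
    have h2 := card_le_card hcov
    have h3 := card_union_le (B ∪ Bc) (𝒮.biUnion (fun S => P.filter (fun f =>
      (N : ℝ) ^ (1 - η) ≤ cn N a (fun g => b g + f g) S)))
    have h4 := card_union_le B Bc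
    have h5 : (𝒮.biUnion (fun S => P.filter (fun f =>
      (N : ℝ) ^ (1 - η) ≤ cn N a (fun g => b g + f g) S))).card ≤ ∑ S ∈ 𝒮, (P.filter (fun f =>
      (N : ℝ) ^ (1 - η) ≤ cn N a (fun g => b g + f g) S)).card := card_biUnion_le
    have h6 : P.card ≤ B.card + Bc.card + ∑ S ∈ 𝒮, (P.filter (fun f =>
      (N : ℝ) ^ (1 - η) ≤ cn N a (fun g => b g + f g) S)).card := by omega
    exact_mod_cast h6
  rw [hPc] at h1
  linarith

end Pool.Agent.TH899.UG.DN
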