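import Mathlib
import Pool.Agent.TH899.UG.DN1

/-! Positive proportion of the perturbations: the average over the translations. -/

set_option autoImplicit false

namespace Pool.Agent.TH899.UG.DN

open Finset Filter Topology
open Pool.Agent.TH899.UG.Uni

open Classical in
/-- the good perturbations of the forms of `S`, all smaller than `H` (and zero off `S`) -/
noncomputable def G {T : ℕ} (N H : ℕ) (η : ℝ) (a b : Fin T → ℤ) (S : Finset (Fin T)) :
    Finset (Fin T → ℕ) :=
  (Fintype.piFinset (fun g => if g ∈ S then range H else {0})).filter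
    (fun e => (N : ℝ) ^ (1 - η) ≤ cn N a (fun g => b g + e g) S)

open Classical in
/-- the admissible translations of one form -/
noncomputable def tr (P L : ℕ) (b : ℤ) : Finset ℕ :=
  (range L).filter (fun t => IsCoprime (b + t) (P : ℤ))

theorem tr_card (P L : ℕ) (hP : 0 < P) (b : ℤ) : P.totient * (L / P) ≤ (tr P L b).card := by
  classical
  have hPz : (0 : ℤ) < P := by exact_mod_cast hP
  obtain ⟨β, hβ⟩ : ∃ β : ℕ, (β : ℤ) = b % P :=
    ⟨(b % P).toNat, Int.toNat_of_nonneg (Int.emod_nonneg _ hPz.ne')⟩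
  have hiff : ∀ t : ℕ, IsCoprime (b + t) (P : ℤ) ↔ P.Coprime (β + t) := by
    intro t
    have h1 : (P : ℤ) ∣ (b + t) - ((β : ℤ) + t) := by
      rw [hβ]
      have e : b + t - (b % P + t) = b - b % P := by ring
      rw [e]
      exact Int.dvd_self_sub_emod
    obtain ⟨k, hk⟩ := h1
    have e1 : b + t = ((β : ℤ) + t) + (P : ℤ) * k := by linarith
    rw [e1, IsCoprime.add_mul_left_left_iff]
    rw [show ((β : ℤ) + t) = ((β + t : ℕ) : ℤ) by push_cast; rfl, Nat.isCoprime_iff_coprime]
    exact Nat.coprime_comm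
  unfold tr
  -- blocks
  have hblk : ∀ m : ℕ, P.totient * m ≤ ((range (P * m)).filter (fun t => P.Coprime (β + t))).card := by
    intro m
    induction m with
    | zero => simp
    | succ m ih =>
      have h1 : (range (P * (m + 1))).filter (fun t => P.Coprime (β + t)) =
          (range (P * m)).filter (fun t => P.Coprime (β + t)) ∪
          (Ico (P * m) (P * m + P)).filter (fun t => P.Coprime (β + t)) := by
        ext t
        simp only [mem_filter, mem_range, mem_union, mem_Ico]
        rw [mul_add, mul_one]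
        constructor
        · rintro ⟨h2, h3⟩
          by_cases h4 : t < P * m
          · exact Or.inl ⟨h4, h3⟩
          · exact Or.inr ⟨⟨by omega, h2⟩, h3⟩
        · rintro (⟨h2, h3⟩ | ⟨h2, h3⟩)
          · exact ⟨by omega, h3⟩
          · exact ⟨h2.2, h3⟩
      have h2 : Disjoint ((range (P * m)).filter (fun t => P.Coprime (β + t)))
          ((Ico (P * m) (P * m + P)).filter (fun t => P.Coprime (β + t))) := by
        rw [Finset.disjoint_left]
        intro t h3 h4
        have h5 := mem_range.1 (mem_filter.1 h3).1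
        have h6 := (mem_Ico.1 (mem_filter.1 h4).1).1
        omega
      have h3 : ((Ico (P * m) (P * m + P)).filter (fun t => P.Coprime (β + t))).card =
          P.totient := by
        rw [← Nat.filter_coprime_Ico_eq_totient P (β + P * m)]
        refine card_bij (fun t _ => β + t) ?_ ?_ ?_
        · intro t ht
          obtain ⟨h4, h5⟩ := mem_filter.1 ht
          rw [mem_Ico] at h4
          exact mem_filter.2 ⟨mem_Ico.2 ⟨by omega, by omega⟩, h5⟩
        · intro t _ t' _ h
          exact Nat.add_left_cancel h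
        · intro t ht
          obtain ⟨h4, h5⟩ := mem_filter.1 ht
          rw [mem_Ico] at h4
          refine ⟨t - β, mem_filter.2 ⟨mem_Ico.2 ⟨by omega, by omega⟩, ?_⟩, by omega⟩
          have e : β + (t - β) = t := by omega
          rw [e]; exact h5
      rw [h1, card_union_of_disjoint h2, h3]
      have : P.totient * (m + 1) = P.totient * m + P.totient := by ring
      omega
  have h1 : (range (P * (L / P))).filter (fun t => P.Coprime (β + t)) ⊆
      (range L).filter (fun t => IsCoprime (b + t) (P : ℤ)) := by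
    intro t ht
    obtain ⟨h2, h3⟩ := mem_filter.1 ht
    rw [mem_range] at h2
    have h4 := Nat.mul_div_le L P
    exact mem_filter.2 ⟨mem_range.2 (by omega), (hiff t).2 h3⟩
  exact (hblk (L / P)).trans (card_le_card h1)

/-- local conditions -/
theorem loc {T : ℕ} (P W : ℕ) (hP : ∀ p : ℕ, p.Prime → p ≤ T → p ∣ P)
    (a b : Fin T → ℤ) (haP : ∀ g, ∀ p : ℕ, p.Prime → (p : ℤ) ∣ a g → p ∣ P)
    (hb : ∀ g, IsCoprime (b g) (P : ℤ)) (X : Finset ℕ) (hX : ∀ x ∈ X, W ∣ x) (p : ℕ)
    (hp : p.Prime) (hpW : p ∣ W) : ∃ n : ℤ, ∀ g, ∀ x ∈ X, ¬ ((p : ℤ) ∣ a g * n + (b g + x)) := by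
  classical
  have hpx : ∀ x ∈ X, (p : ℤ) ∣ x := fun x hx => by exact_mod_cast hpW.trans (hX x hx)
  have hsuff : (∃ n : ℤ, ∀ g, ¬ ((p : ℤ) ∣ a g * n + b g)) →
      ∃ n : ℤ, ∀ g, ∀ x ∈ X, ¬ ((p : ℤ) ∣ a g * n + (b g + x)) := by
    rintro ⟨n, hn⟩
    refine ⟨n, fun g x hx h => hn g ?_⟩
    have e : a g * n + b g = (a g * n + (b g + x)) - x := by ring
    rw [e]
    exact dvd_sub h (hpx x hx)
  apply hsuff
  by_cases hpP : p ≤ T ∨ ∃ g, (p : ℤ) ∣ a g
  · refine ⟨0, fun g h => ?_⟩
    rw [mul_zero, zero_add] at h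
    have h1 : (p : ℤ) ∣ P := by
      rcases hpP with h5 | ⟨g', h5⟩
      · exact_mod_cast hP p hp h5
      · exact_mod_cast haP g' p hp h5
    have h2 := (hb g).isUnit_of_dvd' h h1
    have h3 := Int.isUnit_iff.1 h2
    have h4 : (2 : ℤ) ≤ p := by exact_mod_cast hp.two_le
    omega
  · push Not at hpP
    haveI := Fact.mk hp
    have hal : ∀ g, ((a g : ℤ) : ZMod p) ≠ 0 := by
      intro g h
      rw [ZMod.intCast_zmod_eq_zero_iff_dvd] at h
      exact hpP.2 g h
    let f : Fin T → ZMod p := fun g =>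
      - ((b g : ℤ) : ZMod p) / ((a g : ℤ) : ZMod p)
    have hcard : (univ.image f).card < (univ : Finset (ZMod p)).card := by
      rw [card_univ, ZMod.card]
      have h2 : (univ.image f).card ≤ T := by
        refine card_image_le.trans ?_
        rw [card_univ, Fintype.card_fin]
      omega
    obtain ⟨w, -, hw⟩ := Finset.exists_mem_notMem_of_card_lt_card hcard
    refine ⟨(w.val : ℤ), fun g hd => hw (mem_image.2 ⟨g, mem_univ _, ?_⟩)⟩
    rw [← ZMod.intCast_zmod_eq_zero_iff_dvd] at hd
    push_cast at hd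
    rw [ZMod.natCast_zmod_val] at hd
    show - ((b g : ℤ) : ZMod p) / ((a g : ℤ) : ZMod p) = w
    rw [div_eq_iff (hal _)]
    linear_combination -hd

open Classical in
/-- the average over the translations for one set of classes -/
theorem sumT {T : ℕ} (N H : ℕ) (η : ℝ) (a b : Fin T → ℤ) (X : Finset ℕ) (𝒯 : Fin T → Finset ℕ)
    (S : Finset (Fin T)) (hD : ∀ g, ∀ t ∈ 𝒯 g, ∀ x ∈ X, t + x < H) :
    ∑ t ∈ Fintype.piFinset 𝒯, ((Fintype.piFinset (fun _ : Fin T => X)).filter (fun f =>
        (N : ℝ) ^ (1 - η) ≤ cn N a (fun g => (b g + t g) + f g) S)).card ≤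
      X.card ^ T * ((G N H η a b S).card * ∏ g ∈ univ \ S, (𝒯 g).card) := by
  have h1 : ∑ t ∈ Fintype.piFinset 𝒯, ((Fintype.piFinset (fun _ : Fin T => X)).filter (fun f =>
        (N : ℝ) ^ (1 - η) ≤ cn N a (fun g => (b g + t g) + f g) S)).card =
      ∑ f ∈ Fintype.piFinset (fun _ : Fin T => X), ((Fintype.piFinset 𝒯).filter (fun t =>
        (N : ℝ) ^ (1 - η) ≤ cn N a (fun g => (b g + t g) + f g) S)).card := by
    simp only [card_filter]
    exact Finset.sum_comm
  rw [h1]
  have hc : (Fintype.piFinset (fun _ : Fin T => X)).card = X.card ^ T := by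
    rw [Fintype.card_piFinset]
    simp only [prod_const, card_univ, Fintype.card_fin]
  rw [← hc, ← smul_eq_mul]
  refine sum_le_card_nsmul _ _ _ fun f hf => ?_
  rw [Fintype.mem_piFinset] at hf
  have h2 : (Fintype.piFinset (fun g => if g ∈ S then ({0} : Finset ℕ) else 𝒯 g)).card =
      ∏ g ∈ univ \ S, (𝒯 g).card := by
    rw [Fintype.card_piFinset, ← Finset.prod_sdiff (Finset.subset_univ S)]
    have e1 : ∏ g ∈ S, (if g ∈ S then ({0} : Finset ℕ) else 𝒯 g).card = 1 := by
      refine prod_eq_one fun g hg => ?_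
      rw [if_pos hg, card_singleton]
    rw [e1, mul_one]
    refine prod_congr rfl fun g hg => ?_
    rw [if_neg (mem_sdiff.1 hg).2]
  rw [← h2, ← card_product]
  refine card_le_card_of_injOn (fun t => ((fun g => if g ∈ S then t g + f g else 0),
    (fun g => if g ∈ S then 0 else t g))) ?_ ?_
  · intro t ht
    obtain ⟨h3, h4⟩ := mem_filter.1 (mem_coe.1 ht)
    rw [Fintype.mem_piFinset] at h3
    refine mem_coe.2 (mem_product.2 ⟨mem_filter.2 ⟨Fintype.mem_piFinset.2 fun g => ?_, ?_⟩,
      Fintype.mem_piFinset.2 fun g => ?_⟩)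
    · by_cases hg : g ∈ S
      · rw [if_pos hg]
        show (if g ∈ S then t g + f g else 0) ∈ range H
        rw [if_pos hg]
        exact mem_range.2 (hD g _ (h3 g) _ (hf g))
      · rw [if_neg hg]
        show (if g ∈ S then t g + f g else 0) ∈ ({0} : Finset ℕ)
        rw [if_neg hg]
        exact mem_singleton_self _
    · refine h4.trans ?_
      rw [Nat.cast_le]
      refine le_of_eq (cn_congr _ _ _ _ _ fun g hg => ?_)
      show b g + t g + f g = b g + (((if g ∈ S then t g + f g else 0 : ℕ)) : ℤ)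
      rw [if_pos hg]
      push_cast
      ring
    · by_cases hg : g ∈ S
      · rw [if_pos hg]
        show (if g ∈ S then 0 else t g) ∈ ({0} : Finset ℕ)
        rw [if_pos hg]
        exact mem_singleton_self _
      · rw [if_neg hg]
        show (if g ∈ S then 0 else t g) ∈ 𝒯 g
        rw [if_neg hg]
        exact h3 g
  · intro t _ t' _ htt
    have e1 : ∀ g, (if g ∈ S then t g + f g else 0) = (if g ∈ S then t' g + f g else 0) :=
      fun g => congrFun (congrArg Prod.fst htt) g
    have e2 : ∀ g, (if g ∈ S then 0 else t g) = (if g ∈ S then 0 else t' g) :=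
      fun g => congrFun (congrArg Prod.snd htt) g
    funext g
    by_cases hg : g ∈ S
    · have := e1 g
      rw [if_pos hg, if_pos hg] at this
      omega
    · have := e2 g
      rwa [if_neg hg, if_neg hg] at this

end Pool.Agent.TH899.UG.DN
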