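import Mathlib
import Pool.Agent.TH899.UG.DN2

/-! Positive proportion of the perturbations: the main theorem. -/

set_option autoImplicit false

namespace Pool.Agent.TH899.UG.DN

open Finset Filter Topology
open Pool.Agent.TH899.UG.Uni

/-- the final comparison -/
theorem cmp {T : ℕ} (M : ℕ) (𝒮 : Finset (Finset (Fin T))) (h𝒮 : ∀ S ∈ 𝒮, S.card = M + 1)
    (w : Fin T → ℝ) (ρ h δ ε Rt : ℝ) (g₀ : Finset (Fin T) → ℝ) (hρ : 0 < ρ) (hw : ∀ g, ρ ≤ w g)
    (hδ : 0 ≤ δ) (hh : 0 ≤ h) (hRt : 0 < Rt) (hG : ∀ S ∈ 𝒮, g₀ S ≤ δ * h ^ (M + 1))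
    (hsum : (∏ g, w g) * ((1 - ε) * Rt) ≤
      ∑ S ∈ 𝒮, Rt * (g₀ S * ∏ g ∈ univ \ S, w g)) :
    1 - ε ≤ 𝒮.card * (δ * (h / ρ) ^ (M + 1)) := by
  have hprod : 0 < ∏ g, w g := Finset.prod_pos fun g _ => hρ.trans_le (hw g)
  have hterm : ∀ S ∈ 𝒮, Rt * (g₀ S * ∏ g ∈ univ \ S, w g) ≤
      (∏ g, w g) * Rt * (δ * (h / ρ) ^ (M + 1)) := by
    intro S hS
    have h3 : (∏ g, w g) = (∏ g ∈ univ \ S, w g) * ∏ g ∈ S, w g :=
      (Finset.prod_sdiff (Finset.subset_univ S)).symm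
    have h4 : ρ ^ (M + 1) ≤ ∏ g ∈ S, w g := by
      rw [← h𝒮 S hS, ← Finset.prod_const]
      exact Finset.prod_le_prod (fun g _ => hρ.le) (fun g _ => hw g)
    have h5 : (0 : ℝ) ≤ ∏ g ∈ univ \ S, w g :=
      Finset.prod_nonneg fun g _ => hρ.le.trans (hw g)
    have h6 : (0 : ℝ) < ρ ^ (M + 1) := pow_pos hρ _
    have h7 : δ * h ^ (M + 1) ≤ (∏ g ∈ S, w g) * (δ * (h / ρ) ^ (M + 1)) := by
      have h8 : (0 : ℝ) ≤ δ * (h / ρ) ^ (M + 1) :=
        mul_nonneg hδ (pow_nonneg (div_nonneg hh hρ.le) _)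
      have h9 := mul_le_mul_of_nonneg_right h4 h8
      have e : ρ ^ (M + 1) * (δ * (h / ρ) ^ (M + 1)) = δ * h ^ (M + 1) := by
        rw [div_pow]
        field_simp
      rwa [e] at h9
    have h10 := mul_le_mul_of_nonneg_right ((hG S hS).trans h7) h5
    have h11 := mul_le_mul_of_nonneg_left h10 hRt.le
    refine h11.trans (le_of_eq ?_)
    rw [h3]
    ring
  have h1 := hsum.trans (sum_le_card_nsmul 𝒮 _ _ hterm)
  rw [nsmul_eq_mul] at h1
  have h2 : ((∏ g, w g) * Rt) * (1 - ε) ≤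
      ((∏ g, w g) * Rt) * (𝒮.card * (δ * (h / ρ) ^ (M + 1))) := by
    calc ((∏ g, w g) * Rt) * (1 - ε) = (∏ g, w g) * ((1 - ε) * Rt) := by ring
      _ ≤ _ := h1
      _ = _ := by ring
  exact le_of_mul_le_mul_left h2 (mul_pos hprod hRt)

/-- the analytic choice of the constants -/
theorem lim (u κ E₀ ε : ℝ) (M : ℕ) (hu0 : 0 < u) (hlt : κ * (1 / u) ^ (M + 1) < 1 - ε) :
    ∃ H₀ : ℕ, ∀ H : ℕ, H₀ ≤ H → κ * ((H : ℝ) / (u * H - E₀)) ^ (M + 1) < 1 - ε := by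
  have htend : Tendsto (fun H : ℕ => κ * ((H : ℝ) / (u * H - E₀)) ^ (M + 1)) atTop
      (𝓝 (κ * (1 / u) ^ (M + 1))) := by
    apply Tendsto.const_mul
    apply Tendsto.pow
    have h1 : Tendsto (fun H : ℕ => 1 / (u - E₀ / (H : ℝ))) atTop (𝓝 (1 / (u - 0))) := by
      apply Tendsto.div tendsto_const_nhds _ (by rw [sub_zero]; exact hu0.ne')
      apply Tendsto.sub tendsto_const_nhds
      exact tendsto_const_nhds.div_atTop tendsto_natCast_atTop_atTop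
    rw [sub_zero] at h1
    refine h1.congr' ?_
    filter_upwards [eventually_ge_atTop 1] with H hH
    have hH0 : (0 : ℝ) < H := by exact_mod_cast hH
    have e : u * (H : ℝ) - E₀ = (u - E₀ / H) * H := by field_simp
    rw [e]
    by_cases h2 : u - E₀ / (H : ℝ) = 0
    · rw [h2]; simp
    · field_simp
  exact eventually_atTop.1 (htend.eventually (gt_mem_nhds hlt))

/-- the number of the admissible translations -/
theorem tr_ge (P D H : ℕ) (hP0 : 0 < P) (b : ℤ) :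
    (P.totient : ℝ) / P * H - (D + P) ≤ ((tr P (H - D) b).card : ℝ) := by
  have hPr : (0 : ℝ) < P := by exact_mod_cast hP0
  have hφ : (0 : ℝ) ≤ P.totient := Nat.cast_nonneg _
  have h1 := tr_card P (H - D) hP0 b
  have h2 : ((P.totient * ((H - D) / P) : ℕ) : ℝ) ≤ ((tr P (H - D) b).card : ℝ) := by
    exact_mod_cast h1
  push_cast at h2
  have h3 : (H : ℝ) ≤ P * (((H - D) / P : ℕ) : ℝ) + P + D := by
    have h4 := Nat.lt_div_mul_add (a := H - D) hP0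
    have h5 : H ≤ P * ((H - D) / P) + P + D := by
      have e : (H - D) / P * P = P * ((H - D) / P) := Nat.mul_comm _ _
      omega
    exact_mod_cast h5
  have hu1 : (P.totient : ℝ) / P ≤ 1 := by
    rw [div_le_one hPr]
    exact_mod_cast Nat.totient_le P
  have hu0 : 0 ≤ (P.totient : ℝ) / P := by positivity
  have h6 : (P.totient : ℝ) / P * (H : ℝ) ≤ (P.totient : ℝ) / P *
      (P * (((H - D) / P : ℕ) : ℝ)) + (P.totient : ℝ) / P * (P + D) := by
    rw [← mul_add]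
    exact mul_le_mul_of_nonneg_left (by linarith) hu0
  have h7 : (P.totient : ℝ) / P * (P * (((H - D) / P : ℕ) : ℝ)) =
      (P.totient : ℝ) * (((H - D) / P : ℕ) : ℝ) := by
    field_simp
  have h8 : (P.totient : ℝ) / P * ((P : ℝ) + D) ≤ 1 * ((P : ℝ) + D) :=
    mul_le_mul_of_nonneg_right hu1 (by positivity)
  rw [h7] at h6
  linarith

open Classical in
/-- **Main theorem.** -/
theorem dens : ∃ c : ℝ, 0 < c ∧ c < 1 ∧ ∀ T M : ℕ, 1 ≤ T → (4 - c) * M < T →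
    ∀ A P : ℕ, 0 < P → (∀ p : ℕ, p.Prime → p ≤ T → p ∣ P) → ∀ δ : ℝ, 0 < δ →
    δ * (T.choose (M + 1) : ℝ) * (P : ℝ) ^ (M + 1) < (P.totient : ℝ) ^ (M + 1) →
    ∃ C : ℕ, ∀ η : ℝ, 0 < η → ∀ᶠ N : ℕ in atTop, ∀ H : ℕ, C ≤ H → C * H ≤ N →
    ∀ a b : Fin T → ℤ, (∀ g, a g ≠ 0) → (∀ g, |a g| ≤ A) →
      (∀ g, ∀ p : ℕ, p.Prime → (p : ℤ) ∣ a g → p ∣ P) → (∀ g, 10 * |b g| ≤ 11 * (N : ℤ)) →
      (∀ g, ∀ y : ℝ, (N : ℝ) / 16 ≤ y → y ≤ N / 2 → (N : ℝ) / 30 ≤ a g * y + b g) →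
      ∃ S : Finset (Fin T), S.card = M + 1 ∧ δ * (H : ℝ) ^ (M + 1) ≤ (G N H η a b S).card := by
  obtain ⟨c, hc, hc1, HP⟩ := per_t
  refine ⟨c, hc, hc1, fun T M hT hTM A P hP0 hP δ hδ hδ1 => ?_⟩
  obtain ⟨K, hK, HP⟩ := HP T M hT hTM
  have hPr : (0 : ℝ) < P := by exact_mod_cast hP0
  have hφ : (0 : ℝ) < P.totient := by exact_mod_cast Nat.totient_pos.2 hP0
  obtain ⟨u, hu⟩ : ∃ u : ℝ, u = (P.totient : ℝ) / P := ⟨_, rfl⟩
  have hu0 : 0 < u := by rw [hu]; exact div_pos hφ hPr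
  obtain ⟨κ, hκ⟩ : ∃ κ : ℝ, κ = δ * (T.choose (M + 1) : ℝ) := ⟨_, rfl⟩
  have hκ0 : 0 ≤ κ := by rw [hκ]; positivity
  have hκu : κ * (1 / u) ^ (M + 1) < 1 := by
    have h1 : (1 / u) ^ (M + 1) = (P : ℝ) ^ (M + 1) / (P.totient : ℝ) ^ (M + 1) := by
      rw [hu, one_div_div, div_pow]
    rw [h1, ← mul_div_assoc, div_lt_one (by positivity), hκ]
    exact hδ1
  obtain ⟨ε, hε⟩ : ∃ ε : ℝ, ε = (1 - κ * (1 / u) ^ (M + 1)) / 2 := ⟨_, rfl⟩
  have hε0 : 0 < ε := by rw [hε]; linarith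
  have hκu0 : 0 ≤ κ * (1 / u) ^ (M + 1) := by positivity
  have hε1 : ε ≤ 1 := by rw [hε]; linarith
  obtain ⟨R, hR1, HP⟩ := HP ε hε0 hε1
  obtain ⟨W, hWd⟩ : ∃ W : ℕ, W = P * (T * K + A + 1).factorial := ⟨_, rfl⟩
  have hW0 : 0 < W := by rw [hWd]; exact Nat.mul_pos hP0 (Nat.factorial_pos _)
  obtain ⟨D, hD⟩ : ∃ D : ℕ, D = W * R := ⟨_, rfl⟩
  obtain ⟨H₀, hH₀⟩ := lim u κ ((D : ℝ) + P) ε M hu0 (by rw [hε]; linarith)
  obtain ⟨H₁, hH₁⟩ := exists_nat_gt ((((D : ℝ) + P) + 1) / u)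
  obtain ⟨X, hX⟩ : ∃ X : Finset ℕ, X = (range R).image (fun i => W * i) := ⟨_, rfl⟩
  have hXc : X.card = R := by
    rw [hX, card_image_of_injective _ (fun a b h => Nat.eq_of_mul_eq_mul_left hW0 h), card_range]
  have hXW : ∀ x ∈ X, W ∣ x := by
    intro x hx
    rw [hX] at hx
    obtain ⟨i, -, rfl⟩ := mem_image.1 hx
    exact dvd_mul_right _ _
  have hXb : ∀ x ∈ X, x ≤ D := by
    intro x hx
    rw [hX] at hx
    obtain ⟨i, hi, rfl⟩ := mem_image.1 hx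
    rw [hD]
    exact Nat.mul_le_mul_left _ (mem_range.1 hi).le
  have hpW : ∀ p : ℕ, p.Prime → p ≤ T * K + A → p ∣ W := by
    intro p hp hpK
    rw [hWd]
    exact (hp.dvd_factorial.2 (by omega)).trans (dvd_mul_left _ _)
  clear hWd hX
  refine ⟨H₀ + H₁ + 60, fun η hη => ?_⟩
  filter_upwards [HP A η hη] with N hN
  intro H hCH hHN a b ha hA haP hb hpos
  have hH0 := hH₀ H (by omega)
  have hH1 : (((D : ℝ) + P) + 1) / u < H :=
    hH₁.trans_le (by exact_mod_cast (by omega : H₁ ≤ H))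
  have hρ : 0 < u * (H : ℝ) - (D + P) := by
    rw [div_lt_iff₀ hu0] at hH1
    linarith
  have h60 : 60 * H ≤ N := by
    have h1 : 60 * H ≤ (H₀ + H₁ + 60) * H := Nat.mul_le_mul_right _ (by omega)
    omega
  have h60z : (60 : ℤ) * H ≤ N := by exact_mod_cast h60
  by_contra hcon
  push Not at hcon
  have hDt : ∀ g, ∀ t ∈ tr P (H - D) (b g), ∀ x ∈ X, t + x < H := by
    intro g t ht x hx
    have h1 := mem_range.1 (mem_filter.1 ht).1
    have h2 := hXb x hx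
    omega
  have hone : ∀ t ∈ Fintype.piFinset (fun g => tr P (H - D) (b g)), (1 - ε) * (R : ℝ) ^ T ≤
      ∑ S ∈ (univ : Finset (Finset (Fin T))).filter (fun S => S.card = M + 1),
      (((Fintype.piFinset (fun _ : Fin T => X)).filter (fun f =>
        (N : ℝ) ^ (1 - η) ≤ cn N a (fun g => (b g + t g) + f g) S)).card : ℝ) := by
    intro t ht
    rw [Fintype.mem_piFinset] at ht
    refine hN a (fun g => b g + t g) X hXc ha hA ?_ ?_ ?_
    · intro g x hx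
      have h1 := hDt g _ (ht g) x hx
      have h2 := hb g
      have h3 : |b g + (t g : ℤ) + x| ≤ |b g| + (t g + x) := by
        rw [add_assoc]
        refine (abs_add_le _ _).trans ?_
        rw [abs_of_nonneg (by positivity : (0 : ℤ) ≤ (t g : ℤ) + x)]
      have h4 : ((t g : ℤ) + x) ≤ H := by exact_mod_cast h1.le
      show 5 * |b g + (t g : ℤ) + x| ≤ 6 * (N : ℤ)
      linarith
    · intro g y h1 h2
      have h3 := hpos g y h1 h2
      have h4 : (0 : ℝ) ≤ (t g : ℝ) := Nat.cast_nonneg _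
      push_cast
      linarith
    · intro p hp hpK
      exact loc P W hP a (fun g => b g + t g) haP (fun g => (mem_filter.1 (ht g)).2) X hXW p hp
        (hpW p hp hpK)
  have hsum : (∏ g, ((tr P (H - D) (b g)).card : ℝ)) * ((1 - ε) * (R : ℝ) ^ T) ≤
      ∑ S ∈ (univ : Finset (Finset (Fin T))).filter (fun S => S.card = M + 1),
        (R : ℝ) ^ T * (((G N H η a b S).card : ℝ) *
          ∏ g ∈ univ \ S, ((tr P (H - D) (b g)).card : ℝ)) := by
    have h1 := card_nsmul_le_sum (Fintype.piFinset (fun g => tr P (H - D) (b g))) _ _ hone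
    rw [Fintype.card_piFinset, nsmul_eq_mul, Finset.sum_comm] at h1
    have e1 : ((∏ g, (tr P (H - D) (b g)).card : ℕ) : ℝ) =
        ∏ g, ((tr P (H - D) (b g)).card : ℝ) := by push_cast; rfl
    rw [e1] at h1
    refine h1.trans (sum_le_sum fun S _ => ?_)
    have h2 := sumT N H η a b X (fun g => tr P (H - D) (b g)) S hDt
    rw [hXc] at h2
    have h3 := (Nat.cast_le (α := ℝ)).2 h2
    push_cast at h3
    exact h3
  have h𝒮c : ((((univ : Finset (Finset (Fin T))).filter (fun S => S.card = M + 1)).card : ℕ) : ℝ) =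
      (T.choose (M + 1) : ℝ) := by
    have h1 : (univ : Finset (Finset (Fin T))).filter (fun S => S.card = M + 1) =
        (univ : Finset (Fin T)).powersetCard (M + 1) := by
      ext S
      simp [mem_powersetCard]
    rw [h1, card_powersetCard, card_univ, Fintype.card_fin]
  have hRpos : (0 : ℝ) < (R : ℝ) ^ T := by
    have : (0 : ℝ) < R := by exact_mod_cast hR1
    positivity
  have hfin := cmp M ((univ : Finset (Finset (Fin T))).filter (fun S => S.card = M + 1))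
    (fun S hS => (mem_filter.1 hS).2) (fun g => ((tr P (H - D) (b g)).card : ℝ))
    (u * (H : ℝ) - (D + P)) H δ ε ((R : ℝ) ^ T) (fun S => ((G N H η a b S).card : ℝ)) hρ
    (fun g => by
      have := tr_ge P D H hP0 (b g)
      rw [hu]
      exact this) hδ.le (Nat.cast_nonneg _) hRpos
    (fun S hS => (hcon S (mem_filter.1 hS).2).le) hsum
  rw [h𝒮c] at hfin
  have e : (T.choose (M + 1) : ℝ) * (δ * ((H : ℝ) / (u * H - (D + P))) ^ (M + 1)) =
      κ * ((H : ℝ) / (u * H - (D + P))) ^ (M + 1) := by rw [hκ]; ring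
  rw [e] at hfin
  linarith

end Pool.Agent.TH899.UG.DN
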