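import Mathlib
import Pool.Agent.TH899.UG.DN3

/-! Sums and differences of two primes: a positive proportion of every window. -/

set_option autoImplicit false

namespace Pool.Agent.TH899.UG.SDD

open Finset Filter Topology
open Pool.Agent.TH899.UG.DN

/-- for at least `z` primes `p ≤ B` there is a prime `q` with `p + q = t` -/
def Sums (B : ℕ) (z : ℝ) (t : ℤ) : Prop :=
  z ≤ ({p : ℕ | p ≤ B ∧ p.Prime ∧ ∃ q : ℕ, q.Prime ∧ (p : ℤ) + q = t}.ncard : ℝ)

/-- for at least `z` primes `p ≤ B` there is a prime `q` with `q - p = t` -/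
def Diffs (B : ℕ) (z : ℝ) (t : ℤ) : Prop :=
  z ≤ ({p : ℕ | p ≤ B ∧ p.Prime ∧ ∃ q : ℕ, q.Prime ∧ (q : ℤ) - p = t}.ncard : ℝ)

open Classical in
/-- from pairs of perturbations to values -/
theorem vals (h : ℕ) (g : ℕ → ℕ → ℤ) (hg : ∀ u v v', g u v = g u v' → v = v')
    (P : ℤ → Prop) (W : Finset ℤ) (Pr : Finset (ℕ × ℕ))
    (hPr : ∀ z ∈ Pr, z.1 < h ∧ P (g z.1 z.2) ∧ g z.1 z.2 ∈ W) :
    Pr.card ≤ h * (W.filter P).card := by
  have h1 : ((range h) ×ˢ (W.filter P)).card = h * (W.filter P).card := by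
    rw [card_product, card_range]
  rw [← h1]
  refine card_le_card_of_injOn (fun z => (z.1, g z.1 z.2)) ?_ ?_
  · intro z hz
    obtain ⟨h2, h3, h4⟩ := hPr z (mem_coe.1 hz)
    exact mem_coe.2 (mem_product.2 ⟨mem_range.2 h2, mem_filter.2 ⟨h4, h3⟩⟩)
  · rintro ⟨u, v⟩ _ ⟨u', v'⟩ _ huv
    simp only [Prod.mk.injEq] at huv
    obtain ⟨rfl, h5⟩ := huv
    rw [hg u v v' h5]

theorem toNat_eq' {x : ℤ} (h : x.toNat.Prime) : ((x.toNat : ℕ) : ℤ) = x := by
  apply Int.toNat_of_nonneg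
  by_contra hneg
  have : x.toNat = 0 := Int.toNat_eq_zero.2 (by omega)
  rw [this] at h
  exact Nat.not_prime_zero h

open Classical in
/-- from the variable to the primes -/
theorem cnt (B N : ℕ) (α β : ℤ) (hα : α = 1 ∨ α = -1) (F : Finset ℕ) (Q : ℕ → Prop)
    (hF : ∀ n ∈ F, (α * n + β).toNat ≤ B ∧ (α * n + β).toNat.Prime ∧ Q (α * n + β).toNat) :
    F.card ≤ {p : ℕ | p ≤ B ∧ p.Prime ∧ Q p}.ncard := by
  have hfin : {p : ℕ | p ≤ B ∧ p.Prime ∧ Q p}.Finite :=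
    (Set.finite_le_nat B).subset fun p hp => hp.1
  have h1 : (F.image (fun n : ℕ => (α * n + β).toNat)).card = F.card := by
    refine card_image_of_injOn ?_
    intro n hn m hm h
    have e1 := toNat_eq' (hF n (mem_coe.1 hn)).2.1
    have e2 := toNat_eq' (hF m (mem_coe.1 hm)).2.1
    have h2 : (α * n + β).toNat = (α * m + β).toNat := h
    rw [h2] at e1
    have h3 : α * (n : ℤ) + β = α * m + β := e1.symm.trans e2
    rcases hα with rfl | rfl
    · omega
    · omega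
  rw [← h1, ← Set.ncard_coe_finset]
  refine Set.ncard_le_ncard ?_ hfin
  intro p hp
  obtain ⟨n, hn, rfl⟩ := mem_image.1 (mem_coe.1 hp)
  exact hF n hn

open Classical in
/-- **Main theorem.** -/
theorem sdd : ∃ C : ℕ, ∀ η : ℝ, 0 < η → ∀ᶠ s : ℕ in atTop, ∀ H : ℕ, C ≤ H → C * H ≤ s →
    ∀ (c : Fin 4 → ℕ) (Y : Finset (Fin 4)), (∀ i, i ∉ Y → c i ≤ s) →
      (∀ i ∈ Y, s ≤ c i ∧ c i ≤ 2 * s) →
    ∃ i j : Fin 4, i ≠ j ∧
      ((i ∈ Y ↔ j ∈ Y) ∧ (H : ℝ) / 110 ≤ (((Icc ((c j : ℤ) - c i - H) (c j - c i + H)).filter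
          (Diffs (3 * s) ((s : ℝ) ^ (1 - η)))).card : ℝ) ∨
       (i ∉ Y ∧ j ∈ Y) ∧ (H : ℝ) / 110 ≤ (((Icc ((c i : ℤ) + c j - H) (c i + c j + H)).filter
          (Sums (3 * s) ((s : ℝ) ^ (1 - η)))).card : ℝ)) := by
  obtain ⟨c₀, hc₀, hc₁, HD⟩ := dens
  obtain ⟨C, HD⟩ := HD 4 1 (by norm_num) (by push_cast; linarith) 1 6 (by norm_num)
    (by
      intro p hp hp4
      have h2 := hp.two_le
      interval_cases p
      · norm_num
      · norm_num
      · exact absurd hp (by norm_num)) (2 / 109) (by norm_num) (by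
      have h1 : Nat.totient 6 = 2 := by decide
      rw [h1]
      norm_num [Nat.choose])
  refine ⟨2 * C + 200, fun η hη => ?_⟩
  have htend : Tendsto (fun s : ℕ => 11 * s / 6) atTop atTop :=
    tendsto_atTop_mono (fun s => by show s ≤ 11 * s / 6; omega) tendsto_id
  filter_upwards [htend.eventually (HD (min η 1) (by positivity)), eventually_ge_atTop 1000]
    with s hN hs H hCH hHs c Y hX hY
  obtain ⟨N, hNd⟩ : ∃ N, N = 11 * s / 6 := ⟨_, rfl⟩
  rw [← hNd] at hN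
  obtain ⟨h, hh⟩ : ∃ h, h = H / 2 := ⟨_, rfl⟩
  have hN1 : 6 * N ≤ 11 * s := by omega
  have hN2 : 11 * s ≤ 6 * N + 5 := by omega
  have hN1r : (6 : ℝ) * N ≤ 11 * s := by exact_mod_cast hN1
  have hN2r : (11 : ℝ) * s ≤ 6 * N + 5 := by exact_mod_cast hN2
  have hsr : (1000 : ℝ) ≤ s := by exact_mod_cast hs
  have h200 : 200 * H ≤ s := (Nat.mul_le_mul_right H (by omega)).trans hHs
  have hCh : C ≤ h := by omega
  have hChN : C * h ≤ N := by
    have h1 : C * h ≤ C * H := Nat.mul_le_mul_left _ (by omega)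
    have h2 : C * H ≤ (2 * C + 200) * H := Nat.mul_le_mul_right _ (by omega)
    omega
  obtain ⟨a, ha⟩ : ∃ a : Fin 4 → ℤ, a = fun i => if i ∈ Y then -1 else 1 := ⟨_, rfl⟩
  have haY : ∀ i, i ∈ Y → a i = -1 := fun i hi => by rw [ha]; exact if_pos hi
  have haX : ∀ i, i ∉ Y → a i = 1 := fun i hi => by rw [ha]; exact if_neg hi
  have hac : ∀ i, a i = 1 ∨ a i = -1 := fun i => by
    by_cases hi : i ∈ Y
    · exact Or.inr (haY i hi)
    · exact Or.inl (haX i hi)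
  have hc2 : ∀ i, c i ≤ 2 * s := fun i => by
    by_cases hi : i ∈ Y
    · exact (hY i hi).2
    · have := hX i hi
      omega
  obtain ⟨S, hS, hcard⟩ := hN h hCh hChN a (fun i => (c i : ℤ))
    (fun i => by rcases hac i with e | e <;> rw [e] <;> norm_num)
    (fun i => by rcases hac i with e | e <;> rw [e] <;> norm_num)
    (fun i p hp hd => by
      exfalso
      have h1 : (p : ℤ) ∣ 1 := by
        rcases hac i with e | e
        · rwa [e] at hd
        · rw [e] at hd; exact (dvd_neg).1 hd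
      have h2 := Int.le_of_dvd one_pos h1
      have h3 := hp.two_le
      omega)
    (fun i => by
      have h1 := hc2 i
      show 10 * |((c i : ℕ) : ℤ)| ≤ 11 * (N : ℤ)
      rw [Nat.abs_cast]
      omega)
    (fun i y h1 h2 => by
      by_cases hi : i ∈ Y
      · rw [haY i hi]
        have h3 : (s : ℝ) ≤ c i := by exact_mod_cast (hY i hi).1
        push_cast
        linarith
      · rw [haX i hi]
        have h3 : (0 : ℝ) ≤ c i := Nat.cast_nonneg _
        push_cast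
        linarith)
  obtain ⟨i, j, hij, hSij⟩ := card_eq_two.1 hS
  have hrp : (s : ℝ) ^ (1 - η) ≤ (N : ℝ) ^ (1 - min η 1) := by
    have h4 : (1 : ℝ) ≤ s := by linarith
    have h5 : (s : ℝ) ^ (1 - η) ≤ (s : ℝ) ^ (1 - min η 1) :=
      Real.rpow_le_rpow_of_exponent_le h4 (by linarith [min_le_left η 1])
    have h6 : (s : ℝ) ^ (1 - min η 1) ≤ (N : ℝ) ^ (1 - min η 1) :=
      Real.rpow_le_rpow (by linarith) (by linarith) (by linarith [min_le_right η 1])
    exact h5.trans h6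
  -- the pairs of perturbations
  obtain ⟨Pr, hPrd⟩ : ∃ Pr : Finset (ℕ × ℕ), Pr = ((range h) ×ˢ (range h)).filter (fun z =>
      (s : ℝ) ^ (1 - η) ≤ (((Icc 1 N).filter (fun n : ℕ => N ≤ 16 * n ∧ 16 * n ≤ 9 * N ∧
        (a i * n + (c i + z.1)).toNat.Prime ∧ (a j * n + (c j + z.2)).toNat.Prime)).card : ℝ)) :=
    ⟨_, rfl⟩
  have hGPr : (G N h (min η 1) a (fun i => (c i : ℤ)) S).card ≤ Pr.card := by
    refine card_le_card_of_injOn (fun e => (e i, e j)) ?_ ?_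
    · intro e he
      obtain ⟨h1, h2⟩ := mem_filter.1 (mem_coe.1 he)
      rw [Fintype.mem_piFinset] at h1
      have hi := h1 i
      have hj := h1 j
      rw [if_pos (by rw [hSij]; simp)] at hi hj
      rw [hPrd]
      refine mem_coe.2 (mem_filter.2 ⟨mem_product.2 ⟨hi, hj⟩, hrp.trans (h2.trans ?_)⟩)
      rw [Nat.cast_le]
      unfold cn
      apply card_le_card
      intro n hn
      obtain ⟨h3, h4, h5, h6⟩ := mem_filter.1 hn
      exact mem_filter.2 ⟨h3, h4, h5, h6 i (by rw [hSij]; simp), h6 j (by rw [hSij]; simp)⟩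
    · intro e he e' he' hee
      obtain ⟨h1, -⟩ := mem_filter.1 (mem_coe.1 he)
      obtain ⟨h1', -⟩ := mem_filter.1 (mem_coe.1 he')
      rw [Fintype.mem_piFinset] at h1 h1'
      simp only [Prod.mk.injEq] at hee
      funext k
      by_cases hk : k ∈ S
      · rw [hSij, mem_insert, mem_singleton] at hk
        rcases hk with rfl | rfl
        · exact hee.1
        · exact hee.2
      · have h2 := h1 k
        have h2' := h1' k
        rw [if_neg hk, mem_singleton] at h2 h2'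
        rw [h2, h2']
  have hPrc : (2 / 109 : ℝ) * (h : ℝ) ^ 2 ≤ Pr.card :=
    hcard.trans (by exact_mod_cast hGPr)
  have hh0 : (0 : ℝ) < h := by
    have : 0 < h := by omega
    exact_mod_cast this
  have hhH : (H : ℝ) - 1 ≤ 2 * h := by
    have h1 : H ≤ 2 * h + 1 := by omega
    have h2 : (H : ℝ) ≤ 2 * h + 1 := by exact_mod_cast h1
    linarith
  have hH200 : (200 : ℝ) ≤ H := by exact_mod_cast (by omega : 200 ≤ H)
  have fin : ∀ A : ℕ, Pr.card ≤ h * A → (H : ℝ) / 110 ≤ (A : ℝ) := by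
    intro A hA
    have h1 : (Pr.card : ℝ) ≤ h * A := by exact_mod_cast hA
    have h2 : (2 / 109 : ℝ) * h * h ≤ h * A := by nlinarith
    have h3 : (2 / 109 : ℝ) * h ≤ A := by
      by_contra hcon
      push Not at hcon
      nlinarith
    linarith
  have hhn : 2 * h ≤ H := by omega
  have size : ∀ (k : Fin 4) (u : ℕ), u < h → ∀ n : ℕ, 16 * n ≤ 9 * N →
      (a k * (n : ℤ) + (c k + u)).toNat ≤ 3 * s := by
    intro k u hu n hn
    rw [Int.toNat_le]
    by_cases hk : k ∈ Y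
    · rw [haY k hk]
      have := (hY k hk).2
      push_cast
      omega
    · rw [haX k hk]
      have := hX k hk
      push_cast
      omega
  have swap : ∀ z ∈ Pr, (z.1 < h ∧ z.2 < h) := by
    intro z hz
    rw [hPrd] at hz
    obtain ⟨h1, -⟩ := mem_filter.1 hz
    obtain ⟨h2, h3⟩ := mem_product.1 h1
    exact ⟨mem_range.1 h2, mem_range.1 h3⟩
  have hcase : (i ∈ Y ↔ j ∈ Y) ∨ (i ∉ Y ∧ j ∈ Y) ∨ (j ∉ Y ∧ i ∈ Y) := by tauto
  rcases hcase with hc | ⟨hi, hj⟩ | ⟨hj, hi⟩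
  · refine ⟨i, j, hij, Or.inl ⟨hc, ?_⟩⟩
    have haij : a i = a j := by
      by_cases hi : i ∈ Y
      · rw [haY i hi, haY j (hc.1 hi)]
      · rw [haX i hi, haX j (fun hj => hi (hc.2 hj))]
    refine fin _ (vals h (fun u v => (c j : ℤ) + v - (c i + u)) (fun u v v' e => by
      omega) _ _ Pr (fun z hz => ?_))
    obtain ⟨hz1, hz2⟩ := swap z hz
    refine ⟨hz1, ?_, mem_Icc.2 ⟨by omega, by omega⟩⟩
    rw [hPrd] at hz
    refine (mem_filter.1 hz).2.trans ?_
    rw [Nat.cast_le]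
    refine cnt (3 * s) N (a i) (c i + z.1) (hac i) _
      (fun p => ∃ q : ℕ, q.Prime ∧ (q : ℤ) - p = (c j : ℤ) + z.2 - (c i + z.1)) (fun n hn => ?_)
    obtain ⟨-, n1, n2, n3, n4⟩ := mem_filter.1 hn
    refine ⟨size i z.1 hz1 n n2, n3, _, n4, ?_⟩
    rw [toNat_eq' n3, toNat_eq' n4, haij]
    ring
  · refine ⟨i, j, hij, Or.inr ⟨⟨hi, hj⟩, ?_⟩⟩
    refine fin _ (vals h (fun u v => (c i : ℤ) + u + (c j + v)) (fun u v v' e => by
      omega) _ _ Pr (fun z hz => ?_))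
    obtain ⟨hz1, hz2⟩ := swap z hz
    refine ⟨hz1, ?_, mem_Icc.2 ⟨by omega, by omega⟩⟩
    rw [hPrd] at hz
    refine (mem_filter.1 hz).2.trans ?_
    rw [Nat.cast_le]
    refine cnt (3 * s) N (a i) (c i + z.1) (hac i) _
      (fun p => ∃ q : ℕ, q.Prime ∧ (p : ℤ) + q = (c i : ℤ) + z.1 + (c j + z.2)) (fun n hn => ?_)
    obtain ⟨-, n1, n2, n3, n4⟩ := mem_filter.1 hn
    refine ⟨size i z.1 hz1 n n2, n3, _, n4, ?_⟩
    rw [toNat_eq' n3, toNat_eq' n4, haX i hi, haY j hj]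
    ring
  · refine ⟨j, i, hij.symm, Or.inr ⟨⟨hj, hi⟩, ?_⟩⟩
    refine fin _ (vals h (fun u v => (c j : ℤ) + v + (c i + u)) (fun u v v' e => by
      omega) _ _ Pr (fun z hz => ?_))
    obtain ⟨hz1, hz2⟩ := swap z hz
    refine ⟨hz1, ?_, mem_Icc.2 ⟨by omega, by omega⟩⟩
    rw [hPrd] at hz
    refine (mem_filter.1 hz).2.trans ?_
    rw [Nat.cast_le]
    refine cnt (3 * s) N (a i) (c i + z.1) (hac i) _
      (fun p => ∃ q : ℕ, q.Prime ∧ (p : ℤ) + q = (c j : ℤ) + z.2 + (c i + z.1)) (fun n hn => ?_)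
    obtain ⟨-, n1, n2, n3, n4⟩ := mem_filter.1 hn
    refine ⟨size i z.1 hz1 n n2, n3, _, n4, ?_⟩
    rw [toNat_eq' n3, toNat_eq' n4, haY i hi, haX j hj]
    ring

end Pool.Agent.TH899.UG.SDD
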