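import Pool.Agent.TH899.UG.Stm
import Pool.Agent.W25.UB.AsmAT
import Pool.Agent.TH899.UG.NumW

/-! Assembly for a narrow window: the pair sums. -/

set_option autoImplicit false

namespace Pool.Agent.TH899.UG.NW

open Finset Filter Topology
open Pool.Agent.H410R2 hiding GP GP_prof GP_cut_some GP_cut_none GP_lip gg_pos gg_le_one gg_anti ee_bound ee_nonneg gg_lip LB_gg LB_ee Sums exists_sums yx wx wxi Br sum_GP_none sum_GP_some sum_GP_some_ee sum_GP_some_one sum_GPr_none sum_GPr_some S1_final QI_final S2_final w_abs_le wmax gg ee I1 I2 IE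
open Pool.Agent.H361R2.GM
open Pool.Agent.H362R2.CM
open Pool.Agent.W25.UN
open Pool.Agent.W25.UB
open Pool.Agent.TH899.UG

theorem pair_atTFW {ω : ℝ} (hω : 0 ≤ ω) {T K : ℕ} {Q : SPar} {α h : Fin (T * K) → ℤ} {ε₀ ε₁ ρ ρ₁ ε M C1 : ℝ}
    {Mo A E₁ D B N v D₁ z : ℕ} {Tr : ℤ → ℝ} {t : ℝ} {th dl b : ℕ → ℝ}
    (h0 : St_U0F) (h1 : St_L1F) (h2 : St_U2F) (hd : St_UDF) (hε₀ : 0 < ε₀)
    (hI1 : ε < Q.I1) (hI2 : ε < Q.I2) (hBr2 : 0 < Br2 Q (T * K) ε)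
    (H : DatF Q α h Mo ε₀ ε₁ ρ ρ₁ ε M C1 A E₁ D B N v D₁ z Tr t th dl b)
    (i : Fin (T * K)) (J : Finset (Fin (T * K))) (hJ : i ∉ J) (hJK : J.card ≤ K)
    (S : Finset ℕ) (f : ℕ → ℝ) (hf0 : ∀ n ∈ S, 0 ≤ f n)
    (hf : ∀ n ∈ S, f n ≤ 2 * muF Q α h Mo ρ ρ₁ D B N v Tr i n)
    (hβ : 0 < βc Q (T * K) ε) (Z : ℝ) (hZ : MMF α h Mo D N B ρ ≤ 512 * ω * Z)
    (hF : Z * (ρ * βc Q (T * K) ε) ≤ ∑ n ∈ S, f n) :
    ∑ n ∈ S, f n * ∑ j ∈ J, sjF α h Mo ε₁ B N z b j n ≤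
      mucW ω Q T K ε₀ ε₁ ρ C1 ε * ∑ n ∈ S, f n := by
  have hε := H.ε0
  have hI1p : 0 < Q.I1 := hε.trans hI1
  have hI2p : 0 < Q.I2 := hε.trans hI2
  have h1ε : 0 < 1 - ε := by linarith [H.ε3]
  have hε₁ := H.e10
  have hρ := H.ρ0
  have hC1 := H.C11
  set g : ℝ := vGF α h Mo N B z ε₁ * bb N B ρ with hg
  set g0 : ℝ := g0c ε₀ ρ ε with hg0
  have hbb : 0 < bb N B ρ := by linarith [H.b1]
  have hvG : 0 < vGF α h Mo N B z ε₁ := by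
    unfold vGF
    exact div_pos H.V0 (by linarith [H.G1])
  have hgp : 0 < g := by positivity
  have hggle : g ≤ g0 := by
    rw [hg0]
    unfold g0c
    rw [le_div_iff₀ (by positivity)]
    exact H.vg
  have hg0p : 0 < g0 := hgp.trans_le hggle
  have hN : (0 : ℝ) < ((2 * N : ℕ) : ℝ) := by
    have := H.N8
    exact_mod_cast (by omega : 0 < 2 * N)
  have hW : (0 : ℝ) < ((WW D / 2 : ℕ) : ℝ) := by
    have := H.W2
    exact_mod_cast (by omega : 0 < WW D / 2)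
  have hV := H.Vp
  have hMM : 0 < MMF α h Mo D N B ρ := by
    unfold MMF
    positivity
  set m0 : ℝ := MMF α h Mo D N B ρ with hm0
  have hudc : 0 ≤ udc Q (T * K) ε₁ ε := by unfold udc; positivity
  have hu2c : 0 ≤ u2c Q (T * K) ε₁ ε := by unfold u2c; positivity
  set τ : ℝ := Q.I1 ^ 2 / Q.I2 with hτ
  have hτp : 0 < τ := by positivity
  have hqc : 0 ≤ qc Q (T * K) ε₁ ε := le_max_left _ _
  have hqc' : u2c Q (T * K) ε₁ ε - 2 * τ * l1c Q (T * K) ε₁ ε +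
      τ ^ 2 * r0c Q (T * K) ε ≤ qc Q (T * K) ε₁ ε := le_max_right _ _
  obtain ⟨hmu0, hsμ, hU0⟩ := h0 (T * K) Q α h Mo ε₀ ε₁ ρ ρ₁ ε M C1 A E₁ D B N v D₁ z Tr t th dl b
    hI1p hI2p H i
  have hne : ∀ j ∈ J, i ≠ j := fun j hj hij => hJ (hij ▸ hj)
  have hL1 := fun j (hj : j ∈ J) => h1 (T * K) Q α h Mo ε₀ ε₁ ρ ρ₁ ε M C1 A E₁ D B N v D₁ z Tr t th
    dl b hI1p hI2p hI1 hI2 hBr2 H i j (hne j hj)
  have hU2 := fun j (hj : j ∈ J) l (hl : l ∈ J) (hjl : j ≠ l) => h2 (T * K) Q α h Mo ε₀ ε₁ ρ ρ₁ ε M C1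
    A E₁ D B N v D₁ z Tr t th dl b hI1p hI2p H i j l (hne j hj) (hne l hl) hjl
  have hUD := fun j (hj : j ∈ J) => hd (T * K) Q α h Mo ε₀ ε₁ ρ ρ₁ ε M C1 A E₁ D B N v D₁ z Tr t th
    dl b hI1p hI2p H i j (hne j hj)
  obtain ⟨hsV, hV'⟩ := tsum_centred (muF Q α h Mo ρ ρ₁ D B N v Tr i)
    (fun j n => sjF α h Mo ε₁ B N z b j n) J (g * τ) (m0 * r0c Q (T * K) ε)
    (m0 * g * l1c Q (T * K) ε₁ ε) (m0 * g ^ 2 * u2c Q (T * K) ε₁ ε)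
    (2 * C1 * (m0 * g * udc Q (T * K) ε₁ ε)) (by positivity) (by positivity) hsμ
    hU0 (fun j hj => (hL1 j hj).1) (fun j hj => (hL1 j hj).2)
    (fun j hj => (hUD j hj).1) (fun j hj => (hUD j hj).2)
    (fun j hj l hl hjl => (hU2 j hj l hl hjl).1) (fun j hj l hl hjl => (hU2 j hj l hl hjl).2)
  have hJc : (J.card : ℝ) ≤ K := by exact_mod_cast hJK
  have hJ0 : (0 : ℝ) ≤ J.card := Nat.cast_nonneg _
  set v0 : ℝ := K * (2 * C1 * (g0 * udc Q (T * K) ε₁ ε)) +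
        (K : ℝ) ^ 2 * g0 ^ 2 * qc Q (T * K) ε₁ ε with hv0
  have hv0p : 0 ≤ v0 := by positivity
  have hVb : (J.card : ℝ) * (2 * C1 * (m0 * g * udc Q (T * K) ε₁ ε)) +
      (J.card : ℝ) ^ 2 * (m0 * g ^ 2 * u2c Q (T * K) ε₁ ε -
        2 * (g * τ) * (m0 * g * l1c Q (T * K) ε₁ ε) +
        (g * τ) ^ 2 * (m0 * r0c Q (T * K) ε)) ≤ m0 * v0 := by
    have e1 : (J.card : ℝ) * (2 * C1 * (m0 * g * udc Q (T * K) ε₁ ε)) ≤
        m0 * (K * (2 * C1 * (g0 * udc Q (T * K) ε₁ ε))) := by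
      calc (J.card : ℝ) * (2 * C1 * (m0 * g * udc Q (T * K) ε₁ ε)) ≤
          K * (2 * C1 * (m0 * g0 * udc Q (T * K) ε₁ ε)) := by gcongr
        _ = _ := by ring
    have e2 : (J.card : ℝ) ^ 2 * (m0 * g ^ 2 * u2c Q (T * K) ε₁ ε -
        2 * (g * τ) * (m0 * g * l1c Q (T * K) ε₁ ε) +
        (g * τ) ^ 2 * (m0 * r0c Q (T * K) ε)) ≤
        m0 * ((K : ℝ) ^ 2 * g0 ^ 2 * qc Q (T * K) ε₁ ε) := by
      calc (J.card : ℝ) ^ 2 * (m0 * g ^ 2 * u2c Q (T * K) ε₁ ε -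
            2 * (g * τ) * (m0 * g * l1c Q (T * K) ε₁ ε) +
            (g * τ) ^ 2 * (m0 * r0c Q (T * K) ε)) =
          (J.card : ℝ) ^ 2 * (m0 * g ^ 2 * (u2c Q (T * K) ε₁ ε -
            2 * τ * l1c Q (T * K) ε₁ ε + τ ^ 2 * r0c Q (T * K) ε)) := by ring
        _ ≤ (J.card : ℝ) ^ 2 * (m0 * g ^ 2 * qc Q (T * K) ε₁ ε) := by gcongr
        _ ≤ (K : ℝ) ^ 2 * (m0 * g0 ^ 2 * qc Q (T * K) ε₁ ε) := by gcongr
        _ = _ := by ring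
    calc _ ≤ m0 * (K * (2 * C1 * (g0 * udc Q (T * K) ε₁ ε))) +
        m0 * ((K : ℝ) ^ 2 * g0 ^ 2 * qc Q (T * K) ε₁ ε) := add_le_add e1 e2
      _ = _ := by rw [hv0]; ring
  have hbes := bessel S f hf0 (muF Q α h Mo ρ ρ₁ D B N v Tr i) hmu0 hf
    (fun j n => sjF α h Mo ε₁ B N z b j n) J (g * τ) (m0 * v0) hsV (hV'.trans hVb)
  refine hbes.trans ?_
  set F : ℝ := ∑ n ∈ S, f n with hFdef
  have hF0 : 0 ≤ F := Finset.sum_nonneg hf0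
  have hρβ : 0 < ρ * βc Q (T * K) ε := by positivity
  have hs1 : 2 * F * (m0 * v0) ≤ F ^ 2 * (1024 * ω / (ρ * βc Q (T * K) ε) * v0) := by
    have e1 : Z ≤ F / (ρ * βc Q (T * K) ε) := by
      rw [le_div_iff₀ hρβ]
      exact hF
    have e2 : m0 ≤ 512 * ω * (F / (ρ * βc Q (T * K) ε)) :=
      hZ.trans (mul_le_mul_of_nonneg_left e1 (by positivity))
    calc 2 * F * (m0 * v0) ≤ 2 * F * (512 * ω * (F / (ρ * βc Q (T * K) ε)) * v0) := by gcongr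
      _ = _ := by ring
  have hs2 : Real.sqrt (2 * F * (m0 * v0)) ≤
      F * Real.sqrt (1024 * ω / (ρ * βc Q (T * K) ε) * v0) := by
    calc Real.sqrt (2 * F * (m0 * v0)) ≤
        Real.sqrt (F ^ 2 * (1024 * ω / (ρ * βc Q (T * K) ε) * v0)) := Real.sqrt_le_sqrt hs1
      _ = _ := by rw [Real.sqrt_mul (sq_nonneg _), Real.sqrt_sq hF0]
  have hs3 : (J.card : ℝ) * (g * τ) * F ≤ K * g0 * τ * F := by
    have : (J.card : ℝ) * (g * τ) ≤ K * (g0 * τ) := by gcongr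
    calc _ ≤ K * (g0 * τ) * F := mul_le_mul_of_nonneg_right this hF0
      _ = _ := by ring
  calc _ ≤ K * g0 * τ * F + F * Real.sqrt (1024 * ω / (ρ * βc Q (T * K) ε) * v0) :=
        add_le_add hs3 hs2
    _ = _ := by
        unfold mucW
        rw [← hg0, ← hτ, ← hv0]
        ring


end Pool.Agent.TH899.UG.NW
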