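import Pool.Agent.TH899.UG.AsmB
import Pool.Agent.TH899.UG.AsmAW

/-! Assembly for a narrow window: the tents of the window. -/

set_option autoImplicit false

namespace Pool.Agent.TH899.UG.NW

open Finset Filter Topology
open Pool.Agent.H410R2 hiding GP GP_prof GP_cut_some GP_cut_none GP_lip gg_pos gg_le_one gg_anti ee_bound ee_nonneg gg_lip LB_gg LB_ee Sums exists_sums yx wx wxi Br sum_GP_none sum_GP_some sum_GP_some_ee sum_GP_some_one sum_GPr_none sum_GPr_some S1_final QI_final S2_final w_abs_le wmax gg ee I1 I2 IE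
open Pool.Agent.H361R2.GM
open Pool.Agent.H362R2.CM
open Pool.Agent.W25.UN
open Pool.Agent.W25.UB
open Pool.Agent.TH899.UG

open Classical in
/-- the tents inside `[c₁ N, c₂ N]` -/
noncomputable def RW (κ c₁ c₂ : ℝ) : Finset ℕ :=
  (range (Rn κ)).filter (fun r => c₁ + κ ≤ ctr κ r ∧ ctr κ r ≤ c₂ - κ)

/-- the sum of the tents inside the window -/
noncomputable def UtW (κ c₁ c₂ : ℝ) (N : ℕ) (n : ℝ) : ℝ :=
  ∑ r ∈ RW κ c₁ c₂, lt (ctr κ r * N) (κ * (ctr κ r * N)) n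

theorem RW_lt {κ c₁ c₂ : ℝ} {r : ℕ} (hr : r ∈ RW κ c₁ c₂) : r < Rn κ := by
  classical
  unfold RW at hr
  exact Finset.mem_range.1 (Finset.mem_filter.1 hr).1

theorem UtW_nonneg (κ c₁ c₂ : ℝ) (N : ℕ) (n : ℝ) : 0 ≤ UtW κ c₁ c₂ N n :=
  Finset.sum_nonneg fun _ _ => lt_nonneg _ _ _

theorem UtW_le_one {κ : ℝ} (c₁ c₂ : ℝ) (hκ : 0 < κ) {N : ℕ} (hN : 0 < N) (n : ℝ) :
    UtW κ c₁ c₂ N n ≤ 1 := by
  classical
  refine le_trans ?_ (Ut_le_one hκ hN n)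
  unfold UtW Ut RW
  exact Finset.sum_le_sum_of_subset_of_nonneg (Finset.filter_subset _ _)
    (fun _ _ _ => lt_nonneg _ _ _)

theorem UtW_range {κ c₁ c₂ : ℝ} (hκ : 0 < κ) {N : ℕ} (hN : 0 < N) {n : ℝ}
    (hn : UtW κ c₁ c₂ N n ≠ 0) : c₁ * N ≤ n ∧ n ≤ c₂ * N := by
  classical
  unfold UtW at hn
  obtain ⟨r, hr, hr2⟩ := Finset.exists_ne_zero_of_sum_ne_zero hn
  obtain ⟨h1, h2⟩ := ctr_range hκ (RW_lt hr)
  unfold RW at hr
  obtain ⟨-, h3, h4⟩ := Finset.mem_filter.1 hr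
  have hNR : (0 : ℝ) < N := by exact_mod_cast hN
  have hc : 0 < ctr κ r := by linarith
  have h5 := abs_lt.1 (lt_pos_iff (by positivity) hr2)
  have h6 : κ * (ctr κ r * N) ≤ κ * (1 / 4 * N) := by gcongr
  have h7 : (c₁ + κ) * N ≤ ctr κ r * N := mul_le_mul_of_nonneg_right h3 hNR.le
  have h8 : ctr κ r * N ≤ (c₂ - κ) * N := mul_le_mul_of_nonneg_right h4 hNR.le
  have h9 : 0 < κ * N := by positivity
  constructor
  · nlinarith
  · nlinarith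

theorem RW_sum {κ c₁ c₂ : ℝ} (hκ : 0 < κ) (h1 : 1 / 8 ≤ c₁) (h2 : c₁ < c₂) (h3 : c₂ ≤ 1 / 4)
    (h4 : κ ≤ (c₂ - c₁) / 6) :
    1 / 64 ≤ 1 / (4 * (c₂ - c₁)) * ∑ r ∈ RW κ c₁ c₂, κ * ctr κ r := by
  classical
  have hd : 0 < c₂ - c₁ := by linarith
  set r₀ : ℕ := ⌈(c₁ + κ - 1 / 8) / κ⌉₊ with hr₀
  set m : ℕ := ⌊(c₂ - c₁) / (2 * κ)⌋₊ + 1 with hm
  have hr1 : c₁ + κ - 1 / 8 ≤ r₀ * κ := by
    have := Nat.le_ceil ((c₁ + κ - 1 / 8) / κ)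
    rwa [div_le_iff₀ hκ] at this
  have hr2 : r₀ * κ ≤ c₁ + 2 * κ - 1 / 8 := by
    have h5 : 0 ≤ (c₁ + κ - 1 / 8) / κ := by
      apply div_nonneg _ hκ.le
      linarith
    have h6 := Nat.ceil_lt_add_one h5
    have h7 : (r₀ : ℝ) * κ < ((c₁ + κ - 1 / 8) / κ + 1) * κ := mul_lt_mul_of_pos_right h6 hκ
    have h8 : ((c₁ + κ - 1 / 8) / κ + 1) * κ = c₁ + 2 * κ - 1 / 8 := by
      field_simp
      ring
    linarith
  have hmem : ∀ i < m, r₀ + i ∈ RW κ c₁ c₂ := by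
    intro i hi
    have h5 : (i : ℝ) ≤ (c₂ - c₁) / (2 * κ) := by
      have h6 : i ≤ ⌊(c₂ - c₁) / (2 * κ)⌋₊ := by omega
      have h7 : (i : ℝ) ≤ (⌊(c₂ - c₁) / (2 * κ)⌋₊ : ℝ) := by exact_mod_cast h6
      exact h7.trans (Nat.floor_le (by positivity))
    have h6 : (i : ℝ) * κ ≤ (c₂ - c₁) / 2 := by
      calc (i : ℝ) * κ ≤ (c₂ - c₁) / (2 * κ) * κ := mul_le_mul_of_nonneg_right h5 hκ.le
        _ = (c₂ - c₁) / 2 := by field_simp
    have h0 : (0 : ℝ) ≤ i * κ := by positivity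
    have h7 : ctr κ (r₀ + i) = 1 / 8 + r₀ * κ + i * κ := by
      unfold ctr
      push_cast
      ring
    have h8 : c₁ + κ ≤ ctr κ (r₀ + i) := by rw [h7]; linarith
    have h9 : ctr κ (r₀ + i) ≤ c₂ - κ := by rw [h7]; linarith
    unfold RW
    refine Finset.mem_filter.2 ⟨Finset.mem_range.2 ?_, h8, h9⟩
    unfold Rn
    have h10 : ((r₀ + i : ℕ) : ℝ) ≤ 1 / (8 * κ) := by
      rw [le_div_iff₀ (by positivity)]
      have h11 : ctr κ (r₀ + i) ≤ 1 / 4 := by linarith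
      unfold ctr at h11
      linarith
    have := Nat.le_floor h10
    omega
  have hsub : (range m).image (fun i => r₀ + i) ⊆ RW κ c₁ c₂ := by
    intro r hr
    obtain ⟨i, hi, rfl⟩ := Finset.mem_image.1 hr
    exact hmem i (Finset.mem_range.1 hi)
  have hcard : m ≤ (RW κ c₁ c₂).card := by
    have h5 := Finset.card_le_card hsub
    rwa [Finset.card_image_of_injective _ (fun a b h => Nat.add_left_cancel h),
      Finset.card_range] at h5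
  have h5 : ∑ _r ∈ RW κ c₁ c₂, κ * (1 / 8) ≤ ∑ r ∈ RW κ c₁ c₂, κ * ctr κ r := by
    apply Finset.sum_le_sum
    intro r hr
    have := (ctr_range hκ (RW_lt hr)).1
    gcongr
  rw [Finset.sum_const, nsmul_eq_mul] at h5
  have h6 : (c₂ - c₁) / (2 * κ) ≤ ((RW κ c₁ c₂).card : ℝ) := by
    have h7 : (m : ℝ) ≤ (RW κ c₁ c₂).card := by exact_mod_cast hcard
    refine le_trans ?_ h7
    rw [hm]
    push_cast
    exact (Nat.lt_floor_add_one _).le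
  have h7 : (c₂ - c₁) / 16 ≤ ∑ r ∈ RW κ c₁ c₂, κ * ctr κ r := by
    refine le_trans ?_ h5
    calc (c₂ - c₁) / 16 = (c₂ - c₁) / (2 * κ) * (κ * (1 / 8)) := by field_simp; norm_num
      _ ≤ _ := by gcongr
  calc (1 : ℝ) / 64 = 1 / (4 * (c₂ - c₁)) * ((c₂ - c₁) / 16) := by field_simp; norm_num
    _ ≤ _ := by gcongr

/-- comparison of the sizes -/
theorem MM_leW {k : ℕ} (α h : Fin k → ℤ) (Mo D N B : ℕ) (ρ κ c₁ c₂ : ℝ) (hκ : 0 < κ)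
    (h1 : 1 / 8 ≤ c₁) (h2 : c₁ < c₂) (h3 : c₂ ≤ 1 / 4) (h4 : κ ≤ (c₂ - c₁) / 6) (hD : 2 ≤ D)
    (hW : 1 ≤ WW D / 2) (hV : 0 < Pool.Agent.W25.UN.VV α h Mo D (DB (2 * N) B))
    (hb : 0 < bb N B ρ) :
    MMF α h Mo D N B ρ ≤ 512 * (1 / (4 * (c₂ - c₁))) * ∑ r ∈ RW κ c₁ c₂,
      ZZ k (Pool.Agent.W25.UN.VV α h Mo D (DB (2 * N) B)) (κ * (ctr κ r * N)) (WW D)
        (BD (DB (2 * N) B)) (ρ * Real.log N) := by
  have hWW : ((WW D : ℕ) : ℝ) = 2 * ((WW D / 2 : ℕ) : ℝ) := by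
    have h1 : 2 * (WW D / 2) = WW D := Nat.mul_div_cancel' (two_dvd_WW hD)
    have h2 : ((2 * (WW D / 2) : ℕ) : ℝ) = ((WW D : ℕ) : ℝ) := by rw [h1]
    rw [← h2]
    push_cast
    ring
  have hW' : (0 : ℝ) < ((WW D / 2 : ℕ) : ℝ) := by exact_mod_cast (by omega : 0 < WW D / 2)
  set w : ℝ := ((WW D / 2 : ℕ) : ℝ) with hw
  set V : ℝ := Pool.Agent.W25.UN.VV α h Mo D (DB (2 * N) B) with hVd
  have e1 : ∑ r ∈ RW κ c₁ c₂, ZZ k V (κ * (ctr κ r * N)) (WW D)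
        (BD (DB (2 * N) B)) (ρ * Real.log N) =
      (V * N / (2 * w) * (bb N B ρ / 48 * bb N B ρ ^ k)) * ∑ r ∈ RW κ c₁ c₂, κ * ctr κ r := by
    rw [Finset.mul_sum]
    refine Finset.sum_congr rfl fun r _ => ?_
    unfold ZZ
    rw [hWW]
    have : BD (DB (2 * N) B) * (ρ * Real.log N) = bb N B ρ := rfl
    have h2 : BD (DB (2 * N) B) * (ρ * Real.log N / 48) = bb N B ρ / 48 := by
      rw [← this]; ring
    rw [this, h2]
    ring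
  rw [e1]
  have h5 := RW_sum hκ h1 h2 h3 h4
  have hX : 0 ≤ V * N / (2 * w) * (bb N B ρ / 48 * bb N B ρ ^ k) := by positivity
  have h6 := mul_le_mul_of_nonneg_left h5 hX
  unfold MMF
  rw [← hVd, ← hw]
  have e2 : ((2 * N : ℕ) : ℝ) * (V / w * (bb N B ρ / 48 * bb N B ρ ^ k)) =
      4 * (V * N / (2 * w) * (bb N B ρ / 48 * bb N B ρ ^ k)) := by
    push_cast
    field_simp
    ring
  rw [e2]
  have e3 : 512 * (1 / (4 * (c₂ - c₁))) * ((V * N / (2 * w) * (bb N B ρ / 48 * bb N B ρ ^ k)) *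
      ∑ r ∈ RW κ c₁ c₂, κ * ctr κ r) = 512 * ((V * N / (2 * w) * (bb N B ρ / 48 *
      bb N B ρ ^ k)) * (1 / (4 * (c₂ - c₁)) * ∑ r ∈ RW κ c₁ c₂, κ * ctr κ r)) := by ring
  rw [e3]
  have e4 : (0 : ℝ) ≤ V * N / (2 * w) * (bb N B ρ / 48 * bb N B ρ ^ k) := hX
  linarith

end Pool.Agent.TH899.UG.NW
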