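import Mathlib
import Pool.Agent.TH899.UG.AsmC
import Pool.Agent.TH899.UG.AsmCW
import Pool.Agent.TH899.UG.AsmDH
import Pool.Agent.TH899.UG.TWb
import Pool.Agent.TH899.UG.AsmD
import Pool.Agent.TH899.UG.PtH
import Pool.Agent.W25.UB.Stm7
import Pool.Agent.W25.UN.Ev

/-! The coloured theorem in a narrow window from the outcome of the sieve. -/

set_option autoImplicit false

namespace Pool.Agent.TH899.UG.NW

open Finset Filter Topology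
open Pool.Agent.H410R2 hiding GP GP_prof GP_cut_some GP_cut_none GP_lip gg_pos gg_le_one gg_anti ee_bound ee_nonneg gg_lip LB_gg LB_ee Sums exists_sums yx wx wxi Br sum_GP_none sum_GP_some sum_GP_some_ee sum_GP_some_one sum_GPr_none sum_GPr_some S1_final QI_final S2_final w_abs_le wmax gg ee I1 I2 IE
open Pool.Agent.H361R2.GM
open Pool.Agent.H362R2.CM
open Pool.Agent.W25.UN
open Pool.Agent.W25.UB
open Pool.Agent.TH899.UG

open Classical in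
/-- (VGW) the uniform coloured theorem with any number of classes, arbitrary slopes, in an arbitrary
window `[c₁ N, c₂ N]` -/
def ThmVGW : Prop := ∃ c : ℝ, 0 < c ∧ c < 1 ∧ ∀ c₁ c₂ : ℝ, 1 / 8 ≤ c₁ → c₁ < c₂ → c₂ ≤ 1 / 4 →
  ∀ T M : ℕ, 1 ≤ T → (4 - c) * M < T →
  ∃ K : ℕ, 2 ≤ K ∧ ∃ D₀ : ℕ, ∀ D : ℕ, D₀ ≤ D →
    ∀ (α : Fin (T * K) → ℤ) (cl : Fin (T * K) → Fin T),
    (∀ g, (univ.filter (fun i => cl i = g)).card = K) → (∀ i, α i ≠ 0) →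
    (∀ i, (α i).natAbs ≤ D) →
    ∀ η : ℝ, 0 < η → ∀ᶠ N : ℕ in atTop, ∀ (h : Fin (T * K) → ℤ) (Mo : ℕ), HB h Mo N →
    Nd α h Mo → PosR α h Mo N →
    ∀ v : ℕ, CopAt α h D Mo v →
      (N : ℝ) ^ (1 - η) ≤ (((Icc 1 N).filter (fun n : ℕ => n ≡ v [MOD (WW D)] ∧
        c₁ * N ≤ n ∧ (n : ℝ) ≤ c₂ * N ∧
        M + 1 ≤ (univ.filter (fun g : Fin T => ∃ i, cl i = g ∧
          (Fm α h Mo i n).toNat.Prime)).card)).card : ℝ)

theorem thmVGW_of (hR2 : St_R2LF) (hDAT : St_DATH) (hNUM : St_NUMW) (hTWa : St_TWaH)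
    (hTWb : St_TWbH) (hU0 : St_U0F) (hL1 : St_L1F) (hU2 : St_U2F) (hUD : St_UDF)
    (hNWE : St_NWE) (hVLN : St_VLNF) : ThmVGW := by
  classical
  obtain ⟨ε₀, η, hε₀, hε₀1, hη, hη1, hR⟩ := hR2
  set η₀ : ℝ := min (ε₀ / 10) η / 16 with hη₀d
  have hη₀ : 0 < η₀ := by
    have : 0 < min (ε₀ / 10) η := lt_min (by positivity) hη
    positivity
  have hη₀1 : 16 * η₀ ≤ ε₀ / 10 := by
    have : 16 * η₀ = min (ε₀ / 10) η := by rw [hη₀d]; ring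
    rw [this]
    exact min_le_left _ _
  have hη₀2 : 16 * η₀ ≤ η := by
    have : 16 * η₀ = min (ε₀ / 10) η := by rw [hη₀d]; ring
    rw [this]
    exact min_le_right _ _
  obtain ⟨c, hc, hc1, hN0⟩ := hNUM ε₀ hε₀ hε₀1
  refine ⟨c, hc, hc1, ?_⟩
  intro c₁ c₂ hc₁ hc₁₂ hc₂ T Mc hT hTM
  have hd0 : 0 < c₂ - c₁ := by linarith
  have hω : 1 ≤ 1 / (4 * (c₂ - c₁)) := by
    rw [le_div_iff₀ (by positivity)]
    linarith
  have hκ₀ : 0 < (c₂ - c₁) := hd0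
  obtain ⟨εs, hεs, hD1⟩ := hDAT ε₀ η hε₀ hε₀1 hη hη1 hR η₀ hη₀ hη₀1 hη₀2
  obtain ⟨e₁, he₁, hN1⟩ := hN0 (1 / (4 * (c₂ - c₁))) (c₂ - c₁) hω hκ₀ T Mc hT hTM
  set ε₁ : ℝ := min (min εs e₁) (min η₀ (1 / 4)) with hε₁d
  have hε₁ : 0 < ε₁ := lt_min (lt_min hεs he₁) (lt_min hη₀ (by norm_num))
  have h1 : ε₁ ≤ εs := (min_le_left _ _).trans (min_le_left _ _)
  have h2 : ε₁ ≤ e₁ := (min_le_left _ _).trans (min_le_right _ _)
  have h3 : ε₁ ≤ η₀ := (min_le_right _ _).trans (min_le_left _ _)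
  have h4 : ε₁ ≤ 1 / 4 := (min_le_right _ _).trans (min_le_right _ _)
  obtain ⟨C1, hC1, hD2⟩ := hD1 ε₁ hε₁ h1
  obtain ⟨K, Q, ε, hK, hTK, hε, hε3, hεκ, hI1, hI2, hBr, hBr2, hnum⟩ := hN1 ε₁ hε₁ h2 C1 hC1
  obtain ⟨B₀, hB₀, hD3⟩ := hD2 (T * K) Q (ε₁ / 4) (ε₁ / 2) ε (by omega) (by linarith)
    (by linarith) (by linarith) (by linarith) hε hε3 hI1 hI2
  refine ⟨K, hK, ?_⟩
  obtain ⟨Da, hTa⟩ := hTWa (T * K) Q (ε₁ / 4) (ε₁ / 2) ε B₀ (by omega) (by linarith)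
    (by linarith) (by linarith) (by linarith) hε hε3 hI1 hI2 (by omega)
  obtain ⟨Db, hTb⟩ := hTWb (T * K) Q (ε₁ / 4) (ε₁ / 2) ε B₀ (by omega) (by linarith)
    (by linarith) (by linarith) (by linarith) hε hε3 hI1 hI2 hBr (by omega)
  refine ⟨Da + Db + 2 * (T * K + 1) + 2, ?_⟩
  intro D hD α cl hcl hα hαD η' hη'
  have hκ : 0 < ε / 400 := by positivity
  have hI2p : 0 < Q.I2 := hε.trans hI2
  have evTa : ∀ᶠ N : ℕ in atTop, ∀ r ∈ range (Rn (ε / 400)), ∀ (h : Fin (T * K) → ℤ) (Mo : ℕ),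
      HB h Mo N → Nd α h Mo →
      ∀ v : ℕ, (∀ j, ∀ n : ℤ, n ≡ v [ZMOD (WW D)] →
        IsCoprime (uB α j * n + wB h Mo j) ((WW D : ℕ) : ℤ)) →
      ∀ Z : ℝ, Z = ZZ (T * K) (Pool.Agent.W25.UN.VV α h Mo D (DB (2 * N) B₀))
          (ε / 400 * (ctr (ε / 400) r * N)) (WW D)
          (BD (DB (2 * N) B₀)) (ε₁ / 4 * Real.log N) →
      ∑ n ∈ Ns α h D (DB (2 * N) B₀) Mo v N,
        lt (ctr (ε / 400) r * N) (ε / 400 * (ctr (ε / 400) r * N)) n *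
        (wZ Q (uB α) (wB h Mo) (PBF α h Mo N B₀ (ε₁ / 2)) (ε₁ / 4 * Real.log N) n) ^ 2 ≤
          Z * Ac Q (T * K) ε := by
    rw [Filter.eventually_all_finset]
    intro r hr
    have hc := ctr_range hκ (Finset.mem_range.1 hr)
    exact hTa D (by omega) α hα hαD (ctr (ε / 400) r) hc.1 hc.2
  have evTb : ∀ᶠ N : ℕ in atTop, ∀ r ∈ range (Rn (ε / 400)), ∀ (h : Fin (T * K) → ℤ) (Mo : ℕ),
      HB h Mo N → Nd α h Mo →
      PosR α h Mo N → ∀ v : ℕ, (∀ j, ∀ n : ℤ, n ≡ v [ZMOD (WW D)] →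
        IsCoprime (uB α j * n + wB h Mo j) ((WW D : ℕ) : ℤ)) →
      ∀ Z : ℝ, Z = ZZ (T * K) (Pool.Agent.W25.UN.VV α h Mo D (DB (2 * N) B₀))
          (ε / 400 * (ctr (ε / 400) r * N)) (WW D)
          (BD (DB (2 * N) B₀)) (ε₁ / 4 * Real.log N) →
      ∀ i : Fin (T * K), Z * (ε₁ / 4 * βc Q (T * K) ε) ≤ ∑ n ∈ Ns α h D (DB (2 * N) B₀) Mo v N,
      (if (Fm α h Mo i n).toNat.Prime then
        lt (ctr (ε / 400) r * N) (ε / 400 * (ctr (ε / 400) r * N)) n *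
        (wZ Q (uB α) (wB h Mo) (PBF α h Mo N B₀ (ε₁ / 2)) (ε₁ / 4 * Real.log N) n) ^ 2 else 0) := by
    rw [Filter.eventually_all_finset]
    intro r hr
    have hc := ctr_range hκ (Finset.mem_range.1 hr)
    exact hTb D (by omega) α hα hαD (ctr (ε / 400) r) hc.1 hc.2
  filter_upwards [hD3 B₀ le_rfl D (by omega) α hα hαD, evTa, evTb,
    ptwH (T * K) α Q (η' / 4) (by linarith),
    hVLN (T * K) B₀ D ε₁ (ε₁ / 4) (by omega) (by omega) hε₁ (by linarith) (by linarith),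
    eventually_gt_atTop 10000, ev_poly 128 0 ε₁ 1 (by linarith),
    ev_poly (6144 * T * (1 / (4 * (c₂ - c₁))) * ((WW D / 2 : ℕ) : ℝ) / (ε * Ac Q (T * K) ε)) 1 (1 - η' + η' / 4) 1
      (by linarith)]
    with N hdat hTa' hTb' hpt hvln hN1' hp8 hpl
  intro h Mo hMo hnd hpos v hv
  replace hpt := hpt h Mo hMo
  replace hvln := hvln α h Mo hα hαD
  obtain ⟨M, A, E₁, D₁, z, Tr, t, th, dl, b, H⟩ := hdat h Mo hMo hnd v
  have hN0 : (0 : ℝ) < N := by exact_mod_cast (by omega : 0 < N)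
  have hbig : ((2 * N : ℕ) : ℝ) ^ ε₁ ≤ N / 64 := by
    push_cast
    rw [Real.mul_rpow (by norm_num) hN0.le]
    have h5 : (2 : ℝ) ^ ε₁ ≤ 2 := by
      calc (2 : ℝ) ^ ε₁ ≤ (2 : ℝ) ^ (1 : ℝ) :=
            Real.rpow_le_rpow_of_exponent_le (by norm_num) (by linarith)
        _ = 2 := Real.rpow_one 2
    rw [pow_zero, mul_one, Real.rpow_one] at hp8
    have h6 : (2 : ℝ) ^ ε₁ * (N : ℝ) ^ ε₁ ≤ 2 * (N : ℝ) ^ ε₁ :=
      mul_le_mul_of_nonneg_right h5 (by positivity)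
    linarith
  have hz64 : 64 * z ≤ N := by
    have h5 := H.z2
    have h2N : (1 : ℝ) ≤ ((2 * N : ℕ) : ℝ) := by
      exact_mod_cast (by omega : 1 ≤ 2 * N)
    have h6 : ((2 * N : ℕ) : ℝ) ^ (1 / 2 + ε₀ / 4) ≤ ((2 * N : ℕ) : ℝ) ^ (1 : ℝ) :=
      Real.rpow_le_rpow_of_exponent_le h2N (by linarith)
    rw [Real.rpow_one] at h6
    have h7 : z ^ 2 ≤ 2 * N := by exact_mod_cast h5.trans h6
    by_contra hc
    have h8 : N + 1 ≤ 64 * z := by omega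
    have h9 : (N + 1) * (N + 1) ≤ (64 * z) * (64 * z) := Nat.mul_le_mul h8 h8
    have h10 : (64 * z) * (64 * z) = 4096 * z ^ 2 := by ring
    have h11 : N * 10000 ≤ N * N := Nat.mul_le_mul_left N (by omega)
    nlinarith
  have hcop : ∀ j, ∀ n : ℤ, n ≡ v [ZMOD (WW D)] →
      IsCoprime (uB α j * n + wB h Mo j) ((WW D : ℕ) : ℤ) := hv
  have hpt' : ∀ n : ℕ, 1 ≤ n → n ≤ N → (∀ i, (Mo : ℤ) + α i * n + h i ≠ 0) →
      (wZ Q (uB α) (wB h Mo) (PBF α h Mo N B₀ (ε₁ / 2)) (ε₁ / 4 * Real.log N) n) ^ 2 ≤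
        (N : ℝ) ^ (η' / 4) := by
    intro n hn1 hn2 hn3
    refine (hpt (PBF α h Mo N B₀ (ε₁ / 2)) (ε₁ / 4 * Real.log N) ?_ ?_ H.sd n hn1 hn2 hn3).1
    · have := H.l1
      positivity
    · intro p hp
      have h5 := H.gd p (Finset.mem_union_left _ hp)
      refine ⟨h5.1.1, ?_⟩
      have h6 : (p : ℝ) ≤ N := by linarith [h5.2.2]
      exact_mod_cast h6
  have hres := core_atTFW hc₁ hc₁₂ hc₂ hU0 hL1 hU2 hUD hNWE hε₀ hI1 hI2 hBr hBr2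
    (by linarith) hnum H cl hcl (by omega)
    (fun r hr => hTa' r (Finset.mem_range.2 hr) h Mo hMo hnd v hcop _ rfl)
    (fun r hr => hTb' r (Finset.mem_range.2 hr) h Mo hMo hnd hpos v hcop _ rfl) hpos.posF hbig hz64 (η' / 4) η' hpt'
    hvln.2.2.2.1 hpl
  convert hres using 4

end Pool.Agent.TH899.UG.NW
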