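import Mathlib
import Pool.Agent.TH899.UG.FinalH
import Pool.Agent.TH899.UG.AsmDW

/-! The coloured theorem in a narrow window, unconditionally. -/

set_option autoImplicit false

namespace Pool.Agent.TH899.UG.NW

open Pool.Agent.W25.UN Pool.Agent.W25.UB
open Pool.Agent.TH899.UG

/-- the uniform coloured theorem with any number of classes, arbitrary slopes, in a narrow window -/
theorem thmVGW : ThmVGW :=
  thmVGW_of hR2LF hDATH Pool.Agent.TH899.UG.NW.main hTWaH hTWbH
    (u0F hNWU) (l1F hNWU Pool.Agent.W469.UBNWE.main)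
    (u2F hNWU Pool.Agent.W469.UBNWE.main)
    (udF hNWU Pool.Agent.W469.UBNWE.main) Pool.Agent.W469.UBNWE.main hVLNF

end Pool.Agent.TH899.UG.NW
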