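import Mathlib
import Pool.Agent.TH899.UG.ExL
import Pool.Agent.TH899.UG.FinalW

/-! The uniform coloured theorem above one quarter for arbitrary linear forms, with the variable
in a narrow window. -/

set_option autoImplicit false

namespace Pool.Agent.TH899.UG.NW

open Finset Filter Topology
open Pool.Agent.W25.UN
open Pool.Agent.W25.UB (CopAt)
open Pool.Agent.H410R2 (WW)
open Pool.Agent.TH899.UG
open Pool.Agent.TH899.UG.Uni

open Classical in
/-- **The uniform coloured theorem in a window.** -/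
theorem exactW : ∃ c : ℝ, 0 < c ∧ c < 1 ∧ ∀ c₁ c₂ : ℝ, 1 / 8 ≤ c₁ → c₁ < c₂ → c₂ ≤ 1 / 4 →
    ∀ T M : ℕ, 1 ≤ T → (4 - c) * M < T →
    ∃ K : ℕ, 1 ≤ K ∧ ∀ A : ℕ, ∀ η : ℝ, 0 < η → ∀ᶠ N : ℕ in atTop,
    ∀ a b : Fin T → Fin K → ℤ, (∀ g i, a g i ≠ 0) → (∀ g i, |a g i| ≤ A) →
      (∀ g i, 5 * |b g i| ≤ 6 * (N : ℤ)) →
      (∀ g i, ∀ y : ℝ, (N : ℝ) / 16 ≤ y → y ≤ N / 2 → (N : ℝ) / 30 ≤ a g i * y + b g i) →
      Function.Injective (fun x : Fin T × Fin K => (a x.1 x.2, b x.1 x.2)) →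
      (∀ p : ℕ, p.Prime → ∃ n : ℤ, ∀ g i, ¬ ((p : ℤ) ∣ a g i * n + b g i)) →
      ∃ (S : Finset (Fin T)) (σ : Fin T → Fin K), M + 1 ≤ S.card ∧
        (N : ℝ) ^ (1 - η) ≤ (((Icc 1 N).filter (fun n : ℕ => c₁ * N ≤ n ∧ (n : ℝ) ≤ c₂ * N ∧
          ∀ g ∈ S, (a g (σ g) * n + b g (σ g)).toNat.Prime)).card : ℝ) := by
  obtain ⟨c, hc, hc1, H⟩ := thmVGW
  refine ⟨c, hc, hc1, ?_⟩
  intro c₁ c₂ hc₁ hc₁₂ hc₂ T M hT hTM
  obtain ⟨K, hK, D₀, H⟩ := H c₁ ((c₁ + c₂) / 2) hc₁ (by linarith) (by linarith) T M hT hTM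
  refine ⟨K, by omega, fun A η hη => ?_⟩
  obtain ⟨DW, hWF⟩ := Pool.Agent.W493.UN.WD.main
  set D : ℕ := D₀ + DW + A with hD
  obtain ⟨-, -, -, -, hv⟩ := hWF D (by omega)
  obtain ⟨R, hR⟩ := transl (T * K)
  haveI : NeZero K := ⟨by omega⟩
  have h2 : ∀ᶠ N : ℕ in atTop, ∀ α ∈ (Fintype.piFinset (fun _ : Fin (T * K) => Icc (-(A : ℤ)) A)).filter
      (fun a => ∀ i, a i ≠ 0), ∀ (h : Fin (T * K) → ℤ) (Mo : ℕ), HB h Mo N →
      Nd α h Mo → PosR α h Mo N → ∀ v : ℕ, CopAt α h D Mo v →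
      (N : ℝ) ^ (1 - η / 2) ≤ (((Icc 1 N).filter (fun n : ℕ => n ≡ v [MOD (WW D)] ∧
        c₁ * N ≤ n ∧ (n : ℝ) ≤ (c₁ + c₂) / 2 * N ∧
        M + 1 ≤ (univ.filter (fun g : Fin T => ∃ i, cl i = g ∧
          (Fm α h Mo i n).toNat.Prime)).card)).card : ℝ) := by
    rw [Filter.eventually_all_finset]
    intro a ha
    obtain ⟨ha1, ha2⟩ := mem_filter.1 ha
    rw [Fintype.mem_piFinset] at ha1
    refine H D (by omega) a cl card_cl (fun i => ha2 _)
      (fun i => ?_) (η / 2) (by positivity)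
    have h3 := mem_Icc.1 (ha1 i)
    omega
  set P : ℕ := 2 ^ T * K ^ T with hP
  have h3 : ∀ᶠ N : ℕ in atTop, (P : ℝ) < (N : ℝ) ^ (η / 2) :=
    ((tendsto_rpow_atTop (by positivity)).comp tendsto_natCast_atTop_atTop).eventually_gt_atTop _
  obtain ⟨N₅, hN₅⟩ := exists_nat_ge (2 * (R : ℝ) / (c₂ - c₁))
  filter_upwards [h2, h3, eventually_ge_atTop (480 * (A * R) + 16 * R), eventually_ge_atTop 1,
    eventually_ge_atTop N₅] with N hN2 hN3 hN4 hN1 hN5 a b ha hA hb hpos hinj hfix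
  set α : Fin (T * K) → ℤ := fun i => a (cl i) (sx i) with hα
  set h₀ : Fin (T * K) → ℤ := fun i => b (cl i) (sx i) with hh₀
  obtain ⟨r, hrR, hrne, hradm⟩ := hR α h₀ (fun i => ha _ _) (fun p hp => by
    obtain ⟨n, hn⟩ := hfix p hp
    exact ⟨n, fun i => hn _ _⟩)
  set h : Fin (T * K) → ℤ := fun i => α i * r + h₀ i with hh
  have hN4z : 480 * ((A : ℤ) * R) + 16 * R ≤ N := by exact_mod_cast hN4
  have hN4r : 480 * ((A : ℝ) * R) + 16 * R ≤ N := by exact_mod_cast hN4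
  have hrz : (r : ℤ) ≤ R := by exact_mod_cast hrR
  have hr0 : (0 : ℤ) ≤ r := Nat.cast_nonneg _
  have har : ∀ i, |α i * r| ≤ (A : ℤ) * R := by
    intro i
    rw [abs_mul, abs_of_nonneg hr0]
    exact mul_le_mul (hA _ _) hrz hr0 (Nat.cast_nonneg _)
  have hHB : HB h 0 N := by
    intro i
    have e1 := hb (cl i) (sx i)
    have e2 := har i
    have e3 : |((0 : ℕ) : ℤ) + h i| ≤ |α i * r| + |b (cl i) (sx i)| := by
      rw [Nat.cast_zero, zero_add]
      exact abs_add_le _ _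
    have hAR : (0 : ℤ) ≤ (A : ℤ) * R := by positivity
    have hR0 : (0 : ℤ) ≤ R := Nat.cast_nonneg _
    have hN0 : (0 : ℤ) ≤ N := Nat.cast_nonneg _
    linarith
  -- the forms are not proportional
  have hcop : ∀ g i, IsCoprime (a g i) (b g i) := by
    intro g i
    rw [Int.isCoprime_iff_gcd_eq_one]
    by_contra hcon
    obtain ⟨p, hp, hpd⟩ := Nat.exists_prime_and_dvd hcon
    obtain ⟨n, hn⟩ := hfix p hp
    apply hn g i
    have e1 : (p : ℤ) ∣ a g i := (Int.natCast_dvd_natCast.2 hpd).trans (Int.gcd_dvd_left _ _)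
    have e2 : (p : ℤ) ∣ b g i := (Int.natCast_dvd_natCast.2 hpd).trans (Int.gcd_dvd_right _ _)
    exact dvd_add (Dvd.dvd.mul_right e1 _) e2
  have hnprop : ∀ i j : Fin (T * K), i ≠ j → α i * h₀ j ≠ α j * h₀ i := by
    intro i j hij heq
    have c1 : IsCoprime (α i) (h₀ i) := hcop _ _
    have c2 : IsCoprime (α j) (h₀ j) := hcop _ _
    have d1 : α i ∣ α j := by
      have e1 : α i ∣ α j * h₀ i := ⟨h₀ j, heq.symm⟩
      exact c1.dvd_of_dvd_mul_right e1
    have d2 : α j ∣ α i := by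
      have e1 : α j ∣ α i * h₀ j := ⟨h₀ i, heq⟩
      exact c2.dvd_of_dvd_mul_right e1
    have hαi : α i ≠ 0 := ha _ _
    have hdis : α j = α i ∨ α j = -α i := by
      have := Int.natAbs_eq_natAbs_iff.1 (Nat.dvd_antisymm (Int.natAbs_dvd_natAbs.2 d2)
        (Int.natAbs_dvd_natAbs.2 d1))
      exact this
    rcases hdis with e | e
    · rw [e] at heq
      have e2 : h₀ j = h₀ i := mul_left_cancel₀ hαi heq
      apply hij
      have e3 : (cl i, sx i) = (cl j, sx j) := by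
        apply hinj
        show (a (cl i) (sx i), b (cl i) (sx i)) = (a (cl j) (sx j), b (cl j) (sx j))
        exact Prod.ext e.symm e2.symm
      have e31 : cl i = cl j := congrArg Prod.fst e3
      have e32 : sx i = sx j := congrArg Prod.snd e3
      rw [← ix_cl i, ← ix_cl j, e31, e32]
    · rw [e] at heq
      have e2 : h₀ j = -h₀ i := by
        apply mul_left_cancel₀ hαi
        linarith
      have hNr : (1 : ℝ) ≤ N := by exact_mod_cast hN1
      have p1 := hpos (cl i) (sx i) ((N : ℝ) / 16) le_rfl (by linarith)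
      have p2 := hpos (cl j) (sx j) ((N : ℝ) / 16) le_rfl (by linarith)
      have e3 : ((a (cl j) (sx j) : ℤ) : ℝ) = -((a (cl i) (sx i) : ℤ) : ℝ) := by
        have : a (cl j) (sx j) = -a (cl i) (sx i) := e
        rw [this]; push_cast; ring
      have e4 : ((b (cl j) (sx j) : ℤ) : ℝ) = -((b (cl i) (sx i) : ℤ) : ℝ) := by
        have : b (cl j) (sx j) = -b (cl i) (sx i) := e2
        rw [this]; push_cast; ring
      rw [e3, e4] at p2
      linarith
  have hNd : Nd α h 0 := by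
    intro j l hjl
    rcases j with _ | j <;> rcases l with _ | l
    · exact absurd rfl hjl
    · simp only [uB, wB]
      intro h0
      apply hrne l
      have h5 : h l = 0 := by push_cast at h0; linarith
      exact h5
    · simp only [uB, wB]
      intro h0
      apply hrne j
      have h5 : h j = 0 := by push_cast at h0; linarith
      exact h5
    · have hne : j ≠ l := fun h => hjl (by rw [h])
      simp only [uB, wB]
      intro h0
      apply hnprop j l hne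
      push_cast at h0
      have h5 : α j * h l = α l * h j := by linarith
      rw [hh] at h5
      simp only at h5
      linear_combination h5
  have hPR : PosR α h 0 N := by
    intro i x hx1 hx2
    have h5 := hpos (cl i) (sx i) x hx1 hx2
    have e2 := (abs_le.1 (har i)).1
    have e3 : -((A : ℝ) * R) ≤ (α i : ℝ) * r := by exact_mod_cast e2
    have e4 : ((h i : ℤ) : ℝ) = (α i : ℝ) * r + b (cl i) (sx i) := by
      rw [hh]
      simp only
      push_cast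
      rfl
    push_cast
    rw [e4]
    have hR0 : (0 : ℝ) ≤ R := Nat.cast_nonneg _
    show _ ≤ (0 : ℝ) + (a (cl i) (sx i) : ℝ) * x + ((α i : ℝ) * r + b (cl i) (sx i))
    linarith
  obtain ⟨v, hv⟩ := hv 0 (T * K) α h (by
    intro p hp
    obtain ⟨n, hn1, hn2⟩ := hradm p hp
    refine ⟨n, hn1, fun i hi => hn2 i ?_⟩
    unfold Fm at hi
    have e1 : ((0 : ℕ) : ℤ) + α i * n + h i = α i * n + (α i * r + h₀ i) := by
      rw [hh]; push_cast; ring
    rwa [e1] at hi)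
  have hmem : α ∈ (Fintype.piFinset (fun _ : Fin (T * K) => Icc (-(A : ℤ)) A)).filter
      (fun a => ∀ i, a i ≠ 0) := by
    rw [mem_filter, Fintype.mem_piFinset]
    exact ⟨fun i => mem_Icc.2 (abs_le.1 (hA _ _)), fun i => ha _ _⟩
  have hmain := hN2 α hmem h 0 hHB hNd hPR v hv
  -- pigeonhole
  set Qs : Finset (Finset (Fin T) × (Fin T → Fin K)) := univ.filter (fun q => M + 1 ≤ q.1.card)
    with hQs
  set B : Finset (Fin T) × (Fin T → Fin K) → Finset ℕ := fun q => (Icc 1 N).filter (fun n : ℕ =>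
    (c₁ * N ≤ n ∧ (n : ℝ) ≤ (c₁ + c₂) / 2 * N) ∧ ∀ g ∈ q.1, (Fm α h 0 (ix g (q.2 g)) n).toNat.Prime) with hB
  have hsub : (Icc 1 N).filter (fun n : ℕ => n ≡ v [MOD (WW D)] ∧
        c₁ * N ≤ n ∧ (n : ℝ) ≤ (c₁ + c₂) / 2 * N ∧
        M + 1 ≤ (univ.filter (fun g : Fin T => ∃ i, cl i = g ∧
          (Fm α h 0 i n).toNat.Prime)).card) ⊆ Qs.biUnion B := by
    intro n hn
    rw [mem_filter] at hn
    obtain ⟨hn1, -, hn3, hn4, hn5⟩ := hn
    set S : Finset (Fin T) := univ.filter (fun g : Fin T => ∃ i, cl i = g ∧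
          (Fm α h 0 i n).toNat.Prime) with hS
    have hex : ∀ g : Fin T, ∃ s : Fin K, g ∈ S → (Fm α h 0 (ix g s) n).toNat.Prime := by
      intro g
      by_cases hg : g ∈ S
      · obtain ⟨i, hi1, hi2⟩ := (mem_filter.1 hg).2
        refine ⟨sx i, fun _ => ?_⟩
        rw [← hi1, ix_cl]
        exact hi2
      · exact ⟨0, fun h => absurd h hg⟩
    choose σ hσ using hex
    exact mem_biUnion.2 ⟨(S, σ), mem_filter.2 ⟨mem_univ _, hn5⟩,
      mem_filter.2 ⟨hn1, ⟨hn3, hn4⟩, fun g hg => hσ g hg⟩⟩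
  have hNpos : (0 : ℝ) < N := by exact_mod_cast hN1
  have hbig : ∃ q ∈ Qs, (N : ℝ) ^ (1 - η) ≤ ((B q).card : ℝ) := by
    by_contra hcon
    push Not at hcon
    have e1 := (Nat.cast_le (α := ℝ)).2 ((card_le_card hsub).trans card_biUnion_le)
    rw [Nat.cast_sum] at e1
    have e2 : ∑ q ∈ Qs, ((B q).card : ℝ) ≤ Qs.card • (N : ℝ) ^ (1 - η) :=
      Finset.sum_le_card_nsmul _ _ _ (fun q hq => (hcon q hq).le)
    have e3 : Qs.card ≤ P := by
      refine (card_le_univ _).trans ?_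
      rw [Fintype.card_prod, Fintype.card_finset, Fintype.card_fun, Fintype.card_fin,
        Fintype.card_fin]
    have e4 : (Qs.card : ℝ) ≤ P := by exact_mod_cast e3
    have e5 : (0 : ℝ) < (N : ℝ) ^ (1 - η) := Real.rpow_pos_of_pos hNpos _
    have e6 : (N : ℝ) ^ (1 - η / 2) = (N : ℝ) ^ (η / 2) * (N : ℝ) ^ (1 - η) := by
      rw [← Real.rpow_add hNpos]
      congr 1
      ring
    rw [nsmul_eq_mul] at e2
    have e7 := hmain.trans (e1.trans (e2.trans (mul_le_mul_of_nonneg_right e4 e5.le)))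
    rw [e6] at e7
    have e8 := le_of_mul_le_mul_right e7 e5
    linarith
  obtain ⟨⟨S, σ⟩, hq, hbig⟩ := hbig
  refine ⟨S, σ, (mem_filter.1 hq).2, hbig.trans ?_⟩
  rw [Nat.cast_le]
  refine card_le_card_of_injOn (fun n => n + r) ?_ (fun n _ n' _ h => Nat.add_right_cancel h)
  intro n hn
  rw [mem_coe, mem_filter] at hn
  rw [mem_coe, mem_filter, mem_Icc]
  obtain ⟨hn1, ⟨hn2a, hn2⟩, hn3⟩ := hn
  have hn0 := (mem_Icc.1 hn1).1
  have hrR' : (r : ℝ) ≤ (c₂ - c₁) / 2 * N := by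
    have h5 : (r : ℝ) ≤ R := by exact_mod_cast hrR
    have h6 : 2 * (R : ℝ) / (c₂ - c₁) ≤ N := hN₅.trans (by exact_mod_cast hN5)
    rw [div_le_iff₀ (by linarith)] at h6
    linarith
  have hr0' : (0 : ℝ) ≤ r := Nat.cast_nonneg _
  have hup : ((n + r : ℕ) : ℝ) ≤ c₂ * N := by
    push_cast
    have h5 : c₂ * (N : ℝ) = (c₁ + c₂) / 2 * N + (c₂ - c₁) / 2 * N := by ring
    linarith
  have hlo : c₁ * (N : ℝ) ≤ ((n + r : ℕ) : ℝ) := by
    push_cast
    linarith
  refine ⟨⟨by show 1 ≤ n + r; omega, ?_⟩, hlo, hup, fun g hg => ?_⟩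
  · have e3 : ((n + r : ℕ) : ℝ) ≤ N := by
      have h5 : c₂ * (N : ℝ) ≤ 1 / 4 * N := mul_le_mul_of_nonneg_right hc₂ hNpos.le
      linarith
    exact_mod_cast e3
  · have h5 : (((0 : ℕ) : ℤ) + α (ix g (σ g)) * (n : ℤ) + h (ix g (σ g))).toNat.Prime := hn3 g hg
    have e1 : sx (ix g (σ g)) = σ g := by
      unfold sx ix
      rw [Equiv.symm_apply_apply]
    have e2 : ((0 : ℕ) : ℤ) + α (ix g (σ g)) * (n : ℤ) + h (ix g (σ g)) =
        a g (σ g) * ((n + r : ℕ) : ℤ) + b g (σ g) := by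
      rw [hh]
      simp only [hα, hh₀, cl_ix, e1]
      push_cast
      ring
    rwa [e2] at h5

end Pool.Agent.TH899.UG.NW
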