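import Mathlib

/-! Quadruples with all differences in a set of more than two thirds, in two classes modulo 3. -/

set_option autoImplicit false

namespace Pool.Agent.TH899.UG.TD

open Finset

theorem incl (X Y Z : Finset ℕ) (hX : X ⊆ Z) (hY : Y ⊆ Z) :
    X.card + Y.card ≤ Z.card + (X ∩ Y).card := by
  have h1 := card_union_add_card_inter X Y
  have h2 := card_le_card (union_subset hX hY)
  omega

theorem top (X : Finset ℕ) (R : ℕ) (hR : 1 ≤ R) (hX : R ≤ X.card) :
    ∃ t, (X.filter (fun x => t ≤ x)).card = R := by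
  classical
  have hb : ∀ t, R ≤ (X.filter (fun x => t ≤ x)).card → t ≤ X.sup id := by
    intro t ht
    have h1 : (X.filter (fun x => t ≤ x)).Nonempty := by
      rw [← card_pos]; omega
    obtain ⟨x, hx⟩ := h1
    obtain ⟨hx1, hx2⟩ := mem_filter.1 hx
    exact hx2.trans (le_sup (f := id) hx1)
  have h0 : R ≤ (X.filter (fun x => 0 ≤ x)).card := by
    simpa using hX
  obtain ⟨t, h1, h2⟩ : ∃ t, R ≤ (X.filter (fun x => t ≤ x)).card ∧
      ¬ R ≤ (X.filter (fun x => t + 1 ≤ x)).card := by
    by_contra hcon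
    push Not at hcon
    have h3 : ∀ t, R ≤ (X.filter (fun x => t ≤ x)).card := by
      intro t
      induction t with
      | zero => exact h0
      | succ t ih => exact hcon t ih
    have h4 := hb (X.sup id + 1) (h3 _)
    omega
  have h3 : (X.filter (fun x => t ≤ x)) ⊆ insert t (X.filter (fun x => t + 1 ≤ x)) := by
    intro x hx
    obtain ⟨hx1, hx2⟩ := mem_filter.1 hx
    rcases hx2.eq_or_lt with h | h
    · rw [← h]; exact mem_insert_self _ _
    · exact mem_insert_of_mem (mem_filter.2 ⟨hx1, h⟩)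
  have h4 := (card_le_card h3).trans (card_insert_le _ _)
  exact ⟨t, by omega⟩

theorem bot (X : Finset ℕ) (R : ℕ) (hR : 1 ≤ R) (hX : R ≤ X.card) :
    ∃ t, (X.filter (fun x => x ≤ t)).card = R := by
  classical
  have h0 : R ≤ (X.filter (fun x => x ≤ X.sup id)).card := by
    have h1 : X.filter (fun x => x ≤ X.sup id) = X :=
      filter_true_of_mem (fun x hx => le_sup (f := id) hx)
    rw [h1]
    exact hX
  by_cases hz : R ≤ (X.filter (fun x => x ≤ 0)).card
  · refine ⟨0, ?_⟩
    have h1 : (X.filter (fun x => x ≤ 0)) ⊆ {0} := by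
      intro x hx
      have := (mem_filter.1 hx).2
      rw [mem_singleton]; omega
    have h2 := card_le_card h1
    rw [card_singleton] at h2
    omega
  obtain ⟨t, h1, h2⟩ : ∃ t, ¬ R ≤ (X.filter (fun x => x ≤ t)).card ∧
      R ≤ (X.filter (fun x => x ≤ t + 1)).card := by
    by_contra hcon
    push Not at hcon
    have h3 : ∀ t, ¬ R ≤ (X.filter (fun x => x ≤ t)).card := by
      intro t
      induction t with
      | zero => exact hz
      | succ t ih => exact not_le.2 (hcon t (not_le.1 ih))
    exact h3 _ h0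
  have h3 : (X.filter (fun x => x ≤ t + 1)) ⊆ insert (t + 1) (X.filter (fun x => x ≤ t)) := by
    intro x hx
    obtain ⟨hx1, hx2⟩ := mem_filter.1 hx
    rcases hx2.eq_or_lt with h | h
    · rw [h]; exact mem_insert_self _ _
    · exact mem_insert_of_mem (mem_filter.2 ⟨hx1, by omega⟩)
  have h4 := (card_le_card h3).trans (card_insert_le _ _)
  exact ⟨t + 1, by omega⟩

/-- differences from a fixed number -/
theorem st (Z Bz V : Finset ℕ) (u : ℕ) (hV : ∀ v ∈ V, u < v ∧ v - u ∈ Z) (hB : Bz ⊆ Z) :
    V.card + Bz.card ≤ Z.card + (V.filter (fun v => v - u ∈ Bz)).card := by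
  classical
  have hinj : Set.InjOn (fun v => v - u) (V : Set ℕ) := by
    intro a ha b hb hab
    have h1 := (hV a ha).1
    have h2 := (hV b hb).1
    simp only at hab
    omega
  have h1 : (V.image (fun v => v - u)).card = V.card := card_image_of_injOn hinj
  have h2 : V.image (fun v => v - u) ⊆ Z := by
    intro x hx
    obtain ⟨v, hv, rfl⟩ := mem_image.1 hx
    exact (hV v hv).2
  have h3 := incl _ _ _ h2 hB
  have h4 : (V.image (fun v => v - u)) ∩ Bz ⊆ (V.filter (fun v => v - u ∈ Bz)).image (fun v => v - u) := by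
    intro x hx
    obtain ⟨h5, h6⟩ := mem_inter.1 hx
    obtain ⟨v, hv, rfl⟩ := mem_image.1 h5
    exact mem_image.2 ⟨v, mem_filter.2 ⟨hv, h6⟩, rfl⟩
  have h5 := (card_le_card h4).trans card_image_le
  omega

theorem fib {α : Type} [DecidableEq α] (Q : Finset α) (f : α → ℕ) (S : Finset ℕ) (a : ℕ)
    (h : ∀ s ∈ S, a ≤ (Q.filter (fun z => f z = s)).card) : S.card * a ≤ Q.card := by
  classical
  have h1 : (S.biUnion (fun s => Q.filter (fun z => f z = s))).card =
      ∑ s ∈ S, (Q.filter (fun z => f z = s)).card := by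
    refine card_biUnion ?_
    intro x _ y _ hxy
    rw [Function.onFun, disjoint_left]
    intro z hz hz'
    exact hxy ((mem_filter.1 hz).2.symm.trans (mem_filter.1 hz').2)
  have h2 : (S.biUnion (fun s => Q.filter (fun z => f z = s))).card ≤ Q.card := by
    refine card_le_card ?_
    intro z hz
    obtain ⟨s, -, hz⟩ := mem_biUnion.1 hz
    exact (mem_filter.1 hz).1
  have h3 : S.card * a ≤ ∑ s ∈ S, (Q.filter (fun z => f z = s)).card := by
    have := S.card_nsmul_le_sum _ a h
    rwa [smul_eq_mul] at this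
  omega

/-- multiples in a class modulo 3 below `w` -/
theorem cl (w j : ℕ) : 3 * ((Ico 1 w).filter (fun k => k % 3 = j)).card ≤ w + 3 := by
  have h1 : ((Ico 1 w).filter (fun k => k % 3 = j)).card ≤ (range (w / 3 + 1)).card := by
    refine card_le_card_of_injOn (fun k => k / 3) ?_ ?_
    · intro k hk
      obtain ⟨h2, h3⟩ := mem_filter.1 (mem_coe.1 hk)
      have h4 := mem_Ico.1 h2
      refine mem_coe.2 (mem_range.2 ?_)
      show k / 3 < w / 3 + 1
      omega
    · intro k hk k' hk' h
      have h3 := (mem_filter.1 (mem_coe.1 hk)).2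
      have h4 := (mem_filter.1 (mem_coe.1 hk')).2
      simp only at h
      omega
  rw [card_range] at h1
  omega

theorem cu (B : Finset ℕ) (H w j : ℕ) (hw : w ≤ H) (hB : B ⊆ Icc 1 H) (hj : ∀ x ∈ B, x % 3 = j) :
    3 * B.card ≤ 3 * (B.filter (fun x => x < w)).card + (H - w) + 3 := by
  have h0 : (B.filter (fun x => x < w)).card + (B.filter (fun x => ¬ x < w)).card = B.card :=
    card_filter_add_card_filter_not _
  have h1 : (B.filter (fun x => ¬ x < w)).card ≤ (range ((H - w) / 3 + 1)).card := by
    refine card_le_card_of_injOn (fun k => (k - w) / 3) ?_ ?_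
    · intro k hk
      obtain ⟨h2, h3⟩ := mem_filter.1 (mem_coe.1 hk)
      have h4 := mem_Icc.1 (hB h2)
      refine mem_coe.2 (mem_range.2 ?_)
      show (k - w) / 3 < (H - w) / 3 + 1
      omega
    · intro k hk k' hk' h
      obtain ⟨h2, h3⟩ := mem_filter.1 (mem_coe.1 hk)
      obtain ⟨h2', h3'⟩ := mem_filter.1 (mem_coe.1 hk')
      have h4 := hj _ h2
      have h5 := hj _ h2'
      simp only at h
      omega
  rw [card_range] at h1
  omega

end Pool.Agent.TH899.UG.TD
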