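import Mathlib
import Pool.Agent.TH899.UG.TD1

/-! Quadruples with all differences in a set of more than two thirds, in two classes modulo 3. -/

set_option autoImplicit false

namespace Pool.Agent.TH899.UG.TD

open Finset

/-- triples `(w, u, v)` with `0 < u < v < w`, all differences in `B`, in the classes `0`, `c` -/
def QQ (H : ℕ) (B : Finset ℕ) (c : ℕ) : Finset (ℕ × ℕ × ℕ) :=
  ((Icc 1 H) ×ˢ ((Icc 1 H) ×ˢ (Icc 1 H))).filter (fun z =>
    z.2.1 < z.2.2 ∧ z.2.2 < z.1 ∧ z.1 ∈ B ∧ z.2.1 ∈ B ∧ z.2.2 ∈ B ∧ z.2.2 - z.2.1 ∈ B ∧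
    z.1 - z.2.1 ∈ B ∧ z.1 - z.2.2 ∈ B ∧ (z.2.1 % 3 = 0 ∨ z.2.1 % 3 = c) ∧
    (z.2.2 % 3 = 0 ∨ z.2.2 % 3 = c) ∧ z.1 % 3 = c)

theorem inj (H : ℕ) (B : Finset ℕ) (c w u : ℕ) (V : Finset ℕ) (h : ∀ v ∈ V, (w, u, v) ∈ QQ H B c) :
    V.card ≤ (((QQ H B c).filter (fun z => z.1 = w)).filter (fun z => z.2.1 = u)).card := by
  refine card_le_card_of_injOn (fun v => (w, u, v)) ?_ ?_
  · intro v hv
    exact mem_coe.2 (mem_filter.2 ⟨mem_filter.2 ⟨h v (mem_coe.1 hv), rfl⟩, rfl⟩)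
  · intro v _ v' _ hvv
    simp only [Prod.mk.injEq] at hvv
    exact hvv.2.2

/-- reflections -/
theorem st' (Z Bz V : Finset ℕ) (w : ℕ) (hV : ∀ v ∈ V, v < w ∧ w - v ∈ Z) (hB : Bz ⊆ Z) :
    V.card + Bz.card ≤ Z.card + (V.filter (fun v => w - v ∈ Bz)).card := by
  classical
  have hinj : Set.InjOn (fun v => w - v) (V : Set ℕ) := by
    intro a ha b hb hab
    have h1 := (hV a ha).1
    have h2 := (hV b hb).1
    simp only at hab
    omega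
  have h1 : (V.image (fun v => w - v)).card = V.card := card_image_of_injOn hinj
  have h2 : V.image (fun v => w - v) ⊆ Z := by
    intro x hx
    obtain ⟨v, hv, rfl⟩ := mem_image.1 hx
    exact (hV v hv).2
  have h3 := incl _ _ _ h2 hB
  have h4 : (V.image (fun v => w - v)) ∩ Bz ⊆ (V.filter (fun v => w - v ∈ Bz)).image (fun v => w - v) := by
    intro x hx
    obtain ⟨h5, h6⟩ := mem_inter.1 hx
    obtain ⟨v, hv, rfl⟩ := mem_image.1 h5
    exact mem_image.2 ⟨v, mem_filter.2 ⟨hv, h6⟩, rfl⟩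
  have h5 := (card_le_card h4).trans card_image_le
  omega

theorem md1 (c w v : ℕ) (hw : w % 3 = c) (hv : v % 3 = 0) (h : v < w) : (w - v) % 3 = c := by
  omega

theorem md2 (c w v : ℕ) (hw : w % 3 = c) (hv : v % 3 = c) (h : v < w) : (w - v) % 3 = 0 := by
  omega

theorem md3 (c d u v : ℕ) (hcd : (c = 1 ∧ d = 2) ∨ (c = 2 ∧ d = 1)) (hu : u % 3 = c) (hv : v % 3 = 0)
    (h : u < v) : (v - u) % 3 = d := by
  rcases hcd with ⟨rfl, rfl⟩ | ⟨rfl, rfl⟩ <;> omega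

theorem md4 (c d x : ℕ) (hcd : (c = 1 ∧ d = 2) ∨ (c = 2 ∧ d = 1)) :
    x % 3 = 0 ∨ x % 3 = c ∨ x % 3 = d := by
  rcases hcd with ⟨rfl, rfl⟩ | ⟨rfl, rfl⟩ <;> omega

theorem numU (B B0 Bc Bd s1 s2 : ℕ) (h2 : B ≤ s2) (h3 : s2 ≤ s1 + Bd) (h4 : s1 ≤ B0 + Bc) :
    B ≤ B0 + Bc + Bd := by omega

theorem numT (H R X B B0 Bc Bd z : ℕ) (hc : 2 * H + 9 * R + 3 * X + 20 ≤ 3 * B)
    (hsum : B ≤ B0 + Bc + Bd) (hge : Bd ≤ Bc) (h0 : B0 ≤ z) (hz : 3 * z ≤ H + 1 + 3) : R ≤ Bc := by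
  omega

theorem mem3 (w x y j : ℕ) (h : x < y) (hy : y ≤ w) (hj : (y - x) % 3 = j) (h1 : y - x < w) :
    y - x ∈ (Ico 1 w).filter (fun k => k % 3 = j) :=
  mem_filter.2 ⟨mem_Ico.2 ⟨by omega, h1⟩, hj⟩

theorem numR (H R X w B B0 Bc Bd a0 ac ad z zd Cc : ℕ)
    (hwH : w ≤ H) (hc : 2 * H + 9 * R + 3 * X + 20 ≤ 3 * B) (hsum : B ≤ B0 + Bc + Bd)
    (hwt : Bc ≤ ac + R) (e0 : 3 * B0 ≤ 3 * a0 + (H - w) + 3) (ed : 3 * Bd ≤ 3 * ad + (H - w) + 3)
    (hz : 3 * z ≤ w + 3) (hzd : 3 * zd ≤ w + 3) (had : ad ≤ zd) (eC : a0 + ac ≤ z + Cc) : R ≤ Cc := by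
  obtain ⟨t, rfl⟩ := Nat.exists_eq_add_of_le hwH
  rw [Nat.add_sub_cancel_left] at e0 ed
  omega

theorem numA (H R X w B B0 Bc Bd a0 ac ad z zd Cc Cn F : ℕ)
    (hwH : w ≤ H) (hc : 2 * H + 9 * R + 3 * X + 20 ≤ 3 * B) (hsum : B ≤ B0 + Bc + Bd)
    (hwt : Bc ≤ ac + R) (e0 : 3 * B0 ≤ 3 * a0 + (H - w) + 3) (ed : 3 * Bd ≤ 3 * ad + (H - w) + 3)
    (hz : 3 * z ≤ w + 3) (hzd : 3 * zd ≤ w + 3) (eC : a0 + ac ≤ z + Cc) (hCn : R + Cn = Cc)
    (hF : Cn + ad ≤ zd + F) : X ≤ F := by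
  obtain ⟨t, rfl⟩ := Nat.exists_eq_add_of_le hwH
  rw [Nat.add_sub_cancel_left] at e0 ed
  omega

theorem numB (H R X w B B0 Bc Bd a0 ac z zc Cc Cn F : ℕ)
    (hwH : w ≤ H) (hc : 2 * H + 9 * R + 3 * X + 20 ≤ 3 * B) (hsum : B ≤ B0 + Bc + Bd)
    (hge : Bd ≤ Bc)
    (hwt : Bc ≤ ac + R) (e0 : 3 * B0 ≤ 3 * a0 + (H - w) + 3)
    (hz : 3 * z ≤ w + 3) (hzc : 3 * zc ≤ w + 3) (eC : a0 + ac ≤ z + Cc) (hCn : R + Cn = Cc)
    (hF : Cn + ac ≤ zc + F) : X ≤ F := by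
  obtain ⟨t, rfl⟩ := Nat.exists_eq_add_of_le hwH
  rw [Nat.add_sub_cancel_left] at e0
  omega

theorem inner (H R X c d : ℕ) (hR : 1 ≤ R) (B : Finset ℕ) (hB : B ⊆ Icc 1 H)
    (hcd : (c = 1 ∧ d = 2) ∨ (c = 2 ∧ d = 1))
    (hge : (B.filter (fun x => x % 3 = d)).card ≤ (B.filter (fun x => x % 3 = c)).card)
    (hc : 2 * H + 9 * R + 3 * X + 20 ≤ 3 * B.card) (w : ℕ) (hw : w ∈ B) (hwc : w % 3 = c)
    (hwt : (B.filter (fun x => x % 3 = c)).card ≤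
      ((B.filter (fun x => x % 3 = c)).filter (fun x => x < w)).card + R) :
    R * X ≤ ((QQ H B c).filter (fun z => z.1 = w)).card := by
  classical
  have hwH := mem_Icc.1 (hB hw)
  obtain ⟨B0, hB0⟩ : ∃ S, S = B.filter (fun x => x % 3 = 0) := ⟨_, rfl⟩
  obtain ⟨Bc, hBc⟩ : ∃ S, S = B.filter (fun x => x % 3 = c) := ⟨_, rfl⟩
  obtain ⟨Bd, hBd⟩ : ∃ S, S = B.filter (fun x => x % 3 = d) := ⟨_, rfl⟩
  rw [← hBc] at hge hwt
  rw [← hBd] at hge
  have hsum : B.card ≤ B0.card + Bc.card + Bd.card := by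
    have h1 : B ⊆ B0 ∪ Bc ∪ Bd := by
      intro x hx
      have h2 : x % 3 = 0 ∨ x % 3 = c ∨ x % 3 = d := md4 c d x hcd
      rcases h2 with h | h | h
      · exact mem_union_left _ (mem_union_left _ (by rw [hB0]; exact mem_filter.2 ⟨hx, h⟩))
      · exact mem_union_left _ (mem_union_right _ (by rw [hBc]; exact mem_filter.2 ⟨hx, h⟩))
      · exact mem_union_right _ (by rw [hBd]; exact mem_filter.2 ⟨hx, h⟩)
    have h2 := card_le_card h1
    have h3 := card_union_le (B0 ∪ Bc) Bd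
    have h4 := card_union_le B0 Bc
    exact numU _ _ _ _ _ _ h2 h3 h4
  obtain ⟨a0, ha0⟩ : ∃ S, S = B0.filter (fun x => x < w) := ⟨_, rfl⟩
  obtain ⟨ac, hac⟩ : ∃ S, S = Bc.filter (fun x => x < w) := ⟨_, rfl⟩
  obtain ⟨ad, had⟩ : ∃ S, S = Bd.filter (fun x => x < w) := ⟨_, rfl⟩
  rw [← hac] at hwt
  have m0 : ∀ x, x ∈ a0 → x ∈ B ∧ x % 3 = 0 ∧ x < w ∧ 1 ≤ x ∧ x ≤ H := by
    intro x hx
    rw [ha0, hB0, mem_filter, mem_filter] at hx
    have := mem_Icc.1 (hB hx.1.1)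
    exact ⟨hx.1.1, hx.1.2, hx.2, this.1, this.2⟩
  have mc : ∀ x, x ∈ ac → x ∈ B ∧ x % 3 = c ∧ x < w ∧ 1 ≤ x ∧ x ≤ H := by
    intro x hx
    rw [hac, hBc, mem_filter, mem_filter] at hx
    have := mem_Icc.1 (hB hx.1.1)
    exact ⟨hx.1.1, hx.1.2, hx.2, this.1, this.2⟩
  have md : ∀ x, x ∈ ad → x ∈ B ∧ x % 3 = d ∧ x < w ∧ 1 ≤ x ∧ x ≤ H := by
    intro x hx
    rw [had, hBd, mem_filter, mem_filter] at hx
    have := mem_Icc.1 (hB hx.1.1)
    exact ⟨hx.1.1, hx.1.2, hx.2, this.1, this.2⟩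
  have e0 := cu B0 H w 0 hwH.2 (by rw [hB0]; exact (filter_subset _ _).trans hB)
    (by intro x hx; rw [hB0] at hx; exact (mem_filter.1 hx).2)
  have ed := cu Bd H w d hwH.2 (by rw [hBd]; exact (filter_subset _ _).trans hB)
    (by intro x hx; rw [hBd] at hx; exact (mem_filter.1 hx).2)
  rw [← ha0] at e0
  rw [← had] at ed
  obtain ⟨Z0, hZ0⟩ : ∃ S, S = (Ico 1 w).filter (fun k => k % 3 = 0) := ⟨_, rfl⟩
  obtain ⟨Zc, hZc⟩ : ∃ S, S = (Ico 1 w).filter (fun k => k % 3 = c) := ⟨_, rfl⟩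
  obtain ⟨Zd, hZd⟩ : ∃ S, S = (Ico 1 w).filter (fun k => k % 3 = d) := ⟨_, rfl⟩
  have z0 := cl w 0
  have zc := cl w c
  have zd := cl w d
  rw [← hZ0] at z0
  rw [← hZc] at zc
  rw [← hZd] at zd
  have s0 : a0 ⊆ Z0 := by
    intro x hx
    obtain ⟨-, h2, h3, h4, -⟩ := m0 x hx
    rw [hZ0]; exact mem_filter.2 ⟨mem_Ico.2 ⟨h4, h3⟩, h2⟩
  have sc : ac ⊆ Zc := by
    intro x hx
    obtain ⟨-, h2, h3, h4, -⟩ := mc x hx
    rw [hZc]; exact mem_filter.2 ⟨mem_Ico.2 ⟨h4, h3⟩, h2⟩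
  have sd : ad ⊆ Zd := by
    intro x hx
    obtain ⟨-, h2, h3, h4, -⟩ := md x hx
    rw [hZd]; exact mem_filter.2 ⟨mem_Ico.2 ⟨h4, h3⟩, h2⟩
  have s0' := card_le_card s0
  have sd' := card_le_card sd
  obtain ⟨C, hC⟩ : ∃ S, S = a0.filter (fun v => w - v ∈ ac) := ⟨_, rfl⟩
  obtain ⟨D, hD⟩ : ∃ S, S = ac.filter (fun v => w - v ∈ a0) := ⟨_, rfl⟩
  have eC := st' Zc ac a0 w (fun v hv => by
    obtain ⟨-, h2, h3, h4, -⟩ := m0 v hv
    refine ⟨h3, ?_⟩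
    rw [hZc]
    exact mem3 w v w c h3 le_rfl (md1 c w v hwc h2 h3) (Nat.sub_lt (h4.trans h3.le) h4)) sc
  have eD := st' Z0 a0 ac w (fun v hv => by
    obtain ⟨-, h2, h3, h4, -⟩ := mc v hv
    refine ⟨h3, ?_⟩
    rw [hZ0]
    exact mem3 w v w 0 h3 le_rfl (md2 c w v hwc h2 h3) (Nat.sub_lt (h4.trans h3.le) h4)) s0
  rw [← hC] at eC
  rw [← hD] at eD
  rw [add_comm] at eD
  obtain ⟨μ, hμ⟩ := bot C R hR (numR H R X w _ _ _ _ _ _ _ _ _ _ hwH.2 hc hsum hwt e0 ed zc zd sd' eC)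
  obtain ⟨m, hm⟩ := bot D R hR (numR H R X w _ _ _ _ _ _ _ _ _ _ hwH.2 hc hsum hwt e0 ed z0 zd sd' eD)
  have cC : (C.filter (fun x => x ≤ μ)).card + (C.filter (fun x => ¬ x ≤ μ)).card = C.card :=
    card_filter_add_card_filter_not _
  have cD : (D.filter (fun x => x ≤ m)).card + (D.filter (fun x => ¬ x ≤ m)).card = D.card :=
    card_filter_add_card_filter_not _
  have mC : ∀ x ∈ C, x ∈ a0 ∧ w - x ∈ ac := fun x hx => by rw [hC] at hx; exact mem_filter.1 hx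
  have mD : ∀ x ∈ D, x ∈ ac ∧ w - x ∈ a0 := fun x hx => by rw [hD] at hx; exact mem_filter.1 hx
  by_cases hcase : m ≤ μ
  · -- `u` from `D`, `v` from `C`
    have key := fib ((QQ H B c).filter (fun z => z.1 = w)) (fun z => z.2.1)
      (D.filter (fun x => x ≤ m)) X (fun u hu => by
        obtain ⟨hu1, hu2⟩ := mem_filter.1 hu
        obtain ⟨hu3, hu4⟩ := mD u hu1
        obtain ⟨u1, u2, u3, u4, u5⟩ := mc u hu3
        obtain ⟨u1', -, -, -, -⟩ := m0 _ hu4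
        have h1 := st Zd ad (C.filter (fun x => ¬ x ≤ μ)) u (fun v hv => by
          obtain ⟨hv1, hv2⟩ := mem_filter.1 hv
          obtain ⟨v1, v2, v3, v4, v5⟩ := m0 v (mC v hv1).1
          have huv : u < v := lt_of_le_of_lt (hu2.trans hcase) (not_le.1 hv2)
          refine ⟨huv, ?_⟩
          rw [hZd]
          exact mem3 w u v d huv v3.le (md3 c d u v hcd u2 v2 huv) ((Nat.sub_le _ _).trans_lt v3)) sd
        have h2 := inj H B c w u
          ((C.filter (fun x => ¬ x ≤ μ)).filter (fun v => v - u ∈ ad)) (fun v hv => by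
            obtain ⟨hv0, hv3⟩ := mem_filter.1 hv
            obtain ⟨hv1, hv2⟩ := mem_filter.1 hv0
            obtain ⟨v1, v2, v3, v4, v5⟩ := m0 v (mC v hv1).1
            obtain ⟨v1', -, -, -, -⟩ := mc _ (mC v hv1).2
            obtain ⟨v1'', -, -, -, -⟩ := md _ hv3
            exact mem_filter.2 ⟨mem_product.2 ⟨mem_Icc.2 hwH, mem_product.2
              ⟨mem_Icc.2 ⟨u4, u5⟩, mem_Icc.2 ⟨v4, v5⟩⟩⟩,
              lt_of_le_of_lt (hu2.trans hcase) (not_le.1 hv2), v3, hw, u1, v1, v1'', u1', v1',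
              Or.inr u2, Or.inl v2, hwc⟩)
        refine le_trans ?_ h2
        rw [hμ] at cC
        exact numA H R X w _ _ _ _ _ _ _ _ _ _ _ _ hwH.2 hc hsum hwt e0 ed zc zd eC cC h1)
    rwa [hm] at key
  · have key := fib ((QQ H B c).filter (fun z => z.1 = w)) (fun z => z.2.1)
      (C.filter (fun x => x ≤ μ)) X (fun u hu => by
        obtain ⟨hu1, hu2⟩ := mem_filter.1 hu
        obtain ⟨hu3, hu4⟩ := mC u hu1
        obtain ⟨u1, u2, u3, u4, u5⟩ := m0 u hu3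
        obtain ⟨u1', -, -, -, -⟩ := mc _ hu4
        have h1 := st Zc ac (D.filter (fun x => ¬ x ≤ m)) u (fun v hv => by
          obtain ⟨hv1, hv2⟩ := mem_filter.1 hv
          obtain ⟨v1, v2, v3, v4, v5⟩ := mc v (mD v hv1).1
          have huv : u < v := lt_of_le_of_lt (hu2.trans (not_le.1 hcase).le) (not_le.1 hv2)
          refine ⟨huv, ?_⟩
          rw [hZc]
          exact mem3 w u v c huv v3.le (md1 c v u v2 u2 huv) ((Nat.sub_le _ _).trans_lt v3)) sc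
        have h2 := inj H B c w u
          ((D.filter (fun x => ¬ x ≤ m)).filter (fun v => v - u ∈ ac)) (fun v hv => by
            obtain ⟨hv0, hv3⟩ := mem_filter.1 hv
            obtain ⟨hv1, hv2⟩ := mem_filter.1 hv0
            obtain ⟨v1, v2, v3, v4, v5⟩ := mc v (mD v hv1).1
            obtain ⟨v1', -, -, -, -⟩ := m0 _ (mD v hv1).2
            obtain ⟨v1'', -, -, -, -⟩ := mc _ hv3
            exact mem_filter.2 ⟨mem_product.2 ⟨mem_Icc.2 hwH, mem_product.2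
              ⟨mem_Icc.2 ⟨u4, u5⟩, mem_Icc.2 ⟨v4, v5⟩⟩⟩,
              lt_of_le_of_lt (hu2.trans (not_le.1 hcase).le) (not_le.1 hv2), v3, hw, u1, v1, v1'',
              u1', v1', Or.inl u2, Or.inr v2, hwc⟩)
        refine le_trans ?_ h2
        rw [hm] at cD
        exact numB H R X w _ _ _ _ _ _ _ _ _ _ _ hwH.2 hc hsum hge hwt e0 z0 zc eD cD h1)
    rwa [hμ] at key

/-- **Many quadruples.** -/
theorem quad (H R X : ℕ) (hR : 1 ≤ R) (B : Finset ℕ) (hB : B ⊆ Icc 1 H)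
    (hc : 2 * H + 9 * R + 3 * X + 20 ≤ 3 * B.card) :
    ∃ c, (c = 1 ∨ c = 2) ∧ R * (R * X) ≤ (QQ H B c).card := by
  classical
  obtain ⟨c, d, hcd, hge⟩ : ∃ c d, ((c = 1 ∧ d = 2) ∨ (c = 2 ∧ d = 1)) ∧
      (B.filter (fun x => x % 3 = d)).card ≤ (B.filter (fun x => x % 3 = c)).card := by
    rcases le_total (B.filter (fun x => x % 3 = 1)).card (B.filter (fun x => x % 3 = 2)).card
      with h | h
    · exact ⟨2, 1, Or.inr ⟨rfl, rfl⟩, h⟩
    · exact ⟨1, 2, Or.inl ⟨rfl, rfl⟩, h⟩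
  refine ⟨c, hcd.elim (fun h => Or.inl h.1) (fun h => Or.inr h.1), ?_⟩
  have hsum : B.card ≤ (B.filter (fun x => x % 3 = 0)).card + (B.filter (fun x => x % 3 = c)).card
      + (B.filter (fun x => x % 3 = d)).card := by
    have h1 : B ⊆ B.filter (fun x => x % 3 = 0) ∪ B.filter (fun x => x % 3 = c) ∪
        B.filter (fun x => x % 3 = d) := by
      intro x hx
      have h2 : x % 3 = 0 ∨ x % 3 = c ∨ x % 3 = d := md4 c d x hcd
      rcases h2 with h | h | h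
      · exact mem_union_left _ (mem_union_left _ (mem_filter.2 ⟨hx, h⟩))
      · exact mem_union_left _ (mem_union_right _ (mem_filter.2 ⟨hx, h⟩))
      · exact mem_union_right _ (mem_filter.2 ⟨hx, h⟩)
    have h2 := card_le_card h1
    have h3 := card_union_le (B.filter (fun x => x % 3 = 0) ∪ B.filter (fun x => x % 3 = c))
      (B.filter (fun x => x % 3 = d))
    have h4 := card_union_le (B.filter (fun x => x % 3 = 0)) (B.filter (fun x => x % 3 = c))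
    exact numU _ _ _ _ _ _ h2 h3 h4
  have h0 : (B.filter (fun x => x % 3 = 0)).card ≤ ((Ico 1 (H + 1)).filter (fun k => k % 3 = 0)).card := by
    refine card_le_card ?_
    intro x hx
    obtain ⟨h1, h2⟩ := mem_filter.1 hx
    have h3 := mem_Icc.1 (hB h1)
    exact mem_filter.2 ⟨mem_Ico.2 ⟨h3.1, by omega⟩, h2⟩
  have h0' := cl (H + 1) 0
  obtain ⟨t, ht⟩ := top (B.filter (fun x => x % 3 = c)) R hR
    (numT H R X _ _ _ _ _ hc hsum hge h0 h0')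
  have key := fib (QQ H B c) (fun z => z.1)
    ((B.filter (fun x => x % 3 = c)).filter (fun x => t ≤ x)) (R * X) (fun w hw => by
      obtain ⟨hw1, hw2⟩ := mem_filter.1 hw
      obtain ⟨hw3, hw4⟩ := mem_filter.1 hw1
      refine inner H R X c d hR B hB hcd hge hc w hw3 hw4 ?_
      rw [← ht]
      have h1 : (B.filter (fun x => x % 3 = c)) ⊆
          ((B.filter (fun x => x % 3 = c)).filter (fun x => x < w)) ∪
          ((B.filter (fun x => x % 3 = c)).filter (fun x => t ≤ x)) := by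
        intro x hx
        by_cases h : x < w
        · exact mem_union_left _ (mem_filter.2 ⟨hx, h⟩)
        · exact mem_union_right _ (mem_filter.2 ⟨hx, hw2.trans (not_lt.1 h)⟩)
      exact (card_le_card h1).trans (card_union_le _ _))
  rwa [ht] at key

end Pool.Agent.TH899.UG.TD
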