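import Mathlib
import Pool.Agent.TH899.UG.TD2
import Pool.Agent.TH899.UG.ExW
import Pool.Agent.TH899.UG.BoxP

/-! A third of the even numbers are differences of primes, at every scale. -/

set_option autoImplicit false

namespace Pool.Agent.TH899.UG.TD

open Finset Filter Topology

/-- a residue which avoids a small set -/
theorem exres (p : ℕ) (S : Finset ℤ) (hS : S.card < p) : ∃ n : ℤ, ∀ s ∈ S, ¬ (p : ℤ) ∣ n + s := by
  classical
  have hp : (0 : ℤ) < p := by
    have : 0 < p := by omega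
    exact_mod_cast this
  have h1 : (S.image (fun s => (-s) % (p : ℤ))).card < (Ico (0 : ℤ) p).card := by
    refine card_image_le.trans_lt ?_
    rw [Int.card_Ico]
    simpa using hS
  obtain ⟨n, hn1, hn2⟩ := exists_mem_notMem_of_card_lt_card h1
  have hn3 := mem_Ico.1 hn1
  refine ⟨n, fun s hs hd => hn2 ?_⟩
  refine mem_image.2 ⟨s, hs, ?_⟩
  have h2 : (-s) % (p : ℤ) = n % (p : ℤ) := by
    have h3 : (p : ℤ) ∣ n - (-s) := by
      have : n - (-s) = n + s := by ring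
      rw [this]; exact hd
    exact Int.modEq_iff_dvd.2 h3
  rw [h2, Int.emod_eq_of_lt hn3.1 hn3.2]

/-- pigeonhole -/
theorem pig (W K : ℕ) (hW : 0 < W) (f : Fin (W * K) → ℕ) :
    ∃ e : Fin K → Fin (W * K), Function.Injective e ∧ ∃ r, ∀ i, f (e i) % W = r := by
  classical
  obtain ⟨y, -, hy⟩ := exists_le_card_fiber_of_mul_le_card_of_maps_to
    (s := (univ : Finset (Fin (W * K)))) (t := range W) (f := fun i => f i % W) (n := K)
    (fun i _ => mem_range.2 (Nat.mod_lt _ hW)) ⟨0, mem_range.2 hW⟩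
    (by rw [card_range, card_univ, Fintype.card_fin])
  refine ⟨fun i => orderEmbOfCardLe _ hy i, (orderEmbOfCardLe _ hy).injective, y, fun i => ?_⟩
  exact (mem_filter.1 (orderEmbOfCardLe_mem _ hy i)).2

theorem adm (K c : ℕ) (hc : c = 1 ∨ c = 2) (A : Fin 4 → Fin K → ℕ) (r : Fin 4 → ℕ)
    (hr : ∀ g i, A g i % (4 * K).factorial = r g) (h3 : ∀ g i, A g i % 3 = 0 ∨ A g i % 3 = c)
    (p : ℕ) (hp : p.Prime) : ∃ n : ℤ, ∀ g i, ¬ ((p : ℤ) ∣ n + 2 * (A g i : ℕ)) := by
  classical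
  by_cases hp2 : p = 2
  · subst hp2
    refine ⟨1, fun g i h => ?_⟩
    omega
  by_cases hp3 : p = 3
  · subst hp3
    rcases hc with rfl | rfl
    · refine ⟨2, fun g i h => ?_⟩
      have := h3 g i
      omega
    · refine ⟨1, fun g i h => ?_⟩
      have := h3 g i
      omega
  have hp5 : 5 ≤ p := by
    have h2 := hp.two_le
    rcases Nat.lt_or_ge p 5 with h | h
    · interval_cases p
      · exact absurd rfl hp2
      · exact absurd rfl hp3
      · exact absurd hp (by decide)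
    · exact h
  by_cases hpK : p ≤ 4 * K
  · obtain ⟨n, hn⟩ := exres p ((univ : Finset (Fin 4)).image (fun g => (2 * r g : ℤ))) (by
      refine card_image_le.trans_lt ?_
      rw [card_univ, Fintype.card_fin]; omega)
    refine ⟨n, fun g i h => hn (2 * r g) (mem_image.2 ⟨g, mem_univ _, rfl⟩) ?_⟩
    have h1 : (p : ℤ) ∣ (A g i : ℤ) - r g := by
      have h2 : (p : ℤ) ∣ ((4 * K).factorial : ℕ) := by
        exact_mod_cast (hp.dvd_factorial).2 hpK
      refine h2.trans ?_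
      have h4 : ((r g : ℕ) : ℤ) = (A g i : ℤ) % ((4 * K).factorial : ℕ) := by
        rw [← hr g i]; push_cast; rfl
      rw [h4]
      exact Int.dvd_self_sub_emod
    have h2 : n + 2 * (r g : ℤ) = (n + 2 * (A g i : ℕ)) - 2 * ((A g i : ℤ) - r g) := by ring
    rw [h2]
    exact dvd_sub h (h1.mul_left 2)
  · obtain ⟨n, hn⟩ := exres p ((univ : Finset (Fin 4 × Fin K)).image
      (fun z => (2 * (A z.1 z.2 : ℕ) : ℤ))) (by
      refine card_image_le.trans_lt ?_
      rw [card_univ, Fintype.card_prod, Fintype.card_fin, Fintype.card_fin]; omega)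
    exact ⟨n, fun g i h => hn _ (mem_image.2 ⟨(g, i), mem_univ _, rfl⟩) h⟩

open Classical in
theorem core (s : ℝ) (hs : 0 < s) (hs1 : s ≤ 1) : ∃ K : ℕ, 1 ≤ K ∧ ∀ η : ℝ, 0 < η →
    ∀ᶠ x : ℕ in atTop, ∀ A : Fin 4 → Fin K → ℕ,
      (Function.Injective (fun z : Fin 4 × Fin K => A z.1 z.2)) → (∀ g i, 2 * A g i ≤ x) →
      (∀ p : ℕ, p.Prime → ∃ n : ℤ, ∀ g i, ¬ ((p : ℤ) ∣ n + 2 * (A g i : ℕ))) →
      ∃ g g' i j, g ≠ g' ∧ (x : ℝ) ^ (1 - η) ≤ (((Icc 1 (8 * x)).filter (fun n : ℕ =>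
        (x : ℝ) ≤ n ∧ (n : ℝ) ≤ (1 + s) * x ∧ (n + 2 * A g i).Prime ∧
        (n + 2 * A g' j).Prime)).card : ℝ) := by
  obtain ⟨c, hc, hc1, H⟩ := NW.exactW
  obtain ⟨K, hK, H⟩ := H (1 / 8) ((1 + s) / 8) le_rfl (by linarith) (by linarith) 4 1 (by norm_num)
    (by push_cast; linarith)
  refine ⟨K, hK, fun η hη => ?_⟩
  have htend : Tendsto (fun x : ℕ => 8 * x) atTop atTop :=
    tendsto_atTop.2 fun b => by
      filter_upwards [eventually_ge_atTop b] with x hx
      omega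
  filter_upwards [htend.eventually (H 1 (min η 1) (by positivity)), eventually_ge_atTop 1]
    with x hN hx A hinj hA hloc
  obtain ⟨S, σ, hS, hcnt⟩ := hN (fun _ _ => 1) (fun g i => 2 * (A g i : ℕ))
    (fun _ _ => one_ne_zero) (fun _ _ => by simp)
    (fun g i => by
      have h1 := hA g i
      have h2 : |(2 * (A g i : ℕ) : ℤ)| = 2 * (A g i : ℕ) := abs_of_nonneg (by positivity)
      show 5 * |(2 * (A g i : ℕ) : ℤ)| ≤ 6 * ((8 * x : ℕ) : ℤ)
      rw [h2]
      push_cast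
      omega)
    (fun g i y h1 h2 => by
      have h3 : (0 : ℝ) ≤ (A g i : ℝ) := Nat.cast_nonneg _
      have h4 : (0 : ℝ) ≤ (x : ℝ) := Nat.cast_nonneg _
      push_cast at h1 h2 ⊢
      linarith)
    (by
      rintro z z' h
      apply hinj
      have h2 : (2 * (A z.1 z.2 : ℕ) : ℤ) = 2 * (A z'.1 z'.2 : ℕ) := congrArg Prod.snd h
      show A z.1 z.2 = A z'.1 z'.2
      omega)
    (fun p hp => by
      obtain ⟨n, hn⟩ := hloc p hp
      refine ⟨n, fun g i h => hn g i ?_⟩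
      rwa [one_mul] at h)
  obtain ⟨g, hg, g', hg', hne⟩ := one_lt_card.1 (by omega : 1 < S.card)
  refine ⟨g, g', σ g, σ g', hne, ?_⟩
  have hxN : (x : ℝ) ^ (1 - η) ≤ ((8 * x : ℕ) : ℝ) ^ (1 - min η 1) := by
    have h4 : (1 : ℝ) ≤ x := by exact_mod_cast hx
    have h5 : (x : ℝ) ^ (1 - η) ≤ (x : ℝ) ^ (1 - min η 1) :=
      Real.rpow_le_rpow_of_exponent_le h4 (by linarith [min_le_left η 1])
    have h6 : (x : ℝ) ^ (1 - min η 1) ≤ ((8 * x : ℕ) : ℝ) ^ (1 - min η 1) :=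
      Real.rpow_le_rpow (by linarith) (by push_cast; linarith)
        (by linarith [min_le_right η 1])
    exact h5.trans h6
  refine hxN.trans (hcnt.trans ?_)
  rw [Nat.cast_le]
  apply card_le_card
  intro n hn
  obtain ⟨h4, h5, h6, h7⟩ := mem_filter.1 hn
  have key : ∀ k ∈ S, (n + 2 * A k (σ k)).Prime := by
    intro k hk
    have h8 := h7 k hk
    have h9 : ((1 : ℤ) * (n : ℤ) + 2 * (A k (σ k) : ℕ)).toNat = n + 2 * A k (σ k) := by
      have : (1 : ℤ) * (n : ℤ) + 2 * (A k (σ k) : ℕ) = ((n + 2 * A k (σ k) : ℕ) : ℤ) := by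
        push_cast; ring
      rw [this, Int.toNat_natCast]
    rw [h9] at h8
    exact h8
  push_cast at h5 h6
  exact mem_filter.2 ⟨h4, by linarith, by linarith, key g hg, key g' hg'⟩

end Pool.Agent.TH899.UG.TD
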