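import Mathlib
import Pool.Agent.TH899.UG.TD3

/-! A third of the even numbers are differences of primes, at every scale. -/

set_option autoImplicit false

namespace Pool.Agent.TH899.UG.TD

open Finset Filter Topology

/-- quadruples with all differences in `B`, in two classes modulo 3 -/
def PP (B : Finset ℕ) (c : ℕ) (f : Fin 4 → ℕ) : Prop :=
  (∀ g g', g < g' → f g < f g' ∧ f g' - f g ∈ B) ∧ ∀ g, f g % 3 = 0 ∨ f g % 3 = c

theorem pp (B : Finset ℕ) (c y u v w : ℕ) (h1 : 0 < u) (h2 : u < v) (h3 : v < w) (hw : w ∈ B)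
    (hu : u ∈ B) (hv : v ∈ B) (hvu : v - u ∈ B) (hwu : w - u ∈ B) (hwv : w - v ∈ B)
    (mu : u % 3 = 0 ∨ u % 3 = c) (mv : v % 3 = 0 ∨ v % 3 = c) (mw : w % 3 = c) :
    PP B c ![3 * y, 3 * y + u, 3 * y + v, 3 * y + w] := by
  have h4 : ∀ g : Fin 4, g = 0 ∨ g = 1 ∨ g = 2 ∨ g = 3 := by decide
  have f0 : (![3 * y, 3 * y + u, 3 * y + v, 3 * y + w] : Fin 4 → ℕ) 0 = 3 * y := rfl
  have f1 : (![3 * y, 3 * y + u, 3 * y + v, 3 * y + w] : Fin 4 → ℕ) 1 = 3 * y + u := rfl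
  have f2 : (![3 * y, 3 * y + u, 3 * y + v, 3 * y + w] : Fin 4 → ℕ) 2 = 3 * y + v := rfl
  have f3 : (![3 * y, 3 * y + u, 3 * y + v, 3 * y + w] : Fin 4 → ℕ) 3 = 3 * y + w := rfl
  constructor
  · intro g g' h
    rcases h4 g with rfl | rfl | rfl | rfl <;> rcases h4 g' with rfl | rfl | rfl | rfl <;>
      first
        | exact absurd h (by decide)
        | skip
    · rw [f0, f1]
      refine ⟨by omega, ?_⟩
      rw [Nat.add_sub_cancel_left]; exact hu
    · rw [f0, f2]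
      refine ⟨by omega, ?_⟩
      rw [Nat.add_sub_cancel_left]; exact hv
    · rw [f0, f3]
      refine ⟨by omega, ?_⟩
      rw [Nat.add_sub_cancel_left]; exact hw
    · rw [f1, f2]
      refine ⟨by omega, ?_⟩
      rw [Nat.add_sub_add_left]; exact hvu
    · rw [f1, f3]
      refine ⟨by omega, ?_⟩
      rw [Nat.add_sub_add_left]; exact hwu
    · rw [f2, f3]
      refine ⟨by omega, ?_⟩
      rw [Nat.add_sub_add_left]; exact hwv
  · intro g
    rcases h4 g with rfl | rfl | rfl | rfl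
    · rw [f0]; omega
    · rw [f1]; omega
    · rw [f2]; omega
    · rw [f3]; omega

open Classical in
theorem emb (H c : ℕ) (B : Finset ℕ) : H * (QQ H B c).card ≤
    ((Fintype.piFinset (fun _ : Fin 4 => range (5 * H))).filter (fun f => PP B c f)).card := by
  have h0 : ((range H) ×ˢ (QQ H B c)).card = H * (QQ H B c).card := by
    rw [card_product, card_range]
  rw [← h0]
  refine card_le_card_of_injOn (fun z : ℕ × ℕ × ℕ × ℕ =>
    (![3 * z.1, 3 * z.1 + z.2.2.1, 3 * z.1 + z.2.2.2, 3 * z.1 + z.2.1] : Fin 4 → ℕ)) ?_ ?_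
  · rintro ⟨y, w, u, v⟩ hz
    obtain ⟨hy, hq⟩ := mem_product.1 (mem_coe.1 hz)
    obtain ⟨hq1, q1, q2, q3, q4, q5, q6, q7, q8, q9, q10, q11⟩ := mem_filter.1 hq
    obtain ⟨hw', hq2⟩ := mem_product.1 hq1
    obtain ⟨hu', hv'⟩ := mem_product.1 hq2
    have hy' := mem_range.1 hy
    simp only at hy' hw' hu' hv' q1 q2 q3 q4 q5 q6 q7 q8 q9 q10 q11
    have hw'' := mem_Icc.1 hw'
    have hu'' := mem_Icc.1 hu'
    have hv'' := mem_Icc.1 hv'
    have hpp := pp B c y u v w (by omega) q1 q2 q3 q4 q5 q6 q7 q8 q9 q10 q11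
    refine mem_coe.2 (mem_filter.2 ⟨Fintype.mem_piFinset.2 ?_, hpp⟩)
    have h4 : ∀ g : Fin 4, g = 0 ∨ g = 1 ∨ g = 2 ∨ g = 3 := by decide
    intro g
    rw [mem_range]
    rcases h4 g with rfl | rfl | rfl | rfl
    · show 3 * y < 5 * H
      omega
    · show 3 * y + u < 5 * H
      omega
    · show 3 * y + v < 5 * H
      omega
    · show 3 * y + w < 5 * H
      omega
  · rintro ⟨y, w, u, v⟩ _ ⟨y', w', u', v'⟩ _ h
    have e0 : 3 * y = 3 * y' := congrFun h 0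
    have e1 : 3 * y + u = 3 * y' + u' := congrFun h 1
    have e2 : 3 * y + v = 3 * y' + v' := congrFun h 2
    have e3 : 3 * y + w = 3 * y' + w' := congrFun h 3
    have a0 : y = y' := by omega
    have a1 : u = u' := by omega
    have a2 : v = v' := by omega
    have a3 : w = w' := by omega
    rw [a0, a1, a2, a3]

/-- the number of primes `p` with `p + 2 k` prime, both in `[x, (1 + s) x]` -/
noncomputable def prs (s : ℝ) (x k : ℕ) : ℕ :=
  {p : ℕ | p.Prime ∧ (p + 2 * k).Prime ∧ (x : ℝ) ≤ p ∧ ((p + 2 * k : ℕ) : ℝ) ≤ (1 + s) * x}.ncard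

theorem prs_ge (s : ℝ) (x k a : ℕ) (F : Finset ℕ) (hF : ∀ n ∈ F, (n + a).Prime ∧
    (n + a + 2 * k).Prime ∧ (x : ℝ) ≤ n ∧ ((n + a + 2 * k : ℕ) : ℝ) ≤ (1 + s) * x) :
    F.card ≤ prs s x k := by
  classical
  have hfin : {p : ℕ | p.Prime ∧ (p + 2 * k).Prime ∧ (x : ℝ) ≤ p ∧
      ((p + 2 * k : ℕ) : ℝ) ≤ (1 + s) * x}.Finite := by
    refine (Set.finite_le_nat ⌊(1 + s) * x⌋₊).subset ?_
    intro p hp
    have h1 := hp.2.2.2
    have h2 : (p : ℝ) ≤ (1 + s) * x := by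
      refine le_trans ?_ h1
      exact_mod_cast Nat.le_add_right p (2 * k)
    exact Nat.le_floor h2
  have h1 : (F.image (fun n => n + a)).card = F.card :=
    card_image_of_injective _ (fun n m h => by simpa using h)
  rw [← h1, ← Set.ncard_coe_finset]
  refine Set.ncard_le_ncard ?_ hfin
  intro p hp
  obtain ⟨n, hn, rfl⟩ := mem_image.1 (mem_coe.1 hp)
  obtain ⟨h2, h3, h4, h5⟩ := hF n hn
  refine ⟨h2, h3, h4.trans ?_, h5⟩
  exact_mod_cast Nat.le_add_right n a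

open Classical in
/-- **Main theorem.** -/
theorem third (ε s : ℝ) (hε : 0 < ε) (hs : 0 < s) : ∃ C : ℕ, ∀ η : ℝ, 0 < η →
    ∀ᶠ x : ℕ in atTop, ∀ H : ℕ, C ≤ H → C * H ≤ x →
    (1 / 3 - ε) * (H : ℝ) ≤
      (((Icc 1 H).filter (fun k : ℕ => (x : ℝ) ^ (1 - η) ≤ prs s x k)).card : ℝ) := by
  obtain ⟨s', hs'⟩ : ∃ s', s' = min (s / 2) 1 := ⟨_, rfl⟩
  have hs'0 : 0 < s' := by rw [hs']; positivity
  have hs'1 : s' ≤ 1 := by rw [hs']; exact min_le_right _ _
  have hs'2 : s' ≤ s / 2 := by rw [hs']; exact min_le_left _ _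
  obtain ⟨K, hK, HC⟩ := core s' hs'0 hs'1
  obtain ⟨W, hW⟩ : ∃ W, W = (4 * K).factorial := ⟨_, rfl⟩
  have hW0 : 0 < W := by rw [hW]; exact Nat.factorial_pos _
  obtain ⟨C₁, E, hC₁, HB⟩ := box_pow (W * K) 4
  obtain ⟨e, he⟩ : ∃ e, e = min ε 1 := ⟨_, rfl⟩
  have he0 : 0 < e := by rw [he]; positivity
  have he1 : e ≤ 1 := by rw [he]; exact min_le_right _ _
  have heε : e ≤ ε := by rw [he]; exact min_le_left _ _
  obtain ⟨ε₂, hε₂⟩ : ∃ ε₂ : ℝ, ε₂ = (e / 16) ^ 3 / 625 := ⟨_, rfl⟩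
  have hε₂0 : 0 < ε₂ := by rw [hε₂]; positivity
  have hε₂1 : ε₂ ≤ 1 := by
    have h1 : (e / 16) ^ 3 ≤ 1 := pow_le_one₀ (by positivity) (by linarith)
    rw [hε₂]; linarith
  obtain ⟨R₁, hR₁⟩ := exists_nat_ge (C₁ / ε₂ ^ E)
  obtain ⟨R₂, hR₂⟩ := exists_nat_ge (16 / e)
  obtain ⟨R₃, hR₃⟩ := exists_nat_ge (20 / s)
  refine ⟨R₁ + R₂ + R₃ + 10, fun η hη => ?_⟩
  filter_upwards [HC η hη, eventually_ge_atTop 1] with x hx hx1 H hCH hHx
  by_contra hcon
  push Not at hcon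
  obtain ⟨B, hBdef⟩ : ∃ B, B = (Icc 1 H).filter (fun k : ℕ => ¬ (x : ℝ) ^ (1 - η) ≤ prs s x k) :=
    ⟨_, rfl⟩
  have hsum : ((Icc 1 H).filter (fun k : ℕ => (x : ℝ) ^ (1 - η) ≤ prs s x k)).card + B.card = H := by
    rw [hBdef, card_filter_add_card_filter_not, Nat.card_Icc, Nat.add_sub_cancel]
  have hBI : B ⊆ Icc 1 H := by rw [hBdef]; exact filter_subset _ _
  have hsumr : ((((Icc 1 H).filter (fun k : ℕ => (x : ℝ) ^ (1 - η) ≤ prs s x k)).card : ℕ) : ℝ) +
      (B.card : ℝ) = H := by exact_mod_cast hsum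
  have hH0 : (0 : ℝ) ≤ H := Nat.cast_nonneg _
  have hBr : (2 / 3 + e) * (H : ℝ) ≤ B.card := by nlinarith
  have hH1 : 1 ≤ H := by omega
  have hH1r : (1 : ℝ) ≤ H := by exact_mod_cast hH1
  have hR1H : C₁ / ε₂ ^ E ≤ (H : ℝ) := hR₁.trans (by exact_mod_cast (by omega : R₁ ≤ H))
  have hR2H : 16 / e ≤ (H : ℝ) := hR₂.trans (by exact_mod_cast (by omega : R₂ ≤ H))
  have heH : 16 ≤ e * H := by
    rw [div_le_iff₀ he0] at hR2H
    linarith
  have hxH : 20 / s * (H : ℝ) ≤ x := by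
    have h1 : (R₃ : ℝ) * H ≤ x := by
      have : R₃ * H ≤ x := (Nat.mul_le_mul_right H (by omega)).trans hHx
      exact_mod_cast this
    exact (mul_le_mul_of_nonneg_right hR₃ hH0).trans h1
  have h10H : 10 * (H : ℝ) ≤ s / 2 * x := by
    have h1 : 20 * (H : ℝ) ≤ x * s := by
      have h2 : 20 / s * (H : ℝ) = 20 * H / s := by ring
      rw [h2, div_le_iff₀ hs] at hxH
      exact hxH
    linarith
  have h10n : 10 * H ≤ x := (Nat.mul_le_mul_right H (by omega)).trans hHx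
  obtain ⟨R, hR⟩ : ∃ R, R = ⌊e * H / 8⌋₊ := ⟨_, rfl⟩
  have hRu : (R : ℝ) ≤ e * H / 8 := by rw [hR]; exact Nat.floor_le (by positivity)
  have hRl : e * H / 16 ≤ (R : ℝ) := by
    have h1 : e * H / 8 < (R : ℝ) + 1 := by rw [hR]; exact Nat.lt_floor_add_one _
    linarith
  have hR1 : 1 ≤ R := by
    have h1 : (1 : ℝ) ≤ R := by linarith
    exact_mod_cast h1
  obtain ⟨c, hc, hq⟩ := quad H R R hR1 B hBI (by
    have h1 : (2 * H + 9 * R + 3 * R + 20 : ℝ) ≤ 3 * B.card := by nlinarith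
    exact_mod_cast h1)
  have hcount : ε₂ * ∏ i : Fin 4, (((fun _ : Fin 4 => range (5 * H)) i).card : ℝ) ≤
      (((Fintype.piFinset (fun _ : Fin 4 => range (5 * H))).filter (fun f => PP B c f)).card : ℝ) := by
    have h1 : ∏ i : Fin 4, (((fun _ : Fin 4 => range (5 * H)) i).card : ℝ) = (5 * H) ^ 4 := by
      simp only [card_range, prod_const, card_univ, Fintype.card_fin]
      push_cast
      ring
    rw [h1]
    have h2 : (H : ℝ) * (QQ H B c).card ≤
      (((Fintype.piFinset (fun _ : Fin 4 => range (5 * H))).filter (fun f => PP B c f)).card : ℝ) := by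
      exact_mod_cast emb H c B
    refine le_trans ?_ h2
    have h3 : (R : ℝ) * (R * R) ≤ (QQ H B c).card := by exact_mod_cast hq
    have h4 : (e * H / 16) ^ 3 ≤ (R : ℝ) ^ 3 := by gcongr
    have h5 : (R : ℝ) ^ 3 = R * (R * R) := by ring
    have h6 : ε₂ * (5 * (H : ℝ)) ^ 4 = H * (e * H / 16) ^ 3 := by rw [hε₂]; ring
    rw [h6]
    exact mul_le_mul_of_nonneg_left (by linarith) hH0
  obtain ⟨Af, hA1, hA2⟩ := HB ε₂ hε₂0 hε₂1 ℕ (fun _ : Fin 4 => range (5 * H)) (fun i => by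
    simp only [card_range]
    push_cast
    linarith) _ (filter_subset _ _) hcount
  have hlt : ∀ g g' : Fin 4, g < g' → ∀ i j, Af g i < Af g' j ∧ Af g' j - Af g i ∈ B := by
    intro g g' hgg i j
    have h1 := (mem_filter.1 (hA2 (Function.update (fun _ => i) g' j))).2.1 g g' hgg
    simp only [Function.update_self, Function.update_of_ne hgg.ne] at h1
    exact h1
  have hmod : ∀ g i, Af g i % 3 = 0 ∨ Af g i % 3 = c := fun g i =>
    (mem_filter.1 (hA2 (fun _ => i))).2.2 g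
  have hrng : ∀ g i, Af g i < 5 * H := fun g i => by
    have h1 := Fintype.mem_piFinset.1 (mem_filter.1 (hA2 (fun _ => i))).1 g
    exact mem_range.1 h1
  choose em hem r hr using fun g => pig W K hW0 (Af g)
  obtain ⟨A, hA⟩ : ∃ A : Fin 4 → Fin K → ℕ, A = fun g i => Af g (em g i) := ⟨_, rfl⟩
  have hAv : ∀ g i, A g i = Af g (em g i) := fun g i => by rw [hA]
  have hlt' : ∀ g g' : Fin 4, g < g' → ∀ i j, A g i < A g' j ∧ A g' j - A g i ∈ B := by
    intro g g' hgg i j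
    rw [hAv, hAv]
    exact hlt g g' hgg _ _
  obtain ⟨g, g', i, j, hne, hcnt⟩ := hx A (by
      rintro ⟨g, i⟩ ⟨g', j⟩ h
      have h' : A g i = A g' j := h
      rcases lt_trichotomy g g' with hg | hg | hg
      · have := (hlt' g g' hg i j).1
        omega
      · subst hg
        rw [hAv, hAv] at h'
        rw [hem g (hA1 g h')]
      · have := (hlt' g' g hg j i).1
        omega)
    (fun g i => by
      rw [hAv]
      have := hrng g (em g i)
      omega)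
    (adm K c hc A r (fun g i => by rw [hAv, ← hW]; exact hr g i) (fun g i => by rw [hAv]; exact hmod _ _))
  have fin : ∀ (g g' : Fin 4) (i j : Fin K), g < g' → ∀ F : Finset ℕ,
      (∀ n ∈ F, (x : ℝ) ≤ n ∧ (n : ℝ) ≤ (1 + s') * x ∧ (n + 2 * A g i).Prime ∧
        (n + 2 * A g' j).Prime) → (x : ℝ) ^ (1 - η) ≤ (F.card : ℝ) → False := by
    intro g g' i j hgg F hF hFc
    obtain ⟨h1, h2⟩ := hlt' g g' hgg i j
    rw [hBdef, mem_filter] at h2
    apply h2.2
    refine hFc.trans ?_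
    rw [Nat.cast_le]
    refine prs_ge s x (A g' j - A g i) (2 * A g i) F fun n hn => ?_
    obtain ⟨h3, h4, h5, h6⟩ := hF n hn
    have h7 : n + 2 * A g i + 2 * (A g' j - A g i) = n + 2 * A g' j := by omega
    rw [h7]
    refine ⟨h5, h6, h3, ?_⟩
    have h8 : (A g' j : ℝ) ≤ 5 * H := by
      have := hrng g' (em g' j)
      rw [← hAv] at this
      exact_mod_cast this.le
    have hx0 : (0 : ℝ) ≤ x := Nat.cast_nonneg _
    push_cast
    nlinarith
  rcases lt_or_gt_of_ne hne with hg | hg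
  · exact fin g g' i j hg _ (fun n hn => (mem_filter.1 hn).2) hcnt
  · exact fin g' g j i hg _ (fun n hn => by
      obtain ⟨h1, h2, h3, h4⟩ := (mem_filter.1 hn).2
      exact ⟨h1, h2, h4, h3⟩) hcnt

end Pool.Agent.TH899.UG.TD
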