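import Mathlib
import Pool.Agent.TH899.UG.TD4

/-! A third of the multiples of every number are differences of primes of a given class, at every
scale. -/

set_option autoImplicit false

namespace Pool.Agent.TH899.UG.TD

open Finset Filter Topology

theorem exresq (p q : ℕ) (hp : p.Prime) (hpq : ¬ p ∣ q) (S : Finset ℤ) (hS : S.card < p) :
    ∃ n : ℤ, ∀ s ∈ S, ¬ (p : ℤ) ∣ q * n + s := by
  obtain ⟨n, hn⟩ := exres p S hS
  have hco : IsCoprime (q : ℤ) (p : ℤ) :=
    Nat.isCoprime_iff_coprime.2 ((Nat.Prime.coprime_iff_not_dvd hp).2 hpq).symm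
  obtain ⟨u, v, huv⟩ := hco
  refine ⟨u * n, fun s hs hd => hn s hs ?_⟩
  have h1 : n + s = (q * (u * n) + s) + p * (v * n) := by
    have h2 : n = (u * q + v * p) * n := by rw [huv, one_mul]
    calc n + s = (u * q + v * p) * n + s := by rw [← h2]
      _ = _ := by ring
  rw [h1]
  exact dvd_add hd (dvd_mul_right _ _)

theorem adm' (K c q a b : ℕ) (hqa : a.Coprime q) (hc : c = 1 ∨ c = 2)
    (A : Fin 4 → Fin K → ℕ) (r : Fin 4 → ℕ)
    (hr : ∀ g i, A g i % (4 * K).factorial = r g) (h3 : ∀ g i, A g i % 3 = 0 ∨ A g i % 3 = c)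
    (p : ℕ) (hp : p.Prime) :
    ∃ n : ℤ, ∀ g i, ¬ ((p : ℤ) ∣ q * n + (a + (2 * q * b * A g i : ℕ) : ℤ)) := by
  classical
  by_cases hpq : p ∣ q
  · refine ⟨0, fun g i h => ?_⟩
    have hpq' : (p : ℤ) ∣ q := by exact_mod_cast hpq
    have h1 : (p : ℤ) ∣ a := by
      have h2 : (a : ℤ) = (q * 0 + (a + (2 * q * b * A g i : ℕ) : ℤ)) - q * (2 * b * A g i) := by
        push_cast; ring
      rw [h2]
      exact dvd_sub h (hpq'.mul_right _)
    have h2 : p ∣ a := by exact_mod_cast h1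
    have h4 := Nat.dvd_gcd h2 hpq
    rw [hqa] at h4
    exact hp.one_lt.ne' (Nat.dvd_one.1 h4)
  by_cases hp2 : p = 2
  · subst hp2
    obtain ⟨n, hn⟩ := exresq 2 q hp hpq {(a : ℤ)} (by simp)
    refine ⟨n, fun g i h => hn a (mem_singleton_self _) ?_⟩
    have h2 : (q : ℤ) * n + a = (q * n + (a + (2 * q * b * A g i : ℕ) : ℤ)) - 2 * (q * b * A g i) := by
      push_cast; ring
    rw [h2]
    exact dvd_sub h (dvd_mul_right _ _)
  by_cases hp3 : p = 3
  · subst hp3
    obtain ⟨n, hn⟩ := exresq 3 q hp hpq {(a : ℤ), (a : ℤ) + 2 * q * b * c} (by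
      refine lt_of_le_of_lt (card_le_two) (by norm_num))
    refine ⟨n, fun g i h => ?_⟩
    have h4 : ∀ t : ℕ, A g i % 3 = t % 3 → ((3 : ℕ) : ℤ) ∣ q * n + (a + 2 * q * b * t) := by
      intro t ht
      have h5 : ((3 : ℕ) : ℤ) ∣ (A g i : ℤ) - t := by
        push_cast
        omega
      have h6 : (q : ℤ) * n + (a + 2 * q * b * t) = (q * n + (a + (2 * q * b * A g i : ℕ) : ℤ)) -
          ((A g i : ℤ) - t) * (2 * q * b) := by push_cast; ring
      rw [h6]
      exact dvd_sub h (h5.mul_right _)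
    rcases h3 g i with h5 | h5
    · refine hn a (by simp) ?_
      have h6 := h4 0 (by omega)
      push_cast at h6
      rw [mul_zero, add_zero] at h6
      exact h6
    · refine hn (a + 2 * q * b * c) (by simp) ?_
      exact h4 c (by omega)
  have hp5 : 5 ≤ p := by
    have h2 := hp.two_le
    rcases Nat.lt_or_ge p 5 with h | h
    · interval_cases p
      · exact absurd rfl hp2
      · exact absurd rfl hp3
      · exact absurd hp (by decide)
    · exact h
  by_cases hpK : p ≤ 4 * K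
  · obtain ⟨n, hn⟩ := exresq p q hp hpq
      ((univ : Finset (Fin 4)).image (fun g => (a + 2 * q * b * r g : ℤ))) (by
      refine card_image_le.trans_lt ?_
      rw [card_univ, Fintype.card_fin]; omega)
    refine ⟨n, fun g i h => hn (a + 2 * q * b * r g) (mem_image.2 ⟨g, mem_univ _, rfl⟩) ?_⟩
    have h1 : (p : ℤ) ∣ (A g i : ℤ) - r g := by
      have h2 : (p : ℤ) ∣ ((4 * K).factorial : ℕ) := by
        exact_mod_cast (hp.dvd_factorial).2 hpK
      refine h2.trans ?_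
      have h4 : ((r g : ℕ) : ℤ) = (A g i : ℤ) % ((4 * K).factorial : ℕ) := by
        rw [← hr g i]; push_cast; rfl
      rw [h4]
      exact Int.dvd_self_sub_emod
    have h2 : (q : ℤ) * n + (a + 2 * q * b * r g) = (q * n + (a + (2 * q * b * A g i : ℕ) : ℤ)) -
        ((A g i : ℤ) - r g) * (2 * q * b) := by push_cast; ring
    rw [h2]
    exact dvd_sub h (h1.mul_right _)
  · obtain ⟨n, hn⟩ := exresq p q hp hpq ((univ : Finset (Fin 4 × Fin K)).image
      (fun z => (a + (2 * q * b * A z.1 z.2 : ℕ) : ℤ))) (by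
      refine card_image_le.trans_lt ?_
      rw [card_univ, Fintype.card_prod, Fintype.card_fin, Fintype.card_fin]; omega)
    exact ⟨n, fun g i h => hn _ (mem_image.2 ⟨(g, i), mem_univ _, rfl⟩) h⟩

open Classical in
theorem core' (s : ℝ) (hs : 0 < s) (hs1 : s ≤ 1) : ∃ K : ℕ, 1 ≤ K ∧ ∀ q : ℕ, 1 ≤ q →
    ∀ η : ℝ, 0 < η → η ≤ 1 →
    ∀ᶠ y : ℕ in atTop, ∀ A : Fin 4 → Fin K → ℕ,
      (Function.Injective (fun z : Fin 4 × Fin K => A z.1 z.2)) → (∀ g i, A g i ≤ 9 * y) →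
      (∀ p : ℕ, p.Prime → ∃ n : ℤ, ∀ g i, ¬ ((p : ℤ) ∣ q * n + (A g i : ℕ))) →
      ∃ g g' i j, g ≠ g' ∧ (y : ℝ) ^ (1 - η) ≤ (((Icc 1 (8 * y)).filter (fun n : ℕ =>
        (y : ℝ) ≤ n ∧ (n : ℝ) ≤ (1 + s) * y ∧ (q * n + A g i).Prime ∧
        (q * n + A g' j).Prime)).card : ℝ) := by
  obtain ⟨c, hc, hc1, H⟩ := NW.exactW
  obtain ⟨K, hK, H⟩ := H (1 / 8) ((1 + s) / 8) le_rfl (by linarith) (by linarith) 4 1 (by norm_num)
    (by push_cast; linarith)
  refine ⟨K, hK, fun q hq η hη hη1 => ?_⟩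
  have htend : Tendsto (fun x : ℕ => 8 * x) atTop atTop :=
    tendsto_atTop.2 fun b => by
      filter_upwards [eventually_ge_atTop b] with x hx
      omega
  filter_upwards [htend.eventually (H q η hη), eventually_ge_atTop 1]
    with y hN hy A hinj hA hloc
  obtain ⟨S, σ, hS, hcnt⟩ := hN (fun _ _ => (q : ℤ)) (fun g i => (A g i : ℕ))
    (fun _ _ => by
      show (q : ℤ) ≠ 0
      omega) (fun _ _ => by
      show |(q : ℤ)| ≤ q
      rw [Nat.abs_cast])
    (fun g i => by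
      have h1 := hA g i
      show 5 * |((A g i : ℕ) : ℤ)| ≤ 6 * ((8 * y : ℕ) : ℤ)
      rw [Nat.abs_cast]
      push_cast
      omega)
    (fun g i z h1 h2 => by
      have h3 : (0 : ℝ) ≤ (A g i : ℝ) := Nat.cast_nonneg _
      have h4 : (0 : ℝ) ≤ (y : ℝ) := Nat.cast_nonneg _
      have h5 : (1 : ℝ) ≤ (q : ℝ) := by exact_mod_cast hq
      push_cast at h1 h2 ⊢
      nlinarith)
    (by
      rintro z z' h
      apply hinj
      have h2 : ((A z.1 z.2 : ℕ) : ℤ) = (A z'.1 z'.2 : ℕ) := congrArg Prod.snd h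
      show A z.1 z.2 = A z'.1 z'.2
      exact_mod_cast h2)
    hloc
  obtain ⟨g, hg, g', hg', hne⟩ := one_lt_card.1 (by omega : 1 < S.card)
  refine ⟨g, g', σ g, σ g', hne, ?_⟩
  have hxN : (y : ℝ) ^ (1 - η) ≤ ((8 * y : ℕ) : ℝ) ^ (1 - η) := by
    have h4 : (1 : ℝ) ≤ y := by exact_mod_cast hy
    exact Real.rpow_le_rpow (by linarith) (by push_cast; linarith) (by linarith)
  refine hxN.trans (hcnt.trans ?_)
  rw [Nat.cast_le]
  apply card_le_card
  intro n hn
  obtain ⟨h4, h5, h6, h7⟩ := mem_filter.1 hn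
  have key : ∀ k ∈ S, (q * n + A k (σ k)).Prime := by
    intro k hk
    have h8 := h7 k hk
    have h9 : ((q : ℤ) * (n : ℤ) + (A k (σ k) : ℕ)).toNat = q * n + A k (σ k) := by
      have : (q : ℤ) * (n : ℤ) + (A k (σ k) : ℕ) = ((q * n + A k (σ k) : ℕ) : ℤ) := by
        push_cast; ring
      rw [this, Int.toNat_natCast]
    rw [h9] at h8
    exact h8
  push_cast at h5 h6
  exact mem_filter.2 ⟨h4, by linarith, by linarith, key g hg, key g' hg'⟩

/-- the number of primes `p = a mod q` with `p + d` prime, both in `[x, (1 + s) x]` -/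
noncomputable def prq (s : ℝ) (x q a d : ℕ) : ℕ :=
  {p : ℕ | p.Prime ∧ (p + d).Prime ∧ p ≡ a [MOD q] ∧ (x : ℝ) ≤ p ∧
    ((p + d : ℕ) : ℝ) ≤ (1 + s) * x}.ncard

theorem prq_ge (s : ℝ) (x q a d a' t : ℕ) (hq : 1 ≤ q) (F : Finset ℕ) (ha : a' ≡ a [MOD q])
    (hF : ∀ n ∈ F, (q * n + (a' + q * t)).Prime ∧
    (q * n + (a' + q * t) + d).Prime ∧ (x : ℝ) ≤ q * n ∧
    ((q * n + (a' + q * t) + d : ℕ) : ℝ) ≤ (1 + s) * x) :
    F.card ≤ prq s x q a d := by
  classical
  have hfin : {p : ℕ | p.Prime ∧ (p + d).Prime ∧ p ≡ a [MOD q] ∧ (x : ℝ) ≤ p ∧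
    ((p + d : ℕ) : ℝ) ≤ (1 + s) * x}.Finite := by
    refine (Set.finite_le_nat ⌊(1 + s) * x⌋₊).subset ?_
    intro p hp
    have h1 := hp.2.2.2.2
    have h2 : (p : ℝ) ≤ (1 + s) * x := by
      refine le_trans ?_ h1
      exact_mod_cast Nat.le_add_right p d
    exact Nat.le_floor h2
  have h1 : (F.image (fun n => q * n + (a' + q * t))).card = F.card :=
    card_image_of_injective _ (fun n m h => by
      have h2 : q * n = q * m := by
        have h3 : q * n + (a' + q * t) = q * m + (a' + q * t) := h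
        omega
      exact Nat.eq_of_mul_eq_mul_left hq h2)
  rw [← h1, ← Set.ncard_coe_finset]
  refine Set.ncard_le_ncard ?_ hfin
  intro p hp
  obtain ⟨n, hn, rfl⟩ := mem_image.1 (mem_coe.1 hp)
  obtain ⟨h2, h3, h4, h5⟩ := hF n hn
  refine ⟨h2, h3, ?_, h4.trans ?_, h5⟩
  · have h6 : q * n + (a' + q * t) = a' + q * (n + t) := by ring
    rw [h6]
    refine Nat.ModEq.trans ?_ ha
    unfold Nat.ModEq
    rw [Nat.add_mul_mod_self_left]
  · push_cast
    have h7 : (0 : ℝ) ≤ (a' : ℝ) + q * t := by positivity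
    linarith

end Pool.Agent.TH899.UG.TD
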