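import Mathlib
import Pool.Agent.TH899.UG.TD5

/-! A third of the multiples of every number are differences of primes of a given class, at every
scale. -/

set_option autoImplicit false

namespace Pool.Agent.TH899.UG.TD

open Finset Filter Topology

theorem expo (q : ℕ) (hq : 1 ≤ q) (η : ℝ) (hη : 0 < η) : ∀ᶠ x : ℕ in atTop,
    (x : ℝ) ^ (1 - η) ≤ ((x / q + 1 : ℕ) : ℝ) ^ (1 - min (η / 2) 1) := by
  have hq0 : (1 : ℝ) ≤ q := by exact_mod_cast hq
  have hm0 : 0 < min (η / 2) 1 := by positivity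
  have h3 : ∀ᶠ x : ℕ in atTop, (q : ℝ) < (x : ℝ) ^ (min (η / 2) 1) :=
    ((tendsto_rpow_atTop hm0).comp tendsto_natCast_atTop_atTop).eventually_gt_atTop _
  filter_upwards [h3, eventually_ge_atTop 1] with x hx hx1
  obtain ⟨m, hm⟩ : ∃ m, m = min (η / 2) 1 := ⟨_, rfl⟩
  rw [← hm] at hx hm0 ⊢
  have hm1 : m ≤ 1 := by rw [hm]; exact min_le_right _ _
  have hm2 : 2 * m ≤ η := by
    have : m ≤ η / 2 := by rw [hm]; exact min_le_left _ _
    linarith
  have hx1r : (1 : ℝ) ≤ x := by exact_mod_cast hx1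
  have hx0 : (0 : ℝ) < x := by linarith
  have h4 : (x : ℝ) / q ≤ ((x / q + 1 : ℕ) : ℝ) := by
    rw [div_le_iff₀ (by linarith)]
    have h5 : x ≤ (x / q + 1) * q := by
      have := Nat.lt_mul_div_succ x (by omega : 0 < q)
      rw [mul_comm]
      exact this.le
    exact_mod_cast h5
  have h5 : ((x : ℝ) / q) ^ (1 - m) ≤ ((x / q + 1 : ℕ) : ℝ) ^ (1 - m) :=
    Real.rpow_le_rpow (by positivity) h4 (by linarith)
  refine le_trans ?_ h5
  rw [Real.div_rpow hx0.le (by linarith), le_div_iff₀ (by positivity)]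
  have h6 : (q : ℝ) ^ (1 - m) ≤ q := by
    have := Real.rpow_le_rpow_of_exponent_le hq0 (by linarith : 1 - m ≤ 1)
    rwa [Real.rpow_one] at this
  have h7 : (x : ℝ) ^ (1 - η) ≤ (x : ℝ) ^ (1 - 2 * m) :=
    Real.rpow_le_rpow_of_exponent_le hx1r (by linarith)
  calc (x : ℝ) ^ (1 - η) * (q : ℝ) ^ (1 - m) ≤ (x : ℝ) ^ (1 - 2 * m) * (x : ℝ) ^ m :=
        mul_le_mul h7 (h6.trans hx.le) (by positivity) (by positivity)
    _ = (x : ℝ) ^ (1 - m) := by
        rw [← Real.rpow_add hx0]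
        congr 1
        ring

open Classical in
/-- **Main theorem.** -/
theorem thirdq (ε s : ℝ) (hε : 0 < ε) (hs : 0 < s) : ∃ C : ℕ, ∀ q : ℕ, 1 ≤ q → ∀ η : ℝ, 0 < η →
    ∀ᶠ x : ℕ in atTop, ∀ a : ℕ, a.Coprime q → ∀ b H : ℕ, 1 ≤ b → C ≤ H → C * (q ^ 2 * b * H) ≤ x →
    (1 / 3 - ε) * (H : ℝ) ≤
      (((Icc 1 H).filter (fun k : ℕ => (x : ℝ) ^ (1 - η) ≤ prq s x q a (2 * q * b * k))).card : ℝ) := by
  obtain ⟨s', hs'⟩ : ∃ s', s' = min (s / 2) 1 := ⟨_, rfl⟩
  have hs'0 : 0 < s' := by rw [hs']; positivity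
  have hs'1 : s' ≤ 1 := by rw [hs']; exact min_le_right _ _
  have hs'2 : s' ≤ s / 2 := by rw [hs']; exact min_le_left _ _
  obtain ⟨K, hK, HC⟩ := core' s' hs'0 hs'1
  obtain ⟨W, hW⟩ : ∃ W, W = (4 * K).factorial := ⟨_, rfl⟩
  have hW0 : 0 < W := by rw [hW]; exact Nat.factorial_pos _
  obtain ⟨C₁, E, hC₁, HB⟩ := box_pow (W * K) 4
  obtain ⟨e, he⟩ : ∃ e, e = min ε 1 := ⟨_, rfl⟩
  have he0 : 0 < e := by rw [he]; positivity
  have he1 : e ≤ 1 := by rw [he]; exact min_le_right _ _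
  have heε : e ≤ ε := by rw [he]; exact min_le_left _ _
  obtain ⟨ε₂, hε₂⟩ : ∃ ε₂ : ℝ, ε₂ = (e / 16) ^ 3 / 625 := ⟨_, rfl⟩
  have hε₂0 : 0 < ε₂ := by rw [hε₂]; positivity
  have hε₂1 : ε₂ ≤ 1 := by
    have h1 : (e / 16) ^ 3 ≤ 1 := pow_le_one₀ (by positivity) (by linarith)
    rw [hε₂]; linarith
  obtain ⟨R₁, hR₁⟩ := exists_nat_ge (C₁ / ε₂ ^ E)
  obtain ⟨R₂, hR₂⟩ := exists_nat_ge (16 / e)
  obtain ⟨R₃, hR₃⟩ := exists_nat_ge (40 / s)
  refine ⟨R₁ + R₂ + R₃ + 10, fun q hq η hη => ?_⟩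
  have hdiv : Tendsto (fun x : ℕ => x / q + 1) atTop atTop :=
    tendsto_atTop.2 fun t => by
      filter_upwards [eventually_ge_atTop (t * q)] with x hx
      have : t ≤ x / q := (Nat.le_div_iff_mul_le (by omega)).2 hx
      omega
  obtain ⟨R₄, hR₄⟩ := exists_nat_ge (12 * (q : ℝ) / s)
  filter_upwards [hdiv.eventually (HC q hq (min (η / 2) 1) (by positivity) (min_le_right _ _)),
    expo q hq η hη, eventually_ge_atTop (q * q), eventually_ge_atTop R₄, eventually_ge_atTop 1] with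
    x hx hexp hxq hx4 hx1 a₀ ha₀ b H hb hCH hHx
  by_contra hcon
  push Not at hcon
  -- the residue
  obtain ⟨a, ha⟩ : ∃ a, a = a₀ % q := ⟨_, rfl⟩
  have haq : a < q := by rw [ha]; exact Nat.mod_lt _ (by omega)
  have haco : a.Coprime q := by
    rw [ha]
    show Nat.gcd (a₀ % q) q = 1
    rw [← Nat.gcd_rec, Nat.gcd_comm]
    exact ha₀
  have haa : a ≡ a₀ [MOD q] := by rw [ha]; exact Nat.mod_modEq _ _
  obtain ⟨y, hy⟩ : ∃ y, y = x / q + 1 := ⟨_, rfl⟩
  rw [← hy] at hx hexp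
  have hqy : x ≤ q * y := by
    rw [hy]
    exact (Nat.lt_mul_div_succ x (by omega : 0 < q)).le
  have hqy2 : q * y ≤ x + q := by
    rw [hy, mul_add, mul_one]
    have := Nat.mul_div_le x q
    omega
  have hqley : q ≤ y := by
    have : q ≤ x / q := (Nat.le_div_iff_mul_le (by omega)).2 hxq
    omega
  obtain ⟨B, hBdef⟩ : ∃ B, B = (Icc 1 H).filter
      (fun k : ℕ => ¬ (x : ℝ) ^ (1 - η) ≤ prq s x q a₀ (2 * q * b * k)) := ⟨_, rfl⟩
  have hsum : ((Icc 1 H).filter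
      (fun k : ℕ => (x : ℝ) ^ (1 - η) ≤ prq s x q a₀ (2 * q * b * k))).card + B.card = H := by
    rw [hBdef, card_filter_add_card_filter_not, Nat.card_Icc, Nat.add_sub_cancel]
  have hBI : B ⊆ Icc 1 H := by rw [hBdef]; exact filter_subset _ _
  have hsumr : ((((Icc 1 H).filter
      (fun k : ℕ => (x : ℝ) ^ (1 - η) ≤ prq s x q a₀ (2 * q * b * k))).card : ℕ) : ℝ) +
      (B.card : ℝ) = H := by exact_mod_cast hsum
  have hH0 : (0 : ℝ) ≤ H := Nat.cast_nonneg _
  have hBr : (2 / 3 + e) * (H : ℝ) ≤ B.card := by nlinarith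
  have hR1H : C₁ / ε₂ ^ E ≤ (H : ℝ) := hR₁.trans (by exact_mod_cast (by omega : R₁ ≤ H))
  have hR2H : 16 / e ≤ (H : ℝ) := hR₂.trans (by exact_mod_cast (by omega : R₂ ≤ H))
  have heH : 16 ≤ e * H := by
    rw [div_le_iff₀ he0] at hR2H
    linarith
  have hq1 : (1 : ℝ) ≤ q := by exact_mod_cast hq
  have hx0 : (0 : ℝ) ≤ x := Nat.cast_nonneg _
  -- sizes
  have hqqb : q * b * H ≤ q ^ 2 * b * H := by
    have h1 : q ≤ q ^ 2 := by nlinarith
    exact Nat.mul_le_mul_right H (Nat.mul_le_mul_right b h1)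
  have hxH : 40 / s * ((q * b * H : ℕ) : ℝ) ≤ x := by
    have h1 : (R₃ : ℝ) * ((q * b * H : ℕ) : ℝ) ≤ x := by
      have : R₃ * (q * b * H) ≤ x :=
        (Nat.mul_le_mul (by omega : R₃ ≤ R₁ + R₂ + R₃ + 10) hqqb).trans hHx
      exact_mod_cast this
    exact (mul_le_mul_of_nonneg_right hR₃ (Nat.cast_nonneg _)).trans h1
  have h10H : 10 * ((q * b * H : ℕ) : ℝ) ≤ s / 4 * x := by
    have h1 : 40 * ((q * b * H : ℕ) : ℝ) ≤ x * s := by
      have h2 : 40 / s * ((q * b * H : ℕ) : ℝ) = 40 * ((q * b * H : ℕ) : ℝ) / s := by ring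
      rw [h2, div_le_iff₀ hs] at hxH
      exact hxH
    linarith
  have h10n : 10 * (q * b * H) ≤ y := by
    have h1 : 10 * (q * b * H) ≤ x / q := by
      rw [Nat.le_div_iff_mul_le (by omega)]
      have h2 : 10 * (q * b * H) * q = 10 * (q ^ 2 * b * H) := by ring
      rw [h2]
      exact (Nat.mul_le_mul_right _ (by omega)).trans hHx
    omega
  have hqs : 3 * (q : ℝ) ≤ s / 4 * x := by
    have h1 : 12 * (q : ℝ) / s ≤ x := hR₄.trans (by exact_mod_cast hx4)
    rw [div_le_iff₀ hs] at h1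
    linarith
  obtain ⟨R, hR⟩ : ∃ R, R = ⌊e * H / 8⌋₊ := ⟨_, rfl⟩
  have hRu : (R : ℝ) ≤ e * H / 8 := by rw [hR]; exact Nat.floor_le (by positivity)
  have hRl : e * H / 16 ≤ (R : ℝ) := by
    have h1 : e * H / 8 < (R : ℝ) + 1 := by rw [hR]; exact Nat.lt_floor_add_one _
    linarith
  have hR1 : 1 ≤ R := by
    have h1 : (1 : ℝ) ≤ R := by linarith
    exact_mod_cast h1
  obtain ⟨c, hc, hq'⟩ := quad H R R hR1 B hBI (by
    have h1 : (2 * H + 9 * R + 3 * R + 20 : ℝ) ≤ 3 * B.card := by nlinarith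
    exact_mod_cast h1)
  have hcount : ε₂ * ∏ i : Fin 4, (((fun _ : Fin 4 => range (5 * H)) i).card : ℝ) ≤
      (((Fintype.piFinset (fun _ : Fin 4 => range (5 * H))).filter (fun f => PP B c f)).card : ℝ) := by
    have h1 : ∏ i : Fin 4, (((fun _ : Fin 4 => range (5 * H)) i).card : ℝ) = (5 * H) ^ 4 := by
      simp only [card_range, prod_const, card_univ, Fintype.card_fin]
      push_cast
      ring
    rw [h1]
    have h2 : (H : ℝ) * (QQ H B c).card ≤
      (((Fintype.piFinset (fun _ : Fin 4 => range (5 * H))).filter (fun f => PP B c f)).card : ℝ) := by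
      exact_mod_cast emb H c B
    refine le_trans ?_ h2
    have h3 : (R : ℝ) * (R * R) ≤ (QQ H B c).card := by exact_mod_cast hq'
    have h4 : (e * H / 16) ^ 3 ≤ (R : ℝ) ^ 3 := by gcongr
    have h5 : (R : ℝ) ^ 3 = R * (R * R) := by ring
    have h6 : ε₂ * (5 * (H : ℝ)) ^ 4 = H * (e * H / 16) ^ 3 := by rw [hε₂]; ring
    rw [h6]
    exact mul_le_mul_of_nonneg_left (by linarith) hH0
  obtain ⟨Af, hA1, hA2⟩ := HB ε₂ hε₂0 hε₂1 ℕ (fun _ : Fin 4 => range (5 * H)) (fun i => by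
    simp only [card_range]
    push_cast
    linarith) _ (filter_subset _ _) hcount
  have hlt : ∀ g g' : Fin 4, g < g' → ∀ i j, Af g i < Af g' j ∧ Af g' j - Af g i ∈ B := by
    intro g g' hgg i j
    have h1 := (mem_filter.1 (hA2 (Function.update (fun _ => i) g' j))).2.1 g g' hgg
    simp only [Function.update_self, Function.update_of_ne hgg.ne] at h1
    exact h1
  have hmod : ∀ g i, Af g i % 3 = 0 ∨ Af g i % 3 = c := fun g i =>
    (mem_filter.1 (hA2 (fun _ => i))).2.2 g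
  have hrng : ∀ g i, Af g i < 5 * H := fun g i => by
    have h1 := Fintype.mem_piFinset.1 (mem_filter.1 (hA2 (fun _ => i))).1 g
    exact mem_range.1 h1
  choose em hem r hr using fun g => pig W K hW0 (Af g)
  obtain ⟨A, hA⟩ : ∃ A : Fin 4 → Fin K → ℕ, A = fun g i => Af g (em g i) := ⟨_, rfl⟩
  have hAv : ∀ g i, A g i = Af g (em g i) := fun g i => by rw [hA]
  have hlt' : ∀ g g' : Fin 4, g < g' → ∀ i j, A g i < A g' j ∧ A g' j - A g i ∈ B := by
    intro g g' hgg i j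
    rw [hAv, hAv]
    exact hlt g g' hgg _ _
  have hA5 : ∀ g i, A g i ≤ 5 * H := fun g i => by rw [hAv]; exact (hrng _ _).le
  have hqb0 : 0 < 2 * q * b := by positivity
  have hinjA : Function.Injective (fun z : Fin 4 × Fin K => A z.1 z.2) := by
    rintro ⟨g, i⟩ ⟨g', j⟩ h
    have h' : A g i = A g' j := h
    rcases lt_trichotomy g g' with hg | hg | hg
    · have := (hlt' g g' hg i j).1
      omega
    · subst hg
      rw [hAv, hAv] at h'
      rw [hem g (hA1 g h')]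
    · have := (hlt' g' g hg j i).1
      omega
  have hbig : ∀ g i, 2 * q * b * A g i ≤ 10 * (q * b * H) := by
    intro g i
    calc 2 * q * b * A g i ≤ 2 * q * b * (5 * H) := Nat.mul_le_mul_left _ (hA5 g i)
      _ = 10 * (q * b * H) := by ring
  obtain ⟨g, g', i, j, hne, hcnt⟩ := hx (fun g i => a + 2 * q * b * A g i) (by
      intro z z' h
      apply hinjA
      have h2 : a + 2 * q * b * A z.1 z.2 = a + 2 * q * b * A z'.1 z'.2 := h
      exact Nat.eq_of_mul_eq_mul_left hqb0 (Nat.add_left_cancel h2))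
    (fun g i => by
      have := hbig g i
      show a + 2 * q * b * A g i ≤ 9 * y
      omega)
    (fun p hp => by
      obtain ⟨n, hn⟩ := adm' K c q a b haco hc A r (fun g i => by rw [hAv, ← hW]; exact hr g i)
        (fun g i => by rw [hAv]; exact hmod _ _) p hp
      refine ⟨n, fun g i h => hn g i ?_⟩
      have h2 : (((fun g i => a + 2 * q * b * A g i) g i : ℕ) : ℤ) = a + (2 * q * b * A g i : ℕ) := by
        push_cast; ring
      rw [h2] at h
      exact h)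
  have fin : ∀ (g g' : Fin 4) (i j : Fin K), g < g' → ∀ F : Finset ℕ,
      (∀ n ∈ F, (y : ℝ) ≤ n ∧ (n : ℝ) ≤ (1 + s') * y ∧ (q * n + (a + 2 * q * b * A g i)).Prime ∧
        (q * n + (a + 2 * q * b * A g' j)).Prime) →
        (y : ℝ) ^ (1 - min (η / 2) 1) ≤ (F.card : ℝ) → False := by
    intro g g' i j hgg F hF hFc
    obtain ⟨h1, h2⟩ := hlt' g g' hgg i j
    rw [hBdef, mem_filter] at h2
    apply h2.2
    refine hexp.trans (hFc.trans ?_)
    rw [Nat.cast_le]
    refine prq_ge s x q a₀ (2 * q * b * (A g' j - A g i)) a (2 * b * A g i) hq F haa fun n hn => ?_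
    obtain ⟨h3, h4, h5, h6⟩ := hF n hn
    have e1 : q * (2 * b * A g i) = 2 * q * b * A g i := by ring
    have e2 : 2 * q * b * A g i + 2 * q * b * (A g' j - A g i) = 2 * q * b * A g' j := by
      rw [← Nat.mul_add, Nat.add_sub_cancel' h1.le]
    have h7 : q * n + (a + 2 * q * b * A g i) + 2 * q * b * (A g' j - A g i) =
        q * n + (a + 2 * q * b * A g' j) := by
      rw [← e2]; ring
    rw [e1, h7]
    refine ⟨h5, h6, ?_, ?_⟩
    · have h8 : (x : ℝ) ≤ q * y := by exact_mod_cast hqy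
      exact h8.trans (mul_le_mul_of_nonneg_left h3 (by linarith))
    · have h8 : ((2 * q * b * A g' j : ℕ) : ℝ) ≤ 10 * ((q * b * H : ℕ) : ℝ) := by
        exact_mod_cast hbig g' j
      have h9 : (q : ℝ) * n ≤ (1 + s') * (x + q) := by
        have h10 : (q : ℝ) * y ≤ x + q := by exact_mod_cast hqy2
        calc (q : ℝ) * n ≤ q * ((1 + s') * y) := mul_le_mul_of_nonneg_left h4 (by linarith)
          _ = (1 + s') * (q * y) := by ring
          _ ≤ (1 + s') * (x + q) := mul_le_mul_of_nonneg_left h10 (by linarith)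
      have h10 : (a : ℝ) ≤ q := by exact_mod_cast haq.le
      have h11 : ((q * n + (a + 2 * q * b * A g' j) : ℕ) : ℝ) =
          (q : ℝ) * n + (a + ((2 * q * b * A g' j : ℕ) : ℝ)) := by push_cast; ring
      rw [h11]
      nlinarith
  rcases lt_or_gt_of_ne hne with hg | hg
  · exact fin g g' i j hg _ (fun n hn => (mem_filter.1 hn).2) hcnt
  · exact fin g' g j i hg _ (fun n hn => by
      obtain ⟨h1, h2, h3, h4⟩ := (mem_filter.1 hn).2
      exact ⟨h1, h2, h4, h3⟩) hcnt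

end Pool.Agent.TH899.UG.TD
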