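import Mathlib
import Pool.Agent.TH899.UG.AffG3

/-!
The group of affine maps generated by the maps `x ↦ u x + v` that map infinitely many primes to
primes: index at most three, bounded generation.
-/

namespace Pool.Agent.TH899.UG.Aff

open Finset Pool.Agent.H602R3 Pool.Agent.TH899.UG

/-- slopes of compositions of prime preserving maps, up to sign -/
def G : Subgroup ℚˣ where
  carrier := {u | ∃ l v, (|(u : ℚ)|, v) ∈ Pw l}
  mul_mem' := by
    rintro a b ⟨l, v, h⟩ ⟨l', v', h'⟩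
    have := Pw_cmp l l' _ _ h h'
    rw [cmp] at this
    refine ⟨l + l', |(a : ℚ)| * v' + v, ?_⟩
    simpa [abs_mul] using this
  one_mem' := ⟨0, 0, by simp [Pw]⟩
  inv_mem' := by
    rintro a ⟨l, v, h⟩
    have := Pw_inv l _ h
    rw [inv'] at this
    refine ⟨l, -v / |(a : ℚ)|, ?_⟩
    simpa [abs_inv] using this

theorem mem_G {u : ℚˣ} : u ∈ G ↔ ∃ l v, (|(u : ℚ)|, v) ∈ Pw l := Iff.rfl

theorem neg_one_mem : (-1 : ℚˣ) ∈ G := ⟨0, 0, by simp [Pw]⟩

/-- bounded generation of the slopes -/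
theorem slopes (hQ : FourI) : ∃ m : ℕ, ∀ u : ℚ, (∃ l v, (u, v) ∈ Pw l) → ∃ v, (u, v) ∈ Pw m := by
  obtain ⟨K, hK, hE⟩ := eng_mul hQ
  obtain ⟨m, hm⟩ := bdd (Γ := ℚ) (fun x y => 0 < x ∧ 0 < y ∧ PP (x / y, 1 - x / y))
    (by
      rintro x y ⟨hx, hy, h⟩
      refine ⟨hy, hx, ?_⟩
      have h1 := PP_inv h
      rw [inv'] at h1
      simp only at h1
      have e1 : (x / y)⁻¹ = y / x := inv_div _ _
      have e2 : -(1 - x / y) / (x / y) = 1 - y / x := by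
        have := hx.ne'
        have := hy.ne'
        field_simp
        ring
      rwa [e1, e2] at h1)
    (fun l => {u | ∃ v, (u, v) ∈ Pw l})
    (by
      rintro l u ⟨v, h⟩
      exact ⟨v, Pw_succ h⟩)
    (by
      rintro l x y ⟨hx, hy, h⟩ ⟨v, hv⟩
      refine ⟨x / y * v + (1 - x / y), ⟨_, _, h, hv, ?_⟩⟩
      rw [cmp]
      simp only
      rw [div_mul_cancel₀ _ hy.ne'])
    (4 * K)
    (by
      intro f hf hfS
      have hpos : ∀ i, 0 < f i := by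
        intro i
        obtain ⟨l, v, h⟩ := hfS i
        exact Pw_pos l _ h
      obtain ⟨g, g', i, i', hne, h⟩ := hE (fun g i => f (finProdFinEquiv (g, i)))
        (fun g i => hpos _) (by
          intro z z' h
          exact finProdFinEquiv.injective (hf h))
      refine ⟨finProdFinEquiv (g, i), finProdFinEquiv (g', i'), ?_, hpos _, hpos _, h⟩
      intro h'
      exact hne (congrArg Prod.fst (finProdFinEquiv.injective h')))
  refine ⟨m, fun u ⟨l, v, h⟩ => hm u ⟨l, v, h⟩⟩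

/-- bounded generation of a group of integral translations -/
theorem translations_int (hQ : FourI) : ∃ m s : ℕ, 1 ≤ s ∧
    ∀ t : ℤ, ((1 : ℚ), (s : ℚ) * t) ∈ Pw m := by
  obtain ⟨K, W, hK, hW, hE⟩ := eng_add hQ
  obtain ⟨m, hm⟩ := bdd (Γ := ℤ) (fun x y => PP (1, (W : ℚ) * (x - y)))
    (by
      rintro x y h
      have h1 := PP_inv h
      rw [inv'] at h1
      simp only at h1
      have e2 : -((W : ℚ) * (x - y)) / 1 = W * (y - x) := by ring
      rwa [e2, inv_one] at h1)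
    (fun l => {j | ((1 : ℚ), (W : ℚ) * j) ∈ Pw l})
    (by
      rintro l u h
      exact Pw_succ h)
    (by
      rintro l x y h hv
      refine ⟨_, _, h, hv, ?_⟩
      rw [cmp]
      simp only
      ext <;> simp only <;> ring)
    (4 * K)
    (by
      intro f hf hfS
      obtain ⟨g, g', i, i', hne, h⟩ := hE (fun g i => f (finProdFinEquiv (g, i)))
        (by
          intro z z' h
          exact finProdFinEquiv.injective (hf h))
      refine ⟨finProdFinEquiv (g, i), finProdFinEquiv (g', i'), ?_, h⟩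
      intro h'
      exact hne (congrArg Prod.fst (finProdFinEquiv.injective h')))
  -- one nontrivial translation
  obtain ⟨j, hj0, hj⟩ : ∃ j : ℤ, j ≠ 0 ∧ PP (1, (W : ℚ) * j) := by
    obtain ⟨g, g', i, i', hne, h⟩ := hE (fun g i => ((finProdFinEquiv (g, i) : ℕ) : ℤ)) (by
      intro z z' h
      have h' : ((finProdFinEquiv z : ℕ) : ℤ) = ((finProdFinEquiv z' : ℕ) : ℤ) := h
      exact finProdFinEquiv.injective (Fin.ext (by exact_mod_cast h')))
    refine ⟨((finProdFinEquiv (g, i) : ℕ) : ℤ) - ((finProdFinEquiv (g', i') : ℕ) : ℤ), ?_, ?_⟩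
    · intro h0
      have h1 : (finProdFinEquiv (g, i) : ℕ) = (finProdFinEquiv (g', i') : ℕ) := by
        have := sub_eq_zero.1 h0
        exact_mod_cast this
      exact hne (congrArg Prod.fst (finProdFinEquiv.injective (Fin.ext h1)))
    · push_cast
      push_cast at h
      exact h
  have hmulN : ∀ t : ℕ, ∃ l, ((1 : ℚ), (W : ℚ) * ((j * t : ℤ) : ℚ)) ∈ Pw l := by
    intro t
    induction t with
    | zero => exact ⟨0, by simp [Pw]⟩
    | succ t ih =>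
      obtain ⟨l, hl⟩ := ih
      refine ⟨l + 1, _, _, hj, hl, ?_⟩
      rw [cmp]
      push_cast
      ext <;> simp only <;> ring
  have hmulZ : ∀ t : ℤ, ∃ l, ((1 : ℚ), (W : ℚ) * ((j * t : ℤ) : ℚ)) ∈ Pw l := by
    intro t
    rcases Int.le_total 0 t with h | h
    · obtain ⟨n, rfl⟩ := Int.eq_ofNat_of_zero_le h
      exact hmulN n
    · obtain ⟨n, hn⟩ := Int.eq_ofNat_of_zero_le (neg_nonneg.2 h)
      obtain ⟨l, hl⟩ := hmulN n
      refine ⟨l, ?_⟩
      have h1 := Pw_inv l _ hl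
      rw [inv'] at h1
      simp only at h1
      have e2 : -((W : ℚ) * ((j * n : ℤ) : ℚ)) / 1 = W * ((j * t : ℤ) : ℚ) := by
        have : t = - (n : ℤ) := by
          have h3 : -t = (n : ℤ) := hn
          omega
        rw [this]
        push_cast
        ring
      rwa [e2, inv_one] at h1
  obtain ⟨n, hn⟩ := j.eq_nat_or_neg
  have hn0 : 1 ≤ n := by
    rcases Nat.eq_zero_or_pos n with h | h
    · exfalso
      apply hj0
      rcases hn with hn | hn <;> rw [hn, h] <;> simp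
    · exact h
  refine ⟨m, W * n, Nat.mul_pos hW hn0, fun t => ?_⟩
  rcases hn with hjj | hjj
  · have h1 := hm (j * t) (hmulZ t)
    have e : (W : ℚ) * ((j * t : ℤ) : ℚ) = ((W * n : ℕ) : ℚ) * t := by
      rw [hjj]
      push_cast
      ring
    rw [← e]
    exact h1
  · have h1 := hm (j * (-t)) (hmulZ (-t))
    have e : (W : ℚ) * ((j * (-t) : ℤ) : ℚ) = ((W * n : ℕ) : ℚ) * t := by
      rw [hjj]
      push_cast
      ring
    rw [← e]
    exact h1

/-- a nontrivial slope -/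
theorem slope_ne_one (hQ : FourI) : ∃ ρ : ℚ, 0 < ρ ∧ ρ ≠ 1 ∧ PP (ρ, 1 - ρ) := by
  obtain ⟨K, hK, hE⟩ := eng_mul hQ
  obtain ⟨g, g', i, i', hne, h⟩ := hE (fun g i => ((finProdFinEquiv (g, i) : ℕ) : ℚ) + 1)
    (fun g i => by positivity) (by
      intro z z' h
      have h' : ((finProdFinEquiv z : ℕ) : ℚ) + 1 = ((finProdFinEquiv z' : ℕ) : ℚ) + 1 := h
      have h'' : ((finProdFinEquiv z : ℕ) : ℚ) = ((finProdFinEquiv z' : ℕ) : ℚ) := by linarith
      exact finProdFinEquiv.injective (Fin.ext (by exact_mod_cast h'')))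
  refine ⟨_, h.1, ?_, h⟩
  simp only
  intro h1
  have hpos : (((finProdFinEquiv (g', i') : ℕ) : ℚ) + 1) ≠ 0 := by positivity
  rw [div_eq_one_iff_eq hpos] at h1
  have h'' : ((finProdFinEquiv (g, i) : ℕ) : ℚ) = ((finProdFinEquiv (g', i') : ℕ) : ℚ) := by
    linarith
  exact hne (congrArg Prod.fst (finProdFinEquiv.injective (Fin.ext (by exact_mod_cast h''))))

/-- `G` has index at most three -/
theorem index_le (hQ : FourI) : 1 ≤ G.index ∧ G.index ≤ 3 := by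
  classical
  by_contra hcon
  -- four classes
  obtain ⟨F, hF⟩ : ∃ F : Fin 4 → ℚˣ ⧸ G, Function.Injective F := by
    rcases Nat.eq_zero_or_pos G.index with h0 | h0
    · have hinf : Infinite (ℚˣ ⧸ G) := by
        have h1 : Nat.card (ℚˣ ⧸ G) = 0 := h0
        rcases Nat.card_eq_zero.1 h1 with h | h
        · exact absurd (h.false (QuotientGroup.mk (1 : ℚˣ))) (fun h => h)
        · exact h
      exact ⟨fun i => Infinite.natEmbedding _ (i : ℕ), fun i j h =>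
        Fin.ext ((Infinite.natEmbedding _).injective h)⟩
    · have h5 : 4 ≤ Nat.card (ℚˣ ⧸ G) := by
        have : G.index = Nat.card (ℚˣ ⧸ G) := rfl
        omega
      have hfin : Finite (ℚˣ ⧸ G) := Nat.finite_of_card_ne_zero (by omega)
      exact ⟨fun i => (Finite.equivFin (ℚˣ ⧸ G)).symm (Fin.castLE h5 i), fun i j h =>
        Fin.castLE_injective h5 ((Finite.equivFin (ℚˣ ⧸ G)).symm.injective h)⟩
  obtain ⟨f, hf⟩ : ∃ f : Fin 4 → ℚˣ, ∀ g g', g ≠ g' → (f g)⁻¹ * f g' ∉ G := by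
    refine ⟨fun g => (QuotientGroup.mk_surjective (F g)).choose, fun g g' hne hmem => hne (hF ?_)⟩
    rw [← (QuotientGroup.mk_surjective (F g)).choose_spec,
      ← (QuotientGroup.mk_surjective (F g')).choose_spec]
    exact QuotientGroup.eq.2 hmem
  obtain ⟨ρ, hρ0, hρ1, hρ⟩ := slope_ne_one hQ
  obtain ⟨K, hK, hE⟩ := eng_mul hQ
  set r : ℚˣ := Units.mk0 ρ hρ0.ne' with hr
  have hrG : r ∈ G := ⟨1, 1 - ρ, by
    rw [hr, Units.val_mk0, abs_of_pos hρ0]
    exact Pw_one hρ⟩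
  set X : Fin 4 → Fin K → ℚˣ := fun g i => f g * r ^ (i : ℕ) with hX
  have hXne : ∀ g i g' i', g ≠ g' → (X g i)⁻¹ * X g' i' ∉ G := by
    intro g i g' i' hne hmem
    refine hf g g' hne ?_
    have h1 : (f g)⁻¹ * f g' = r ^ (i : ℕ) * ((X g i)⁻¹ * X g' i') * (r ^ (i' : ℕ))⁻¹ := by
      rw [hX]
      simp only
      rw [mul_inv]
      have : r ^ (i : ℕ) * ((f g)⁻¹ * (r ^ (i : ℕ))⁻¹ * (f g' * r ^ (i' : ℕ))) * (r ^ (i' : ℕ))⁻¹ =
        (f g)⁻¹ * f g' * (r ^ (i : ℕ) * (r ^ (i : ℕ))⁻¹) * (r ^ (i' : ℕ) * (r ^ (i' : ℕ))⁻¹) := by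
        simp only [mul_comm, mul_left_comm, mul_assoc]
      rw [this]
      simp
    rw [h1]
    exact G.mul_mem (G.mul_mem (G.pow_mem hrG _) hmem) (G.inv_mem (G.pow_mem hrG _))
  obtain ⟨g, g', i, i', hne, h⟩ := hE (fun g i => |(X g i : ℚ)|)
    (fun g i => abs_pos.2 (Units.ne_zero _)) (by
      intro z z' h
      have h' : |(X z.1 z.2 : ℚ)| = |(X z'.1 z'.2 : ℚ)| := h
      have h1 : z.1 = z'.1 := by
        by_contra hne
        refine hXne z.1 z.2 z'.1 z'.2 hne ⟨0, 0, ?_⟩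
        rw [Units.val_mul, Units.val_inv_eq_inv_val, abs_mul, abs_inv, h',
          inv_mul_cancel₀ (abs_ne_zero.2 (Units.ne_zero _))]
        simp [Pw]
      refine Prod.ext h1 ?_
      rw [h1] at h'
      rw [hX] at h'
      simp only [Units.val_mul, Units.val_pow_eq_pow_val, abs_mul, abs_pow] at h'
      have h2 := mul_left_cancel₀ (abs_ne_zero.2 (Units.ne_zero _)) h'
      have h3 : |(r : ℚ)| = ρ := by
        rw [hr, Units.val_mk0, abs_of_pos hρ0]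
      rw [h3] at h2
      exact Fin.ext (pow_right_injective₀ hρ0 hρ1 h2))
  refine hXne g' i' g i (Ne.symm hne) ⟨1, 1 - |(X g i : ℚ)| / |(X g' i' : ℚ)|, ?_⟩
  rw [Units.val_mul, Units.val_inv_eq_inv_val, abs_mul, abs_inv, mul_comm, ← div_eq_mul_inv]
  exact Pw_one h

/-- bounded generation of all translations -/
theorem translations (hQ : FourI) : ∃ m : ℕ, ∀ t : ℚ, ((1 : ℚ), t) ∈ Pw m := by
  obtain ⟨m₁, h₁⟩ := slopes hQ
  obtain ⟨m₂, s, hs, h₂⟩ := translations_int hQ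
  obtain ⟨hi1, hi4⟩ := index_le hQ
  refine ⟨m₁ + (m₂ + m₁), fun t => ?_⟩
  set N : ℕ := G.index with hN
  obtain ⟨N', hN'⟩ : ∃ N', N = N' + 1 := ⟨N - 1, by omega⟩
  have hB0 : ((t.den * s : ℕ) : ℚ) ≠ 0 := by
    have h1 := t.den_pos
    have : 0 < t.den * s := Nat.mul_pos h1 hs
    exact_mod_cast this.ne'
  have hBpos : (0 : ℚ) < ((t.den * s : ℕ) : ℚ) := lt_of_le_of_ne (by positivity) (Ne.symm hB0)
  set B : ℚˣ := Units.mk0 ((t.den * s : ℕ) : ℚ) hB0 with hB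
  have hBG : (B ^ N)⁻¹ ∈ G := G.inv_mem (Subgroup.pow_index_mem G B)
  set u : ℚ := (((t.den * s : ℕ) : ℚ) ^ N)⁻¹ with hu
  have hu0 : 0 < u := inv_pos.2 (pow_pos hBpos _)
  obtain ⟨v, hv⟩ : ∃ v, (u, v) ∈ Pw m₁ := by
    apply h₁
    obtain ⟨l, v, h⟩ := mem_G.1 hBG
    refine ⟨l, v, ?_⟩
    rw [Units.val_inv_eq_inv_val, Units.val_pow_eq_pow_val, hB, Units.val_mk0,
      abs_of_pos (by rw [← hu]; exact hu0)] at h
    exact h
  have h3 := Pw_cmp m₁ _ _ _ hv (Pw_cmp m₂ m₁ _ _ (h₂ (t.num * (t.den : ℤ) ^ N' * (s : ℤ) ^ N'))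
    (Pw_inv m₁ _ hv))
  have e : cmp (u, v) (cmp ((1 : ℚ), (s : ℚ) * ((t.num * (t.den : ℤ) ^ N' * (s : ℤ) ^ N' : ℤ) : ℚ))
      (inv' (u, v))) = ((1 : ℚ), t) := by
    have hu0' : u ≠ 0 := hu0.ne'
    have hkey : u * ((s : ℚ) * ((t.num * (t.den : ℤ) ^ N' * (s : ℤ) ^ N' : ℤ) : ℚ)) = t := by
      have hd : (t.den : ℚ) ≠ 0 := by exact_mod_cast t.den_pos.ne'
      have hs' : (s : ℚ) ≠ 0 := by
        have : 0 < s := hs
        exact_mod_cast this.ne'
      have ht : (t.num : ℚ) = t * t.den := (Rat.mul_den_eq_num t).symm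
      rw [hu, hN']
      push_cast
      rw [ht]
      field_simp
      ring
    rw [cmp, cmp, inv']
    ext
    · simp only
      field_simp
    · simp only
      have : u * (1 * (-v / u) + (s : ℚ) * ((t.num * (t.den : ℤ) ^ N' * (s : ℤ) ^ N' : ℤ) : ℚ)) + v
          = u * ((s : ℚ) * ((t.num * (t.den : ℤ) ^ N' * (s : ℤ) ^ N' : ℤ) : ℚ)) +
            (v - v * (u / u)) := by ring
      rw [this, hkey, div_self hu0']
      ring
  rw [e] at h3
  exact h3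

theorem main (hQ : FourI) : ∃ (m : ℕ) (H : Subgroup ℚˣ), -1 ∈ H ∧ 1 ≤ H.index ∧ H.index ≤ 3 ∧
    ∀ (u : ℚˣ) (v : ℚ), 0 < (u : ℚ) → (u ∈ H ↔ ∃ l : List (ℚ × ℚ), l.length = m ∧
      (∀ w ∈ l, 0 < w.1 ∧
        {pq : ℕ × ℕ | pq.1.Prime ∧ pq.2.Prime ∧ (pq.1 : ℚ) = w.1 * pq.2 + w.2}.Infinite) ∧
      ∀ x : ℚ, l.foldr (fun w y => w.1 * y + w.2) x = u * x + v) := by
  obtain ⟨m₁, h₁⟩ := slopes hQ
  obtain ⟨m₂, h₂⟩ := translations hQ
  refine ⟨m₂ + m₁, G, neg_one_mem, (index_le hQ).1, (index_le hQ).2, fun u v hu => ?_⟩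
  have hl := Pw_iff (m₂ + m₁) ((u : ℚ), v)
  constructor
  · rintro ⟨l, v', h⟩
    rw [abs_of_pos hu] at h
    obtain ⟨v'', h''⟩ := h₁ _ ⟨l, v', h⟩
    refine hl.1 ?_
    have h3 := Pw_cmp m₂ m₁ _ _ (h₂ (v - v'')) h''
    have e : cmp ((1 : ℚ), v - v'') ((u : ℚ), v'') = ((u : ℚ), v) := by
      rw [cmp]
      ext <;> simp only <;> ring
    rwa [e] at h3
  · intro h
    refine ⟨m₂ + m₁, v, ?_⟩
    rw [abs_of_pos hu]
    exact hl.2 h

end Pool.Agent.TH899.UG.Aff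

namespace Pool.Agent.TH899.UG.Aff

open Finset Pool.Agent.H602R3 Pool.Agent.TH899.UG

/-- from slopes and constant terms to integral coefficients -/
theorem triple_of_PP (w : ℚ × ℚ) : ∃ t : ℕ × ℕ × ℤ, PP w →
    (1 ≤ t.1 ∧ 1 ≤ t.2.1 ∧ {pq : ℕ × ℕ | pq.1.Prime ∧ pq.2.Prime ∧
      (t.1 : ℤ) * pq.1 - t.2.1 * pq.2 = t.2.2}.Infinite) ∧
    ∀ y : ℚ, ((t.2.1 : ℚ) * y + t.2.2) / t.1 = w.1 * y + w.2 := by
  by_cases hw : PP w
  · obtain ⟨h0, h1⟩ := hw
    obtain ⟨b, hb⟩ := Int.eq_ofNat_of_zero_le (Rat.num_nonneg.2 h0.le)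
    have hb' : (b : ℚ) = w.1 * w.1.den := by
      rw [Rat.mul_den_eq_num, hb]
      simp
    have hc' : (w.2.num : ℚ) = w.2 * w.2.den := (Rat.mul_den_eq_num w.2).symm
    have hd1 : (0 : ℚ) < w.1.den := by exact_mod_cast w.1.den_pos
    have hd2 : (0 : ℚ) < w.2.den := by exact_mod_cast w.2.den_pos
    refine ⟨(w.1.den * w.2.den, b * w.2.den, w.2.num * w.1.den), fun _ => ⟨⟨?_, ?_, ?_⟩, ?_⟩⟩
    · exact Nat.mul_pos w.1.den_pos w.2.den_pos
    · have hb0 : 0 < b := by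
        have : (0 : ℚ) < b := by
          rw [hb']
          exact mul_pos h0 hd1
        exact_mod_cast this
      exact Nat.mul_pos hb0 w.2.den_pos
    · refine h1.mono ?_
      rintro ⟨p, q⟩ ⟨hp, hq, he⟩
      refine ⟨hp, hq, ?_⟩
      simp only at he ⊢
      have : ((w.1.den : ℚ) * w.2.den) * p - (b * w.2.den) * q = w.2.num * w.1.den := by
        rw [he, hb', hc']
        ring
      exact_mod_cast this
    · intro y
      push_cast
      rw [hb', hc', div_eq_iff (mul_pos hd1 hd2).ne']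
      ring
  · exact ⟨(1, 1, 0), fun h => absurd h hw⟩

theorem PP_of_triple {t : ℕ × ℕ × ℤ} (h1 : 1 ≤ t.1) (h2 : 1 ≤ t.2.1)
    (h : {pq : ℕ × ℕ | pq.1.Prime ∧ pq.2.Prime ∧
      (t.1 : ℤ) * pq.1 - t.2.1 * pq.2 = t.2.2}.Infinite) :
    PP ((t.2.1 : ℚ) / t.1, (t.2.2 : ℚ) / t.1) := by
  have h1' : (0 : ℚ) < t.1 := by exact_mod_cast h1
  have h2' : (0 : ℚ) < t.2.1 := by exact_mod_cast h2
  refine ⟨div_pos h2' h1', h.mono ?_⟩
  rintro ⟨p, q⟩ ⟨hp, hq, he⟩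
  refine ⟨hp, hq, ?_⟩
  simp only at he ⊢
  have he' : (t.1 : ℚ) * p - t.2.1 * q = t.2.2 := by exact_mod_cast he
  rw [← he']
  field_simp
  ring

theorem main_int (hQ : FourI) : ∃ (m : ℕ) (H : Subgroup ℚˣ),
    -1 ∈ H ∧ 1 ≤ H.index ∧ H.index ≤ 3 ∧
    ∀ (u : ℚˣ) (v : ℚ), 0 < (u : ℚ) → (u ∈ H ↔ ∃ l : List (ℕ × ℕ × ℤ), l.length = m ∧
      (∀ t ∈ l, 1 ≤ t.1 ∧ 1 ≤ t.2.1 ∧ {pq : ℕ × ℕ | pq.1.Prime ∧ pq.2.Prime ∧
        (t.1 : ℤ) * pq.1 - t.2.1 * pq.2 = t.2.2}.Infinite) ∧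
      ∀ x : ℚ, l.foldr (fun t y => ((t.2.1 : ℚ) * y + t.2.2) / t.1) x = u * x + v) := by
  obtain ⟨m, H, h1, h2, h3, h4⟩ := main hQ
  refine ⟨m, H, h1, h2, h3, fun u v hu => (h4 u v hu).trans ?_⟩
  constructor
  · rintro ⟨l, hl, hP, hx⟩
    choose τ hτ using triple_of_PP
    refine ⟨l.map τ, by simp [hl], ?_, fun x => ?_⟩
    · intro t ht
      obtain ⟨w, hw, rfl⟩ := List.mem_map.1 ht
      exact (hτ w (hP w hw)).1
    · rw [List.foldr_map, ← hx x]
      exact List.foldr_ext _ _ _ fun w hw y => (hτ w (hP w hw)).2 y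
  · rintro ⟨l, hl, hP, hx⟩
    refine ⟨l.map fun t => ((t.2.1 : ℚ) / t.1, (t.2.2 : ℚ) / t.1), by simp [hl], ?_, fun x => ?_⟩
    · intro w hw
      obtain ⟨t, ht, rfl⟩ := List.mem_map.1 hw
      exact PP_of_triple (hP t ht).1 (hP t ht).2.1 (hP t ht).2.2
    · rw [List.foldr_map, ← hx x]
      refine List.foldr_ext _ _ _ fun t _ y => ?_
      simp only
      ring

end Pool.Agent.TH899.UG.Aff
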