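import Mathlib
import Pool.Agent.TH899.UG.PairB4
import Pool.Agent.TH880.GPc
import Pool.Agent.TH880.GPe

/-! Either all lines have syndetic sets of solvable constants, or almost all even numbers are
differences of primes. -/

set_option autoImplicit false

namespace Pool.Agent.TH899.UG.LOD

open Finset Filter Pool.Agent.H732R3.BigQ Pool.Agent.H732R3.DickS Pool.Agent.TH899.UG

/-- the hypotheses of the question hold and `a p - b q = c` has many solutions -/
def Good (a b : ℕ) (c : ℤ) : Prop := c ≠ 0 ∧ IsCoprime (a : ℤ) b ∧ IsCoprime (a : ℤ) c ∧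
  IsCoprime (b : ℤ) c ∧ ¬ (Odd a ∧ Odd b ∧ Odd c) ∧
  Big {q : ℕ | q.Prime ∧ ∃ p : ℕ, p.Prime ∧ (a : ℤ) * p - b * q = c}

/-- `2 k` is the difference of primes many times -/
def Pb (k : ℤ) : Prop := Big {q : ℕ | q.Prime ∧ (((q : ℤ) + 2 * k).toNat).Prime}

/-- a number prime to all primes up to `B` is coprime to every positive `a ≤ B` -/
theorem cop_of (B a : ℕ) (ha : 1 ≤ a) (haB : a ≤ B) (e : ℤ)
    (he : ∀ p : ℕ, p.Prime → p ≤ B → ¬ (p : ℤ) ∣ e) : IsCoprime (a : ℤ) e := by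
  rw [Int.isCoprime_iff_gcd_eq_one]
  by_contra hne
  obtain ⟨p, hp, hpd⟩ := Nat.exists_prime_and_dvd hne
  have h1 : p ∣ a := by
    have h2 : (p : ℤ) ∣ (a : ℤ) := (Int.natCast_dvd_natCast.2 hpd).trans (Int.gcd_dvd_left _ _)
    exact_mod_cast h2
  have h3 : (p : ℤ) ∣ e := (Int.natCast_dvd_natCast.2 hpd).trans (Int.gcd_dvd_right _ _)
  exact he p hp ((Nat.le_of_dvd (by omega) h1).trans haB) h3

/-- the difference of two forms with the same slope -/
theorem same_slope (A : ℕ) (hA : 1 ≤ A) (e e' k : ℤ) (hk : e' = e + 2 * k)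
    (h : Big {n : ℕ | (0 < (A : ℤ) * n + e ∧ Prime ((A : ℤ) * n + e)) ∧
      (0 < (A : ℤ) * n + e' ∧ Prime ((A : ℤ) * n + e'))}) : Pb k := by
  refine Big.affine h A e hA (fun n => ((A : ℤ) * n + e).toNat) ?_ ?_
  · intro n hn
    exact Int.toNat_of_nonneg hn.1.1.le
  · intro n hn
    obtain ⟨⟨h1, h2⟩, h3, h4⟩ := hn
    have h5 : ((((A : ℤ) * n + e).toNat : ℕ) : ℤ) = (A : ℤ) * n + e := Int.toNat_of_nonneg h1.le
    refine ⟨?_, ?_⟩
    · rw [Nat.prime_iff_prime_int, h5]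
      exact h2
    · rw [h5]
      have h6 : (A : ℤ) * n + e + 2 * k = (A : ℤ) * n + e' := by rw [hk]; ring
      rw [h6, Nat.prime_iff_prime_int, Int.toNat_of_nonneg h3.le]
      exact h4

/-- two forms with slopes `a P`, `b P` -/
theorem two_slopes (a b P B : ℕ) (ha : 1 ≤ a) (hb : 1 ≤ b) (hP : 1 ≤ P) (hab : Nat.Coprime a b)
    (hne : ¬ (a = 1 ∧ b = 1)) (haB : a ≤ B) (hbB : b ≤ B) (hB2 : 2 ≤ B) (e e' : ℤ)
    (he : ∀ p : ℕ, p.Prime → p ≤ B → ¬ (p : ℤ) ∣ e)
    (he' : ∀ p : ℕ, p.Prime → p ≤ B → ¬ (p : ℤ) ∣ e')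
    (h : Big {n : ℕ | (0 < ((a * P : ℕ) : ℤ) * n + e ∧ Prime (((a * P : ℕ) : ℤ) * n + e)) ∧
      (0 < ((b * P : ℕ) : ℤ) * n + e' ∧ Prime (((b * P : ℕ) : ℤ) * n + e'))}) :
    Good a b (a * e' - b * e) := by
  have habZ : IsCoprime (a : ℤ) b := Nat.isCoprime_iff_coprime.2 hab
  have hac : IsCoprime (a : ℤ) (a * e' - b * e) := by
    have h1 : IsCoprime (a : ℤ) (-(b * e)) := (habZ.mul_right (cop_of B a ha haB e he)).neg_right
    have h2 := h1.add_mul_left_right e'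
    have h3 : -((b : ℤ) * e) + a * e' = a * e' - b * e := by ring
    rwa [h3] at h2
  have hbc : IsCoprime (b : ℤ) (a * e' - b * e) := by
    have h1 : IsCoprime (b : ℤ) (a * e') := habZ.symm.mul_right (cop_of B b hb hbB e' he')
    have h2 := h1.add_mul_left_right (-e)
    have h3 : (a : ℤ) * e' + b * (-e) = a * e' - b * e := by ring
    rwa [h3] at h2
  refine ⟨?_, habZ, hac, hbc, ?_, ?_⟩
  · intro h0
    rw [h0] at hac hbc
    have h1 : IsUnit (a : ℤ) := isCoprime_zero_right.1 hac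
    have h2 : IsUnit (b : ℤ) := isCoprime_zero_right.1 hbc
    have h3 := Int.isUnit_iff.1 h1
    have h4 := Int.isUnit_iff.1 h2
    exact hne ⟨by omega, by omega⟩
  · rintro ⟨h1, h2, h3⟩
    have ho : Odd e := by
      rcases Int.even_or_odd e with h4 | h4
      · exact absurd h4.two_dvd (by simpa using he 2 Nat.prime_two hB2)
      · exact h4
    have ho' : Odd e' := by
      rcases Int.even_or_odd e' with h4 | h4
      · exact absurd h4.two_dvd (by simpa using he' 2 Nat.prime_two hB2)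
      · exact h4
    have h4 : Odd ((a : ℤ) * e') := ((Int.odd_coe_nat a).2 h1).mul ho'
    have h5 : Odd ((b : ℤ) * e) := ((Int.odd_coe_nat b).2 h2).mul ho
    exact (Int.not_even_iff_odd.2 h3) (h4.sub_odd h5)
  · refine Big.affine h (a * P) e (Nat.mul_pos ha hP)
      (fun n => (((a * P : ℕ) : ℤ) * n + e).toNat) ?_ ?_
    · intro n hn
      exact Int.toNat_of_nonneg hn.1.1.le
    · intro n hn
      obtain ⟨⟨h1, h2⟩, h3, h4⟩ := hn
      have h5 : (((((a * P : ℕ) : ℤ) * n + e).toNat : ℕ) : ℤ) = ((a * P : ℕ) : ℤ) * n + e :=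
        Int.toNat_of_nonneg h1.le
      refine ⟨?_, (((b * P : ℕ) : ℤ) * n + e').toNat, ?_, ?_⟩
      · rw [Nat.prime_iff_prime_int, h5]
        exact h2
      · rw [Nat.prime_iff_prime_int, Int.toNat_of_nonneg h3.le]
        exact h4
      · rw [h5, Int.toNat_of_nonneg h3.le]
        push_cast
        ring

theorem sumset (hQ : FourC) (a b : ℕ) (ha : 1 ≤ a) (hb : 1 ≤ b) (hab : Nat.Coprime a b)
    (hne : ¬ (a = 1 ∧ b = 1))
    (hbad : ∀ C : ℕ, ∃ u : ℤ, ∀ c : ℤ, u ≤ c → c ≤ u + C → ¬ Good a b c) :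
    ∃ K : ℕ, 1 ≤ K ∧ ∀ X Y : Finset ℤ, K ≤ X.card → K ≤ Y.card → (∀ x ∈ X, ∀ y ∈ Y, 0 < x + y) →
      ∃ x ∈ X, ∃ y ∈ Y, Pb (x + y) := by
  classical
  obtain ⟨K, hK, hQ⟩ := hQ
  obtain ⟨B, hB⟩ : ∃ B : ℕ, B = 4 * K + 1 + a + b := ⟨_, rfl⟩
  obtain ⟨P, hP⟩ : ∃ P : ℕ, P = B.factorial := ⟨_, rfl⟩
  have hP0 : 0 < P := by rw [hP]; exact Nat.factorial_pos _
  have hPz : (0 : ℤ) < P := by exact_mod_cast hP0
  refine ⟨P * K, Nat.mul_pos hP0 hK, ?_⟩
  intro X Y hX hY hpos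
  obtain ⟨x₀, x, hxi, hxX, hxa⟩ := Pool.Agent.TH880.GP.one_class P K hP0 X hX
  obtain ⟨y₀, y, hyi, hyY, hyb⟩ := Pool.Agent.TH880.GP.one_class P K hP0 Y hY
  obtain ⟨u, hu⟩ := Pool.Agent.TH880.GP.exists_u B (-(2 * (x₀ + y₀))) ((dvd_mul_right _ _).neg_right)
  -- the two families of constants
  obtain ⟨e, he⟩ : ∃ e : Fin 2 → Fin K → ℤ, e = fun s i =>
    if s = 0 then u - 2 * (x i - x₀) else u + 2 * (y i + x₀) := ⟨_, rfl⟩
  have he0 : ∀ i, e 0 i = u - 2 * (x i - x₀) := fun i => by rw [he]; simp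
  have he1 : ∀ i, e 1 i = u + 2 * (y i + x₀) := fun i => by rw [he]; simp
  have hepr : ∀ s i (p : ℕ), p.Prime → p ≤ B → ¬ (p : ℤ) ∣ e s i := by
    intro s i p hp hpB hd
    have hpP : (p : ℤ) ∣ P := by
      rw [hP]
      exact_mod_cast hp.dvd_factorial.2 hpB
    obtain ⟨hu1, hu2⟩ := hu p hp hpB
    fin_cases s
    · simp only [Fin.zero_eta] at hd
      rw [he0] at hd
      apply hu1
      have h1 := dvd_add hd ((hpP.trans (hxa i)).mul_left 2)
      have h2 : u - 2 * (x i - x₀) + 2 * (x i - x₀) = u := by ring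
      rwa [h2] at h1
    · simp only [Fin.mk_one] at hd
      rw [he1] at hd
      apply hu2
      have h1 := dvd_sub hd ((hpP.trans (hyb i)).mul_left 2)
      have h2 : u + 2 * (y i + x₀) - 2 * (y i - y₀) = u - -(2 * (x₀ + y₀)) := by ring
      rwa [h2] at h1
  -- a bound for the constants
  obtain ⟨M, hM⟩ : ∃ M : ℕ, ∀ s i s' i', |(a : ℤ) * e s i - b * e s' i'| ≤ M := by
    refine ⟨∑ s, ∑ i, ∑ s', ∑ i', ((a : ℤ) * e s i - b * e s' i').natAbs, ?_⟩
    intro s i s' i'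
    rw [Int.abs_eq_natAbs]
    have h1 : ((a : ℤ) * e s i - b * e s' i').natAbs ≤
        ∑ i', ((a : ℤ) * e s i - b * e s' i').natAbs :=
      Finset.single_le_sum (f := fun i' => ((a : ℤ) * e s i - b * e s' i').natAbs)
        (fun _ _ => Nat.zero_le _) (mem_univ i')
    have h2 : ∑ i', ((a : ℤ) * e s i - b * e s' i').natAbs ≤
        ∑ s', ∑ i', ((a : ℤ) * e s i - b * e s' i').natAbs :=
      Finset.single_le_sum (f := fun s' => ∑ i', ((a : ℤ) * e s i - b * e s' i').natAbs)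
        (fun _ _ => Nat.zero_le _) (mem_univ s')
    have h3 : ∑ s', ∑ i', ((a : ℤ) * e s i - b * e s' i').natAbs ≤
        ∑ i, ∑ s', ∑ i', ((a : ℤ) * e s i - b * e s' i').natAbs :=
      Finset.single_le_sum (f := fun i => ∑ s', ∑ i', ((a : ℤ) * e s i - b * e s' i').natAbs)
        (fun _ _ => Nat.zero_le _) (mem_univ i)
    have h4 : ∑ i, ∑ s', ∑ i', ((a : ℤ) * e s i - b * e s' i').natAbs ≤
        ∑ s, ∑ i, ∑ s', ∑ i', ((a : ℤ) * e s i - b * e s' i').natAbs :=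
      Finset.single_le_sum
        (f := fun s => ∑ i, ∑ s', ∑ i', ((a : ℤ) * e s i - b * e s' i').natAbs)
        (fun _ _ => Nat.zero_le _) (mem_univ s)
    exact_mod_cast h1.trans (h2.trans (h3.trans h4))
  obtain ⟨v, hv⟩ := hbad (2 * M + a * P)
  have haPz : (0 : ℤ) < (a : ℤ) * P := by
    have : (0 : ℤ) < a := by exact_mod_cast ha
    positivity
  obtain ⟨t, ht1, ht2⟩ : ∃ t : ℤ, v + M ≤ (a : ℤ) * P * t ∧ (a : ℤ) * P * t ≤ v + M + a * P := by
    refine ⟨(v + M) / ((a : ℤ) * P) + 1, ?_, ?_⟩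
    · have h1 := Int.mul_ediv_add_emod (v + M) ((a : ℤ) * P)
      have h2 := Int.emod_lt_of_pos (v + M) haPz
      linarith
    · have h1 := Int.mul_ediv_add_emod (v + M) ((a : ℤ) * P)
      have h2 := Int.emod_nonneg (v + M) haPz.ne'
      linarith
  -- side and slope of a class
  obtain ⟨sd, hsd⟩ : ∃ sd : Fin 4 → Fin 2, sd = ![0, 1, 0, 1] := ⟨_, rfl⟩
  obtain ⟨sl, hsl⟩ : ∃ sl : Fin 4 → ℕ, sl = ![a, a, b, b] := ⟨_, rfl⟩
  obtain ⟨tt, htt⟩ : ∃ tt : Fin 4 → ℤ, tt = ![0, 0, t, t] := ⟨_, rfl⟩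
  have hslpos : ∀ g, 1 ≤ sl g := by
    intro g
    rw [hsl]
    fin_cases g
    · exact ha
    · exact ha
    · exact hb
    · exact hb
  have hslB : ∀ g, sl g ≤ B := by
    intro g
    rw [hsl, hB]
    fin_cases g
    · show a ≤ _; omega
    · show a ≤ _; omega
    · show b ≤ _; omega
    · show b ≤ _; omega
  have hab' : a ≠ b := by
    intro h
    rw [h] at hab
    rw [Nat.coprime_self] at hab
    exact hne ⟨by omega, hab⟩
  obtain ⟨bb, hbb⟩ : ∃ bb : Fin 4 → Fin K → ℤ, bb = fun g i => e (sd g) i + P * tt g := ⟨_, rfl⟩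
  have hbbpr : ∀ g i (p : ℕ), p.Prime → p ≤ B → ¬ (p : ℤ) ∣ bb g i := by
    intro g i p hp hpB hd
    have hpP : (p : ℤ) ∣ P := by
      rw [hP]
      exact_mod_cast hp.dvd_factorial.2 hpB
    rw [hbb] at hd
    exact hepr (sd g) i p hp hpB ((dvd_add_left (hpP.mul_right _)).1 hd)
  have hee : ∀ s i s' i', e s i = e s' i' → s = s' ∧ i = i' := by
    intro s i s' i' h
    fin_cases s <;> fin_cases s'
    · simp only [Fin.zero_eta] at h
      rw [he0, he0] at h
      exact ⟨rfl, hxi (by linarith)⟩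
    · exfalso
      simp only [Fin.zero_eta, Fin.mk_one] at h
      rw [he0, he1] at h
      have := hpos _ (hxX i) _ (hyY i')
      linarith
    · exfalso
      simp only [Fin.zero_eta, Fin.mk_one] at h
      rw [he0, he1] at h
      have := hpos _ (hxX i') _ (hyY i)
      linarith
    · simp only [Fin.mk_one] at h
      rw [he1, he1] at h
      exact ⟨rfl, hyi (by linarith)⟩
  obtain ⟨S, c, hS, hBig⟩ := hQ (fun g _ => ((sl g * P : ℕ) : ℤ)) bb
    (fun g _ => by exact_mod_cast Nat.mul_pos (hslpos g) hP0)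
    (by
      rintro ⟨g, s⟩ ⟨g', s'⟩ h
      simp only [Prod.mk.injEq] at h
      obtain ⟨h1, h2⟩ := h
      have h3 : sl g = sl g' := by
        have h4 : sl g * P = sl g' * P := by exact_mod_cast h1
        exact Nat.eq_of_mul_eq_mul_right hP0 h4
      rw [hbb] at h2
      simp only at h2
      have h5 : tt g = tt g' := by
        rw [hsl] at h3
        rw [htt]
        fin_cases g <;> fin_cases g' <;> first | rfl | exact absurd h3 hab' | exact absurd h3.symm hab'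
      rw [h5] at h2
      obtain ⟨h6, h7⟩ := hee _ _ _ _ (add_right_cancel h2)
      have h8 : g = g' := by
        rw [hsl] at h3
        rw [hsd] at h6
        fin_cases g <;> fin_cases g' <;>
          first
          | rfl
          | exact absurd h3 hab'
          | exact absurd h3.symm hab'
          | exact absurd h6 (by decide)
      rw [h8, h7])
    (by
      intro p hp
      by_cases hpB : p ≤ B
      · refine ⟨0, fun g i hd => hbbpr g i p hp hpB ?_⟩
        rwa [mul_zero, zero_add] at hd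
      · push Not at hpB
        obtain ⟨z, hz⟩ := exists_avoid (ι := Fin 4 × Fin K) hp (by
          rw [Fintype.card_prod, Fintype.card_fin, Fintype.card_fin]
          omega) (fun w => ((sl w.1 * P : ℕ) : ℤ)) (fun w => bb w.1 w.2) (fun w h => by
            exfalso
            have h1 : p ∣ sl w.1 * P := by exact_mod_cast h
            rcases (Nat.Prime.dvd_mul hp).1 h1 with h2 | h2
            · have h3 := Nat.le_of_dvd (by have := hslpos w.1; omega) h2
              have h4 := hslB w.1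
              omega
            · rw [hP] at h2
              have h3 := (hp.dvd_factorial).1 h2
              omega)
        exact ⟨z, fun g i => hz (g, i)⟩)
  have hS2 : 1 < S.card := by omega
  obtain ⟨g₁, hg₁, g₂, hg₂, hne12⟩ := Finset.one_lt_card.1 hS2
  obtain ⟨g, hg, g', hg', hlt⟩ : ∃ g ∈ S, ∃ g' ∈ S, g < g' := by
    rcases lt_or_gt_of_ne hne12 with h | h
    · exact ⟨g₁, hg₁, g₂, hg₂, h⟩
    · exact ⟨g₂, hg₂, g₁, hg₁, h⟩
  have hpair : Big {n : ℕ | (0 < ((sl g * P : ℕ) : ℤ) * n + bb g (c g) ∧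
      Prime (((sl g * P : ℕ) : ℤ) * n + bb g (c g))) ∧
      (0 < ((sl g' * P : ℕ) : ℤ) * n + bb g' (c g') ∧
      Prime (((sl g' * P : ℕ) : ℤ) * n + bb g' (c g')))} := by
    refine hBig.mono ?_
    intro n hn
    exact ⟨hn g hg, hn g' hg'⟩
  by_cases hss : sl g = sl g'
  · -- the same slope
    have h1 : tt g = tt g' ∧ sd g = 0 ∧ sd g' = 1 := by
      rw [hsl] at hss
      rw [htt, hsd]
      fin_cases g <;> fin_cases g' <;>
        first
        | exact ⟨rfl, rfl, rfl⟩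
        | exact absurd hss hab'
        | exact absurd hss.symm hab'
        | exact absurd hlt (by decide)
    obtain ⟨h2, h3, h4⟩ := h1
    refine ⟨x (c g), hxX _, y (c g'), hyY _, ?_⟩
    rw [← hss] at hpair
    refine same_slope (sl g * P) (Nat.mul_pos (hslpos g) hP0) (bb g (c g)) (bb g' (c g')) _ ?_ hpair
    rw [hbb]
    simp only
    rw [h3, h4, h2, he0, he1]
    ring
  · exfalso
    have h1 : sl g = a ∧ sl g' = b ∧ tt g = 0 ∧ tt g' = t := by
      rw [hsl] at hss ⊢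
      rw [htt]
      fin_cases g <;> fin_cases g' <;>
        first
        | exact ⟨rfl, rfl, rfl, rfl⟩
        | exact absurd rfl hss
        | exact absurd hlt (by decide)
    obtain ⟨h2, h3, h4, h5⟩ := h1
    rw [h2, h3] at hpair
    have hgood := two_slopes a b P B ha hb hP0 hab hne (by omega) (by omega) (by omega)
      (bb g (c g)) (bb g' (c g')) (hbbpr g (c g)) (hbbpr g' (c g')) hpair
    refine hv _ ?_ ?_ hgood
    · rw [hbb]
      simp only
      rw [h4, h5]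
      have h6 := (abs_le.1 (hM (sd g') (c g') (sd g) (c g))).1
      have h7 : (a : ℤ) * (e (sd g') (c g') + P * t) - b * (e (sd g) (c g) + P * 0) =
        (a : ℤ) * P * t + (a * e (sd g') (c g') - b * e (sd g) (c g)) := by ring
      rw [h7]
      linarith
    · rw [hbb]
      simp only
      rw [h4, h5]
      have h6 := (abs_le.1 (hM (sd g') (c g') (sd g) (c g))).2
      have h7 : (a : ℤ) * (e (sd g') (c g') + P * t) - b * (e (sd g) (c g) + P * 0) =
        (a : ℤ) * P * t + (a * e (sd g') (c g') - b * e (sd g) (c g)) := by ring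
      rw [h7]
      push_cast
      linarith

/-- the case of slope one -/
theorem one_one (hQ : FourC) : ∃ C : ℕ, ∀ u : ℤ, ∃ c : ℤ, u ≤ c ∧ c ≤ u + C ∧ Good 1 1 c := by
  obtain ⟨C, hC⟩ := Pool.Agent.TH899.UG.PairB4.slopes hQ (fun _ => 1) (fun _ => le_rfl)
  refine ⟨2 * C, fun u => ?_⟩
  obtain ⟨i, j, -, a, b, c, h1, h2, h3, h4, h5, h6, h7, h8, h9, h10⟩ := hC (u + C)
  have hab : a = b := by simpa using h3
  have ha1 : a = 1 := by
    rw [← hab] at h5
    have := Int.isUnit_iff.1 (isCoprime_self.1 h5)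
    omega
  subst hab
  subst ha1
  rw [abs_le] at h9
  push_cast at h9
  refine ⟨c, by linarith [h9.1], by push_cast; linarith [h9.2], h4, h5, h6, h7, h8, h10⟩

open Classical in
theorem lines_or_differences (hQ : FourC) :
    (∀ a b : ℕ, 1 ≤ a → 1 ≤ b → Nat.Coprime a b →
      ∃ C : ℕ, ∀ u : ℤ, ∃ c : ℤ, u ≤ c ∧ c ≤ u + C ∧ Good a b c) ∨
    (∃ K : ℕ, 1 ≤ K ∧
      (∀ X Y : Finset ℤ, K ≤ X.card → K ≤ Y.card → (∀ x ∈ X, ∀ y ∈ Y, 0 < x + y) →
        ∃ x ∈ X, ∃ y ∈ Y, Pb (x + y)) ∧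
      ∀ u L : ℕ, 1 ≤ L → (((Finset.Ioc u (u + L)).filter (fun k : ℕ => ¬ Pb k)).card : ℝ) ≤
        8 * K * (L : ℝ) ^ (1 - 1 / (K : ℝ))) := by
  by_cases hall : ∀ a b : ℕ, 1 ≤ a → 1 ≤ b → Nat.Coprime a b →
      ∃ C : ℕ, ∀ u : ℤ, ∃ c : ℤ, u ≤ c ∧ c ≤ u + C ∧ Good a b c
  · left; exact hall
  right
  push Not at hall
  obtain ⟨a, b, ha, hb, hab, hbad⟩ := hall
  have hne : ¬ (a = 1 ∧ b = 1) := by
    rintro ⟨rfl, rfl⟩
    obtain ⟨C, hC⟩ := one_one hQ
    obtain ⟨u, hu⟩ := hbad C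
    obtain ⟨c, h1, h2, h3⟩ := hC u
    exact hu c h1 h2 h3
  obtain ⟨K, hK, hP⟩ := sumset hQ a b ha hb hab hne hbad
  refine ⟨K, hK, hP, ?_⟩
  intro u L hL
  set S := (Finset.Ioc u (u + L)).filter (fun k : ℕ => ¬ Pb k) with hS
  have h1 := Pool.Agent.TH880.GP.kst K hK {z : ℤ | 0 < z ∧ ¬ Pb z} (by
    intro X Y hX hY
    by_contra hcon
    push Not at hcon
    obtain ⟨x, hx, y, hy, h⟩ := hP X Y hX hY (fun x hx y hy => (hcon x hx y hy).1)
    exact (hcon x hx y hy).2 h) (u : ℤ) L hL (S.map ⟨fun k : ℕ => (k : ℤ), Nat.cast_injective⟩) (by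
    intro z hz
    rw [Finset.mem_map] at hz
    obtain ⟨k, hk, rfl⟩ := hz
    rw [hS, Finset.mem_filter, Finset.mem_Ioc] at hk
    refine ⟨⟨?_, ?_⟩, ?_, ?_⟩
    · show (0 : ℤ) < ((k : ℕ) : ℤ)
      omega
    · show ¬ Pb ((k : ℕ) : ℤ)
      exact hk.2
    · show (u : ℤ) < ((k : ℕ) : ℤ)
      omega
    · show ((k : ℕ) : ℤ) ≤ (u : ℤ) + L
      omega)
  rwa [Finset.card_map] at h1

end Pool.Agent.TH899.UG.LOD
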