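import Mathlib
import Pool.Agent.TH899.UG.AAP
import Pool.Agent.TH899.UG.Qd
import Pool.Agent.H362R2.CM.Moon

/-! In every finite set of linear forms all of whose 4-tuples are admissible, at least a third of the
pairs, up to a power saving, are simultaneously prime for many values. -/

set_option autoImplicit false

namespace Pool.Agent.TH899.UG

open Finset Pool.Agent.H361R2 Pool.Agent.H362R2.CM
open Pool.Agent.H732R3.BigQ

/-- at least two classes -/
def TwoHit (S : Finset (Fin 4)) : Prop := 2 ≤ S.card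

theorem hitP_four : HitP 4 TwoHit Big := by
  obtain ⟨K, hK, H⟩ := fourC
  exact ⟨K, hK, H⟩

/-- supersaturated Turan theorem for `K_4` -/
theorem turan4 {α : Type} (V : Finset α) (C : α → α → Prop) (hC : ∀ x y, C x y → C y x)
    (hV : 0 < V.card) (δ : ℝ) (hδ : 0 < δ)
    (h : (2 / 3 + δ) * (V.card : ℝ) ^ 2 ≤ ((clq V C 2).card : ℝ)) :
    2 / 3 * δ * (V.card : ℝ) ^ 4 ≤ ((clq V C 4).card : ℝ) := by
  set v : ℝ := (V.card : ℝ) with hv
  have hvp : 0 < v := by rw [hv]; exact_mod_cast hV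
  have m1 : ((clq V C 1).card : ℝ) = v := by rw [card_clq_one]
  have hm2 : 0 < ((clq V C 2).card : ℝ) := lt_of_lt_of_le (by positivity) h
  have s1 : (1 / 3 + 2 * δ) * v * ((clq V C 2).card : ℝ) ≤ ((clq V C 3).card : ℝ) := by
    have := ratio_step (a := ((clq V C 1).card : ℝ)) (b := ((clq V C 2).card : ℝ))
      (c := ((clq V C 3).card : ℝ)) (v := v) (k := 1) (r := 2 / 3 + δ) (by rw [m1]; exact hvp) hm2 hvp
      one_pos (by rw [m1]; nlinarith) (by
        have := moon_moser (V := V) hC 1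
        push_cast at this
        exact this)
    refine le_trans (le_of_eq ?_) this
    ring
  have hm3 : 0 < ((clq V C 3).card : ℝ) := lt_of_lt_of_le (by positivity) s1
  have s2 : (3 * δ) * v * ((clq V C 3).card : ℝ) ≤ ((clq V C 4).card : ℝ) := by
    have := ratio_step (a := ((clq V C 2).card : ℝ)) (b := ((clq V C 3).card : ℝ))
      (c := ((clq V C 4).card : ℝ)) (v := v) (k := 2) (r := 1 / 3 + 2 * δ) hm2 hm3 hvp
      two_pos s1 (by
        have := moon_moser (V := V) hC 2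
        push_cast at this
        exact this)
    refine le_trans (le_of_eq ?_) this
    ring
  have t2 : 2 / 3 * v ^ 2 ≤ ((clq V C 2).card : ℝ) := by nlinarith [sq_nonneg v]
  have t3 : 2 / 9 * v ^ 3 ≤ ((clq V C 3).card : ℝ) := by
    calc 2 / 9 * v ^ 3 = 1 / 3 * v * (2 / 3 * v ^ 2) := by ring
      _ ≤ (1 / 3 + 2 * δ) * v * ((clq V C 2).card : ℝ) := by gcongr; linarith
      _ ≤ _ := s1
  calc 2 / 3 * δ * v ^ 4 = (3 * δ) * v * (2 / 9 * v ^ 3) := by ring
    _ ≤ (3 * δ) * v * ((clq V C 3).card : ℝ) := by gcongr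
    _ ≤ _ := s2

/-- both forms are prime for many `n` -/
def PairBig (f g : ℤ × ℤ) : Prop :=
  Big {n : ℕ | (0 < f.1 * (n : ℤ) + f.2 ∧ Prime (f.1 * (n : ℤ) + f.2)) ∧
    (0 < g.1 * (n : ℤ) + g.2 ∧ Prime (g.1 * (n : ℤ) + g.2))}

theorem PairBig.symm {f g : ℤ × ℤ} (h : PairBig f g) : PairBig g f := by
  refine h.mono ?_
  rintro n ⟨h1, h2⟩
  exact ⟨h2, h1⟩

open Classical in
theorem pairs_third : ∃ C δ : ℝ, 0 < δ ∧ ∀ V : Finset (ℤ × ℤ),
    (∀ f ∈ V, 0 < f.1) → (∀ f : Fin 4 → ℤ × ℤ, (∀ i, f i ∈ V) → Adm f) →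
    1 / 3 * (V.card : ℝ) ^ 2 - C * (V.card : ℝ) ^ (2 - δ) ≤
      (((V ×ˢ V).filter (fun x => PairBig x.1 x.2)).card : ℝ) := by
  obtain ⟨C, δ, hC0, hδ, hδ1, hN⟩ := almost_all_pow 4 TwoHit Big hitP_four
  refine ⟨3 / 2 * (C + 1), δ, hδ, ?_⟩
  intro V hpos hadm
  rcases Nat.eq_zero_or_pos V.card with hV0 | hVpos
  · rw [hV0]
    have h1 : ((0 : ℕ) : ℝ) ^ (2 - δ) = 0 := by
      rw [Nat.cast_zero]
      exact Real.zero_rpow (by linarith)
    rw [h1]
    simp
  have hVpos' : (0 : ℝ) < V.card := by exact_mod_cast hVpos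
  by_contra hcon
  have hcon := not_le.1 hcon
  set Cr : ℤ × ℤ → ℤ × ℤ → Prop := fun f g => ¬ PairBig f g with hCr
  have hCs : ∀ x y, Cr x y → Cr y x := fun x y h h' => h h'.symm
  set v : ℝ := (V.card : ℝ) with hv
  have hpw : v ^ (2 - δ) = v ^ (-δ) * v ^ 2 := by
    have h1 : (2 : ℝ) - δ = -δ + 2 := by ring
    rw [h1, Real.rpow_add hVpos']
    norm_num
  set ε : ℝ := 3 / 2 * (C + 1) * v ^ (-δ) with hε
  have hvδ : 0 < v ^ (-δ) := Real.rpow_pos_of_pos hVpos' _
  have hεpos : 0 < ε := by positivity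
  -- number of bad pairs
  have h2 : ((clq V Cr 2).card : ℝ) = (((V ×ˢ V).filter (fun x => ¬ PairBig x.1 x.2)).card : ℝ) := by
    congr 1
    apply Finset.card_bij (fun f _ => (f 0, f 1))
    · intro f hf
      rw [mem_clq] at hf
      rw [mem_filter, mem_product]
      exact ⟨⟨hf.1 0, hf.1 1⟩, hf.2 0 1 (by decide)⟩
    · intro f _ f' _ h
      simp only [Prod.mk.injEq] at h
      funext i
      fin_cases i
      · exact h.1
      · exact h.2
    · intro x hx
      rw [mem_filter, mem_product] at hx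
      refine ⟨![x.1, x.2], ?_, by simp⟩
      rw [mem_clq]
      constructor
      · intro i
        fin_cases i
        · exact hx.1.1
        · exact hx.1.2
      · intro i j hij
        fin_cases i <;> fin_cases j
        · exact absurd rfl hij
        · exact hx.2
        · exact fun h => hx.2 h.symm
        · exact absurd rfl hij
  have h3 : (((V ×ˢ V).filter (fun x => PairBig x.1 x.2)).card : ℝ) +
      (((V ×ˢ V).filter (fun x => ¬ PairBig x.1 x.2)).card : ℝ) = v ^ 2 := by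
    have h4 := Finset.card_filter_add_card_filter_not (s := V ×ˢ V)
      (fun x : (ℤ × ℤ) × (ℤ × ℤ) => PairBig x.1 x.2)
    rw [card_product] at h4
    rw [pow_two, hv]
    exact_mod_cast h4
  have h5 := turan4 V Cr hCs hVpos ε hεpos (by
    rw [h2, ← hv, hε]
    rw [hpw] at hcon
    nlinarith)
  -- bad tuples
  have h6 := hN V.card hVpos (fun _ => V) (fun _ => hpos) (fun _ => le_rfl)
  have h8 : ((clq V Cr 4).card : ℝ) ≤ C * v ^ (-δ) * v ^ 4 := by
    refine le_trans (Nat.cast_le.2 (card_le_card ?_)) (h6.trans (le_of_eq ?_))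
    · intro f hf
      rw [mem_clq] at hf
      rw [mem_filter, Fintype.mem_piFinset]
      refine ⟨hf.1, hadm f hf.1, ?_⟩
      rintro ⟨S, hS1, hS2⟩
      have hS3 : 1 < S.card := hS1
      obtain ⟨i, hi, j, hj, hij⟩ := Finset.one_lt_card.1 hS3
      apply hf.2 i j hij
      refine hS2.mono ?_
      intro n hn
      exact ⟨hn i hi, hn j hj⟩
    · simp only [Finset.prod_const, Finset.card_univ, Fintype.card_fin]
      rw [hv]
  have h9 : 2 / 3 * ε * v ^ 4 = (C + 1) * v ^ (-δ) * v ^ 4 := by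
    rw [hε]; ring
  have h10 : 0 < v ^ (-δ) * v ^ 4 := by positivity
  rw [← hv] at h5
  nlinarith

end Pool.Agent.TH899.UG
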