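import Mathlib
import Pool.Agent.TH899.UG.UniM

/-! Two of any four linear forms, with clusters, uniformly in the constant terms. -/

set_option autoImplicit false

namespace Pool.Agent.TH899.UG.Pair4

open Finset Filter Topology
open Pool.Agent.TH899.UG.Uni

/-- `p` is a prime and at least `m` primes, `p` itself counted, are at distance at most `C` from `p` -/
def Near (m C p : ℕ) : Prop := p.Prime ∧ m ≤ {x : ℕ | x.Prime ∧ |(x : ℤ) - p| ≤ C}.ncard

theorem near_of {m C : ℕ} {n : ℤ} {α β : ℤ} (E : Finset ℕ) (hE : E.card = m)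
    (hC : ∀ e ∈ E, e ≤ C) (h : ∀ e ∈ E, (α * n + (β + e)).toNat.Prime) (e : ℕ) (he : e ∈ E) :
    Near m C (α * n + (β + e)).toNat := by
  classical
  refine ⟨h e he, ?_⟩
  have hpos : ∀ u ∈ E, (((α * n + (β + u)).toNat : ℕ) : ℤ) = α * n + (β + u) := by
    intro u hu
    apply Int.toNat_of_nonneg
    by_contra hcon
    have h1 := h u hu
    rw [Int.toNat_of_nonpos (by linarith)] at h1
    exact Nat.not_prime_zero h1
  have hfin : {x : ℕ | x.Prime ∧ |(x : ℤ) - ((α * n + (β + e)).toNat : ℕ)| ≤ C}.Finite := by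
    refine (Set.finite_Iic ((α * n + (β + e)).toNat + C)).subset fun x hx => ?_
    have h1 := (abs_le.1 hx.2).2
    rw [Set.mem_Iic]
    omega
  rw [← hE, ← Set.ncard_coe_finset]
  refine Set.ncard_le_ncard_of_injOn (fun u : ℕ => (α * n + (β + u)).toNat) ?_ ?_ hfin
  · intro u hu
    have hu' := mem_coe.1 hu
    refine ⟨h u hu', ?_⟩
    show |(((α * n + (β + u)).toNat : ℕ) : ℤ) - ((α * n + (β + e)).toNat : ℕ)| ≤ C
    rw [hpos u hu', hpos e he]
    have h1 := hC u hu'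
    have h2 := hC e he
    have h3 : (u : ℤ) ≤ C := by exact_mod_cast h1
    have h4 : (e : ℤ) ≤ C := by exact_mod_cast h2
    have h5 : (0 : ℤ) ≤ u := Nat.cast_nonneg _
    have h6 : (0 : ℤ) ≤ e := Nat.cast_nonneg _
    rw [abs_le]
    constructor <;> linarith
  · intro u hu v hv huv
    have h1 := congrArg (fun t : ℕ => (t : ℤ)) huv
    simp only at h1
    rw [hpos u (mem_coe.1 hu), hpos v (mem_coe.1 hv)] at h1
    have h2 : (u : ℤ) = v := by linarith
    exact_mod_cast h2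

open Classical in
/-- two of any four forms, uniformly in the constant terms -/
theorem two_of_four (A m : ℕ) (hm : 1 ≤ m) : ∃ C : ℕ, ∀ η : ℝ, 0 < η → ∀ᶠ N : ℕ in atTop,
    ∀ a b : Fin 4 → ℤ, (∀ i, a i ≠ 0) → (∀ i, |a i| ≤ A) → (∀ i, 4 * |b i| ≤ 5 * (N : ℤ)) →
      Pos1 a b N → ∃ i j : Fin 4, i < j ∧ ∃ e f : ℕ, e ≤ C ∧ f ≤ C ∧
        (N : ℝ) ^ (1 - η) ≤ (((Icc 1 N).filter (fun n : ℕ => (N : ℝ) / 16 ≤ n ∧ (n : ℝ) ≤ N / 2 ∧
          Near m C (a i * n + (b i + e)).toNat ∧ Near m C (a j * n + (b j + f)).toNat)).card : ℝ) := by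
  obtain ⟨c, hc, hc1, H⟩ := uniM
  obtain ⟨C, H⟩ := H 4 1 A m (by norm_num) (by push_cast; linarith)
  refine ⟨C, fun η hη => ?_⟩
  filter_upwards [H η hη] with N hN a b ha hA hb hpos
  obtain ⟨S, E, hS, hE1, hE2, -, hcnt⟩ := hN a b ha hA hb hpos
  obtain ⟨i, hi, j, hj, hij⟩ : ∃ i ∈ S, ∃ j ∈ S, i < j := by
    obtain ⟨i, hi, j, hj, hne⟩ := one_lt_card.1 (by omega : 1 < S.card)
    rcases lt_or_gt_of_ne hne with h | h
    · exact ⟨i, hi, j, hj, h⟩
    · exact ⟨j, hj, i, hi, h⟩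
  have hne : ∀ i ∈ S, (E i).Nonempty := fun i hi => by
    rw [← card_pos, hE2 i hi]
    exact hm
  obtain ⟨e, he⟩ := hne i hi
  obtain ⟨f, hf⟩ := hne j hj
  refine ⟨i, j, hij, e, f, hE1 i e he, hE1 j f hf, hcnt.trans ?_⟩
  rw [Nat.cast_le]
  apply card_le_card
  intro n hn
  rw [mem_filter] at hn ⊢
  refine ⟨hn.1, hn.2.1, hn.2.2.1, ?_, ?_⟩
  · exact near_of (E i) (hE2 i hi) (hE1 i) (hn.2.2.2 i hi) e he
  · exact near_of (E j) (hE2 j hj) (hE1 j) (hn.2.2.2 j hj) f hf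

theorem rpow_mono {x N η : ℝ} (hx : 1 ≤ x) (hxN : x ≤ N) :
    x ^ (1 - η) ≤ N ^ (1 - min η 1) := by
  have h1 : x ^ (1 - η) ≤ x ^ (1 - min η 1) :=
    Real.rpow_le_rpow_of_exponent_le hx (by linarith [min_le_left η 1])
  have h2 : x ^ (1 - min η 1) ≤ N ^ (1 - min η 1) :=
    Real.rpow_le_rpow (by linarith) hxN (by linarith [min_le_right η 1])
  exact h1.trans h2

/-- from the count of `n` to the count of the values of a form -/
theorem count {N B : ℕ} {c : ℝ} {α β : ℤ} (hα : α ≠ 0) (P : ℕ → Prop) (Q : ℕ → Prop)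
    [DecidablePred P]
    (h : c ≤ (((Icc 1 N).filter P).card : ℝ))
    (hP : ∀ n ∈ Icc 1 N, P n → 0 ≤ α * n + β ∧ (α * n + β).toNat ≤ B ∧ Q (α * n + β).toNat) :
    c ≤ ({p : ℕ | p ≤ B ∧ Q p}.ncard : ℝ) := by
  classical
  refine h.trans ?_
  rw [Nat.cast_le, ← Set.ncard_coe_finset]
  have hfin : {p : ℕ | p ≤ B ∧ Q p}.Finite := (Set.finite_Iic B).subset fun p hp => hp.1
  refine Set.ncard_le_ncard_of_injOn (fun n : ℕ => (α * n + β).toNat) ?_ ?_ hfin
  · intro n hn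
    rw [mem_coe, mem_filter] at hn
    exact (hP n hn.1 hn.2).2
  · intro n hn n' hn' hnn
    rw [mem_coe, mem_filter] at hn hn'
    have h1 := congrArg (fun t : ℕ => (t : ℤ)) hnn
    simp only at h1
    rw [Int.toNat_of_nonneg (hP n hn.1 hn.2).1, Int.toNat_of_nonneg (hP n' hn'.1 hn'.2).1] at h1
    have h2 : α * ((n : ℤ)) = α * n' := by linarith
    have h3 := mul_left_cancel₀ hα h2
    exact_mod_cast h3

theorem near_nonneg {m C : ℕ} {z : ℤ} (h : Near m C z.toNat) : 0 ≤ z := by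
  by_contra hcon
  have h1 := h.1
  rw [Int.toNat_of_nonpos (by linarith)] at h1
  exact Nat.not_prime_zero h1

theorem near_mono {m C C' p : ℕ} (hC : C ≤ C') (h : Near m C p) : Near m C' p := by
  refine ⟨h.1, h.2.trans ?_⟩
  have hfin : {x : ℕ | x.Prime ∧ |(x : ℤ) - p| ≤ C'}.Finite := by
    refine (Set.finite_Iic (p + C')).subset fun x hx => ?_
    have h1 := (abs_le.1 hx.2).2
    rw [Set.mem_Iic]
    omega
  refine Set.ncard_le_ncard (fun x hx => ⟨hx.1, hx.2.trans ?_⟩) hfin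
  exact_mod_cast hC

end Pool.Agent.TH899.UG.Pair4
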