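import Mathlib
import Pool.Agent.TH899.UG.Pair4

/-! Three binary equations in bounded gap twin primes. -/

set_option autoImplicit false

namespace Pool.Agent.TH899.UG.Pair4

open Finset Filter Topology
open Pool.Agent.TH899.UG.Uni

theorem tte (m : ℕ) (hm : 1 ≤ m) : ∃ C : ℕ, ∀ η : ℝ, 0 < η → ∀ᶠ N : ℕ in atTop,
    ∃ a ∈ ({(1, 1, 2), (2, -1, 1), (2, 1, 3)} : Set (ℤ × ℤ × ℤ)), ∃ c : ℤ, |c| ≤ C ∧
      (N : ℝ) ^ (1 - η) ≤ ({p : ℕ | p ≤ 2 * N ∧ Near m C p ∧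
        ∃ q : ℕ, Near m C q ∧ a.1 * (p : ℤ) + a.2.1 * (q : ℤ) = a.2.2 * (N : ℤ) + c}.ncard : ℝ) := by
  classical
  obtain ⟨C, H⟩ := two_of_four 2 m hm
  refine ⟨3 * C, fun η hη => ?_⟩
  have htend : Tendsto (fun s : ℕ => (9 * s) / 10 + 1) atTop atTop :=
    tendsto_atTop.2 fun b => by
      filter_upwards [eventually_ge_atTop (10 * b)] with s hs
      omega
  filter_upwards [htend.eventually (H (min (η / 2) 1) (by positivity)),
    eventually_ge_atTop (200 + 20 * C),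
    ((tendsto_rpow_atTop (by positivity : 0 < η / 2)).comp
      tendsto_natCast_atTop_atTop).eventually_ge_atTop 2]
    with s hN hs hs2
  simp only [Function.comp_apply] at hs2
  set N : ℕ := (9 * s) / 10 + 1 with hNdef
  have hN1 : 9 * s ≤ 10 * N := by omega
  have hN2 : 10 * N ≤ 9 * s + 10 := by omega
  have hN1r : (9 : ℝ) * s ≤ 10 * N := by exact_mod_cast hN1
  have hN2r : (10 : ℝ) * N ≤ 9 * s + 10 := by exact_mod_cast hN2
  have hsr : (200 : ℝ) + 20 * C ≤ s := by exact_mod_cast hs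
  have hC0 : (0 : ℝ) ≤ C := Nat.cast_nonneg _
  have hN1z : (9 : ℤ) * s ≤ 10 * N := by exact_mod_cast hN1
  have hs0z : (0 : ℤ) ≤ s := Nat.cast_nonneg _
  have hsz : (200 : ℤ) + 20 * C ≤ s := by exact_mod_cast hs
  obtain ⟨i, j, hij, e, f, he, hf, hcnt⟩ := hN ![1, -1, 2, -2] (fun _ => s) (by
    intro i
    fin_cases i <;> simp) (by
    intro i
    fin_cases i <;> simp) (by
    intro i
    show 4 * |(s : ℤ)| ≤ 5 * N
    rw [abs_of_nonneg hs0z]; linarith) (by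
    intro i y h1 h2
    fin_cases i
    · show (N : ℝ) / 32 ≤ ((1 : ℤ) : ℝ) * y + (((s : ℕ) : ℤ) : ℝ)
      push_cast; linarith
    · show (N : ℝ) / 32 ≤ ((-1 : ℤ) : ℝ) * y + (((s : ℕ) : ℤ) : ℝ)
      push_cast; linarith
    · show (N : ℝ) / 32 ≤ ((2 : ℤ) : ℝ) * y + (((s : ℕ) : ℤ) : ℝ)
      push_cast; linarith
    · show (N : ℝ) / 32 ≤ ((-2 : ℤ) : ℝ) * y + (((s : ℕ) : ℤ) : ℝ)
      push_cast; linarith)
  -- from the power of `N` to the power of `s`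
  have hrp : (s : ℝ) ^ (1 - η) ≤ (N : ℝ) ^ (1 - min (η / 2) 1) := by
    have hs1 : (1 : ℝ) ≤ s := by linarith
    have hs0 : (0 : ℝ) < s := by linarith
    have h1 : (s : ℝ) ^ (1 - η) * 2 ≤ (s : ℝ) ^ (1 - η / 2) := by
      have h2 : (s : ℝ) ^ (1 - η) * (s : ℝ) ^ (η / 2) = (s : ℝ) ^ (1 - η / 2) := by
        rw [← Real.rpow_add hs0]; congr 1; ring
      rw [← h2]
      exact mul_le_mul_of_nonneg_left hs2 (Real.rpow_nonneg hs0.le _)
    have h3 : (s : ℝ) ^ (1 - η / 2) ≤ (s : ℝ) ^ (1 - min (η / 2) 1) :=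
      Real.rpow_le_rpow_of_exponent_le hs1 (by linarith [min_le_left (η / 2) 1])
    have hz0 : 0 ≤ 1 - min (η / 2) 1 := by linarith [min_le_right (η / 2) 1]
    have hz1 : 1 - min (η / 2) 1 ≤ 1 := by
      have : 0 < min (η / 2) 1 := by positivity
      linarith
    have h4 : (s : ℝ) ^ (1 - min (η / 2) 1) ≤ (2 * N : ℝ) ^ (1 - min (η / 2) 1) :=
      Real.rpow_le_rpow hs0.le (by linarith) hz0
    have h5 : (2 * N : ℝ) ^ (1 - min (η / 2) 1) ≤ 2 * (N : ℝ) ^ (1 - min (η / 2) 1) := by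
      rw [Real.mul_rpow (by norm_num) (Nat.cast_nonneg _)]
      apply mul_le_mul_of_nonneg_right _ (Real.rpow_nonneg (Nat.cast_nonneg _) _)
      calc (2 : ℝ) ^ (1 - min (η / 2) 1) ≤ 2 ^ (1 : ℝ) :=
            Real.rpow_le_rpow_of_exponent_le (by norm_num) hz1
        _ = 2 := Real.rpow_one 2
    linarith
  have hcnt' := hrp.trans hcnt
  have he0 : (0 : ℤ) ≤ e := Nat.cast_nonneg _
  have hf0 : (0 : ℤ) ≤ f := Nat.cast_nonneg _
  have heC : (e : ℤ) ≤ C := by exact_mod_cast he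
  have hfC : (f : ℤ) ≤ C := by exact_mod_cast hf
  have hC2 : C ≤ 3 * C := by omega
  have hnb : ∀ n : ℕ, (n : ℝ) ≤ N / 2 → 20 * (n : ℤ) ≤ 9 * s + 10 := by
    intro n hn
    have h1 : 20 * (n : ℝ) ≤ 9 * s + 10 := by linarith
    exact_mod_cast h1
  have key : ∀ (αi αj : ℤ) (n : ℕ), Near m C (αi * n + ((s : ℤ) + e)).toNat →
      Near m C (αj * n + ((s : ℤ) + f)).toNat → 0 ≤ αi * (n : ℤ) + ((s : ℤ) + e) ∧
      0 ≤ αj * (n : ℤ) + ((s : ℤ) + f) ∧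
      Near m (3 * C) (αi * n + ((s : ℤ) + e)).toNat ∧
      Near m (3 * C) (αj * n + ((s : ℤ) + f)).toNat :=
    fun αi αj n h1 h2 =>
      ⟨near_nonneg h1, near_nonneg h2, near_mono hC2 h1, near_mono hC2 h2⟩
  have hn0 : ∀ n : ℕ, (0 : ℤ) ≤ n := fun n => Nat.cast_nonneg _
  fin_cases i <;> fin_cases j <;> first | exact absurd hij (by decide) | skip
  · -- 1, -1 : p + q = 2 s
    refine ⟨(1, 1, 2), by simp, (e : ℤ) + f, ?_, ?_⟩
    · rw [abs_of_nonneg (by linarith)]; push_cast; linarith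
    refine count (α := -1) (β := (s : ℤ) + f) (by norm_num) _
      (fun p => Near m (3 * C) p ∧ ∃ q : ℕ, Near m (3 * C) q ∧
        (1 : ℤ) * (p : ℤ) + 1 * (q : ℤ) = 2 * (s : ℤ) + ((e : ℤ) + f))
      hcnt' ?_
    rintro n - ⟨-, hn2, hn3, hn4⟩
    obtain ⟨k1, k2, k3, k4⟩ := key 1 (-1) n hn3 hn4
    have k5 := hnb n hn2
    have k6 := hn0 n
    refine ⟨k2, ?_, k4, _, k3, ?_⟩
    · omega
    · rw [Int.toNat_of_nonneg k1, Int.toNat_of_nonneg k2]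
      ring
  · -- 1, 2 : 2 p - q = s
    refine ⟨(2, -1, 1), by simp, 2 * (e : ℤ) - f, ?_, ?_⟩
    · rw [abs_le]; push_cast; constructor <;> linarith
    refine count (α := 1) (β := (s : ℤ) + e) (by norm_num) _
      (fun p => Near m (3 * C) p ∧ ∃ q : ℕ, Near m (3 * C) q ∧
        (2 : ℤ) * (p : ℤ) + (-1) * (q : ℤ) = 1 * (s : ℤ) + (2 * (e : ℤ) - f))
      hcnt' ?_
    rintro n - ⟨-, hn2, hn3, hn4⟩
    obtain ⟨k1, k2, k3, k4⟩ := key 1 2 n hn3 hn4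
    have k5 := hnb n hn2
    have k6 := hn0 n
    refine ⟨k1, ?_, k3, _, k4, ?_⟩
    · omega
    · rw [Int.toNat_of_nonneg k1, Int.toNat_of_nonneg k2]
      ring
  · -- 1, -2 : 2 p + q = 3 s
    refine ⟨(2, 1, 3), by simp, 2 * (e : ℤ) + f, ?_, ?_⟩
    · rw [abs_of_nonneg (by linarith)]; push_cast; linarith
    refine count (α := 1) (β := (s : ℤ) + e) (by norm_num) _
      (fun p => Near m (3 * C) p ∧ ∃ q : ℕ, Near m (3 * C) q ∧
        (2 : ℤ) * (p : ℤ) + 1 * (q : ℤ) = 3 * (s : ℤ) + (2 * (e : ℤ) + f))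
      hcnt' ?_
    rintro n - ⟨-, hn2, hn3, hn4⟩
    obtain ⟨k1, k2, k3, k4⟩ := key 1 (-2) n hn3 hn4
    have k5 := hnb n hn2
    have k6 := hn0 n
    refine ⟨k1, ?_, k3, _, k4, ?_⟩
    · omega
    · rw [Int.toNat_of_nonneg k1, Int.toNat_of_nonneg k2]
      ring
  · -- -1, 2 : 2 p + q = 3 s
    refine ⟨(2, 1, 3), by simp, 2 * (e : ℤ) + f, ?_, ?_⟩
    · rw [abs_of_nonneg (by linarith)]; push_cast; linarith
    refine count (α := -1) (β := (s : ℤ) + e) (by norm_num) _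
      (fun p => Near m (3 * C) p ∧ ∃ q : ℕ, Near m (3 * C) q ∧
        (2 : ℤ) * (p : ℤ) + 1 * (q : ℤ) = 3 * (s : ℤ) + (2 * (e : ℤ) + f))
      hcnt' ?_
    rintro n - ⟨-, hn2, hn3, hn4⟩
    obtain ⟨k1, k2, k3, k4⟩ := key (-1) 2 n hn3 hn4
    have k5 := hnb n hn2
    have k6 := hn0 n
    refine ⟨k1, ?_, k3, _, k4, ?_⟩
    · omega
    · rw [Int.toNat_of_nonneg k1, Int.toNat_of_nonneg k2]
      ring
  · -- -1, -2 : 2 p - q = s
    refine ⟨(2, -1, 1), by simp, 2 * (e : ℤ) - f, ?_, ?_⟩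
    · rw [abs_le]; push_cast; constructor <;> linarith
    refine count (α := -1) (β := (s : ℤ) + e) (by norm_num) _
      (fun p => Near m (3 * C) p ∧ ∃ q : ℕ, Near m (3 * C) q ∧
        (2 : ℤ) * (p : ℤ) + (-1) * (q : ℤ) = 1 * (s : ℤ) + (2 * (e : ℤ) - f))
      hcnt' ?_
    rintro n - ⟨-, hn2, hn3, hn4⟩
    obtain ⟨k1, k2, k3, k4⟩ := key (-1) (-2) n hn3 hn4
    have k5 := hnb n hn2
    have k6 := hn0 n
    refine ⟨k1, ?_, k3, _, k4, ?_⟩
    · omega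
    · rw [Int.toNat_of_nonneg k1, Int.toNat_of_nonneg k2]
      ring
  · -- 2, -2 : p + q = 2 s
    refine ⟨(1, 1, 2), by simp, (e : ℤ) + f, ?_, ?_⟩
    · rw [abs_of_nonneg (by linarith)]; push_cast; linarith
    refine count (α := -2) (β := (s : ℤ) + f) (by norm_num) _
      (fun p => Near m (3 * C) p ∧ ∃ q : ℕ, Near m (3 * C) q ∧
        (1 : ℤ) * (p : ℤ) + 1 * (q : ℤ) = 2 * (s : ℤ) + ((e : ℤ) + f))
      hcnt' ?_
    rintro n - ⟨-, hn2, hn3, hn4⟩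
    obtain ⟨k1, k2, k3, k4⟩ := key 2 (-2) n hn3 hn4
    have k5 := hnb n hn2
    have k6 := hn0 n
    refine ⟨k2, ?_, k4, _, k3, ?_⟩
    · omega
    · rw [Int.toNat_of_nonneg k1, Int.toNat_of_nonneg k2]
      ring

end Pool.Agent.TH899.UG.Pair4
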