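import Mathlib
import Pool.Agent.TH899.UG.DN3
import Pool.Agent.TH899.UG.ExW

/-! Positive proportion of the perturbations, with the variable in a narrow window. -/

set_option autoImplicit false

namespace Pool.Agent.TH899.UG.DW

open Finset Filter Topology
open Pool.Agent.TH899.UG.Uni Pool.Agent.TH899.UG.NW
open Pool.Agent.TH899.UG.DN (coll tr tr_card loc cmp lim tr_ge)

open Classical in
/-- the number of the `n`, `c₁ N ≤ n ≤ c₂ N`, at which the forms of `S` are all prime -/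
noncomputable def cnW (c₁ c₂ : ℝ) {T : ℕ} (N : ℕ) (a b : Fin T → ℤ) (S : Finset (Fin T)) : ℕ :=
  ((Icc 1 N).filter (fun n : ℕ => c₁ * N ≤ n ∧ (n : ℝ) ≤ c₂ * N ∧
    ∀ g ∈ S, (a g * n + b g).toNat.Prime)).card

theorem cnW_congr (c₁ c₂ : ℝ) {T : ℕ} (N : ℕ) (a b b' : Fin T → ℤ) (S : Finset (Fin T))
    (h : ∀ g ∈ S, b g = b' g) : cnW c₁ c₂ N a b S = cnW c₁ c₂ N a b' S := by
  classical
  unfold cnW
  congr 1
  apply filter_congr
  intro n _
  refine and_congr_right fun _ => and_congr_right fun _ => ?_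
  constructor
  · intro h1 g hg
    rw [← h g hg]; exact h1 g hg
  · intro h1 g hg
    rw [h g hg]; exact h1 g hg

theorem cnW_mono (c₁ c₂ : ℝ) {T : ℕ} (N : ℕ) (a b : Fin T → ℤ) (S S' : Finset (Fin T))
    (h : S ⊆ S') : cnW c₁ c₂ N a b S' ≤ cnW c₁ c₂ N a b S := by
  classical
  unfold cnW
  apply card_le_card
  intro n hn
  rw [mem_filter] at hn ⊢
  exact ⟨hn.1, hn.2.1, hn.2.2.1, fun g hg => hn.2.2.2 g (h hg)⟩

open Classical in
/-- **one translation** -/
theorem per_tW : ∃ c : ℝ, 0 < c ∧ c < 1 ∧ ∀ c₁ c₂ : ℝ, 1 / 8 ≤ c₁ → c₁ < c₂ → c₂ ≤ 1 / 4 →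
    ∀ T M : ℕ, 1 ≤ T → (4 - c) * M < T →
    ∃ K : ℕ, 1 ≤ K ∧ ∀ ε : ℝ, 0 < ε → ε ≤ 1 → ∃ R : ℕ, 1 ≤ R ∧ ∀ A : ℕ, ∀ η : ℝ, 0 < η →
    ∀ᶠ N : ℕ in atTop, ∀ (a b : Fin T → ℤ) (X : Finset ℕ), X.card = R →
      (∀ g, a g ≠ 0) → (∀ g, |a g| ≤ A) → (∀ g, ∀ x ∈ X, 5 * |b g + x| ≤ 6 * (N : ℤ)) →
      (∀ g, ∀ y : ℝ, (N : ℝ) / 16 ≤ y → y ≤ N / 2 → (N : ℝ) / 30 ≤ a g * y + b g) →
      (∀ p : ℕ, p.Prime → p ≤ T * K + A → ∃ n : ℤ, ∀ g, ∀ x ∈ X,
        ¬ ((p : ℤ) ∣ a g * n + (b g + x))) →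
      (1 - ε) * (R : ℝ) ^ T ≤
        ∑ S ∈ (univ : Finset (Finset (Fin T))).filter (fun S => S.card = M + 1),
        (((Fintype.piFinset (fun _ : Fin T => X)).filter (fun f =>
          (N : ℝ) ^ (1 - η) ≤ cnW c₁ c₂ N a (fun g => b g + f g) S)).card : ℝ) := by
  obtain ⟨c, hc, hc1, H⟩ := exactW
  refine ⟨c, hc, hc1, fun c₁ c₂ hc₁ hc₁₂ hc₂ T M hT hTM => ?_⟩
  obtain ⟨K, hK, H⟩ := H c₁ c₂ hc₁ hc₁₂ hc₂ T M hT hTM
  refine ⟨K, hK, fun ε hε hε1 => ?_⟩
  obtain ⟨C, E, hC, HB⟩ := box_pow K T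
  obtain ⟨R₁, hR₁⟩ := exists_nat_ge (C / (ε / 2) ^ E)
  obtain ⟨R₂, hR₂⟩ := exists_nat_ge (2 * (T : ℝ) ^ 2 / ε)
  set R : ℕ := R₁ + R₂ + 1 with hRd
  have hR1 : 1 ≤ R := by omega
  have hRa : C / (ε / 2) ^ E ≤ (R : ℝ) := by
    refine hR₁.trans ?_
    exact_mod_cast (by omega : R₁ ≤ R)
  have hRb : 2 * (T : ℝ) ^ 2 / ε ≤ (R : ℝ) := by
    refine hR₂.trans ?_
    exact_mod_cast (by omega : R₂ ≤ R)
  refine ⟨R, hR1, fun A η hη => ?_⟩
  filter_upwards [H A η hη] with N hN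
  intro a b X hX ha hA hb hpos hloc
  have hR0 : (0 : ℝ) < R := by exact_mod_cast hR1
  set P := Fintype.piFinset (fun _ : Fin T => X) with hP
  have hPc : (P.card : ℝ) = (R : ℝ) ^ T := by
    rw [hP, Fintype.card_piFinset]
    push_cast
    simp only [hX, prod_const, card_univ, Fintype.card_fin]
  set 𝒮 := (univ : Finset (Finset (Fin T))).filter (fun S => S.card = M + 1) with h𝒮
  -- the functions with a collision
  set Cl := (univ : Finset (Fin T × Fin T)).filter (fun z => z.1 ≠ z.2) with hCl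
  set Bc := Cl.biUnion (fun z => P.filter (fun f => (f z.1 : ℤ) = f z.2 + (b z.2 - b z.1))) with hBc
  have hBcc : (Bc.card : ℝ) ≤ ε / 2 * (R : ℝ) ^ T := by
    have h1 : (Bc.card : ℝ) ≤ ∑ z ∈ Cl, ((P.filter (fun f => (f z.1 : ℤ) =
        f z.2 + (b z.2 - b z.1))).card : ℝ) := by
      rw [hBc]
      exact_mod_cast card_biUnion_le
    have h2 : ∀ z ∈ Cl, ((P.filter (fun f => (f z.1 : ℤ) = f z.2 + (b z.2 - b z.1))).card : ℝ) ≤
        (R : ℝ) ^ T / R := by
      intro z hz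
      have h3 := coll X z.1 z.2 (mem_filter.1 hz).2 (b z.2 - b z.1)
      rw [hX] at h3
      rw [le_div_iff₀ hR0]
      exact_mod_cast h3
    have h3 := h1.trans (sum_le_card_nsmul _ _ _ h2)
    have h4 : (Cl.card : ℝ) ≤ (T : ℝ) ^ 2 := by
      have : Cl.card ≤ T * T := by
        refine (card_le_univ _).trans ?_
        rw [Fintype.card_prod, Fintype.card_fin]
      have h5 : (Cl.card : ℝ) ≤ ((T * T : ℕ) : ℝ) := by exact_mod_cast this
      push_cast at h5
      nlinarith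
    rw [nsmul_eq_mul] at h3
    have h5 : (0 : ℝ) ≤ (R : ℝ) ^ T := by positivity
    have h6 : (Cl.card : ℝ) * ((R : ℝ) ^ T / R) ≤ (T : ℝ) ^ 2 * ((R : ℝ) ^ T / R) :=
      mul_le_mul_of_nonneg_right h4 (by positivity)
    have h7 : (T : ℝ) ^ 2 * ((R : ℝ) ^ T / R) ≤ ε / 2 * (R : ℝ) ^ T := by
      have h8 : (T : ℝ) ^ 2 / R ≤ ε / 2 := by
        rw [div_le_iff₀ hR0]
        rw [div_le_iff₀ hε] at hRb
        linarith
      calc (T : ℝ) ^ 2 * ((R : ℝ) ^ T / R) = (T : ℝ) ^ 2 / R * (R : ℝ) ^ T := by ring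
        _ ≤ _ := mul_le_mul_of_nonneg_right h8 h5
    linarith
  -- the bad functions
  set B := P.filter (fun f => (∀ S ∈ 𝒮, ¬ ((N : ℝ) ^ (1 - η) ≤ cnW c₁ c₂ N a (fun g => b g + f g) S)) ∧
    f ∉ Bc) with hB
  have hBlt : (B.card : ℝ) < ε / 2 * (R : ℝ) ^ T := by
    by_contra hcon
    rw [not_lt] at hcon
    have hprod : ∏ _i : Fin T, (X.card : ℝ) = (R : ℝ) ^ T := by
      simp only [hX, prod_const, card_univ, Fintype.card_fin]
    obtain ⟨Af, hA1, hA2⟩ := HB (ε / 2) (by linarith) (by linarith) ℕ (fun _ : Fin T => X)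
      (fun i => by
        show C / (ε / 2) ^ E ≤ (X.card : ℝ)
        rw [hX]; exact hRa) B
      (filter_subset _ _) (by rw [hprod]; exact hcon)
    have hmem : ∀ g i, Af g i ∈ X := by
      intro g i
      have h1 := hA2 (fun _ => i)
      have h2 := (mem_filter.1 h1).1
      rw [hP, Fintype.mem_piFinset] at h2
      exact h2 g
    obtain ⟨S, σ, hS, hcnt⟩ := hN (fun g _ => a g) (fun g i => b g + Af g i)
      (fun g _ => ha g) (fun g _ => hA g) (fun g i => hb g _ (hmem g i))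
      (fun g i y h1 h2 => by
        have h3 := hpos g y h1 h2
        have h4 : (0 : ℝ) ≤ (Af g i : ℝ) := Nat.cast_nonneg _
        push_cast
        linarith)
      (by
        rintro ⟨g, i⟩ ⟨g', i'⟩ h
        have h2 : b g + (Af g i : ℤ) = b g' + Af g' i' := congrArg Prod.snd h
        by_cases hg : g = g'
        · subst hg
          have h4 : Af g i = Af g i' := by
            have : (Af g i : ℤ) = Af g i' := by linarith
            exact_mod_cast this
          rw [hA1 g h4]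
        · exfalso
          have h5 := hA2 (Function.update (fun _ => i) g' i')
          have h6 := (mem_filter.1 h5).2.2
          apply h6
          refine mem_biUnion.2 ⟨(g, g'), mem_filter.2 ⟨mem_univ _, hg⟩,
            mem_filter.2 ⟨(mem_filter.1 h5).1, ?_⟩⟩
          simp only [Function.update_self, Function.update_of_ne hg]
          linarith)
      (by
        intro p hp
        by_cases hpn : p ≤ T * K + A
        · obtain ⟨n, hn⟩ := hloc p hp hpn
          exact ⟨n, fun g i => hn g _ (hmem g i)⟩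
        · haveI := Fact.mk hp
          have hal : ∀ g, ((a g : ℤ) : ZMod p) ≠ 0 := by
            intro g h
            rw [ZMod.intCast_zmod_eq_zero_iff_dvd] at h
            have h1 := Int.le_of_dvd (abs_pos.2 (ha g)) ((dvd_abs _ _).2 h)
            have h2 := hA g
            omega
          let f : Fin T × Fin K → ZMod p := fun x =>
            - ((b x.1 + Af x.1 x.2 : ℤ) : ZMod p) / ((a x.1 : ℤ) : ZMod p)
          have hcard : (univ.image f).card < (univ : Finset (ZMod p)).card := by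
            rw [card_univ, ZMod.card]
            have h2 : (univ.image f).card ≤ T * K := by
              refine card_image_le.trans ?_
              rw [card_univ, Fintype.card_prod, Fintype.card_fin, Fintype.card_fin]
            omega
          obtain ⟨w, -, hw⟩ := Finset.exists_mem_notMem_of_card_lt_card hcard
          refine ⟨(w.val : ℤ), fun g i hd => hw (mem_image.2 ⟨(g, i), mem_univ _, ?_⟩)⟩
          rw [← ZMod.intCast_zmod_eq_zero_iff_dvd] at hd
          push_cast at hd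
          rw [ZMod.natCast_zmod_val] at hd
          show - ((b g + Af g i : ℤ) : ZMod p) / ((a g : ℤ) : ZMod p) = w
          rw [div_eq_iff (hal _)]
          push_cast
          linear_combination -hd)
    have h1 := hA2 σ
    obtain ⟨h2, h3, -⟩ := mem_filter.1 h1
    obtain ⟨S', hS', hS'c⟩ := exists_subset_card_eq hS
    apply h3 S' (mem_filter.2 ⟨mem_univ _, hS'c⟩)
    refine le_trans hcnt ?_
    rw [Nat.cast_le]
    exact cnW_mono c₁ c₂ N a (fun g => b g + (Af g (σ g) : ℤ)) S' S hS'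
  have hcov : P ⊆ (B ∪ Bc) ∪ 𝒮.biUnion (fun S => P.filter (fun f =>
      (N : ℝ) ^ (1 - η) ≤ cnW c₁ c₂ N a (fun g => b g + f g) S)) := by
    intro f hf
    by_cases h1 : f ∈ Bc
    · exact mem_union_left _ (mem_union_right _ h1)
    by_cases h2 : f ∈ B
    · exact mem_union_left _ (mem_union_left _ h2)
    · refine mem_union_right _ ?_
      rw [hB, mem_filter, not_and, not_and] at h2
      have h3 := h2 hf
      have h4 : ¬ (∀ S ∈ 𝒮, ¬ ((N : ℝ) ^ (1 - η) ≤ cnW c₁ c₂ N a (fun g => b g + f g) S)) :=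
        fun h => h3 h h1
      push Not at h4
      obtain ⟨S, hS, h5⟩ := h4
      exact mem_biUnion.2 ⟨S, hS, mem_filter.2 ⟨hf, h5⟩⟩
  have h1 : (P.card : ℝ) ≤ (B.card : ℝ) + Bc.card + ∑ S ∈ 𝒮, ((P.filter (fun f =>
      (N : ℝ) ^ (1 - η) ≤ cnW c₁ c₂ N a (fun g => b g + f g) S)).card : ℝ) := by
    have h2 := card_le_card hcov
    have h3 := card_union_le (B ∪ Bc) (𝒮.biUnion (fun S => P.filter (fun f =>
      (N : ℝ) ^ (1 - η) ≤ cnW c₁ c₂ N a (fun g => b g + f g) S)))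
    have h4 := card_union_le B Bc
    have h5 : (𝒮.biUnion (fun S => P.filter (fun f =>
      (N : ℝ) ^ (1 - η) ≤ cnW c₁ c₂ N a (fun g => b g + f g) S))).card ≤ ∑ S ∈ 𝒮, (P.filter (fun f =>
      (N : ℝ) ^ (1 - η) ≤ cnW c₁ c₂ N a (fun g => b g + f g) S)).card := card_biUnion_le
    have h6 : P.card ≤ B.card + Bc.card + ∑ S ∈ 𝒮, (P.filter (fun f =>
      (N : ℝ) ^ (1 - η) ≤ cnW c₁ c₂ N a (fun g => b g + f g) S)).card := by omega
    exact_mod_cast h6
  rw [hPc] at h1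
  linarith

open Classical in
/-- the good perturbations of the forms of `S`, all smaller than `H` (and zero off `S`) -/
noncomputable def GW (c₁ c₂ : ℝ) {T : ℕ} (N H : ℕ) (η : ℝ) (a b : Fin T → ℤ) (S : Finset (Fin T)) :
    Finset (Fin T → ℕ) :=
  (Fintype.piFinset (fun g => if g ∈ S then range H else {0})).filter
    (fun e => (N : ℝ) ^ (1 - η) ≤ cnW c₁ c₂ N a (fun g => b g + e g) S)

open Classical in
/-- the average over the translations for one set of classes -/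
theorem sumTW (c₁ c₂ : ℝ) {T : ℕ} (N H : ℕ) (η : ℝ) (a b : Fin T → ℤ) (X : Finset ℕ) (𝒯 : Fin T → Finset ℕ)
    (S : Finset (Fin T)) (hD : ∀ g, ∀ t ∈ 𝒯 g, ∀ x ∈ X, t + x < H) :
    ∑ t ∈ Fintype.piFinset 𝒯, ((Fintype.piFinset (fun _ : Fin T => X)).filter (fun f =>
        (N : ℝ) ^ (1 - η) ≤ cnW c₁ c₂ N a (fun g => (b g + t g) + f g) S)).card ≤
      X.card ^ T * ((GW c₁ c₂ N H η a b S).card * ∏ g ∈ univ \ S, (𝒯 g).card) := by
  have h1 : ∑ t ∈ Fintype.piFinset 𝒯, ((Fintype.piFinset (fun _ : Fin T => X)).filter (fun f =>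
        (N : ℝ) ^ (1 - η) ≤ cnW c₁ c₂ N a (fun g => (b g + t g) + f g) S)).card =
      ∑ f ∈ Fintype.piFinset (fun _ : Fin T => X), ((Fintype.piFinset 𝒯).filter (fun t =>
        (N : ℝ) ^ (1 - η) ≤ cnW c₁ c₂ N a (fun g => (b g + t g) + f g) S)).card := by
    simp only [card_filter]
    exact Finset.sum_comm
  rw [h1]
  have hc : (Fintype.piFinset (fun _ : Fin T => X)).card = X.card ^ T := by
    rw [Fintype.card_piFinset]
    simp only [prod_const, card_univ, Fintype.card_fin]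
  rw [← hc, ← smul_eq_mul]
  refine sum_le_card_nsmul _ _ _ fun f hf => ?_
  rw [Fintype.mem_piFinset] at hf
  have h2 : (Fintype.piFinset (fun g => if g ∈ S then ({0} : Finset ℕ) else 𝒯 g)).card =
      ∏ g ∈ univ \ S, (𝒯 g).card := by
    rw [Fintype.card_piFinset, ← Finset.prod_sdiff (Finset.subset_univ S)]
    have e1 : ∏ g ∈ S, (if g ∈ S then ({0} : Finset ℕ) else 𝒯 g).card = 1 := by
      refine prod_eq_one fun g hg => ?_
      rw [if_pos hg, card_singleton]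
    rw [e1, mul_one]
    refine prod_congr rfl fun g hg => ?_
    rw [if_neg (mem_sdiff.1 hg).2]
  rw [← h2, ← card_product]
  refine card_le_card_of_injOn (fun t => ((fun g => if g ∈ S then t g + f g else 0),
    (fun g => if g ∈ S then 0 else t g))) ?_ ?_
  · intro t ht
    obtain ⟨h3, h4⟩ := mem_filter.1 (mem_coe.1 ht)
    rw [Fintype.mem_piFinset] at h3
    refine mem_coe.2 (mem_product.2 ⟨mem_filter.2 ⟨Fintype.mem_piFinset.2 fun g => ?_, ?_⟩,
      Fintype.mem_piFinset.2 fun g => ?_⟩)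
    · by_cases hg : g ∈ S
      · rw [if_pos hg]
        show (if g ∈ S then t g + f g else 0) ∈ range H
        rw [if_pos hg]
        exact mem_range.2 (hD g _ (h3 g) _ (hf g))
      · rw [if_neg hg]
        show (if g ∈ S then t g + f g else 0) ∈ ({0} : Finset ℕ)
        rw [if_neg hg]
        exact mem_singleton_self _
    · refine h4.trans ?_
      rw [Nat.cast_le]
      refine le_of_eq (cnW_congr _ _ _ _ _ _ _ fun g hg => ?_)
      show b g + t g + f g = b g + (((if g ∈ S then t g + f g else 0 : ℕ)) : ℤ)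
      rw [if_pos hg]
      push_cast
      ring
    · by_cases hg : g ∈ S
      · rw [if_pos hg]
        show (if g ∈ S then 0 else t g) ∈ ({0} : Finset ℕ)
        rw [if_pos hg]
        exact mem_singleton_self _
      · rw [if_neg hg]
        show (if g ∈ S then 0 else t g) ∈ 𝒯 g
        rw [if_neg hg]
        exact h3 g
  · intro t _ t' _ htt
    have e1 : ∀ g, (if g ∈ S then t g + f g else 0) = (if g ∈ S then t' g + f g else 0) :=
      fun g => congrFun (congrArg Prod.fst htt) g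
    have e2 : ∀ g, (if g ∈ S then 0 else t g) = (if g ∈ S then 0 else t' g) :=
      fun g => congrFun (congrArg Prod.snd htt) g
    funext g
    by_cases hg : g ∈ S
    · have := e1 g
      rw [if_pos hg, if_pos hg] at this
      omega
    · have := e2 g
      rwa [if_neg hg, if_neg hg] at this

open Classical in
/-- **Main theorem.** -/
theorem densW : ∃ c : ℝ, 0 < c ∧ c < 1 ∧ ∀ c₁ c₂ : ℝ, 1 / 8 ≤ c₁ → c₁ < c₂ → c₂ ≤ 1 / 4 →
    ∀ T M : ℕ, 1 ≤ T → (4 - c) * M < T →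
    ∀ A P : ℕ, 0 < P → (∀ p : ℕ, p.Prime → p ≤ T → p ∣ P) → ∀ δ : ℝ, 0 < δ →
    δ * (T.choose (M + 1) : ℝ) * (P : ℝ) ^ (M + 1) < (P.totient : ℝ) ^ (M + 1) →
    ∃ C : ℕ, ∀ η : ℝ, 0 < η → ∀ᶠ N : ℕ in atTop, ∀ H : ℕ, C ≤ H → C * H ≤ N →
    ∀ a b : Fin T → ℤ, (∀ g, a g ≠ 0) → (∀ g, |a g| ≤ A) →
      (∀ g, ∀ p : ℕ, p.Prime → (p : ℤ) ∣ a g → p ∣ P) → (∀ g, 10 * |b g| ≤ 11 * (N : ℤ)) →
      (∀ g, ∀ y : ℝ, (N : ℝ) / 16 ≤ y → y ≤ N / 2 → (N : ℝ) / 30 ≤ a g * y + b g) →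
      ∃ S : Finset (Fin T), S.card = M + 1 ∧ δ * (H : ℝ) ^ (M + 1) ≤ (GW c₁ c₂ N H η a b S).card := by
  obtain ⟨c, hc, hc1, HP⟩ := per_tW
  refine ⟨c, hc, hc1, fun c₁ c₂ hc₁ hc₁₂ hc₂ T M hT hTM A P hP0 hP δ hδ hδ1 => ?_⟩
  obtain ⟨K, hK, HP⟩ := HP c₁ c₂ hc₁ hc₁₂ hc₂ T M hT hTM
  have hPr : (0 : ℝ) < P := by exact_mod_cast hP0
  have hφ : (0 : ℝ) < P.totient := by exact_mod_cast Nat.totient_pos.2 hP0
  obtain ⟨u, hu⟩ : ∃ u : ℝ, u = (P.totient : ℝ) / P := ⟨_, rfl⟩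
  have hu0 : 0 < u := by rw [hu]; exact div_pos hφ hPr
  obtain ⟨κ, hκ⟩ : ∃ κ : ℝ, κ = δ * (T.choose (M + 1) : ℝ) := ⟨_, rfl⟩
  have hκ0 : 0 ≤ κ := by rw [hκ]; positivity
  have hκu : κ * (1 / u) ^ (M + 1) < 1 := by
    have h1 : (1 / u) ^ (M + 1) = (P : ℝ) ^ (M + 1) / (P.totient : ℝ) ^ (M + 1) := by
      rw [hu, one_div_div, div_pow]
    rw [h1, ← mul_div_assoc, div_lt_one (by positivity), hκ]
    exact hδ1
  obtain ⟨ε, hε⟩ : ∃ ε : ℝ, ε = (1 - κ * (1 / u) ^ (M + 1)) / 2 := ⟨_, rfl⟩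
  have hε0 : 0 < ε := by rw [hε]; linarith
  have hκu0 : 0 ≤ κ * (1 / u) ^ (M + 1) := by positivity
  have hε1 : ε ≤ 1 := by rw [hε]; linarith
  obtain ⟨R, hR1, HP⟩ := HP ε hε0 hε1
  obtain ⟨W, hWd⟩ : ∃ W : ℕ, W = P * (T * K + A + 1).factorial := ⟨_, rfl⟩
  have hW0 : 0 < W := by rw [hWd]; exact Nat.mul_pos hP0 (Nat.factorial_pos _)
  obtain ⟨D, hD⟩ : ∃ D : ℕ, D = W * R := ⟨_, rfl⟩
  obtain ⟨H₀, hH₀⟩ := lim u κ ((D : ℝ) + P) ε M hu0 (by rw [hε]; linarith)
  obtain ⟨H₁, hH₁⟩ := exists_nat_gt ((((D : ℝ) + P) + 1) / u)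
  obtain ⟨X, hX⟩ : ∃ X : Finset ℕ, X = (range R).image (fun i => W * i) := ⟨_, rfl⟩
  have hXc : X.card = R := by
    rw [hX, card_image_of_injective _ (fun a b h => Nat.eq_of_mul_eq_mul_left hW0 h), card_range]
  have hXW : ∀ x ∈ X, W ∣ x := by
    intro x hx
    rw [hX] at hx
    obtain ⟨i, -, rfl⟩ := mem_image.1 hx
    exact dvd_mul_right _ _
  have hXb : ∀ x ∈ X, x ≤ D := by
    intro x hx
    rw [hX] at hx
    obtain ⟨i, hi, rfl⟩ := mem_image.1 hx
    rw [hD]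
    exact Nat.mul_le_mul_left _ (mem_range.1 hi).le
  have hpW : ∀ p : ℕ, p.Prime → p ≤ T * K + A → p ∣ W := by
    intro p hp hpK
    rw [hWd]
    exact (hp.dvd_factorial.2 (by omega)).trans (dvd_mul_left _ _)
  clear hWd hX
  refine ⟨H₀ + H₁ + 60, fun η hη => ?_⟩
  filter_upwards [HP A η hη] with N hN
  intro H hCH hHN a b ha hA haP hb hpos
  have hH0 := hH₀ H (by omega)
  have hH1 : (((D : ℝ) + P) + 1) / u < H :=
    hH₁.trans_le (by exact_mod_cast (by omega : H₁ ≤ H))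
  have hρ : 0 < u * (H : ℝ) - (D + P) := by
    rw [div_lt_iff₀ hu0] at hH1
    linarith
  have h60 : 60 * H ≤ N := by
    have h1 : 60 * H ≤ (H₀ + H₁ + 60) * H := Nat.mul_le_mul_right _ (by omega)
    omega
  have h60z : (60 : ℤ) * H ≤ N := by exact_mod_cast h60
  by_contra hcon
  push Not at hcon
  have hDt : ∀ g, ∀ t ∈ tr P (H - D) (b g), ∀ x ∈ X, t + x < H := by
    intro g t ht x hx
    have h1 := mem_range.1 (mem_filter.1 ht).1
    have h2 := hXb x hx
    omega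
  have hone : ∀ t ∈ Fintype.piFinset (fun g => tr P (H - D) (b g)), (1 - ε) * (R : ℝ) ^ T ≤
      ∑ S ∈ (univ : Finset (Finset (Fin T))).filter (fun S => S.card = M + 1),
      (((Fintype.piFinset (fun _ : Fin T => X)).filter (fun f =>
        (N : ℝ) ^ (1 - η) ≤ cnW c₁ c₂ N a (fun g => (b g + t g) + f g) S)).card : ℝ) := by
    intro t ht
    rw [Fintype.mem_piFinset] at ht
    refine hN a (fun g => b g + t g) X hXc ha hA ?_ ?_ ?_
    · intro g x hx
      have h1 := hDt g _ (ht g) x hx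
      have h2 := hb g
      have h3 : |b g + (t g : ℤ) + x| ≤ |b g| + (t g + x) := by
        rw [add_assoc]
        refine (abs_add_le _ _).trans ?_
        rw [abs_of_nonneg (by positivity : (0 : ℤ) ≤ (t g : ℤ) + x)]
      have h4 : ((t g : ℤ) + x) ≤ H := by exact_mod_cast h1.le
      show 5 * |b g + (t g : ℤ) + x| ≤ 6 * (N : ℤ)
      linarith
    · intro g y h1 h2
      have h3 := hpos g y h1 h2
      have h4 : (0 : ℝ) ≤ (t g : ℝ) := Nat.cast_nonneg _
      push_cast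
      linarith
    · intro p hp hpK
      exact loc P W hP a (fun g => b g + t g) haP (fun g => (mem_filter.1 (ht g)).2) X hXW p hp
        (hpW p hp hpK)
  have hsum : (∏ g, ((tr P (H - D) (b g)).card : ℝ)) * ((1 - ε) * (R : ℝ) ^ T) ≤
      ∑ S ∈ (univ : Finset (Finset (Fin T))).filter (fun S => S.card = M + 1),
        (R : ℝ) ^ T * (((GW c₁ c₂ N H η a b S).card : ℝ) *
          ∏ g ∈ univ \ S, ((tr P (H - D) (b g)).card : ℝ)) := by
    have h1 := card_nsmul_le_sum (Fintype.piFinset (fun g => tr P (H - D) (b g))) _ _ hone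
    rw [Fintype.card_piFinset, nsmul_eq_mul, Finset.sum_comm] at h1
    have e1 : ((∏ g, (tr P (H - D) (b g)).card : ℕ) : ℝ) =
        ∏ g, ((tr P (H - D) (b g)).card : ℝ) := by push_cast; rfl
    rw [e1] at h1
    refine h1.trans (sum_le_sum fun S _ => ?_)
    have h2 := sumTW c₁ c₂ N H η a b X (fun g => tr P (H - D) (b g)) S hDt
    rw [hXc] at h2
    have h3 := (Nat.cast_le (α := ℝ)).2 h2
    push_cast at h3
    exact h3
  have h𝒮c : ((((univ : Finset (Finset (Fin T))).filter (fun S => S.card = M + 1)).card : ℕ) : ℝ) =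
      (T.choose (M + 1) : ℝ) := by
    have h1 : (univ : Finset (Finset (Fin T))).filter (fun S => S.card = M + 1) =
        (univ : Finset (Fin T)).powersetCard (M + 1) := by
      ext S
      simp [mem_powersetCard]
    rw [h1, card_powersetCard, card_univ, Fintype.card_fin]
  have hRpos : (0 : ℝ) < (R : ℝ) ^ T := by
    have : (0 : ℝ) < R := by exact_mod_cast hR1
    positivity
  have hfin := cmp M ((univ : Finset (Finset (Fin T))).filter (fun S => S.card = M + 1))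
    (fun S hS => (mem_filter.1 hS).2) (fun g => ((tr P (H - D) (b g)).card : ℝ))
    (u * (H : ℝ) - (D + P)) H δ ε ((R : ℝ) ^ T) (fun S => ((GW c₁ c₂ N H η a b S).card : ℝ)) hρ
    (fun g => by
      have := tr_ge P D H hP0 (b g)
      rw [hu]
      exact this) hδ.le (Nat.cast_nonneg _) hRpos
    (fun S hS => (hcon S (mem_filter.1 hS).2).le) hsum
  rw [h𝒮c] at hfin
  have e : (T.choose (M + 1) : ℝ) * (δ * ((H : ℝ) / (u * H - (D + P))) ^ (M + 1)) =
      κ * ((H : ℝ) / (u * H - (D + P))) ^ (M + 1) := by rw [hκ]; ring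
  rw [e] at hfin
  linarith

end Pool.Agent.TH899.UG.DW
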