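import Mathlib
import Pool.Agent.TH899.UG.Qc

/-! Binary equations in primes for every large `N`, one for each pair of four slopes. -/

set_option autoImplicit false

namespace Pool.Agent.TH899.UG.E4

open Finset Filter Topology
open Pool.Agent.W25.UN
open Pool.Agent.H410R2 (WW)

section
variable (s : Fin 4 → ℤ) (K : ℕ)

def cl (i : Fin (4 * K)) : Fin 4 := (finProdFinEquiv.symm i).1

def sx (i : Fin (4 * K)) : Fin K := (finProdFinEquiv.symm i).2

theorem ext_cl {i j : Fin (4 * K)} (h1 : cl K i = cl K j) (h2 : sx K i = sx K j) : i = j :=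
  finProdFinEquiv.symm.injective (Prod.ext h1 h2)

open Classical in
theorem card_cl (g : Fin 4) : (univ.filter (fun i => cl K i = g)).card = K := by
  have h : univ.filter (fun i => cl K i = g) =
      (univ : Finset (Fin K)).image (fun s => finProdFinEquiv (g, s)) := by
    ext i
    simp only [mem_filter, mem_univ, true_and, mem_image]
    constructor
    · intro h
      refine ⟨sx K i, ?_⟩
      rw [← h]
      exact finProdFinEquiv.apply_symm_apply i
    · rintro ⟨s, rfl⟩
      unfold cl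
      rw [Equiv.symm_apply_apply]
  rw [h, card_image_of_injective, card_univ, Fintype.card_fin]
  intro s t hst
  have := finProdFinEquiv.injective hst
  exact (Prod.ext_iff.1 this).2

/-- the size of the slopes -/
def A0 : ℕ := ∑ g, (s g).natAbs

theorem abs_le_A0 (g : Fin 4) : |s g| ≤ A0 s := by
  have h : (s g).natAbs ≤ A0 s :=
    Finset.single_le_sum (f := fun g => (s g).natAbs) (fun _ _ => Nat.zero_le _) (mem_univ g)
  rw [Int.abs_eq_natAbs]
  exact_mod_cast h

/-- the modulus -/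
def W0 : ℕ := (4 * K + 2 + A0 s).factorial

theorem W0_pos : 0 < W0 s K := Nat.factorial_pos _

def al (i : Fin (4 * K)) : ℤ := s (cl K i)

def hh (r : ℕ) (i : Fin (4 * K)) : ℤ :=
  (1 - al s K i - r) % (W0 s K : ℤ) + (W0 s K : ℤ) * ((sx K i : ℕ) : ℤ)

theorem hh_nonneg (r : ℕ) (i : Fin (4 * K)) : 0 ≤ hh s K r i := by
  have h0 : (0 : ℤ) < W0 s K := by exact_mod_cast W0_pos s K
  have h1 := Int.emod_nonneg (1 - al s K i - r) h0.ne'
  unfold hh
  positivity

theorem hh_le (r : ℕ) (i : Fin (4 * K)) : hh s K r i ≤ (W0 s K : ℤ) * K := by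
  have h0 : (0 : ℤ) < W0 s K := by exact_mod_cast W0_pos s K
  have h1 := Int.emod_lt_of_pos (1 - al s K i - r) h0
  have h2 : ((sx K i : ℕ) : ℤ) + 1 ≤ K := by exact_mod_cast (sx K i).2
  unfold hh
  nlinarith

theorem hh_inj (hsi : Function.Injective s) (r : ℕ) (i j : Fin (4 * K)) (hij : i ≠ j) :
    ¬ (al s K i = al s K j ∧ hh s K r i = hh s K r j) := by
  rintro ⟨h1, h2⟩
  apply hij
  have h0 : (0 : ℤ) < W0 s K := by exact_mod_cast W0_pos s K
  refine ext_cl K (hsi h1) ?_
  unfold hh at h2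
  rw [h1] at h2
  have h3 : (W0 s K : ℤ) * ((sx K i : ℕ) : ℤ) = (W0 s K : ℤ) * ((sx K j : ℕ) : ℤ) := by linarith
  have h4 := mul_left_cancel₀ h0.ne' h3
  exact Fin.ext (by exact_mod_cast h4)

theorem adm (hs0 : ∀ g, s g ≠ 0) (N r : ℕ) (hr : N % W0 s K = r) (p : ℕ) (hp : p.Prime) :
    ∃ n : ℤ, ¬ (p : ℤ) ∣ n ∧ ∀ i, ¬ (p : ℤ) ∣ Fm (al s K) (hh s K r) N i n := by
  by_cases hpK : p ≤ 4 * K + 2 + A0 s
  · have hpW : (p : ℤ) ∣ W0 s K := by exact_mod_cast hp.dvd_factorial.2 hpK
    have hp1 : ¬ (p : ℤ) ∣ 1 := by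
      intro h
      have : p ∣ 1 := by exact_mod_cast h
      exact hp.one_lt.ne' (Nat.dvd_one.1 this)
    refine ⟨1, hp1, fun i hi => hp1 ?_⟩
    unfold Fm hh at hi
    have h1 : (W0 s K : ℤ) ∣ (N : ℤ) - r := by
      rw [← hr]
      push_cast
      exact Int.dvd_self_sub_emod
    have h2 : (W0 s K : ℤ) ∣ (1 - al s K i - r) - (1 - al s K i - r) % (W0 s K : ℤ) :=
      Int.dvd_self_sub_emod
    have h3 : (1 : ℤ) = (N + al s K i * 1 + ((1 - al s K i - r) % (W0 s K : ℤ) +
        (W0 s K : ℤ) * ((sx K i : ℕ) : ℤ))) - ((N : ℤ) - r) +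
        ((1 - al s K i - r) - (1 - al s K i - r) % (W0 s K : ℤ)) -
        (W0 s K : ℤ) * ((sx K i : ℕ) : ℤ) := by ring
    rw [h3]
    exact dvd_sub (dvd_add (dvd_sub hi (hpW.trans h1)) (hpW.trans h2)) (hpW.mul_right _)
  · haveI := Fact.mk hp
    have hal : ∀ i, ((al s K i : ℤ) : ZMod p) ≠ 0 := by
      intro i h
      rw [ZMod.intCast_zmod_eq_zero_iff_dvd] at h
      have h1 : (p : ℤ) ≤ |al s K i| :=
        Int.le_of_dvd (abs_pos.2 (hs0 (cl K i))) ((dvd_abs _ _).2 h)
      have h2 : |al s K i| ≤ A0 s := abs_le_A0 s (cl K i)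
      have h3 := i.2
      omega
    let b : Fin (4 * K) → ZMod p := fun i => - ((N : ZMod p) + ((hh s K r i : ℤ) : ZMod p)) /
      ((al s K i : ℤ) : ZMod p)
    have hcard : (insert (0 : ZMod p) (univ.image b)).card < (univ : Finset (ZMod p)).card := by
      rw [card_univ, ZMod.card]
      have h1 := card_insert_le (0 : ZMod p) (univ.image b)
      have h2 : (univ.image b).card ≤ 4 * K := card_image_le.trans (by simp)
      omega
    obtain ⟨z, _, hz⟩ := Finset.exists_mem_notMem_of_card_lt_card hcard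
    have hz0 : z ≠ 0 := fun h => hz (h ▸ mem_insert_self _ _)
    have hzb : ∀ i, z ≠ b i := fun i h => hz (mem_insert_of_mem (mem_image.2 ⟨i, mem_univ _, h.symm⟩))
    refine ⟨(z.val : ℤ), ?_, ?_⟩
    · intro h
      rw [← ZMod.intCast_zmod_eq_zero_iff_dvd] at h
      push_cast at h
      rw [ZMod.natCast_zmod_val] at h
      exact hz0 h
    · intro i h
      rw [← ZMod.intCast_zmod_eq_zero_iff_dvd] at h
      unfold Fm at h
      push_cast at h
      rw [ZMod.natCast_zmod_val] at h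
      apply hzb i
      rw [eq_div_iff (hal i)]
      linear_combination h

theorem nd (hsi : Function.Injective s) (hs0 : ∀ g, s g ≠ 0) (r N : ℕ)
    (hN : 2 * A0 s * (W0 s K * K) < N) : Nd (al s K) (hh s K r) N := by
  have hNz : (2 : ℤ) * A0 s * ((W0 s K : ℤ) * K) < N := by exact_mod_cast hN
  have hN0 : (0 : ℤ) < N := by
    have : 0 < N := by omega
    exact_mod_cast this
  have hA : ∀ i : Fin (4 * K), |al s K i| ≤ A0 s := fun i => abs_le_A0 s (cl K i)
  have hh1 := hh_nonneg s K r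
  have hh2 := hh_le s K r
  intro j l hjl
  rcases j with _ | j <;> rcases l with _ | l
  · exact absurd rfl hjl
  · simp only [uB, wB]
    have := hh1 l
    intro h
    linarith
  · simp only [uB, wB]
    have := hh1 j
    intro h
    linarith
  · have hne : j ≠ l := fun h => hjl (by rw [h])
    simp only [uB, wB]
    intro h
    by_cases hal : al s K j = al s K l
    · apply hh_inj s K hsi r j l hne
      refine ⟨hal, ?_⟩
      rw [hal] at h
      have h1 : al s K l * (hh s K r l - hh s K r j) = 0 := by linear_combination h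
      rcases mul_eq_zero.1 h1 with h2 | h2
      · exact absurd h2 (hs0 _)
      · linarith
    · have h1 : (al s K j - al s K l) * N = al s K l * hh s K r j - al s K j * hh s K r l := by
        linear_combination h
      have h2 : (1 : ℤ) ≤ |al s K j - al s K l| := Int.one_le_abs (sub_ne_zero.2 hal)
      have h3 : (N : ℤ) ≤ |(al s K j - al s K l) * N| := by
        rw [abs_mul, abs_of_pos hN0]
        nlinarith
      have h4 : |al s K l * hh s K r j - al s K j * hh s K r l| ≤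
          A0 s * ((W0 s K : ℤ) * K) + A0 s * ((W0 s K : ℤ) * K) := by
        calc |al s K l * hh s K r j - al s K j * hh s K r l|
            ≤ |al s K l * hh s K r j| + |al s K j * hh s K r l| := abs_sub _ _
          _ = |al s K l| * hh s K r j + |al s K j| * hh s K r l := by
              rw [abs_mul, abs_mul, abs_of_nonneg (hh1 j), abs_of_nonneg (hh1 l)]
          _ ≤ _ := by
              have a1 := hA l
              have a2 := hA j
              have a3 := hh2 j
              have a4 := hh2 l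
              have a5 := hh1 j
              have a6 := hh1 l
              have a7 : (0 : ℤ) ≤ A0 s := by positivity
              gcongr
      rw [← h1] at h4
      linarith

theorem posR (hs0 : ∀ g, s g ≠ 0) (hs2 : ∀ g, -2 ≤ s g) (r N : ℕ) (hN : 100 ≤ N) :
    PosR (al s K) (hh s K r) N ((4 * N + 4) / 5) := by
  intro i x hx1 hx2
  have h1 : (0 : ℝ) ≤ hh s K r i := by exact_mod_cast hh_nonneg s K r i
  set N' : ℕ := (4 * N + 4) / 5 with hN'
  have h2 : 5 * N' ≤ 4 * N + 4 := by omega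
  have h3 : 4 * N ≤ 5 * N' := by omega
  have h2' : (5 : ℝ) * N' ≤ 4 * N + 4 := by exact_mod_cast h2
  have h3' : (4 : ℝ) * N ≤ 5 * N' := by exact_mod_cast h3
  have h4 : (100 : ℝ) ≤ N := by exact_mod_cast hN
  rcases lt_or_gt_of_ne (hs0 (cl K i)) with h | h
  · have h5 : (-2 : ℝ) ≤ al s K i := by exact_mod_cast hs2 (cl K i)
    have h6 : (0 : ℝ) ≤ x := by
      have : (0 : ℝ) ≤ (N' : ℝ) / 16 := by positivity
      linarith
    have h7 : -2 * x ≤ al s K i * x := mul_le_mul_of_nonneg_right h5 h6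
    linarith
  · have h5 : (1 : ℝ) ≤ al s K i := by
      have : (1 : ℤ) ≤ al s K i := h
      exact_mod_cast this
    have h6 : (0 : ℝ) ≤ x := by
      have : (0 : ℝ) ≤ (N' : ℝ) / 16 := by positivity
      linarith
    have h7 : 1 * x ≤ al s K i * x := mul_le_mul_of_nonneg_right h5 h6
    linarith

end

theorem pos_of {z : ℤ} (h : z.toNat.Prime) : ((z.toNat : ℕ) : ℤ) = z := by
  have := h.pos
  omega

open Classical in
theorem main (s : Fin 4 → ℤ) (hsi : Function.Injective s) (hs0 : ∀ g, s g ≠ 0)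
    (hs2 : ∀ g, -2 ≤ s g) (B : ℕ) (hB1 : 1 ≤ B) (hB : ∀ g, s g ≤ B) : ∃ C : ℕ, ∀ η : ℝ, 0 < η → ∀ᶠ N : ℕ in atTop,
      ∃ i j : Fin 4, i < j ∧ ∃ c : ℤ, |c| ≤ C ∧ (N : ℝ) ^ (1 - η) ≤
        (((Icc 1 ((2 + B) * N)).filter (fun p : ℕ => 2 * p ≤ (2 + B) * N ∧ p.Prime ∧
          ∃ q : ℕ, q.Prime ∧
            s j * (p : ℤ) - s i * (q : ℤ) = (s j - s i) * (N : ℤ) + c)).card : ℝ) := by
  obtain ⟨c₀, hc₀, hc₁, H⟩ := thmVGF
  obtain ⟨K, hK2, D₀, H⟩ := H 4 1 (by norm_num) (by push_cast; linarith)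
  obtain ⟨DW, hWF⟩ := Pool.Agent.W493.UN.WD.main
  set D : ℕ := D₀ + DW + A0 s with hD
  obtain ⟨-, -, -, -, hv⟩ := hWF D (by omega)
  refine ⟨2 * A0 s * (W0 s K * K), fun η hη => ?_⟩
  have h1 := fun (r : ℕ) (_ : r ∈ Finset.range (W0 s K)) =>
    H D (by omega) (al s K) (hh s K r) (cl K) (card_cl K) (fun i => hs0 _)
      (fun i => by
        have := abs_le_A0 s (cl K i)
        rw [Int.abs_eq_natAbs] at this
        have h2 : (s (cl K i)).natAbs ≤ A0 s := by exact_mod_cast this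
        have h3 : (al s K i).natAbs ≤ A0 s := h2
        omega) (η / 2) (by positivity)
  have h2 := (Filter.eventually_all_finset (Finset.range (W0 s K))).2 h1
  have htend : Tendsto (fun N : ℕ => (4 * N + 4) / 5) atTop atTop := by
    apply Filter.tendsto_atTop_atTop.2
    intro b
    refine ⟨2 * b, fun a ha => ?_⟩
    show b ≤ (4 * a + 4) / 5
    omega
  have h2' := htend.eventually h2
  have h3 : ∀ᶠ N : ℕ in atTop, (2 * (16 * (K : ℝ) ^ 2)) < (N : ℝ) ^ (η / 2) :=
    ((tendsto_rpow_atTop (by positivity)).comp tendsto_natCast_atTop_atTop).eventually_gt_atTop _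
  filter_upwards [h2', h3, eventually_gt_atTop (2 * A0 s * (W0 s K * K)),
    eventually_ge_atTop (10 * (W0 s K * K) + 4 * B), eventually_ge_atTop 100]
    with N hN2 hN3 hN4 hN4' hN5
  set N' : ℕ := (4 * N + 4) / 5 with hN'
  have hNN1 : 5 * N' ≤ 4 * N + 4 := by omega
  have hNN2 : 4 * N ≤ 5 * N' := by omega
  obtain ⟨v, hv⟩ := hv N (4 * K) (al s K) (hh s K (N % W0 s K))
    (adm s K hs0 N (N % W0 s K) rfl)
  have hN6 := hN2 (N % W0 s K) (Finset.mem_range.2 (Nat.mod_lt _ (W0_pos s K))) N hNN2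
    (nd s K hsi hs0 _ N hN4) (posR s K hs0 hs2 _ N hN5) v hv
  set r := N % W0 s K with hr
  set A : Fin (4 * K) × Fin (4 * K) → Finset ℕ := fun ij => (Icc 1 N').filter (fun n : ℕ =>
    (n : ℝ) ≤ N' / 2 ∧ (Fm (al s K) (hh s K r) N ij.1 n).toNat.Prime ∧
      (Fm (al s K) (hh s K r) N ij.2 n).toNat.Prime) with hA
  set Pr : Finset (Fin (4 * K) × Fin (4 * K)) :=
    univ.filter (fun ij => cl K ij.1 < cl K ij.2) with hPr
  have hsub : (Icc 1 N').filter (fun n : ℕ => n ≡ v [MOD (WW D)] ∧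
        (N' : ℝ) / 16 ≤ n ∧ (n : ℝ) ≤ N' / 2 ∧ 1 + 1 ≤ (univ.filter (fun g : Fin 4 =>
      ∃ i, cl K i = g ∧ (Fm (al s K) (hh s K r) N i n).toNat.Prime)).card) ⊆ Pr.biUnion A := by
    intro n hn
    rw [mem_filter] at hn
    obtain ⟨hn1, -, -, hnh, hn2⟩ := hn
    obtain ⟨g, hg, g', hg', hgg⟩ := Finset.one_lt_card.1 hn2
    rw [mem_filter] at hg hg'
    obtain ⟨i, hi1, hi2⟩ := hg.2
    obtain ⟨j, hj1, hj2⟩ := hg'.2
    rcases lt_or_gt_of_ne hgg with hlt | hlt
    · refine mem_biUnion.2 ⟨(i, j), mem_filter.2 ⟨mem_univ _, ?_⟩, mem_filter.2 ⟨hn1, hnh, hi2, hj2⟩⟩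
      simpa [hi1, hj1] using hlt
    · refine mem_biUnion.2 ⟨(j, i), mem_filter.2 ⟨mem_univ _, ?_⟩, mem_filter.2 ⟨hn1, hnh, hj2, hi2⟩⟩
      simpa [hi1, hj1] using hlt
  have hNpos : (0 : ℝ) < N := by
    have : 0 < N := by omega
    exact_mod_cast this
  have hbig : ∃ ij ∈ Pr, (N : ℝ) ^ (1 - η) ≤ ((A ij).card : ℝ) := by
    rcases le_or_gt 1 η with hη1 | hη1
    · -- trivial range: at least one solution is enough
      by_contra hcon
      push Not at hcon
      have e5 : (N : ℝ) ^ (1 - η) ≤ 1 := by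
        apply Real.rpow_le_one_of_one_le_of_nonpos _ (by linarith)
        have : 1 ≤ N := by omega
        exact_mod_cast this
      have e6 : ∀ ij ∈ Pr, A ij = ∅ := by
        intro ij hij
        have h4 := (hcon ij hij).trans_le e5
        rw [← Finset.card_eq_zero]
        have h5 : (A ij).card < 1 := by exact_mod_cast h4
        omega
      have e7 : Pr.biUnion A = ∅ := by
        rw [Finset.eq_empty_iff_forall_notMem]
        intro n hn
        obtain ⟨ij, hij, hn⟩ := mem_biUnion.1 hn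
        rw [e6 ij hij] at hn
        exact absurd hn (Finset.notMem_empty n)
      rw [e7, Finset.subset_empty] at hsub
      rw [hsub] at hN6
      have h6 : (0 : ℝ) < (N' : ℝ) ^ (1 - η / 2) := by
        apply Real.rpow_pos_of_pos
        have : 0 < N' := by omega
        exact_mod_cast this
      simp only [Finset.card_empty, Nat.cast_zero] at hN6
      linarith
    by_contra hcon
    push Not at hcon
    have e1 : (((Icc 1 N').filter (fun n : ℕ => n ≡ v [MOD (WW D)] ∧
        (N' : ℝ) / 16 ≤ n ∧ (n : ℝ) ≤ N' / 2 ∧ 1 + 1 ≤ (univ.filter (fun g : Fin 4 =>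
      ∃ i, cl K i = g ∧ (Fm (al s K) (hh s K r) N i n).toNat.Prime)).card)).card : ℝ) ≤
        ∑ ij ∈ Pr, ((A ij).card : ℝ) := by
      exact_mod_cast (card_le_card hsub).trans card_biUnion_le
    have e2 : ∑ ij ∈ Pr, ((A ij).card : ℝ) ≤ Pr.card • (N : ℝ) ^ (1 - η) :=
      Finset.sum_le_card_nsmul _ _ _ (fun ij hij => (hcon ij hij).le)
    have e3 : Pr.card ≤ 16 * K ^ 2 := by
      refine (card_le_univ _).trans ?_
      rw [Fintype.card_prod, Fintype.card_fin]
      exact le_of_eq (by ring)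
    have e4 : (Pr.card : ℝ) ≤ 16 * (K : ℝ) ^ 2 := by exact_mod_cast e3
    have e5 : (0 : ℝ) < (N : ℝ) ^ (1 - η) := Real.rpow_pos_of_pos hNpos _
    have e6 : (N : ℝ) ^ (1 - η / 2) = (N : ℝ) ^ (η / 2) * (N : ℝ) ^ (1 - η) := by
      rw [← Real.rpow_add hNpos]
      congr 1
      ring
    rw [nsmul_eq_mul] at e2
    have e7 : (N' : ℝ) ^ (1 - η / 2) ≤ 16 * (K : ℝ) ^ 2 * (N : ℝ) ^ (1 - η) :=
      hN6.trans (e1.trans (e2.trans (mul_le_mul_of_nonneg_right e4 e5.le)))
    have e8 : (N : ℝ) ^ (1 - η / 2) ≤ 2 * (N' : ℝ) ^ (1 - η / 2) := by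
      have h4 : (N : ℝ) / 2 ≤ N' := by
        have : N ≤ 2 * N' := by omega
        have h5 : (N : ℝ) ≤ 2 * N' := by exact_mod_cast this
        linarith
      have h5 : ((N : ℝ) / 2) ^ (1 - η / 2) ≤ (N' : ℝ) ^ (1 - η / 2) :=
        Real.rpow_le_rpow (by positivity) h4 (by linarith)
      have h6 : ((N : ℝ) / 2) ^ (1 - η / 2) = (N : ℝ) ^ (1 - η / 2) / (2 : ℝ) ^ (1 - η / 2) :=
        Real.div_rpow hNpos.le (by norm_num) _
      have h7 : (2 : ℝ) ^ (1 - η / 2) ≤ 2 := by
        calc (2 : ℝ) ^ (1 - η / 2) ≤ (2 : ℝ) ^ (1 : ℝ) :=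
              Real.rpow_le_rpow_of_exponent_le (by norm_num) (by linarith)
          _ = 2 := Real.rpow_one 2
      have h8 : (0 : ℝ) < (2 : ℝ) ^ (1 - η / 2) := Real.rpow_pos_of_pos (by norm_num) _
      have h9 : (0 : ℝ) < (N : ℝ) ^ (1 - η / 2) := Real.rpow_pos_of_pos hNpos _
      have h10 : (N : ℝ) ^ (1 - η / 2) / 2 ≤ (N : ℝ) ^ (1 - η / 2) / (2 : ℝ) ^ (1 - η / 2) :=
        div_le_div_of_nonneg_left h9.le h8 h7
      linarith
    rw [e6] at e8
    have e9 : (N : ℝ) ^ (η / 2) * (N : ℝ) ^ (1 - η) ≤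
        (2 * (16 * (K : ℝ) ^ 2)) * (N : ℝ) ^ (1 - η) := by linarith
    have e10 := le_of_mul_le_mul_right e9 e5
    linarith
  obtain ⟨⟨i, j⟩, hij, hbig⟩ := hbig
  have hlt : cl K i < cl K j := by
    have := (mem_filter.1 hij).2
    exact this
  refine ⟨cl K i, cl K j, hlt, s (cl K j) * hh s K r i - s (cl K i) * hh s K r j, ?_,
    hbig.trans ?_⟩
  · have b1 := hh_nonneg s K r i
    have b2 := hh_nonneg s K r j
    have b3 := hh_le s K r i
    have b4 := hh_le s K r j
    have b5 := abs_le_A0 s (cl K i)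
    have b6 := abs_le_A0 s (cl K j)
    calc |s (cl K j) * hh s K r i - s (cl K i) * hh s K r j|
        ≤ |s (cl K j) * hh s K r i| + |s (cl K i) * hh s K r j| := abs_sub _ _
      _ = |s (cl K j)| * hh s K r i + |s (cl K i)| * hh s K r j := by
          rw [abs_mul, abs_mul, abs_of_nonneg b1, abs_of_nonneg b2]
      _ ≤ A0 s * ((W0 s K : ℤ) * K) + A0 s * ((W0 s K : ℤ) * K) := by
          gcongr
      _ = ((2 * A0 s * (W0 s K * K) : ℕ) : ℤ) := by
          push_cast
          ring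
  · norm_cast
    refine Finset.card_le_card_of_injOn (fun n => (Fm (al s K) (hh s K r) N i n).toNat) ?_ ?_
    · intro n hn
      have hn := (mem_filter.1 (mem_coe.1 hn))
      have hn1 := Finset.mem_Icc.1 hn.1
      have hp := hn.2.2.1
      have hq := hn.2.2.2
      have hp' := pos_of hp
      have hq' := pos_of hq
      rw [mem_coe, mem_filter, Finset.mem_Icc]
      have b3 := hh_le s K r i
      have b5 : al s K i ≤ B := hB _
      have b6 : (10 : ℤ) * ((W0 s K : ℤ) * K) + 4 * B ≤ N := by exact_mod_cast hN4'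
      have hn2 : (2 : ℤ) * n ≤ N' := by
        have h4 := hn.2.1
        have h5 : (2 : ℝ) * n ≤ N' := by linarith
        exact_mod_cast h5
      have b8 : al s K i * (n : ℤ) ≤ B * n := by
        have h4 : (0 : ℤ) ≤ n := by positivity
        exact mul_le_mul_of_nonneg_right b5 h4
      have b9 : 2 * (((Fm (al s K) (hh s K r) N i n).toNat : ℕ) : ℤ) ≤ (2 + B) * N := by
        rw [hp']
        unfold Fm
        have h5 : (0 : ℤ) ≤ B := by positivity
        have h6 : (5 : ℤ) * N' ≤ 4 * N + 4 := by exact_mod_cast hNN1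
        have h7 : (B : ℤ) * (2 * n) ≤ B * N' := mul_le_mul_of_nonneg_left hn2 h5
        have h8 : (B : ℤ) * (5 * N') ≤ B * (4 * N + 4) := mul_le_mul_of_nonneg_left h6 h5
        nlinarith
      refine ⟨⟨hp.pos, ?_⟩, ?_, hp, _, hq, ?_⟩
      · have h5 : (0 : ℤ) ≤ (((Fm (al s K) (hh s K r) N i n).toNat : ℕ) : ℤ) := by positivity
        have h6 : (((Fm (al s K) (hh s K r) N i n).toNat : ℕ) : ℤ) ≤ (2 + B) * N := by linarith
        exact_mod_cast h6
      · exact_mod_cast b9
      · rw [hp', hq']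
        unfold Fm
        have : al s K i = s (cl K i) := rfl
        have h' : al s K j = s (cl K j) := rfl
        rw [this, h']
        ring
    · intro n hn n' hn' hnn
      have hn := (mem_filter.1 (mem_coe.1 hn))
      have hn' := (mem_filter.1 (mem_coe.1 hn'))
      have hp := pos_of hn.2.2.1
      have hp' := pos_of hn'.2.2.1
      simp only at hnn hp hp'
      rw [hnn, hp'] at hp
      unfold Fm at hp
      have e1 : al s K i * (n : ℤ) = al s K i * (n' : ℤ) := by linarith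
      have e2 := mul_left_cancel₀ (hs0 (cl K i)) e1
      exact_mod_cast e2

end Pool.Agent.TH899.UG.E4
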