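import Mathlib
import Pool.Agent.TH899.UG.DW
import Pool.Agent.H141R2.FS.Main1

/-! Four squares with many values of the linear form `x + 2 y + 5 z` prime, for every large `n`. -/

set_option autoImplicit false

namespace Pool.Agent.TH899.UG.FSq

open Finset Filter Topology
open Pool.Agent.TH899.UG.DW

/-- few vectors take prescribed differences -/
theorem collS {T : ℕ} (H : ℕ) (S : Finset (Fin T)) (g g' : Fin T) (hg : g ∈ S) (hne : g ≠ g')
    (d : ℤ) :
    ((Fintype.piFinset (fun j => if j ∈ S then range H else {0})).filter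
      (fun f => (f g : ℤ) = f g' + d)).card * H ≤ H ^ S.card := by
  classical
  have h1 : (Fintype.piFinset (fun j => if j ∈ S then range H else {0})).card = H ^ S.card := by
    rw [Fintype.card_piFinset, ← Finset.prod_sdiff (Finset.subset_univ S)]
    have e1 : ∏ j ∈ S, (if j ∈ S then range H else ({0} : Finset ℕ)).card = H ^ S.card := by
      rw [← Finset.prod_const]
      refine Finset.prod_congr rfl fun j hj => ?_
      rw [if_pos hj, card_range]
    have e2 : ∏ j ∈ univ \ S, (if j ∈ S then range H else ({0} : Finset ℕ)).card = 1 := by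
      refine Finset.prod_eq_one fun j hj => ?_
      rw [if_neg (mem_sdiff.1 hj).2, card_singleton]
    rw [e1, e2, one_mul]
  rw [← h1]
  have h0 : ((Fintype.piFinset (fun j => if j ∈ S then range H else {0})).filter
      (fun f => (f g : ℤ) = f g' + d)).card * H =
      (((Fintype.piFinset (fun j => if j ∈ S then range H else {0})).filter
      (fun f => (f g : ℤ) = f g' + d)) ×ˢ (range H)).card := by
    rw [card_product, card_range]
  rw [h0]
  refine card_le_card_of_injOn (fun z : (Fin T → ℕ) × ℕ => Function.update z.1 g z.2) ?_ ?_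
  · intro z hz
    obtain ⟨h2, h3⟩ := mem_product.1 (mem_coe.1 hz)
    obtain ⟨h4, h5⟩ := mem_filter.1 h2
    rw [Fintype.mem_piFinset] at h4
    refine mem_coe.2 (Fintype.mem_piFinset.2 fun k => ?_)
    by_cases hk : k = g
    · subst hk
      show Function.update z.1 k z.2 k ∈ _
      rw [Function.update_self, if_pos hg]
      exact h3
    · show Function.update z.1 g z.2 k ∈ _
      rw [Function.update_of_ne hk]
      exact h4 k
  · intro z hz z' hz' hzz
    obtain ⟨h2, h3⟩ := mem_product.1 (mem_coe.1 hz)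
    obtain ⟨h2', h3'⟩ := mem_product.1 (mem_coe.1 hz')
    have h4 := (mem_filter.1 h2).2
    have h4' := (mem_filter.1 h2').2
    have h5 : Function.update z.1 g z.2 = Function.update z'.1 g z'.2 := hzz
    have h6 : z.2 = z'.2 := by
      have := congrFun h5 g
      rwa [Function.update_self, Function.update_self] at this
    have h7 : ∀ k, k ≠ g → z.1 k = z'.1 k := by
      intro k hk
      have := congrFun h5 k
      rwa [Function.update_of_ne hk, Function.update_of_ne hk] at this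
    have h8 : z.1 g = z'.1 g := by
      have h9 := h7 g' (Ne.symm hne)
      rw [h9] at h4
      have h10 : (z.1 g : ℤ) = z'.1 g := by linarith
      exact_mod_cast h10
    refine Prod.ext ?_ h6
    funext k
    by_cases hk : k = g
    · rw [hk]; exact h8
    · exact h7 k hk

/-- `p` is the value of `x + 2 y + 5 z` at a representation of `n` as a sum of four squares of
natural numbers -/
def Val (n p : ℕ) : Prop :=
  ∃ x y z w : ℕ, n = x ^ 2 + y ^ 2 + z ^ 2 + w ^ 2 ∧ p = x + 2 * y + 5 * z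

open Classical in
/-- The `q < n` for which all the numbers `q + c g + h g`, `g ∈ S`, are primes and values of the
linear form at representations of `n`. -/
noncomputable def places {T : ℕ} (n : ℕ) (c : Fin T → ℤ) (h : Fin T → ℕ) (S : Finset (Fin T)) :
    Finset ℕ :=
  (range n).filter (fun q => ∀ g ∈ S, ∃ p : ℕ, (p : ℤ) = q + c g + h g ∧ p.Prime ∧ Val n p)

open Classical in
/-- The vectors `h`, `0 ≤ h g < H` for `g ∈ S` and `h g = 0` otherwise, for which the numbers
`c g + h g`, `g ∈ S`, are distinct and at least `n ^ (1 / 2 - η)` places `q` exist. -/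
noncomputable def good {T : ℕ} (n H : ℕ) (η : ℝ) (c : Fin T → ℤ) (S : Finset (Fin T)) :
    Finset (Fin T → ℕ) :=
  (Fintype.piFinset (fun g => if g ∈ S then range H else {0})).filter (fun h =>
    (∀ g ∈ S, ∀ g' ∈ S, g ≠ g' → c g + h g ≠ c g' + h g') ∧
      (n : ℝ) ^ (1 / 2 - η) ≤ ((places n c h S).card : ℝ))

theorem main : ∃ κ : ℝ, 0 < κ ∧ κ < 1 ∧ ∀ T k : ℕ, 1 ≤ T → (4 - κ) * k < T →
    ∀ δ : ℝ, 0 < δ → δ * (T.choose (k + 1) : ℝ) * (primorial T : ℝ) ^ (k + 1) <
      ((primorial T).totient : ℝ) ^ (k + 1) →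
    ∃ C : ℕ, ∀ η : ℝ, 0 < η → ∀ᶠ n : ℕ in atTop, ¬ 4 ∣ n → ∀ H : ℕ, C ≤ H → (C * H) ^ 2 ≤ n →
      ∀ c : Fin T → ℤ, (∀ g, (200 * c g) ^ 2 ≤ n) →
        ∃ S : Finset (Fin T), S.card = k + 1 ∧
          δ * (H : ℝ) ^ (k + 1) ≤ ((good n H η c S).card : ℝ) := by
  classical
  obtain ⟨κ, hκ, hκ1, HD⟩ := densW
  refine ⟨κ, hκ, hκ1, ?_⟩
  intro T k hT hTk δ hδ hδ1
  have hkR : (0 : ℝ) ≤ k := Nat.cast_nonneg _
  have hkT : k + 1 ≤ T := by
    have h1 : (k : ℝ) < T := by
      rcases Nat.eq_zero_or_pos k with h | h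
      · subst h
        exact_mod_cast hT
      · have h2 : (1 : ℝ) ≤ k := by exact_mod_cast h
        nlinarith
    have h2 : k < T := by exact_mod_cast h1
    omega
  have hP0 : 0 < primorial T := primorial_pos _
  have hPR : (0 : ℝ) < primorial T := by exact_mod_cast hP0
  have hch : 0 < T.choose (k + 1) := Nat.choose_pos hkT
  have hchR : (0 : ℝ) < T.choose (k + 1) := by exact_mod_cast hch
  have hB : 0 < (T.choose (k + 1) : ℝ) * (primorial T : ℝ) ^ (k + 1) := by positivity
  have hlt : δ < ((primorial T).totient : ℝ) ^ (k + 1) /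
      ((T.choose (k + 1) : ℝ) * (primorial T : ℝ) ^ (k + 1)) := by
    rw [lt_div_iff₀ hB, ← mul_assoc]
    exact hδ1
  obtain ⟨δ', hδa, hδb⟩ := _root_.exists_between hlt
  rw [lt_div_iff₀ hB, ← mul_assoc] at hδb
  obtain ⟨C₁, HD⟩ := HD (501 / 4000) (253 / 2000) (by norm_num) (by norm_num) (by norm_num)
    T k hT hTk 1 (primorial T) hP0
    (fun p hp hpk => (hp.dvd_primorial_iff).2 hpk) δ' (hδ.trans hδa) hδb
  obtain ⟨C₂, hC₂⟩ := exists_nat_ge (((k : ℝ) + 1) ^ 2 / (δ' - δ))
  refine ⟨C₁ + C₂ + 200, fun η hη => ?_⟩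
  obtain ⟨η', hη'd⟩ : ∃ η' : ℝ, η' = min η 1 := ⟨_, rfl⟩
  have hη'0 : 0 < η' := by rw [hη'd]; exact lt_min hη one_pos
  have hη'1 : η' ≤ 1 := by rw [hη'd]; exact min_le_right _ _
  have hη'η : η' ≤ η := by rw [hη'd]; exact min_le_left _ _
  have htN : Tendsto (fun n : ℕ => ⌈8 * Real.sqrt (29 * (n : ℝ))⌉₊) atTop atTop := by
    refine tendsto_nat_ceil_atTop.comp ?_
    refine Tendsto.const_mul_atTop (by norm_num) ?_
    refine Real.tendsto_sqrt_atTop.comp ?_
    exact Tendsto.const_mul_atTop (by norm_num) tendsto_natCast_atTop_atTop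
  filter_upwards [htN.eventually (HD η' hη'0), eventually_ge_atTop 1000000] with n hn hn6
  intro h4 H hCH hHn c hc
  have hnR : (1000000 : ℝ) ≤ n := by exact_mod_cast hn6
  obtain ⟨N, hNd⟩ : ∃ N : ℕ, N = ⌈8 * Real.sqrt (29 * (n : ℝ))⌉₊ := ⟨_, rfl⟩
  rw [← hNd] at hn
  obtain ⟨s, hs⟩ : ∃ s : ℝ, s = Real.sqrt (29 * (n : ℝ)) := ⟨_, rfl⟩
  obtain ⟨r, hr⟩ : ∃ r : ℝ, r = Real.sqrt (n : ℝ) := ⟨_, rfl⟩
  have hs2 : s ^ 2 = 29 * n := by rw [hs]; exact Real.sq_sqrt (by positivity)
  have hr2 : r ^ 2 = n := by rw [hr]; exact Real.sq_sqrt (by positivity)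
  have hs0 : 0 ≤ s := by rw [hs]; exact Real.sqrt_nonneg _
  have hr0 : 0 ≤ r := by rw [hr]; exact Real.sqrt_nonneg _
  have hr1000 : 1000 ≤ r := by
    by_contra hcon
    push Not at hcon
    have : r ^ 2 < 1000 ^ 2 := by gcongr
    rw [hr2] at this
    linarith
  have hsr : 5 * r ≤ s := by
    by_contra hcon
    push Not at hcon
    have : s ^ 2 < (5 * r) ^ 2 := by gcongr
    rw [hs2, mul_pow, hr2] at this
    linarith
  have hsr' : s ≤ 6 * r := by
    by_contra hcon
    push Not at hcon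
    have : (6 * r) ^ 2 < s ^ 2 := by gcongr
    rw [hs2, mul_pow, hr2] at this
    linarith
  have hN1 : 8 * s ≤ N := by rw [hNd, hs]; exact Nat.le_ceil _
  have hN2 : (N : ℝ) < 8 * s + 1 := by
    rw [hNd, hs]
    exact Nat.ceil_lt_add_one (by positivity)
  have hHr : ((C₁ + C₂ + 200 : ℕ) : ℝ) * H ≤ r := by
    have h1 : ((((C₁ + C₂ + 200) * H : ℕ)) : ℝ) ^ 2 ≤ r ^ 2 := by
      rw [hr2]
      exact_mod_cast hHn
    have h2 := (sq_le_sq₀ (by positivity) hr0).1 h1
    rwa [Nat.cast_mul] at h2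
  have hcr : ∀ g, 200 * |(c g : ℝ)| ≤ r := by
    intro g
    have h1 : ((200 * c g : ℤ) : ℝ) ^ 2 ≤ r ^ 2 := by
      rw [hr2]
      exact_mod_cast hc g
    have h3 : |((200 * c g : ℤ) : ℝ)| ≤ r := abs_le_of_sq_le_sq h1 hr0
    push_cast at h3
    rw [abs_mul] at h3
    norm_num at h3
    exact h3
  have hH0 : (200 : ℝ) ≤ H := by exact_mod_cast (by omega : 200 ≤ H)
  have hC₁0 : (0 : ℝ) ≤ C₁ := Nat.cast_nonneg _
  have hC₂0 : (0 : ℝ) ≤ C₂ := Nat.cast_nonneg _
  push_cast at hHr
  have hH200 : 200 * (H : ℝ) ≤ r := by nlinarith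
  have hHC₁ : (C₁ : ℝ) * H ≤ r := by nlinarith
  have hrN : r ≤ N := by linarith
  obtain ⟨S, hS, hG⟩ := hn H (by omega) (by
      have : (C₁ : ℝ) * H ≤ N := hHC₁.trans hrN
      exact_mod_cast this) (fun _ => 1) c (fun _ => one_ne_zero) (fun _ => by simp)
    (fun _ p hp hpd => by
      exfalso
      have h1 : (p : ℤ) ∣ 1 := hpd
      have h2 := Int.le_of_dvd one_pos h1
      have := hp.two_le
      omega)
    (fun g => by
      have h1 : 10 * |(c g : ℝ)| ≤ 11 * (N : ℝ) := by
        have h2 := hcr g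
        have h3 := abs_nonneg (c g : ℝ)
        linarith
      exact_mod_cast h1)
    (fun g y h1 h2 => by
      have h3 := (abs_le.1 (le_refl |(c g : ℝ)|)).1
      have h4 := hcr g
      push_cast
      linarith)
  refine ⟨S, hS, ?_⟩
  -- the count of the places
  have hpow : (n : ℝ) ^ (1 / 2 - η) ≤ (N : ℝ) ^ (1 - η') := by
    have h1 : r ^ (1 - η') ≤ (N : ℝ) ^ (1 - η') :=
      Real.rpow_le_rpow hr0 hrN (by linarith)
    refine le_trans ?_ h1
    rw [hr, Real.sqrt_eq_rpow, ← Real.rpow_mul (by positivity)]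
    apply Real.rpow_le_rpow_of_exponent_le (by linarith)
    linarith
  have hplace : ∀ h ∈ GW (501 / 4000) (253 / 2000) N H η' (fun _ => 1) c S,
      (n : ℝ) ^ (1 / 2 - η) ≤ ((places n c h S).card : ℝ) := by
    intro h hh
    unfold GW at hh
    obtain ⟨hh1, hh2⟩ := mem_filter.1 hh
    rw [Fintype.mem_piFinset] at hh1
    refine hpow.trans (hh2.trans ?_)
    rw [Nat.cast_le]
    unfold cnW places
    apply card_le_card
    intro q hq
    obtain ⟨hq1, hq2, hq3, hq4⟩ := mem_filter.1 hq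
    have hqN : (q : ℝ) ≤ N := by exact_mod_cast (mem_Icc.1 hq1).2
    refine mem_filter.2 ⟨mem_range.2 ?_, fun g hg => ?_⟩
    · have h1 : (q : ℝ) < n := by
        rw [← hr2]
        nlinarith
      exact_mod_cast h1
    · have hp := hq4 g hg
      have hhg : h g < H := by
        have := hh1 g
        rw [if_pos hg] at this
        exact mem_range.1 this
      have hhgR : (h g : ℝ) ≤ H := by exact_mod_cast hhg.le
      have hhg0 : (0 : ℝ) ≤ h g := Nat.cast_nonneg _
      obtain ⟨p, hpd⟩ : ∃ p : ℕ, p = ((1 : ℤ) * q + (c g + h g)).toNat := ⟨_, rfl⟩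
      rw [← hpd] at hp
      have hpz : (p : ℤ) = q + c g + h g := by
        have h1 : 0 < ((1 : ℤ) * q + (c g + h g)).toNat := by
          rw [← hpd]
          exact hp.pos
        omega
      have hpR : (p : ℝ) = q + c g + h g := by exact_mod_cast hpz
      have hc1 := (abs_le.1 (le_refl |(c g : ℝ)|)).1
      have hc2 := (abs_le.1 (le_refl |(c g : ℝ)|)).2
      have hc3 := hcr g
      have hps : s ≤ p := by
        rw [hpR]
        linarith
      have hps2 : (p : ℝ) ≤ 1.0145 * s := by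
        rw [hpR]
        linarith
      refine ⟨p, hpz, hp, ?_⟩
      have h29 : 29 * n ≤ p ^ 2 := by
        have h1 : s ^ 2 ≤ (p : ℝ) ^ 2 := by gcongr
        rw [hs2] at h1
        exact_mod_cast h1
      have h30 : p ^ 2 ≤ 30 * n := by
        have h1 : (p : ℝ) ^ 2 ≤ (1.0145 * s) ^ 2 := by gcongr
        rw [mul_pow, hs2] at h1
        have h2 : (p : ℝ) ^ 2 ≤ 30 * n := by
          have h3 : (1.0145 : ℝ) ^ 2 * (29 * n) ≤ 30 * n := by
            have h5 : (0 : ℝ) ≤ n := by positivity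
            nlinarith
          linarith
        exact_mod_cast h2
      have hcop : Nat.Coprime p 30 := by
        rw [Nat.Prime.coprime_iff_not_dvd hp]
        intro hd
        have h1 := Nat.le_of_dvd (by norm_num) hd
        have h2 : (p : ℝ) ≤ 30 := by exact_mod_cast h1
        linarith
      obtain ⟨x, y, z, w, h5, h6⟩ := Pool.Agent.H141R2.FS.rep h4 hcop h29 h30
      exact ⟨x, y, z, w, h5, h6.symm⟩
  -- the vectors with a coincidence
  obtain ⟨Cl, hCl⟩ : ∃ Cl : Finset (Fin T × Fin T),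
      Cl = (S ×ˢ S).filter (fun z => z.1 ≠ z.2) := ⟨_, rfl⟩
  obtain ⟨Bad, hBad⟩ : ∃ Bad : Finset (Fin T → ℕ), Bad = Cl.biUnion (fun z =>
      (Fintype.piFinset (fun j => if j ∈ S then range H else {0})).filter
        (fun f => (f z.1 : ℤ) = f z.2 + (c z.2 - c z.1))) := ⟨_, rfl⟩
  have hBadc : (Bad.card : ℝ) ≤ (δ' - δ) * (H : ℝ) ^ (k + 1) := by
    have h1 : Bad.card * H ≤ (k + 1) ^ 2 * H ^ (k + 1) := by
      have h2 : Bad.card ≤ ∑ z ∈ Cl, ((Fintype.piFinset (fun j => if j ∈ S then range H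
          else {0})).filter (fun f => (f z.1 : ℤ) = f z.2 + (c z.2 - c z.1))).card := by
        rw [hBad]
        exact card_biUnion_le
      have h3 : Cl.card ≤ (k + 1) ^ 2 := by
        rw [hCl]
        refine (card_filter_le _ _).trans ?_
        rw [card_product, hS, sq]
      calc Bad.card * H ≤ (∑ z ∈ Cl, ((Fintype.piFinset (fun j => if j ∈ S then range H
          else {0})).filter (fun f => (f z.1 : ℤ) = f z.2 + (c z.2 - c z.1))).card) * H :=
            Nat.mul_le_mul_right _ h2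
        _ = ∑ z ∈ Cl, ((Fintype.piFinset (fun j => if j ∈ S then range H
          else {0})).filter (fun f => (f z.1 : ℤ) = f z.2 + (c z.2 - c z.1))).card * H :=
            Finset.sum_mul _ _ _
        _ ≤ ∑ _z ∈ Cl, H ^ (k + 1) := by
            apply Finset.sum_le_sum
            intro z hz
            rw [hCl] at hz
            obtain ⟨hz1, hz2⟩ := mem_filter.1 hz
            have h5 := collS H S z.1 z.2 (mem_product.1 hz1).1 hz2 (c z.2 - c z.1)
            rwa [hS] at h5
        _ = Cl.card * H ^ (k + 1) := by rw [Finset.sum_const, smul_eq_mul]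
        _ ≤ (k + 1) ^ 2 * H ^ (k + 1) := Nat.mul_le_mul_right _ h3
    have h1r : (Bad.card : ℝ) * H ≤ ((k : ℝ) + 1) ^ 2 * (H : ℝ) ^ (k + 1) := by exact_mod_cast h1
    have hdd : 0 < δ' - δ := by linarith
    have h2 : ((k : ℝ) + 1) ^ 2 ≤ (δ' - δ) * H := by
      rw [div_le_iff₀ hdd] at hC₂
      have h3 : (C₂ : ℝ) ≤ H := by exact_mod_cast (by omega : C₂ ≤ H)
      nlinarith
    have hHp : (0 : ℝ) < H := by linarith
    have h3 : (Bad.card : ℝ) * H ≤ ((δ' - δ) * (H : ℝ) ^ (k + 1)) * H := by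
      have h4 : ((k : ℝ) + 1) ^ 2 * (H : ℝ) ^ (k + 1) ≤ ((δ' - δ) * H) * (H : ℝ) ^ (k + 1) :=
        mul_le_mul_of_nonneg_right h2 (by positivity)
      calc (Bad.card : ℝ) * H ≤ _ := h1r
        _ ≤ _ := h4
        _ = _ := by ring
    exact le_of_mul_le_mul_right h3 hHp
  have hsub : GW (501 / 4000) (253 / 2000) N H η' (fun _ => 1) c S ⊆ good n H η c S ∪ Bad := by
    intro h hh
    by_cases hb : h ∈ Bad
    · exact mem_union_right _ hb
    · apply mem_union_left
      have hp := hplace h hh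
      unfold GW at hh
      have hh1 := (mem_filter.1 hh).1
      unfold good
      refine mem_filter.2 ⟨hh1, ?_, hp⟩
      intro g hg g' hg' hne heq
      apply hb
      rw [hBad]
      refine mem_biUnion.2 ⟨(g, g'), ?_, mem_filter.2 ⟨hh1, ?_⟩⟩
      · rw [hCl]
        exact mem_filter.2 ⟨mem_product.2 ⟨hg, hg'⟩, hne⟩
      · show (h g : ℤ) = h g' + (c g' - c g)
        linarith
  have hfin := (card_le_card hsub).trans (card_union_le _ _)
  have hfinR : ((GW (501 / 4000) (253 / 2000) N H η' (fun _ => 1) c S).card : ℝ) ≤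
      (good n H η c S).card + Bad.card := by exact_mod_cast hfin
  linarith

end Pool.Agent.TH899.UG.FSq
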