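import Mathlib
import Pool.Agent.TH899.UG.Pair4

/-! Sums and differences of two primes near prescribed numbers. -/

set_option autoImplicit false

namespace Pool.Agent.TH899.UG.Pair4

open Finset Filter Topology
open Pool.Agent.TH899.UG.Uni

/-- for at least `z` primes `p ≤ B` there is a prime `q` with `p + q = t`, and both have `m` primes
near them -/
def Sums (m C B : ℕ) (z : ℝ) (t : ℤ) : Prop :=
  z ≤ ({p : ℕ | p ≤ B ∧ Near m C p ∧ ∃ q : ℕ, Near m C q ∧ (p : ℤ) + q = t}.ncard : ℝ)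

/-- for at least `z` primes `p ≤ B` there is a prime `q` with `q - p = t`, and both have `m` primes
near them -/
def Diffs (m C B : ℕ) (z : ℝ) (t : ℤ) : Prop :=
  z ≤ ({p : ℕ | p ≤ B ∧ Near m C p ∧ ∃ q : ℕ, Near m C q ∧ (q : ℤ) - p = t}.ncard : ℝ)

theorem gsd (m : ℕ) (hm : 1 ≤ m) : ∃ C : ℕ, ∀ η : ℝ, 0 < η → ∀ᶠ s : ℕ in atTop,
    ∀ X Y : Finset ℕ, X ⊆ Icc 0 s → Y ⊆ Icc s (2 * s) → X.card + Y.card = 4 →
    (∃ x ∈ X, ∃ y ∈ Y, ∃ e : ℤ, |e| ≤ C ∧ Sums m C (3 * s) ((s : ℝ) ^ (1 - η)) (x + y + e)) ∨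
    (∃ Z : Finset ℕ, (Z = X ∨ Z = Y) ∧ ∃ z ∈ Z, ∃ z' ∈ Z, z < z' ∧ ∃ e : ℤ, |e| ≤ C ∧
      Diffs m C (3 * s) ((s : ℝ) ^ (1 - η)) (z' - z + e)) := by
  classical
  obtain ⟨C, H⟩ := two_of_four 1 m hm
  refine ⟨2 * C, fun η hη => ?_⟩
  have htend : Tendsto (fun s : ℕ => (8 * s) / 5 + 1) atTop atTop :=
    tendsto_atTop_mono (fun s => by show s ≤ 8 * s / 5 + 1; omega) tendsto_id
  filter_upwards [htend.eventually (H (min η 1) (by positivity)), eventually_ge_atTop (100 + C)]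
    with s hN hs X Y hX hY hcard
  set N : ℕ := (8 * s) / 5 + 1 with hNdef
  have hN1 : 8 * s ≤ 5 * N := by omega
  have hN2 : 5 * N ≤ 8 * s + 5 := by omega
  have hN1r : (8 : ℝ) * s ≤ 5 * N := by exact_mod_cast hN1
  have hN2r : (5 : ℝ) * N ≤ 8 * s + 5 := by exact_mod_cast hN2
  have hsr : (100 : ℝ) + C ≤ s := by exact_mod_cast hs
  have hC0 : (0 : ℝ) ≤ C := Nat.cast_nonneg _
  have hN1z : (8 : ℤ) * s ≤ 5 * N := by exact_mod_cast hN1
  have hs0z : (0 : ℤ) ≤ s := Nat.cast_nonneg _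
  have hsz : (100 : ℤ) + C ≤ s := by exact_mod_cast hs
  -- the four forms
  set f1 : ℕ → ℤ × ℤ := fun x => (1, (x : ℤ)) with hf1
  set f2 : ℕ → ℤ × ℤ := fun y => (-1, (y : ℤ)) with hf2
  have hi1 : Function.Injective f1 := fun x x' h => by
    rw [hf1] at h
    simp only [Prod.mk.injEq, true_and, Nat.cast_inj] at h
    exact h
  have hi2 : Function.Injective f2 := fun x x' h => by
    rw [hf2] at h
    simp only [Prod.mk.injEq, true_and, Nat.cast_inj] at h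
    exact h
  set U : Finset (ℤ × ℤ) := X.image f1 ∪ Y.image f2 with hU
  have hUc : U.card = 4 := by
    rw [hU, card_union_of_disjoint, card_image_of_injective _ hi1, card_image_of_injective _ hi2,
      hcard]
    rw [Finset.disjoint_left]
    intro u hu hu'
    obtain ⟨x, -, rfl⟩ := mem_image.1 hu
    obtain ⟨y, -, h⟩ := mem_image.1 hu'
    rw [hf1, hf2] at h
    simp only [Prod.mk.injEq] at h
    omega
  set g : Fin 4 ≃ U := (U.equivFinOfCardEq hUc).symm with hg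
  set a : Fin 4 → ℤ := fun i => (g i).1.1 with ha
  set b : Fin 4 → ℤ := fun i => (g i).1.2 with hb
  have hcase : ∀ i, (a i = 1 ∧ ∃ x ∈ X, b i = x ∧ x ≤ s) ∨
      (a i = -1 ∧ ∃ y ∈ Y, b i = y ∧ s ≤ y ∧ y ≤ 2 * s) := by
    intro i
    have h1 : ((g i : U) : ℤ × ℤ) ∈ X.image f1 ∪ Y.image f2 := (g i).2
    rw [mem_union] at h1
    rcases h1 with h1 | h1
    · obtain ⟨x, hx, h2⟩ := mem_image.1 h1
      left
      refine ⟨?_, x, hx, ?_, (mem_Icc.1 (hX hx)).2⟩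
      · show (g i).1.1 = 1
        rw [← h2]
      · show (g i).1.2 = x
        rw [← h2]
    · obtain ⟨y, hy, h2⟩ := mem_image.1 h1
      right
      refine ⟨?_, y, hy, ?_, (mem_Icc.1 (hY hy)).1, (mem_Icc.1 (hY hy)).2⟩
      · show (g i).1.1 = -1
        rw [← h2]
      · show (g i).1.2 = y
        rw [← h2]
  have hbb : ∀ i, 0 ≤ b i ∧ b i ≤ 2 * s := by
    intro i
    rcases hcase i with ⟨-, x, -, h1, h2⟩ | ⟨-, y, -, h1, h2, h3⟩
    · rw [h1]; constructor <;> push_cast <;> omega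
    · rw [h1]; constructor <;> push_cast <;> omega
  obtain ⟨i, j, hij, e, f, he, hf, hcnt⟩ := hN a b (by
    intro i
    rcases hcase i with ⟨h, -⟩ | ⟨h, -⟩ <;> rw [h] <;> norm_num) (by
    intro i
    rcases hcase i with ⟨h, -⟩ | ⟨h, -⟩ <;> rw [h] <;> norm_num) (by
    intro i
    rw [abs_of_nonneg (hbb i).1]
    linarith [(hbb i).2]) (by
    intro i y h1 h2
    rcases hcase i with ⟨h, x, -, h3, -⟩ | ⟨h, z, -, h3, h4, -⟩
    · rw [h, h3]
      have : (0 : ℝ) ≤ x := Nat.cast_nonneg _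
      push_cast; linarith
    · rw [h, h3]
      have : (s : ℝ) ≤ z := by exact_mod_cast h4
      push_cast; linarith)
  have hrp : (s : ℝ) ^ (1 - η) ≤ (N : ℝ) ^ (1 - min η 1) := rpow_mono (by linarith) (by linarith)
  have hcnt' := hrp.trans hcnt
  have he0 : (0 : ℤ) ≤ e := Nat.cast_nonneg _
  have hf0 : (0 : ℤ) ≤ f := Nat.cast_nonneg _
  have heC : (e : ℤ) ≤ C := by exact_mod_cast he
  have hfC : (f : ℤ) ≤ C := by exact_mod_cast hf
  have hC2 : C ≤ 2 * C := by omega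
  have hnb : ∀ n : ℕ, (n : ℝ) ≤ N / 2 → (n : ℤ) ≤ s := by
    intro n hn
    have h1 : (n : ℝ) ≤ s := by linarith
    exact_mod_cast h1
  have key : ∀ (αi αj βi βj : ℤ) (n : ℕ), Near m C (αi * n + (βi + e)).toNat →
      Near m C (αj * n + (βj + f)).toNat → 0 ≤ αi * (n : ℤ) + (βi + e) ∧
      0 ≤ αj * (n : ℤ) + (βj + f) ∧
      Near m (2 * C) (αi * n + (βi + e)).toNat ∧ Near m (2 * C) (αj * n + (βj + f)).toNat :=
    fun αi αj βi βj n h1 h2 =>
      ⟨near_nonneg h1, near_nonneg h2, near_mono hC2 h1, near_mono hC2 h2⟩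
  have hsum : |(e : ℤ) + f| ≤ ((2 * C : ℕ) : ℤ) := by
    rw [abs_of_nonneg (by linarith)]
    push_cast
    linarith
  have hdif : |(f : ℤ) - e| ≤ ((2 * C : ℕ) : ℤ) := by
    rw [abs_le]
    push_cast
    constructor <;> linarith
  have hdif' : |(e : ℤ) - f| ≤ ((2 * C : ℕ) : ℤ) := by
    rw [abs_sub_comm]; exact hdif
  have hbne : a i = a j → b i ≠ b j := by
    intro h1 h2
    have h3 : (g i : ℤ × ℤ) = g j := Prod.ext h1 h2
    exact hij.ne (g.injective (Subtype.ext h3))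
  rcases hcase i with ⟨hi, x, hx, hbi, hxs⟩ | ⟨hi, x, hx, hbi, hxs, hxs'⟩ <;>
    rcases hcase j with ⟨hj, y, hy, hbj, hys⟩ | ⟨hj, y, hy, hbj, hys, hys'⟩ <;>
    rw [hi, hj, hbi, hbj] at hcnt'
  · -- both in `X`
    right
    have hxy : x ≠ y := fun h => hbne (hi.trans hj.symm) (by rw [hbi, hbj, h])
    rcases lt_or_gt_of_ne hxy with h | h
    · refine ⟨X, Or.inl rfl, x, hx, y, hy, h, (f : ℤ) - e, hdif, ?_⟩
      refine count (α := 1) (β := x + e) one_ne_zero _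
        (fun p => Near m (2 * C) p ∧ ∃ q : ℕ, Near m (2 * C) q ∧
          (q : ℤ) - p = (y : ℤ) - x + ((f : ℤ) - e)) hcnt' ?_
      rintro n - ⟨-, hn2, hn3, hn4⟩
      obtain ⟨k1, k2, k3, k4⟩ := key _ _ _ _ n hn3 hn4
      have k5 := hnb n hn2
      refine ⟨k1, ?_, k3, _, k4, ?_⟩
      · omega
      · rw [Int.toNat_of_nonneg k1, Int.toNat_of_nonneg k2]
        ring
    · refine ⟨X, Or.inl rfl, y, hy, x, hx, h, (e : ℤ) - f, hdif', ?_⟩
      refine count (α := 1) (β := y + f) one_ne_zero _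
        (fun p => Near m (2 * C) p ∧ ∃ q : ℕ, Near m (2 * C) q ∧
          (q : ℤ) - p = (x : ℤ) - y + ((e : ℤ) - f)) hcnt' ?_
      rintro n - ⟨-, hn2, hn3, hn4⟩
      obtain ⟨k1, k2, k3, k4⟩ := key _ _ _ _ n hn3 hn4
      have k5 := hnb n hn2
      refine ⟨k2, ?_, k4, _, k3, ?_⟩
      · omega
      · rw [Int.toNat_of_nonneg k1, Int.toNat_of_nonneg k2]
        ring
  · -- `X` and `Y`
    left
    refine ⟨x, hx, y, hy, (e : ℤ) + f, hsum, ?_⟩
    refine count (α := 1) (β := x + e) one_ne_zero _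
      (fun p => Near m (2 * C) p ∧ ∃ q : ℕ, Near m (2 * C) q ∧
        (p : ℤ) + q = (x : ℤ) + y + ((e : ℤ) + f)) hcnt' ?_
    rintro n - ⟨-, hn2, hn3, hn4⟩
    obtain ⟨k1, k2, k3, k4⟩ := key _ _ _ _ n hn3 hn4
    have k5 := hnb n hn2
    refine ⟨k1, ?_, k3, _, k4, ?_⟩
    · omega
    · rw [Int.toNat_of_nonneg k1, Int.toNat_of_nonneg k2]
      ring
  · -- `Y` and `X`
    left
    refine ⟨y, hy, x, hx, (e : ℤ) + f, hsum, ?_⟩
    refine count (α := 1) (β := y + f) one_ne_zero _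
      (fun p => Near m (2 * C) p ∧ ∃ q : ℕ, Near m (2 * C) q ∧
        (p : ℤ) + q = (y : ℤ) + x + ((e : ℤ) + f)) hcnt' ?_
    rintro n - ⟨-, hn2, hn3, hn4⟩
    obtain ⟨k1, k2, k3, k4⟩ := key _ _ _ _ n hn3 hn4
    have k5 := hnb n hn2
    refine ⟨k2, ?_, k4, _, k3, ?_⟩
    · omega
    · rw [Int.toNat_of_nonneg k1, Int.toNat_of_nonneg k2]
      ring
  · -- both in `Y`
    right
    have hxy : x ≠ y := fun h => hbne (hi.trans hj.symm) (by rw [hbi, hbj, h])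
    rcases lt_or_gt_of_ne hxy with h | h
    · refine ⟨Y, Or.inr rfl, x, hx, y, hy, h, (f : ℤ) - e, hdif, ?_⟩
      refine count (α := -1) (β := x + e) (by norm_num) _
        (fun p => Near m (2 * C) p ∧ ∃ q : ℕ, Near m (2 * C) q ∧
          (q : ℤ) - p = (y : ℤ) - x + ((f : ℤ) - e)) hcnt' ?_
      rintro n - ⟨-, hn2, hn3, hn4⟩
      obtain ⟨k1, k2, k3, k4⟩ := key _ _ _ _ n hn3 hn4
      have k5 := hnb n hn2
      refine ⟨k1, ?_, k3, _, k4, ?_⟩
      · omega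
      · rw [Int.toNat_of_nonneg k1, Int.toNat_of_nonneg k2]
        ring
    · refine ⟨Y, Or.inr rfl, y, hy, x, hx, h, (e : ℤ) - f, hdif', ?_⟩
      refine count (α := -1) (β := y + f) (by norm_num) _
        (fun p => Near m (2 * C) p ∧ ∃ q : ℕ, Near m (2 * C) q ∧
          (q : ℤ) - p = (x : ℤ) - y + ((e : ℤ) - f)) hcnt' ?_
      rintro n - ⟨-, hn2, hn3, hn4⟩
      obtain ⟨k1, k2, k3, k4⟩ := key _ _ _ _ n hn3 hn4
      have k5 := hnb n hn2
      refine ⟨k2, ?_, k4, _, k3, ?_⟩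
      · omega
      · rw [Int.toNat_of_nonneg k1, Int.toNat_of_nonneg k2]
        ring

end Pool.Agent.TH899.UG.Pair4
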