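import Pool.Agent.TH899.UG.OGm

/-!
# Orbits of `x ↦ D x + e`: isolated primes (more than one half of the times)
-/

set_option autoImplicit false

namespace Pool.Agent.TH899.UG.OG

open Finset Filter Pool.Agent.H447R3.IT Pool.Agent.H732R3.BigQ Pool.Agent.W59.GB
open Pool.Agent.W218.OG (Pr S_iter_add B_eq B_ne_zero dvd_B big_primes exists_zero block not_Pr
  to_prime pr_nat big_count)
open Pool.Agent.TH899.UG

/-- the `i` such that, for many primes `p`, the value at time `m i` of the orbit which starts at `p`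
is prime, there are at most `J` primes in between, and the `R` values before and after each of the
two primes are not prime -/
def GapI (D : ℕ) (e : ℤ) (m J R : ℕ) : Set ℕ := {i | Big {p : ℕ | p.Prime ∧
  Pr ((S D e)^[m * i] (p : ℤ)) ∧ {l : ℕ | 0 < l ∧ l < m * i ∧ Pr ((S D e)^[l] (p : ℤ))}.ncard ≤ J ∧
  ∀ l, 0 < l → l ≤ R → ¬ Pr ((S D e)^[l] (p : ℤ)) ∧ ¬ Pr ((S D e)^[m * i + l] (p : ℤ)) ∧
    ¬ Pr ((S D e)^[m * i - l] (p : ℤ)) ∧ ∀ z : ℤ, Pr z → (S D e)^[l] z ≠ p}}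

theorem S_inj {D : ℕ} {e : ℤ} (hD : 2 ≤ D) {l : ℕ} {y z : ℤ}
    (h : (S D e)^[l] y = (S D e)^[l] z) : y = z := by
  rw [iter, iter] at h
  have h1 : (D : ℤ) ^ l ≠ 0 := by positivity
  have h2 : (D : ℤ) ^ l * y = (D : ℤ) ^ l * z := by linarith
  exact mul_left_cancel₀ h1 h2

/-- many classes: isolated primes -/
theorem classesI (D : ℕ) (e : ℤ) (m : ℕ) (hD : 2 ≤ D) (he : e ≠ 0) (hcop : IsCoprime e (D : ℤ))
    (hm0 : 0 < m) (hm : ∀ p : ℕ, p.Prime → p ∣ D - 1 → (p : ℤ) ∣ e * m) (R : ℕ) (hR : R < m)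
    {T K : ℕ} (PF : Finset (Fin T) → Prop)
    (hQ : ∀ (a b : Fin T → Fin K → ℤ), (∀ g i, 0 < a g i) →
      Function.Injective (fun x : Fin T × Fin K => (a x.1 x.2, b x.1 x.2)) →
      (∀ p : ℕ, p.Prime → ∃ n : ℤ, ∀ g i, ¬ ((p : ℤ) ∣ a g i * n + b g i)) →
      ∃ (F : Finset (Fin T)) (c : Fin T → Fin K), PF F ∧
        Big {n : ℕ | ∀ g ∈ F, 0 < a g (c g) * (n : ℤ) + b g (c g) ∧
          Prime (a g (c g) * (n : ℤ) + b g (c g))})
    (H : Fin T → Fin K → ℕ) (hinj : Function.Injective (fun x : Fin T × Fin K => H x.1 x.2)) :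
    ∃ (F : Finset (Fin T)) (c : Fin T → Fin K), PF F ∧
      ∀ g ∈ F, ∀ g' ∈ F, H g (c g) < H g' (c g') →
        H g' (c g') - H g (c g) ∈ GapI D e m (T * K) R := by
  classical
  obtain ⟨H', hH'⟩ : ∃ H' : Fin T → Fin K → ℕ, ∀ g i, H' g i = H g i + 1 := ⟨_, fun _ _ => rfl⟩
  have hinj' : Function.Injective (fun x : Fin T × Fin K => H' x.1 x.2) := by
    intro x y h
    have h1 : H' x.1 x.2 = H' y.1 y.2 := h
    rw [hH', hH'] at h1
    exact hinj (by show H x.1 x.2 = H y.1 y.2; omega)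
  set U₀ : ℕ := univ.sup fun x : Fin T × Fin K => m * H' x.1 x.2 with hU₀
  have hsup : ∀ g i, m * H' g i ≤ U₀ := fun g i =>
    le_sup (f := fun x : Fin T × Fin K => m * H' x.1 x.2) (mem_univ (g, i))
  obtain ⟨W, Q, r, F, c, hQ0, hW0, hW, hF, hB⟩ :=
    orbit_classesW (U₀ + R) D e m hD he hcop hm0 hm _ hQ H' hinj'
  refine ⟨F, c, hF, fun g hg g' hg' hlt => ?_⟩
  have hg1 := hH' g (c g)
  have hg2 := hH' g' (c g')
  have e0 : H' g' (c g') - H' g (c g) = H g' (c g') - H g (c g) := by omega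
  have hlt' : H' g (c g) < H' g' (c g') := by omega
  rw [← e0]
  set i₀ : ℕ := m * H' g (c g) with hi₀
  set i₁ : ℕ := m * H' g' (c g') with hi₁
  have hi01 : i₀ < i₁ := Nat.mul_lt_mul_of_pos_left hlt' hm0
  have e1 : i₀ + m * (H' g' (c g') - H' g (c g)) = i₁ := by
    rw [hi₀, hi₁, ← mul_add]; congr 1; omega
  have hdist : m ≤ m * (H' g' (c g') - H' g (c g)) := Nat.le_mul_of_pos_right m (by omega)
  have hi0m : m ≤ i₀ := Nat.le_mul_of_pos_right m (by omega)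
  have hs0 := hsup g (c g)
  have hs1 := hsup g' (c g')
  -- times near a multiple of `m` are not prescribed
  have hnot : ∀ (v l t : ℕ), 0 < l → l ≤ R → (t = m * v + l ∨ t + l = m * v) →
      ∀ g i, m * H' g i ≠ t := by
    intro v l t hl0 hl1 ht g i h
    have h1 : m ∣ l := by
      rcases ht with ht | ht
      · have h2 : m ∣ m * v + l := by rw [← ht, ← h]; exact dvd_mul_right _ _
        exact (Nat.dvd_add_right (dvd_mul_right _ _)).1 h2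
      · have h2 : m ∣ t + l := by rw [ht]; exact dvd_mul_right _ _
        have h3 : m ∣ t := by rw [← h]; exact dvd_mul_right _ _
        exact (Nat.dvd_add_right h3).1 h2
    have h2 := Nat.le_of_dvd hl0 h1
    omega
  refine to_prime hD hQ0 hB (i := i₀) (fun n hn => hn.1 g hg) fun n hn p hp hpp => ?_
  have key : ∀ l : ℕ, (S D e)^[l] (p : ℤ) = (S D e)^[i₀ + l] ((Q * n + r : ℕ) : ℤ) := by
    intro l
    rw [hp, ← S_iter_add]
  refine ⟨hpp, ?_, ?_, ?_⟩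
  · rw [key, e1]
    exact hn.1 g' hg'
  · set U : Finset ℕ := (univ : Finset (Fin T × Fin K)).image fun x => m * H' x.1 x.2 with hU
    have h1 : {l : ℕ | 0 < l ∧ l < m * (H' g' (c g') - H' g (c g)) ∧ Pr ((S D e)^[l] (p : ℤ))} ⊆
        ((U.image fun u => u - i₀ : Finset ℕ) : Set ℕ) := by
      rintro l ⟨hl0, hl1, hl2⟩
      rw [key] at hl2
      rw [Finset.mem_coe, mem_image]
      have hlW : i₀ + l ≤ W := by omega
      by_cases hex : ∃ g₀ i, m * H' g₀ i = i₀ + l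
      · obtain ⟨g₀, i, h0⟩ := hex
        exact ⟨m * H' g₀ i, mem_image.2 ⟨(g₀, i), mem_univ _, rfl⟩, by omega⟩
      · push Not at hex
        exact absurd hl2 (hn.2 _ hlW hex)
    have h2 := Set.ncard_le_ncard h1 (finite_toSet _)
    rw [Set.ncard_coe_finset] at h2
    refine h2.trans (card_image_le.trans (card_image_le.trans ?_))
    rw [card_univ, Fintype.card_prod, Fintype.card_fin, Fintype.card_fin]
  · intro l hl0 hl1
    refine ⟨?_, ?_, ?_, ?_⟩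
    · rw [key]
      exact hn.2 _ (by omega) (hnot (H' g (c g)) l _ hl0 hl1 (Or.inl rfl))
    · rw [key]
      refine hn.2 _ (by omega) (hnot (H' g' (c g')) l _ hl0 hl1 (Or.inl ?_))
      omega
    · rw [key]
      refine hn.2 _ (by omega) (hnot (H' g' (c g')) l _ hl0 hl1 (Or.inr ?_))
      omega
    · intro z hz hzp
      have h1 : (S D e)^[l] z = (S D e)^[l] ((S D e)^[i₀ - l] ((Q * n + r : ℕ) : ℤ)) := by
        rw [hzp, ← S_iter_add, hp]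
        congr 1
        omega
      have h2 := S_inj hD h1
      rw [h2] at hz
      exact hn.2 _ (by omega) (hnot (H' g (c g)) l _ hl0 hl1 (Or.inr (by omega))) hz

/-- more than one half: isolated primes, boundedly many primes in between -/
theorem generalI : ∃ δ : ℝ, 0 < δ ∧ ∃ J : ℕ, ∀ (D : ℕ) (e : ℤ) (m R : ℕ), 2 ≤ D → e ≠ 0 →
    IsCoprime e (D : ℤ) → 0 < m → (∀ p : ℕ, p.Prime → p ∣ D - 1 → (p : ℤ) ∣ e * m) → R < m →
    ∃ M : ℕ, 0 < M ∧ ∀ N : ℕ, 0 < N → M ∣ N → ∃ L : ℕ, ∀ T : ℕ, L ≤ T → ∀ u : ℕ,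
      (1 / 2 + δ) * T ≤ ({k : ℕ | u < k ∧ k ≤ u + T ∧ N * k ∈ GapI D e m J R}.ncard : ℝ) := by
  obtain ⟨c₁, hc0, hc1, hQ⟩ := quarterD
  obtain ⟨n, hn1, hn⟩ := mth c₁ hc0 hc1
  obtain ⟨K, hK, hQ⟩ := hQ n
  refine ⟨c₁ / 16, by positivity, n * K, ?_⟩
  intro D e m R hD he hcop hm0 hm hR
  refine hn K (GapI D e m (n * K) R) fun H hinj _ => ?_
  exact classesI D e m hD he hcop hm0 hm R hR (fun S => (n : ℝ) ≤ (4 - c₁) * S.card) hQ H hinj

/-- the conclusion for an orbit `a` of natural numbers -/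
theorem transferI : ∃ δ : ℝ, 0 < δ ∧ ∃ J : ℕ, ∀ (D : ℕ) (e : ℤ) (m : ℕ), 2 ≤ D → e ≠ 0 →
    IsCoprime e (D : ℤ) → 0 < m → (∀ p : ℕ, p.Prime → p ∣ D - 1 → (p : ℤ) ∣ e * m) →
    ∀ (a : ℕ → ℕ → ℕ), (∀ p j : ℕ, p.Prime → ((a p j : ℕ) : ℤ) = (S D e)^[j] (p : ℤ)) →
    ∀ R : ℕ, ∃ M : ℕ, R < M ∧ ∀ N : ℕ, 0 < N → M ∣ N → ∃ L : ℕ, ∀ T : ℕ, L ≤ T → ∀ u : ℕ,
      (1 / 2 + δ) * (T : ℝ) ≤ ({k : ℕ | u < k ∧ k ≤ u + T ∧ ∀ η : ℝ, 0 < η → ∃ᶠ x : ℝ in atTop,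
        x ^ (1 - η) ≤ ({p : ℕ | (p : ℝ) ≤ x ∧ p.Prime ∧ (a p (N * k)).Prime ∧
          {l : ℕ | 0 < l ∧ l < N * k ∧ (a p l).Prime}.ncard ≤ J ∧
          ∀ l, 0 < l → l ≤ R → ¬ (a p l).Prime ∧ ¬ (a p (N * k + l)).Prime ∧
            ¬ (a p (N * k - l)).Prime ∧ ∀ q : ℕ, q.Prime → a q l ≠ p}.ncard : ℝ)}.ncard : ℝ) := by
  obtain ⟨δ, hδ, J, h⟩ := generalI
  refine ⟨δ, hδ, J, ?_⟩
  intro D e m₀ hD he hcop hm00 hm' a ha R
  obtain ⟨m, hmd⟩ : ∃ m, m = m₀ * (R + 1) := ⟨_, rfl⟩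
  have hmR : R < m := by
    rw [hmd]
    nlinarith
  have hm0 : 0 < m := by omega
  have hm : ∀ p : ℕ, p.Prime → p ∣ D - 1 → (p : ℤ) ∣ e * m := by
    intro p hp hpd
    rw [hmd]
    push_cast
    rw [← mul_assoc]
    exact (hm' p hp hpd).mul_right _
  obtain ⟨M', hM', h2⟩ := h D e m R hD he hcop hm0 hm hmR
  have hpr : ∀ p j : ℕ, p.Prime → (Pr ((S D e)^[j] (p : ℤ)) ↔ (a p j).Prime) := by
    intro p j hp
    rw [← ha p j hp, pr_nat]
  refine ⟨m * M', lt_of_lt_of_le hmR (Nat.le_mul_of_pos_right m hM'), fun N hN hdv => ?_⟩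
  obtain ⟨t, rfl⟩ := hdv
  have ht : 0 < t := Nat.pos_of_ne_zero (by rintro rfl; simp at hN)
  obtain ⟨L, hL⟩ := h2 (M' * t) (Nat.mul_pos hM' ht) (dvd_mul_right _ _)
  refine ⟨L, fun T hT u => (hL T hT u).trans ?_⟩
  rw [Nat.cast_le]
  refine Set.ncard_le_ncard ?_ ((Set.finite_Ioc u (u + T)).subset fun k hk => ⟨hk.1, hk.2.1⟩)
  rintro k ⟨hk1, hk2, hk3⟩
  refine ⟨hk1, hk2, big_count (Big.mono ?_ hk3)⟩
  rintro p ⟨hp, hp1, hp2, hp3⟩
  have e1 : m * (M' * t * k) = m * M' * t * k := by ring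
  rw [e1] at hp1 hp2 hp3
  refine ⟨hp, (hpr p _ hp).1 hp1, le_trans (le_of_eq ?_) hp2, fun l hl0 hl1 => ?_⟩
  · congr 1
    ext l
    simp only [Set.mem_ofPred_eq]
    rw [hpr p l hp]
  · obtain ⟨k1, k2, k3, k4⟩ := hp3 l hl0 hl1
    refine ⟨fun h => k1 ((hpr p _ hp).2 h), fun h => k2 ((hpr p _ hp).2 h),
      fun h => k3 ((hpr p _ hp).2 h), fun q hq h => ?_⟩
    refine k4 (q : ℤ) ?_ ?_
    · exact ⟨by exact_mod_cast hq.pos, Nat.prime_iff_prime_int.1 hq⟩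
    · rw [← ha q l hq, h]

end Pool.Agent.TH899.UG.OG
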