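import Mathlib
import Pool.Agent.TH899.UG.ExL
import Pool.Agent.TH899.UG.BoxP

/-! Simultaneous primes `q r + 1` with the multipliers `r` from arbitrary finite sets. -/

set_option autoImplicit false

namespace Pool.Agent.TH899.UG.MS

open Finset Filter Topology
open Pool.Agent.TH899.UG.Uni

open Classical in
/-- the number of the `q` in `[x, 9 x]` for which all `q r_g + 1`, `g ∈ S`, are prime -/
noncomputable def cq {T : ℕ} (x : ℕ) (r : Fin T → ℕ) (S : Finset (Fin T)) : ℕ :=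
  ((Icc x (9 * x)).filter (fun q : ℕ => ∀ g ∈ S, (q * r g + 1).Prime)).card

theorem cq_congr {T : ℕ} (x : ℕ) (r r' : Fin T → ℕ) (S : Finset (Fin T))
    (h : ∀ g ∈ S, r g = r' g) : cq x r S = cq x r' S := by
  classical
  unfold cq
  congr 1
  apply filter_congr
  intro n _
  constructor
  · intro h1 g hg
    rw [← h g hg]; exact h1 g hg
  · intro h1 g hg
    rw [h g hg]; exact h1 g hg

theorem cq_mono {T : ℕ} (x : ℕ) (r : Fin T → ℕ) (S S' : Finset (Fin T)) (h : S ⊆ S') :
    cq x r S' ≤ cq x r S := by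
  classical
  unfold cq
  apply card_le_card
  intro n hn
  rw [mem_filter] at hn ⊢
  exact ⟨hn.1, fun g hg => hn.2 g (h hg)⟩

/-- few functions have a collision -/
theorem coll {T : ℕ} (R : Fin T → Finset ℕ) (g g' : Fin T) (hne : g ≠ g') :
    ((Fintype.piFinset R).filter (fun f => f g = f g')).card * (R g).card ≤
      (Fintype.piFinset R).card := by
  classical
  rw [← card_product]
  refine card_le_card_of_injOn (fun z : (Fin T → ℕ) × ℕ => Function.update z.1 g z.2) ?_ ?_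
  · intro z hz
    obtain ⟨h2, h3⟩ := mem_product.1 (mem_coe.1 hz)
    obtain ⟨h4, h5⟩ := mem_filter.1 h2
    rw [Fintype.mem_piFinset] at h4
    refine mem_coe.2 (Fintype.mem_piFinset.2 fun k => ?_)
    by_cases hk : k = g
    · subst hk
      show Function.update z.1 k z.2 k ∈ R k
      rw [Function.update_self]
      exact h3
    · show Function.update z.1 g z.2 k ∈ R k
      rw [Function.update_of_ne hk]
      exact h4 k
  · intro z hz z' hz' hzz
    obtain ⟨h2, h3⟩ := mem_product.1 (mem_coe.1 hz)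
    obtain ⟨h2', h3'⟩ := mem_product.1 (mem_coe.1 hz')
    have h4 := (mem_filter.1 h2).2
    have h4' := (mem_filter.1 h2').2
    have h5 : Function.update z.1 g z.2 = Function.update z'.1 g z'.2 := hzz
    have h6 : z.2 = z'.2 := by
      have := congrFun h5 g
      rwa [Function.update_self, Function.update_self] at this
    have h7 : ∀ k, k ≠ g → z.1 k = z'.1 k := by
      intro k hk
      have := congrFun h5 k
      rwa [Function.update_of_ne hk, Function.update_of_ne hk] at this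
    have h8 : z.1 g = z'.1 g := by
      have h9 := h7 g' (Ne.symm hne)
      rw [h4, h9, h4']
    refine Prod.ext ?_ h6
    funext k
    by_cases hk : k = g
    · rw [hk]; exact h8
    · exact h7 k hk

open Classical in
/-- the good multipliers for the classes of `S` -/
noncomputable def G {T : ℕ} (x : ℕ) (η : ℝ) (R : Fin T → Finset ℕ) (S : Finset (Fin T)) :
    Finset (Fin T → ℕ) :=
  (Fintype.piFinset (fun g => if g ∈ S then R g else {0})).filter
    (fun r => (∀ g ∈ S, ∀ g' ∈ S, g ≠ g' → r g ≠ r g') ∧ (x : ℝ) ^ (1 - η) ≤ cq x r S)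

open Classical in
theorem part {T : ℕ} (x : ℕ) (η : ℝ) (R : Fin T → Finset ℕ) (S : Finset (Fin T)) :
    ((Fintype.piFinset R).filter (fun f => (∀ g ∈ S, ∀ g' ∈ S, g ≠ g' → f g ≠ f g') ∧
      (x : ℝ) ^ (1 - η) ≤ cq x f S)).card ≤ (G x η R S).card * ∏ g ∈ univ \ S, (R g).card := by
  have h2 : (Fintype.piFinset (fun g => if g ∈ S then ({0} : Finset ℕ) else R g)).card =
      ∏ g ∈ univ \ S, (R g).card := by
    rw [Fintype.card_piFinset, ← Finset.prod_sdiff (Finset.subset_univ S)]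
    have e1 : ∏ g ∈ S, (if g ∈ S then ({0} : Finset ℕ) else R g).card = 1 := by
      refine prod_eq_one fun g hg => ?_
      rw [if_pos hg, card_singleton]
    rw [e1, mul_one]
    refine prod_congr rfl fun g hg => ?_
    rw [if_neg (mem_sdiff.1 hg).2]
  rw [← h2, ← card_product]
  refine card_le_card_of_injOn (fun t => ((fun g => if g ∈ S then t g else 0),
    (fun g => if g ∈ S then 0 else t g))) ?_ ?_
  · intro t ht
    obtain ⟨h3, h5, h4⟩ := mem_filter.1 (mem_coe.1 ht)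
    rw [Fintype.mem_piFinset] at h3
    refine mem_coe.2 (mem_product.2 ⟨mem_filter.2 ⟨Fintype.mem_piFinset.2 fun g => ?_, ?_, ?_⟩,
      Fintype.mem_piFinset.2 fun g => ?_⟩)
    · by_cases hg : g ∈ S
      · rw [if_pos hg]
        show (if g ∈ S then t g else 0) ∈ R g
        rw [if_pos hg]
        exact h3 g
      · rw [if_neg hg]
        show (if g ∈ S then t g else 0) ∈ ({0} : Finset ℕ)
        rw [if_neg hg]
        exact mem_singleton_self _
    · intro g hg g' hg' hne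
      show (if g ∈ S then t g else 0) ≠ (if g' ∈ S then t g' else 0)
      rw [if_pos hg, if_pos hg']
      exact h5 g hg g' hg' hne
    · refine h4.trans ?_
      rw [Nat.cast_le]
      refine le_of_eq (cq_congr _ _ _ _ fun g hg => ?_)
      show t g = (if g ∈ S then t g else 0)
      rw [if_pos hg]
    · by_cases hg : g ∈ S
      · rw [if_pos hg]
        show (if g ∈ S then 0 else t g) ∈ ({0} : Finset ℕ)
        rw [if_pos hg]
        exact mem_singleton_self _
      · rw [if_neg hg]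
        show (if g ∈ S then 0 else t g) ∈ R g
        rw [if_neg hg]
        exact h3 g
  · intro t _ t' _ htt
    have e1 : ∀ g, (if g ∈ S then t g else 0) = (if g ∈ S then t' g else 0) :=
      fun g => congrFun (congrArg Prod.fst htt) g
    have e2 : ∀ g, (if g ∈ S then 0 else t g) = (if g ∈ S then 0 else t' g) :=
      fun g => congrFun (congrArg Prod.snd htt) g
    funext g
    by_cases hg : g ∈ S
    · have := e1 g
      rwa [if_pos hg, if_pos hg] at this
    · have := e2 g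
      rwa [if_neg hg, if_neg hg] at this

open Classical in
/-- **Main theorem.** -/
theorem ms (M : ℕ) (hM : 1 ≤ M) (ε : ℝ) (hε : 0 < ε) (hε1 : ε ≤ 1) : ∃ L : ℕ, ∀ A : ℕ,
    ∀ η : ℝ, 0 < η → ∀ᶠ x : ℕ in atTop, ∀ R : Fin (4 * M) → Finset ℕ, (∀ g, L ≤ (R g).card) →
      (∀ g, ∀ r ∈ R g, 1 ≤ r ∧ r ≤ A) → ∃ S : Finset (Fin (4 * M)), S.card = M + 1 ∧
      (1 - ε) / ((4 * M).choose (M + 1)) * ∏ g ∈ S, ((R g).card : ℝ) ≤ ((G x η R S).card : ℝ) := by
  obtain ⟨c, hc, hc1, H⟩ := exactL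
  have hM0 : (1 : ℝ) ≤ M := by exact_mod_cast hM
  obtain ⟨K, hK, H⟩ := H (4 * M) M (by omega) (by push_cast; nlinarith)
  obtain ⟨C, E, hC, HB⟩ := box_pow K (4 * M)
  obtain ⟨R₁, hR₁⟩ := exists_nat_ge (C / (ε / 2) ^ E)
  obtain ⟨R₂, hR₂⟩ := exists_nat_ge (2 * ((4 * M : ℕ) : ℝ) ^ 2 / ε)
  obtain ⟨L, hL⟩ : ∃ L : ℕ, L = R₁ + R₂ + 1 := ⟨_, rfl⟩
  have hLa : C / (ε / 2) ^ E ≤ (L : ℝ) := by
    refine hR₁.trans ?_
    exact_mod_cast (by omega : R₁ ≤ L)
  have hLb : 2 * ((4 * M : ℕ) : ℝ) ^ 2 / ε ≤ (L : ℝ) := by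
    refine hR₂.trans ?_
    exact_mod_cast (by omega : R₂ ≤ L)
  have hL0 : (0 : ℝ) < L := by exact_mod_cast (by omega : 0 < L)
  refine ⟨L, fun A η hη => ?_⟩
  have htend : Tendsto (fun s : ℕ => 16 * s) atTop atTop :=
    tendsto_atTop.2 fun b => by
      filter_upwards [eventually_ge_atTop b] with s hs
      omega
  filter_upwards [htend.eventually (H A (min η 1) (by positivity)), eventually_ge_atTop 1]
    with x hN hx
  intro R hRL hRA
  set P := Fintype.piFinset R with hP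
  have hPc : (P.card : ℝ) = ∏ g, ((R g).card : ℝ) := by
    rw [hP, Fintype.card_piFinset]
    push_cast
    rfl
  have hRpos : ∀ g, (0 : ℝ) < (R g).card := fun g => by
    have := hRL g
    exact_mod_cast (by omega : 0 < (R g).card)
  have hP0 : (0 : ℝ) < P.card := by
    rw [hPc]
    exact Finset.prod_pos fun g _ => hRpos g
  set 𝒮 := (univ : Finset (Finset (Fin (4 * M)))).filter (fun S => S.card = M + 1) with h𝒮
  have h𝒮c : (𝒮.card : ℝ) = ((4 * M).choose (M + 1) : ℝ) := by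
    have h1 : 𝒮 = (univ : Finset (Fin (4 * M))).powersetCard (M + 1) := by
      ext S
      simp [h𝒮, mem_powersetCard]
    rw [h1, card_powersetCard, card_univ, Fintype.card_fin]
  set Cl := (univ : Finset (Fin (4 * M) × Fin (4 * M))).filter (fun z => z.1 ≠ z.2) with hCl
  set Bc := Cl.biUnion (fun z => P.filter (fun f => f z.1 = f z.2)) with hBc
  have hBcc : (Bc.card : ℝ) ≤ ε / 2 * P.card := by
    have h1 : (Bc.card : ℝ) ≤ ∑ z ∈ Cl, ((P.filter (fun f => f z.1 = f z.2)).card : ℝ) := by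
      rw [hBc]
      exact_mod_cast card_biUnion_le
    have h2 : ∀ z ∈ Cl, ((P.filter (fun f => f z.1 = f z.2)).card : ℝ) ≤ P.card / L := by
      intro z hz
      have h3 := coll R z.1 z.2 (mem_filter.1 hz).2
      rw [le_div_iff₀ hL0]
      have h4 : (P.filter (fun f => f z.1 = f z.2)).card * L ≤ P.card :=
        (Nat.mul_le_mul_left _ (hRL z.1)).trans h3
      exact_mod_cast h4
    have h3 := h1.trans (sum_le_card_nsmul _ _ _ h2)
    have h4 : (Cl.card : ℝ) ≤ ((4 * M : ℕ) : ℝ) ^ 2 := by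
      have : Cl.card ≤ (4 * M) * (4 * M) := by
        refine (card_le_univ _).trans ?_
        rw [Fintype.card_prod, Fintype.card_fin]
      have h5 : (Cl.card : ℝ) ≤ (((4 * M) * (4 * M) : ℕ) : ℝ) := by exact_mod_cast this
      rw [Nat.cast_mul] at h5
      rw [sq]
      exact h5
    rw [nsmul_eq_mul] at h3
    have h6 : (Cl.card : ℝ) * (P.card / L) ≤ ((4 * M : ℕ) : ℝ) ^ 2 * (P.card / L) :=
      mul_le_mul_of_nonneg_right h4 (by positivity)
    have h7 : ((4 * M : ℕ) : ℝ) ^ 2 * ((P.card : ℝ) / L) ≤ ε / 2 * P.card := by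
      have h8 : ((4 * M : ℕ) : ℝ) ^ 2 / L ≤ ε / 2 := by
        rw [div_le_iff₀ hL0]
        rw [div_le_iff₀ hε] at hLb
        linarith
      calc ((4 * M : ℕ) : ℝ) ^ 2 * ((P.card : ℝ) / L) = ((4 * M : ℕ) : ℝ) ^ 2 / L * P.card := by ring
        _ ≤ _ := mul_le_mul_of_nonneg_right h8 hP0.le
    linarith
  set B := P.filter (fun f => (∀ S ∈ 𝒮, ¬ ((x : ℝ) ^ (1 - η) ≤ cq x f S)) ∧ f ∉ Bc) with hB
  have hBlt : (B.card : ℝ) < ε / 2 * P.card := by
    by_contra hcon
    rw [not_lt] at hcon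
    obtain ⟨Af, hA1, hA2⟩ := HB (ε / 2) (by linarith) (by linarith) ℕ R
      (fun i => hLa.trans (by exact_mod_cast hRL i)) B
      (filter_subset _ _) (by rw [← hPc]; exact hcon)
    have hmem : ∀ g i, Af g i ∈ R g := by
      intro g i
      have h1 := hA2 (fun _ => i)
      have h2 := (mem_filter.1 h1).1
      rw [hP, Fintype.mem_piFinset] at h2
      exact h2 g
    obtain ⟨S, σ, hS, hcnt⟩ := hN (fun g i => (Af g i : ℤ)) (fun _ _ => 1)
      (fun g i => by
        have := (hRA g _ (hmem g i)).1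
        show (Af g i : ℤ) ≠ 0
        omega)
      (fun g i => by
        show |(Af g i : ℤ)| ≤ A
        rw [Nat.abs_cast]
        exact_mod_cast (hRA g _ (hmem g i)).2)
      (fun g i => by
        show 5 * |(1 : ℤ)| ≤ 6 * ((16 * x : ℕ) : ℤ)
        rw [abs_one]
        push_cast
        omega)
      (fun g i y h1 h2 => by
        have h3 : (1 : ℝ) ≤ ((Af g i : ℕ) : ℝ) := by exact_mod_cast (hRA g _ (hmem g i)).1
        have h4 : (0 : ℝ) ≤ ((16 * x : ℕ) : ℝ) := Nat.cast_nonneg _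
        have h5 : y ≤ ((Af g i : ℕ) : ℝ) * y := by nlinarith
        push_cast at h1 h2 h4 h5 ⊢
        linarith)
      (by
        rintro ⟨g, i⟩ ⟨g', i'⟩ h
        have h2 : (Af g i : ℤ) = Af g' i' := congrArg Prod.fst h
        have h2' : Af g i = Af g' i' := by exact_mod_cast h2
        by_cases hg : g = g'
        · subst hg
          rw [hA1 g h2']
        · exfalso
          have h5 := hA2 (Function.update (fun _ => i) g' i')
          have h6 := (mem_filter.1 h5).2.2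
          apply h6
          refine mem_biUnion.2 ⟨(g, g'), mem_filter.2 ⟨mem_univ _, hg⟩,
            mem_filter.2 ⟨(mem_filter.1 h5).1, ?_⟩⟩
          simp only [Function.update_self, Function.update_of_ne hg]
          exact h2')
      (by
        intro p hp
        refine ⟨0, fun g i h => ?_⟩
        rw [mul_zero, zero_add] at h
        have h1 : (p : ℤ) ≤ 1 := Int.le_of_dvd one_pos h
        have h2 := hp.two_le
        omega)
    have h1 := hA2 σ
    obtain ⟨h2, h3, -⟩ := mem_filter.1 h1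
    obtain ⟨S', hS', hS'c⟩ := exists_subset_card_eq hS
    apply h3 S' (mem_filter.2 ⟨mem_univ _, hS'c⟩)
    have hxN : (x : ℝ) ^ (1 - η) ≤ ((16 * x : ℕ) : ℝ) ^ (1 - min η 1) := by
      have h4 : (1 : ℝ) ≤ x := by exact_mod_cast hx
      have h5 : (x : ℝ) ^ (1 - η) ≤ (x : ℝ) ^ (1 - min η 1) :=
        Real.rpow_le_rpow_of_exponent_le h4 (by linarith [min_le_left η 1])
      have h6 : (x : ℝ) ^ (1 - min η 1) ≤ ((16 * x : ℕ) : ℝ) ^ (1 - min η 1) :=
        Real.rpow_le_rpow (by linarith) (by push_cast; linarith)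
          (by linarith [min_le_right η 1])
      exact h5.trans h6
    refine hxN.trans (hcnt.trans ?_)
    rw [Nat.cast_le]
    refine le_trans ?_ (cq_mono x (fun i => Af i (σ i)) S' S hS')
    unfold cq
    apply card_le_card
    intro n hn
    obtain ⟨h4, h5, h6, h7⟩ := mem_filter.1 hn
    refine mem_filter.2 ⟨mem_Icc.2 ⟨by omega, by omega⟩, fun g hg => ?_⟩
    have h8 := h7 g hg
    have h9 : ((Af g (σ g) : ℤ) * (n : ℤ) + 1).toNat = n * Af g (σ g) + 1 := by
      have : (Af g (σ g) : ℤ) * (n : ℤ) + 1 = ((n * Af g (σ g) + 1 : ℕ) : ℤ) := by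
        push_cast; ring
      rw [this, Int.toNat_natCast]
    rw [h9] at h8
    exact h8
  have hcov : P ⊆ (B ∪ Bc) ∪ 𝒮.biUnion (fun S => P.filter (fun f =>
      (∀ g ∈ S, ∀ g' ∈ S, g ≠ g' → f g ≠ f g') ∧ (x : ℝ) ^ (1 - η) ≤ cq x f S)) := by
    intro f hf
    by_cases h1 : f ∈ Bc
    · exact mem_union_left _ (mem_union_right _ h1)
    by_cases h2 : f ∈ B
    · exact mem_union_left _ (mem_union_left _ h2)
    · refine mem_union_right _ ?_
      rw [hB, mem_filter, not_and, not_and] at h2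
      have h3 := h2 hf
      have h4 : ¬ (∀ S ∈ 𝒮, ¬ ((x : ℝ) ^ (1 - η) ≤ cq x f S)) := fun h => h3 h h1
      push Not at h4
      obtain ⟨S, hS, h5⟩ := h4
      refine mem_biUnion.2 ⟨S, hS, mem_filter.2 ⟨hf, fun g _ g' _ hne he => ?_, h5⟩⟩
      exact h1 (mem_biUnion.2 ⟨(g, g'), mem_filter.2 ⟨mem_univ _, hne⟩,
        mem_filter.2 ⟨hf, he⟩⟩)
  have h1 : (P.card : ℝ) ≤ (B.card : ℝ) + Bc.card + ∑ S ∈ 𝒮, ((P.filter (fun f =>
      (∀ g ∈ S, ∀ g' ∈ S, g ≠ g' → f g ≠ f g') ∧ (x : ℝ) ^ (1 - η) ≤ cq x f S)).card : ℝ) := by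
    have h2 := card_le_card hcov
    have h3 := card_union_le (B ∪ Bc) (𝒮.biUnion (fun S => P.filter (fun f =>
      (∀ g ∈ S, ∀ g' ∈ S, g ≠ g' → f g ≠ f g') ∧ (x : ℝ) ^ (1 - η) ≤ cq x f S)))
    have h4 := card_union_le B Bc
    have h5 : (𝒮.biUnion (fun S => P.filter (fun f =>
      (∀ g ∈ S, ∀ g' ∈ S, g ≠ g' → f g ≠ f g') ∧ (x : ℝ) ^ (1 - η) ≤ cq x f S))).card ≤
      ∑ S ∈ 𝒮, (P.filter (fun f =>
      (∀ g ∈ S, ∀ g' ∈ S, g ≠ g' → f g ≠ f g') ∧ (x : ℝ) ^ (1 - η) ≤ cq x f S)).card :=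
      card_biUnion_le
    have h6 : P.card ≤ B.card + Bc.card + ∑ S ∈ 𝒮, (P.filter (fun f =>
      (∀ g ∈ S, ∀ g' ∈ S, g ≠ g' → f g ≠ f g') ∧ (x : ℝ) ^ (1 - η) ≤ cq x f S)).card := by omega
    exact_mod_cast h6
  by_contra hcon
  push Not at hcon
  have hch : (0 : ℝ) < ((4 * M).choose (M + 1) : ℝ) := by
    have : 0 < (4 * M).choose (M + 1) := Nat.choose_pos (by omega)
    exact_mod_cast this
  have h2 : ∀ S ∈ 𝒮, ((P.filter (fun f =>
      (∀ g ∈ S, ∀ g' ∈ S, g ≠ g' → f g ≠ f g') ∧ (x : ℝ) ^ (1 - η) ≤ cq x f S)).card : ℝ) <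
      (1 - ε) / ((4 * M).choose (M + 1)) * P.card := by
    intro S hS
    have h3 := hcon S (mem_filter.1 hS).2
    have h4 : ((P.filter (fun f =>
      (∀ g ∈ S, ∀ g' ∈ S, g ≠ g' → f g ≠ f g') ∧ (x : ℝ) ^ (1 - η) ≤ cq x f S)).card : ℝ) ≤
      (G x η R S).card * ∏ g ∈ univ \ S, ((R g).card : ℝ) := by
      have := part x η R S
      exact_mod_cast this
    have h5 : (0 : ℝ) < ∏ g ∈ univ \ S, ((R g).card : ℝ) := Finset.prod_pos fun g _ => hRpos g
    refine h4.trans_lt ((mul_lt_mul_of_pos_right h3 h5).trans_le (le_of_eq ?_))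
    rw [hPc, ← Finset.prod_sdiff (Finset.subset_univ S)]
    ring
  have h𝒮ne : 𝒮.Nonempty := by
    rw [← card_pos]
    have : (0 : ℝ) < 𝒮.card := by rw [h𝒮c]; exact hch
    exact_mod_cast this
  have h3 := Finset.sum_lt_sum_of_nonempty h𝒮ne h2
  rw [sum_const, nsmul_eq_mul, h𝒮c] at h3
  have h4 : ((4 * M).choose (M + 1) : ℝ) * ((1 - ε) / ((4 * M).choose (M + 1)) * P.card) =
      (1 - ε) * P.card := by
    field_simp
  rw [h4] at h3
  linarith

end Pool.Agent.TH899.UG.MS
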