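import Mathlib
import Pool.Agent.TH899.UG.DN3
import Pool.Agent.H732R3.TupIP

/-! Dilates by powers, up to bounded perturbations of positive density, at every scale. -/

set_option autoImplicit false

namespace Pool.Agent.TH899.UG.NDl

open Finset Filter Topology
open Pool.Agent.TH899.UG.DN

/-- the slope of a word -/
def sp {n k : ℕ} (a : Fin (k + 1) → ℕ) (w : Fin n → Fin (k + 1)) : ℕ := ∏ j, a (w j)

theorem sp_pos {n k : ℕ} (a : Fin (k + 1) → ℕ) (ha : ∀ i, 1 ≤ a i) (w : Fin n → Fin (k + 1)) :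
    1 ≤ sp a w := by
  unfold sp
  exact Nat.succ_le_of_lt (Finset.prod_pos fun j _ => ha (w j))

theorem sp_le {n k : ℕ} (a : Fin (k + 1) → ℕ) (B : ℕ) (hB : ∀ i, a i ≤ B)
    (w : Fin n → Fin (k + 1)) : sp a w ≤ B ^ n := by
  unfold sp
  calc ∏ j, a (w j) ≤ ∏ _j : Fin n, B := Finset.prod_le_prod (fun _ _ => Nat.zero_le _)
        (fun j _ => hB (w j))
    _ = B ^ n := by rw [prod_const, card_univ, Fintype.card_fin]

/-- the slopes along a line -/
theorem sp_line {n k : ℕ} (a : Fin (k + 1) → ℕ) (L : Combinatorics.Line (Fin (k + 1)) (Fin n))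
    (h0 : a 0 = 1) (i : Fin (k + 1)) :
    sp a (L i) = a i ^ (univ.filter (fun j => L.idxFun j = none)).card * sp a (L 0) := by
  classical
  unfold sp
  rw [← prod_filter_mul_prod_filter_not univ (fun j => L.idxFun j = none) (fun j => a (L i j)),
    ← prod_filter_mul_prod_filter_not univ (fun j => L.idxFun j = none) (fun j => a (L 0 j))]
  have h1 : ∏ j ∈ univ.filter (fun j => L.idxFun j = none), a (L i j) =
      a i ^ (univ.filter (fun j => L.idxFun j = none)).card := by
    rw [← prod_const]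
    refine prod_congr rfl fun j hj => ?_
    rw [Combinatorics.Line.apply_none _ _ _ (mem_filter.1 hj).2]
  have h2 : ∏ j ∈ univ.filter (fun j => L.idxFun j = none), a (L 0 j) = 1 := by
    refine prod_eq_one fun j hj => ?_
    rw [Combinatorics.Line.apply_none _ _ _ (mem_filter.1 hj).2, h0]
  have h3 : ∏ j ∈ univ.filter (fun j => ¬ L.idxFun j = none), a (L i j) =
      ∏ j ∈ univ.filter (fun j => ¬ L.idxFun j = none), a (L 0 j) := by
    refine prod_congr rfl fun j hj => ?_
    obtain ⟨y, hy⟩ := Option.ne_none_iff_exists'.1 (mem_filter.1 hj).2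
    rw [Combinatorics.Line.apply_some hy, Combinatorics.Line.apply_some hy]
  rw [h1, h2, h3, one_mul]

open Classical in
/-- restriction of the good perturbations to some of the classes -/
theorem restr {T k : ℕ} (N H M : ℕ) (η : ℝ) (a b : Fin T → ℤ) (S : Finset (Fin T))
    (hS : S.card = M + 1) (g : Fin (k + 1) → Fin T) (hg : Function.Injective g)
    (hgS : ∀ i, g i ∈ S) (Z : Finset (Fin k → ℤ)) (r : Fin k → ℤ)
    (hZ : ∀ e ∈ G N H η a b S, (fun i : Fin k => (e (g i.succ) : ℤ) - r i * e (g 0)) ∈ Z) :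
    (G N H η a b S).card ≤ Z.card * H ^ (M + 1 - k) := by
  set F : Finset (Fin T → ℕ) := Fintype.piFinset (fun x =>
    if x ∈ S \ (univ.image (fun i : Fin k => g i.succ)) then range H else {0}) with hF
  have hsub : univ.image (fun i : Fin k => g i.succ) ⊆ S := by
    intro x hx
    obtain ⟨i, -, rfl⟩ := mem_image.1 hx
    exact hgS _
  have hFc : F.card = H ^ (M + 1 - k) := by
    rw [hF, Fintype.card_piFinset,
      ← Finset.prod_sdiff (Finset.subset_univ (S \ (univ.image (fun i : Fin k => g i.succ))))]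
    have e1 : ∏ x ∈ univ \ (S \ (univ.image (fun i : Fin k => g i.succ))),
        (if x ∈ S \ (univ.image (fun i : Fin k => g i.succ)) then range H else
          ({0} : Finset ℕ)).card = 1 := by
      refine prod_eq_one fun x hx => ?_
      rw [if_neg (mem_sdiff.1 hx).2, card_singleton]
    have e2 : ∏ x ∈ S \ (univ.image (fun i : Fin k => g i.succ)),
        (if x ∈ S \ (univ.image (fun i : Fin k => g i.succ)) then range H else
          ({0} : Finset ℕ)).card = H ^ (M + 1 - k) := by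
      rw [prod_congr rfl (fun x hx => by rw [if_pos hx, card_range]), prod_const]
      congr 1
      rw [card_sdiff_of_subset hsub, hS, card_image_of_injective _ (fun i i' h =>
        Fin.succ_injective _ (hg h)), card_univ, Fintype.card_fin]
    rw [e1, e2, one_mul]
  rw [← hFc, ← card_product]
  refine card_le_card_of_injOn (fun e => ((fun i : Fin k => (e (g i.succ) : ℤ) - r i * e (g 0)),
    (fun x => if x ∈ S \ (univ.image (fun i : Fin k => g i.succ)) then e x else 0))) ?_ ?_
  · intro e he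
    have he' := mem_coe.1 he
    refine mem_coe.2 (mem_product.2 ⟨hZ e he', Fintype.mem_piFinset.2 fun x => ?_⟩)
    obtain ⟨h1, -⟩ := mem_filter.1 he'
    rw [Fintype.mem_piFinset] at h1
    by_cases hx : x ∈ S \ (univ.image (fun i : Fin k => g i.succ))
    · rw [if_pos hx]
      show (if x ∈ S \ (univ.image (fun i : Fin k => g i.succ)) then e x else 0) ∈ range H
      rw [if_pos hx]
      have := h1 x
      rwa [if_pos (mem_sdiff.1 hx).1] at this
    · rw [if_neg hx]
      show (if x ∈ S \ (univ.image (fun i : Fin k => g i.succ)) then e x else 0) ∈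
        ({0} : Finset ℕ)
      rw [if_neg hx]
      exact mem_singleton_self _
  · intro e he e' he' hee
    obtain ⟨h1, -⟩ := mem_filter.1 (mem_coe.1 he)
    obtain ⟨h1', -⟩ := mem_filter.1 (mem_coe.1 he')
    rw [Fintype.mem_piFinset] at h1 h1'
    have e1 : ∀ i : Fin k, (e (g i.succ) : ℤ) - r i * e (g 0) =
        (e' (g i.succ) : ℤ) - r i * e' (g 0) := fun i => congrFun (congrArg Prod.fst hee) i
    have e2 : ∀ x, (if x ∈ S \ (univ.image (fun i : Fin k => g i.succ)) then e x else 0) =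
        (if x ∈ S \ (univ.image (fun i : Fin k => g i.succ)) then e' x else 0) :=
      fun x => congrFun (congrArg Prod.snd hee) x
    have h0 : e (g 0) = e' (g 0) := by
      have h3 : g 0 ∈ S \ (univ.image (fun i : Fin k => g i.succ)) := by
        refine Finset.mem_sdiff.2 ⟨hgS 0, fun h => ?_⟩
        obtain ⟨i, -, hi⟩ := mem_image.1 h
        exact absurd (hg hi) (Fin.succ_ne_zero i)
      have := e2 (g 0)
      rwa [if_pos h3, if_pos h3] at this
    funext x
    by_cases hxS : x ∈ S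
    · by_cases hx : x ∈ univ.image (fun i : Fin k => g i.succ)
      · obtain ⟨i, -, rfl⟩ := mem_image.1 hx
        have := e1 i
        rw [h0] at this
        have h5 : (e (g i.succ) : ℤ) = e' (g i.succ) := by linarith
        exact_mod_cast h5
      · have h3 : x ∈ S \ (univ.image (fun i : Fin k => g i.succ)) := mem_sdiff.2 ⟨hxS, hx⟩
        have := e2 x
        rwa [if_pos h3, if_pos h3] at this
    · have h2 := h1 x
      have h3 := h1' x
      rw [if_neg hxS, mem_singleton] at h2 h3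
      rw [h2, h3]

open Classical in
/-- **Dilates by powers.** -/
theorem nd (k : ℕ) : ∃ n : ℕ, ∀ a : Fin k → ℕ, (∀ i, 1 ≤ a i) → ∃ (C : ℕ) (δ : ℝ), 0 < δ ∧
    ∀ η : ℝ, 0 < η → ∀ᶠ N : ℕ in atTop, ∀ H : ℕ, C ≤ H → C * H ≤ N → ∀ e : ℤ, C * |e| ≤ N →
    ∃ m : ℕ, 1 ≤ m ∧ m ≤ n ∧ δ * (H : ℝ) ^ k ≤ ({c : Fin k → ℤ | (∀ i, |c i| ≤ H) ∧
      (N : ℝ) ^ (1 - η) ≤ ({p : ℕ | p ≤ C * N ∧ p.Prime ∧ ∀ i, ∃ q : ℕ, q.Prime ∧
        (q : ℤ) = (a i : ℤ) ^ m * (p + e) - e + c i}.ncard : ℝ)}.ncard : ℝ) := by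
  obtain ⟨n, hn⟩ := Pool.Agent.H732R3.Tup.dhj_quarter k
  obtain ⟨c, hc, hc1, HD⟩ := dens
  obtain ⟨T, hT⟩ : ∃ T : ℕ, T = (k + 1) ^ n := ⟨_, rfl⟩
  have hT1 : 1 ≤ T := by rw [hT]; exact Nat.one_le_pow _ _ (by omega)
  obtain ⟨M, hM⟩ : ∃ M : ℕ, M = (T - 1) / 4 := ⟨_, rfl⟩
  have hM1 : 4 * M < T := by omega
  have hM2 : T ≤ 4 * (M + 1) := by omega
  have HD := HD T M hT1 (by
    have h1 : (4 * M : ℝ) < T := by exact_mod_cast hM1
    have h2 : (0 : ℝ) ≤ c * M := by positivity
    nlinarith)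
  refine ⟨n, fun a0 ha0 => ?_⟩
  set a : Fin (k + 1) → ℕ := Fin.cons 1 a0 with ha
  have ha1 : ∀ i, 1 ≤ a i := by
    intro i
    refine Fin.cases ?_ (fun i => ?_) i
    · simp [ha]
    · simpa [ha] using ha0 i
  have ha00 : a 0 = 1 := by simp [ha]
  have has : ∀ i : Fin k, a i.succ = a0 i := by intro i; simp [ha]
  obtain ⟨B, hB⟩ : ∃ B : ℕ, B = ∑ i, a i := ⟨_, rfl⟩
  have hBle : ∀ i, a i ≤ B := by
    intro i
    rw [hB]
    exact single_le_sum (f := a) (fun _ _ => Nat.zero_le _) (mem_univ i)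
  have hB1 : 1 ≤ B := (ha1 0).trans (hBle 0)
  obtain ⟨A, hA⟩ : ∃ A : ℕ, A = B ^ n := ⟨_, rfl⟩
  have hA1 : 1 ≤ A := by rw [hA]; exact Nat.one_le_pow _ _ hB1
  obtain ⟨P, hP⟩ : ∃ P : ℕ, P = (T + A + 1).factorial := ⟨_, rfl⟩
  have hP0 : 0 < P := by rw [hP]; exact Nat.factorial_pos _
  have hch : 0 < (T.choose (M + 1) : ℝ) := by
    have : 0 < T.choose (M + 1) := Nat.choose_pos (by omega)
    exact_mod_cast this
  have hφ : (0 : ℝ) < P.totient := by exact_mod_cast Nat.totient_pos.2 hP0
  have hPr : (0 : ℝ) < P := by exact_mod_cast hP0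
  obtain ⟨δ₀, hδ₀⟩ : ∃ δ₀ : ℝ, δ₀ = (P.totient : ℝ) ^ (M + 1) /
      (2 * (T.choose (M + 1) : ℝ) * (P : ℝ) ^ (M + 1)) := ⟨_, rfl⟩
  have hδ₀0 : 0 < δ₀ := by rw [hδ₀]; positivity
  obtain ⟨C₀, hC₀⟩ := HD A P hP0 (fun p hp hpT => by
      rw [hP]; exact hp.dvd_factorial.2 (by omega)) δ₀ hδ₀0 (by
      rw [hδ₀]
      have h1 : (0 : ℝ) < (P.totient : ℝ) ^ (M + 1) := by positivity
      have e : (P.totient : ℝ) ^ (M + 1) / (2 * (T.choose (M + 1) : ℝ) * (P : ℝ) ^ (M + 1)) *
        (T.choose (M + 1) : ℝ) * (P : ℝ) ^ (M + 1) = (P.totient : ℝ) ^ (M + 1) / 2 := by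
        field_simp
      rw [e]
      linarith)
  have hA0r : (0 : ℝ) < A := by exact_mod_cast hA1
  refine ⟨A * (C₀ + 60) * 2, δ₀ / (2 * A) ^ k, by positivity, fun η hη => ?_⟩
  filter_upwards [hC₀ η hη, eventually_ge_atTop 1] with N hN hN1
  intro H hH1 hH2 e he
  obtain ⟨h, hh⟩ : ∃ h : ℕ, h = H / A := ⟨_, rfl⟩
  have hAh : A * h ≤ H := by rw [hh]; exact Nat.mul_div_le H A
  have hAh2 : H < A * h + A := by
    rw [hh]
    have := Nat.lt_div_mul_add (a := H) (b := A) (by omega)
    have e1 : H / A * A = A * (H / A) := Nat.mul_comm _ _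
    omega
  have hCh : C₀ + 60 ≤ h := by
    rw [hh, Nat.le_div_iff_mul_le (by omega)]
    have : (C₀ + 60) * A ≤ A * (C₀ + 60) * 2 := by nlinarith
    omega
  have h2Ah : H ≤ 2 * A * h := by
    have h5 : A ≤ A * h := Nat.le_mul_of_pos_right _ (by omega)
    have h6 : 2 * A * h = A * h + A * h := by ring
    omega
  have hhH : h ≤ H := by rw [hh]; exact Nat.div_le_self _ _
  have hCN : C₀ * h ≤ N := by
    have h5 : C₀ * h ≤ A * (C₀ + 60) * 2 * H := by
      have : C₀ ≤ A * (C₀ + 60) * 2 := by nlinarith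
      exact Nat.mul_le_mul this hhH
    omega
  -- bounds for e
  have hez : (A : ℤ) * 60 * |e| ≤ N := by
    have h5 : (A : ℤ) * 60 * |e| ≤ ((A * (C₀ + 60) * 2 : ℕ) : ℤ) * |e| := by
      apply mul_le_mul_of_nonneg_right _ (abs_nonneg e)
      push_cast
      have h6 : (0 : ℤ) ≤ A := Nat.cast_nonneg _
      have h7 : (0 : ℤ) ≤ C₀ := Nat.cast_nonneg _
      nlinarith
    exact h5.trans he
  have hAe : 60 * ((A : ℤ) * |e|) ≤ N := by
    calc 60 * ((A : ℤ) * |e|) = (A : ℤ) * 60 * |e| := by ring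
      _ ≤ N := hez
  set E : (Fin n → Fin (k + 1)) ≃ Fin ((k + 1) ^ n) := finFunctionFinEquiv with hE
  subst hT
  have hslA : ∀ w : Fin n → Fin (k + 1), sp a w ≤ A := by
    intro w; rw [hA]; exact sp_le a B hBle w
  have hsl1 : ∀ w : Fin n → Fin (k + 1), 1 ≤ sp a w := sp_pos a ha1
  obtain ⟨al, hal⟩ : ∃ al : Fin ((k + 1) ^ n) → ℤ, al = fun g => ((sp a (E.symm g) : ℕ) : ℤ) :=
    ⟨_, rfl⟩
  obtain ⟨be, hbe⟩ : ∃ be : Fin ((k + 1) ^ n) → ℤ, be = fun g => (((sp a (E.symm g) : ℕ) : ℤ) - 1) * e :=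
    ⟨_, rfl⟩
  have habs : ∀ g, |be g| ≤ (A : ℤ) * |e| := by
    intro g
    rw [hbe]
    show |((((sp a (E.symm g) : ℕ) : ℤ) - 1) * e)| ≤ (A : ℤ) * |e|
    rw [abs_mul]
    apply mul_le_mul_of_nonneg_right _ (abs_nonneg e)
    have h5 := hslA (E.symm g)
    have h6 := hsl1 (E.symm g)
    rw [abs_of_nonneg (by omega)]
    omega
  obtain ⟨S, hS, hG⟩ := hN h (by omega) hCN al be
    (fun g => by
      rw [hal]
      have := hsl1 (E.symm g)
      show ((sp a (E.symm g) : ℕ) : ℤ) ≠ 0
      omega)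
    (fun g => by
      rw [hal]
      show |((sp a (E.symm g) : ℕ) : ℤ)| ≤ A
      rw [Nat.abs_cast]
      exact_mod_cast hslA _)
    (fun g p hp hpd => by
      rw [hal] at hpd
      have h5 : p ∣ sp a (E.symm g) := by
        have h50 : (p : ℤ) ∣ ((sp a (E.symm g) : ℕ) : ℤ) := hpd
        exact_mod_cast h50
      have h6 := Nat.le_of_dvd (hsl1 _) h5
      have h7 := hslA (E.symm g)
      rw [hP]
      exact hp.dvd_factorial.2 (by omega))
    (fun g => by
      have h5 := habs g
      have h6 : 0 ≤ |be g| := abs_nonneg _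
      linarith)
    (fun g y h1 h2 => by
      have h5 := habs g
      have h6 : 60 * |be g| ≤ N := by linarith
      have h7 : (60 : ℝ) * |((be g : ℤ) : ℝ)| ≤ N := by exact_mod_cast h6
      have h8 := neg_abs_le ((be g : ℤ) : ℝ)
      have h9 : (1 : ℝ) ≤ ((al g : ℤ) : ℝ) := by
        have h90 : (1 : ℤ) ≤ al g := by
          rw [hal]
          show (1 : ℤ) ≤ ((sp a (E.symm g) : ℕ) : ℤ)
          exact_mod_cast hsl1 (E.symm g)
        exact_mod_cast h90
      have hy0 : (0 : ℝ) ≤ y := by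
        have : (0 : ℝ) ≤ N := Nat.cast_nonneg _
        linarith
      have h10 : y ≤ ((al g : ℤ) : ℝ) * y := by nlinarith
      have h11 : (0 : ℝ) ≤ N := Nat.cast_nonneg _
      linarith)
  obtain ⟨L, hL⟩ := hn (S.map E.symm.toEmbedding) (by rw [card_map, hS]; exact hM2)
  have hLS : ∀ i, E (L i) ∈ S := by
    intro i
    have := hL i
    rw [Finset.mem_map] at this
    obtain ⟨g, hg, hgi⟩ := this
    have h2 : E (L i) = g := by
      rw [← hgi]
      simp
    rw [h2]; exact hg
  have hLinj : Function.Injective (fun i => E (L i)) := by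
    intro i i' hii
    have hii' : L i = L i' := E.injective hii
    obtain ⟨j, hj⟩ := L.proper
    have := congrFun hii' j
    rw [Combinatorics.Line.apply_none _ _ _ hj, Combinatorics.Line.apply_none _ _ _ hj] at this
    exact this
  set J : Finset (Fin n) := univ.filter (fun j => L.idxFun j = none) with hJ
  have hJ1 : 1 ≤ J.card := by
    obtain ⟨j, hj⟩ := L.proper
    exact card_pos.2 ⟨j, by simp [hJ, hj]⟩
  have hJn : J.card ≤ n := by
    have := card_le_univ J
    rwa [Fintype.card_fin] at this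
  refine ⟨J.card, hJ1, hJn, ?_⟩
  set Z : Set (Fin k → ℤ) := {c : Fin k → ℤ | (∀ i, |c i| ≤ H) ∧
      (N : ℝ) ^ (1 - η) ≤ ({p : ℕ | p ≤ A * (C₀ + 60) * 2 * N ∧ p.Prime ∧ ∀ i, ∃ q : ℕ, q.Prime ∧
        (q : ℤ) = (a0 i : ℤ) ^ J.card * (p + e) - e + c i}.ncard : ℝ)} with hZ
  have hZfin : Z.Finite := by
    refine (Set.Finite.pi' (fun _ : Fin k => Set.finite_Icc (-(H : ℤ)) H)).subset ?_
    rintro c ⟨h1, -⟩
    exact fun i => ⟨(abs_le.1 (h1 i)).1, (abs_le.1 (h1 i)).2⟩
  have hsym : ∀ i, E.symm (E (L i)) = L i := fun i => Equiv.symm_apply_apply _ _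
  -- slopes along the line
  have hline : ∀ i : Fin k, sp a (L i.succ) = a0 i ^ J.card * sp a (L 0) := by
    intro i
    have := sp_line a L ha00 i.succ
    rw [has] at this
    exact this
  have hpowA : ∀ i : Fin k, ((a0 i : ℤ)) ^ J.card ≤ A := by
    intro i
    have h5 := hslA (L i.succ)
    rw [hline i] at h5
    have h6 : a0 i ^ J.card ≤ a0 i ^ J.card * sp a (L 0) :=
      Nat.le_mul_of_pos_right _ (hsl1 _)
    exact_mod_cast h6.trans h5
  have hcard := restr N h M η al be S hS (fun i => E (L i)) hLinj hLS hZfin.toFinset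
    (fun i => (a0 i : ℤ) ^ J.card) (by
      intro ε hε
      rw [Set.Finite.mem_toFinset]
      obtain ⟨h1, h2⟩ := mem_filter.1 hε
      rw [Fintype.mem_piFinset] at h1
      have hel : ∀ i, ε (E (L i)) < h := by
        intro i
        have := h1 (E (L i))
        rw [if_pos (hLS i)] at this
        exact mem_range.1 this
      refine ⟨fun i => ?_, h2.trans ?_⟩
      · show |(ε (E (L i.succ)) : ℤ) - (a0 i : ℤ) ^ J.card * ε (E (L 0))| ≤ H
        have h5 := hel i.succ
        have h6 := hel 0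
        have h7 : (a0 i : ℤ) ^ J.card * ε (E (L 0)) ≤ A * h := by
          have h8 : (ε (E (L 0)) : ℤ) ≤ h := by exact_mod_cast h6.le
          have h9 := hpowA i
          have h10 : (0 : ℤ) ≤ ε (E (L 0)) := Nat.cast_nonneg _
          have h11 : (0 : ℤ) ≤ A := Nat.cast_nonneg _
          calc (a0 i : ℤ) ^ J.card * ε (E (L 0)) ≤ A * ε (E (L 0)) :=
                mul_le_mul_of_nonneg_right h9 h10
            _ ≤ A * h := mul_le_mul_of_nonneg_left h8 h11
        have h8 : (0 : ℤ) ≤ (a0 i : ℤ) ^ J.card * ε (E (L 0)) := by positivity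
        have h9 : (A : ℤ) * h ≤ H := by exact_mod_cast hAh
        have h10 : (ε (E (L i.succ)) : ℤ) ≤ H := by exact_mod_cast (h5.le.trans hhH)
        rw [abs_le]
        constructor
        · have : (0 : ℤ) ≤ ε (E (L i.succ)) := Nat.cast_nonneg _
          linarith
        · linarith
      · rw [Nat.cast_le]
        unfold cn
        rw [← Set.ncard_coe_finset]
        have hfin : {p : ℕ | p ≤ A * (C₀ + 60) * 2 * N ∧ p.Prime ∧ ∀ i, ∃ q : ℕ, q.Prime ∧
            (q : ℤ) = (a0 i : ℤ) ^ J.card * (p + e) - e +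
              ((ε (E (L i.succ)) : ℤ) - (a0 i : ℤ) ^ J.card * ε (E (L 0)))}.Finite :=
          (Set.finite_Iic _).subset fun p hp => hp.1
        have hform : ∀ i, ∀ nn : ℤ, al (E (L i)) * nn + (be (E (L i)) + ε (E (L i))) =
            (sp a (L i) : ℤ) * (nn + e) - e + ε (E (L i)) := by
          intro i nn
          rw [hal, hbe]
          simp only [hsym]
          ring
        refine Set.ncard_le_ncard_of_injOn (fun nn : ℕ =>
          ((sp a (L 0) : ℤ) * (nn + e) - e + ε (E (L 0))).toNat) ?_ ?_ hfin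
        · intro nn hnn
          obtain ⟨h3, h3a, h3b, h6⟩ := mem_filter.1 (mem_coe.1 hnn)
          have h3' := mem_Icc.1 h3
          have h7 := h6 _ (hLS 0)
          rw [hform] at h7
          have h8 : ((((sp a (L 0) : ℤ) * (nn + e) - e + ε (E (L 0))).toNat : ℕ) : ℤ) =
              (sp a (L 0) : ℤ) * (nn + e) - e + ε (E (L 0)) := by
            apply Int.toNat_of_nonneg
            by_contra hcon
            have h9 : ((sp a (L 0) : ℤ) * (nn + e) - e + ε (E (L 0))).toNat = 0 :=
              Int.toNat_of_nonpos (by omega)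
            rw [h9] at h7
            exact Nat.not_prime_zero h7
          refine ⟨?_, h7, fun i => ?_⟩
          · show ((sp a (L 0) : ℤ) * (nn + e) - e + ε (E (L 0))).toNat ≤ A * (C₀ + 60) * 2 * N
            have h9 : (sp a (L 0) : ℤ) * (nn + e) - e + ε (E (L 0)) ≤
                ((A * (C₀ + 60) * 2 * N : ℕ) : ℤ) := by
              have s1 : (sp a (L 0) : ℤ) ≤ A := by exact_mod_cast hslA _
              have s2 : (1 : ℤ) ≤ sp a (L 0) := by exact_mod_cast hsl1 _
              have s3 : (nn : ℤ) ≤ N := by exact_mod_cast h3'.2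
              have s4 : e ≤ |e| := le_abs_self e
              have s5 : (0 : ℤ) ≤ |e| := abs_nonneg e
              have s6 : (ε (E (L 0)) : ℤ) ≤ h := by exact_mod_cast (hel 0).le
              have s7 : (h : ℤ) ≤ N := by
                have : 60 * h ≤ N := by
                  have h10 : (C₀ + 60) * h ≤ A * (C₀ + 60) * 2 * H := by
                    refine Nat.mul_le_mul ?_ hhH
                    nlinarith
                  have h11 : 60 * h ≤ (C₀ + 60) * h := Nat.mul_le_mul_right _ (by omega)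
                  omega
                omega
              have s8 : (sp a (L 0) : ℤ) * nn ≤ A * N :=
                mul_le_mul s1 s3 (Nat.cast_nonneg _) (Nat.cast_nonneg _)
              have s9 : ((sp a (L 0) : ℤ) - 1) * e ≤ A * |e| := by
                calc ((sp a (L 0) : ℤ) - 1) * e ≤ ((sp a (L 0) : ℤ) - 1) * |e| :=
                      mul_le_mul_of_nonneg_left s4 (by omega)
                  _ ≤ A * |e| := mul_le_mul_of_nonneg_right (by omega) s5
              have s10 : (N : ℤ) ≤ A * N := by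
                have : (1 : ℤ) ≤ A := by exact_mod_cast hA1
                have h12 : (0 : ℤ) ≤ N := Nat.cast_nonneg _
                nlinarith
              have s11 : ((A * (C₀ + 60) * 2 * N : ℕ) : ℤ) = (2 * C₀ + 120) * (A * N) := by
                push_cast; ring
              rw [s11]
              have s12 : (0 : ℤ) ≤ C₀ := Nat.cast_nonneg _
              have s13 : (0 : ℤ) ≤ (A : ℤ) * N := by positivity
              have s14 : 120 * ((A : ℤ) * N) ≤ (2 * C₀ + 120) * (A * N) :=
                mul_le_mul_of_nonneg_right (by omega) s13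
              have s15 : (sp a (L 0) : ℤ) * (nn + e) - e + ε (E (L 0)) =
                (sp a (L 0) : ℤ) * nn + ((sp a (L 0) : ℤ) - 1) * e + ε (E (L 0)) := by ring
              rw [s15]
              linarith
            omega
          · have h9 := h6 _ (hLS i.succ)
            rw [hform, hline i] at h9
            refine ⟨_, h9, ?_⟩
            have h10 : ((((((a0 i ^ J.card * sp a (L 0) : ℕ) : ℤ)) * (nn + e) - e +
                ε (E (L i.succ))).toNat : ℕ) : ℤ) =
                (((a0 i ^ J.card * sp a (L 0) : ℕ) : ℤ)) * (nn + e) - e + ε (E (L i.succ)) := by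
              apply Int.toNat_of_nonneg
              by_contra hcon
              have h11 : ((((a0 i ^ J.card * sp a (L 0) : ℕ) : ℤ)) * (nn + e) - e +
                ε (E (L i.succ))).toNat = 0 := Int.toNat_of_nonpos (by omega)
              rw [h11] at h9
              exact Nat.not_prime_zero h9
            rw [h10]
            show (((a0 i ^ J.card * sp a (L 0) : ℕ) : ℤ)) * (nn + e) - e + ε (E (L i.succ)) =
              (a0 i : ℤ) ^ J.card * (((((sp a (L 0) : ℤ) * (nn + e) - e +
                ε (E (L 0))).toNat : ℕ) : ℤ) + e) - e +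
              ((ε (E (L i.succ)) : ℤ) - (a0 i : ℤ) ^ J.card * ε (E (L 0)))
            rw [h8]
            push_cast
            ring
        · intro nn hnn nn' hnn' hh'
          have hpr : ∀ x ∈ ((Icc 1 N).filter (fun n : ℕ => N ≤ 16 * n ∧ 16 * n ≤ 9 * N ∧
              ∀ g ∈ S, (al g * n + (be g + ε g)).toNat.Prime)),
              (((((sp a (L 0) : ℤ) * ((x : ℤ) + e) - e + ε (E (L 0))).toNat : ℕ) : ℤ)) =
              (sp a (L 0) : ℤ) * (x + e) - e + ε (E (L 0)) := by
            intro x hx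
            have h7 := (mem_filter.1 hx).2.2.2 _ (hLS 0)
            rw [hform] at h7
            apply Int.toNat_of_nonneg
            by_contra hcon
            have h9 : ((sp a (L 0) : ℤ) * (x + e) - e + ε (E (L 0))).toNat = 0 :=
              Int.toNat_of_nonpos (by omega)
            rw [h9] at h7
            exact Nat.not_prime_zero h7
          have h3 := hpr nn (mem_coe.1 hnn)
          have h4 := hpr nn' (mem_coe.1 hnn')
          have h5 : ((sp a (L 0) : ℤ) * ((nn : ℤ) + e) - e + ε (E (L 0))).toNat =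
              ((sp a (L 0) : ℤ) * ((nn' : ℤ) + e) - e + ε (E (L 0))).toNat := hh'
          rw [h5, h4] at h3
          have s2 : (1 : ℤ) ≤ sp a (L 0) := by exact_mod_cast hsl1 _
          have h6 : (sp a (L 0) : ℤ) * nn' = sp a (L 0) * nn := by linarith
          have h7 := mul_left_cancel₀ (by omega : (sp a (L 0) : ℤ) ≠ 0) h6
          exact_mod_cast h7.symm)
  have hkM : k ≤ M + 1 := by
    have h5 : (univ.image (fun i : Fin (k + 1) => E (L i))).card ≤ S.card :=
      card_le_card (fun x hx => by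
        obtain ⟨i, -, rfl⟩ := mem_image.1 hx
        exact hLS i)
    rw [card_image_of_injective _ hLinj, card_univ, Fintype.card_fin, hS] at h5
    omega
  rw [← Set.ncard_eq_toFinset_card Z hZfin] at hcard
  have hhpos : (0 : ℝ) < h := by
    have : 0 < h := by omega
    exact_mod_cast this
  have h1 : δ₀ * (h : ℝ) ^ (M + 1) ≤ (Z.ncard : ℝ) * (h : ℝ) ^ (M + 1 - k) :=
    hG.trans (by exact_mod_cast hcard)
  have h2 : δ₀ * (h : ℝ) ^ k ≤ Z.ncard := by
    have e1 : (h : ℝ) ^ (M + 1) = (h : ℝ) ^ k * (h : ℝ) ^ (M + 1 - k) := by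
      rw [← pow_add]; congr 1; omega
    rw [e1, ← mul_assoc] at h1
    exact le_of_mul_le_mul_right h1 (by positivity)
  refine le_trans ?_ h2
  have h3 : (H : ℝ) ≤ 2 * A * h := by exact_mod_cast h2Ah
  have h4 : (H : ℝ) ^ k ≤ (2 * A * h) ^ k := pow_le_pow_left₀ (Nat.cast_nonneg _) h3 k
  rw [mul_pow] at h4
  calc δ₀ / (2 * (A : ℝ)) ^ k * (H : ℝ) ^ k ≤ δ₀ / (2 * (A : ℝ)) ^ k * ((2 * A) ^ k * (h : ℝ) ^ k) :=
        mul_le_mul_of_nonneg_left h4 (by positivity)
    _ = δ₀ * (h : ℝ) ^ k := by field_simp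

end Pool.Agent.TH899.UG.NDl
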