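import Pool.Agent.W218.OG.Core
import Pool.Agent.TH899.UG.Qd

/-!
# Orbits of `x ↦ D x + e`: the coloured Maynard-Tao theorem above one quarter with composite values
in between (adapted from `Pool.Agent.W218.OG.Core`)
-/

set_option autoImplicit false

namespace Pool.Agent.TH899.UG.OG

open Finset Filter Pool.Agent.H447R3.IT Pool.Agent.H732R3.BigQ Pool.Agent.W59.GB
open Pool.Agent.W218.OG (Pr S_iter_add B_eq B_ne_zero dvd_B big_primes exists_zero block not_Pr GapO GapJ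
  to_prime)
open Pool.Agent.TH899.UG

/-- the coloured Maynard-Tao theorem for the values of an orbit at prescribed times; the values at
all other times up to `W` are composite -/
theorem orbit_classesW (W₀ : ℕ) (D : ℕ) (e : ℤ) (m : ℕ) (hD : 2 ≤ D) (he : e ≠ 0) (hcop : IsCoprime e (D : ℤ))
    (hm0 : 0 < m) (hm : ∀ p : ℕ, p.Prime → p ∣ D - 1 → (p : ℤ) ∣ e * m) {T K : ℕ}
    (PF : Finset (Fin T) → Prop)
    (hQ : ∀ (a b : Fin T → Fin K → ℤ), (∀ g i, 0 < a g i) →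
      Function.Injective (fun x : Fin T × Fin K => (a x.1 x.2, b x.1 x.2)) →
      (∀ p : ℕ, p.Prime → ∃ n : ℤ, ∀ g i, ¬ ((p : ℤ) ∣ a g i * n + b g i)) →
      ∃ (F : Finset (Fin T)) (c : Fin T → Fin K), PF F ∧
        Big {n : ℕ | ∀ g ∈ F, 0 < a g (c g) * (n : ℤ) + b g (c g) ∧
          Prime (a g (c g) * (n : ℤ) + b g (c g))})
    (H : Fin T → Fin K → ℕ) (hinj : Function.Injective (fun x : Fin T × Fin K => H x.1 x.2)) :
    ∃ (W Q r : ℕ) (F : Finset (Fin T)) (c : Fin T → Fin K), 0 < Q ∧ W₀ ≤ W ∧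
      (∀ g i, m * H g i ≤ W) ∧ PF F ∧
      Big {n : ℕ | (∀ g ∈ F, Pr ((S D e)^[m * H g (c g)] ((Q * n + r : ℕ) : ℤ))) ∧
        ∀ t ≤ W, (∀ g i, m * H g i ≠ t) → ¬ Pr ((S D e)^[t] ((Q * n + r : ℕ) : ℤ))} := by
  classical
  obtain ⟨W, hW0, hW⟩ : ∃ W, W₀ ≤ W ∧ ∀ g i, m * H g i ≤ W :=
    ⟨max W₀ (univ.sup fun x : Fin T × Fin K => m * H x.1 x.2), le_max_left _ _, fun g i =>
      (le_sup (f := fun x : Fin T × Fin K => m * H x.1 x.2) (mem_univ (g, i))).trans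
        (le_max_right _ _)⟩
  set E : Finset ℕ := univ.image fun x : Fin T × Fin K => m * H x.1 x.2 with hE
  have hmemE : ∀ g i, m * H g i ∈ E := fun g i => mem_image.2 ⟨(g, i), mem_univ _, rfl⟩
  obtain ⟨Q, r, hQ0, hb1, hb2⟩ := block D e hD he W E (by
    intro t ht
    obtain ⟨x, -, rfl⟩ := mem_image.1 ht
    exact hW _ _)
  have hDpos : ∀ j : ℕ, (0 : ℤ) < (D : ℤ) ^ j := fun j => by positivity
  have hQpos : (0 : ℤ) < Q := by exact_mod_cast hQ0
  obtain ⟨F, c, hF, hB⟩ := hQ (fun g i => (D : ℤ) ^ (m * H g i) * Q)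
    (fun g i => (D : ℤ) ^ (m * H g i) * r + B D e (m * H g i))
    (fun g i => mul_pos (hDpos _) hQpos)
    (by
      intro x y hxy
      simp only [Prod.mk.injEq] at hxy
      have h1 := mul_right_cancel₀ hQpos.ne' hxy.1
      have h2 : D ^ (m * H x.1 x.2) = D ^ (m * H y.1 y.2) := by exact_mod_cast h1
      have h3 := Nat.pow_right_injective hD h2
      exact hinj (Nat.eq_of_mul_eq_mul_left hm0 h3))
    (by
      intro p hp
      by_cases hpQ : p ∣ Q
      · refine ⟨0, fun g i hd => hb2 p hp hpQ _ (hmemE g i) ?_⟩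
        rw [iter]
        simpa using hd
      · obtain ⟨n₀, hn₀⟩ := adm (m := m) hD hcop hm hp
        have hc : IsCoprime (Q : ℤ) (p : ℤ) := by
          rw [Nat.isCoprime_iff_coprime]
          exact ((Nat.Prime.coprime_iff_not_dvd hp).2 hpQ).symm
        obtain ⟨u, v, huv⟩ := hc
        refine ⟨u * (n₀ - r), fun g i hd => hn₀ (H g i) ?_⟩
        have e1 : (D : ℤ) ^ (m * H g i) * n₀ + B D e (m * H g i) =
            ((D : ℤ) ^ (m * H g i) * Q * (u * (n₀ - r)) +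
              ((D : ℤ) ^ (m * H g i) * r + B D e (m * H g i))) +
            p * ((D : ℤ) ^ (m * H g i) * (v * (n₀ - r))) := by
          linear_combination (-((D : ℤ) ^ (m * H g i) * (n₀ - r))) * huv
        rw [e1]
        exact dvd_add hd (dvd_mul_right _ _))
  set n₁ : ℕ := Q + (∑ d ∈ range (W + 1), (B D e d).natAbs) + 1 with hn₁
  refine ⟨W, Q, r, F, c, hQ0, hW0, hW, hF, (big_ge hB n₁).mono ?_⟩
  rintro n ⟨hn, hn1⟩
  refine ⟨fun g hg => ?_, fun t ht hne => ?_⟩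
  · have h1 := hn g hg
    have e1 : (S D e)^[m * H g (c g)] ((Q * n + r : ℕ) : ℤ) =
        (D : ℤ) ^ (m * H g (c g)) * Q * (n : ℤ) +
          ((D : ℤ) ^ (m * H g (c g)) * r + B D e (m * H g (c g))) := by
      rw [iter]; push_cast; ring
    rw [e1]
    exact h1
  · obtain ⟨q, hqp, hqQ, hqr⟩ := hb1 t ht (by
      intro h
      obtain ⟨x, -, hx⟩ := mem_image.1 h
      exact hne _ _ hx)
    refine not_Pr hD hQ0 ht (fun d hd => ?_) hqp hqQ hqr
    have h2 : (B D e d).natAbs ≤ ∑ d ∈ range (W + 1), (B D e d).natAbs :=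
      single_le_sum (f := fun d => (B D e d).natAbs) (fun _ _ => Nat.zero_le _)
        (mem_range.2 (by omega))
    have h3 : |B D e d| = ((B D e d).natAbs : ℤ) := (Int.natCast_natAbs _).symm
    rw [h3]
    have h4 : Q + (B D e d).natAbs < n := by omega
    exact_mod_cast h4

/-- the coloured Maynard-Tao theorem for the values of an orbit at prescribed times; the values at
all other times up to `W` are composite -/
theorem orbit_classes (D : ℕ) (e : ℤ) (m : ℕ) (hD : 2 ≤ D) (he : e ≠ 0) (hcop : IsCoprime e (D : ℤ))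
    (hm0 : 0 < m) (hm : ∀ p : ℕ, p.Prime → p ∣ D - 1 → (p : ℤ) ∣ e * m) {T K : ℕ}
    (PF : Finset (Fin T) → Prop)
    (hQ : ∀ (a b : Fin T → Fin K → ℤ), (∀ g i, 0 < a g i) →
      Function.Injective (fun x : Fin T × Fin K => (a x.1 x.2, b x.1 x.2)) →
      (∀ p : ℕ, p.Prime → ∃ n : ℤ, ∀ g i, ¬ ((p : ℤ) ∣ a g i * n + b g i)) →
      ∃ (F : Finset (Fin T)) (c : Fin T → Fin K), PF F ∧
        Big {n : ℕ | ∀ g ∈ F, 0 < a g (c g) * (n : ℤ) + b g (c g) ∧
          Prime (a g (c g) * (n : ℤ) + b g (c g))})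
    (H : Fin T → Fin K → ℕ) (hinj : Function.Injective (fun x : Fin T × Fin K => H x.1 x.2)) :
    ∃ (W Q r : ℕ) (F : Finset (Fin T)) (c : Fin T → Fin K), 0 < Q ∧ (∀ g i, m * H g i ≤ W) ∧
      PF F ∧
      Big {n : ℕ | (∀ g ∈ F, Pr ((S D e)^[m * H g (c g)] ((Q * n + r : ℕ) : ℤ))) ∧
        ∀ t ≤ W, (∀ g i, m * H g i ≠ t) → ¬ Pr ((S D e)^[t] ((Q * n + r : ℕ) : ℤ))} := by
  obtain ⟨W, Q, r, F, c, h1, -, h2, h3, h4⟩ := orbit_classesW 0 D e m hD he hcop hm0 hm PF hQ H hinj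
  exact ⟨W, Q, r, F, c, h1, h2, h3, h4⟩

/-- **two of four classes contain the times of consecutive primes of many orbits** -/
theorem consecO (D : ℕ) (e : ℤ) (m : ℕ) (hD : 2 ≤ D) (he : e ≠ 0) (hcop : IsCoprime e (D : ℤ))
    (hm0 : 0 < m) (hm : ∀ p : ℕ, p.Prime → p ∣ D - 1 → (p : ℤ) ∣ e * m) (hQB : FourC) :
    ∃ K : ℕ, 1 ≤ K ∧ ∀ H : Fin 4 → Fin K → ℕ,
      Function.Injective (fun x : Fin 4 × Fin K => H x.1 x.2) →
      ∃ g g' i i', g ≠ g' ∧ H g i < H g' i' ∧ H g' i' - H g i ∈ GapO D e m := by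
  classical
  obtain ⟨K, hK, hQ⟩ := hQB
  refine ⟨K, hK, fun H hinj => ?_⟩
  obtain ⟨W, Q, r, F, c, hQ0, hW, hF, hB⟩ := orbit_classes D e m hD he hcop hm0 hm _ hQ H hinj
  have hF2 : 1 < F.card := hF
  obtain ⟨g₁, hg₁, g₂, hg₂, hg12⟩ := one_lt_card.1 hF2
  set P : ℕ → Fin 4 → Fin K → Prop := fun n g i => Pr ((S D e)^[m * H g i] ((Q * n + r : ℕ) : ℤ))
    with hP
  set X : Set ℕ := {n : ℕ | (∀ g ∈ F, P n g (c g)) ∧
    ∀ t ≤ W, (∀ g i, m * H g i ≠ t) → ¬ Pr ((S D e)^[t] ((Q * n + r : ℕ) : ℤ))} with hX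
  have hXB : Big X := hB
  set Y : (Fin 4 × Fin K) × (Fin 4 × Fin K) → Set ℕ := fun x =>
    {n | x.1.1 ≠ x.2.1 ∧ H x.1.1 x.1.2 < H x.2.1 x.2.2 ∧ P n x.1.1 x.1.2 ∧ P n x.2.1 x.2.2 ∧
      ∀ t, m * H x.1.1 x.1.2 < t → t < m * H x.2.1 x.2.2 →
        ¬ Pr ((S D e)^[t] ((Q * n + r : ℕ) : ℤ))} with hY
  have hcover : X ⊆ ⋃ x, Y x := by
    rintro n ⟨hn, hcomp⟩
    obtain ⟨g, hg, g', hg', hne, hlt⟩ : ∃ g ∈ F, ∃ g' ∈ F, g ≠ g' ∧ H g (c g) < H g' (c g') := by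
      rcases lt_trichotomy (H g₁ (c g₁)) (H g₂ (c g₂)) with hl | he | hl
      · exact ⟨g₁, hg₁, g₂, hg₂, hg12, hl⟩
      · exfalso
        have := hinj (a₁ := (g₁, c g₁)) (a₂ := (g₂, c g₂)) he
        exact hg12 (Prod.mk.inj this).1
      · exact ⟨g₂, hg₂, g₁, hg₁, hg12.symm, hl⟩
    -- the last prime of class `g`
    set A : Finset (Fin K) := univ.filter fun i => P n g i ∧ H g i < H g' (c g') with hA
    have hAne : A.Nonempty := ⟨c g, by
      rw [hA, mem_filter]; exact ⟨mem_univ _, hn g hg, hlt⟩⟩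
    obtain ⟨i, hiA, hi⟩ := exists_max_image A (fun i => H g i) hAne
    rw [hA, mem_filter] at hiA
    -- the next prime
    set C : Finset (Fin 4 × Fin K) := univ.filter fun x =>
      P n x.1 x.2 ∧ H g i < H x.1 x.2 ∧ H x.1 x.2 ≤ H g' (c g') with hC
    have hCne : C.Nonempty := ⟨(g', c g'), by
      rw [hC, mem_filter]; exact ⟨mem_univ _, hn g' hg', hiA.2.2, le_rfl⟩⟩
    obtain ⟨⟨g'', i''⟩, hxC, hx⟩ := exists_min_image C (fun x => H x.1 x.2) hCne
    rw [hC, mem_filter] at hxC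
    have hx' : ∀ x ∈ C, H g'' i'' ≤ H x.1 x.2 := hx
    have hx1 : P n g'' i'' := hxC.2.1
    have hx2 : H g i < H g'' i'' := hxC.2.2.1
    have hx3 : H g'' i'' ≤ H g' (c g') := hxC.2.2.2
    rw [Set.mem_iUnion]
    refine ⟨((g, i), (g'', i'')), ?_, hx2, hiA.2.1, hx1, ?_⟩
    · intro heq
      have heq' : g = g'' := heq
      subst heq'
      rcases hx3.lt_or_eq with h1 | h1
      · have h2 : H g i'' ≤ H g i := hi i'' (by
          rw [hA, mem_filter]; exact ⟨mem_univ _, hx1, h1⟩)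
        omega
      · have := hinj (a₁ := (g, i'')) (a₂ := (g', c g')) h1
        exact hne (Prod.mk.inj this).1
    · intro t ht1 ht2 htp
      have ht1' : m * H g i < t := ht1
      have ht2' : t < m * H g'' i'' := ht2
      have htW : t ≤ W := by have := hW g'' i''; omega
      by_cases hex : ∃ g₀ i₀, m * H g₀ i₀ = t
      · obtain ⟨g₀, i₀, rfl⟩ := hex
        have h1 : H g i < H g₀ i₀ := Nat.lt_of_mul_lt_mul_left ht1'
        have h2 : H g₀ i₀ < H g'' i'' := Nat.lt_of_mul_lt_mul_left ht2'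
        have h3 : H g'' i'' ≤ H g₀ i₀ := hx' (g₀, i₀) (by
          rw [hC, mem_filter]
          exact ⟨mem_univ _, htp, h1, (h2.trans_le hx3).le⟩)
        omega
      · push Not at hex
        exact hcomp t htW hex htp
  obtain ⟨x, hx⟩ := big_cover Y X hXB hcover
  obtain ⟨n₀, hn₀⟩ := hx.infinite.nonempty
  refine ⟨x.1.1, x.2.1, x.1.2, x.2.2, hn₀.1, hn₀.2.1, ?_⟩
  have hlt := hn₀.2.1
  have key : ∀ (n l : ℕ) (p : ℕ), (p : ℤ) = (S D e)^[m * H x.1.1 x.1.2] ((Q * n + r : ℕ) : ℤ) →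
      (S D e)^[l] (p : ℤ) = (S D e)^[m * H x.1.1 x.1.2 + l] ((Q * n + r : ℕ) : ℤ) := by
    intro n l p hp
    rw [hp, ← S_iter_add]
  refine to_prime hD hQ0 hx (i := m * H x.1.1 x.1.2) (fun n hn => hn.2.2.1) fun n hn p hp hpp => ?_
  refine ⟨hpp, ?_, ?_⟩
  · rw [key n _ p hp]
    have e1 : m * H x.1.1 x.1.2 + m * (H x.2.1 x.2.2 - H x.1.1 x.1.2) = m * H x.2.1 x.2.2 := by
      rw [← mul_add]; congr 1; omega
    rw [e1]
    exact hn.2.2.2.1
  · intro l hl1 hl2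
    rw [key n _ p hp]
    refine hn.2.2.2.2 _ (by omega) ?_
    have e1 : m * H x.1.1 x.1.2 + m * (H x.2.1 x.2.2 - H x.1.1 x.1.2) = m * H x.2.1 x.2.2 := by
      rw [← mul_add]; congr 1; omega
    omega

/-- **many classes: the classes in `F` contain times of primes of the same orbits, with at
most `T * K` primes in between** -/
theorem classesO (D : ℕ) (e : ℤ) (m : ℕ) (hD : 2 ≤ D) (he : e ≠ 0) (hcop : IsCoprime e (D : ℤ))
    (hm0 : 0 < m) (hm : ∀ p : ℕ, p.Prime → p ∣ D - 1 → (p : ℤ) ∣ e * m) {T K : ℕ}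
    (PF : Finset (Fin T) → Prop)
    (hQ : ∀ (a b : Fin T → Fin K → ℤ), (∀ g i, 0 < a g i) →
      Function.Injective (fun x : Fin T × Fin K => (a x.1 x.2, b x.1 x.2)) →
      (∀ p : ℕ, p.Prime → ∃ n : ℤ, ∀ g i, ¬ ((p : ℤ) ∣ a g i * n + b g i)) →
      ∃ (F : Finset (Fin T)) (c : Fin T → Fin K), PF F ∧
        Big {n : ℕ | ∀ g ∈ F, 0 < a g (c g) * (n : ℤ) + b g (c g) ∧
          Prime (a g (c g) * (n : ℤ) + b g (c g))})
    (H : Fin T → Fin K → ℕ) (hinj : Function.Injective (fun x : Fin T × Fin K => H x.1 x.2)) :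
    ∃ (F : Finset (Fin T)) (c : Fin T → Fin K), PF F ∧
      ∀ g ∈ F, ∀ g' ∈ F, H g (c g) < H g' (c g') →
        H g' (c g') - H g (c g) ∈ GapJ D e m (T * K) := by
  classical
  obtain ⟨W, Q, r, F, c, hQ0, hW, hF, hB⟩ := orbit_classes D e m hD he hcop hm0 hm _ hQ H hinj
  refine ⟨F, c, hF, fun g hg g' hg' hlt => ?_⟩
  have e1 : m * H g (c g) + m * (H g' (c g') - H g (c g)) = m * H g' (c g') := by
    rw [← mul_add]; congr 1; omega
  refine to_prime hD hQ0 hB (i := m * H g (c g)) (fun n hn => hn.1 g hg) fun n hn p hp hpp => ?_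
  have key : ∀ l : ℕ, (S D e)^[l] (p : ℤ) = (S D e)^[m * H g (c g) + l] ((Q * n + r : ℕ) : ℤ) := by
    intro l
    rw [hp, ← S_iter_add]
  refine ⟨hpp, ?_, ?_⟩
  · rw [key, e1]
    exact hn.1 g' hg'
  · set U : Finset ℕ := (univ : Finset (Fin T × Fin K)).image fun x => m * H x.1 x.2 with hU
    have h1 : {l : ℕ | 0 < l ∧ l < m * (H g' (c g') - H g (c g)) ∧ Pr ((S D e)^[l] (p : ℤ))} ⊆
        ((U.image fun u => u - m * H g (c g) : Finset ℕ) : Set ℕ) := by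
      rintro l ⟨hl0, hl1, hl2⟩
      rw [key] at hl2
      rw [Finset.mem_coe, mem_image]
      have hlW : m * H g (c g) + l ≤ W := by have := hW g' (c g'); omega
      by_cases hex : ∃ g₀ i₀, m * H g₀ i₀ = m * H g (c g) + l
      · obtain ⟨g₀, i₀, h0⟩ := hex
        exact ⟨m * H g₀ i₀, mem_image.2 ⟨(g₀, i₀), mem_univ _, rfl⟩, by omega⟩
      · push Not at hex
        exact absurd hl2 (hn.2 _ hlW hex)
    have h2 := Set.ncard_le_ncard h1 (finite_toSet _)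
    rw [Set.ncard_coe_finset] at h2
    refine h2.trans (card_image_le.trans (card_image_le.trans ?_))
    rw [card_univ, Fintype.card_prod, Fintype.card_fin, Fintype.card_fin]

end Pool.Agent.TH899.UG.OG
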