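import Pool.Agent.W218.OG.Main
import Pool.Agent.W25.TF.Fin
import Pool.Agent.TH899.UG.OGc
import Pool.Agent.TH899.UG.OGd

/-!
# Gaps between the primes of orbits `x ↦ D x + e`: one half, and more than one half
-/

set_option autoImplicit false

namespace Pool.Agent.TH899.UG.OG

open Finset Filter Pool.Agent.H447R3.IT Pool.Agent.H732R3.BigQ
open Pool.Agent.W218.OG (Pr GapO GapJ pr_nat big_count B_two)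
open Pool.Agent.TH899.UG

/-- one half: consecutive primes of orbits -/
theorem generalA (D : ℕ) (e : ℤ) (m : ℕ) (hD : 2 ≤ D) (he : e ≠ 0) (hcop : IsCoprime e (D : ℤ))
    (hm0 : 0 < m) (hm : ∀ p : ℕ, p.Prime → p ∣ D - 1 → (p : ℤ) ∣ e * m) (ε : ℝ) (hε : 0 < ε) :
    ∃ M : ℕ, 0 < M ∧ ∀ N : ℕ, 0 < N → M ∣ N → ∃ L : ℕ, ∀ T : ℕ, L ≤ T → ∀ u : ℕ,
      (1 / 2 - ε) * T ≤ ({k : ℕ | u < k ∧ k ≤ u + T ∧ N * k ∈ GapO D e m}.ncard : ℝ) := by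
  refine Pool.Agent.W25.TF.tf4 Pool.Agent.W25.TF.s_maiF4 _ 1 ?_ ε hε
  obtain ⟨K, hK, H⟩ := consecO D e m hD he hcop hm0 hm fourC
  exact ⟨K, hK, fun h hh => H h hh.1⟩

/-- more than one half: boundedly many primes in between -/
theorem generalB : ∃ δ : ℝ, 0 < δ ∧ ∃ J : ℕ, ∀ (D : ℕ) (e : ℤ) (m : ℕ), 2 ≤ D → e ≠ 0 →
    IsCoprime e (D : ℤ) → 0 < m → (∀ p : ℕ, p.Prime → p ∣ D - 1 → (p : ℤ) ∣ e * m) →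
    ∃ M : ℕ, 0 < M ∧ ∀ N : ℕ, 0 < N → M ∣ N → ∃ L : ℕ, ∀ T : ℕ, L ≤ T → ∀ u : ℕ,
      (1 / 2 + δ) * T ≤ ({k : ℕ | u < k ∧ k ≤ u + T ∧ N * k ∈ GapJ D e m J}.ncard : ℝ) := by
  obtain ⟨c₁, hc0, hc1, hQ⟩ := quarterD
  obtain ⟨n, hn1, hn⟩ := mth c₁ hc0 hc1
  obtain ⟨K, hK, hQ⟩ := hQ n
  refine ⟨c₁ / 16, by positivity, n * K, ?_⟩
  intro D e m hD he hcop hm0 hm
  refine hn K (GapJ D e m (n * K)) fun H hinj _ => ?_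
  exact classesO D e m hD he hcop hm0 hm (fun S => (n : ℝ) ≤ (4 - c₁) * S.card) hQ H hinj

/-- the first conclusion for an orbit `a` of natural numbers -/
theorem transferA (D : ℕ) (e : ℤ) (m : ℕ) (hD : 2 ≤ D) (he : e ≠ 0) (hcop : IsCoprime e (D : ℤ))
    (hm0 : 0 < m) (hm : ∀ p : ℕ, p.Prime → p ∣ D - 1 → (p : ℤ) ∣ e * m) (a : ℕ → ℕ → ℕ)
    (ha : ∀ p j : ℕ, p.Prime → ((a p j : ℕ) : ℤ) = (S D e)^[j] (p : ℤ)) (ε : ℝ) (hε : 0 < ε) :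
    ∃ M : ℕ, 0 < M ∧ ∀ N : ℕ, 0 < N → M ∣ N → ∃ L : ℕ, ∀ T : ℕ, L ≤ T → ∀ u : ℕ,
      (1 / 2 - ε) * (T : ℝ) ≤ ({k : ℕ | u < k ∧ k ≤ u + T ∧ ∀ η : ℝ, 0 < η → ∃ᶠ x : ℝ in atTop,
        x ^ (1 - η) ≤ ({p : ℕ | (p : ℝ) ≤ x ∧ p.Prime ∧ (a p (N * k)).Prime ∧
          ∀ l, 0 < l → l < N * k → ¬ (a p l).Prime}.ncard : ℝ)}.ncard : ℝ) := by
  obtain ⟨M, hM, h1⟩ := generalA D e m hD he hcop hm0 hm ε hε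
  have hpr : ∀ p j : ℕ, p.Prime → (Pr ((S D e)^[j] (p : ℤ)) ↔ (a p j).Prime) := by
    intro p j hp
    rw [← ha p j hp, pr_nat]
  refine ⟨m * M, Nat.mul_pos hm0 hM, fun N hN hd => ?_⟩
  obtain ⟨t, rfl⟩ := hd
  have ht : 0 < t := Nat.pos_of_ne_zero (by rintro rfl; simp at hN)
  obtain ⟨L, hL⟩ := h1 (M * t) (Nat.mul_pos hM ht) (dvd_mul_right _ _)
  refine ⟨L, fun T hT u => (hL T hT u).trans ?_⟩
  rw [Nat.cast_le]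
  refine Set.ncard_le_ncard ?_ ((Set.finite_Ioc u (u + T)).subset fun k hk => ⟨hk.1, hk.2.1⟩)
  rintro k ⟨hk1, hk2, hk3⟩
  refine ⟨hk1, hk2, big_count (Big.mono ?_ hk3)⟩
  rintro p ⟨hp, hp1, hp2⟩
  have e1 : m * (M * t * k) = m * M * t * k := by ring
  rw [e1] at hp1 hp2
  exact ⟨hp, (hpr p _ hp).1 hp1, fun l hl0 hl1 hl2 => hp2 l hl0 hl1 ((hpr p l hp).2 hl2)⟩

/-- the second conclusion for an orbit `a` of natural numbers -/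
theorem transferB : ∃ δ : ℝ, 0 < δ ∧ ∃ J : ℕ, ∀ (D : ℕ) (e : ℤ) (m : ℕ), 2 ≤ D → e ≠ 0 →
    IsCoprime e (D : ℤ) → 0 < m → (∀ p : ℕ, p.Prime → p ∣ D - 1 → (p : ℤ) ∣ e * m) →
    ∀ (a : ℕ → ℕ → ℕ), (∀ p j : ℕ, p.Prime → ((a p j : ℕ) : ℤ) = (S D e)^[j] (p : ℤ)) →
    ∃ M : ℕ, 0 < M ∧ ∀ N : ℕ, 0 < N → M ∣ N → ∃ L : ℕ, ∀ T : ℕ, L ≤ T → ∀ u : ℕ,
      (1 / 2 + δ) * (T : ℝ) ≤ ({k : ℕ | u < k ∧ k ≤ u + T ∧ ∀ η : ℝ, 0 < η → ∃ᶠ x : ℝ in atTop,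
        x ^ (1 - η) ≤ ({p : ℕ | (p : ℝ) ≤ x ∧ p.Prime ∧ (a p (N * k)).Prime ∧
          {l : ℕ | 0 < l ∧ l < N * k ∧ (a p l).Prime}.ncard ≤ J}.ncard : ℝ)}.ncard : ℝ) := by
  obtain ⟨δ, hδ, J, h⟩ := generalB
  refine ⟨δ, hδ, J, ?_⟩
  intro D e m hD he hcop hm0 hm a ha
  obtain ⟨M', hM', h2⟩ := h D e m hD he hcop hm0 hm
  have hpr : ∀ p j : ℕ, p.Prime → (Pr ((S D e)^[j] (p : ℤ)) ↔ (a p j).Prime) := by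
    intro p j hp
    rw [← ha p j hp, pr_nat]
  refine ⟨m * M', Nat.mul_pos hm0 hM', fun N hN hd => ?_⟩
  obtain ⟨t, rfl⟩ := hd
  have ht : 0 < t := Nat.pos_of_ne_zero (by rintro rfl; simp at hN)
  obtain ⟨L, hL⟩ := h2 (M' * t) (Nat.mul_pos hM' ht) (dvd_mul_right _ _)
  refine ⟨L, fun T hT u => (hL T hT u).trans ?_⟩
  rw [Nat.cast_le]
  refine Set.ncard_le_ncard ?_ ((Set.finite_Ioc u (u + T)).subset fun k hk => ⟨hk.1, hk.2.1⟩)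
  rintro k ⟨hk1, hk2, hk3⟩
  refine ⟨hk1, hk2, big_count (Big.mono ?_ hk3)⟩
  rintro p ⟨hp, hp1, hp2⟩
  have e1 : m * (M' * t * k) = m * M' * t * k := by ring
  rw [e1] at hp1 hp2
  refine ⟨hp, (hpr p _ hp).1 hp1, le_trans (le_of_eq ?_) hp2⟩
  congr 1
  ext l
  simp only [Set.mem_ofPred_eq]
  rw [hpr p l hp]

end Pool.Agent.TH899.UG.OG
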