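import Mathlib
import Pool.Agent.TH899.UG.ExU
import Pool.Agent.TH899.UG.BoxP
import Pool.Agent.TH899.UG.GD1

/-! Three binary equations, positive proportion: the input and one translation. -/

set_option autoImplicit false

namespace Pool.Agent.TH899.UG.TED

open Finset Filter Topology
open Pool.Agent.TH899.UG.Uni
open Pool.Agent.TH899.UG.GD (toNat_eq')

/-- slopes -/
def sl : Fin 4 → ℤ := ![1, -1, 2, -2]

open Classical in
/-- the number of the primes `p ≤ 2 s` with `a p + b m` prime -/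
noncomputable def rep (s : ℕ) (a b m : ℤ) : ℕ :=
  ((Icc 1 (2 * s)).filter (fun p : ℕ => p.Prime ∧ (a * p + b * m).toNat.Prime)).card

/-- the coefficients of the equation for two classes -/
def ea (g g' : Fin 4) : ℤ :=
  if (g = 0 ∧ g' = 1) ∨ (g = 2 ∧ g' = 3) then -1
  else if (g = 0 ∧ g' = 2) ∨ (g = 1 ∧ g' = 3) then 2 else -2

def eb (g g' : Fin 4) : ℤ :=
  if (g = 0 ∧ g' = 1) ∨ (g = 2 ∧ g' = 3) then 1
  else if (g = 0 ∧ g' = 2) ∨ (g = 1 ∧ g' = 3) then -1 else 1

/-- the right side of the equation -/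
def em (g g' : Fin 4) (s x y : ℤ) : ℤ :=
  if (g = 0 ∧ g' = 1) ∨ (g = 2 ∧ g' = 3) then 2 * s + x + y
  else if (g = 0 ∧ g' = 2) ∨ (g = 1 ∧ g' = 3) then s + 2 * x - y else 3 * s + 2 * x + y

theorem sl_ne (g : Fin 4) : sl g ≠ 0 := by fin_cases g <;> decide

theorem sl_abs (g : Fin 4) : |sl g| ≤ 2 := by fin_cases g <;> decide

open Classical in
/-- **the input** -/
theorem core : ∃ K : ℕ, 1 ≤ K ∧ ∀ η : ℝ, 0 < η → ∀ᶠ s : ℕ in atTop,
    ∀ (A : Fin 4 → Fin K → ℕ), (∀ g, Function.Injective (A g)) → (∀ g i, 60 * A g i ≤ s) →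
      (∀ p : ℕ, p.Prime → p ≤ 4 * K → ∃ n : ℤ, ∀ g i,
        ¬ ((p : ℤ) ∣ sl g * n + (s + A g i))) →
      ∃ g g' : Fin 4, g < g' ∧ ∃ i j, (s : ℝ) ^ (1 - η) ≤
        rep s (ea g g') (eb g g') (em g g' s (A g i) (A g' j)) := by
  obtain ⟨c, hc, hc1, H⟩ := exactU
  obtain ⟨K, hK, H⟩ := H 4 1 (by norm_num) (by push_cast; linarith)
  refine ⟨K, hK, fun η hη => ?_⟩
  have htend : Tendsto (fun s : ℕ => (9 * s) / 10 + 1) atTop atTop :=
    tendsto_atTop.2 fun b => by
      filter_upwards [eventually_ge_atTop (10 * b)] with s hs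
      omega
  filter_upwards [htend.eventually (H 2 (min (η / 2) 1) (by positivity)),
    eventually_ge_atTop 1000,
    ((tendsto_rpow_atTop (by positivity : 0 < η / 2)).comp
      tendsto_natCast_atTop_atTop).eventually_ge_atTop 2]
    with s hN hs hs2
  simp only [Function.comp_apply] at hs2
  set N : ℕ := (9 * s) / 10 + 1 with hNdef
  have hN1 : 9 * s ≤ 10 * N := by omega
  have hN2 : 10 * N ≤ 9 * s + 10 := by omega
  have hN1r : (9 : ℝ) * s ≤ 10 * N := by exact_mod_cast hN1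
  have hN2r : (10 : ℝ) * N ≤ 9 * s + 10 := by exact_mod_cast hN2
  have hsr : (1000 : ℝ) ≤ s := by exact_mod_cast hs
  intro A hinj hA60 hloc
  -- from the power of `N` to the power of `s`
  have hrp : (s : ℝ) ^ (1 - η) ≤ (N : ℝ) ^ (1 - min (η / 2) 1) := by
    have hs1 : (1 : ℝ) ≤ s := by linarith
    have hs0 : (0 : ℝ) < s := by linarith
    have h1 : (s : ℝ) ^ (1 - η) * 2 ≤ (s : ℝ) ^ (1 - η / 2) := by
      have h2 : (s : ℝ) ^ (1 - η) * (s : ℝ) ^ (η / 2) = (s : ℝ) ^ (1 - η / 2) := by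
        rw [← Real.rpow_add hs0]; congr 1; ring
      rw [← h2]
      exact mul_le_mul_of_nonneg_left hs2 (Real.rpow_nonneg hs0.le _)
    have h3 : (s : ℝ) ^ (1 - η / 2) ≤ (s : ℝ) ^ (1 - min (η / 2) 1) :=
      Real.rpow_le_rpow_of_exponent_le hs1 (by linarith [min_le_left (η / 2) 1])
    have hz0 : 0 ≤ 1 - min (η / 2) 1 := by linarith [min_le_right (η / 2) 1]
    have hz1 : 1 - min (η / 2) 1 ≤ 1 := by
      have : 0 < min (η / 2) 1 := by positivity
      linarith
    have h4 : (s : ℝ) ^ (1 - min (η / 2) 1) ≤ (2 * N : ℝ) ^ (1 - min (η / 2) 1) :=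
      Real.rpow_le_rpow hs0.le (by linarith) hz0
    have h5 : (2 * N : ℝ) ^ (1 - min (η / 2) 1) ≤ 2 * (N : ℝ) ^ (1 - min (η / 2) 1) := by
      rw [Real.mul_rpow (by norm_num) (Nat.cast_nonneg _)]
      apply mul_le_mul_of_nonneg_right _ (Real.rpow_nonneg (Nat.cast_nonneg _) _)
      calc (2 : ℝ) ^ (1 - min (η / 2) 1) ≤ 2 ^ (1 : ℝ) :=
            Real.rpow_le_rpow_of_exponent_le (by norm_num) hz1
        _ = 2 := Real.rpow_one 2
    linarith
  obtain ⟨S, σ, hS, hcnt⟩ := hN (fun g _ => sl g) (fun g i => s + A g i)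
    (fun g _ => sl_ne g) (fun g _ => by exact_mod_cast sl_abs g)
    (fun g i => by
      have h1 := hA60 g i
      show 5 * |(s : ℤ) + A g i| ≤ 6 * (N : ℤ)
      rw [abs_of_nonneg (by positivity)]
      omega)
    (fun g i y h1 h2 => by
      have h3 : (0 : ℝ) ≤ (A g i : ℝ) := Nat.cast_nonneg _
      have h4 : (0 : ℝ) ≤ N := Nat.cast_nonneg _
      have h5 : (-2 : ℝ) * y ≤ sl g * y := by
        have h6 : (-2 : ℤ) ≤ sl g := (abs_le.1 (sl_abs g)).1
        have h7 : (-2 : ℝ) ≤ sl g := by exact_mod_cast h6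
        exact mul_le_mul_of_nonneg_right h7 (by linarith)
      show (N : ℝ) / 30 ≤ (sl g : ℝ) * y + (((s : ℤ) + A g i : ℤ) : ℝ)
      push_cast
      linarith)
    (by
      rintro ⟨g, i⟩ ⟨g', i'⟩ h
      have h1 : sl g = sl g' := congrArg Prod.fst h
      have h2 : (s : ℤ) + A g i = s + A g' i' := congrArg Prod.snd h
      have h3 : g = g' := by
        fin_cases g <;> fin_cases g' <;> first | rfl | (exact absurd h1 (by decide))
      subst h3
      have h4 : A g i = A g i' := by omega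
      rw [hinj g h4])
    (by
      intro p hp
      by_cases hpn : p ≤ 4 * K
      · exact hloc p hp hpn
      · haveI := Fact.mk hp
        have hp4 : 4 < p := by omega
        have hal : ∀ g, ((sl g : ℤ) : ZMod p) ≠ 0 := by
          intro g h
          rw [ZMod.intCast_zmod_eq_zero_iff_dvd] at h
          have h1 := Int.le_of_dvd (abs_pos.2 (sl_ne g)) ((dvd_abs _ _).2 h)
          have h2 := sl_abs g
          omega
        let f : Fin 4 × Fin K → ZMod p := fun x =>
          - (((s : ℤ) + A x.1 x.2 : ℤ) : ZMod p) / ((sl x.1 : ℤ) : ZMod p)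
        have hcard : (univ.image f).card < (univ : Finset (ZMod p)).card := by
          rw [card_univ, ZMod.card]
          have h2 : (univ.image f).card ≤ 4 * K := by
            refine card_image_le.trans ?_
            rw [card_univ, Fintype.card_prod, Fintype.card_fin, Fintype.card_fin]
          omega
        obtain ⟨w, -, hw⟩ := Finset.exists_mem_notMem_of_card_lt_card hcard
        refine ⟨(w.val : ℤ), fun g i hd => hw (mem_image.2 ⟨(g, i), mem_univ _, ?_⟩)⟩
        rw [← ZMod.intCast_zmod_eq_zero_iff_dvd] at hd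
        push_cast at hd
        rw [ZMod.natCast_zmod_val] at hd
        show - (((s : ℤ) + A g i : ℤ) : ZMod p) / ((sl g : ℤ) : ZMod p) = w
        rw [div_eq_iff (hal _)]
        push_cast
        linear_combination -hd)
  have hle : ∀ g ∈ S, ∀ g' ∈ S, (s : ℝ) ^ (1 - η) ≤ (((Icc 1 N).filter (fun n : ℕ =>
      (sl g * n + (s + A g (σ g))).toNat.Prime ∧
      (sl g' * n + (s + A g' (σ g'))).toNat.Prime)).card : ℝ) := by
    intro g hg g' hg'
    refine (hrp.trans hcnt).trans ?_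
    rw [Nat.cast_le]
    apply card_le_card
    intro n hn
    rw [mem_filter] at hn ⊢
    exact ⟨hn.1, hn.2 g hg, hn.2 g' hg'⟩
  obtain ⟨g, hg, g', hg', hlt⟩ : ∃ g ∈ S, ∃ g' ∈ S, g < g' := by
    have h1 : 1 < S.card := by omega
    obtain ⟨g, hg, g', hg', hne⟩ := Finset.one_lt_card.1 h1
    rcases lt_or_gt_of_ne hne with h | h
    · exact ⟨g, hg, g', hg', h⟩
    · exact ⟨g', hg', g, hg, h⟩
  refine ⟨g, g', hlt, σ g, σ g', (hle g hg g' hg').trans ?_⟩
  rw [Nat.cast_le]
  obtain ⟨x, hx⟩ : ∃ x, x = A g (σ g) := ⟨_, rfl⟩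
  obtain ⟨y, hy⟩ : ∃ y, y = A g' (σ g') := ⟨_, rfl⟩
  have hx60 : 60 * x ≤ s := by rw [hx]; exact hA60 _ _
  have hy60 : 60 * y ≤ s := by rw [hy]; exact hA60 _ _
  rw [← hx, ← hy]
  -- first coordinate or second coordinate as the prime `p`
  have key1 : ∀ (x y : ℕ) (a' b' α β : ℤ) (m : ℤ) , a' ≠ 0 →
      (∀ n : ℤ, 1 ≤ n → n ≤ N → a' * n + (s + x) ≤ 2 * s) →
      (∀ n : ℤ, α * (a' * n + (s + x)) + β * m = b' * n + (s + y)) →
      ((Icc 1 N).filter (fun n : ℕ => (a' * (n : ℤ) + (s + x)).toNat.Prime ∧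
        (b' * (n : ℤ) + (s + y)).toNat.Prime)).card ≤ rep s α β m := by
    intro x y a' b' α β m ha' hup heq
    unfold rep
    refine card_le_card_of_injOn (fun n : ℕ => (a' * n + (s + x)).toNat) ?_ ?_
    · intro n hn
      obtain ⟨h1, h2, h3⟩ := mem_filter.1 (mem_coe.1 hn)
      have h4 := toNat_eq' h2
      have h6 := mem_Icc.1 h1
      have h7 := hup n (by exact_mod_cast h6.1) (by exact_mod_cast h6.2)
      refine mem_coe.2 (mem_filter.2 ⟨mem_Icc.2 ⟨h2.one_lt.le, ?_⟩, h2, ?_⟩)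
      · show (a' * (n : ℤ) + (s + x)).toNat ≤ 2 * s
        omega
      · show (α * (((a' * (n : ℤ) + (s + x)).toNat : ℕ) : ℤ) + β * m).toNat.Prime
        rw [h4, heq]
        exact h3
    · intro n hn n' hn' hnn
      have h5 := toNat_eq' (mem_filter.1 (mem_coe.1 hn)).2.1
      have h6 := toNat_eq' (mem_filter.1 (mem_coe.1 hn')).2.1
      have h7 : (a' * (n : ℤ) + (s + x)).toNat = (a' * (n' : ℤ) + (s + x)).toNat := hnn
      rw [h7, h6] at h5
      have h8 : a' * (n' : ℤ) = a' * n := by linarith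
      have h9 := mul_left_cancel₀ ha' h8
      exact_mod_cast h9.symm
  have hNs : (N : ℤ) ≤ (9 * s) / 10 + 1 := by
    rw [hNdef]; push_cast; omega
  have hs' : (1000 : ℤ) ≤ s := by exact_mod_cast hs
  have hx60' : 60 * (x : ℤ) ≤ s := by exact_mod_cast hx60
  have hy60' : 60 * (y : ℤ) ≤ s := by exact_mod_cast hy60
  fin_cases g <;> fin_cases g' <;> first | exact absurd hlt (by decide) | skip
  · exact key1 x y 1 (-1) (-1) 1 (2 * s + x + y) (by norm_num) (fun n _ _ => by omega)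
      (fun n => by ring)
  · exact key1 x y 1 2 2 (-1) (s + 2 * x - y) (by norm_num) (fun n _ _ => by omega)
      (fun n => by ring)
  · exact key1 x y 1 (-2) (-2) 1 (3 * s + 2 * x + y) (by norm_num) (fun n _ _ => by omega)
      (fun n => by ring)
  · exact key1 x y (-1) 2 (-2) 1 (3 * s + 2 * x + y) (by norm_num) (fun n _ _ => by omega)
      (fun n => by ring)
  · exact key1 x y (-1) (-2) 2 (-1) (s + 2 * x - y) (by norm_num) (fun n _ _ => by omega)
      (fun n => by ring)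
  · have h := key1 y x (-2) 2 (-1) 1 (2 * s + x + y) (by norm_num) (fun n _ _ => by omega)
      (fun n => by ring)
    refine le_trans (le_of_eq ?_) h
    congr 1
    apply filter_congr
    intro n _
    exact and_comm

end Pool.Agent.TH899.UG.TED
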