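import Mathlib
import Pool.Agent.TH899.UG.TED1

/-! Three binary equations, positive proportion: the average over the translations. -/

set_option autoImplicit false

namespace Pool.Agent.TH899.UG.TED

open Finset Filter Topology
open Pool.Agent.TH899.UG.Uni

/-- the pairs of classes -/
def pr : Finset (Fin 4 × Fin 4) := univ.filter (fun z => z.1 < z.2)

/-- the equation of two classes is solvable many times -/
def Q (s : ℕ) (η : ℝ) (z : Fin 4 × Fin 4) (x y : ℕ) : Prop :=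
  (s : ℝ) ^ (1 - η) ≤ rep s (ea z.1 z.2) (eb z.1 z.2) (em z.1 z.2 s x y)

theorem others : ∀ g g' : Fin 4, g < g' → ∃ g1 g1' : Fin 4,
    ∀ k : Fin 4, k = g ∨ k = g1 ∨ k = g' ∨ k = g1' := by decide

open Classical in
theorem cnt {V : Finset ℕ} (P : ℕ → ℕ → Prop) (z : Fin 4 × Fin 4) (hz : z.1 < z.2) :
    ((Fintype.piFinset (fun _ : Fin 4 => V)).filter (fun f => P (f z.1) (f z.2))).card ≤
      ((V ×ˢ V).filter (fun u : ℕ × ℕ => P u.1 u.2)).card * (V.card * V.card) := by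
  obtain ⟨g1, g1', hall⟩ := others z.1 z.2 hz
  have h1 : ((((V ×ˢ V).filter (fun u : ℕ × ℕ => P u.1 u.2)) ×ˢ (V ×ˢ V))).card =
      ((V ×ˢ V).filter (fun u : ℕ × ℕ => P u.1 u.2)).card * (V.card * V.card) := by
    rw [card_product, card_product]
  rw [← h1]
  refine card_le_card_of_injOn (fun f => ((f z.1, f z.2), (f g1, f g1'))) ?_ ?_
  · intro f hf
    obtain ⟨h2, h3⟩ := mem_filter.1 (mem_coe.1 hf)
    rw [Fintype.mem_piFinset] at h2
    exact mem_coe.2 (mem_product.2 ⟨mem_filter.2 ⟨mem_product.2 ⟨h2 _, h2 _⟩, h3⟩,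
      mem_product.2 ⟨h2 _, h2 _⟩⟩)
  · intro f _ f' _ hff
    simp only [Prod.mk.injEq] at hff
    obtain ⟨⟨e1, e2⟩, e3, e4⟩ := hff
    funext k
    rcases hall k with h | h | h | h <;> rw [h] <;> assumption

open Classical in
theorem per_t : ∃ K : ℕ, 1 ≤ K ∧ ∀ ε : ℝ, 0 < ε → ε ≤ 1 → ∃ R : ℕ, 1 ≤ R ∧ ∀ η : ℝ, 0 < η →
    ∀ᶠ s : ℕ in atTop, ∀ (t : Fin 4 → ℕ) (X : Finset ℕ), X.card = R →
      (∀ g, ∀ x ∈ X, 60 * (t g + x) ≤ s) →
      (∀ p : ℕ, p.Prime → p ≤ 4 * K → ∃ n : ℤ, ∀ g, ∀ x ∈ X,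
        ¬ ((p : ℤ) ∣ sl g * n + (s + (t g + x)))) →
      (1 - ε) * (R : ℝ) ^ 2 ≤ ∑ z ∈ pr,
        (((X ×ˢ X).filter (fun u : ℕ × ℕ => Q s η z (t z.1 + u.1) (t z.2 + u.2))).card : ℝ) := by
  obtain ⟨K, hK, HC⟩ := core
  refine ⟨K, hK, fun ε hε hε1 => ?_⟩
  obtain ⟨C, E, hC, HB⟩ := box_pow K 4
  obtain ⟨R, hR⟩ := exists_nat_ge (C / ε ^ E)
  have hR1 : 1 ≤ R := by
    by_contra h
    have h1 : R = 0 := by omega
    rw [h1, Nat.cast_zero] at hR
    have h2 : 0 < C / ε ^ E := by positivity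
    linarith
  refine ⟨R, hR1, fun η hη => ?_⟩
  filter_upwards [HC η hη] with s hs
  intro t X hX h60 hloc
  have hXc : ∀ _ : Fin 4, X.card = R := fun _ => hX
  set V : Fin 4 → Finset ℕ := fun _ => X with hV
  set B := (Fintype.piFinset V).filter (fun f => ∀ z ∈ pr,
    ¬ Q s η z (t z.1 + f z.1) (t z.2 + f z.2)) with hB
  have hBlt : (B.card : ℝ) < ε * (R : ℝ) ^ 4 := by
    by_contra hcon
    rw [not_lt] at hcon
    have hprod : ∏ i : Fin 4, ((V i).card : ℝ) = (R : ℝ) ^ 4 := by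
      simp only [hV, hX, prod_const, card_univ, Fintype.card_fin]
    obtain ⟨A, hA1, hA2⟩ := HB ε hε hε1 ℕ V (fun i => by
        show C / ε ^ E ≤ (X.card : ℝ)
        rw [hX]; exact hR) B
      (filter_subset _ _) (by rw [hprod]; exact hcon)
    have hmem : ∀ g i, A g i ∈ X := by
      intro g i
      have h1 := hA2 (fun _ => i)
      have h2 := (mem_filter.1 h1).1
      rw [Fintype.mem_piFinset] at h2
      exact h2 g
    obtain ⟨g, g', hlt, i, j, h⟩ := hs (fun g i => t g + A g i)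
      (fun g i j hij => hA1 g (by
        have h1 : t g + A g i = t g + A g j := hij
        show A g i = A g j
        omega))
      (fun g i => h60 g _ (hmem g i))
      (fun p hp hpK => by
        obtain ⟨n, hn⟩ := hloc p hp hpK
        refine ⟨n, fun g i => ?_⟩
        have h1 := hn g _ (hmem g i)
        push_cast
        exact h1)
    have h1 := hA2 (Function.update (fun _ => i) g' j)
    have h2 := (mem_filter.1 h1).2 (g, g') (by
      rw [pr, mem_filter]; exact ⟨mem_univ _, hlt⟩)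
    simp only [Function.update_self, Function.update_of_ne hlt.ne] at h2
    exact h2 h
  have hpi : ((Fintype.piFinset V).card : ℝ) = (R : ℝ) ^ 4 := by
    rw [Fintype.card_piFinset]
    push_cast
    simp only [hV, hX, prod_const, card_univ, Fintype.card_fin]
  have hcov : (Fintype.piFinset V).card ≤ B.card + ∑ z ∈ pr,
      ((X ×ˢ X).filter (fun u : ℕ × ℕ => Q s η z (t z.1 + u.1) (t z.2 + u.2))).card *
        (R * R) := by
    have hsub : Fintype.piFinset V ⊆ B ∪ pr.biUnion (fun z =>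
        (Fintype.piFinset V).filter (fun f => Q s η z (t z.1 + f z.1) (t z.2 + f z.2))) := by
      intro f hf
      by_cases hfB : f ∈ B
      · exact mem_union_left _ hfB
      · refine mem_union_right _ ?_
        rw [hB, mem_filter, not_and] at hfB
        have h1 := hfB hf
        push Not at h1
        obtain ⟨z, hz, h2⟩ := h1
        exact mem_biUnion.2 ⟨z, hz, mem_filter.2 ⟨hf, h2⟩⟩
    refine (card_le_card hsub).trans ((card_union_le _ _).trans ?_)
    refine Nat.add_le_add_left ?_ _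
    refine card_biUnion_le.trans (sum_le_sum fun z hz => ?_)
    have hz' : z.1 < z.2 := (mem_filter.1 hz).2
    have h1 := cnt (V := X) (fun x y => Q s η z (t z.1 + x) (t z.2 + y)) z hz'
    rw [hX] at h1
    exact h1
  have hcov' : (R : ℝ) ^ 4 ≤ B.card + (∑ z ∈ pr,
      (((X ×ˢ X).filter (fun u : ℕ × ℕ => Q s η z (t z.1 + u.1) (t z.2 + u.2))).card : ℝ)) *
        (R : ℝ) ^ 2 := by
    rw [← hpi]
    have h1 : ((Fintype.piFinset V).card : ℝ) ≤ ((B.card + ∑ z ∈ pr,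
      ((X ×ˢ X).filter (fun u : ℕ × ℕ => Q s η z (t z.1 + u.1) (t z.2 + u.2))).card *
        (R * R) : ℕ) : ℝ) := by exact_mod_cast hcov
    refine h1.trans (le_of_eq ?_)
    push_cast
    rw [sum_mul]
    congr 1
    apply sum_congr rfl
    intro z _
    ring
  have hR2 : (0 : ℝ) < (R : ℝ) ^ 2 := by
    have : (0 : ℝ) < R := by exact_mod_cast hR1
    positivity
  have h9 : (1 - ε) * (R : ℝ) ^ 2 * (R : ℝ) ^ 2 ≤ (∑ z ∈ pr,
      (((X ×ˢ X).filter (fun u : ℕ × ℕ => Q s η z (t z.1 + u.1) (t z.2 + u.2))).card : ℝ)) *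
        (R : ℝ) ^ 2 := by
    nlinarith
  exact le_of_mul_le_mul_right h9 hR2

/-- the multiple of the scale -/
def kk (g g' : Fin 4) : ℤ :=
  if (g = 0 ∧ g' = 1) ∨ (g = 2 ∧ g' = 3) then 2
  else if (g = 0 ∧ g' = 2) ∨ (g = 1 ∧ g' = 3) then 1 else 3

open Classical in
/-- the good integers in a window -/
noncomputable def gs (s H : ℕ) (η : ℝ) (a b k : ℤ) : Finset ℤ :=
  (Icc (k * s - H) (k * s + H)).filter (fun m => (s : ℝ) ^ (1 - η) ≤ rep s a b m)

theorem em_inj (g g' : Fin 4) (s x y y' : ℤ) (h : em g g' s x y = em g g' s x y') : y = y' := by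
  unfold em at h
  split_ifs at h <;> omega

theorem em_bd (g g' : Fin 4) (s x y D : ℤ) (hx : 0 ≤ x) (hy : 0 ≤ y) (hx' : x ≤ D) (hy' : y ≤ D) :
    kk g g' * s - 3 * D ≤ em g g' s x y ∧ em g g' s x y ≤ kk g g' * s + 3 * D := by
  unfold em kk
  split_ifs <;> constructor <;> omega

open Classical in
/-- the average over the translations for one pair of classes -/
theorem sumT (s H L r D : ℕ) (η : ℝ) (X : Finset ℕ) (z : Fin 4 × Fin 4) (hz : z.1 < z.2)
    (hD : ∀ a < L, ∀ x ∈ X, r + 6 * a + x ≤ D) (hH : 3 * D ≤ H) :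
    ∑ τ ∈ Fintype.piFinset (fun _ : Fin 4 => range L),
      ((X ×ˢ X).filter (fun u : ℕ × ℕ => Q s η z (r + 6 * τ z.1 + u.1)
        (r + 6 * τ z.2 + u.2))).card ≤
      X.card * X.card * (L * (gs s H η (ea z.1 z.2) (eb z.1 z.2) (kk z.1 z.2)).card * (L * L)) := by
  have h1 : ∑ τ ∈ Fintype.piFinset (fun _ : Fin 4 => range L),
      ((X ×ˢ X).filter (fun u : ℕ × ℕ => Q s η z (r + 6 * τ z.1 + u.1)
        (r + 6 * τ z.2 + u.2))).card =
      ∑ u ∈ X ×ˢ X, ((Fintype.piFinset (fun _ : Fin 4 => range L)).filter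
        (fun τ => Q s η z (r + 6 * τ z.1 + u.1) (r + 6 * τ z.2 + u.2))).card := by
    simp only [card_filter]
    exact Finset.sum_comm
  rw [h1]
  set 𝒢 := gs s H η (ea z.1 z.2) (eb z.1 z.2) (kk z.1 z.2) with h𝒢
  have h2 : ∀ u ∈ X ×ˢ X, ((Fintype.piFinset (fun _ : Fin 4 => range L)).filter
        (fun τ => Q s η z (r + 6 * τ z.1 + u.1) (r + 6 * τ z.2 + u.2))).card ≤
      L * 𝒢.card * (L * L) := by
    intro u hu
    obtain ⟨hx, hy⟩ := mem_product.1 hu
    have h3 := cnt (V := range L) (fun a b => Q s η z (r + 6 * a + u.1) (r + 6 * b + u.2)) z hz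
    rw [card_range] at h3
    refine h3.trans (Nat.mul_le_mul_right _ ?_)
    have h4 : ((range L) ×ˢ 𝒢).card = L * 𝒢.card := by rw [card_product, card_range]
    rw [← h4]
    refine card_le_card_of_injOn (fun v : ℕ × ℕ =>
      (v.1, em z.1 z.2 s ((r + 6 * v.1 + u.1 : ℕ) : ℤ) ((r + 6 * v.2 + u.2 : ℕ) : ℤ))) ?_ ?_
    · intro v hv
      obtain ⟨h5, h6⟩ := mem_filter.1 (mem_coe.1 hv)
      obtain ⟨h7, h8⟩ := mem_product.1 h5
      rw [mem_range] at h7 h8
      have k1 := hD _ h7 _ hx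
      have k2 := hD _ h8 _ hy
      have h9 := em_bd z.1 z.2 s ((r + 6 * v.1 + u.1 : ℕ) : ℤ) ((r + 6 * v.2 + u.2 : ℕ) : ℤ) D
        (Nat.cast_nonneg _) (Nat.cast_nonneg _) (by exact_mod_cast k1) (by exact_mod_cast k2)
      have hH' : (3 : ℤ) * D ≤ H := by exact_mod_cast hH
      refine mem_coe.2 (mem_product.2 ⟨mem_range.2 h7, ?_⟩)
      rw [h𝒢, gs, mem_filter, mem_Icc]
      exact ⟨⟨by linarith [h9.1], by linarith [h9.2]⟩, h6⟩
    · intro v _ v' _ hvv
      simp only [Prod.mk.injEq] at hvv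
      obtain ⟨e1, e2⟩ := hvv
      rw [e1] at e2
      have h5 := em_inj _ _ _ _ _ _ e2
      have h6 : v.2 = v'.2 := by omega
      exact Prod.ext e1 h6
  refine (sum_le_card_nsmul _ _ _ h2).trans (le_of_eq ?_)
  rw [card_product, smul_eq_mul]

end Pool.Agent.TH899.UG.TED
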