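import Mathlib
import Pool.Agent.TH899.UG.TED2

/-! Three binary equations, positive proportion: the main theorem. -/

set_option autoImplicit false

namespace Pool.Agent.TH899.UG.TED

open Finset Filter Topology
open Pool.Agent.TH899.UG.Uni

/-- local conditions -/
theorem loc (K W s : ℕ) (t : Fin 4 → ℕ) (X : Finset ℕ) (ht : ∀ g, (s + t g) % 6 = 3)
    (hW : ∀ p : ℕ, p.Prime → p ≤ 4 * K → p ∣ W) (hX : ∀ x ∈ X, W ∣ x) (p : ℕ) (hp : p.Prime)
    (hpK : p ≤ 4 * K) : ∃ n : ℤ, ∀ g, ∀ x ∈ X, ¬ ((p : ℤ) ∣ sl g * n + (s + (t g + x))) := by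
  classical
  have hpx : ∀ x ∈ X, (p : ℤ) ∣ x := fun x hx => by exact_mod_cast (hW p hp hpK).trans (hX x hx)
  have hsuff : (∃ n : ℤ, ∀ g, ¬ ((p : ℤ) ∣ sl g * n + (s + t g))) →
      ∃ n : ℤ, ∀ g, ∀ x ∈ X, ¬ ((p : ℤ) ∣ sl g * n + (s + (t g + x))) := by
    rintro ⟨n, hn⟩
    refine ⟨n, fun g x hx h => hn g ?_⟩
    have e : sl g * n + ((s : ℤ) + t g) = (sl g * n + (s + (t g + x))) - x := by ring
    rw [e]
    exact dvd_sub h (hpx x hx)
  apply hsuff
  by_cases hp2 : p = 2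
  · subst hp2
    refine ⟨0, fun g h => ?_⟩
    have h1 := ht g
    push_cast at h
    omega
  by_cases hp3 : p = 3
  · subst hp3
    refine ⟨1, fun g h => ?_⟩
    have h1 := ht g
    push_cast at h
    have h2 : (3 : ℤ) ∣ sl g := by
      have h3 : (3 : ℤ) ∣ ((s : ℤ) + t g) := by omega
      have e : sl g = (sl g * 1 + ((s : ℤ) + t g)) - (s + t g) := by ring
      rw [e]; exact dvd_sub h h3
    fin_cases g <;> exact absurd h2 (by decide)
  · have hp5 : 4 < p := by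
      have h4 := hp.two_le
      have h5 : p ≠ 4 := by rintro rfl; exact absurd hp (by norm_num)
      omega
    haveI := Fact.mk hp
    have hal : ∀ g, ((sl g : ℤ) : ZMod p) ≠ 0 := by
      intro g h
      rw [ZMod.intCast_zmod_eq_zero_iff_dvd] at h
      have h1 := Int.le_of_dvd (abs_pos.2 (sl_ne g)) ((dvd_abs _ _).2 h)
      have h2 := sl_abs g
      omega
    let f : Fin 4 → ZMod p := fun g =>
      - (((s : ℤ) + t g : ℤ) : ZMod p) / ((sl g : ℤ) : ZMod p)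
    have hcard : (univ.image f).card < (univ : Finset (ZMod p)).card := by
      rw [card_univ, ZMod.card]
      have h2 : (univ.image f).card ≤ 4 := by
        refine card_image_le.trans ?_
        rw [card_univ, Fintype.card_fin]
      omega
    obtain ⟨w, -, hw⟩ := Finset.exists_mem_notMem_of_card_lt_card hcard
    refine ⟨(w.val : ℤ), fun g hd => hw (mem_image.2 ⟨g, mem_univ _, ?_⟩)⟩
    rw [← ZMod.intCast_zmod_eq_zero_iff_dvd] at hd
    push_cast at hd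
    rw [ZMod.natCast_zmod_val] at hd
    show - (((s : ℤ) + t g : ℤ) : ZMod p) / ((sl g : ℤ) : ZMod p) = w
    rw [div_eq_iff (hal _)]
    push_cast
    linear_combination -hd

theorem pr_card : pr.card = 6 := by decide

theorem kinds : ∀ g g' : Fin 4, (ea g g' = -1 ∧ eb g g' = 1 ∧ kk g g' = 2) ∨
    (ea g g' = 2 ∧ eb g g' = -1 ∧ kk g g' = 1) ∨ (ea g g' = -2 ∧ eb g g' = 1 ∧ kk g g' = 3) := by
  decide

open Classical in
/-- **Main theorem.** -/
theorem ted : ∃ C : ℕ, ∀ η : ℝ, 0 < η → ∀ᶠ s : ℕ in atTop, ∀ H : ℕ, C ≤ H → C * H ≤ s →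
    (H : ℝ) / 110 ≤ (gs s H η (-1) 1 2).card ∨ (H : ℝ) / 110 ≤ (gs s H η 2 (-1) 1).card ∨
      (H : ℝ) / 110 ≤ (gs s H η (-2) 1 3).card := by
  obtain ⟨K, hK, HP⟩ := per_t
  obtain ⟨R, hR1, HP⟩ := HP (1 / 100) (by norm_num) (by norm_num)
  set W : ℕ := (4 * K + 3).factorial with hWd
  have hW0 : 0 < W := Nat.factorial_pos _
  set c₀ : ℕ := 15 + 3 * (W * R) with hc₀
  refine ⟨200 * c₀ + 4000, fun η hη => ?_⟩
  filter_upwards [HP η hη] with s hs
  intro H hH hHs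
  by_contra hcon
  push Not at hcon
  obtain ⟨k1, k2, k3⟩ := hcon
  set X : Finset ℕ := (range R).image (fun i => W * i) with hX
  have hXc : X.card = R := by
    rw [hX, card_image_of_injective _ (fun a b h => Nat.eq_of_mul_eq_mul_left hW0 h), card_range]
  have hXW : ∀ x ∈ X, W ∣ x := by
    intro x hx
    obtain ⟨i, -, rfl⟩ := mem_image.1 hx
    exact dvd_mul_right _ _
  have hXb : ∀ x ∈ X, x ≤ W * R := by
    intro x hx
    obtain ⟨i, hi, rfl⟩ := mem_image.1 hx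
    exact Nat.mul_le_mul_left _ (mem_range.1 hi).le
  set L : ℕ := (H - c₀) / 18 with hL
  have hL18 : 18 * L + c₀ ≤ H := by omega
  set r : ℕ := (9 - s % 6) % 6 with hr
  have hr5 : r ≤ 5 := by omega
  have hsr : (s + r) % 6 = 3 := by omega
  obtain ⟨D, hD⟩ : ∃ D : ℕ, D = 5 + 6 * L + W * R := ⟨_, rfl⟩
  have hDb : ∀ a < L, ∀ x ∈ X, r + 6 * a + x ≤ D := by
    intro a ha x hx
    have h1 := hXb x hx
    omega
  have h3D : 3 * D ≤ H := by omega
  have h60 : 60 * H ≤ s := by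
    have h1 : 60 * H ≤ (200 * c₀ + 4000) * H := Nat.mul_le_mul_right _ (by omega)
    omega
  -- one translation
  have hone : ∀ τ ∈ Fintype.piFinset (fun _ : Fin 4 => range L),
      (1 - 1 / 100) * (R : ℝ) ^ 2 ≤ ∑ z ∈ pr, (((X ×ˢ X).filter (fun u : ℕ × ℕ =>
        Q s η z (r + 6 * τ z.1 + u.1) (r + 6 * τ z.2 + u.2))).card : ℝ) := by
    intro τ hτ
    rw [Fintype.mem_piFinset] at hτ
    refine hs (fun g => r + 6 * τ g) X hXc (fun g x hx => ?_) (fun p hp hpK => ?_)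
    · have h1 := hDb _ (mem_range.1 (hτ g)) x hx
      show 60 * (r + 6 * τ g + x) ≤ s
      omega
    · exact loc K W s (fun g => r + 6 * τ g) X (fun g => by
        show (s + (r + 6 * τ g)) % 6 = 3
        omega)
        (fun p hp hpK => hp.dvd_factorial.2 (by omega)) hXW p hp hpK
  have hsum : (L : ℝ) ^ 4 * ((1 - 1 / 100) * (R : ℝ) ^ 2) ≤
      ∑ z ∈ pr, ((∑ τ ∈ Fintype.piFinset (fun _ : Fin 4 => range L), ((X ×ˢ X).filter
        (fun u : ℕ × ℕ => Q s η z (r + 6 * τ z.1 + u.1) (r + 6 * τ z.2 + u.2))).card : ℕ) : ℝ) := by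
    have h1 := card_nsmul_le_sum (Fintype.piFinset (fun _ : Fin 4 => range L)) _ _ hone
    have h2 : (Fintype.piFinset (fun _ : Fin 4 => range L)).card = L ^ 4 := by
      rw [Fintype.card_piFinset]
      simp only [card_range, prod_const, card_univ, Fintype.card_fin]
    rw [h2, nsmul_eq_mul] at h1
    push_cast at h1 ⊢
    refine h1.trans (le_of_eq ?_)
    exact Finset.sum_comm
  have hterm : ∀ z ∈ pr, ((∑ τ ∈ Fintype.piFinset (fun _ : Fin 4 => range L), ((X ×ˢ X).filter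
        (fun u : ℕ × ℕ => Q s η z (r + 6 * τ z.1 + u.1) (r + 6 * τ z.2 + u.2))).card : ℕ) : ℝ) ≤
      (R : ℝ) ^ 2 * (L : ℝ) ^ 3 * (H / 110) := by
    intro z hz
    have hz' : z.1 < z.2 := (mem_filter.1 hz).2
    have h1 := sumT s H L r D η X z hz' hDb h3D
    rw [hXc] at h1
    have h2 : ((gs s H η (ea z.1 z.2) (eb z.1 z.2) (kk z.1 z.2)).card : ℝ) ≤ H / 110 := by
      rcases kinds z.1 z.2 with ⟨e1, e2, e3⟩ | ⟨e1, e2, e3⟩ | ⟨e1, e2, e3⟩
      · rw [e1, e2, e3]; exact k1.le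
      · rw [e1, e2, e3]; exact k2.le
      · rw [e1, e2, e3]; exact k3.le
    refine (Nat.cast_le.2 h1).trans ?_
    push_cast
    have h3 : (0 : ℝ) ≤ (R : ℝ) ^ 2 * (L : ℝ) ^ 3 := by positivity
    calc (R : ℝ) * R * (L * ((gs s H η (ea z.1 z.2) (eb z.1 z.2) (kk z.1 z.2)).card : ℝ) * (L * L))
        = (R : ℝ) ^ 2 * (L : ℝ) ^ 3 *
          ((gs s H η (ea z.1 z.2) (eb z.1 z.2) (kk z.1 z.2)).card : ℝ) := by ring
      _ ≤ _ := mul_le_mul_of_nonneg_left h2 h3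
  have h1 := sum_le_card_nsmul pr _ _ hterm
  rw [pr_card, nsmul_eq_mul] at h1
  have h2 := hsum.trans h1
  push_cast at h2
  -- the final comparison
  have hLn : H ≤ 18 * L + 17 + c₀ := by omega
  have hLr : (H : ℝ) ≤ 18 * L + 17 + c₀ := by exact_mod_cast hLn
  have hHr : (200 : ℝ) * c₀ + 4000 ≤ H := by exact_mod_cast hH
  have hc0r : (0 : ℝ) ≤ c₀ := Nat.cast_nonneg _
  have hLpos : (0 : ℝ) < L := by linarith
  have hRpos : (0 : ℝ) < R := by exact_mod_cast hR1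
  have h3 : (0 : ℝ) < (R : ℝ) ^ 2 * (L : ℝ) ^ 3 := by positivity
  have h4 : (R : ℝ) ^ 2 * (L : ℝ) ^ 3 * ((1 - 1 / 100) * L) ≤
      (R : ℝ) ^ 2 * (L : ℝ) ^ 3 * (6 * (H / 110)) := by
    calc (R : ℝ) ^ 2 * (L : ℝ) ^ 3 * ((1 - 1 / 100) * L)
        = (L : ℝ) ^ 4 * ((1 - 1 / 100) * (R : ℝ) ^ 2) := by ring
      _ ≤ _ := h2
      _ = _ := by ring
  have h5 := le_of_mul_le_mul_left h4 h3
  linarith

end Pool.Agent.TH899.UG.TED
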