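import Mathlib
import Pool.Agent.TH899.UG.UHalf
import Pool.Agent.TH899.UG.GD1
import Pool.Agent.H447R3.IT.Iter

/-! More than half of the iterates of `x ↦ D x + e`, at every scale and for every constant `e`. -/

set_option autoImplicit false

namespace Pool.Agent.TH899.UG.UIt

open Finset Filter Topology
open Pool.Agent.TH899.UG.Uni Pool.Agent.TH899.UG.UHalf
open Pool.Agent.H447R3.IT (S B B_zero B_succ iter iter_add B_mul)

theorem sum_le_pow (D h : ℕ) (hD : 2 ≤ D) : ∑ t ∈ range h, D ^ t ≤ D ^ h := by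
  induction h with
  | zero => simp
  | succ h ih =>
    rw [sum_range_succ, pow_succ]
    have h1 : D ^ h * 2 ≤ D ^ h * D := Nat.mul_le_mul_left _ hD
    omega

theorem abs_B (D : ℕ) (e : ℤ) (hD : 2 ≤ D) {h b : ℕ} (hb : h ≤ b) :
    |B D e h| ≤ (D : ℤ) ^ b * |e| := by
  unfold B
  rw [abs_mul, mul_comm]
  apply mul_le_mul_of_nonneg_right _ (abs_nonneg e)
  rw [abs_of_nonneg (sum_nonneg fun _ _ => by positivity)]
  have h1 := sum_le_pow D h hD
  have h2 : D ^ h ≤ D ^ b := Nat.pow_le_pow_right (by omega) hb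
  exact_mod_cast h1.trans h2

theorem abs_B' (D : ℕ) (e : ℤ) (hD : 2 ≤ D) (h : ℕ) :
    |B D e h| ≤ (D : ℤ) ^ h * |e| := abs_B D e hD le_rfl

/-- the local condition -/
theorem locI (D : ℕ) (e : ℤ) (hcop : IsCoprime e (D : ℤ)) (n K : ℕ)
    (H : Fin n → Fin K → ℕ) (hdiv : ∀ g i, (n * K).factorial ∣ H g i) (p : ℕ) (hp : p.Prime) :
    ∃ z : ℤ, ∀ g i, ¬ ((p : ℤ) ∣ (D : ℤ) ^ H g i * z + B D e (H g i)) := by
  classical
  haveI := Fact.mk hp
  have hp1 : ¬ (p : ℤ) ∣ 1 := fun h => by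
    have h9 : (p : ℤ) ≤ 1 := Int.le_of_dvd one_pos h
    have h10 := hp.one_lt
    omega
  by_cases hpD : p ∣ D
  · have hpD' : (p : ℤ) ∣ (D : ℤ) := by exact_mod_cast hpD
    refine ⟨1, fun g i hd => ?_⟩
    obtain ⟨h, hh⟩ : ∃ h, h = H g i := ⟨_, rfl⟩
    rw [← hh] at hd
    cases h with
    | zero =>
      rw [B_zero, pow_zero, one_mul, add_zero] at hd
      exact hp1 hd
    | succ h =>
      have h1 : (p : ℤ) ∣ (D : ℤ) ^ (h + 1) * 1 := (dvd_pow hpD' (by omega)).mul_right _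
      have h2 : (p : ℤ) ∣ B D e (h + 1) := (dvd_add_right h1).1 hd
      rw [B_succ] at h2
      have h3 : (p : ℤ) ∣ e := (dvd_add_right (hpD'.mul_right _)).1 h2
      obtain ⟨u, v, huv⟩ := hcop
      apply hp1
      rw [← huv]
      exact dvd_add (h3.mul_left _) (hpD'.mul_left _)
  · by_cases hpn : p ≤ n * K
    · refine ⟨1, fun g i hd => ?_⟩
      have hfac : ∀ m : ℕ, 1 ≤ m → m ≤ n * K → m ∣ H g i := fun m h1 h2 =>
        (Nat.dvd_factorial h1 h2).trans (hdiv g i)
      obtain ⟨h, hh⟩ : ∃ h, h = H g i := ⟨_, rfl⟩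
      rw [← hh] at hd hfac
      have hpow : (p : ℤ) ∣ (D : ℤ) ^ h - 1 := by
        obtain ⟨s, hs⟩ := hfac (p - 1) (by have := hp.two_le; omega) (by omega)
        have hD0 : (D : ZMod p) ≠ 0 := by
          rw [Ne, ZMod.natCast_eq_zero_iff]; exact hpD
        rw [← ZMod.intCast_zmod_eq_zero_iff_dvd]
        push_cast
        rw [hs, pow_mul, ZMod.pow_card_sub_one_eq_one hD0, one_pow, sub_self]
      have hB : (p : ℤ) ∣ B D e h := by
        have h1 := B_mul D e h
        by_cases hpD1 : (p : ℤ) ∣ (D : ℤ) - 1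
        · have h2 : (p : ℤ) ∣ (∑ t ∈ range h, (D : ℤ) ^ t) - ∑ t ∈ range h, (1 : ℤ) := by
            rw [← sum_sub_distrib]
            refine dvd_sum fun t _ => ?_
            have h3 := sub_dvd_pow_sub_pow (D : ℤ) 1 t
            rw [one_pow] at h3
            exact hpD1.trans h3
          have h4 : (p : ℤ) ∣ ∑ t ∈ range h, (1 : ℤ) := by
            rw [sum_const, card_range, nsmul_eq_mul, mul_one]
            exact_mod_cast hfac p hp.one_lt.le hpn
          have h5 : (p : ℤ) ∣ ∑ t ∈ range h, (D : ℤ) ^ t := by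
            have h6 := dvd_add h2 h4
            rwa [sub_add_cancel] at h6
          exact h5.mul_left e
        · have h2 : (p : ℤ) ∣ ((D : ℤ) - 1) * B D e h := by
            rw [h1]
            exact hpow.mul_left e
          exact (Int.Prime.dvd_mul' hp h2).resolve_left hpD1
      apply hp1
      have e1 : (1 : ℤ) = ((D : ℤ) ^ h * 1 + B D e h) - ((D : ℤ) ^ h - 1) - B D e h := by ring
      rw [e1]
      exact dvd_sub (dvd_sub hd hpow) hB
    · let f : Fin n × Fin K → ZMod p := fun x =>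
        - ((B D e (H x.1 x.2) : ℤ) : ZMod p) / (((D : ZMod p)) ^ H x.1 x.2)
      have hD0 : (D : ZMod p) ≠ 0 := by
        rw [Ne, ZMod.natCast_eq_zero_iff]; exact hpD
      have hcard : (univ.image f).card < (univ : Finset (ZMod p)).card := by
        rw [card_univ, ZMod.card]
        have h2 : (univ.image f).card ≤ n * K := by
          refine card_image_le.trans ?_
          rw [card_univ, Fintype.card_prod, Fintype.card_fin, Fintype.card_fin]
        omega
      obtain ⟨w, -, hw⟩ := Finset.exists_mem_notMem_of_card_lt_card hcard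
      refine ⟨(w.val : ℤ), fun g i hd => hw (mem_image.2 ⟨(g, i), mem_univ _, ?_⟩)⟩
      rw [← ZMod.intCast_zmod_eq_zero_iff_dvd] at hd
      push_cast at hd
      rw [ZMod.natCast_zmod_val] at hd
      show - ((B D e (H g i) : ℤ) : ZMod p) / (((D : ZMod p)) ^ H g i) = w
      rw [div_eq_iff (pow_ne_zero _ hD0)]
      linear_combination -hd

/-- **Main theorem.** -/
theorem uiter : ∃ δ : ℝ, 0 < δ ∧ ∀ T₀ : ℕ, ∃ b : ℕ, ∀ D : ℕ, 2 ≤ D → ∀ η : ℝ, 0 < η →
    ∀ᶠ N : ℕ in atTop, ∀ e : ℤ, IsCoprime e (D : ℤ) → 40 * ((D : ℤ) ^ b * |e|) ≤ N →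
    ∃ M T : ℕ, 1 ≤ M ∧ T₀ ≤ T ∧ M * T ≤ b ∧
      (1 / 2 + δ) * T ≤ ({k : ℕ | 0 < k ∧ k ≤ T ∧
        (N : ℝ) ^ (1 - η) ≤ (((Icc 1 (2 * D ^ b * N)).filter (fun p : ℕ =>
          p.Prime ∧ ((D : ℤ) ^ (M * k) * p + B D e (M * k)).toNat.Prime)).card : ℝ)}.ncard : ℝ) := by
  classical
  obtain ⟨c, hc, hc1, HE⟩ := exactU
  obtain ⟨n, hn, HF⟩ := fin_half c hc hc1
  refine ⟨c / 16, by positivity, fun T₀ => ?_⟩
  have h4 : 0 < 4 - c := by linarith
  -- the number of classes
  obtain ⟨m, hm1, hm2⟩ : ∃ m : ℕ, (4 - c) * m < n ∧ (n : ℝ) ≤ (4 - c) * (m + 1) := by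
    have hex : ∃ m : ℕ, (n : ℝ) ≤ (4 - c) * (m + 1) := by
      obtain ⟨m, hm⟩ := exists_nat_gt ((n : ℝ) / (4 - c))
      refine ⟨m, ?_⟩
      rw [div_lt_iff₀ h4] at hm
      nlinarith
    refine ⟨Nat.find hex, ?_, Nat.find_spec hex⟩
    rcases Nat.eq_zero_or_pos (Nat.find hex) with h0 | h0
    · rw [h0]
      have : (1 : ℝ) ≤ n := by exact_mod_cast hn
      simp only [Nat.cast_zero, mul_zero]
      linarith
    · have h1 : ¬ (n : ℝ) ≤ (4 - c) * (((Nat.find hex - 1 : ℕ) : ℝ) + 1) :=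
        Nat.find_min hex (by omega)
      have h2 : (((Nat.find hex - 1 : ℕ) : ℝ) + 1) = Nat.find hex := by
        have h3 : (Nat.find hex - 1) + 1 = Nat.find hex := by omega
        exact_mod_cast h3
      rw [h2, not_le] at h1
      exact h1
  obtain ⟨K, hK, HE⟩ := HE n m hn hm1
  obtain ⟨b, hb⟩ := HF K T₀
  refine ⟨b, fun D hD η hη => ?_⟩
  filter_upwards [HE (D ^ b) η hη, eventually_ge_atTop 1] with N hN hN1
  intro e hcop heN
  have hNz : (0 : ℤ) ≤ N := Nat.cast_nonneg _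
  have hDb1 : (1 : ℤ) ≤ (D : ℤ) ^ b := one_le_pow₀ (by exact_mod_cast (by omega : 1 ≤ D))
  have he0 := abs_nonneg e
  have heN' : 40 * |e| ≤ (N : ℤ) := by nlinarith
  have hBN : ∀ h : ℕ, h ≤ b → 40 * |B D e h| ≤ (N : ℤ) := fun h hh => by
    have h1 := abs_B D e hD hh
    linarith
  obtain ⟨M, T, h1, h2, h3, h5⟩ := hb {x : ℕ | (N : ℝ) ^ (1 - η) ≤
      (((Icc 1 (2 * D ^ b * N)).filter (fun p : ℕ => p.Prime ∧
        ((D : ℤ) ^ x * p + B D e x).toNat.Prime)).card : ℝ)} (by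
    intro H hinj hdiv hHb
    have hpow : ∀ g i, D ^ H g i ≤ D ^ b := fun g i => Nat.pow_le_pow_right (by omega) (hHb g i)
    obtain ⟨S', σ, hS, hcnt⟩ := hN (fun g i => (D : ℤ) ^ H g i) (fun g i => B D e (H g i))
      (fun _ _ => by positivity) (fun g i => by
        rw [abs_of_nonneg (by positivity)]
        exact_mod_cast hpow g i)
      (fun g i => by
        have h6 := hBN _ (hHb g i)
        linarith)
      (fun g i y hy1 _ => by
        have h6 := abs_B' D e hD (H g i)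
        have h7 : (1 : ℝ) ≤ (D : ℝ) ^ H g i := one_le_pow₀ (by exact_mod_cast (by omega : 1 ≤ D))
        have h8 : (|B D e (H g i)| : ℝ) ≤ (D : ℝ) ^ H g i * |(e : ℝ)| := by exact_mod_cast h6
        have h9 : (40 : ℝ) * |(e : ℝ)| ≤ N := by exact_mod_cast heN'
        have h10 := neg_abs_le (B D e (H g i) : ℝ)
        have h11 : (0 : ℝ) ≤ N := Nat.cast_nonneg _
        have h12 : (N : ℝ) / 30 ≤ y - |(e : ℝ)| := by linarith
        have h13 : y - |(e : ℝ)| ≤ (D : ℝ) ^ H g i * (y - |(e : ℝ)|) :=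
          le_mul_of_one_le_left (by linarith [abs_nonneg (e : ℝ)]) h7
        push_cast
        nlinarith)
      (by
        rintro ⟨g, i⟩ ⟨g', i'⟩ h
        have h6 : (D : ℤ) ^ H g i = (D : ℤ) ^ H g' i' := congrArg Prod.fst h
        have h7 : D ^ H g i = D ^ H g' i' := by exact_mod_cast h6
        exact hinj (Nat.pow_right_injective hD h7))
      (fun p hp => locI D e hcop n K H hdiv p hp)
    refine ⟨S', σ, ?_, fun g hg g' hg' hlt => ?_⟩
    · have h6 : ((m : ℝ) + 1) ≤ S'.card := by exact_mod_cast hS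
      exact hm2.trans (mul_le_mul_of_nonneg_left h6 h4.le)
    · show (N : ℝ) ^ (1 - η) ≤ _
      refine hcnt.trans ?_
      rw [Nat.cast_le]
      have hlt' : H g (σ g) < H g' (σ g') := hlt
      obtain ⟨i, hi⟩ : ∃ i, i = H g (σ g) := ⟨_, rfl⟩
      obtain ⟨j, hj⟩ : ∃ j, j = H g' (σ g') - H g (σ g) := ⟨_, rfl⟩
      have hij : i + j = H g' (σ g') := by omega
      have hib : i ≤ b := by rw [hi]; exact hHb _ _
      rw [← hj]
      refine card_le_card_of_injOn (fun x : ℕ => ((D : ℤ) ^ i * x + B D e i).toNat) ?_ ?_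
      · intro x hx
        rw [mem_coe, mem_filter] at hx
        obtain ⟨hx1, hx2⟩ := hx
        rw [mem_Icc] at hx1
        have p1 := hx2 g hg
        have p2 := hx2 g' hg'
        rw [← hi] at p1
        rw [← hij] at p2
        have h6 : ((((D : ℤ) ^ i * x + B D e i).toNat : ℕ) : ℤ) = (D : ℤ) ^ i * x + B D e i :=
          Pool.Agent.TH899.UG.GD.toNat_eq' p1
        refine mem_coe.2 (mem_filter.2 ⟨mem_Icc.2 ⟨p1.one_lt.le, ?_⟩, p1, ?_⟩)
        · have h7 := hBN i hib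
          have h8 := le_abs_self (B D e i)
          have h9 : (D : ℤ) ^ i * x ≤ (D : ℤ) ^ b * N := by
            have h10 : (x : ℤ) ≤ N := by exact_mod_cast hx1.2
            have h11 : (D : ℤ) ^ i ≤ (D : ℤ) ^ b :=
              pow_le_pow_right₀ (by exact_mod_cast (by omega : 1 ≤ D)) hib
            exact mul_le_mul h11 h10 (Nat.cast_nonneg _) (by positivity)
          have h12 : ((((D : ℤ) ^ i * x + B D e i).toNat : ℕ) : ℤ) ≤ ((2 * D ^ b * N : ℕ) : ℤ) := by
            rw [h6]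
            push_cast
            nlinarith
          exact_mod_cast h12
        · rw [h6]
          have e3 := iter_add D e i j (x : ℤ)
          rw [← e3]
          exact p2
      · intro x hx x' hx' hxx
        rw [mem_coe, mem_filter] at hx hx'
        have p1 := hx.2 g hg
        have p1' := hx'.2 g hg
        rw [← hi] at p1 p1'
        have h6 := Pool.Agent.TH899.UG.GD.toNat_eq' p1
        have h6' := Pool.Agent.TH899.UG.GD.toNat_eq' p1'
        have h7 : ((D : ℤ) ^ i * x + B D e i).toNat = ((D : ℤ) ^ i * x' + B D e i).toNat := hxx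
        rw [h7, h6'] at h6
        have h8 : (D : ℤ) ^ i * (x' : ℤ) = (D : ℤ) ^ i * x := by linarith
        have h9 : (D : ℤ) ^ i ≠ 0 := by positivity
        have h10 := mul_left_cancel₀ h9 h8
        exact_mod_cast h10.symm)
  exact ⟨M, T, h1, h2, h3, h5⟩

end Pool.Agent.TH899.UG.UIt
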